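import Mathlib

/-! Path systems on `Fin n` as lists; basic definitions. -/

open Finset

namespace PSys

/-- A path system: a list of vertices for every ordered pair. -/
abbrev Sys (n : ℕ) := Fin n → Fin n → List (Fin n)

/-- Consistent path systems: `P u v` is a simple path from `u` to `v`, `P v u` is its reverse,
and whenever `a` lies on `P u v`, the path `P u v` is the concatenation of `P u a` and `P a v`. -/
structure IsCPS {n : ℕ} (P : Sys n) : Prop where
  self : ∀ u, P u u = [u]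
  head : ∀ u v, (P u v).head? = some u
  last : ∀ u v, (P u v).getLast? = some v
  nodup : ∀ u v, (P u v).Nodup
  symm : ∀ u v, P v u = (P u v).reverse
  cons : ∀ u v a, a ∈ P u v → P u v = P u a ++ (P a v).tail

/-- Total weight of the consecutive pairs of a list. -/
def wt {n : ℕ} (w : Fin n → Fin n → ℝ) : List (Fin n) → ℝ
  | a :: b :: l => w a b + wt w (b :: l)
  | _ => 0

/-- `P` is metric: for some positive symmetric weights all its paths are shortest. -/
def IsMetric {n : ℕ} (P : Sys n) : Prop :=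
  ∃ w : Fin n → Fin n → ℝ, (∀ a b, w a b = w b a) ∧ (∀ a b, a ≠ b → 0 < w a b) ∧
    ∀ u v, u ≠ v → ∀ L : List (Fin n), L.Nodup → L.head? = some u → L.getLast? = some v →
      wt w (P u v) ≤ wt w L

/-- `u v` is a direct pair. -/
def Dir {n : ℕ} (P : Sys n) (u v : Fin n) : Prop := u ≠ v ∧ P u v = [u, v]

/-- the vertex after `u` on `P u v` (and `u` itself if there is none) -/
def hop {n : ℕ} (P : Sys n) (u v : Fin n) : Fin n := (P u v).tail.headD u

/-- Closed family of paths on a vertex set `U` (some pairs may carry no path: value `[]`). -/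
structure IsFam {n : ℕ} (U : Finset (Fin n)) (Q : Sys n) : Prop where
  sub : ∀ u v, ∀ x ∈ Q u v, x ∈ U
  self : ∀ u ∈ U, Q u u = [u]
  head : ∀ u v, Q u v ≠ [] → (Q u v).head? = some u
  last : ∀ u v, Q u v ≠ [] → (Q u v).getLast? = some v
  nodup : ∀ u v, (Q u v).Nodup
  symm : ∀ u v, Q v u = (Q u v).reverse
  cons : ∀ u v a, a ∈ Q u v → Q u a ≠ [] ∧ Q a v ≠ [] ∧ Q u v = Q u a ++ (Q a v).tail

theorem finite_nodup_sys (n : ℕ) : {f : Sys n | ∀ u v, (f u v).Nodup}.Finite := by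
  classical
  have h1 : (Set.univ : Set (Fin n → Fin n → {l : List (Fin n) // l.Nodup})).Finite :=
    Set.finite_univ
  refine (h1.image (fun f u v => (f u v).1)).subset ?_
  intro f hf
  exact ⟨fun u v => ⟨f u v, hf u v⟩, Set.mem_univ _, rfl⟩

theorem finite_cps (n : ℕ) : {P : Sys n | IsCPS P}.Finite :=
  (finite_nodup_sys n).subset (fun _ hP => hP.nodup)

theorem finite_fams {n : ℕ} (U : Finset (Fin n)) : {P : Sys n | IsFam U P}.Finite :=
  (finite_nodup_sys n).subset (fun _ hP => hP.nodup)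

/-- all consistent path systems -/
noncomputable def cps (n : ℕ) : Finset (Sys n) := (finite_cps n).toFinset

/-- all closed families on `U` -/
noncomputable def fams {n : ℕ} (U : Finset (Fin n)) : Finset (Sys n) := (finite_fams U).toFinset

theorem mem_cps {n : ℕ} {P : Sys n} : P ∈ cps n ↔ IsCPS P := by
  simp [cps]

theorem mem_fams {n : ℕ} {U : Finset (Fin n)} {Q : Sys n} : Q ∈ fams U ↔ IsFam U Q := by
  simp [fams]

open Classical in
/-- nondiagonal unordered pairs of elements of `U` -/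
noncomputable def prs {n : ℕ} (U : Finset (Fin n)) : Finset (Sym2 (Fin n)) :=
  univ.filter (fun e => ∃ u v, e = s(u, v) ∧ u ≠ v ∧ u ∈ U ∧ v ∈ U)

open Classical in
/-- the pairs carrying a path -/
noncomputable def fD {n : ℕ} (Q : Sys n) : Finset (Sym2 (Fin n)) :=
  univ.filter (fun e => ∃ u v, e = s(u, v) ∧ u ≠ v ∧ Q u v ≠ [])

open Classical in
/-- the direct pairs -/
noncomputable def fG {n : ℕ} (Q : Sys n) : Finset (Sym2 (Fin n)) :=
  univ.filter (fun e => ∃ u v, e = s(u, v) ∧ u ≠ v ∧ Q u v = [u, v])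

open Classical in
/-- degree of a vertex in a set of pairs -/
noncomputable def dgr {n : ℕ} (G : Finset (Sym2 (Fin n))) (x : Fin n) : ℕ :=
  (univ.filter (fun y => s(x, y) ∈ G)).card

theorem mem_prs {n : ℕ} {U : Finset (Fin n)} {u v : Fin n} :
    s(u, v) ∈ prs U ↔ u ≠ v ∧ u ∈ U ∧ v ∈ U := by
  simp only [prs, mem_filter, mem_univ, true_and]
  constructor
  · rintro ⟨a, b, hab, hne, ha, hb⟩
    rcases Sym2.eq_iff.1 hab with ⟨rfl, rfl⟩ | ⟨rfl, rfl⟩
    · exact ⟨hne, ha, hb⟩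
    · exact ⟨hne.symm, hb, ha⟩
  · rintro ⟨hne, ha, hb⟩
    exact ⟨u, v, rfl, hne, ha, hb⟩

theorem card_prs {n : ℕ} (U : Finset (Fin n)) : (prs U).card = U.card.choose 2 := by
  classical
  rw [← Sym2.card_image_offDiag U]
  congr 1
  ext e
  induction e with
  | _ u v =>
    rw [mem_prs]
    simp only [mem_image, mem_offDiag, Prod.exists, Function.uncurry_apply_pair, Sym2.eq_iff]
    constructor
    · rintro ⟨h1, h2, h3⟩
      exact ⟨u, v, ⟨h2, h3, h1⟩, Or.inl ⟨rfl, rfl⟩⟩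
    · rintro ⟨a, b, ⟨h2, h3, h1⟩, ⟨rfl, rfl⟩ | ⟨rfl, rfl⟩⟩
      · exact ⟨h1, h2, h3⟩
      · exact ⟨h1.symm, h3, h2⟩

theorem mem_fD {n : ℕ} {U : Finset (Fin n)} {Q : Sys n} (hQ : IsFam U Q) {u v : Fin n} :
    s(u, v) ∈ fD Q ↔ u ≠ v ∧ Q u v ≠ [] := by
  simp only [fD, mem_filter, mem_univ, true_and]
  constructor
  · rintro ⟨a, b, hab, hne, h⟩
    rcases Sym2.eq_iff.1 hab with ⟨rfl, rfl⟩ | ⟨rfl, rfl⟩
    · exact ⟨hne, h⟩
    · refine ⟨hne.symm, ?_⟩
      rw [hQ.symm v u]
      simpa using h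
  · rintro ⟨hne, h⟩
    exact ⟨u, v, rfl, hne, h⟩

theorem mem_fG {n : ℕ} {U : Finset (Fin n)} {Q : Sys n} (hQ : IsFam U Q) {u v : Fin n} :
    s(u, v) ∈ fG Q ↔ Dir Q u v := by
  simp only [fG, mem_filter, mem_univ, true_and, Dir]
  constructor
  · rintro ⟨a, b, hab, hne, h⟩
    rcases Sym2.eq_iff.1 hab with ⟨rfl, rfl⟩ | ⟨rfl, rfl⟩
    · exact ⟨hne, h⟩
    · refine ⟨hne.symm, ?_⟩
      rw [hQ.symm v u, h]
      rfl
  · rintro ⟨hne, h⟩
    exact ⟨u, v, rfl, hne, h⟩

theorem IsCPS.ne_nil {n : ℕ} {P : Sys n} (hP : IsCPS P) (u v : Fin n) : P u v ≠ [] := by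
  intro h
  have := hP.head u v
  rw [h] at this
  simp at this

theorem IsCPS.fam {n : ℕ} {P : Sys n} (hP : IsCPS P) : IsFam univ P where
  sub := fun _ _ x _ => mem_univ x
  self := fun u _ => hP.self u
  head := fun u v _ => hP.head u v
  last := fun u v _ => hP.last u v
  nodup := hP.nodup
  symm := hP.symm
  cons := fun u v a ha => ⟨hP.ne_nil u a, hP.ne_nil a v, hP.cons u v a ha⟩

end PSys
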