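import Mathlib
import Pool.Agent.PSys.Defs

/-! Basic facts on closed families of paths (and consistent path systems). -/

open Finset

namespace PSys

variable {n : ℕ} {U : Finset (Fin n)} {Q : Sys n}

namespace IsFam

theorem ne_nil_of_mem {u v x : Fin n} (h : x ∈ Q u v) : Q u v ≠ [] := by
  intro h0; rw [h0] at h; simp at h

theorem mem_left (hQ : IsFam U Q) {u v : Fin n} (h : Q u v ≠ []) : u ∈ Q u v :=
  List.mem_of_mem_head? (by rw [hQ.head u v h]; rfl)

theorem mem_right (hQ : IsFam U Q) {u v : Fin n} (h : Q u v ≠ []) : v ∈ Q u v :=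
  List.mem_of_getLast? (by rw [hQ.last u v h])

theorem mem_symm (hQ : IsFam U Q) {u v x : Fin n} : x ∈ Q v u ↔ x ∈ Q u v := by
  rw [hQ.symm u v, List.mem_reverse]

theorem ne_symm (hQ : IsFam U Q) {u v : Fin n} : Q v u ≠ [] ↔ Q u v ≠ [] := by
  rw [hQ.symm u v]; simp

theorem dir_symm (hQ : IsFam U Q) {u v : Fin n} : Dir Q v u ↔ Dir Q u v := by
  unfold Dir
  rw [hQ.symm u v]
  constructor
  · rintro ⟨h1, h2⟩
    refine ⟨h1.symm, ?_⟩
    have := congrArg List.reverse h2
    simpa using this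
  · rintro ⟨h1, h2⟩
    refine ⟨h1.symm, ?_⟩
    rw [h2]; rfl

theorem eq_cons_tail (hQ : IsFam U Q) {u v : Fin n} (h : Q u v ≠ []) :
    Q u v = u :: (Q u v).tail := by
  have h1 := hQ.head u v h
  cases h2 : Q u v with
  | nil => exact absurd h2 h
  | cons a l =>
    rw [h2] at h1
    simp at h1
    simp [h1]

theorem left_mem (hQ : IsFam U Q) {u v : Fin n} (h : Q u v ≠ []) : u ∈ U :=
  hQ.sub u v u (hQ.mem_left h)

theorem right_mem (hQ : IsFam U Q) {u v : Fin n} (h : Q u v ≠ []) : v ∈ U :=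
  hQ.sub u v v (hQ.mem_right h)

/-- membership splits at an intermediate vertex -/
theorem split (hQ : IsFam U Q) {u v a : Fin n} (ha : a ∈ Q u v) {x : Fin n} :
    x ∈ Q u v ↔ x ∈ Q u a ∨ x ∈ Q a v := by
  obtain ⟨h1, h2, h3⟩ := hQ.cons u v a ha
  rw [h3, List.mem_append]
  constructor
  · rintro (h | h)
    · exact Or.inl h
    · exact Or.inr (List.mem_of_mem_tail h)
  · rintro (h | h)
    · exact Or.inl h
    · rw [hQ.eq_cons_tail h2, List.mem_cons] at h
      rcases h with rfl | h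
      · exact Or.inl (hQ.mem_right h1)
      · exact Or.inr h

theorem inter (hQ : IsFam U Q) {u v a : Fin n} (ha : a ∈ Q u v) {x : Fin n}
    (h1 : x ∈ Q u a) (h2 : x ∈ Q a v) : x = a := by
  obtain ⟨h3, h4, h5⟩ := hQ.cons u v a ha
  have hn := hQ.nodup u v
  rw [h5, List.nodup_append] at hn
  rw [hQ.eq_cons_tail h4, List.mem_cons] at h2
  rcases h2 with h2 | h2
  · exact h2
  · exact absurd rfl (hn.2.2 x h1 x h2)

theorem length_add (hQ : IsFam U Q) {u v a : Fin n} (ha : a ∈ Q u v) :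
    (Q u v).length + 1 = (Q u a).length + (Q a v).length := by
  obtain ⟨h3, h4, h5⟩ := hQ.cons u v a ha
  have h6 : 0 < (Q a v).length := List.length_pos_of_ne_nil h4
  rw [h5, List.length_append, List.length_tail]
  omega

theorem ne_left_of_mem (hQ : IsFam U Q) {u v a : Fin n} (ha : a ∈ Q u v) : Q u a ≠ [] :=
  (hQ.cons u v a ha).1

theorem ne_right_of_mem (hQ : IsFam U Q) {u v a : Fin n} (ha : a ∈ Q u v) : Q a v ≠ [] :=
  (hQ.cons u v a ha).2.1

theorem two_le (hQ : IsFam U Q) {u v : Fin n} (h : Q u v ≠ []) (huv : u ≠ v) :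
    2 ≤ (Q u v).length := by
  have h1 := hQ.eq_cons_tail h
  have h2 := hQ.mem_right h
  rw [h1, List.mem_cons] at h2
  rcases h2 with h2 | h2
  · exact absurd h2.symm huv
  · have h3 : 0 < (Q u v).tail.length := List.length_pos_of_mem h2
    rw [List.length_tail] at h3
    omega

theorem length_lt_left (hQ : IsFam U Q) {u v a : Fin n} (ha : a ∈ Q u v) (hav : a ≠ v) :
    (Q u a).length < (Q u v).length := by
  have h1 := hQ.length_add ha
  have h2 := hQ.two_le (hQ.ne_right_of_mem ha) hav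
  omega

theorem length_lt_right (hQ : IsFam U Q) {u v a : Fin n} (ha : a ∈ Q u v) (hua : u ≠ a) :
    (Q a v).length < (Q u v).length := by
  have h1 := hQ.length_add ha
  have h2 := hQ.two_le (hQ.ne_left_of_mem ha) hua
  omega

/-- basic structure of a path at its first vertex -/
theorem hop_spec (hQ : IsFam U Q) {u v : Fin n} (h : Q u v ≠ []) (huv : u ≠ v) :
    Dir Q u (hop Q u v) ∧ hop Q u v ∈ Q u v ∧ Q u v = u :: Q (hop Q u v) v := by
  have h1 := hQ.eq_cons_tail h
  have h2 := hQ.two_le h huv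
  obtain ⟨y, l, hyl⟩ : ∃ y l, (Q u v).tail = y :: l := by
    cases h3 : (Q u v).tail with
    | nil =>
      have : (Q u v).tail.length = 0 := by rw [h3]; rfl
      rw [List.length_tail] at this; omega
    | cons y l => exact ⟨y, l, rfl⟩
  have hhop : hop Q u v = y := by
    unfold hop; rw [hyl]; rfl
  rw [hhop]
  have hQuv : Q u v = u :: y :: l := by rw [h1, hyl]
  have hy : y ∈ Q u v := by rw [hQuv]; simp
  obtain ⟨h3, h4, h5⟩ := hQ.cons u v y hy
  have hn := hQ.nodup u v
  have huy : u ≠ y := by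
    intro h6
    rw [hQuv, ← h6] at hn
    simp at hn
  have h6 := hQ.eq_cons_tail h3
  have h7 := hQ.mem_right h3
  rw [h6, List.mem_cons] at h7
  rcases h7 with h7 | h7
  · exact absurd h7.symm huy
  -- Q u y = u :: t with y ∈ t, and u :: t ++ (Q y v).tail = u :: y :: l
  have h8 : (Q u y).tail ++ (Q y v).tail = y :: l := by
    have h9 : u :: ((Q u y).tail ++ (Q y v).tail) = u :: (y :: l) := by
      rw [← List.cons_append, ← h6, ← h5, hQuv]
    exact (List.cons.inj h9).2
  cases h9 : (Q u y).tail with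
  | nil => rw [h9] at h7; simp at h7
  | cons z t =>
    rw [h9] at h8 h7
    simp only [List.cons_append, List.cons.injEq] at h8
    obtain ⟨h10, h11⟩ := h8
    have hlast := hQ.last u y h3
    have ht : t = [] := by
      by_contra htne
      have hny := hQ.nodup u y
      rw [h6, h9, h10] at hlast hny
      rw [List.getLast?_cons_cons] at hlast
      have h12 : (y :: t).getLast? = some y := hlast
      rw [List.getLast?_cons, ] at h12
      simp only [Option.some.injEq] at h12
      have h13 : t.getLast?.getD y ∈ t := by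
        cases h14 : t.getLast? with
        | none => rw [List.getLast?_eq_none_iff] at h14; exact absurd h14 htne
        | some w =>
          have := List.mem_of_getLast? h14
          simpa using this
      rw [h12] at h13
      simp only [List.nodup_cons] at hny
      exact hny.2.1 h13
    subst ht
    subst h10
    refine ⟨⟨huy, ?_⟩, hy, ?_⟩
    · rw [h6, h9]
    · rw [hQuv, hQ.eq_cons_tail h4]
      simp only [List.nil_append] at h11
      rw [h11]

theorem hop_dir (hQ : IsFam U Q) {u v : Fin n} (h : Q u v ≠ []) (huv : u ≠ v) :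
    Dir Q u (hop Q u v) := (hQ.hop_spec h huv).1

theorem hop_mem (hQ : IsFam U Q) {u v : Fin n} (h : Q u v ≠ []) (huv : u ≠ v) :
    hop Q u v ∈ Q u v := (hQ.hop_spec h huv).2.1

theorem cons_hop (hQ : IsFam U Q) {u v : Fin n} (h : Q u v ≠ []) (huv : u ≠ v) :
    Q u v = u :: Q (hop Q u v) v := (hQ.hop_spec h huv).2.2

theorem length_hop (hQ : IsFam U Q) {u v : Fin n} (h : Q u v ≠ []) (huv : u ≠ v) :
    (Q u v).length = (Q (hop Q u v) v).length + 1 := by
  conv_lhs => rw [hQ.cons_hop h huv]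
  simp

/-- the path to `v` ends with the edge from `hop Q v u` -/
theorem snoc_hop (hQ : IsFam U Q) {u v : Fin n} (h : Q u v ≠ []) (huv : u ≠ v) :
    Q u v = Q u (hop Q v u) ++ [v] := by
  have h1 := hQ.cons_hop (hQ.ne_symm.2 h) huv.symm
  rw [hQ.symm v u, h1, List.reverse_cons, hQ.symm u (hop Q v u)]
  simp

theorem dir_ne {u v : Fin n} (h : Dir Q u v) : Q u v ≠ [] := by
  rw [h.2]; simp

/-- a direct neighbour of `u` lying on `Q u v` is the first hop -/
theorem eq_hop (hQ : IsFam U Q) {u v x : Fin n} (hx : x ∈ Q u v) (hd : Dir Q u x) :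
    x = hop Q u v := by
  obtain ⟨_, h4, h5⟩ := hQ.cons u v x hx
  unfold hop
  rw [h5, hd.2]
  rfl

/-- order of two vertices on a path -/
theorem order (hQ : IsFam U Q) {u v a b : Fin n} (ha : a ∈ Q u v) (hb : b ∈ Q a v) :
    a ∈ Q u b := by
  have hb' : b ∈ Q u v := (hQ.split ha).2 (Or.inr hb)
  rcases (hQ.split hb').1 ha with h | h
  · exact h
  · have h1 : a ∈ Q a b := hQ.mem_left (hQ.ne_left_of_mem hb)
    have h2 := hQ.inter hb h1 h
    subst h2
    exact hQ.mem_right (hQ.ne_left_of_mem ha)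

theorem order_total (hQ : IsFam U Q) {u v a b : Fin n} (ha : a ∈ Q u v) (hb : b ∈ Q u v) :
    (a ∈ Q u b ∧ b ∈ Q a v) ∨ (b ∈ Q u a ∧ a ∈ Q b v) := by
  rcases (hQ.split ha).1 hb with h | h
  · right
    refine ⟨h, ?_⟩
    have h1 : b ∈ Q a u := hQ.mem_symm.2 h
    have h2 : a ∈ Q v u := hQ.mem_symm.2 ha
    exact hQ.mem_symm.1 (hQ.order h2 h1)
  · exact Or.inl ⟨hQ.order ha h, h⟩

/-- subpaths are contained in the path -/
theorem mem_sub (hQ : IsFam U Q) {u v a b x : Fin n} (ha : a ∈ Q u v) (hb : b ∈ Q u v)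
    (hx : x ∈ Q a b) : x ∈ Q u v := by
  rcases hQ.order_total ha hb with ⟨_, h2⟩ | ⟨h1, _⟩
  · exact (hQ.split ha).2 (Or.inr ((hQ.split h2).2 (Or.inl hx)))
  · have h3 : x ∈ Q b a := hQ.mem_symm.2 hx
    exact (hQ.split ha).2 (Or.inl ((hQ.split h1).2 (Or.inr h3)))

theorem ne_nil_sub (hQ : IsFam U Q) {u v a b : Fin n} (ha : a ∈ Q u v) (hb : b ∈ Q u v) :
    Q a b ≠ [] := by
  rcases hQ.order_total ha hb with ⟨_, h2⟩ | ⟨h1, _⟩
  · exact hQ.ne_left_of_mem h2
  · exact hQ.ne_symm.2 (hQ.ne_right_of_mem h1)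

/-- the last hop does not change when the start moves along the path -/
theorem hop_eq_of_mem (hQ : IsFam U Q) {u v a : Fin n} (ha : a ∈ Q u v) (hav : a ≠ v) :
    hop Q v a = hop Q v u := by
  have h1 : a ∈ Q v u := hQ.mem_symm.2 ha
  have h2 : Q v a ≠ [] := hQ.ne_left_of_mem h1
  have h3 := hQ.hop_mem h2 hav.symm
  exact hQ.eq_hop ((hQ.split h1).2 (Or.inl h3)) (hQ.hop_dir h2 hav.symm)

theorem dir_iff_length (hQ : IsFam U Q) {u v : Fin n} (h : Q u v ≠ []) (huv : u ≠ v) :
    Dir Q u v ↔ (Q u v).length = 2 := by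
  constructor
  · rintro ⟨_, h2⟩; rw [h2]; rfl
  · intro h2
    have h3 := hQ.cons_hop h huv
    have h4 := hQ.length_hop h huv
    by_cases h5 : hop Q u v = v
    · refine ⟨huv, ?_⟩
      rw [h3, h5, hQ.self v (hQ.right_mem h)]
    · have h6 := hQ.two_le (hQ.ne_right_of_mem (hQ.hop_mem h huv)) h5
      omega

theorem not_dir_hop_ne (hQ : IsFam U Q) {u v : Fin n} (h : Q u v ≠ []) (huv : u ≠ v)
    (hd : ¬ Dir Q u v) : hop Q u v ≠ v := by
  intro h5
  apply hd
  have := hQ.hop_dir h huv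
  rwa [h5] at this

end IsFam

/-- extensionality at an intermediate vertex -/
theorem ext_of_mem {U U' : Finset (Fin n)} {Q Q' : Sys n} (hQ : IsFam U Q) (hQ' : IsFam U' Q')
    {u v a : Fin n} (h : a ∈ Q u v) (h' : a ∈ Q' u v) (h1 : Q u a = Q' u a) (h2 : Q a v = Q' a v) :
    Q u v = Q' u v := by
  rw [(hQ.cons u v a h).2.2, (hQ'.cons u v a h').2.2, h1, h2]

end PSys
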