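import Mathlib
import Pool.Agent.PSys.Defs
import Pool.Agent.PSys.Basic

/-! Definitions used by the counting of path systems. `B` is the set of hubs, its complement the
set of leaves. -/

open Finset

namespace PSys

/-- `n / (2 log n)` -/
noncomputable def b0 (n : ℕ) : ℝ := n / (2 * Real.log n)

/-- the number of hubs is in the typical range -/
def Rng {n : ℕ} (B : Finset (Fin n)) : Prop := |(B.card : ℝ) - b0 n| ≤ b0 n / 20000

/-- `x` and `y` are on the same side -/
def Same {n : ℕ} (B : Finset (Fin n)) (x y : Fin n) : Prop := (x ∈ B ↔ y ∈ B)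

/-- standard pair: same side, the path is `[x, z, y]` with `z` on the other side -/
def Std {n : ℕ} (B : Finset (Fin n)) (P : Sys n) (x y z : Fin n) : Prop :=
  P x y = [x, z, y] ∧ Same B x y ∧ ¬ Same B x z

/-- special pair: neither direct nor standard -/
def Special {n : ℕ} (B : Finset (Fin n)) (P : Sys n) (x y : Fin n) : Prop :=
  x ≠ y ∧ P x y ≠ [x, y] ∧ ∀ z, ¬ Std B P x y z

/-- alternating path with three edges -/
def Alt3 {n : ℕ} (B : Finset (Fin n)) (P : Sys n) (x y : Fin n) : Prop :=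
  ∃ c a, P x y = [x, c, a, y] ∧ ¬ Same B x c ∧ ¬ Same B c a ∧ ¬ Same B a y

/-- R-pair: at least three edges and not an alternating path with three edges -/
def Rp {n : ℕ} (B : Finset (Fin n)) (P : Sys n) (x y : Fin n) : Prop :=
  4 ≤ (P x y).length ∧ ¬ Alt3 B P x y

/-- no other path contains both `x` and `y` -/
def Maxl {n : ℕ} (P : Sys n) (x y : Fin n) : Prop :=
  x ≠ y ∧ ∀ x' y', x ∈ P x' y' → y ∈ P x' y' → s(x', y') = s(x, y)

open Classical in
/-- The good class of Stage 3. -/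
structure Good {n : ℕ} (B : Finset (Fin n)) (P : Sys n) : Prop where
  cps : IsCPS P
  g0 : Rng B
  g1 : ∀ x, ((univ.filter (fun y => Same B x y ∧ Dir P x y)).card : ℝ) ≤ (n : ℝ) ^ ((1 : ℝ) / 30)
  g2 : ((univ.filter (fun p : Fin n × Fin n => Special B P p.1 p.2)).card : ℝ)
        ≤ (n : ℝ) ^ ((1 : ℝ) / 10)
  g3 : ∀ x z, ((univ.filter (fun y => Std B P x y z)).card : ℝ) ≤ (n : ℝ) ^ ((1 : ℝ) / 30)

/-- violation of condition (c) of the criterion -/
def Viol {n : ℕ} (B : Finset (Fin n)) (P : Sys n) : Prop :=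
  ∃ x m y z z', P x y = [x, m, y] ∧ Same B x m ∧ Same B x y ∧ ¬ Same B z z' ∧ ¬ Dir P z z' ∧
    (z = x ∨ z = m ∨ z = y)

/-- `exp(-10^6)` -/
noncomputable def epsP : ℝ := Real.exp (-1000000)

/-- `exp(320000)` -/
noncomputable def tt : ℝ := Real.exp 320000

/-- `n^(-2+1/50)` -/
noncomputable def wv (n : ℕ) : ℝ := (n : ℝ) ^ (-((99 : ℝ) / 50))

/-! ### coarse structure -/

open Classical in
/-- the vertices of almost full degree -/
noncomputable def hubs {n : ℕ} (G : Finset (Sym2 (Fin n))) : Finset (Fin n) :=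
  univ.filter (fun x => (1 - 1 / 1000) * (n : ℝ) ≤ dgr G x)

open Classical in
/-- pairs of `G` inside `U` -/
noncomputable def inside {n : ℕ} (G : Finset (Sym2 (Fin n))) (U : Finset (Fin n)) :
    Finset (Sym2 (Fin n)) := G.filter (fun e => ∀ x ∈ e, x ∈ U)

/-- coarse structure -/
def CS1 {n : ℕ} (G : Finset (Sym2 (Fin n))) : Prop :=
  Rng (hubs G) ∧ ((inside G (hubs G)ᶜ).card : ℝ) ≤ epsP * n * (hubs G).card

/-! ### data of a consistent path system with respect to a set of hubs -/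

open Classical in
/-- restriction of a path system to the paths staying in `U` -/
noncomputable def restr {n : ℕ} (U : Finset (Fin n)) (P : Sys n) : Sys n :=
  fun u v => if ∀ x ∈ P u v, x ∈ U then P u v else []

/-- labelling functions of pairs -/
abbrev Lb (n : ℕ) := Sym2 (Fin n) → Option (Fin n)

/-- types of the nondirect hub-leaf pairs: `(0, a)`, `(1, c)`, `(2, c)` -/
abbrev Ty (n : ℕ) := Fin n → Fin n → Option (Fin 3 × Fin n)

open Classical in
/-- labellings with support `E` and values in `C` -/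
noncomputable def labs {n : ℕ} (E : Finset (Sym2 (Fin n))) (C : Finset (Fin n)) :
    Finset (Lb n) :=
  univ.filter (fun f => (∀ e, f e = none ↔ e ∉ E) ∧ ∀ e b, f e = some b → b ∈ C)

open Classical in
/-- the support of a type function -/
noncomputable def Zs {n : ℕ} (l : Ty n) : Finset (Fin n × Fin n) :=
  univ.filter (fun p => l p.1 p.2 ≠ none)

open Classical in
/-- leaf pairs not joined inside the leaves -/
noncomputable def EA {n : ℕ} (B : Finset (Fin n)) (QA : Sys n) : Finset (Sym2 (Fin n)) :=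
  prs Bᶜ \ fD QA

open Classical in
/-- hub pairs not joined inside the hubs -/
noncomputable def EB {n : ℕ} (B : Finset (Fin n)) (QB : Sys n) : Finset (Sym2 (Fin n)) :=
  prs B \ fD QB

/-- The data `lam, mu, l` belong to the system `P`. -/
structure HasDat {n : ℕ} (B : Finset (Fin n)) (P : Sys n) (lam mu : Lb n) (l : Ty n) : Prop where
  lam_none : ∀ e, lam e = none ↔
    ¬ ∃ u v, e = s(u, v) ∧ u ≠ v ∧ u ∉ B ∧ v ∉ B ∧ ¬ (∀ x ∈ P u v, x ∉ B)
  lam_mem : ∀ u v b, lam s(u, v) = some b → b ∈ B ∧ b ∈ P u v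
  mu_none : ∀ e, mu e = none ↔
    ¬ ∃ b c, e = s(b, c) ∧ b ≠ c ∧ b ∈ B ∧ c ∈ B ∧ ¬ (∀ x ∈ P b c, x ∈ B)
  mu_mem : ∀ b c a, mu s(b, c) = some a → a ∉ B ∧ a ∈ P b c
  l_none : ∀ u b, l u b = none ↔ ¬ (u ∉ B ∧ b ∈ B ∧ ¬ Dir P u b)
  ty1 : ∀ u b a, l u b = some (0, a) → a ∉ B ∧ Dir P u a ∧ a ∈ P u b
  ty2 : ∀ u b c, l u b = some (1, c) → c ∈ B ∧ Dir P c b ∧ c ∈ P u b
  ty3 : ∀ u b c, l u b = some (2, c) → c ∈ B ∧ c ≠ b ∧ c ∈ P u b ∧
    ∃ a, mu s(c, b) = some a ∧ a ∈ P c b ∧ lam s(u, a) = some c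
  user1 : ∀ u b a v, l u b = some (0, a) → lam s(u, v) = some b →
    l v b ≠ none ∨ lam s(a, v) = some b
  user2 : ∀ u b c v, l u b = some (1, c) → lam s(u, v) = some b → l v c ≠ none
  user3 : ∀ u b c v, l u b = some (2, c) → lam s(u, v) = some b → l v c ≠ none

open Classical in
/-- Valid data for given families `QA`, `QB` inside the leaves and inside the hubs. -/
structure VDat {n : ℕ} (B : Finset (Fin n)) (QA QB : Sys n) (lam mu : Lb n) (l : Ty n) :
    Prop where
  hlam : lam ∈ labs (EA B QA) B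
  hmu : mu ∈ labs (EB B QB) Bᶜ
  l_AB : ∀ u b, l u b ≠ none → u ∉ B ∧ b ∈ B
  ty1 : ∀ u b a, l u b = some (0, a) → s(u, a) ∈ fG QA
  ty2 : ∀ u b c, l u b = some (1, c) → s(c, b) ∈ fG QB
  ty3 : ∀ u b c, l u b = some (2, c) → ∃ a, mu s(c, b) = some a ∧ lam s(u, a) = some c
  user1 : ∀ u b a v, l u b = some (0, a) → lam s(u, v) = some b →
    l v b ≠ none ∨ lam s(a, v) = some b
  user2 : ∀ u b c v, l u b = some (1, c) → lam s(u, v) = some b → l v c ≠ none
  user3 : ∀ u b c v, l u b = some (2, c) → lam s(u, v) = some b → l v c ≠ none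
  rank : ∃ r : Fin n → Fin n → ℕ, ∀ u b a, l u b = some (0, a) → r a b < r u b
  few : ∀ b, ((univ.filter (fun u => l u b ≠ none)).card : ℝ) ≤ (n : ℝ) / 1000

open Classical in
/-- the number of possible labels of type 3 -/
noncomputable def Aub {n : ℕ} (lam mu : Lb n) (u b : Fin n) : ℕ :=
  (univ.filter (fun c => ∃ a, mu s(c, b) = some a ∧ lam s(u, a) = some c)).card

/-- `e (1 + e/beta)^m` with `m = floor(n/500)` -/
noncomputable def ccv {n : ℕ} (B : Finset (Fin n)) : ℝ :=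
  Real.exp 1 * (1 + Real.exp 1 / B.card) ^ ⌊(n : ℝ) / 500⌋₊

/-- the weight of a nondirect hub-leaf pair -/
noncomputable def wpr {n : ℕ} (B : Finset (Fin n)) (QA : Sys n) (u : Fin n) : ℝ :=
  Real.exp (-(((Bᶜ.card : ℝ) - 1 - dgr (fD QA) u - n / 500) / B.card)) * ccv B *
    Real.exp (n * (Real.exp 1 / B.card) ^ 2 * (1 + Real.exp 1 / B.card) ^ ⌊(n : ℝ) / 500⌋₊)

/-- the dominating product -/
noncomputable def domR {n : ℕ} (B : Finset (Fin n)) (QA QB : Sys n) (lam mu : Lb n) : ℝ :=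
  ∏ u ∈ Bᶜ, ∏ b ∈ B,
    (1 + Real.exp 1 * wpr B QA u * (dgr (fG QA) u + dgr (fG QB) b + Aub lam mu u b))

open Classical in
/-- large multiplicity of a leaf-pair label -/
def BMl {n : ℕ} (lam : Lb n) (l : Ty n) : Prop :=
  ∃ u b, (Zs l).card + ⌈(n : ℝ) ^ ((1 : ℝ) / 32)⌉₊ ≤
    (univ.filter (fun v => lam s(u, v) = some b)).card

open Classical in
/-- large multiplicity of a hub-pair label -/
def BMm {n : ℕ} (mu : Lb n) : Prop :=
  ∃ b a, ⌈(n : ℝ) ^ ((1 : ℝ) / 32)⌉₊ ≤ (univ.filter (fun c => mu s(b, c) = some a)).card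

open Classical in
/-- number of leaves with many pairs joined inside the leaves -/
noncomputable def badn {n : ℕ} (QA : Sys n) : ℕ :=
  (univ.filter (fun u => (n : ℝ) / 8000 ≤ dgr (fD QA) u)).card

/-- the bound of CNT -/
noncomputable def cntX {n : ℕ} (B : Finset (Fin n)) (QA QB : Sys n) : ℝ :=
  (B.card : ℝ) ^ (EA B QA).card * (Bᶜ.card : ℝ) ^ (EB B QB).card *
    Real.exp (n * badn QA + 2 * wv n * B.card * (fG QA).card + 2 * wv n * Bᶜ.card * (fG QB).card
      + 2 * wv n * Bᶜ.card * B.card)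

open Classical in
/-- number of vertices of degree at least `n^(1/32)` -/
noncomputable def hin {n : ℕ} (G : Finset (Sym2 (Fin n))) : ℕ :=
  (univ.filter (fun x => (n : ℝ) ^ ((1 : ℝ) / 32) ≤ dgr G x)).card

/-- number of cherries -/
noncomputable def cher {n : ℕ} (G : Finset (Sym2 (Fin n))) : ℕ := ∑ y, (dgr G y).choose 2

/-- the number of base systems -/
noncomputable def baseN {n : ℕ} (B : Finset (Fin n)) : ℝ :=
  (1 + B.card : ℝ) ^ (Bᶜ.card.choose 2) * (1 + Bᶜ.card : ℝ) ^ (B.card.choose 2)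

end PSys
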