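import Mathlib
import Pool.Agent.PSys.Spec

/-! Module GOODB (blueprint 0.1): `B` is determined by a good system, also after adding one direct
pair; sizes. -/

open Finset Filter

namespace PSys

open Classical in
/-- For good `(B, P)`: a hub misses at most `n^(1/10)` leaves, a leaf misses at most `n^(1/10)`
hubs. -/
theorem good_miss {n : ℕ} {B : Finset (Fin n)} {P : Sys n} (h : Good B P) (x : Fin n) :
    ((univ.filter (fun y => ¬ Same B x y ∧ ¬ Dir P x y)).card : ℝ) ≤ (n : ℝ) ^ ((1 : ℝ) / 10) := by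
  refine le_trans ?_ h.g2
  norm_cast
  apply Finset.card_le_card_of_injOn (fun y => (x, y))
  · intro y hy
    simp only [coe_filter, Set.mem_ofPred_eq, mem_univ, true_and] at hy ⊢
    obtain ⟨h1, h2⟩ := hy
    have hne : x ≠ y := by
      rintro rfl
      exact h1 Iff.rfl
    refine ⟨hne, fun h3 => h2 ⟨hne, h3⟩, fun z hz => h1 hz.2.1⟩
  · intro y _ y' _ hyy
    exact (Prod.ext_iff.mp hyy).2

/-- sizes: numerical consequences of `Rng B` for large `n` -/
theorem rng_sizes : ∀ᶠ n : ℕ in atTop, ∀ (B : Finset (Fin n)), Rng B →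
    1 ≤ B.card ∧ (99 / 100 : ℝ) * n ≤ Bᶜ.card ∧ (B.card : ℝ) * (19998 / 10000 * Real.log n) ≤ n ∧
    (n : ℝ) ≤ B.card * (20002 / 10000 * Real.log n) ∧ (B.card : ℝ) + Bᶜ.card = n := by
  have h1 : ∀ᶠ n : ℕ in atTop, (100 : ℝ) ≤ Real.log n :=
    (Real.tendsto_log_atTop.comp tendsto_natCast_atTop_atTop).eventually_ge_atTop 100
  filter_upwards [h1, eventually_ge_atTop 1] with n hn hn1 B hB
  have hn0 : (0 : ℝ) < n := by exact_mod_cast hn1
  have hl : 0 < Real.log n := by linarith
  have hsum : (B.card : ℝ) + Bᶜ.card = n := by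
    have := Finset.card_add_card_compl B
    rw [Fintype.card_fin] at this
    exact_mod_cast this
  unfold Rng at hB
  rw [abs_le] at hB
  obtain ⟨h2, h3⟩ := hB
  have hb : b0 n * (2 * Real.log n) = n := by
    unfold b0
    field_simp
  have hb0 : 0 < b0 n := by
    unfold b0
    positivity
  have h4 : (B.card : ℝ) ≤ (20001 / 20000) * b0 n := by linarith
  have h5 : (19999 / 20000) * b0 n ≤ (B.card : ℝ) := by linarith
  have h6 : (B.card : ℝ) * Real.log n ≤ (20001 / 20000) * b0 n * Real.log n :=
    mul_le_mul_of_nonneg_right h4 hl.le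
  have h7 : (19999 / 20000) * b0 n * Real.log n ≤ (B.card : ℝ) * Real.log n :=
    mul_le_mul_of_nonneg_right h5 hl.le
  have h8 : b0 n * Real.log n = n / 2 := by linarith
  have h9 : b0 n * 100 ≤ n / 2 := by
    rw [← h8]
    exact mul_le_mul_of_nonneg_left hn hb0.le
  refine ⟨?_, ?_, ?_, ?_, hsum⟩
  · have : (0 : ℝ) < B.card := by
      have : 0 < (19999 / 20000) * b0 n := by positivity
      linarith
    exact_mod_cast this
  · linarith
  · have : (B.card : ℝ) * (19998 / 10000 * Real.log n) =
      19998 / 10000 * ((B.card : ℝ) * Real.log n) := by ring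
    rw [this]
    nlinarith
  · have : (B.card : ℝ) * (20002 / 10000 * Real.log n) =
      20002 / 10000 * ((B.card : ℝ) * Real.log n) := by ring
    rw [this]
    nlinarith

theorem GOODB_pow (c : ℝ) (hc : c < 1) : ∀ᶠ n : ℕ in atTop, (n : ℝ) ^ c ≤ (n : ℝ) / 1000 := by
  have h1 : Tendsto (fun n : ℕ => (n : ℝ) ^ (1 - c)) atTop atTop :=
    (tendsto_rpow_atTop (by linarith)).comp tendsto_natCast_atTop_atTop
  filter_upwards [h1.eventually_ge_atTop 1000, eventually_ge_atTop 1] with n hn hn1
  have hn0 : (0 : ℝ) < n := by exact_mod_cast hn1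
  have h2 : (n : ℝ) = (n : ℝ) ^ c * (n : ℝ) ^ (1 - c) := by
    rw [← Real.rpow_add hn0]
    simp
  have h3 : 0 < (n : ℝ) ^ c := Real.rpow_pos_of_pos hn0 _
  rw [le_div_iff₀ (by norm_num)]
  conv_rhs => rw [h2]
  exact mul_le_mul_of_nonneg_left hn h3.le

open Classical in
/-- Blueprint 0.1: the set of hubs is the set of the vertices of degree at least `n/2`. -/
theorem goodB : ∀ᶠ n : ℕ in atTop, ∀ (B : Finset (Fin n)) (P : Sys n), Good B P →
    ∀ P' : Sys n, (∀ x y, Dir P x y → Dir P' x y) →
      (∀ x, (univ.filter (fun y => Dir P' x y)).card ≤ (univ.filter (fun y => Dir P x y)).card + 1) →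
      B = univ.filter (fun x => (n : ℝ) / 2 ≤ (univ.filter (fun y => Dir P' x y)).card) := by
  filter_upwards [rng_sizes, GOODB_pow (1 / 10) (by norm_num), GOODB_pow (1 / 30) (by norm_num),
    eventually_ge_atTop 1000] with n hn h10 h30 hn3 B P hG P' hD hd
  obtain ⟨h1, h2, h3, h4, h5⟩ := hn B hG.g0
  have hn3' : (1000 : ℝ) ≤ n := by exact_mod_cast hn3
  ext x
  rw [mem_filter]
  simp only [mem_univ, true_and]
  constructor
  · intro hx
    have e1 : Bᶜ ⊆ univ.filter (fun y => Dir P' x y) ∪
        univ.filter (fun y => ¬ Same B x y ∧ ¬ Dir P x y) := by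
      intro y hy
      rw [mem_compl] at hy
      rw [mem_union, mem_filter, mem_filter]
      by_cases h : Dir P x y
      · exact Or.inl ⟨mem_univ _, hD _ _ h⟩
      · exact Or.inr ⟨mem_univ _, fun hs => hy (hs.1 hx), h⟩
    have e2 := (card_le_card e1).trans (card_union_le _ _)
    have e3 : (Bᶜ.card : ℝ) ≤ (univ.filter (fun y => Dir P' x y)).card +
        (univ.filter (fun y => ¬ Same B x y ∧ ¬ Dir P x y)).card := by exact_mod_cast e2
    have e4 := good_miss hG x
    linarith
  · intro hx
    by_contra hxB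
    have e1 : univ.filter (fun y => Dir P x y) ⊆ univ.filter (fun y => Same B x y ∧ Dir P x y) ∪
        B := by
      intro y hy
      rw [mem_filter] at hy
      rw [mem_union, mem_filter]
      by_cases h : y ∈ B
      · exact Or.inr h
      · exact Or.inl ⟨mem_univ _, iff_of_false hxB h, hy.2⟩
    have e2 := (card_le_card e1).trans (card_union_le _ _)
    have e3 : ((univ.filter (fun y => Dir P x y)).card : ℝ) ≤
        (univ.filter (fun y => Same B x y ∧ Dir P x y)).card + B.card := by exact_mod_cast e2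
    have e4 := hG.g1 x
    have e5 : ((univ.filter (fun y => Dir P' x y)).card : ℝ) ≤
        (univ.filter (fun y => Dir P x y)).card + 1 := by exact_mod_cast hd x
    linarith

end PSys
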