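import Mathlib
import Pool.Agent.PSys.Spec
import Pool.Agent.PSys.GoodB

/-! Module AVG (blueprint 2.7): the sum of the dominating products. -/

open Finset Filter

namespace PSys

open Classical in
theorem AVG_labs_eq {n : ℕ} (E : Finset (Sym2 (Fin n))) (C : Finset (Fin n)) :
    labs E C = Fintype.piFinset (fun e => if e ∈ E then C.image some else {none}) := by
  ext f
  simp only [labs, mem_filter, mem_univ, true_and, Fintype.mem_piFinset]
  constructor
  · rintro ⟨h1, h2⟩ e
    by_cases he : e ∈ E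
    · rw [if_pos he, mem_image]
      cases h3 : f e with
      | none => exact absurd he ((h1 e).1 h3)
      | some b => exact ⟨b, h2 e b h3, rfl⟩
    · rw [if_neg he, mem_singleton]
      exact (h1 e).2 he
  · intro h
    refine ⟨fun e => ?_, fun e b hb => ?_⟩
    · have := h e
      by_cases he : e ∈ E
      · rw [if_pos he, mem_image] at this
        obtain ⟨b, _, hb⟩ := this
        simp [he, ← hb]
      · rw [if_neg he, mem_singleton] at this
        simp [he, this]
    · have := h e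
      by_cases he : e ∈ E
      · rw [if_pos he, mem_image] at this
        obtain ⟨c, hc, hb'⟩ := this
        rw [hb, Option.some_inj] at hb'
        exact hb' ▸ hc
      · rw [if_neg he, mem_singleton] at this
        rw [this] at hb
        cases hb

/-- the number of labellings -/
theorem card_labs {n : ℕ} (E : Finset (Sym2 (Fin n))) (C : Finset (Fin n)) :
    (labs E C).card = C.card ^ E.card := by
  classical
  rw [AVG_labs_eq, Fintype.card_piFinset]
  have h : ∀ e : Sym2 (Fin n), (if e ∈ E then C.image some else {none} : Finset (Option (Fin n))).card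
      = if e ∈ E then C.card else 1 := by
    intro e
    split_ifs
    · exact card_image_of_injective _ (Option.some_injective _)
    · exact card_singleton _
  rw [Finset.prod_congr rfl (fun e _ => h e), Finset.prod_ite]
  simp [Finset.prod_const]

theorem AVG_ev : ∀ᶠ n : ℕ in atTop, 1 ≤ Real.log n ∧ 5 ≤ (1 / 1000) * Real.log n ∧
    (n : ℝ) * (Real.exp 1 * (20002 / 10000 * Real.log n) / n) ^ 2 *
      Real.exp (109 / 10000 * Real.log n) ≤ 1 ∧ 2 * (n : ℝ) * wv n ≤ 1 := by
  have hx : Tendsto (fun n : ℕ => (n : ℝ)) atTop atTop := tendsto_natCast_atTop_atTop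
  have hL : Tendsto (fun n : ℕ => Real.log (n : ℝ)) atTop atTop :=
    Real.tendsto_log_atTop.comp hx
  have h1 : ∀ᶠ n : ℕ in atTop, Real.log (n : ℝ) ^ 2 ≤ 1 / 100 * (n : ℝ) ^ ((1 : ℝ) / 2) := by
    have h2 := (isLittleO_log_rpow_rpow_atTop (s := 1 / 2) (2 : ℝ) (by norm_num)).bound
      (by norm_num : (0 : ℝ) < 1 / 100)
    have h3 := hx.eventually h2
    filter_upwards [h3, hx.eventually_ge_atTop 1] with n h4 h5
    have h6 : 0 ≤ Real.log (n : ℝ) := Real.log_nonneg h5
    rw [Real.norm_of_nonneg (by positivity), Real.norm_of_nonneg (by positivity)] at h4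
    have h7 : Real.log (n : ℝ) ^ (2 : ℝ) = Real.log (n : ℝ) ^ (2 : ℕ) := by
      rw [← Real.rpow_natCast]; norm_num
    rw [h7] at h4
    exact h4
  filter_upwards [hx.eventually_ge_atTop 100, hL.eventually_ge_atTop 5000, h1] with n hn hn2 hn3
  have hn0 : (0 : ℝ) < n := by linarith
  have hL0 : 0 < Real.log (n : ℝ) := by linarith
  refine ⟨by linarith, by linarith, ?_, ?_⟩
  · have e1 : Real.exp 1 ≤ 3 := by
      have := Real.exp_one_lt_d9; linarith
    have e2 : Real.exp (109 / 10000 * Real.log n) = (n : ℝ) ^ ((109 : ℝ) / 10000) := by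
      rw [Real.rpow_def_of_pos hn0]; ring_nf
    rw [e2]
    have e3 : (n : ℝ) * (Real.exp 1 * (20002 / 10000 * Real.log n) / n) ^ 2 ≤
        50 * Real.log n ^ 2 / n := by
      have e4 : (n : ℝ) * (Real.exp 1 * (20002 / 10000 * Real.log n) / n) ^ 2 =
          (Real.exp 1 ^ 2 * (20002 / 10000) ^ 2) * Real.log n ^ 2 / n := by
        field_simp
      rw [e4]
      apply div_le_div_of_nonneg_right _ hn0.le
      apply mul_le_mul_of_nonneg_right _ (by positivity)
      have e5 : Real.exp 1 ^ 2 ≤ 3 ^ 2 := pow_le_pow_left₀ (Real.exp_pos 1).le e1 2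
      nlinarith
    have e6 : 50 * Real.log n ^ 2 / n ≤ (n : ℝ) ^ (-((1 : ℝ) / 2)) := by
      rw [div_le_iff₀ hn0]
      have e7 : (n : ℝ) ^ (-((1 : ℝ) / 2)) * n = (n : ℝ) ^ ((1 : ℝ) / 2) := by
        nth_rewrite 2 [← Real.rpow_one (n : ℝ)]
        rw [← Real.rpow_add hn0]; norm_num
      rw [e7]
      have : 0 ≤ (n : ℝ) ^ ((1 : ℝ) / 2) := by positivity
      linarith
    calc (n : ℝ) * (Real.exp 1 * (20002 / 10000 * Real.log n) / n) ^ 2 * (n : ℝ) ^ ((109 : ℝ) / 10000)
        ≤ (n : ℝ) ^ (-((1 : ℝ) / 2)) * (n : ℝ) ^ ((109 : ℝ) / 10000) :=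
          mul_le_mul_of_nonneg_right (e3.trans e6) (by positivity)
      _ = (n : ℝ) ^ (-((1 : ℝ) / 2) + (109 : ℝ) / 10000) := (Real.rpow_add hn0 _ _).symm
      _ ≤ 1 := Real.rpow_le_one_of_one_le_of_nonpos (by linarith) (by norm_num)
  · unfold wv
    have e7 : 2 * (n : ℝ) * (n : ℝ) ^ (-((99 : ℝ) / 50)) = 2 * (n : ℝ) ^ (-((49 : ℝ) / 50)) := by
      have : (n : ℝ) * (n : ℝ) ^ (-((99 : ℝ) / 50)) = (n : ℝ) ^ (-((49 : ℝ) / 50)) := by
        nth_rewrite 1 [← Real.rpow_one (n : ℝ)]
        rw [← Real.rpow_add hn0]; norm_num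
      rw [mul_assoc, this]
    rw [e7]
    have e8 : (n : ℝ) ^ (-((49 : ℝ) / 50)) ≤ (n : ℝ) ^ (-((1 : ℝ) / 2)) :=
      Real.rpow_le_rpow_of_exponent_le (by linarith) (by norm_num)
    have e9 : (n : ℝ) ^ (-((1 : ℝ) / 2)) ≤ (100 : ℝ) ^ (-((1 : ℝ) / 2)) :=
      Real.rpow_le_rpow_of_nonpos (by norm_num) hn (by norm_num)
    have e10 : (100 : ℝ) ^ (-((1 : ℝ) / 2)) = 1 / 10 := by
      have : (100 : ℝ) = 10 ^ (2 : ℝ) := by norm_num
      rw [this, ← Real.rpow_mul (by norm_num)]
      norm_num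
    linarith

/-- the factor `ccv` and the last factor of `wpr` -/
theorem AVG_fac {n : ℕ} {b L : ℝ} (hb : 1 ≤ b) (hn : (0 : ℝ) < n) (_hL : L = Real.log n)
    (hL0 : 0 ≤ L)
    (h1 : (n : ℝ) ≤ b * (20002 / 10000 * L))
    (h2 : (n : ℝ) * (Real.exp 1 * (20002 / 10000 * L) / n) ^ 2 *
      Real.exp (109 / 10000 * L) ≤ 1) :
    (1 + Real.exp 1 / b) ^ ⌊(n : ℝ) / 500⌋₊ ≤ Real.exp (109 / 10000 * L) ∧
    Real.exp (n * (Real.exp 1 / b) ^ 2 * (1 + Real.exp 1 / b) ^ ⌊(n : ℝ) / 500⌋₊) ≤ Real.exp 1 := by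
  have hb0 : 0 < b := by linarith
  have hA : (1 + Real.exp 1 / b) ^ ⌊(n : ℝ) / 500⌋₊ ≤ Real.exp (109 / 10000 * L) := by
    have h3 := Real.add_one_le_exp (Real.exp 1 / b)
    rw [add_comm] at h3
    have h4 := pow_le_pow_left₀ (by positivity) h3 ⌊(n : ℝ) / 500⌋₊
    rw [← Real.exp_nat_mul] at h4
    refine h4.trans (Real.exp_le_exp.2 ?_)
    have h5 : (⌊(n : ℝ) / 500⌋₊ : ℝ) ≤ n / 500 := Nat.floor_le (by positivity)
    have h6 : (⌊(n : ℝ) / 500⌋₊ : ℝ) * (Real.exp 1 / b) ≤ n / 500 * (Real.exp 1 / b) :=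
      mul_le_mul_of_nonneg_right h5 (by positivity)
    refine h6.trans ?_
    have h7 : (n : ℝ) / 500 * (Real.exp 1 / b) = n / b * (Real.exp 1 / 500) := by ring
    rw [h7]
    have h8 : (n : ℝ) / b ≤ 20002 / 10000 * L := by
      rw [div_le_iff₀ hb0]; linarith
    have h9 := Real.exp_one_lt_d9
    calc (n : ℝ) / b * (Real.exp 1 / 500) ≤ (20002 / 10000 * L) * (2.7182818286 / 500) := by
          apply mul_le_mul h8 (by linarith) (by positivity) (by positivity)
      _ ≤ 109 / 10000 * L := by nlinarith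
  refine ⟨hA, Real.exp_le_exp.2 ?_⟩
  refine le_trans ?_ h2
  have h3 : Real.exp 1 / b ≤ Real.exp 1 * (20002 / 10000 * L) / n := by
    rw [div_le_div_iff₀ hb0 hn]
    have := mul_le_mul_of_nonneg_left h1 (Real.exp_pos 1).le
    linarith
  apply mul_le_mul _ hA (by positivity) (by positivity)
  apply mul_le_mul_of_nonneg_left _ hn.le
  exact pow_le_pow_left₀ (by positivity) h3 2

theorem AVG_ccv_nonneg {n : ℕ} (B : Finset (Fin n)) : 0 ≤ ccv B :=
  mul_nonneg (Real.exp_pos _).le (pow_nonneg (add_nonneg zero_le_one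
    (div_nonneg (Real.exp_pos _).le (Nat.cast_nonneg _))) _)

theorem AVG_wpr_nonneg {n : ℕ} (B : Finset (Fin n)) (QA : Sys n) (u : Fin n) : 0 ≤ wpr B QA u :=
  mul_nonneg (mul_nonneg (Real.exp_pos _).le (AVG_ccv_nonneg B)) (Real.exp_pos _).le

theorem AVG_wpr_le {n : ℕ} {B : Finset (Fin n)} {QA : Sys n} {u : Fin n} {L Y : ℝ}
    (f1 : (1 + Real.exp 1 / (B.card : ℝ)) ^ ⌊(n : ℝ) / 500⌋₊ ≤ Real.exp (109 / 10000 * L))
    (f2 : Real.exp (n * (Real.exp 1 / (B.card : ℝ)) ^ 2 *
      (1 + Real.exp 1 / (B.card : ℝ)) ^ ⌊(n : ℝ) / 500⌋₊) ≤ Real.exp 1)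
    (hX : -Y ≤ (((Bᶜ.card : ℝ) - 1 - dgr (fD QA) u - n / 500) / B.card)) :
    wpr B QA u ≤ Real.exp Y * (Real.exp 1 * Real.exp (109 / 10000 * L)) * Real.exp 1 := by
  have h1 : ccv B ≤ Real.exp 1 * Real.exp (109 / 10000 * L) :=
    mul_le_mul_of_nonneg_left f1 (Real.exp_pos 1).le
  have h2 : Real.exp (-(((Bᶜ.card : ℝ) - 1 - dgr (fD QA) u - n / 500) / B.card)) ≤ Real.exp Y :=
    Real.exp_le_exp.2 (by linarith)
  exact mul_le_mul (mul_le_mul h2 h1 (AVG_ccv_nonneg B) (Real.exp_pos _).le) f2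
    (Real.exp_pos _).le (by positivity)

/-- Blueprint 2.7, numerical part: weights. -/
theorem wpr_bounds : ∀ᶠ n : ℕ in atTop, ∀ (B : Finset (Fin n)), Rng B → ∀ (QA : Sys n)
    (u : Fin n), (dgr (fD QA) u < (n : ℝ) / 8000 → Real.exp 1 * wpr B QA u ≤ wv n) ∧
      (dgr (fD QA) u ≤ Bᶜ.card → (1 + Real.exp 1 * wpr B QA u * (3 * n)) ^ B.card
        ≤ Real.exp n) := by
  filter_upwards [AVG_ev, rng_sizes] with n hn hr
  intro B hB QA u
  obtain ⟨e1, e2, e3, -⟩ := hn
  obtain ⟨r1, r2, r3, r4, r5⟩ := hr B hB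
  have hβ : (1 : ℝ) ≤ B.card := by exact_mod_cast r1
  have hβ0 : (0 : ℝ) < B.card := by linarith
  have hn0 : (0 : ℝ) < n := by
    rcases Nat.eq_zero_or_pos n with h | h
    · subst h; simp at e1; linarith
    · exact_mod_cast h
  obtain ⟨L, hL⟩ : ∃ L, L = Real.log (n : ℝ) := ⟨_, rfl⟩
  rw [← hL] at e1 e2 e3 r3 r4
  have hL0 : 0 ≤ L := by linarith
  obtain ⟨f1, f2⟩ := AVG_fac hβ hn0 hL hL0 r4 e3
  have hexpn : (n : ℝ) = Real.exp L := by rw [hL, Real.exp_log hn0]
  constructor
  · intro hd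
    have hX : 19955 / 10000 * L - 2 ≤ (((Bᶜ.card : ℝ) - 1 - dgr (fD QA) u - n / 500) / B.card) := by
      rw [le_div_iff₀ hβ0]
      have h3 : 0 ≤ L * B.card := mul_nonneg hL0 hβ0.le
      nlinarith
    have h4 : wpr B QA u ≤ Real.exp (-(19955 / 10000 * L - 2)) *
        (Real.exp 1 * Real.exp (109 / 10000 * L)) * Real.exp 1 :=
      AVG_wpr_le f1 f2 (by linarith)
    have h5 : Real.exp 1 * (Real.exp (-(19955 / 10000 * L - 2)) *
        (Real.exp 1 * Real.exp (109 / 10000 * L)) * Real.exp 1) =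
        Real.exp (5 + (109 / 10000 * L - 19955 / 10000 * L)) := by
      rw [← Real.exp_add, ← Real.exp_add, ← Real.exp_add, ← Real.exp_add]
      congr 1; ring
    have h6 : wv n = Real.exp (-(99 / 50) * L) := by
      unfold wv
      rw [Real.rpow_def_of_pos hn0, ← hL]; congr 1; ring
    calc Real.exp 1 * wpr B QA u ≤ _ := mul_le_mul_of_nonneg_left h4 (Real.exp_pos 1).le
      _ = _ := h5
      _ ≤ Real.exp (-(99 / 50) * L) := Real.exp_le_exp.2 (by linarith)
      _ = wv n := h6.symm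
  · intro hd
    have hX : -1 - 41 / 10000 * L ≤ (((Bᶜ.card : ℝ) - 1 - dgr (fD QA) u - n / 500) / B.card) := by
      rw [le_div_iff₀ hβ0]
      have hd' : (dgr (fD QA) u : ℝ) ≤ Bᶜ.card := by exact_mod_cast hd
      have h3 : 0 ≤ L * B.card := mul_nonneg hL0 hβ0.le
      nlinarith
    have h12 : 0 ≤ wpr B QA u := AVG_wpr_nonneg B QA u
    have h4 : wpr B QA u ≤ Real.exp (1 + 41 / 10000 * L) *
        (Real.exp 1 * Real.exp (109 / 10000 * L)) * Real.exp 1 :=
      AVG_wpr_le f1 f2 (by linarith)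
    have h7 : Real.exp 1 * wpr B QA u * (3 * n) ≤ Real.exp (6 + 1015 / 1000 * L) := by
      have h8 : (3 : ℝ) ≤ Real.exp 2 := by
        have := Real.add_one_le_exp (2 : ℝ); linarith
      calc Real.exp 1 * wpr B QA u * (3 * n) ≤ Real.exp 1 * (Real.exp (1 + 41 / 10000 * L) *
            (Real.exp 1 * Real.exp (109 / 10000 * L)) * Real.exp 1) * (Real.exp 2 * Real.exp L) := by
            rw [← hexpn]
            apply mul_le_mul (mul_le_mul_of_nonneg_left h4 (Real.exp_pos 1).le)
              (mul_le_mul_of_nonneg_right h8 hn0.le) (by linarith)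
              (mul_nonneg (Real.exp_pos _).le (mul_nonneg (mul_nonneg (Real.exp_pos _).le
                (mul_nonneg (Real.exp_pos _).le (Real.exp_pos _).le)) (Real.exp_pos _).le))
        _ = Real.exp (6 + 1015 / 1000 * L) := by
            rw [← Real.exp_add, ← Real.exp_add, ← Real.exp_add, ← Real.exp_add, ← Real.exp_add,
              ← Real.exp_add]
            congr 1; ring
    have h9 : 1 + Real.exp 1 * wpr B QA u * (3 * n) ≤ Real.exp (1020 / 1000 * L) := by
      have h10 : (1 : ℝ) ≤ Real.exp (6 + 1015 / 1000 * L) := by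
        apply Real.one_le_exp; linarith
      have h11 : (2 : ℝ) ≤ Real.exp 1 := by
        have := Real.add_one_le_exp (1 : ℝ); linarith
      calc 1 + Real.exp 1 * wpr B QA u * (3 * n) ≤ 2 * Real.exp (6 + 1015 / 1000 * L) := by linarith
        _ ≤ Real.exp 1 * Real.exp (6 + 1015 / 1000 * L) :=
            mul_le_mul_of_nonneg_right h11 (Real.exp_pos _).le
        _ = Real.exp (7 + 1015 / 1000 * L) := by rw [← Real.exp_add]; congr 1; ring
        _ ≤ Real.exp (1020 / 1000 * L) := Real.exp_le_exp.2 (by linarith)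
    have h14 : 0 ≤ 1 + Real.exp 1 * wpr B QA u * (3 * n) :=
      add_nonneg zero_le_one (mul_nonneg (mul_nonneg (Real.exp_pos _).le h12) (by linarith))
    have h13 := pow_le_pow_left₀ h14 h9 B.card
    rw [← Real.exp_nat_mul] at h13
    refine h13.trans (Real.exp_le_exp.2 ?_)
    nlinarith


open Classical in
theorem AVG_pairs {n : ℕ} (E : Finset (Sym2 (Fin n))) (hE : ∀ e ∈ E, ¬ e.IsDiag)
    (f : Sym2 (Fin n) → Fin n → ℕ) (hf : ∀ e x, e ∉ E → f e x = 0) :
    ∑ b, ∑ c, f s(c, b) c =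
      ∑ e ∈ E, ∑ x ∈ (univ : Finset (Fin n)).filter (fun x => x ∈ e), f e x := by
  have h1 : ∑ b, ∑ c, f s(c, b) c = ∑ p : Fin n × Fin n, f s(p.2, p.1) p.2 :=
    (Fintype.sum_prod_type' (fun b c : Fin n => f s(c, b) c)).symm
  rw [h1, ← Finset.sum_fiberwise univ (fun p : Fin n × Fin n => s(p.2, p.1)) _,
    ← Finset.sum_subset (subset_univ E)]
  · apply sum_congr rfl
    intro e he
    induction e with
    | _ p q =>
      have hpq : p ≠ q := fun h => hE _ he (by simpa using h)
      have h2 : (univ.filter (fun z : Fin n × Fin n => s(z.2, z.1) = s(p, q))) =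
          {(q, p), (p, q)} := by
        ext ⟨z1, z2⟩
        simp only [mem_filter, mem_univ, true_and, Sym2.eq_iff, mem_insert, mem_singleton,
          Prod.mk.injEq]
        tauto
      have h3 : (univ.filter (fun x : Fin n => x ∈ s(p, q))) = {p, q} := by
        ext x; simp
      rw [h2, h3, sum_pair (by simp [hpq]), sum_pair hpq]
      simp [Sym2.eq_swap]
  · intro e _ he
    apply sum_eq_zero
    intro p hp
    rw [mem_filter] at hp
    apply hf
    rw [hp.2]
    exact he

open Classical in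
theorem AVG_shake {n : ℕ} (G : Finset (Sym2 (Fin n))) : ∑ x, dgr G x ≤ 2 * G.card := by
  have h1 : ∑ x, dgr G x = ∑ p : Fin n × Fin n, if s(p.1, p.2) ∈ G then 1 else 0 := by
    rw [Fintype.sum_prod_type' (fun b c : Fin n => if s(b, c) ∈ G then 1 else 0)]
    apply sum_congr rfl
    intro x _
    unfold dgr
    rw [card_filter]
  rw [h1, ← Finset.sum_fiberwise univ (fun p : Fin n × Fin n => s(p.1, p.2)) _,
    ← Finset.sum_subset (subset_univ G)]
  · calc _ ≤ ∑ e ∈ G, 2 := by
          apply sum_le_sum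
          intro e he
          rw [← card_filter]
          induction e with
          | _ p q =>
            calc _ ≤ ({(p, q), (q, p)} : Finset (Fin n × Fin n)).card := by
                  apply card_le_card
                  rintro ⟨z1, z2⟩ hz
                  simp only [mem_filter, mem_univ, true_and, Sym2.eq_iff] at hz
                  simp only [mem_insert, mem_singleton, Prod.mk.injEq]
                  exact hz.1
              _ ≤ 2 := card_le_two
      _ = 2 * G.card := by rw [sum_const, smul_eq_mul, mul_comm]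
  · intro e _ he
    apply sum_eq_zero
    intro p hp
    rw [mem_filter] at hp
    rw [if_neg]
    rw [hp.2]
    exact he

theorem AVG_EA {n : ℕ} {B : Finset (Fin n)} {QA : Sys n} {lam : Lb n}
    (hl : lam ∈ labs (EA B QA) B) {u v c : Fin n} (h : lam s(u, v) = some c) :
    u ∈ Bᶜ ∧ v ∈ Bᶜ ∧ c ∈ B := by
  classical
  simp only [labs, mem_filter, mem_univ, true_and] at hl
  have h1 : s(u, v) ∈ EA B QA := by
    by_contra h0
    rw [(hl.1 _).2 h0] at h
    cases h
  unfold EA at h1
  rw [Finset.mem_sdiff, mem_prs] at h1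
  exact ⟨h1.1.2.1, h1.1.2.2, hl.2 _ _ h⟩

theorem AVG_EB {n : ℕ} {B : Finset (Fin n)} {QB : Sys n} {mu : Lb n}
    (hm : mu ∈ labs (EB B QB) Bᶜ) {e : Sym2 (Fin n)} {a : Fin n} (h : mu e = some a) :
    e ∈ EB B QB ∧ a ∈ Bᶜ := by
  classical
  simp only [labs, mem_filter, mem_univ, true_and] at hm
  refine ⟨?_, hm.2 _ _ h⟩
  by_contra h0
  rw [(hm.1 _).2 h0] at h
  cases h

open Classical in
/-- Blueprint 2.7: `sum over u, b of Aub` as a sum over the hub pairs. -/
theorem sum_Aub {n : ℕ} {B : Finset (Fin n)} {QA QB : Sys n} (hQA : IsFam Bᶜ QA)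
    (hQB : IsFam B QB) {lam mu : Lb n} (hl : lam ∈ labs (EA B QA) B)
    (hm : mu ∈ labs (EB B QB) Bᶜ) :
    ∑ u ∈ Bᶜ, ∑ b ∈ B, Aub lam mu u b =
      ∑ e ∈ EB B QB, ∑ x ∈ (univ : Finset (Fin n)).filter (fun x => x ∈ e),
        (univ.filter (fun u => ∃ a, mu e = some a ∧ lam s(u, a) = some x)).card := by
  have hE : ∀ e ∈ EB B QB, ¬ e.IsDiag := by
    intro e he
    induction e with
    | _ p q =>
      unfold EB at he
      rw [Finset.mem_sdiff, mem_prs] at he
      simpa using he.1.1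
  rw [← AVG_pairs (EB B QB) hE (fun e x =>
    (univ.filter (fun u => ∃ a, mu e = some a ∧ lam s(u, a) = some x)).card)]
  · have h1 : ∀ u b, (u ∉ Bᶜ ∨ b ∉ B) → Aub lam mu u b = 0 := by
      intro u b h
      unfold Aub
      rw [card_eq_zero, filter_eq_empty_iff]
      rintro c _ ⟨a, h2, h3⟩
      have h4 := (AVG_EA hl h3).1
      have h5 := (AVG_EB hm h2).1
      unfold EB at h5
      rw [Finset.mem_sdiff, mem_prs] at h5
      rcases h with h | h
      · exact h h4
      · exact h h5.1.2.2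
    have h2 : ∑ u ∈ Bᶜ, ∑ b ∈ B, Aub lam mu u b = ∑ u, ∑ b, Aub lam mu u b := by
      rw [← sum_subset (subset_univ Bᶜ)]
      · apply sum_congr rfl
        intro u _
        apply sum_subset (subset_univ B)
        intro b _ hb
        exact h1 u b (Or.inr hb)
      · intro u _ hu
        apply sum_eq_zero
        intro b _
        exact h1 u b (Or.inl hu)
    rw [h2, sum_comm]
    apply sum_congr rfl
    intro b _
    unfold Aub
    simp_rw [card_filter]
    exact sum_comm
  · intro e x he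
    rw [card_eq_zero, filter_eq_empty_iff]
    rintro u _ ⟨a, h2, -⟩
    exact he (AVG_EB hm h2).1


theorem AVG_exp {x : ℝ} (h0 : 0 ≤ x) (h1 : x ≤ 1) : Real.exp x ≤ 1 + 2 * x := by
  have h2 := Real.abs_exp_sub_one_sub_id_le (x := x) (by rw [abs_of_nonneg h0]; exact h1)
  rw [abs_le] at h2
  nlinarith [h2.2]

open Classical in
/-- number of users of the hub pair `e` with label `o` -/
noncomputable def AVG_G {n : ℕ} (lam : Lb n) (e : Sym2 (Fin n)) (o : Option (Fin n)) : ℕ :=
  ∑ x ∈ (univ : Finset (Fin n)).filter (fun x => x ∈ e),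
        (univ.filter (fun u => ∃ a, o = some a ∧ lam s(u, a) = some x)).card

open Classical in
theorem AVG_G_le {n : ℕ} (lam : Lb n) (e : Sym2 (Fin n)) (o : Option (Fin n)) :
    AVG_G lam e o ≤ 2 * n := by
  unfold AVG_G
  induction e with
  | _ p q =>
    calc _ ≤ ∑ x ∈ (univ : Finset (Fin n)).filter (fun x => x ∈ s(p, q)), n := by
          apply sum_le_sum
          intro x _
          refine (card_filter_le _ _).trans ?_
          simp
      _ = ((univ : Finset (Fin n)).filter (fun x => x ∈ s(p, q))).card * n := by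
          rw [sum_const, smul_eq_mul]
      _ ≤ 2 * n := by
          apply Nat.mul_le_mul_right
          have h3 : (univ.filter (fun x : Fin n => x ∈ s(p, q))) = {p, q} := by
            ext x; simp
          rw [h3]
          exact card_le_two

open Classical in
theorem AVG_sumG {n : ℕ} {B : Finset (Fin n)} {QA QB : Sys n}
    {lam : Lb n} (hl : lam ∈ labs (EA B QA) B) :
    ∑ e ∈ EB B QB, ∑ a ∈ Bᶜ, AVG_G lam e (some a) ≤ Bᶜ.card * (B.card * Bᶜ.card) := by
  have hE : ∀ e ∈ EB B QB, ¬ e.IsDiag := by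
    intro e he
    induction e with
    | _ p q =>
      unfold EB at he
      rw [Finset.mem_sdiff, mem_prs] at he
      simpa using he.1.1
  rw [sum_comm]
  have key : ∀ a ∈ Bᶜ, ∑ e ∈ EB B QB, AVG_G lam e (some a) ≤ B.card * Bᶜ.card := by
    intro a _
    have h1 : ∀ x, (univ.filter (fun u => ∃ a', some a = some a' ∧ lam s(u, a') = some x)).card
        = (univ.filter (fun u => lam s(u, a) = some x)).card := by
      intro x
      congr 1
      ext u
      simp
    have h2 : ∑ e ∈ EB B QB, AVG_G lam e (some a) =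
        ∑ b, ∑ c, (if s(c, b) ∈ EB B QB then
          (univ.filter (fun u => lam s(u, a) = some c)).card else 0) := by
      rw [AVG_pairs (EB B QB) hE (fun e x => if e ∈ EB B QB then
          (univ.filter (fun u => lam s(u, a) = some x)).card else 0)]
      · apply sum_congr rfl
        intro e he
        unfold AVG_G
        apply sum_congr rfl
        intro x _
        rw [if_pos he]
        exact h1 x
      · intro e x he
        rw [if_neg he]
    rw [h2]
    have h3 : ∑ c, (univ.filter (fun u => lam s(u, a) = some c)).card ≤ Bᶜ.card := by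
      rw [← card_biUnion]
      · apply card_le_card
        intro u hu
        rw [mem_biUnion] at hu
        obtain ⟨c, _, hc⟩ := hu
        rw [mem_filter] at hc
        exact (AVG_EA hl hc.2).1
      · intro c _ c' _ hcc
        rw [Function.onFun, Finset.disjoint_left]
        intro u h4 h5
        rw [mem_filter] at h4 h5
        apply hcc
        have := h4.2.symm.trans h5.2
        exact Option.some_injective _ this
    calc _ ≤ ∑ b ∈ (univ : Finset (Fin n)), (if b ∈ B then Bᶜ.card else 0) := by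
          apply sum_le_sum
          intro b _
          split_ifs with hb
          · refine le_trans ?_ h3
            apply sum_le_sum
            intro c _
            split_ifs
            · exact le_rfl
            · exact Nat.zero_le _
          · apply le_of_eq
            apply sum_eq_zero
            intro c _
            rw [if_neg]
            unfold EB
            rw [Finset.mem_sdiff, mem_prs]
            exact fun h => hb h.1.2.2
      _ = B.card * Bᶜ.card := by
          rw [← sum_filter, sum_const, smul_eq_mul]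
          congr 2
          ext b
          simp
  calc _ ≤ ∑ a ∈ Bᶜ, B.card * Bᶜ.card := sum_le_sum key
    _ = _ := by rw [sum_const, smul_eq_mul]

open Classical in
/-- Blueprint 2.7, average over `mu` for fixed `lam`. -/
theorem avg_mu {n : ℕ} {B : Finset (Fin n)} {QA QB : Sys n} (hQA : IsFam Bᶜ QA)
    (hQB : IsFam B QB) {lam : Lb n} (hl : lam ∈ labs (EA B QA) B) (w : ℝ) (hw : 0 ≤ w)
    (hwn : w * (2 * n) ≤ 1) (hA : 1 ≤ Bᶜ.card) :
    ∑ mu ∈ labs (EB B QB) Bᶜ, Real.exp (w * ((∑ u ∈ Bᶜ, ∑ b ∈ B, Aub lam mu u b : ℕ) : ℝ)) ≤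
      (Bᶜ.card : ℝ) ^ (EB B QB).card * Real.exp (2 * w * Bᶜ.card * B.card) := by
  have hα : (0 : ℝ) < Bᶜ.card := by exact_mod_cast hA
  set F : Sym2 (Fin n) → Option (Fin n) → ℝ := fun e o =>
    if e ∈ EB B QB then Real.exp (w * AVG_G lam e o) else 1 with hF
  have h1 : ∀ mu ∈ labs (EB B QB) Bᶜ,
      Real.exp (w * ((∑ u ∈ Bᶜ, ∑ b ∈ B, Aub lam mu u b : ℕ) : ℝ)) = ∏ e, F e (mu e) := by
    intro mu hm
    rw [sum_Aub hQA hQB hl hm]
    have h2 : (∑ e ∈ EB B QB, ∑ x ∈ (univ : Finset (Fin n)).filter (fun x => x ∈ e),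
        (univ.filter (fun u => ∃ a, mu e = some a ∧ lam s(u, a) = some x)).card) =
        ∑ e ∈ EB B QB, AVG_G lam e (mu e) := rfl
    rw [h2]
    push_cast
    rw [mul_sum, Real.exp_sum, hF]
    simp only []
    rw [prod_ite, prod_const_one, mul_one]
    apply prod_congr _ (fun _ _ => rfl)
    ext e
    simp
  rw [sum_congr rfl h1, AVG_labs_eq, ← Finset.prod_univ_sum]
  have h3 : ∀ e, ∑ o ∈ (if e ∈ EB B QB then Bᶜ.image some else {none} : Finset (Option (Fin n))),
      F e o ≤ if e ∈ EB B QB then Bᶜ.card *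
        Real.exp (2 * w / Bᶜ.card * ((∑ a ∈ Bᶜ, AVG_G lam e (some a) : ℕ) : ℝ)) else 1 := by
    intro e
    by_cases he : e ∈ EB B QB
    · rw [if_pos he, if_pos he, sum_image (fun _ _ _ _ h => Option.some_injective _ h)]
      simp only [hF, if_pos he]
      calc ∑ a ∈ Bᶜ, Real.exp (w * AVG_G lam e (some a))
          ≤ ∑ a ∈ Bᶜ, (1 + 2 * (w * AVG_G lam e (some a))) := by
            apply sum_le_sum
            intro a _
            apply AVG_exp (by positivity)
            refine le_trans ?_ hwn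
            apply mul_le_mul_of_nonneg_left _ hw
            exact_mod_cast AVG_G_le lam e (some a)
        _ = Bᶜ.card * (2 * w / Bᶜ.card * ((∑ a ∈ Bᶜ, AVG_G lam e (some a) : ℕ) : ℝ) + 1) := by
            rw [sum_add_distrib, sum_const, nsmul_eq_mul, mul_one]
            push_cast
            rw [← mul_sum, ← mul_sum]
            field_simp
            ring
        _ ≤ _ := by
            apply mul_le_mul_of_nonneg_left _ hα.le
            exact Real.add_one_le_exp _
    · rw [if_neg he, if_neg he, sum_singleton]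
      simp [hF, he]
  calc _ ≤ ∏ e, (if e ∈ EB B QB then (Bᶜ.card : ℝ) *
        Real.exp (2 * w / Bᶜ.card * ((∑ a ∈ Bᶜ, AVG_G lam e (some a) : ℕ) : ℝ)) else 1) := by
        apply Finset.prod_le_prod
        · intro e _
          apply sum_nonneg
          intro o _
          simp only [hF]
          split_ifs <;> positivity
        · intro e _
          exact h3 e
    _ = ∏ e ∈ EB B QB, ((Bᶜ.card : ℝ) *
        Real.exp (2 * w / Bᶜ.card * ((∑ a ∈ Bᶜ, AVG_G lam e (some a) : ℕ) : ℝ))) := by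
        rw [prod_ite, prod_const_one, mul_one]
        apply prod_congr _ (fun _ _ => rfl)
        ext e
        simp
    _ = (Bᶜ.card : ℝ) ^ (EB B QB).card * Real.exp (2 * w / Bᶜ.card *
        ((∑ e ∈ EB B QB, ∑ a ∈ Bᶜ, AVG_G lam e (some a) : ℕ) : ℝ)) := by
        rw [prod_mul_distrib, prod_const, ← Real.exp_sum, ← mul_sum]
        push_cast
        rfl
    _ ≤ _ := by
        apply mul_le_mul_of_nonneg_left _ (by positivity)
        apply Real.exp_le_exp.2
        have h4 : ((∑ e ∈ EB B QB, ∑ a ∈ Bᶜ, AVG_G lam e (some a) : ℕ) : ℝ) ≤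
            Bᶜ.card * (B.card * Bᶜ.card) := by
          exact_mod_cast AVG_sumG (QB := QB) hl
        calc _ ≤ 2 * w / Bᶜ.card * (Bᶜ.card * (B.card * Bᶜ.card)) :=
              mul_le_mul_of_nonneg_left h4 (by positivity)
          _ = _ := by field_simp


open Classical in
theorem AVG_dom {n : ℕ} {B : Finset (Fin n)} {QA QB : Sys n} (hQA : IsFam Bᶜ QA)
    (hw : ∀ u : Fin n, (dgr (fD QA) u < (n : ℝ) / 8000 → Real.exp 1 * wpr B QA u ≤ wv n) ∧
      (dgr (fD QA) u ≤ Bᶜ.card → (1 + Real.exp 1 * wpr B QA u * (3 * n)) ^ B.card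
        ≤ Real.exp n)) (lam mu : Lb n) :
    domR B QA QB lam mu ≤ Real.exp (n * badn QA + 2 * wv n * B.card * (fG QA).card +
      2 * wv n * Bᶜ.card * (fG QB).card) *
      Real.exp (wv n * ((∑ u ∈ Bᶜ, ∑ b ∈ B, Aub lam mu u b : ℕ) : ℝ)) := by
  have hwv : 0 ≤ wv n := by unfold wv; positivity
  have hwp : ∀ u, 0 ≤ Real.exp 1 * wpr B QA u := fun u =>
    mul_nonneg (Real.exp_pos _).le (AVG_wpr_nonneg B QA u)
  set S : Fin n → Fin n → ℝ := fun u b =>
    (dgr (fG QA) u + dgr (fG QB) b + Aub lam mu u b : ℝ) with hS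
  have hS0 : ∀ u b, 0 ≤ S u b := fun u b => by simp only [hS]; positivity
  have hS3 : ∀ u b, S u b ≤ 3 * n := by
    intro u b
    have h1 : dgr (fG QA) u ≤ n := by
      unfold dgr
      exact (card_filter_le _ _).trans (by simp)
    have h2 : dgr (fG QB) b ≤ n := by
      unfold dgr
      exact (card_filter_le _ _).trans (by simp)
    have h3 : Aub lam mu u b ≤ n := by
      unfold Aub
      exact (card_filter_le _ _).trans (by simp)
    have h4 : ((dgr (fG QA) u : ℕ) : ℝ) ≤ n := by exact_mod_cast h1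
    have h5 : ((dgr (fG QB) b : ℕ) : ℝ) ≤ n := by exact_mod_cast h2
    have h6 : ((Aub lam mu u b : ℕ) : ℝ) ≤ n := by exact_mod_cast h3
    simp only [hS]
    linarith
  have hfac0 : ∀ u b, 0 ≤ 1 + Real.exp 1 * wpr B QA u * S u b := fun u b =>
    add_nonneg zero_le_one (mul_nonneg (hwp u) (hS0 u b))
  have hrow : ∀ u ∈ Bᶜ, ∏ b ∈ B, (1 + Real.exp 1 * wpr B QA u * S u b) ≤
      Real.exp (n * (if (n : ℝ) / 8000 ≤ dgr (fD QA) u then 1 else 0) +
        wv n * ∑ b ∈ B, S u b) := by
    intro u _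
    by_cases hu : (n : ℝ) / 8000 ≤ dgr (fD QA) u
    · rw [if_pos hu, mul_one]
      have hd : dgr (fD QA) u ≤ Bᶜ.card := by
        unfold dgr
        apply card_le_card
        intro y hy
        rw [mem_filter] at hy
        exact hQA.right_mem ((mem_fD hQA).1 hy.2).2
      calc ∏ b ∈ B, (1 + Real.exp 1 * wpr B QA u * S u b)
          ≤ ∏ b ∈ B, (1 + Real.exp 1 * wpr B QA u * (3 * n)) := by
            apply Finset.prod_le_prod
            · intro b _
              exact hfac0 u b
            · intro b _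
              have := mul_le_mul_of_nonneg_left (hS3 u b) (hwp u)
              linarith
        _ = (1 + Real.exp 1 * wpr B QA u * (3 * n)) ^ B.card := by rw [prod_const]
        _ ≤ Real.exp n := (hw u).2 hd
        _ ≤ _ := by
            apply Real.exp_le_exp.2
            have : 0 ≤ wv n * ∑ b ∈ B, S u b :=
              mul_nonneg hwv (sum_nonneg (fun b _ => hS0 u b))
            linarith
    · rw [if_neg hu, mul_zero, zero_add, mul_sum, Real.exp_sum]
      apply Finset.prod_le_prod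
      · intro b _
        exact hfac0 u b
      · intro b _
        have h1 := (hw u).1 (not_le.1 hu)
        have h2 := mul_le_mul_of_nonneg_right h1 (hS0 u b)
        have h3 := Real.add_one_le_exp (wv n * S u b)
        linarith
  have hA := AVG_shake (fG QA)
  have hB := AVG_shake (fG QB)
  unfold domR
  calc ∏ u ∈ Bᶜ, ∏ b ∈ B, (1 + Real.exp 1 * wpr B QA u * S u b)
      ≤ ∏ u ∈ Bᶜ, Real.exp (n * (if (n : ℝ) / 8000 ≤ dgr (fD QA) u then 1 else 0) +
        wv n * ∑ b ∈ B, S u b) := by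
        apply Finset.prod_le_prod
        · intro u _
          apply Finset.prod_nonneg
          intro b _
          exact hfac0 u b
        · exact hrow
    _ = Real.exp (∑ u ∈ Bᶜ, (n * (if (n : ℝ) / 8000 ≤ dgr (fD QA) u then 1 else 0) +
        wv n * ∑ b ∈ B, S u b)) := by rw [Real.exp_sum]
    _ ≤ Real.exp ((n * badn QA + 2 * wv n * B.card * (fG QA).card +
      2 * wv n * Bᶜ.card * (fG QB).card) +
      (wv n * ((∑ u ∈ Bᶜ, ∑ b ∈ B, Aub lam mu u b : ℕ) : ℝ))) := by
        apply Real.exp_le_exp.2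
        rw [sum_add_distrib, ← mul_sum, ← mul_sum]
        have h1 : ∑ u ∈ Bᶜ, (if (n : ℝ) / 8000 ≤ dgr (fD QA) u then (1 : ℝ) else 0) ≤
            badn QA := by
          unfold badn
          rw [card_filter]
          push_cast
          apply sum_le_sum_of_subset_of_nonneg (subset_univ _)
          intro u _ _
          split_ifs <;> norm_num
        have h2 : ∑ u ∈ Bᶜ, ∑ b ∈ B, S u b = B.card * ((∑ u ∈ Bᶜ, dgr (fG QA) u : ℕ) : ℝ) +
            Bᶜ.card * ((∑ b ∈ B, dgr (fG QB) b : ℕ) : ℝ) +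
            ((∑ u ∈ Bᶜ, ∑ b ∈ B, Aub lam mu u b : ℕ) : ℝ) := by
          simp only [hS]
          push_cast
          simp only [sum_add_distrib, sum_const, nsmul_eq_mul, mul_sum]
        have h3 : ((∑ u ∈ Bᶜ, dgr (fG QA) u : ℕ) : ℝ) ≤ 2 * (fG QA).card := by
          have : ∑ u ∈ Bᶜ, dgr (fG QA) u ≤ 2 * (fG QA).card :=
            (sum_le_sum_of_subset (subset_univ _)).trans hA
          exact_mod_cast this
        have h4 : ((∑ b ∈ B, dgr (fG QB) b : ℕ) : ℝ) ≤ 2 * (fG QB).card := by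
          have : ∑ b ∈ B, dgr (fG QB) b ≤ 2 * (fG QB).card :=
            (sum_le_sum_of_subset (subset_univ _)).trans hB
          exact_mod_cast this
        rw [h2]
        have h5 := mul_le_mul_of_nonneg_left h1 (Nat.cast_nonneg (α := ℝ) n)
        have h6 := mul_le_mul_of_nonneg_left h3 (mul_nonneg hwv (Nat.cast_nonneg (α := ℝ) B.card))
        have h7 := mul_le_mul_of_nonneg_left h4 (mul_nonneg hwv (Nat.cast_nonneg (α := ℝ) Bᶜ.card))
        linarith
    _ = _ := by rw [Real.exp_add]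

open Classical in
/-- Blueprint 2.7: AVG. -/
theorem avg : ∀ᶠ n : ℕ in atTop, ∀ (B : Finset (Fin n)), Rng B → ∀ (QA QB : Sys n),
    IsFam Bᶜ QA → IsFam B QB →
    ∑ lam ∈ labs (EA B QA) B, ∑ mu ∈ labs (EB B QB) Bᶜ, domR B QA QB lam mu ≤ cntX B QA QB := by
  filter_upwards [AVG_ev, rng_sizes, wpr_bounds, eventually_ge_atTop 1] with n hn hr hwp hn1
  intro B hB QA QB hQA hQB
  obtain ⟨-, -, -, e4⟩ := hn
  obtain ⟨-, r2, -, -, -⟩ := hr B hB
  have hA : 1 ≤ Bᶜ.card := by
    have h1 : (1 : ℝ) ≤ n := by exact_mod_cast hn1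
    have h2 : (0 : ℝ) < Bᶜ.card := by linarith
    exact_mod_cast h2
  have hwv : 0 ≤ wv n := by unfold wv; positivity
  have h1 : ∀ lam ∈ labs (EA B QA) B, ∑ mu ∈ labs (EB B QB) Bᶜ, domR B QA QB lam mu ≤
      Real.exp (n * badn QA + 2 * wv n * B.card * (fG QA).card +
      2 * wv n * Bᶜ.card * (fG QB).card) * ((Bᶜ.card : ℝ) ^ (EB B QB).card *
        Real.exp (2 * wv n * Bᶜ.card * B.card)) := by
    intro lam hl
    calc _ ≤ ∑ mu ∈ labs (EB B QB) Bᶜ, Real.exp (n * badn QA +
          2 * wv n * B.card * (fG QA).card + 2 * wv n * Bᶜ.card * (fG QB).card) *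
          Real.exp (wv n * ((∑ u ∈ Bᶜ, ∑ b ∈ B, Aub lam mu u b : ℕ) : ℝ)) :=
          sum_le_sum (fun mu _ => AVG_dom hQA (hwp B hB QA) lam mu)
      _ = Real.exp (n * badn QA +
          2 * wv n * B.card * (fG QA).card + 2 * wv n * Bᶜ.card * (fG QB).card) *
          ∑ mu ∈ labs (EB B QB) Bᶜ,
          Real.exp (wv n * ((∑ u ∈ Bᶜ, ∑ b ∈ B, Aub lam mu u b : ℕ) : ℝ)) := by
          rw [mul_sum]
      _ ≤ _ := by
          apply mul_le_mul_of_nonneg_left _ (Real.exp_pos _).le
          exact avg_mu hQA hQB hl (wv n) hwv (by linarith) hA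
  calc _ ≤ ∑ lam ∈ labs (EA B QA) B, Real.exp (n * badn QA +
      2 * wv n * B.card * (fG QA).card +
      2 * wv n * Bᶜ.card * (fG QB).card) * ((Bᶜ.card : ℝ) ^ (EB B QB).card *
        Real.exp (2 * wv n * Bᶜ.card * B.card)) := sum_le_sum h1
    _ = _ := by
        rw [sum_const, nsmul_eq_mul, card_labs]
        unfold cntX
        rw [Real.exp_add (n * badn QA + 2 * wv n * B.card * (fG QA).card +
          2 * wv n * Bᶜ.card * (fG QB).card)]
        push_cast
        ring

end PSys
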