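import Mathlib
import Pool.Agent.PSys.Spec
import Pool.Agent.PSys.Avg

/-! Module AVGBM (blueprint 2.7, last line): large multiplicities of the hub labels. -/

open Finset Filter

namespace PSys

open Classical in
theorem AVGBM_ordered {n : ℕ} (E : Finset (Sym2 (Fin n))) :
    (univ.filter (fun p : Fin n × Fin n => s(p.1, p.2) ∈ E)).card ≤ 2 * E.card := by
  have h1 := card_le_mul_card_image (f := fun p : Fin n × Fin n => s(p.1, p.2))
    (univ.filter (fun p : Fin n × Fin n => s(p.1, p.2) ∈ E)) 2 (by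
      intro e _
      induction e with
      | _ u v =>
        have hsub : ((univ.filter (fun p : Fin n × Fin n => s(p.1, p.2) ∈ E)).filter
            (fun p => s(p.1, p.2) = s(u, v))) ⊆ {(u, v), (v, u)} := by
          intro p hp
          rw [mem_filter] at hp
          rw [mem_insert, mem_singleton]
          rcases Sym2.eq_iff.1 hp.2 with ⟨h1, h2⟩ | ⟨h1, h2⟩
          · left; exact Prod.ext h1 h2
          · right; exact Prod.ext h1 h2
        exact (card_le_card hsub).trans (card_le_two))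
  refine h1.trans (Nat.mul_le_mul_left 2 (card_le_card ?_))
  intro e he
  obtain ⟨p, hp, rfl⟩ := mem_image.1 he
  exact (mem_filter.1 hp).2

open Classical in
theorem AVGBM_hand {n : ℕ} (G : Finset (Sym2 (Fin n))) : ∑ x, dgr G x ≤ 2 * G.card := by
  refine le_trans (le_of_eq ?_) (AVGBM_ordered G)
  unfold dgr
  rw [card_filter, Fintype.sum_prod_type]
  apply sum_congr rfl
  intro x _
  rw [card_filter]

theorem AVGBM_dgr_le {n : ℕ} (G : Finset (Sym2 (Fin n))) (x : Fin n) : dgr G x ≤ n := by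
  unfold dgr
  refine (card_le_univ _).trans ?_
  rw [Fintype.card_fin]

theorem AVGBM_Aub_le {n : ℕ} (lam mu : Lb n) (u b : Fin n) : Aub lam mu u b ≤ n := by
  unfold Aub
  refine (card_le_univ _).trans ?_
  rw [Fintype.card_fin]

theorem AVGBM_wpr_nonneg {n : ℕ} (B : Finset (Fin n)) (QA : Sys n) (u : Fin n) :
    0 ≤ wpr B QA u := by
  unfold wpr ccv; positivity

open Classical in
/-- pointwise bound for the dominating product -/
theorem AVGBM_domR_le {n : ℕ} (B : Finset (Fin n)) (QA QB : Sys n) (hQA : IsFam Bᶜ QA)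
    (hw : ∀ u, (dgr (fD QA) u < (n : ℝ) / 8000 → Real.exp 1 * wpr B QA u ≤ wv n) ∧
      (dgr (fD QA) u ≤ Bᶜ.card → (1 + Real.exp 1 * wpr B QA u * (3 * n)) ^ B.card ≤ Real.exp n))
    (lam mu : Lb n) :
    domR B QA QB lam mu ≤ Real.exp (n * badn QA + 2 * wv n * B.card * (fG QA).card +
      2 * wv n * Bᶜ.card * (fG QB).card) *
      Real.exp (wv n * ((∑ u ∈ Bᶜ, ∑ b ∈ B, Aub lam mu u b : ℕ) : ℝ)) := by
  have hwv : 0 ≤ wv n := by unfold wv; positivity
  have hdg : ∀ u, dgr (fD QA) u ≤ Bᶜ.card := by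
    intro u
    unfold dgr
    apply card_le_card
    intro y hy
    rw [mem_filter] at hy
    exact hQA.right_mem ((mem_fD hQA).1 hy.2).2
  set X : Fin n → ℝ := fun u => wv n * (∑ b ∈ B, ((dgr (fG QA) u : ℝ) + dgr (fG QB) b +
    Aub lam mu u b)) with hX
  have hX0 : ∀ u, 0 ≤ X u := by
    intro u; rw [hX]; positivity
  have h1 : ∀ u ∈ Bᶜ, ∏ b ∈ B, (1 + Real.exp 1 * wpr B QA u *
      (dgr (fG QA) u + dgr (fG QB) b + Aub lam mu u b)) ≤
      (if (n : ℝ) / 8000 ≤ dgr (fD QA) u then Real.exp n else 1) * Real.exp (X u) := by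
    intro u _
    have hwp := AVGBM_wpr_nonneg B QA u
    by_cases hu : (n : ℝ) / 8000 ≤ dgr (fD QA) u
    · rw [if_pos hu]
      have h2 : ∏ b ∈ B, (1 + Real.exp 1 * wpr B QA u *
          (dgr (fG QA) u + dgr (fG QB) b + Aub lam mu u b)) ≤
          ∏ _b ∈ B, (1 + Real.exp 1 * wpr B QA u * (3 * n)) := by
        apply Finset.prod_le_prod
        · intro b _; positivity
        · intro b _
          have a1 : (dgr (fG QA) u : ℝ) ≤ n := by exact_mod_cast AVGBM_dgr_le _ _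
          have a2 : (dgr (fG QB) b : ℝ) ≤ n := by exact_mod_cast AVGBM_dgr_le _ _
          have a3 : (Aub lam mu u b : ℝ) ≤ n := by exact_mod_cast AVGBM_Aub_le _ _ _ _
          have a4 : 0 ≤ Real.exp 1 * wpr B QA u := by positivity
          nlinarith
      rw [prod_const] at h2
      refine h2.trans (((hw u).2 (by exact_mod_cast hdg u)).trans ?_)
      exact le_mul_of_one_le_right (Real.exp_pos _).le (Real.one_le_exp (hX0 u))
    · rw [if_neg hu, one_mul]
      push Not at hu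
      have h3 := (hw u).1 hu
      calc ∏ b ∈ B, (1 + Real.exp 1 * wpr B QA u *
          (dgr (fG QA) u + dgr (fG QB) b + Aub lam mu u b))
          ≤ ∏ b ∈ B, Real.exp (wv n * ((dgr (fG QA) u : ℝ) + dgr (fG QB) b +
            Aub lam mu u b)) := by
            apply Finset.prod_le_prod
            · intro b _; positivity
            · intro b _
              have a5 : Real.exp 1 * wpr B QA u * ((dgr (fG QA) u : ℝ) + dgr (fG QB) b +
                Aub lam mu u b) ≤ wv n * ((dgr (fG QA) u : ℝ) + dgr (fG QB) b +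
                Aub lam mu u b) := mul_le_mul_of_nonneg_right h3 (by positivity)
              have a6 := Real.add_one_le_exp (wv n * ((dgr (fG QA) u : ℝ) + dgr (fG QB) b +
                Aub lam mu u b))
              linarith
        _ = Real.exp (X u) := by
            rw [← Real.exp_sum, ← mul_sum]
  have h2 : domR B QA QB lam mu ≤ ∏ u ∈ Bᶜ,
      ((if (n : ℝ) / 8000 ≤ dgr (fD QA) u then Real.exp n else 1) * Real.exp (X u)) := by
    unfold domR
    apply Finset.prod_le_prod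
    · intro u _
      apply prod_nonneg
      intro b _
      have hwp := AVGBM_wpr_nonneg B QA u
      positivity
    · exact h1
  refine h2.trans ?_
  rw [prod_mul_distrib, ← Real.exp_sum]
  have h3 : ∏ u ∈ Bᶜ, (if (n : ℝ) / 8000 ≤ dgr (fD QA) u then Real.exp n else 1) ≤
      Real.exp (n * badn QA) := by
    rw [← prod_filter, prod_const, ← Real.exp_nat_mul]
    apply Real.exp_le_exp.2
    rw [mul_comm]
    apply mul_le_mul_of_nonneg_left _ (by positivity)
    have : (Bᶜ.filter (fun u => (n : ℝ) / 8000 ≤ dgr (fD QA) u)).card ≤ badn QA := by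
      unfold badn
      exact card_le_card (filter_subset_filter _ (subset_univ _))
    exact_mod_cast this
  have h4 : ∑ u ∈ Bᶜ, X u ≤ 2 * wv n * B.card * (fG QA).card +
      2 * wv n * Bᶜ.card * (fG QB).card +
      wv n * ((∑ u ∈ Bᶜ, ∑ b ∈ B, Aub lam mu u b : ℕ) : ℝ) := by
    have e1 : ∑ u ∈ Bᶜ, X u = wv n * (B.card * ∑ u ∈ Bᶜ, (dgr (fG QA) u : ℝ)) +
        wv n * (Bᶜ.card * ∑ b ∈ B, (dgr (fG QB) b : ℝ)) +
        wv n * ((∑ u ∈ Bᶜ, ∑ b ∈ B, Aub lam mu u b : ℕ) : ℝ) := by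
      have e0 : ∀ u, ∑ b ∈ B, ((dgr (fG QA) u : ℝ) + dgr (fG QB) b + Aub lam mu u b) =
          B.card * (dgr (fG QA) u : ℝ) + ∑ b ∈ B, (dgr (fG QB) b : ℝ) +
            ∑ b ∈ B, (Aub lam mu u b : ℝ) := by
        intro u
        rw [sum_add_distrib, sum_add_distrib, sum_const, nsmul_eq_mul]
      simp only [hX, e0]
      rw [← mul_sum, sum_add_distrib, sum_add_distrib, ← mul_sum, sum_const, nsmul_eq_mul]
      push_cast
      ring
    have e2 : ∑ u ∈ Bᶜ, (dgr (fG QA) u : ℝ) ≤ 2 * (fG QA).card := by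
      have a1 : ∑ u ∈ Bᶜ, dgr (fG QA) u ≤ ∑ u, dgr (fG QA) u :=
        sum_le_sum_of_subset (subset_univ _)
      have a2 := a1.trans (AVGBM_hand (fG QA))
      exact_mod_cast a2
    have e3 : ∑ b ∈ B, (dgr (fG QB) b : ℝ) ≤ 2 * (fG QB).card := by
      have a1 : ∑ u ∈ B, dgr (fG QB) u ≤ ∑ u, dgr (fG QB) u :=
        sum_le_sum_of_subset (subset_univ _)
      have a2 := a1.trans (AVGBM_hand (fG QB))
      exact_mod_cast a2
    have e4 : wv n * (B.card * ∑ u ∈ Bᶜ, (dgr (fG QA) u : ℝ)) ≤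
        wv n * (B.card * (2 * (fG QA).card)) :=
      mul_le_mul_of_nonneg_left (mul_le_mul_of_nonneg_left e2 (by positivity)) hwv
    have e5 : wv n * (Bᶜ.card * ∑ b ∈ B, (dgr (fG QB) b : ℝ)) ≤
        wv n * (Bᶜ.card * (2 * (fG QB).card)) :=
      mul_le_mul_of_nonneg_left (mul_le_mul_of_nonneg_left e3 (by positivity)) hwv
    rw [e1]
    linarith
  calc _ ≤ Real.exp (n * badn QA) * Real.exp (2 * wv n * B.card * (fG QA).card +
      2 * wv n * Bᶜ.card * (fG QB).card +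
      wv n * ((∑ u ∈ Bᶜ, ∑ b ∈ B, Aub lam mu u b : ℕ) : ℝ)) :=
        mul_le_mul h3 (Real.exp_le_exp.2 h4) (Real.exp_pos _).le (Real.exp_pos _).le
    _ = _ := by
        rw [← Real.exp_add, ← Real.exp_add]
        congr 1
        ring

open Classical in
/-- one forced label -/
theorem AVGBM_step {n : ℕ} (A : Finset (Fin n)) (X : Finset (Lb n))
    (g : Lb n → ℝ) (hg : ∀ mu, 0 ≤ g mu) (C : ℝ) (hC : 0 ≤ C) (e0 : Sym2 (Fin n)) (a : Fin n)
    (hX : ∀ mu ∈ X, ∀ a' ∈ A, mu e0 = some a → Function.update mu e0 (some a') ∈ X)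
    (hL : ∀ mu ∈ X, ∀ a' ∈ A, mu e0 = some a → g mu ≤ C * g (Function.update mu e0 (some a'))) :
    (A.card : ℝ) * ∑ mu ∈ X.filter (fun mu => mu e0 = some a), g mu ≤ C * ∑ mu ∈ X, g mu := by
  have h1 : (A.card : ℝ) * ∑ mu ∈ X.filter (fun mu => mu e0 = some a), g mu =
      ∑ q ∈ (X.filter (fun mu => mu e0 = some a)) ×ˢ A, g q.1 := by
    rw [sum_product, mul_sum]
    apply sum_congr rfl
    intro mu _
    simp only [sum_const, nsmul_eq_mul]
  have h2 : ∑ q ∈ (X.filter (fun mu => mu e0 = some a)) ×ˢ A, g q.1 ≤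
      ∑ q ∈ (X.filter (fun mu => mu e0 = some a)) ×ˢ A,
        C * g (Function.update q.1 e0 (some q.2)) := by
    apply sum_le_sum
    intro q hq
    rw [mem_product, mem_filter] at hq
    exact hL q.1 hq.1.1 q.2 hq.2 hq.1.2
  have h3 : ∑ q ∈ (X.filter (fun mu => mu e0 = some a)) ×ˢ A,
        g (Function.update q.1 e0 (some q.2)) ≤ ∑ mu ∈ X, g mu := by
    have hinj : Set.InjOn (fun q : Lb n × Fin n => Function.update q.1 e0 (some q.2))
        ((X.filter (fun mu => mu e0 = some a)) ×ˢ A : Finset (Lb n × Fin n)) := by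
      rintro ⟨mu, a1⟩ h4 ⟨mu', a2⟩ h5 h6
      rw [mem_coe, mem_product, mem_filter] at h4 h5
      simp only at h4 h5 h6
      have h7 : a1 = a2 := by
        have := congrFun h6 e0
        simp only [Function.update_self, Option.some.injEq] at this
        exact this
      have h8 : mu = mu' := by
        funext e
        by_cases he : e = e0
        · rw [he, h4.1.2, h5.1.2]
        · have := congrFun h6 e
          simpa [Function.update_of_ne he] using this
      rw [h7, h8]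
    rw [← sum_image (f := g) hinj]
    apply sum_le_sum_of_subset_of_nonneg
    · intro mu hmu
      obtain ⟨q, hq, rfl⟩ := mem_image.1 hmu
      rw [mem_product, mem_filter] at hq
      exact hX q.1 hq.1.1 q.2 hq.2 hq.1.2
    · intro mu _ _; exact hg mu
  rw [h1]
  refine h2.trans ?_
  rw [← mul_sum]
  exact mul_le_mul_of_nonneg_left h3 hC

open Classical in
/-- `k` forced labels -/
theorem AVGBM_forced {n : ℕ} (E : Finset (Sym2 (Fin n))) (A : Finset (Fin n))
    (g : Lb n → ℝ) (hg : ∀ mu, 0 ≤ g mu) (C : ℝ) (hC : 0 ≤ C) (hA : 1 ≤ A.card)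
    (hL : ∀ mu ∈ labs E A, ∀ e0 ∈ E, ∀ a' ∈ A,
      g mu ≤ C * g (Function.update mu e0 (some a')))
    (b a : Fin n) (S : Finset (Fin n)) :
    ∑ mu ∈ (labs E A).filter (fun mu => ∀ c ∈ S, mu s(b, c) = some a), g mu ≤
      (C / A.card) ^ S.card * ∑ mu ∈ labs E A, g mu := by
  have hA0 : (0 : ℝ) < A.card := by exact_mod_cast hA
  induction S using Finset.induction_on with
  | empty => simp
  | insert c S hc ih =>
    rw [card_insert_of_notMem hc, pow_succ]
    set X := (labs E A).filter (fun mu => ∀ c ∈ S, mu s(b, c) = some a) with hXdef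
    have hE : (labs E A).filter (fun mu => ∀ c' ∈ insert c S, mu s(b, c') = some a) =
        X.filter (fun mu => mu s(b, c) = some a) := by
      ext mu
      simp only [hXdef, mem_filter, mem_insert, forall_eq_or_imp]
      tauto
    rw [hE]
    have hlab : ∀ mu ∈ labs E A, ∀ a1, mu s(b, c) = some a1 → s(b, c) ∈ E := by
      intro mu hmu a1 h1
      unfold labs at hmu
      rw [mem_filter] at hmu
      by_contra h2
      have := (hmu.2.1 s(b, c)).2 h2
      rw [h1] at this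
      simp at this
    have hstep := AVGBM_step A X g hg C hC s(b, c) a (by
      intro mu hmu a' ha' h1
      rw [hXdef, mem_filter] at hmu ⊢
      have hE0 := hlab mu hmu.1 a h1
      refine ⟨?_, ?_⟩
      · have h2 := hmu.1
        unfold labs at h2 ⊢
        rw [mem_filter] at h2 ⊢
        refine ⟨mem_univ _, ?_, ?_⟩
        · intro e
          by_cases he : e = s(b, c)
          · subst he
            simp [hE0]
          · rw [Function.update_of_ne he]
            exact h2.2.1 e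
        · intro e b1 h3
          by_cases he : e = s(b, c)
          · subst he
            rw [Function.update_self, Option.some.injEq] at h3
            rw [← h3]; exact ha'
          · rw [Function.update_of_ne he] at h3
            exact h2.2.2 e b1 h3
      · intro c' hc'
        have hne : s(b, c') ≠ s(b, c) := by
          intro h3
          rcases Sym2.eq_iff.1 h3 with ⟨_, h4⟩ | ⟨h4, h5⟩
          · exact hc (h4 ▸ hc')
          · have : c' = c := h5.trans h4
            exact hc (this ▸ hc')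
        rw [Function.update_of_ne hne]
        exact hmu.2 c' hc') (by
      intro mu hmu a' ha' h1
      rw [hXdef, mem_filter] at hmu
      exact hL mu hmu.1 s(b, c) (hlab mu hmu.1 a h1) a' ha')
    have h5 : ∑ mu ∈ X.filter (fun mu => mu s(b, c) = some a), g mu ≤
        C / A.card * ∑ mu ∈ X, g mu := by
      rw [div_mul_eq_mul_div, le_div_iff₀ hA0]
      linarith
    refine h5.trans ?_
    calc C / A.card * ∑ mu ∈ X, g mu ≤ C / A.card * ((C / A.card) ^ S.card *
        ∑ mu ∈ labs E A, g mu) := mul_le_mul_of_nonneg_left ih (by positivity)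
      _ = _ := by ring

theorem AVGBM_sum_biUnion {ι M : Type*} [DecidableEq M] (I : Finset ι) (F : ι → Finset M)
    (g : M → ℝ) (hg : ∀ m, 0 ≤ g m) : ∑ m ∈ I.biUnion F, g m ≤ ∑ i ∈ I, ∑ m ∈ F i, g m := by
  classical
  induction I using Finset.induction_on with
  | empty => simp
  | insert i I hi ih =>
    rw [biUnion_insert, sum_insert hi]
    have h1 := sum_union_inter (s₁ := F i) (s₂ := I.biUnion F) (f := g)
    have h2 : 0 ≤ ∑ m ∈ F i ∩ I.biUnion F, g m := sum_nonneg (fun m _ => hg m)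
    linarith

open Classical in
/-- union bound -/
theorem AVGBM_union {n : ℕ} (E : Finset (Sym2 (Fin n))) (A : Finset (Fin n))
    (g : Lb n → ℝ) (hg : ∀ mu, 0 ≤ g mu) (C : ℝ) (hC : 0 ≤ C) (hA : 1 ≤ A.card)
    (hL : ∀ mu ∈ labs E A, ∀ e0 ∈ E, ∀ a' ∈ A,
      g mu ≤ C * g (Function.update mu e0 (some a'))) :
    ∑ mu ∈ (labs E A).filter (fun mu => BMm mu), g mu ≤
      (n : ℝ) ^ 2 * (n.choose ⌈(n : ℝ) ^ ((1 : ℝ) / 32)⌉₊ : ℝ) *
        (C / A.card) ^ ⌈(n : ℝ) ^ ((1 : ℝ) / 32)⌉₊ * ∑ mu ∈ labs E A, g mu := by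
  set k := ⌈(n : ℝ) ^ ((1 : ℝ) / 32)⌉₊ with hk
  set I : Finset ((Fin n × Fin n) × Finset (Fin n)) :=
    univ ×ˢ (powersetCard k (univ : Finset (Fin n))) with hI
  have hsub : (labs E A).filter (fun mu => BMm mu) ⊆ I.biUnion (fun q =>
      (labs E A).filter (fun mu => ∀ c ∈ q.2, mu s(q.1.1, c) = some q.1.2)) := by
    intro mu hmu
    rw [mem_filter] at hmu
    obtain ⟨h1, b, a, h2⟩ := hmu
    rw [← hk] at h2
    obtain ⟨S, hS1, hS2⟩ := exists_subset_card_eq h2
    rw [mem_biUnion]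
    refine ⟨((b, a), S), ?_, ?_⟩
    · rw [hI, mem_product, mem_powersetCard]
      exact ⟨mem_univ _, subset_univ _, hS2⟩
    · rw [mem_filter]
      refine ⟨h1, ?_⟩
      intro c hc
      exact (mem_filter.1 (hS1 hc)).2
  have h1 : ∑ mu ∈ (labs E A).filter (fun mu => BMm mu), g mu ≤
      ∑ q ∈ I, ∑ mu ∈ (labs E A).filter (fun mu => ∀ c ∈ q.2, mu s(q.1.1, c) = some q.1.2),
        g mu := by
    refine (sum_le_sum_of_subset_of_nonneg hsub (fun mu _ _ => hg mu)).trans ?_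
    exact AVGBM_sum_biUnion _ _ _ hg
  refine h1.trans ?_
  have h2 : ∀ q ∈ I, ∑ mu ∈ (labs E A).filter (fun mu => ∀ c ∈ q.2, mu s(q.1.1, c) =
      some q.1.2), g mu ≤ (C / A.card) ^ k * ∑ mu ∈ labs E A, g mu := by
    intro q hq
    rw [hI, mem_product, mem_powersetCard] at hq
    have := AVGBM_forced E A g hg C hC hA hL q.1.1 q.1.2 q.2
    rwa [hq.2.2] at this
  refine (sum_le_sum h2).trans (le_of_eq ?_)
  rw [sum_const, nsmul_eq_mul, hI, card_product, card_powersetCard, card_univ, card_univ,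
    Fintype.card_prod, Fintype.card_fin]
  push_cast
  ring

/-- Lipschitz property of the sum of the `Aub` -/
theorem AVGBM_lip {n : ℕ} {B : Finset (Fin n)} {QA QB : Sys n} (hQA : IsFam Bᶜ QA)
    (hQB : IsFam B QB) {lam mu : Lb n} (hl : lam ∈ labs (EA B QA) B)
    (hm : mu ∈ labs (EB B QB) Bᶜ) (e0 : Sym2 (Fin n)) (he0 : e0 ∈ EB B QB) (a' : Fin n)
    (ha' : a' ∈ Bᶜ) :
    ∑ u ∈ Bᶜ, ∑ b ∈ B, Aub lam mu u b ≤
      ∑ u ∈ Bᶜ, ∑ b ∈ B, Aub lam (Function.update mu e0 (some a')) u b + 2 * n := by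
  classical
  have hm' : Function.update mu e0 (some a') ∈ labs (EB B QB) Bᶜ := by
    have h2 := hm
    unfold labs at h2 ⊢
    rw [mem_filter] at h2 ⊢
    refine ⟨mem_univ _, ?_, ?_⟩
    · intro e
      by_cases he : e = e0
      · subst he
        simp [he0]
      · rw [Function.update_of_ne he]
        exact h2.2.1 e
    · intro e b1 h3
      by_cases he : e = e0
      · subst he
        rw [Function.update_self, Option.some.injEq] at h3
        rw [← h3]; exact ha'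
      · rw [Function.update_of_ne he] at h3
        exact h2.2.2 e b1 h3
  rw [sum_Aub hQA hQB hl hm, sum_Aub hQA hQB hl hm']
  rw [← add_sum_erase _ _ he0, ← add_sum_erase _ _ he0]
  have h1 : ∑ e ∈ (EB B QB).erase e0, ∑ x ∈ (univ : Finset (Fin n)).filter (fun x => x ∈ e),
        (univ.filter (fun u => ∃ a, mu e = some a ∧ lam s(u, a) = some x)).card =
      ∑ e ∈ (EB B QB).erase e0, ∑ x ∈ (univ : Finset (Fin n)).filter (fun x => x ∈ e),
        (univ.filter (fun u => ∃ a, (Function.update mu e0 (some a')) e = some a ∧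
          lam s(u, a) = some x)).card := by
    apply sum_congr rfl
    intro e he
    rw [Function.update_of_ne (ne_of_mem_erase he)]
  rw [h1]
  have h2 : ∑ x ∈ (univ : Finset (Fin n)).filter (fun x => x ∈ e0),
        (univ.filter (fun u => ∃ a, mu e0 = some a ∧ lam s(u, a) = some x)).card ≤ 2 * n := by
    have h3 : ∀ x ∈ (univ : Finset (Fin n)).filter (fun x => x ∈ e0),
        (univ.filter (fun u => ∃ a, mu e0 = some a ∧ lam s(u, a) = some x)).card ≤ n := by
      intro x _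
      refine (card_le_univ _).trans ?_
      rw [Fintype.card_fin]
    refine (sum_le_card_nsmul _ _ _ h3).trans ?_
    rw [smul_eq_mul]
    apply Nat.mul_le_mul_right
    induction e0 with
    | _ x y =>
      have h4 : (univ : Finset (Fin n)).filter (fun z => z ∈ s(x, y)) ⊆ {x, y} := by
        intro z hz
        rw [mem_filter, Sym2.mem_iff] at hz
        rw [mem_insert, mem_singleton]
        exact hz.2
      exact (card_le_card h4).trans card_le_two
  omega

/-- bound for a binomial coefficient -/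
theorem AVGBM_choose (n k : ℕ) (hk : 1 ≤ k) :
    (n.choose k : ℝ) ≤ (Real.exp 1 * n / k) ^ k := by
  have hk0 : (0 : ℝ) < k := by exact_mod_cast hk
  have h1 : (n.choose k : ℝ) ≤ (n : ℝ) ^ k / (k.factorial : ℝ) := Nat.choose_le_pow_div k n
  have h2 : (k : ℝ) ^ k / (k.factorial : ℝ) ≤ Real.exp k :=
    Real.pow_div_factorial_le_exp (k : ℝ) hk0.le k
  have hf : (0 : ℝ) < k.factorial := by exact_mod_cast k.factorial_pos
  have hkk : (0 : ℝ) < (k : ℝ) ^ k := by positivity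
  refine h1.trans ?_
  have e1 : (Real.exp 1 * n / k) ^ k = (n : ℝ) ^ k * (Real.exp k / (k : ℝ) ^ k) := by
    rw [div_pow, mul_pow, ← Real.exp_nat_mul, mul_one]; ring
  rw [e1, div_eq_mul_inv]
  apply mul_le_mul_of_nonneg_left _ (by positivity)
  rw [le_div_iff₀ hkk]
  calc ((k.factorial : ℝ))⁻¹ * (k : ℝ) ^ k = (k : ℝ) ^ k / (k.factorial : ℝ) := by ring
    _ ≤ _ := h2

theorem AVGBM_num0 : ∀ᶠ n : ℕ in atTop, (1 : ℝ) ≤ n ∧
    wv n * (2 * n) ≤ 1 ∧ Real.exp (2 * Real.log n) ≤ Real.exp ((n : ℝ) ^ ((1 : ℝ) / 32)) ∧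
    8 * Real.exp 4 ≤ (n : ℝ) ^ ((1 : ℝ) / 32) ∧
    23 * Real.log n * (n : ℝ) ^ ((11 : ℝ) / 1000) * Real.exp 4 ≤ (n : ℝ) ^ ((1 : ℝ) / 32) := by
  have t1 : Tendsto (fun n : ℕ => (n : ℝ) ^ ((1 : ℝ) / 32)) atTop atTop :=
    (tendsto_rpow_atTop (by norm_num)).comp (tendsto_natCast_atTop_atTop (R := ℝ))
  have t2 : Tendsto (fun n : ℕ => (n : ℝ) ^ ((49 : ℝ) / 50 - 0)) atTop atTop :=
    (tendsto_rpow_atTop (by norm_num)).comp (tendsto_natCast_atTop_atTop (R := ℝ))
  have l1 : ∀ᶠ n : ℕ in atTop, Real.log n ≤ 1 / 2 * (n : ℝ) ^ ((1 : ℝ) / 32) := by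
    have := (isLittleO_log_rpow_atTop (show (0 : ℝ) < 1 / 32 by norm_num)).bound
      (show (0 : ℝ) < 1 / 2 by norm_num)
    have h := (tendsto_natCast_atTop_atTop (R := ℝ)).eventually this
    filter_upwards [h, eventually_ge_atTop 1] with n h1 hn
    have hn1 : (1 : ℝ) ≤ n := by exact_mod_cast hn
    rw [Real.norm_of_nonneg (Real.log_nonneg hn1), Real.norm_of_nonneg (by positivity)] at h1
    exact h1
  have l2 : ∀ᶠ n : ℕ in atTop, Real.log n ≤ 1 / (23 * Real.exp 4) *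
      (n : ℝ) ^ ((1 : ℝ) / 32 - 11 / 1000) := by
    have := (isLittleO_log_rpow_atTop (show (0 : ℝ) < 1 / 32 - 11 / 1000 by norm_num)).bound
      (show (0 : ℝ) < 1 / (23 * Real.exp 4) by positivity)
    have h := (tendsto_natCast_atTop_atTop (R := ℝ)).eventually this
    filter_upwards [h, eventually_ge_atTop 1] with n h1 hn
    have hn1 : (1 : ℝ) ≤ n := by exact_mod_cast hn
    rw [Real.norm_of_nonneg (Real.log_nonneg hn1), Real.norm_of_nonneg (by positivity)] at h1
    exact h1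
  filter_upwards [eventually_ge_atTop 1, t1.eventually_ge_atTop (8 * Real.exp 4),
    t2.eventually_ge_atTop 2, l1, l2] with n hn h1 h2 h3 h4
  have hn1 : (1 : ℝ) ≤ n := by exact_mod_cast hn
  have hn0 : (0 : ℝ) < n := by linarith
  refine ⟨hn1, ?_, ?_, h1, ?_⟩
  · have e1 : wv n * (2 * n) * (n : ℝ) ^ ((49 : ℝ) / 50 - 0) = 2 := by
      unfold wv
      have : (n : ℝ) ^ (-((99 : ℝ) / 50)) * n * (n : ℝ) ^ ((49 : ℝ) / 50 - 0) = 1 := by
        nth_rewrite 2 [← Real.rpow_one (n : ℝ)]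
        rw [← Real.rpow_add hn0, ← Real.rpow_add hn0]
        norm_num
      linear_combination 2 * this
    have hw0 : 0 ≤ wv n * (2 * n) := by unfold wv; positivity
    nlinarith
  · apply Real.exp_le_exp.2; linarith
  · have e2 : (n : ℝ) ^ ((1 : ℝ) / 32) =
        (n : ℝ) ^ ((1 : ℝ) / 32 - 11 / 1000) * (n : ℝ) ^ ((11 : ℝ) / 1000) := by
      rw [← Real.rpow_add hn0]; congr 1; norm_num
    have h5 : 23 * Real.exp 4 * Real.log n ≤ (n : ℝ) ^ ((1 : ℝ) / 32 - 11 / 1000) := by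
      have h6 : (0 : ℝ) < 23 * Real.exp 4 := by positivity
      have := mul_le_mul_of_nonneg_left h4 h6.le
      have e3 : 23 * Real.exp 4 * (1 / (23 * Real.exp 4) *
        (n : ℝ) ^ ((1 : ℝ) / 32 - 11 / 1000)) = (n : ℝ) ^ ((1 : ℝ) / 32 - 11 / 1000) := by
        field_simp
      rw [e3] at this
      exact this
    rw [e2]
    have h7 := mul_le_mul_of_nonneg_right h5 (show (0 : ℝ) ≤ (n : ℝ) ^ ((11 : ℝ) / 1000) by
      positivity)
    linarith

/-- a power with a small base -/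
theorem AVGBM_pow {X : ℝ} {k : ℕ} (hk : X ≤ k) (hX : 0 ≤ X) {y L : ℝ} (hy0 : 0 ≤ y)
    (hy : y ≤ Real.exp (-4)) (hL : Real.exp L ≤ Real.exp X) :
    Real.exp L * y ^ k ≤ Real.exp (-X) := by
  have h1 : y ^ k ≤ Real.exp (-4 * k) := by
    calc y ^ k ≤ (Real.exp (-4)) ^ k := pow_le_pow_left₀ hy0 hy k
      _ = Real.exp (-4 * k) := by rw [← Real.exp_nat_mul]; congr 1; ring
  calc Real.exp L * y ^ k ≤ Real.exp X * Real.exp (-4 * k) :=
        mul_le_mul hL h1 (by positivity) (Real.exp_pos _).le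
    _ = Real.exp (X + -4 * k) := by rw [Real.exp_add]
    _ ≤ _ := by apply Real.exp_le_exp.2; linarith

theorem AVGBM_sq {n : ℕ} (hn : (1 : ℝ) ≤ n) : (n : ℝ) ^ 2 = Real.exp (2 * Real.log n) := by
  have hn0 : (0 : ℝ) < n := by linarith
  rw [mul_comm, Real.exp_mul, Real.exp_log hn0]
  norm_cast

/-- numerical part for the hub labels -/
theorem AVGBM_num1 : ∀ᶠ n : ℕ in atTop, ∀ (B : Finset (Fin n)), Rng B →
    (n : ℝ) ^ 2 * (n.choose ⌈(n : ℝ) ^ ((1 : ℝ) / 32)⌉₊ : ℝ) *
      (Real.exp 1 / Bᶜ.card) ^ ⌈(n : ℝ) ^ ((1 : ℝ) / 32)⌉₊ ≤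
        Real.exp (-(n : ℝ) ^ ((1 : ℝ) / 32)) := by
  filter_upwards [AVGBM_num0, rng_sizes] with n h0 hr
  obtain ⟨hn1, -, h2, h3, -⟩ := h0
  intro B hB
  obtain ⟨-, hA, -⟩ := hr B hB
  set k := ⌈(n : ℝ) ^ ((1 : ℝ) / 32)⌉₊ with hk
  have hX : (n : ℝ) ^ ((1 : ℝ) / 32) ≤ k := Nat.le_ceil _
  have hX0 : (0 : ℝ) ≤ (n : ℝ) ^ ((1 : ℝ) / 32) := by positivity
  have he4 : (1 : ℝ) ≤ Real.exp 4 := Real.one_le_exp (by norm_num)
  have hk0 : (0 : ℝ) < k := by linarith
  have hk1 : 1 ≤ k := by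
    have : (0 : ℝ) < k := hk0
    exact_mod_cast this
  have hc := AVGBM_choose n k hk1
  have hn0 : (0 : ℝ) < n := by linarith
  have hA0 : (0 : ℝ) < Bᶜ.card := by linarith
  have hexp1 : Real.exp 1 < 2.7182818286 := Real.exp_one_lt_d9
  have hy : Real.exp 1 * n / k * (Real.exp 1 / Bᶜ.card) ≤ Real.exp (-4) := by
    have e1 : Real.exp 1 * n / k * (Real.exp 1 / Bᶜ.card) =
        (Real.exp 1 * Real.exp 1) * (n / Bᶜ.card) / k := by ring
    have e2 : (n : ℝ) / Bᶜ.card ≤ 100 / 99 := by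
      rw [div_le_div_iff₀ hA0 (by norm_num)]; linarith
    have e3 : Real.exp 1 * Real.exp 1 ≤ 7.4 := by
      have := Real.exp_pos 1
      nlinarith
    have e4 : (Real.exp 1 * Real.exp 1) * (n / Bᶜ.card) ≤ 8 := by
      have h5 : (0 : ℝ) ≤ n / Bᶜ.card := by positivity
      have h6 : 0 ≤ Real.exp 1 * Real.exp 1 := by positivity
      nlinarith
    rw [e1, Real.exp_neg, div_le_iff₀ hk0]
    have h7 : 8 ≤ (Real.exp 4)⁻¹ * k := by
      rw [inv_mul_eq_div, le_div_iff₀ (Real.exp_pos 4)]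
      linarith
    linarith
  calc (n : ℝ) ^ 2 * (n.choose k : ℝ) * (Real.exp 1 / Bᶜ.card) ^ k
      ≤ (n : ℝ) ^ 2 * (Real.exp 1 * n / k) ^ k * (Real.exp 1 / Bᶜ.card) ^ k := by
        apply mul_le_mul_of_nonneg_right _ (by positivity)
        exact mul_le_mul_of_nonneg_left hc (by positivity)
    _ = Real.exp (2 * Real.log n) * (Real.exp 1 * n / k * (Real.exp 1 / Bᶜ.card)) ^ k := by
        rw [AVGBM_sq hn1, mul_pow, mul_assoc]
    _ ≤ _ := AVGBM_pow hX hX0 (by positivity) hy h2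

open Classical in
/-- Blueprint 2.7, last line. -/
theorem avg_bm : ∀ᶠ n : ℕ in atTop, ∀ (B : Finset (Fin n)), Rng B → ∀ (QA QB : Sys n),
    IsFam Bᶜ QA → IsFam B QB →
    ∑ lam ∈ labs (EA B QA) B, ∑ mu ∈ (labs (EB B QB) Bᶜ).filter (fun mu => BMm mu),
      domR B QA QB lam mu ≤ Real.exp (-(n : ℝ) ^ ((1 : ℝ) / 32)) * cntX B QA QB := by
  filter_upwards [AVGBM_num0, AVGBM_num1, rng_sizes, wpr_bounds] with n h0 h1 hr hwp
  obtain ⟨hn1, hwn, -, -, -⟩ := h0
  intro B hB QA QB hQA hQB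
  obtain ⟨hB1, hA, -⟩ := hr B hB
  have hA1 : 1 ≤ Bᶜ.card := by
    by_contra h3
    have h4 : Bᶜ.card = 0 := by omega
    rw [h4] at hA
    simp only [Nat.cast_zero] at hA
    linarith
  have hwv : 0 ≤ wv n := by unfold wv; positivity
  set k := ⌈(n : ℝ) ^ ((1 : ℝ) / 32)⌉₊ with hk
  set Y := Real.exp (n * badn QA + 2 * wv n * B.card * (fG QA).card +
      2 * wv n * Bᶜ.card * (fG QB).card) with hY
  have hfix : ∀ lam ∈ labs (EA B QA) B,
      ∑ mu ∈ (labs (EB B QB) Bᶜ).filter (fun mu => BMm mu), domR B QA QB lam mu ≤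
        Y * (Real.exp (-(n : ℝ) ^ ((1 : ℝ) / 32)) * ((Bᶜ.card : ℝ) ^ (EB B QB).card *
          Real.exp (2 * wv n * Bᶜ.card * B.card))) := by
    intro lam hlam
    set g : Lb n → ℝ := fun mu =>
      Real.exp (wv n * ((∑ u ∈ Bᶜ, ∑ b ∈ B, Aub lam mu u b : ℕ) : ℝ)) with hg
    have hg0 : ∀ mu, 0 ≤ g mu := fun mu => (Real.exp_pos _).le
    have hL : ∀ mu ∈ labs (EB B QB) Bᶜ, ∀ e0 ∈ EB B QB, ∀ a' ∈ Bᶜ,
        g mu ≤ Real.exp 1 * g (Function.update mu e0 (some a')) := by
      intro mu hmu e0 he0 a' ha'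
      have h5 := AVGBM_lip hQA hQB hlam hmu e0 he0 a' ha'
      have h6 : ((∑ u ∈ Bᶜ, ∑ b ∈ B, Aub lam mu u b : ℕ) : ℝ) ≤
          ((∑ u ∈ Bᶜ, ∑ b ∈ B, Aub lam (Function.update mu e0 (some a')) u b : ℕ) : ℝ) +
            2 * n := by exact_mod_cast h5
      simp only [hg]
      rw [← Real.exp_add]
      apply Real.exp_le_exp.2
      nlinarith
    have h7 := AVGBM_union (EB B QB) Bᶜ g hg0 (Real.exp 1) (Real.exp_pos 1).le hA1 hL
    have h8 := avg_mu hQA hQB hlam (wv n) hwv hwn hA1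
    have h9 := h1 B hB
    calc ∑ mu ∈ (labs (EB B QB) Bᶜ).filter (fun mu => BMm mu), domR B QA QB lam mu
        ≤ ∑ mu ∈ (labs (EB B QB) Bᶜ).filter (fun mu => BMm mu), Y * g mu :=
          sum_le_sum (fun mu _ => AVGBM_domR_le B QA QB hQA (hwp B hB QA) lam mu)
      _ = Y * ∑ mu ∈ (labs (EB B QB) Bᶜ).filter (fun mu => BMm mu), g mu := by rw [mul_sum]
      _ ≤ Y * ((n : ℝ) ^ 2 * (n.choose k : ℝ) * (Real.exp 1 / Bᶜ.card) ^ k *
          ∑ mu ∈ labs (EB B QB) Bᶜ, g mu) := mul_le_mul_of_nonneg_left h7 (Real.exp_pos _).le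
      _ ≤ _ := by
          apply mul_le_mul_of_nonneg_left _ (Real.exp_pos _).le
          exact mul_le_mul h9 h8 (sum_nonneg (fun mu _ => hg0 mu)) (Real.exp_pos _).le
  refine (sum_le_sum hfix).trans (le_of_eq ?_)
  rw [sum_const, nsmul_eq_mul, card_labs]
  unfold cntX
  rw [hY]
  have e5 : Real.exp (n * badn QA + 2 * wv n * B.card * (fG QA).card +
      2 * wv n * Bᶜ.card * (fG QB).card + 2 * wv n * Bᶜ.card * B.card) =
      Real.exp (n * badn QA + 2 * wv n * B.card * (fG QA).card +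
      2 * wv n * Bᶜ.card * (fG QB).card) * Real.exp (2 * wv n * Bᶜ.card * B.card) := by
    rw [← Real.exp_add]
  rw [e5]
  push_cast
  ring

/-- Blueprint 2.6, last line: numerical part. -/
theorem bm_num : ∀ᶠ n : ℕ in atTop, ∀ (B : Finset (Fin n)), Rng B →
    (n : ℝ) ^ 2 * (n.choose ⌈(n : ℝ) ^ ((1 : ℝ) / 32)⌉₊ : ℝ) *
      (ccv B / B.card) ^ ⌈(n : ℝ) ^ ((1 : ℝ) / 32)⌉₊ ≤ Real.exp (-(n : ℝ) ^ ((1 : ℝ) / 32)) := by
  filter_upwards [AVGBM_num0, rng_sizes, eventually_ge_atTop 3] with n h0 hr hn3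
  obtain ⟨hn1, -, h2, h3, h4⟩ := h0
  intro B hB
  obtain ⟨hB1, -, -, hBn, -⟩ := hr B hB
  have hn0 : (0 : ℝ) < n := by linarith
  have hβ : (0 : ℝ) < B.card := by exact_mod_cast hB1
  have hlog : 0 ≤ Real.log n := Real.log_nonneg hn1
  set k := ⌈(n : ℝ) ^ ((1 : ℝ) / 32)⌉₊ with hk
  have hX : (n : ℝ) ^ ((1 : ℝ) / 32) ≤ k := Nat.le_ceil _
  have hX0 : (0 : ℝ) ≤ (n : ℝ) ^ ((1 : ℝ) / 32) := by positivity
  have he4 : (1 : ℝ) ≤ Real.exp 4 := Real.one_le_exp (by norm_num)
  have hk0 : (0 : ℝ) < k := by linarith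
  have hk1 : 1 ≤ k := by
    have : (0 : ℝ) < k := hk0
    exact_mod_cast this
  have hc := AVGBM_choose n k hk1
  have hexp1 : Real.exp 1 < 2.7182818286 := Real.exp_one_lt_d9
  have hexp0 := Real.exp_pos 1
  -- bound for ccv
  have hcc : ccv B ≤ Real.exp 1 * (n : ℝ) ^ ((11 : ℝ) / 1000) := by
    unfold ccv
    apply mul_le_mul_of_nonneg_left _ hexp0.le
    have a1 : (1 + Real.exp 1 / B.card) ≤ Real.exp (Real.exp 1 / B.card) := by
      have := Real.add_one_le_exp (Real.exp 1 / B.card)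
      linarith
    have a2 : (1 + Real.exp 1 / B.card) ^ ⌊(n : ℝ) / 500⌋₊ ≤
        Real.exp (⌊(n : ℝ) / 500⌋₊ * (Real.exp 1 / B.card)) := by
      rw [Real.exp_nat_mul]
      exact pow_le_pow_left₀ (by positivity) a1 _
    refine a2.trans ?_
    rw [Real.rpow_def_of_pos hn0]
    apply Real.exp_le_exp.2
    have a3 : (⌊(n : ℝ) / 500⌋₊ : ℝ) ≤ n / 500 := Nat.floor_le (by positivity)
    have a4 : (n : ℝ) / B.card ≤ 20002 / 10000 * Real.log n := by
      rw [div_le_iff₀ hβ]; linarith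
    calc (⌊(n : ℝ) / 500⌋₊ : ℝ) * (Real.exp 1 / B.card) ≤ n / 500 * (Real.exp 1 / B.card) :=
          mul_le_mul_of_nonneg_right a3 (by positivity)
      _ = Real.exp 1 / 500 * (n / B.card) := by ring
      _ ≤ Real.exp 1 / 500 * (20002 / 10000 * Real.log n) :=
          mul_le_mul_of_nonneg_left a4 (by positivity)
      _ ≤ Real.log n * (11 / 1000) := by nlinarith
  have hcc0 : 0 ≤ ccv B := by unfold ccv; positivity
  have hy : Real.exp 1 * n / k * (ccv B / B.card) ≤ Real.exp (-4) := by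
    have a4 : (n : ℝ) / B.card ≤ 3 * Real.log n := by
      rw [div_le_iff₀ hβ]
      have : (B.card : ℝ) * (20002 / 10000 * Real.log n) ≤ 3 * Real.log n * B.card := by
        nlinarith [mul_nonneg hβ.le hlog]
      linarith
    have e1 : Real.exp 1 * n / k * (ccv B / B.card) = Real.exp 1 * ccv B * (n / B.card) / k := by
      ring
    rw [e1, Real.exp_neg, div_le_iff₀ hk0, inv_mul_eq_div, le_div_iff₀ (Real.exp_pos 4)]
    have a5 : Real.exp 1 * ccv B * (n / B.card) ≤
        Real.exp 1 * (Real.exp 1 * (n : ℝ) ^ ((11 : ℝ) / 1000)) * (3 * Real.log n) := by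
      apply mul_le_mul _ a4 (by positivity) (by positivity)
      exact mul_le_mul_of_nonneg_left hcc hexp0.le
    have e3 : Real.exp 1 * Real.exp 1 * 3 ≤ 23 := by nlinarith
    have a6 : Real.exp 1 * (Real.exp 1 * (n : ℝ) ^ ((11 : ℝ) / 1000)) * (3 * Real.log n) ≤
        23 * Real.log n * (n : ℝ) ^ ((11 : ℝ) / 1000) := by
      have a7 : 0 ≤ (n : ℝ) ^ ((11 : ℝ) / 1000) * Real.log n := by positivity
      have := mul_le_mul_of_nonneg_right e3 a7
      linarith
    have a8 := mul_le_mul_of_nonneg_right (a5.trans a6) (Real.exp_pos 4).le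
    linarith
  calc (n : ℝ) ^ 2 * (n.choose k : ℝ) * (ccv B / B.card) ^ k
      ≤ (n : ℝ) ^ 2 * (Real.exp 1 * n / k) ^ k * (ccv B / B.card) ^ k := by
        apply mul_le_mul_of_nonneg_right _ (by positivity)
        exact mul_le_mul_of_nonneg_left hc (by positivity)
    _ = Real.exp (2 * Real.log n) * (Real.exp 1 * n / k * (ccv B / B.card)) ^ k := by
        rw [AVGBM_sq hn1, mul_pow, mul_assoc]
    _ ≤ _ := AVGBM_pow hX hX0 (by positivity) hy h2

end PSys
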