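import Mathlib

/-! Module SF (blueprint 3.2): static forest lemma. -/

open Finset

namespace PSys

/-- closed sets of nodes -/
def SF_Cl {N : Type*} (par : N → Option N) (R F : Finset N) : Prop :=
  ∀ x ∈ F, x ∉ R ∧ ∃ y, par x = some y ∧ (y ∈ F ∨ y ∈ R)

open Classical in
theorem SF_empty {N : Type*} (Nd : Finset N) (par : N → Option N) (rk : N → ℕ)
    (hrk : ∀ x ∈ Nd, ∀ y, par x = some y → rk y < rk x) (R : Finset N)
    (hCh : ∀ x ∈ Nd, x ∉ R → ∀ y, par x = some y → y ∉ R) (F : Finset N) (hF : F ⊆ Nd)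
    (h : ∀ x ∈ F, x ∉ R ∧ ∃ y, par x = some y ∧ (y ∈ F ∨ y ∈ R)) : F = ∅ := by
  by_contra hne
  obtain ⟨x, hx, hmin⟩ := Finset.exists_min_image F rk (Finset.nonempty_iff_ne_empty.2 hne)
  obtain ⟨h1, y, h2, h3⟩ := h x hx
  rcases h3 with h3 | h3
  · have h4 := hmin y h3
    have h5 := hrk x (hF hx) y h2
    omega
  · exact hCh x (hF hx) h1 y h2 h3

open Classical in
theorem SF_aux {N : Type*} (par : N → Option N) (rk : N → ℕ) (c : ℕ)
    (r θ : ℝ) (hr : 0 ≤ r) (hθ : 1 ≤ θ) (h : (1 + r * θ) ^ c ≤ θ) (k : ℕ) :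
    ∀ (Nd : Finset N), Nd.card ≤ k → (∀ x ∈ Nd, ∀ y, par x = some y → rk y < rk x) →
    ∀ (R : Finset N), (∀ y, y ∈ Nd ∨ y ∈ R → (Nd.filter (fun x => par x = some y)).card ≤ c) →
    ∑ F ∈ Nd.powerset.filter (fun F => SF_Cl par R F),
      r ^ F.card ≤ θ ^ R.card := by
  induction k with
  | zero =>
    intro Nd hk hrk R hc
    have h0 : Nd = ∅ := Finset.card_eq_zero.1 (Nat.le_zero.1 hk)
    subst h0
    refine le_trans (b := 1) ?_ (one_le_pow₀ hθ)
    refine le_trans (Finset.sum_le_sum_of_subset_of_nonneg (Finset.filter_subset _ _)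
      (fun F _ _ => pow_nonneg hr _)) ?_
    simp
  | succ k ih =>
    intro Nd hk hrk R hc
    obtain ⟨Ch, hChdef⟩ : ∃ Ch : Finset N,
        Ch = Nd.filter (fun x => x ∉ R ∧ ∃ y, par x = some y ∧ y ∈ R) := ⟨_, rfl⟩
    have hmemCh : ∀ x, x ∈ Ch ↔ x ∈ Nd ∧ x ∉ R ∧ ∃ y, par x = some y ∧ y ∈ R := by
      intro x
      rw [hChdef, Finset.mem_filter]
    by_cases hCh : Ch = ∅
    · -- only the empty set is closed
      refine le_trans (b := 1) ?_ (one_le_pow₀ hθ)
      refine le_trans (Finset.sum_le_sum_of_subset_of_nonneg (t := {∅}) ?_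
        (fun F _ _ => pow_nonneg hr _)) (by simp)
      intro F hF
      rw [Finset.mem_filter, Finset.mem_powerset] at hF
      rw [Finset.mem_singleton]
      refine SF_empty Nd par rk hrk R ?_ F hF.1 hF.2
      intro x hx hxR y hy hyR
      have : x ∈ Ch := (hmemCh x).2 ⟨hx, hxR, y, hy, hyR⟩
      rw [hCh] at this
      exact absurd this (Finset.notMem_empty x)
    · obtain ⟨Nd', hNd'def⟩ : ∃ Nd' : Finset N, Nd' = (Nd \ Ch) \ R := ⟨_, rfl⟩
      have hNd'sub : Nd' ⊆ Nd := by
        rw [hNd'def]
        exact fun x hx => (Finset.mem_sdiff.1 (Finset.mem_sdiff.1 hx).1).1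
      have hChsub : Ch ⊆ Nd := fun x hx => ((hmemCh x).1 hx).1
      have hcard : Nd'.card ≤ k := by
        obtain ⟨x, hx⟩ := Finset.nonempty_iff_ne_empty.2 hCh
        have h1 : Nd'.card < Nd.card := by
          refine Finset.card_lt_card ⟨hNd'sub, fun hsub => ?_⟩
          have h2 := hsub (hChsub hx)
          rw [hNd'def] at h2
          exact (Finset.mem_sdiff.1 (Finset.mem_sdiff.1 h2).1).2 hx
        omega
      have hsum : ∀ S ∈ Ch.powerset,
          ∑ F ∈ (Nd.powerset.filter (fun F => SF_Cl par R F)).filter (fun F => F ∩ Ch = S),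
            r ^ F.card ≤ (r * θ) ^ S.card := by
        intro S hS
        rw [Finset.mem_powerset] at hS
        have hih := ih Nd' hcard (fun x hx => hrk x (hNd'sub hx)) S (by
          intro y hy
          refine le_trans (Finset.card_le_card (Finset.filter_subset_filter _ hNd'sub)) ?_
          refine hc y (Or.inl ?_)
          rcases hy with hy | hy
          · exact hNd'sub hy
          · exact hChsub (hS hy))
        rw [mul_pow]
        refine le_trans ?_ (mul_le_mul_of_nonneg_left hih (pow_nonneg hr _))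
        have hinj : Set.InjOn (fun F : Finset N => F \ Ch)
            ((Nd.powerset.filter (fun F => SF_Cl par R F)).filter (fun F => F ∩ Ch = S)) := by
          intro F hF F' hF' hFF
          rw [Finset.mem_coe, Finset.mem_filter] at hF hF'
          have h1 : F \ Ch = F' \ Ch := hFF
          rw [← Finset.sdiff_union_inter F Ch, ← Finset.sdiff_union_inter F' Ch, h1, hF.2, hF'.2]
        rw [Finset.mul_sum]
        calc ∑ F ∈ (Nd.powerset.filter (fun F => SF_Cl par R F)).filter (fun F => F ∩ Ch = S), r ^ F.card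
            = ∑ F ∈ (Nd.powerset.filter (fun F => SF_Cl par R F)).filter (fun F => F ∩ Ch = S),
              r ^ S.card * r ^ (F \ Ch).card := by
              refine Finset.sum_congr rfl fun F hF => ?_
              rw [Finset.mem_filter] at hF
              rw [← pow_add, ← hF.2, Finset.card_inter_add_card_sdiff]
          _ = ∑ F' ∈ ((Nd.powerset.filter (fun F => SF_Cl par R F)).filter (fun F => F ∩ Ch = S)).image
              (fun F => F \ Ch), r ^ S.card * r ^ F'.card := by
              rw [Finset.sum_image hinj]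
          _ ≤ _ := by
              refine Finset.sum_le_sum_of_subset_of_nonneg ?_
                (fun F _ _ => mul_nonneg (pow_nonneg hr _) (pow_nonneg hr _))
              intro F' hF'
              rw [Finset.mem_image] at hF'
              obtain ⟨F, hF, rfl⟩ := hF'
              rw [Finset.mem_filter, Finset.mem_filter, Finset.mem_powerset] at hF
              obtain ⟨⟨hF1, hF2⟩, hF3⟩ := hF
              rw [Finset.mem_filter, Finset.mem_powerset]
              constructor
              · intro x hx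
                rw [Finset.mem_sdiff] at hx
                rw [hNd'def, Finset.mem_sdiff, Finset.mem_sdiff]
                exact ⟨⟨hF1 hx.1, hx.2⟩, (hF2 x hx.1).1⟩
              · intro x hx
                rw [Finset.mem_sdiff] at hx
                obtain ⟨h1, y, h2, h3⟩ := hF2 x hx.1
                refine ⟨fun hxS => hx.2 (hS hxS), y, h2, ?_⟩
                have hyR : y ∉ R := fun hyR =>
                  hx.2 ((hmemCh x).2 ⟨hF1 hx.1, h1, y, h2, hyR⟩)
                have hyF : y ∈ F := h3.resolve_right hyR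
                by_cases hyC : y ∈ Ch
                · right
                  rw [← hF3, Finset.mem_inter]
                  exact ⟨hyF, hyC⟩
                · left
                  rw [Finset.mem_sdiff]
                  exact ⟨hyF, hyC⟩
      have hChcard : Ch.card ≤ c * R.card := by
        have h1 : Ch ⊆ R.biUnion (fun y => Nd.filter (fun x => par x = some y)) := by
          intro x hx
          obtain ⟨h1, _, y, h2, h3⟩ := (hmemCh x).1 hx
          rw [Finset.mem_biUnion]
          exact ⟨y, h3, Finset.mem_filter.2 ⟨h1, h2⟩⟩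
        refine le_trans (Finset.card_le_card h1) (le_trans Finset.card_biUnion_le ?_)
        refine le_trans (Finset.sum_le_card_nsmul R _ c (fun y hy => hc y (Or.inr hy))) ?_
        rw [smul_eq_mul, mul_comm]
      have hrθ : 0 ≤ r * θ := mul_nonneg hr (le_trans zero_le_one hθ)
      rw [← Finset.sum_fiberwise_of_maps_to (t := Ch.powerset) (g := fun F => F ∩ Ch)
        (fun F _ => Finset.mem_powerset.2 Finset.inter_subset_right)]
      refine le_trans (Finset.sum_le_sum hsum) ?_
      calc ∑ S ∈ Ch.powerset, (r * θ) ^ S.card = (1 + r * θ) ^ Ch.card := by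
            have h1 := Finset.sum_pow_mul_eq_add_pow (r * θ) 1 Ch
            simp only [one_pow, mul_one] at h1
            rw [h1, add_comm]
        _ ≤ (1 + r * θ) ^ (c * R.card) :=
            pow_le_pow_right₀ (by linarith) hChcard
        _ = ((1 + r * θ) ^ c) ^ R.card := pow_mul _ _ _
        _ ≤ θ ^ R.card := pow_le_pow_left₀ (pow_nonneg (by linarith) _) h _

open Classical in
/-- Blueprint 3.2. -/
theorem SF {N : Type*} (Nd : Finset N) (par : N → Option N) (rk : N → ℕ)
    (hrk : ∀ x ∈ Nd, ∀ y, par x = some y → rk y < rk x) (c : ℕ) (R : Finset N)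
    (hc : ∀ y, y ∈ Nd ∨ y ∈ R → (Nd.filter (fun x => par x = some y)).card ≤ c)
    (r θ : ℝ) (hr : 0 ≤ r) (hθ : 1 ≤ θ) (h : (1 + r * θ) ^ c ≤ θ) :
    ∑ F ∈ Nd.powerset.filter (fun F => ∀ x ∈ F, x ∉ R ∧ ∃ y, par x = some y ∧ (y ∈ F ∨ y ∈ R)),
      r ^ F.card ≤ θ ^ R.card := by
  have h1 := SF_aux par rk c r θ hr hθ h Nd.card Nd le_rfl hrk R hc
  exact le_of_eq_of_le (Finset.sum_congr
    (Finset.filter_congr_decidable Nd.powerset (SF_Cl par R) _) fun _ _ => rfl) h1

end PSys
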