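import Mathlib
import Pool.Agent.PSys.Spec
import Pool.Agent.PSys.SF

/-! Module FG (blueprint 3.3): families with a given graph of direct pairs. -/

open Finset

namespace PSys

/-- partial parent functions -/
abbrev Pf (n : ℕ) := Fin n → Fin n → Option (Fin n)

open Classical in
/-- the admissible parent functions: defined on `W × U`, `p x v` is a `G`-neighbour of `v`, and no
`v ∉ W` has `p x v = y`, `p y v = x` -/
noncomputable def pset {n : ℕ} (U W : Finset (Fin n)) (G : Finset (Sym2 (Fin n))) :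
    Finset (Pf n) :=
  univ.filter (fun p => (∀ x v y, p x v = some y → x ∈ W ∧ v ∈ U ∧ s(v, y) ∈ G) ∧
    ∀ x y v, x ∈ W → y ∈ W → x ≠ y → v ∉ W → ¬ (p x v = some y ∧ p y v = some x))

open Classical in
/-- number of children `v ∉ W` of `y` in the tree from `x` -/
noncomputable def cx {n : ℕ} (W : Finset (Fin n)) (p : Pf n) (x y : Fin n) : ℕ :=
  (univ.filter (fun v => v ∉ W ∧ p x v = some y)).card

open Classical in
/-- number of candidates for the paths with both hops in `W` -/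
noncomputable def cand {n : ℕ} (W : Finset (Fin n)) (p : Pf n) : ℕ :=
  ∑ x ∈ W, ∑ y ∈ W.filter (fun y => x < y), cx W p x y * cx W p y x

open Classical in
/-- number of defined values -/
noncomputable def psz {n : ℕ} (p : Pf n) : ℕ :=
  (univ.filter (fun q : Fin n × Fin n => p q.1 q.2 ≠ none)).card

/-- the sum over the parent functions -/
noncomputable def psumR {n : ℕ} (U W : Finset (Fin n)) (G : Finset (Sym2 (Fin n)))
    (r t θ : ℝ) : ℝ :=
  ∑ p ∈ pset U W G, (r * t ^ 2) ^ (psz p) * (1 + r * θ) ^ (cand W p)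

/-! ### the encoding -/

section enc

variable {n : ℕ} {U W : Finset (Fin n)} {Q Q' : Sys n}

/-- nondirect pair carrying a path -/
def FG_nd (Q : Sys n) (u v : Fin n) : Prop := u ≠ v ∧ Q u v ≠ [] ∧ ¬ Dir Q u v

theorem FG_nd_symm (hQ : IsFam U Q) {u v : Fin n} (h : FG_nd Q u v) : FG_nd Q v u :=
  ⟨h.1.symm, hQ.ne_symm.2 h.2.1, fun hd => h.2.2 (hQ.dir_symm.1 hd)⟩

theorem FG_len (hQ : IsFam U Q) {u v : Fin n} (h : FG_nd Q u v) : 3 ≤ (Q u v).length := by
  have h1 := hQ.two_le h.2.1 h.1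
  have h2 : (Q u v).length ≠ 2 := fun h3 => h.2.2 ((hQ.dir_iff_length h.2.1 h.1).2 h3)
  omega

open Classical in
/-- the recorded parents -/
noncomputable def FG_p (W : Finset (Fin n)) (Q : Sys n) : Pf n := fun x v =>
  if x ∈ W ∧ FG_nd Q x v ∧ (v ∉ W ∨ x < v) then some (hop Q v x) else none

theorem FG_p_some {x v y : Fin n} :
    FG_p W Q x v = some y ↔ (x ∈ W ∧ FG_nd Q x v ∧ (v ∉ W ∨ x < v)) ∧ hop Q v x = y := by
  classical
  unfold FG_p
  split_ifs with h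
  · simp [h]
  · simp [h]

theorem FG_p_ne {x v : Fin n} :
    FG_p W Q x v ≠ none ↔ (x ∈ W ∧ FG_nd Q x v ∧ (v ∉ W ∨ x < v)) := by
  classical
  unfold FG_p
  split_ifs with h
  · simp [h]
  · simp [h]

/-- types of the nondirect pairs not touching `W` -/
def FG_tc (W : Finset (Fin n)) (Q : Sys n) (u v : Fin n) : Prop :=
  FG_nd Q u v ∧ u ∉ W ∧ v ∉ W ∧ (Q u v).length = 3

def FG_th (W : Finset (Fin n)) (Q : Sys n) (u v : Fin n) : Prop :=
  FG_nd Q u v ∧ u ∉ W ∧ v ∉ W ∧ (Q u v).length ≠ 3 ∧ hop Q u v ∈ W ∧ hop Q v u ∈ W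

def FG_tl (W : Finset (Fin n)) (Q : Sys n) (u v : Fin n) : Prop :=
  FG_nd Q u v ∧ u ∉ W ∧ v ∉ W ∧ (Q u v).length ≠ 3 ∧ ¬ (hop Q u v ∈ W ∧ hop Q v u ∈ W)

theorem FG_len_symm (hQ : IsFam U Q) (u v : Fin n) : (Q v u).length = (Q u v).length := by
  rw [hQ.symm u v, List.length_reverse]

theorem FG_tc_symm (hQ : IsFam U Q) {u v : Fin n} (h : FG_tc W Q u v) : FG_tc W Q v u :=
  ⟨FG_nd_symm hQ h.1, h.2.2.1, h.2.1, by rw [FG_len_symm hQ]; exact h.2.2.2⟩

theorem FG_th_symm (hQ : IsFam U Q) {u v : Fin n} (h : FG_th W Q u v) : FG_th W Q v u :=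
  ⟨FG_nd_symm hQ h.1, h.2.2.1, h.2.1, by rw [FG_len_symm hQ]; exact h.2.2.2.1, h.2.2.2.2.2,
    h.2.2.2.2.1⟩

theorem FG_tl_symm (hQ : IsFam U Q) {u v : Fin n} (h : FG_tl W Q u v) : FG_tl W Q v u :=
  ⟨FG_nd_symm hQ h.1, h.2.2.1, h.2.1, by rw [FG_len_symm hQ]; exact h.2.2.2.1,
    fun h2 => h.2.2.2.2 ⟨h2.2, h2.1⟩⟩

open Classical in
noncomputable def FG_T (Q : Sys n) : Finset (Fin n × Fin n) :=
  univ.filter (fun q => q.1 < q.2 ∧ FG_nd Q q.1 q.2)

open Classical in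
noncomputable def FG_Tc (W : Finset (Fin n)) (Q : Sys n) : Finset (Fin n × Fin n) :=
  univ.filter (fun q => q.1 < q.2 ∧ FG_tc W Q q.1 q.2)

open Classical in
noncomputable def FG_Th (W : Finset (Fin n)) (Q : Sys n) : Finset (Fin n × Fin n) :=
  univ.filter (fun q => q.1 < q.2 ∧ FG_th W Q q.1 q.2)

open Classical in
noncomputable def FG_Tl (W : Finset (Fin n)) (Q : Sys n) : Finset (Fin n × Fin n) :=
  univ.filter (fun q => q.1 < q.2 ∧ FG_tl W Q q.1 q.2)

open Classical in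
noncomputable def FG_Tw (W : Finset (Fin n)) (Q : Sys n) : Finset (Fin n × Fin n) :=
  univ.filter (fun q => q.1 < q.2 ∧ FG_nd Q q.1 q.2 ∧ (q.1 ∈ W ∨ q.2 ∈ W))

/-- partition of the nondirect pairs -/
theorem FG_part (W : Finset (Fin n)) (Q : Sys n) : (FG_T Q).card =
    (FG_Tw W Q).card + (FG_Tc W Q).card + (FG_Th W Q).card + (FG_Tl W Q).card := by
  classical
  have e1 : (FG_T Q).card = ((FG_T Q).filter (fun q => q.1 ∈ W ∨ q.2 ∈ W)).card +
      ((FG_T Q).filter (fun q => ¬ (q.1 ∈ W ∨ q.2 ∈ W))).card :=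
    (card_filter_add_card_filter_not _).symm
  have e2 : ((FG_T Q).filter (fun q => ¬ (q.1 ∈ W ∨ q.2 ∈ W))).card =
      (((FG_T Q).filter (fun q => ¬ (q.1 ∈ W ∨ q.2 ∈ W))).filter
        (fun q => (Q q.1 q.2).length = 3)).card +
      (((FG_T Q).filter (fun q => ¬ (q.1 ∈ W ∨ q.2 ∈ W))).filter
        (fun q => ¬ (Q q.1 q.2).length = 3)).card :=
    (card_filter_add_card_filter_not _).symm
  have e3 : (((FG_T Q).filter (fun q => ¬ (q.1 ∈ W ∨ q.2 ∈ W))).filter
        (fun q => ¬ (Q q.1 q.2).length = 3)).card =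
      ((((FG_T Q).filter (fun q => ¬ (q.1 ∈ W ∨ q.2 ∈ W))).filter
        (fun q => ¬ (Q q.1 q.2).length = 3)).filter
          (fun q => hop Q q.1 q.2 ∈ W ∧ hop Q q.2 q.1 ∈ W)).card +
      ((((FG_T Q).filter (fun q => ¬ (q.1 ∈ W ∨ q.2 ∈ W))).filter
        (fun q => ¬ (Q q.1 q.2).length = 3)).filter
          (fun q => ¬ (hop Q q.1 q.2 ∈ W ∧ hop Q q.2 q.1 ∈ W))).card :=
    (card_filter_add_card_filter_not _).symm
  have f1 : (FG_T Q).filter (fun q => q.1 ∈ W ∨ q.2 ∈ W) = FG_Tw W Q := by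
    ext q
    simp only [FG_T, FG_Tw, mem_filter, mem_univ, true_and]
    tauto
  have f2 : ((FG_T Q).filter (fun q => ¬ (q.1 ∈ W ∨ q.2 ∈ W))).filter
        (fun q => (Q q.1 q.2).length = 3) = FG_Tc W Q := by
    ext q
    simp only [FG_T, FG_Tc, FG_tc, mem_filter, mem_univ, true_and]
    tauto
  have f3 : (((FG_T Q).filter (fun q => ¬ (q.1 ∈ W ∨ q.2 ∈ W))).filter
        (fun q => ¬ (Q q.1 q.2).length = 3)).filter
          (fun q => hop Q q.1 q.2 ∈ W ∧ hop Q q.2 q.1 ∈ W) = FG_Th W Q := by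
    ext q
    simp only [FG_T, FG_Th, FG_th, mem_filter, mem_univ, true_and]
    tauto
  have f4 : (((FG_T Q).filter (fun q => ¬ (q.1 ∈ W ∨ q.2 ∈ W))).filter
        (fun q => ¬ (Q q.1 q.2).length = 3)).filter
          (fun q => ¬ (hop Q q.1 q.2 ∈ W ∧ hop Q q.2 q.1 ∈ W)) = FG_Tl W Q := by
    ext q
    simp only [FG_T, FG_Tl, FG_tl, mem_filter, mem_univ, true_and]
    tauto
  rw [f1] at e1
  rw [f2] at e2
  rw [f3, f4] at e3
  omega

theorem FG_ordered {q q' : Fin n × Fin n} (h : q.1 < q.2) (h' : q'.1 < q'.2)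
    (he : s(q.1, q.2) = s(q'.1, q'.2)) : q = q' := by
  rcases Sym2.eq_iff.1 he with ⟨h1, h2⟩ | ⟨h1, h2⟩
  · exact Prod.ext h1 h2
  · rw [h1, h2] at h
    exact absurd h (not_lt.2 h'.le)

/-- the nondirect pairs as unordered pairs -/
theorem FG_card (hQ : IsFam U Q) : (fD Q \ fG Q).card = (FG_T Q).card := by
  classical
  have h1 : fD Q \ fG Q = (FG_T Q).image (fun q => s(q.1, q.2)) := by
    ext e
    induction e with
    | _ u v =>
      rw [mem_sdiff, mem_fD hQ, mem_fG hQ, mem_image]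
      constructor
      · rintro ⟨⟨h1, h2⟩, h3⟩
        rcases lt_or_gt_of_ne h1 with h | h
        · exact ⟨(u, v), mem_filter.2 ⟨mem_univ _, h, h1, h2, h3⟩, rfl⟩
        · exact ⟨(v, u), mem_filter.2 ⟨mem_univ _, h, FG_nd_symm hQ ⟨h1, h2, h3⟩⟩, Sym2.eq_swap⟩
      · rintro ⟨⟨a, b⟩, hab, he⟩
        have h2 := (mem_filter.1 hab).2.2
        rcases Sym2.eq_iff.1 he with ⟨rfl, rfl⟩ | ⟨rfl, rfl⟩
        · exact ⟨⟨h2.1, h2.2.1⟩, h2.2.2⟩
        · have h3 := FG_nd_symm hQ h2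
          exact ⟨⟨h3.1, h3.2.1⟩, h3.2.2⟩
  rw [h1, card_image_of_injOn]
  intro q hq q' hq' he
  exact FG_ordered (mem_filter.1 (mem_coe.1 hq)).2.1 (mem_filter.1 (mem_coe.1 hq')).2.1 he

/-- number of recorded parents -/
theorem FG_psz (hQ : IsFam U Q) : psz (FG_p W Q) = (FG_Tw W Q).card := by
  classical
  symm
  unfold psz
  refine card_nbij' (fun q => if q.1 ∈ W then (q.1, q.2) else (q.2, q.1))
    (fun q => if q.1 < q.2 then (q.1, q.2) else (q.2, q.1)) ?_ ?_ ?_ ?_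
  · rintro ⟨a, b⟩ hq
    obtain ⟨h1, h2, h3⟩ := (mem_filter.1 (mem_coe.1 hq)).2
    simp only at h1 h2 h3
    refine mem_coe.2 (mem_filter.2 ⟨mem_univ _, ?_⟩)
    by_cases ha : a ∈ W
    · simp only [ha, if_true]
      exact FG_p_ne.2 ⟨ha, h2, Or.inr h1⟩
    · simp only [ha, if_false]
      rcases h3 with h3 | h3
      · exact absurd h3 ha
      · exact FG_p_ne.2 ⟨h3, FG_nd_symm hQ h2, Or.inl ha⟩
  · rintro ⟨a, b⟩ hq
    have h1 := FG_p_ne.1 (mem_filter.1 (mem_coe.1 hq)).2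
    simp only at h1
    obtain ⟨h1, h2, h3⟩ := h1
    refine mem_coe.2 (mem_filter.2 ⟨mem_univ _, ?_⟩)
    by_cases hab : a < b
    · simp only [hab, if_true]
      exact ⟨trivial, h2, Or.inl h1⟩
    · simp only [hab, if_false]
      refine ⟨lt_of_le_of_ne (not_lt.1 hab) h2.1.symm, FG_nd_symm hQ h2, Or.inr h1⟩
  · rintro ⟨a, b⟩ hq
    obtain ⟨h1, h2, h3⟩ := (mem_filter.1 (mem_coe.1 hq)).2
    simp only at h1 h2 h3
    by_cases ha : a ∈ W
    · simp [ha, h1]
    · simp [ha, not_lt.2 h1.le]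
  · rintro ⟨a, b⟩ hq
    have h1 := FG_p_ne.1 (mem_filter.1 (mem_coe.1 hq)).2
    simp only at h1
    obtain ⟨h1, h2, h3⟩ := h1
    by_cases hab : a < b
    · simp [hab, h1]
    · have h4 : b ∉ W := by
        rcases h3 with h3 | h3
        · exact h3
        · exact absurd h3 hab
      simp [hab, h4]

/-- degrees in `W` -/
theorem FG_deg (hQ : IsFam U Q) : ∑ x ∈ W, dgr (fD Q \ fG Q) x ≤ 2 * psz (FG_p W Q) := by
  classical
  have h1 : ∑ x ∈ W, dgr (fD Q \ fG Q) x =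
      (W.sigma (fun x => univ.filter (fun y => s(x, y) ∈ fD Q \ fG Q))).card := by
    rw [card_sigma]
    rfl
  rw [h1]
  have hmem : ∀ q ∈ W.sigma (fun x => univ.filter (fun y => s(x, y) ∈ fD Q \ fG Q)),
      q.1 ∈ W ∧ FG_nd Q q.1 q.2 := by
    intro q hq
    rw [mem_sigma, mem_filter] at hq
    obtain ⟨h2, _, h3⟩ := hq
    rw [mem_sdiff, mem_fD hQ, mem_fG hQ] at h3
    exact ⟨h2, h3.1.1, h3.1.2, h3.2⟩
  refine (card_le_mul_card_image (f := fun q : (_ : Fin n) × Fin n =>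
    if q.2 ∉ W ∨ q.1 < q.2 then (q.1, q.2) else (q.2, q.1)) _ 2 ?_).trans
    (Nat.mul_le_mul_left 2 (card_le_card ?_))
  · rintro ⟨a, b⟩ _
    refine le_trans (card_le_card (t := {⟨a, b⟩, ⟨b, a⟩}) ?_) card_le_two
    rintro ⟨c, d⟩ hq
    rw [mem_filter] at hq
    have h2 := hq.2
    simp only at h2
    rw [mem_insert, mem_singleton]
    split_ifs at h2
    · left
      simp only [Prod.mk.injEq] at h2
      rw [h2.1, h2.2]
    · right
      simp only [Prod.mk.injEq] at h2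
      rw [h2.1, h2.2]
  · intro q hq
    obtain ⟨⟨a, b⟩, hab, rfl⟩ := mem_image.1 hq
    obtain ⟨h2, h3⟩ := hmem _ hab
    simp only at h2 h3
    rw [mem_filter]
    refine ⟨mem_univ _, ?_⟩
    simp only
    split_ifs with h4
    · exact FG_p_ne.2 ⟨h2, h3, h4⟩
    · push Not at h4
      exact FG_p_ne.2 ⟨h4.1, FG_nd_symm hQ h3, Or.inr (lt_of_le_of_ne h4.2 h3.1.symm)⟩

/-- the recorded parents are admissible -/
theorem FG_p_mem (hQ : IsFam U Q) : FG_p W Q ∈ pset U W (fG Q) := by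
  classical
  unfold pset
  rw [mem_filter]
  refine ⟨mem_univ _, ?_, ?_⟩
  · intro x v y h
    obtain ⟨⟨h1, h2, h3⟩, h4⟩ := FG_p_some.1 h
    refine ⟨h1, hQ.right_mem h2.2.1, ?_⟩
    rw [mem_fG hQ, ← h4]
    exact hQ.hop_dir (hQ.ne_symm.2 h2.2.1) h2.1.symm
  · rintro x y v _ _ _ _ ⟨h1, h2⟩
    obtain ⟨⟨_, h3, _⟩, h4⟩ := FG_p_some.1 h1
    obtain ⟨⟨_, h5, _⟩, _⟩ := FG_p_some.1 h2
    apply h5.2.2
    rw [hQ.dir_symm, ← h4]
    exact hQ.hop_dir (hQ.ne_symm.2 h3.2.1) h3.1.symm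

/-- determinism of the paths touching `W`, one direction -/
theorem FG_det1 (hQ : IsFam U Q) (hQ' : IsFam U Q') (hW : W ⊆ U) (hG : fG Q = fG Q')
    (hp : FG_p W Q = FG_p W Q') : ∀ (k : ℕ) (x v : Fin n), x ∈ W → (Q x v).length = k →
      Q x v ≠ [] → Q' x v = Q x v := by
  intro k
  induction k using Nat.strong_induction_on with
  | _ k ih =>
    intro x v hx hk hne
    by_cases hxv : x = v
    · subst hxv
      rw [hQ.self x (hW hx), hQ'.self x (hW hx)]
    · by_cases hd : Dir Q x v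
      · have h1 : s(x, v) ∈ fG Q' := by
          rw [← hG, mem_fG hQ]
          exact hd
        rw [mem_fG hQ'] at h1
        rw [h1.2, hd.2]
      · have hnd : FG_nd Q x v := ⟨hxv, hne, hd⟩
        -- the general step
        have step : ∀ a b : Fin n, a ∈ W → FG_nd Q a b → (b ∉ W ∨ a < b) →
            (Q a b).length = k → Q' a b = Q a b := by
          intro a b ha hab hb hlen
          have h1 : FG_p W Q a b = some (hop Q b a) := FG_p_some.2 ⟨⟨ha, hab, hb⟩, rfl⟩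
          rw [hp] at h1
          obtain ⟨⟨_, h2, _⟩, h3⟩ := FG_p_some.1 h1
          have h4 := hQ.snoc_hop hab.2.1 hab.1
          have h5 := hQ'.snoc_hop h2.2.1 h2.1
          rw [h3] at h5
          have h6 : hop Q b a ∈ Q b a := hQ.hop_mem (hQ.ne_symm.2 hab.2.1) hab.1.symm
          have h7 : hop Q b a ∈ Q a b := hQ.mem_symm.1 h6
          have h8 : (Q a (hop Q b a)).length < k := by
            rw [← hlen, h4]
            simp
          have h9 := ih _ h8 a (hop Q b a) ha rfl (hQ.ne_left_of_mem h7)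
          rw [h5, h9, ← h4]
        by_cases hv : v ∉ W ∨ x < v
        · exact step x v hx hnd hv hk
        · push Not at hv
          have h1 := step v x hv.1 (FG_nd_symm hQ hnd)
            (Or.inr (lt_of_le_of_ne hv.2 (Ne.symm hxv))) (by rw [FG_len_symm hQ]; exact hk)
          rw [hQ.symm v x, hQ'.symm v x, h1]

theorem FG_detW (hQ : IsFam U Q) (hQ' : IsFam U Q') (hW : W ⊆ U) (hG : fG Q = fG Q')
    (hp : FG_p W Q = FG_p W Q') {x v : Fin n} (hx : x ∈ W) : Q x v = Q' x v := by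
  by_cases h : Q x v = []
  · by_cases h' : Q' x v = []
    · rw [h, h']
    · exact FG_det1 hQ' hQ hW hG.symm hp.symm _ x v hx rfl h'
  · exact (FG_det1 hQ hQ' hW hG hp _ x v hx rfl h).symm

/-- cherries of paths with two edges -/
noncomputable def FG_C (W : Finset (Fin n)) (Q : Sys n) : Finset (Fin n × Sym2 (Fin n)) := by
  classical
  exact (FG_Tc W Q).image (fun q => (hop Q q.1 q.2, s(q.1, q.2)))

/-- the quadruple of a pair of type h -/
def FG_q4 (Q : Sys n) (q : Fin n × Fin n) : Fin n × Fin n × Fin n × Fin n :=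
  if hop Q q.1 q.2 < hop Q q.2 q.1 then (hop Q q.1 q.2, hop Q q.2 q.1, q.1, q.2)
  else (hop Q q.2 q.1, hop Q q.1 q.2, q.2, q.1)

noncomputable def FG_H (W : Finset (Fin n)) (Q : Sys n) :
    Finset (Fin n × Fin n × Fin n × Fin n) := by
  classical
  exact (FG_Th W Q).image (FG_q4 Q)

noncomputable def FG_F (W : Finset (Fin n)) (Q : Sys n) : Finset (List (Fin n)) := by
  classical
  exact (FG_Tl W Q).image (fun q => Q q.1 q.2)

noncomputable def FG_R (W : Finset (Fin n)) (Q : Sys n) : Finset (List (Fin n)) := by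
  classical
  exact (FG_Tc W Q ∪ FG_Th W Q).image (fun q => Q q.1 q.2)

theorem FG_C_card (W : Finset (Fin n)) (Q : Sys n) : (FG_C W Q).card = (FG_Tc W Q).card := by
  classical
  unfold FG_C
  rw [card_image_of_injOn]
  intro q hq q' hq' he
  simp only [Prod.mk.injEq] at he
  exact FG_ordered (mem_filter.1 (mem_coe.1 hq)).2.1 (mem_filter.1 (mem_coe.1 hq')).2.1 he.2

theorem FG_q4_s (Q : Sys n) (q : Fin n × Fin n) :
    s((FG_q4 Q q).2.2.1, (FG_q4 Q q).2.2.2) = s(q.1, q.2) := by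
  unfold FG_q4
  split_ifs
  · rfl
  · exact Sym2.eq_swap

theorem FG_H_card (W : Finset (Fin n)) (Q : Sys n) : (FG_H W Q).card = (FG_Th W Q).card := by
  classical
  unfold FG_H
  rw [card_image_of_injOn]
  intro q hq q' hq' he
  refine FG_ordered (mem_filter.1 (mem_coe.1 hq)).2.1 (mem_filter.1 (mem_coe.1 hq')).2.1 ?_
  rw [← FG_q4_s Q q, ← FG_q4_s Q q', he]

/-- a nonempty path determines its ends -/
theorem FG_inj (hQ : IsFam U Q) (hQ' : IsFam U Q') {u v u' v' : Fin n} (h : Q u v ≠ [])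
    (he : Q u v = Q' u' v') : u = u' ∧ v = v' := by
  have h' : Q' u' v' ≠ [] := by
    rw [← he]
    exact h
  have h1 := hQ.head u v h
  have h2 := hQ'.head u' v' h'
  have h3 := hQ.last u v h
  have h4 := hQ'.last u' v' h'
  rw [he] at h1 h3
  rw [h1] at h2
  rw [h3] at h4
  exact ⟨Option.some.inj h2, Option.some.inj h4⟩

theorem FG_F_card (hQ : IsFam U Q) : (FG_F W Q).card = (FG_Tl W Q).card := by
  classical
  unfold FG_F
  rw [card_image_of_injOn]
  intro q hq q' hq' he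
  have h1 := (mem_filter.1 (mem_coe.1 hq)).2.2
  have h2 := FG_inj hQ hQ h1.1.2.1 he
  exact Prod.ext h2.1 h2.2

theorem FG_R_card (W : Finset (Fin n)) (Q : Sys n) :
    (FG_R W Q).card ≤ (FG_C W Q).card + (FG_H W Q).card := by
  classical
  unfold FG_R
  rw [FG_C_card, FG_H_card]
  exact card_image_le.trans (card_union_le _ _)

/-! ### determinism of the remaining pairs -/

theorem FG_tc_eq (hQ : IsFam U Q) {u v : Fin n} (h : FG_tc W Q u v) :
    Q u v = [u, hop Q u v, v] := by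
  have h1 := hQ.cons_hop h.1.2.1 h.1.1
  have h2 := hQ.length_hop h.1.2.1 h.1.1
  have h3 := hQ.not_dir_hop_ne h.1.2.1 h.1.1 h.1.2.2
  have h4 : Q (hop Q u v) v ≠ [] := hQ.ne_right_of_mem (hQ.hop_mem h.1.2.1 h.1.1)
  have h5 : Dir Q (hop Q u v) v := by
    rw [hQ.dir_iff_length h4 h3]
    have := h.2.2.2
    omega
  rw [h1, h5.2]

theorem FG_c_det (hQ : IsFam U Q) (hQ' : IsFam U Q') (hC : FG_C W Q = FG_C W Q')
    {u v : Fin n} (huv : u < v) (h : FG_tc W Q u v) : FG_tc W Q' u v ∧ Q' u v = Q u v := by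
  classical
  have h1 : (hop Q u v, s(u, v)) ∈ FG_C W Q' := by
    rw [← hC]
    exact mem_image.2 ⟨(u, v), mem_filter.2 ⟨mem_univ _, huv, h⟩, rfl⟩
  obtain ⟨q', hq', he⟩ := mem_image.1 h1
  have h2 := (mem_filter.1 hq').2
  simp only [Prod.mk.injEq] at he
  have h3 : q' = (u, v) := FG_ordered (q' := (u, v)) h2.1 huv he.2
  subst h3
  refine ⟨h2.2, ?_⟩
  rw [FG_tc_eq hQ h, FG_tc_eq hQ' h2.2, he.1]

theorem FG_h_det (hQ : IsFam U Q) (hQ' : IsFam U Q') (hW : W ⊆ U) (hG : fG Q = fG Q')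
    (hp : FG_p W Q = FG_p W Q') (hH : FG_H W Q = FG_H W Q')
    {u v : Fin n} (huv : u < v) (h : FG_th W Q u v) : FG_th W Q' u v ∧ Q' u v = Q u v := by
  classical
  have h1 : FG_q4 Q (u, v) ∈ FG_H W Q' := by
    rw [← hH]
    exact mem_image.2 ⟨(u, v), mem_filter.2 ⟨mem_univ _, huv, h⟩, rfl⟩
  obtain ⟨q', hq', he⟩ := mem_image.1 h1
  have h2 := (mem_filter.1 hq').2
  have h3 : q' = (u, v) := by
    refine FG_ordered (q' := (u, v)) h2.1 huv ?_
    rw [← FG_q4_s Q' q', ← FG_q4_s Q (u, v), he]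
  subst h3
  refine ⟨h2.2, ?_⟩
  have h4 : hop Q' u v = hop Q u v := by
    unfold FG_q4 at he
    simp only at he
    split_ifs at he with ha hb hb
    · simp only [Prod.mk.injEq] at he
      exact he.1
    · simp only [Prod.mk.injEq] at he
      exact absurd he.2.2.1 huv.ne
    · simp only [Prod.mk.injEq] at he
      exact absurd he.2.2.2 huv.ne
    · simp only [Prod.mk.injEq] at he
      exact he.2.1
  have h5 := hQ.cons_hop h.1.2.1 h.1.1
  have h6 := hQ'.cons_hop h2.2.1.2.1 h2.2.1.1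
  rw [h6, h4, ← FG_detW hQ hQ' hW hG hp h.2.2.2.2.1, ← h5]

theorem FG_R_sub (hQ : IsFam U Q) (hQ' : IsFam U Q') (hW : W ⊆ U) (hG : fG Q = fG Q')
    (hp : FG_p W Q = FG_p W Q') (hC : FG_C W Q = FG_C W Q') (hH : FG_H W Q = FG_H W Q') :
    FG_R W Q ⊆ FG_R W Q' := by
  classical
  intro l hl
  obtain ⟨⟨u, v⟩, hq, rfl⟩ := mem_image.1 hl
  rcases mem_union.1 hq with hq | hq
  · have h1 := (mem_filter.1 hq).2
    obtain ⟨h2, h3⟩ := FG_c_det hQ hQ' hC h1.1 h1.2
    exact mem_image.2 ⟨(u, v), mem_union_left _ (mem_filter.2 ⟨mem_univ _, h1.1, h2⟩), h3⟩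
  · have h1 := (mem_filter.1 hq).2
    obtain ⟨h2, h3⟩ := FG_h_det hQ hQ' hW hG hp hH h1.1 h1.2
    exact mem_image.2 ⟨(u, v), mem_union_right _ (mem_filter.2 ⟨mem_univ _, h1.1, h2⟩), h3⟩

theorem FG_R_eq (hQ : IsFam U Q) (hQ' : IsFam U Q') (hW : W ⊆ U) (hG : fG Q = fG Q')
    (hp : FG_p W Q = FG_p W Q') (hC : FG_C W Q = FG_C W Q') (hH : FG_H W Q = FG_H W Q') :
    FG_R W Q = FG_R W Q' :=
  (FG_R_sub hQ hQ' hW hG hp hC hH).antisymm
    (FG_R_sub hQ' hQ hW hG.symm hp.symm hC.symm hH.symm)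

theorem FG_types {u v : Fin n} (h : FG_nd Q u v) (hu : u ∉ W) (hv : v ∉ W) :
    FG_tc W Q u v ∨ FG_th W Q u v ∨ FG_tl W Q u v := by
  unfold FG_tc FG_th FG_tl
  tauto

theorem FG_det2 (hQ : IsFam U Q) (hQ' : IsFam U Q') (hW : W ⊆ U) (hG : fG Q = fG Q')
    (hp : FG_p W Q = FG_p W Q') (hC : FG_C W Q = FG_C W Q') (hH : FG_H W Q = FG_H W Q')
    (hF : FG_F W Q = FG_F W Q') (u v : Fin n) (hne : Q u v ≠ []) : Q' u v = Q u v := by
  classical
  by_cases hu : u ∈ W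
  · exact (FG_detW hQ hQ' hW hG hp hu).symm
  by_cases hv : v ∈ W
  · rw [hQ.symm v u, hQ'.symm v u, FG_detW hQ hQ' hW hG hp hv]
  by_cases huv : u = v
  · subst huv
    rw [hQ.self u (hQ.left_mem hne), hQ'.self u (hQ.left_mem hne)]
  by_cases hd : Dir Q u v
  · have h1 : s(u, v) ∈ fG Q' := by
      rw [← hG, mem_fG hQ]
      exact hd
    rw [mem_fG hQ'] at h1
    rw [h1.2, hd.2]
  have key : ∀ a b : Fin n, a < b → FG_nd Q a b → a ∉ W → b ∉ W → Q' a b = Q a b := by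
    intro a b hab hnd ha hb
    rcases FG_types hnd ha hb with h1 | h1 | h1
    · exact (FG_c_det hQ hQ' hC hab h1).2
    · exact (FG_h_det hQ hQ' hW hG hp hH hab h1).2
    · have h2 : Q a b ∈ FG_F W Q' := by
        rw [← hF]
        exact mem_image.2 ⟨(a, b), mem_filter.2 ⟨mem_univ _, hab, h1⟩, rfl⟩
      obtain ⟨q', hq', he⟩ := mem_image.1 h2
      obtain ⟨h3, h4⟩ := FG_inj hQ hQ' hnd.2.1 he.symm
      rw [h3, h4, he, ← h3, ← h4]
  rcases lt_or_gt_of_ne huv with h | h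
  · exact key u v h ⟨huv, hne, hd⟩ hu hv
  · rw [hQ.symm v u, hQ'.symm v u, key v u h (FG_nd_symm hQ ⟨huv, hne, hd⟩) hv hu]

theorem FG_det (hQ : IsFam U Q) (hQ' : IsFam U Q') (hW : W ⊆ U) (hG : fG Q = fG Q')
    (hp : FG_p W Q = FG_p W Q') (hC : FG_C W Q = FG_C W Q') (hH : FG_H W Q = FG_H W Q')
    (hF : FG_F W Q = FG_F W Q') : Q = Q' := by
  funext u v
  by_cases h : Q u v = []
  · by_cases h' : Q' u v = []
    · rw [h, h']
    · exact FG_det2 hQ' hQ hW hG.symm hp.symm hC.symm hH.symm hF.symm u v h'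
  · exact (FG_det2 hQ hQ' hW hG hp hC hH hF u v h).symm

/-! ### cherries and quadruples -/

open Classical in
noncomputable def FG_ChG (G : Finset (Sym2 (Fin n))) : Finset (Fin n × Sym2 (Fin n)) :=
  univ.biUnion (fun y => (prs (univ.filter (fun x => s(y, x) ∈ G))).image (fun e => (y, e)))

theorem FG_ChG_card (G : Finset (Sym2 (Fin n))) : (FG_ChG G).card ≤ cher G := by
  classical
  unfold FG_ChG cher
  refine card_biUnion_le.trans (sum_le_sum fun y _ => ?_)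
  refine card_image_le.trans ?_
  rw [card_prs]
  rfl

theorem FG_C_sub (hQ : IsFam U Q) : FG_C W Q ⊆ FG_ChG (fG Q) := by
  classical
  intro c hc
  obtain ⟨⟨u, v⟩, hq, rfl⟩ := mem_image.1 hc
  obtain ⟨h1, h2⟩ := (mem_filter.1 hq).2
  simp only at h1 h2
  unfold FG_ChG
  refine mem_biUnion.2 ⟨hop Q u v, mem_univ _, mem_image.2 ⟨s(u, v), ?_, rfl⟩⟩
  have h3 := hQ.cons_hop h2.1.2.1 h2.1.1
  have h4 := FG_tc_eq hQ h2
  have h5 : Q (hop Q u v) v = [hop Q u v, v] := by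
    rw [h3] at h4
    exact (List.cons.inj h4).2
  have h6 := hQ.not_dir_hop_ne h2.1.2.1 h2.1.1 h2.1.2.2
  rw [mem_prs]
  refine ⟨h2.1.1, mem_filter.2 ⟨mem_univ _, ?_⟩, mem_filter.2 ⟨mem_univ _, ?_⟩⟩
  · rw [mem_fG hQ, hQ.dir_symm]
    exact hQ.hop_dir h2.1.2.1 h2.1.1
  · rw [mem_fG hQ]
    exact ⟨h6, h5⟩

open Classical in
noncomputable def FG_CH (W : Finset (Fin n)) (p : Pf n) :
    Finset (Fin n × Fin n × Fin n × Fin n) :=
  W.biUnion (fun x => (W.filter (fun y => x < y)).biUnion (fun y =>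
    ((univ.filter (fun u => u ∉ W ∧ p y u = some x)) ×ˢ
      (univ.filter (fun v => v ∉ W ∧ p x v = some y))).image (fun q => (x, y, q.1, q.2))))

theorem FG_CH_card (W : Finset (Fin n)) (p : Pf n) : (FG_CH W p).card ≤ cand W p := by
  classical
  unfold FG_CH cand
  refine card_biUnion_le.trans (sum_le_sum fun x _ => ?_)
  refine card_biUnion_le.trans (sum_le_sum fun y _ => ?_)
  refine card_image_le.trans ?_
  rw [card_product, mul_comm]
  rfl

theorem FG_hop_ne (hQ : IsFam U Q) {u v : Fin n} (h : FG_th W Q u v) :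
    hop Q u v ≠ hop Q v u := by
  intro he
  apply h.2.2.2.1
  have h1 := hQ.length_hop h.1.2.1 h.1.1
  have h2 : Dir Q v (hop Q v u) := hQ.hop_dir (hQ.ne_symm.2 h.1.2.1) h.1.1.symm
  rw [← he, hQ.dir_symm] at h2
  rw [h1, h2.2]
  rfl

theorem FG_h_par (hQ : IsFam U Q) {u v : Fin n} (h : FG_th W Q u v) :
    FG_p W Q (hop Q v u) u = some (hop Q u v) := by
  have h0 := FG_hop_ne hQ h
  have h1 : hop Q v u ∈ Q v u := hQ.hop_mem (hQ.ne_symm.2 h.1.2.1) h.1.1.symm
  have h2 : hop Q v u ≠ u := fun he => h.2.1 (by rw [← he]; exact h.2.2.2.2.2)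
  have h3 : Q (hop Q v u) u ≠ [] := hQ.ne_right_of_mem h1
  refine FG_p_some.2 ⟨⟨h.2.2.2.2.2, ⟨h2, h3, ?_⟩, Or.inl h.2.1⟩, hQ.hop_eq_of_mem h1 h2⟩
  intro hd
  have h4 : Dir Q u (hop Q v u) := hQ.dir_symm.1 hd
  exact h0 (hQ.eq_hop (hQ.mem_symm.1 h1) h4).symm

theorem FG_H_sub (hQ : IsFam U Q) : FG_H W Q ⊆ FG_CH W (FG_p W Q) := by
  classical
  intro c hc
  obtain ⟨⟨u, v⟩, hq, rfl⟩ := mem_image.1 hc
  obtain ⟨h1, h2⟩ := (mem_filter.1 hq).2
  simp only at h1 h2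
  have h3 := FG_hop_ne hQ h2
  have h4 := FG_h_par hQ h2
  have h5 := FG_h_par hQ (FG_th_symm hQ h2)
  unfold FG_q4 FG_CH
  simp only
  split_ifs with hlt
  · refine mem_biUnion.2 ⟨hop Q u v, h2.2.2.2.2.1, mem_biUnion.2 ⟨hop Q v u,
      mem_filter.2 ⟨h2.2.2.2.2.2, hlt⟩, mem_image.2 ⟨(u, v), mem_product.2
        ⟨mem_filter.2 ⟨mem_univ _, h2.2.1, h4⟩, mem_filter.2 ⟨mem_univ _, h2.2.2.1, h5⟩⟩, rfl⟩⟩⟩
  · refine mem_biUnion.2 ⟨hop Q v u, h2.2.2.2.2.2, mem_biUnion.2 ⟨hop Q u v,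
      mem_filter.2 ⟨h2.2.2.2.2.1, lt_of_le_of_ne (not_lt.1 hlt) h3.symm⟩,
      mem_image.2 ⟨(v, u), mem_product.2
        ⟨mem_filter.2 ⟨mem_univ _, h2.2.2.1, h5⟩, mem_filter.2 ⟨mem_univ _, h2.2.1, h4⟩⟩, rfl⟩⟩⟩

/-! ### the forest of the remaining paths -/

/-- canonical orientation -/
def FG_can (l : List (Fin n)) : List (Fin n) :=
  match l.head?, l.getLast? with
  | some a, some b => if a < b then l else l.reverse
  | _, _ => l

theorem FG_can_or (l : List (Fin n)) : FG_can l = l ∨ FG_can l = l.reverse := by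
  unfold FG_can
  split
  · split_ifs
    · exact Or.inl rfl
    · exact Or.inr rfl
  · exact Or.inl rfl

theorem FG_can_of_lt {l : List (Fin n)} {a b : Fin n} (ha : l.head? = some a)
    (hb : l.getLast? = some b) (h : a < b) : FG_can l = l := by
  unfold FG_can
  rw [ha, hb]
  simp [h]

theorem FG_can_rev {l : List (Fin n)} {a b : Fin n} (ha : l.head? = some a)
    (hb : l.getLast? = some b) (h : a < b) : FG_can l.reverse = l := by
  unfold FG_can
  rw [List.head?_reverse, List.getLast?_reverse, ha, hb]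
  simp [not_lt.2 h.le]

theorem FG_can_length (l : List (Fin n)) : (FG_can l).length = l.length := by
  rcases FG_can_or l with h | h
  · rw [h]
  · rw [h, List.length_reverse]

/-- the parent of a path -/
noncomputable def FG_par (W : Finset (Fin n)) (l : List (Fin n)) : Option (List (Fin n)) := by
  classical
  exact match l.tail.head? with
  | some x => if x ∉ W then some (FG_can l.tail) else some (FG_can l.dropLast)
  | none => none

theorem FG_par_or {l m : List (Fin n)} (h : FG_par W l = some m) :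
    FG_can l.tail = m ∨ FG_can l.dropLast = m := by
  classical
  unfold FG_par at h
  split at h
  · split_ifs at h
    · exact Or.inr (Option.some.inj h)
    · exact Or.inl (Option.some.inj h)
  · exact absurd h (by simp)

/-- the nodes -/
def FG_node (U W : Finset (Fin n)) (G : Finset (Sym2 (Fin n))) (l : List (Fin n)) : Prop :=
  l.Nodup ∧ 4 ≤ l.length ∧
    (∃ a b, l.head? = some a ∧ l.getLast? = some b ∧ a < b ∧ a ∈ U ∧ a ∉ W ∧ b ∈ U ∧ b ∉ W) ∧
    (∀ a m, l = a :: m → ∀ c, m.head? = some c → s(c, a) ∈ G) ∧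
    (∀ b m, l = m ++ [b] → ∀ c, m.getLast? = some c → s(c, b) ∈ G)

theorem FG_node_fin (U W : Finset (Fin n)) (G : Finset (Sym2 (Fin n))) :
    {l | FG_node U W G l}.Finite := by
  have h1 : (Set.univ : Set {l : List (Fin n) // l.Nodup}).Finite := Set.finite_univ
  refine (h1.image (fun f => f.1)).subset ?_
  intro l hl
  exact ⟨⟨l, hl.1⟩, Set.mem_univ _, rfl⟩

noncomputable def FG_Nd (U W : Finset (Fin n)) (G : Finset (Sym2 (Fin n))) :
    Finset (List (Fin n)) := (FG_node_fin U W G).toFinset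

theorem FG_mem_Nd {G : Finset (Sym2 (Fin n))} {l : List (Fin n)} :
    l ∈ FG_Nd U W G ↔ FG_node U W G l := by
  simp [FG_Nd]

theorem FG_rk {G : Finset (Sym2 (Fin n))} {l m : List (Fin n)} (hl : l ∈ FG_Nd U W G)
    (h : FG_par W l = some m) : m.length < l.length := by
  have h1 := (FG_mem_Nd.1 hl).2.1
  rcases FG_par_or h with h2 | h2
  · rw [← h2, FG_can_length, List.length_tail]
    omega
  · rw [← h2, FG_can_length, List.length_dropLast]
    omega

/-- the number of children -/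
theorem FG_child (G : Finset (Sym2 (Fin n))) {m : List (Fin n)} {L : ℕ} {c d : Fin n}
    (hc : m.head? = some c) (hd : m.getLast? = some d) (hcL : dgr G c ≤ L) (hdL : dgr G d ≤ L) :
    ((FG_Nd U W G).filter (fun l => FG_par W l = some m)).card ≤ 2 * L := by
  classical
  have hsub : (FG_Nd U W G).filter (fun l => FG_par W l = some m) ⊆
      (univ.filter (fun a => s(c, a) ∈ G)).image (fun a => FG_can (a :: m)) ∪
      (univ.filter (fun b => s(d, b) ∈ G)).image (fun b => FG_can (m ++ [b])) := by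
    intro l hl
    obtain ⟨hl1, hl2⟩ := mem_filter.1 hl
    obtain ⟨_, h4, ⟨a0, b0, ha0, hb0, hab, _⟩, hG1, hG2⟩ := FG_mem_Nd.1 hl1
    have hne : l ≠ [] := by
      intro h
      rw [h] at h4
      simp at h4
    have hcanl := FG_can_of_lt ha0 hb0 hab
    have hcanr := FG_can_rev ha0 hb0 hab
    rcases FG_par_or hl2 with h | h
    · obtain ⟨a, t, rfl⟩ := List.exists_cons_of_ne_nil hne
      rw [List.tail_cons] at h
      rcases FG_can_or t with h2 | h2
      · rw [h2] at h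
        subst h
        exact mem_union_left _ (mem_image.2 ⟨a, mem_filter.2 ⟨mem_univ _, hG1 a t rfl c hc⟩, hcanl⟩)
      · rw [h2] at h
        refine mem_union_right _ (mem_image.2 ⟨a, mem_filter.2 ⟨mem_univ _,
          hG1 a t rfl d ?_⟩, ?_⟩)
        · rw [← h, List.getLast?_reverse] at hd
          exact hd
        · rw [← h]
          rw [List.reverse_cons] at hcanr
          exact hcanr
    · obtain ⟨t, b, rfl⟩ : ∃ t b, l = t ++ [b] :=
        ⟨l.dropLast, l.getLast hne, (List.dropLast_append_getLast hne).symm⟩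
      rw [List.dropLast_concat] at h
      rcases FG_can_or t with h2 | h2
      · rw [h2] at h
        subst h
        exact mem_union_right _ (mem_image.2 ⟨b, mem_filter.2 ⟨mem_univ _,
          hG2 b t rfl d hd⟩, hcanl⟩)
      · rw [h2] at h
        refine mem_union_left _ (mem_image.2 ⟨b, mem_filter.2 ⟨mem_univ _,
          hG2 b t rfl c ?_⟩, ?_⟩)
        · rw [← h, List.head?_reverse] at hc
          exact hc
        · rw [← h]
          rw [List.reverse_append] at hcanr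
          exact hcanr
  refine (card_le_card hsub).trans ((card_union_le _ _).trans ?_)
  have h1 : ((univ.filter (fun a => s(c, a) ∈ G)).image (fun a => FG_can (a :: m))).card ≤ L :=
    card_image_le.trans hcL
  have h2 : ((univ.filter (fun b => s(d, b) ∈ G)).image
      (fun b => FG_can (m ++ [b]))).card ≤ L := card_image_le.trans hdL
  omega

/-- first two and last two vertices of a path are adjacent -/
theorem FG_adj1 (hQ : IsFam U Q) {u v : Fin n} (h : Q u v ≠ []) (huv : u ≠ v) {a : Fin n}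
    {m : List (Fin n)} (he : Q u v = a :: m) {c : Fin n} (hc : m.head? = some c) :
    s(c, a) ∈ fG Q := by
  have h1 := hQ.head u v h
  rw [he] at h1
  have h2 : a = u := by simpa using h1
  subst h2
  have h3 : hop Q a v = c := by
    unfold hop
    rw [he, List.tail_cons, List.headD_eq_head?_getD, hc]
    rfl
  rw [mem_fG hQ, hQ.dir_symm, ← h3]
  exact hQ.hop_dir h huv

theorem FG_adj2 (hQ : IsFam U Q) {u v : Fin n} (h : Q u v ≠ []) (huv : u ≠ v) {b : Fin n}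
    {m : List (Fin n)} (he : Q u v = m ++ [b]) {c : Fin n} (hc : m.getLast? = some c) :
    s(c, b) ∈ fG Q := by
  have h1 : Q v u = b :: m.reverse := by
    rw [hQ.symm u v, he]
    simp
  exact FG_adj1 hQ (hQ.ne_symm.2 h) huv.symm h1 (by rw [List.head?_reverse]; exact hc)

theorem FG_F_Nd (hQ : IsFam U Q) : FG_F W Q ⊆ FG_Nd U W (fG Q) := by
  classical
  intro l hl
  obtain ⟨⟨u, v⟩, hq, rfl⟩ := mem_image.1 hl
  obtain ⟨h1, h2⟩ := (mem_filter.1 hq).2
  simp only at h1 h2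
  rw [FG_mem_Nd]
  have h3 := FG_len hQ h2.1
  have h4 : (Q u v).length ≠ 3 := h2.2.2.2.1
  refine ⟨hQ.nodup u v, (show 4 ≤ (Q u v).length by omega), ⟨u, v, hQ.head u v h2.1.2.1, hQ.last u v h2.1.2.1, h1,
    hQ.left_mem h2.1.2.1, h2.2.1, hQ.right_mem h2.1.2.1, h2.2.2.1⟩, ?_, ?_⟩
  · intro a m he c hc
    exact FG_adj1 hQ h2.1.2.1 h2.1.1 he hc
  · intro b m he c hc
    exact FG_adj2 hQ h2.1.2.1 h2.1.1 he hc

theorem FG_can_Q (hQ : IsFam U Q) {u v : Fin n} (h : Q u v ≠ []) (huv : u ≠ v) :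
    FG_can (Q u v) = if u < v then Q u v else Q v u := by
  split_ifs with hlt
  · exact FG_can_of_lt (hQ.head u v h) (hQ.last u v h) hlt
  · have h1 : v < u := lt_of_le_of_ne (not_lt.1 hlt) huv.symm
    have h2 := hQ.ne_symm.2 h
    rw [hQ.symm v u]
    have h3 := FG_can_rev (hQ.head v u h2) (hQ.last v u h2) h1
    rw [h3, hQ.symm u v]

/-- a nondirect pair outside `W` gives an element of `F` or `R` -/
theorem FG_can_mem (hQ : IsFam U Q) {u v : Fin n} (h : FG_nd Q u v) (hu : u ∉ W) (hv : v ∉ W) :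
    FG_can (Q u v) ∈ FG_F W Q ∨ FG_can (Q u v) ∈ FG_R W Q := by
  classical
  have key : ∀ a b : Fin n, a < b → FG_nd Q a b → a ∉ W → b ∉ W →
      Q a b ∈ FG_F W Q ∨ Q a b ∈ FG_R W Q := by
    intro a b hab hnd ha hb
    rcases FG_types hnd ha hb with h1 | h1 | h1
    · exact Or.inr (mem_image.2 ⟨(a, b), mem_union_left _
        (mem_filter.2 ⟨mem_univ _, hab, h1⟩), rfl⟩)
    · exact Or.inr (mem_image.2 ⟨(a, b), mem_union_right _
        (mem_filter.2 ⟨mem_univ _, hab, h1⟩), rfl⟩)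
    · exact Or.inl (mem_image.2 ⟨(a, b), mem_filter.2 ⟨mem_univ _, hab, h1⟩, rfl⟩)
  rw [FG_can_Q hQ h.2.1 h.1]
  split_ifs with hlt
  · exact key u v hlt h hu hv
  · exact key v u (lt_of_le_of_ne (not_lt.1 hlt) h.1.symm) (FG_nd_symm hQ h) hv hu

/-- `F` is closed -/
theorem FG_closed (hQ : IsFam U Q) : ∀ l ∈ FG_F W Q, l ∉ FG_R W Q ∧
    ∃ m, FG_par W l = some m ∧ (m ∈ FG_F W Q ∨ m ∈ FG_R W Q) := by
  classical
  intro l hl
  obtain ⟨⟨u, v⟩, hq, rfl⟩ := mem_image.1 hl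
  obtain ⟨h1, h2⟩ := (mem_filter.1 hq).2
  simp only at h1 h2
  have hne := h2.1.2.1
  have huv := h2.1.1
  have h3 := FG_len hQ h2.1
  have h4 := h2.2.2.2.1
  refine ⟨?_, ?_⟩
  · intro hR
    obtain ⟨⟨u', v'⟩, hq', he⟩ := mem_image.1 hR
    obtain ⟨rfl, rfl⟩ := FG_inj hQ hQ hne he.symm
    rcases mem_union.1 hq' with hq' | hq'
    · exact h4 (mem_filter.1 hq').2.2.2.2.2
    · exact h2.2.2.2.2 (mem_filter.1 hq').2.2.2.2.2.2
  · -- the hops
    have hx := hQ.cons_hop hne huv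
    have hlx := hQ.length_hop hne huv
    have hxm := hQ.hop_mem hne huv
    have hxv := hQ.not_dir_hop_ne hne huv h2.1.2.2
    have htl : (Q u v).tail = Q (hop Q u v) v := by
      conv_lhs => rw [hx]
      rfl
    have hxne : Q (hop Q u v) v ≠ [] := hQ.ne_right_of_mem hxm
    have hhd : (Q u v).tail.head? = some (hop Q u v) := by
      rw [htl]
      exact hQ.head _ _ hxne
    have hpar : FG_par W (Q u v) = if hop Q u v ∉ W then some (FG_can (Q u v).tail)
        else some (FG_can (Q u v).dropLast) := by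
      unfold FG_par
      rw [hhd]
    rw [hpar]
    by_cases hxW : hop Q u v ∉ W
    · rw [if_pos hxW, htl]
      refine ⟨_, rfl, FG_can_mem hQ ⟨hxv, hxne, ?_⟩ hxW h2.2.2.1⟩
      intro hd
      rw [hQ.dir_iff_length hxne hxv] at hd
      omega
    · rw [if_neg hxW]
      have hyW : hop Q v u ∉ W := fun hy => h2.2.2.2.2 ⟨not_not.1 hxW, hy⟩
      have hy := hQ.snoc_hop hne huv
      have hdl : (Q u v).dropLast = Q u (hop Q v u) := by
        conv_lhs => rw [hy]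
        simp
      have hne' := hQ.ne_symm.2 hne
      have hym : hop Q v u ∈ Q u v := hQ.mem_symm.1 (hQ.hop_mem hne' huv.symm)
      have hyne : Q u (hop Q v u) ≠ [] := hQ.ne_left_of_mem hym
      have hyu : hop Q v u ≠ u :=
        hQ.not_dir_hop_ne hne' huv.symm (fun hd => h2.1.2.2 (hQ.dir_symm.1 hd))
      have hly : (Q u v).length = (Q u (hop Q v u)).length + 1 := by
        conv_lhs => rw [hy]
        simp
      rw [hdl]
      refine ⟨_, rfl, FG_can_mem hQ ⟨hyu.symm, hyne, ?_⟩ h2.2.1 hyW⟩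
      intro hd
      rw [hQ.dir_iff_length hyne hyu.symm] at hd
      omega

/-- ends of the roots -/
theorem FG_R_ends (hQ : IsFam U Q) {m : List (Fin n)} (hm : m ∈ FG_R W Q) :
    ∃ c d, m.head? = some c ∧ m.getLast? = some d ∧ c ∈ U ∧ c ∉ W ∧ d ∈ U ∧ d ∉ W := by
  classical
  obtain ⟨⟨u, v⟩, hq, rfl⟩ := mem_image.1 hm
  rcases mem_union.1 hq with hq | hq
  · have h := (mem_filter.1 hq).2.2
    exact ⟨u, v, hQ.head u v h.1.2.1, hQ.last u v h.1.2.1, hQ.left_mem h.1.2.1, h.2.1,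
      hQ.right_mem h.1.2.1, h.2.2.1⟩
  · have h := (mem_filter.1 hq).2.2
    exact ⟨u, v, hQ.head u v h.1.2.1, hQ.last u v h.1.2.1, hQ.left_mem h.1.2.1, h.2.1,
      hQ.right_mem h.1.2.1, h.2.2.1⟩

/-- the sum over one fibre -/
theorem FG_fibre (hWU : W ⊆ U) (G : Finset (Sym2 (Fin n)))
    (L : ℕ) (r θ : ℝ) (hr : 0 ≤ r) (hθ : 1 ≤ θ)
    (h : (1 + r * θ) ^ (2 * L) ≤ θ) (hdeg : ∀ x ∈ U, x ∉ W → dgr G x ≤ L)
    (S : Finset (Sys n)) (p : Pf n) (C : Finset (Fin n × Sym2 (Fin n)))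
    (H : Finset (Fin n × Fin n × Fin n × Fin n))
    (hS : ∀ Q ∈ S, IsFam U Q ∧ fG Q = G ∧ FG_p W Q = p ∧ FG_C W Q = C ∧ FG_H W Q = H) :
    ∑ Q ∈ S, r ^ (FG_F W Q).card ≤ θ ^ (C.card + H.card) := by
  classical
  rcases S.eq_empty_or_nonempty with hS0 | ⟨Q0, hQ0⟩
  · rw [hS0, sum_empty]
    positivity
  · obtain ⟨hf0, hg0, hp0, hC0, hH0⟩ := hS Q0 hQ0
    have hch : ∀ m, m ∈ FG_Nd U W G ∨ m ∈ FG_R W Q0 →
        ((FG_Nd U W G).filter (fun l => FG_par W l = some m)).card ≤ 2 * L := by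
      intro m hm
      obtain ⟨c, d, hc, hd, hcU, hcW, hdU, hdW⟩ : ∃ c d, m.head? = some c ∧
          m.getLast? = some d ∧ c ∈ U ∧ c ∉ W ∧ d ∈ U ∧ d ∉ W := by
        rcases hm with hm | hm
        · obtain ⟨_, _, ⟨a, b, h1, h2, _, h3, h4, h5, h6⟩, _⟩ := FG_mem_Nd.1 hm
          exact ⟨a, b, h1, h2, h3, h4, h5, h6⟩
        · exact FG_R_ends hf0 hm
      exact FG_child G hc hd (hdeg c hcU hcW) (hdeg d hdU hdW)
    have hSF := SF (FG_Nd U W G) (FG_par W) List.length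
      (fun x hx y hy => FG_rk hx hy) (2 * L) (FG_R W Q0)
      (fun m hm => by
        have h1 := hch m hm
        convert h1) r θ hr hθ h
    have hinj : ∀ Q ∈ S, ∀ Q' ∈ S, FG_F W Q = FG_F W Q' → Q = Q' := by
      intro Q hQ Q' hQ' he
      obtain ⟨h1, h2, h3, h4, h5⟩ := hS Q hQ
      obtain ⟨h1', h2', h3', h4', h5'⟩ := hS Q' hQ'
      exact FG_det h1 h1' hWU (by rw [h2, h2']) (by rw [h3, h3']) (by rw [h4, h4'])
        (by rw [h5, h5']) he
    have e1 : ∑ Q ∈ S, r ^ (FG_F W Q).card = ∑ F ∈ S.image (FG_F W), r ^ F.card :=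
      (sum_image (f := fun F => r ^ F.card) (fun Q hQ Q' hQ' => hinj Q hQ Q' hQ')).symm
    have e2 : θ ^ (FG_R W Q0).card ≤ θ ^ (C.card + H.card) := by
      refine pow_le_pow_right₀ hθ ?_
      have h1 := FG_R_card W Q0
      rw [hC0, hH0] at h1
      exact h1
    rw [e1]
    refine le_trans ?_ (hSF.trans e2)
    refine sum_le_sum_of_subset_of_nonneg ?_ (fun _ _ _ => pow_nonneg hr _)
    intro F hF
    obtain ⟨Q, hQ, rfl⟩ := mem_image.1 hF
    obtain ⟨h1, h2, h3, h4, h5⟩ := hS Q hQ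
    have hR : FG_R W Q = FG_R W Q0 := FG_R_eq h1 hf0 hWU (by rw [h2, hg0])
      (by rw [h3, hp0]) (by rw [h4, hC0]) (by rw [h5, hH0])
    have h6 := FG_closed (W := W) h1
    rw [hR] at h6
    have h7 : FG_F W Q ⊆ FG_Nd U W G := by
      rw [← h2]
      exact FG_F_Nd h1
    exact (@Finset.mem_filter _ _ (_) _ _).2 ⟨mem_powerset.2 h7, h6⟩

/-- the sum over subsets -/
theorem FG_pows {α : Type*} (A : Finset α) (a : ℝ) :
    ∑ s ∈ A.powerset, a ^ s.card = (1 + a) ^ A.card := by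
  classical
  have h1 := sum_pow_mul_eq_add_pow a 1 A
  rw [add_comm a 1] at h1
  rw [← h1]
  refine sum_congr rfl fun s _ => ?_
  rw [one_pow, mul_one]

end enc

open Classical in
/-- Blueprint 3.3. -/
theorem FG {n : ℕ} (U W : Finset (Fin n)) (hWU : W ⊆ U) (G : Finset (Sym2 (Fin n)))
    (hG : G ⊆ prs U) (L : ℕ) (r t θ : ℝ) (hr : 0 ≤ r) (ht : 1 ≤ t) (hθ : 1 ≤ θ)
    (h : (1 + r * θ) ^ (2 * L) ≤ θ) (hdeg : ∀ x ∈ U, x ∉ W → dgr G x ≤ L) :
    ∑ Q ∈ (fams U).filter (fun Q => fG Q = G),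
      r ^ (fD Q \ G).card * t ^ (∑ x ∈ W, dgr (fD Q \ G) x) ≤
    (1 + r * θ) ^ (cher G) * psumR U W G r t θ := by
  classical
  have ht0 : 0 ≤ t := by linarith
  have hθ0 : 0 ≤ θ := by linarith
  have hrθ : 0 ≤ r * θ := mul_nonneg hr hθ0
  -- the keys
  set K : Finset ((_ : Pf n) × (Finset (Fin n × Sym2 (Fin n)) ×
      Finset (Fin n × Fin n × Fin n × Fin n))) :=
    (pset U W G).sigma (fun p => (FG_ChG G).powerset ×ˢ (FG_CH W p).powerset) with hK
  set key : Sys n → ((_ : Pf n) × (Finset (Fin n × Sym2 (Fin n)) ×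
      Finset (Fin n × Fin n × Fin n × Fin n))) :=
    fun Q => ⟨FG_p W Q, (FG_C W Q, FG_H W Q)⟩ with hkey
  have hmaps : ∀ Q ∈ (fams U).filter (fun Q => fG Q = G), key Q ∈ K := by
    intro Q hQ
    obtain ⟨hQ1, hQ2⟩ := mem_filter.1 hQ
    have hf := mem_fams.1 hQ1
    rw [hK, mem_sigma, mem_product, mem_powerset, mem_powerset]
    refine ⟨?_, ?_, ?_⟩
    · rw [← hQ2]
      exact FG_p_mem hf
    · rw [← hQ2]
      exact FG_C_sub hf
    · exact FG_H_sub hf
  rw [← sum_fiberwise_of_maps_to hmaps]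
  have hterm : ∀ k ∈ K, ∑ Q ∈ ((fams U).filter (fun Q => fG Q = G)).filter (fun Q => key Q = k),
      r ^ (fD Q \ G).card * t ^ (∑ x ∈ W, dgr (fD Q \ G) x) ≤
      (r * t ^ 2) ^ (psz k.1) * ((r * θ) ^ k.2.1.card * (r * θ) ^ k.2.2.card) := by
    rintro ⟨p, C, H⟩ _
    have hS : ∀ Q ∈ ((fams U).filter (fun Q => fG Q = G)).filter
        (fun Q => key Q = ⟨p, (C, H)⟩),
        IsFam U Q ∧ fG Q = G ∧ FG_p W Q = p ∧ FG_C W Q = C ∧ FG_H W Q = H := by
      intro Q hQ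
      obtain ⟨hQ1, hQ2⟩ := mem_filter.1 hQ
      obtain ⟨hQ3, hQ4⟩ := mem_filter.1 hQ1
      have h1 : (⟨FG_p W Q, (FG_C W Q, FG_H W Q)⟩ : ((_ : Pf n) ×
        (Finset (Fin n × Sym2 (Fin n)) × Finset (Fin n × Fin n × Fin n × Fin n)))) =
          ⟨p, (C, H)⟩ := hQ2
      simp only [Sigma.mk.injEq, heq_eq_eq, Prod.mk.injEq] at h1
      exact ⟨mem_fams.1 hQ3, hQ4, h1.1, h1.2.1, h1.2.2⟩
    have hfib := FG_fibre hWU G L r θ hr hθ h hdeg _ p C H hS
    calc ∑ Q ∈ ((fams U).filter (fun Q => fG Q = G)).filter (fun Q => key Q = ⟨p, (C, H)⟩),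
          r ^ (fD Q \ G).card * t ^ (∑ x ∈ W, dgr (fD Q \ G) x)
        ≤ ∑ Q ∈ ((fams U).filter (fun Q => fG Q = G)).filter (fun Q => key Q = ⟨p, (C, H)⟩),
          ((r * t ^ 2) ^ (psz p) * (r ^ C.card * r ^ H.card)) * r ^ (FG_F W Q).card := by
          refine sum_le_sum fun Q hQ => ?_
          obtain ⟨h1, h2, h3, h4, h5⟩ := hS Q hQ
          have hc1 : (fD Q \ G).card = psz p + C.card + H.card + (FG_F W Q).card := by
            rw [← h2, FG_card h1, FG_part W Q, ← FG_psz h1, h3, ← FG_C_card, h4, ← FG_H_card,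
              h5, ← FG_F_card h1]
          have hc2 : ∑ x ∈ W, dgr (fD Q \ G) x ≤ 2 * psz p := by
            rw [← h2, ← h3]
            exact FG_deg h1
          calc r ^ (fD Q \ G).card * t ^ (∑ x ∈ W, dgr (fD Q \ G) x)
              ≤ r ^ (fD Q \ G).card * t ^ (2 * psz p) :=
                mul_le_mul_of_nonneg_left (pow_le_pow_right₀ ht hc2) (pow_nonneg hr _)
            _ = ((r * t ^ 2) ^ (psz p) * (r ^ C.card * r ^ H.card)) * r ^ (FG_F W Q).card := by
                rw [hc1, mul_pow, ← pow_mul]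
                ring
      _ = ((r * t ^ 2) ^ (psz p) * (r ^ C.card * r ^ H.card)) *
          ∑ Q ∈ ((fams U).filter (fun Q => fG Q = G)).filter (fun Q => key Q = ⟨p, (C, H)⟩),
            r ^ (FG_F W Q).card := by rw [mul_sum]
      _ ≤ ((r * t ^ 2) ^ (psz p) * (r ^ C.card * r ^ H.card)) * θ ^ (C.card + H.card) :=
          mul_le_mul_of_nonneg_left hfib (by positivity)
      _ = (r * t ^ 2) ^ (psz p) * ((r * θ) ^ C.card * (r * θ) ^ H.card) := by
          rw [mul_pow, mul_pow, pow_add]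
          ring
  refine (sum_le_sum hterm).trans ?_
  rw [hK, sum_sigma]
  unfold psumR
  rw [mul_sum]
  refine sum_le_sum fun p _ => ?_
  have h1 : ∑ s ∈ (FG_ChG G).powerset ×ˢ (FG_CH W p).powerset,
      (r * t ^ 2) ^ (psz p) * ((r * θ) ^ s.1.card * (r * θ) ^ s.2.card) =
      (r * t ^ 2) ^ (psz p) * ((1 + r * θ) ^ (FG_ChG G).card *
        (1 + r * θ) ^ (FG_CH W p).card) := by
    rw [← mul_sum, sum_product, ← FG_pows, ← FG_pows, sum_mul_sum]
  have h2 : (1 + r * θ) ^ (FG_ChG G).card ≤ (1 + r * θ) ^ (cher G) :=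
    pow_le_pow_right₀ (by linarith) (FG_ChG_card G)
  have h3 : (1 + r * θ) ^ (FG_CH W p).card ≤ (1 + r * θ) ^ (cand W p) :=
    pow_le_pow_right₀ (by linarith) (FG_CH_card W p)
  calc _ = (r * t ^ 2) ^ (psz p) * ((1 + r * θ) ^ (FG_ChG G).card *
        (1 + r * θ) ^ (FG_CH W p).card) := h1
    _ ≤ (r * t ^ 2) ^ (psz p) * ((1 + r * θ) ^ (cher G) * (1 + r * θ) ^ (cand W p)) := by
        refine mul_le_mul_of_nonneg_left (mul_le_mul h2 h3 (by positivity) (by positivity))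
          (by positivity)
    _ = _ := by ring

end PSys
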