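import Mathlib
import Pool.Agent.PSys.Spec
import Pool.Agent.PSys.FG
import Pool.Agent.PSys.GoodB

/-! Module HEAVY (blueprint 3.4): the sum over the parent functions. -/

open Finset Filter

namespace PSys

/-- the elementary inequality for two counts -/
theorem HEAVY_mul (n c c' K : ℝ) (hc : 0 ≤ c) (hc' : 0 ≤ c') (hn : c + c' ≤ n) (hK : 0 ≤ K) :
    c * c' ≤ (K * c + (if K ≤ c then n / 4 * c else 0)) +
      (K * c' + (if K ≤ c' then n / 4 * c' else 0)) := by
  have h1 : 0 ≤ K * c := mul_nonneg hK hc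
  have h2 : 0 ≤ K * c' := mul_nonneg hK hc'
  have hn0 : 0 ≤ n := by linarith
  have h3 : 0 ≤ n / 4 * c := by positivity
  have h4 : 0 ≤ n / 4 * c' := by positivity
  by_cases hcK : K ≤ c
  · by_cases hcK' : K ≤ c'
    · rw [if_pos hcK, if_pos hcK']
      nlinarith [sq_nonneg (c - c'), mul_nonneg hc hc', mul_nonneg (add_nonneg hc hc')
        (sub_nonneg.2 hn)]
    · rw [if_pos hcK, if_neg hcK']
      have : c * c' ≤ c * K := mul_le_mul_of_nonneg_left (not_le.1 hcK').le hc
      linarith
  · have h5 : c * c' ≤ K * c' := mul_le_mul_of_nonneg_right (not_le.1 hcK).le hc'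
    have h6 : 0 ≤ (if K ≤ c then n / 4 * c else 0) := by split_ifs <;> first | exact h3 | exact le_rfl
    have h7 : 0 ≤ (if K ≤ c' then n / 4 * c' else 0) := by split_ifs <;> first | exact h4 | exact le_rfl
    linarith

open Classical in
theorem HEAVY_disj {n : ℕ} {U W : Finset (Fin n)} {G : Finset (Sym2 (Fin n))} {p : Pf n}
    (hp : p ∈ pset U W G) {x y : Fin n} (hx : x ∈ W) (hy : y ∈ W) (hxy : x ≠ y) :
    (cx W p x y : ℝ) + cx W p y x ≤ n := by
  have h1 := (mem_filter.1 hp).2.2
  have h2 : Disjoint (univ.filter (fun v => v ∉ W ∧ p x v = some y))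
      (univ.filter (fun v => v ∉ W ∧ p y v = some x)) := by
    rw [disjoint_filter]
    intro v _ hv hv'
    exact h1 x y v hx hy hxy hv.1 ⟨hv.2, hv'.2⟩
  have h3 := card_union_of_disjoint h2
  have h4 := card_le_univ ((univ.filter (fun v => v ∉ W ∧ p x v = some y)) ∪
      (univ.filter (fun v => v ∉ W ∧ p y v = some x)))
  rw [h3, Fintype.card_fin] at h4
  unfold cx
  exact_mod_cast h4

open Classical in
/-- Blueprint 3.4, the candidates: for `p` in `pset`. -/
theorem cand_le {n : ℕ} {U W : Finset (Fin n)} {G : Finset (Sym2 (Fin n))} {p : Pf n}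
    (hp : p ∈ pset U W G) (K : ℝ) (hK : 0 ≤ K) :
    (cand W p : ℝ) ≤ ∑ x ∈ W, ∑ y ∈ W, (K * cx W p x y +
      (if K ≤ cx W p x y then (n : ℝ) / 4 * cx W p x y else 0)) := by
  set g : Fin n → Fin n → ℝ := fun x y => K * cx W p x y +
      (if K ≤ cx W p x y then (n : ℝ) / 4 * cx W p x y else 0) with hg
  have hg0 : ∀ x y, 0 ≤ g x y := by
    intro x y
    simp only [hg]
    split_ifs <;> positivity
  have h1 : (cand W p : ℝ) ≤ ∑ x ∈ W, ∑ y ∈ W, (if x < y then g x y + g y x else 0) := by
    unfold cand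
    push_cast
    refine sum_le_sum fun x hx => ?_
    rw [sum_filter]
    refine sum_le_sum fun y hy => ?_
    split_ifs with hxy
    · exact HEAVY_mul n _ _ K (Nat.cast_nonneg _) (Nat.cast_nonneg _)
        (HEAVY_disj hp hx hy hxy.ne) hK
    · exact le_rfl
  refine h1.trans ?_
  have h2 : ∑ x ∈ W, ∑ y ∈ W, (if x < y then g x y + g y x else 0) =
      ∑ x ∈ W, ∑ y ∈ W, ((if x < y then g x y else 0) + (if y < x then g x y else 0)) := by
    have e1 : ∀ x y : Fin n, (if x < y then g x y + g y x else 0) =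
        (if x < y then g x y else 0) + (if x < y then g y x else 0) := by
      intro x y; split_ifs <;> simp
    simp only [e1, sum_add_distrib]
    congr 1
    rw [sum_comm]
  rw [h2]
  refine sum_le_sum fun x _ => sum_le_sum fun y _ => ?_
  rcases lt_trichotomy x y with h | h | h
  · rw [if_pos h, if_neg (not_lt.2 h.le)]; simp [hg]
  · subst h; simp only [lt_irrefl, if_false, add_zero]; exact hg0 x x
  · rw [if_neg (not_lt.2 h.le), if_pos h]; simp [hg]

open Classical in
/-- handshake lemma -/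
theorem HEAVY_hand {n : ℕ} {U : Finset (Fin n)} {G : Finset (Sym2 (Fin n))} (hG : G ⊆ prs U) :
    ∑ v, dgr G v = 2 * G.card := by
  have h1 : ∀ v, dgr G v = ∑ e ∈ G, (if v ∈ e then 1 else 0) := by
    intro v
    rw [← card_filter]
    unfold dgr
    refine card_bij (fun y _ => s(v, y)) ?_ ?_ ?_
    · intro y hy
      rw [mem_filter] at hy ⊢
      exact ⟨hy.2, Sym2.mem_mk_left _ _⟩
    · intro y _ y' _ h
      exact Sym2.congr_right.1 h
    · intro e he
      rw [mem_filter] at he
      obtain ⟨y, rfl⟩ := Sym2.mem_iff_exists.1 he.2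
      exact ⟨y, mem_filter.2 ⟨mem_univ _, he.1⟩, rfl⟩
  simp only [h1]
  rw [sum_comm, mul_comm, ← smul_eq_mul, ← sum_const]
  refine sum_congr rfl fun e he => ?_
  have he' := hG he
  induction e with
  | _ u w =>
    have huw : u ≠ w := (mem_prs.1 he').1
    rw [← card_filter]
    have : univ.filter (fun v => v ∈ s(u, w)) = {u, w} := by
      ext v
      simp [Sym2.mem_iff]
    rw [this, card_pair huw]

open Classical in
/-- the encoding of one parent function -/
noncomputable def HEAVY_S {n : ℕ} (W : Finset (Fin n)) (K : ℕ) (f : Fin n → Option (Fin n))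
    (y : Fin n) : Finset (Fin n) :=
  if y ∈ W ∧ K ≤ (univ.filter (fun v => v ∉ W ∧ f v = some y)).card then
    univ.filter (fun v => v ∉ W ∧ f v = some y) else ∅

open Classical in
noncomputable def HEAVY_r {n : ℕ} (W : Finset (Fin n)) (K : ℕ) (f : Fin n → Option (Fin n))
    (v : Fin n) : Option (Fin n) :=
  if ∃ y, v ∈ HEAVY_S W K f y then none else f v

theorem HEAVY_memS {n : ℕ} {W : Finset (Fin n)} {K : ℕ} {f : Fin n → Option (Fin n)}
    {y v : Fin n} (h : v ∈ HEAVY_S W K f y) : f v = some y := by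
  classical
  unfold HEAVY_S at h
  split_ifs at h
  · exact (mem_filter.1 h).2.2
  · simp at h

theorem HEAVY_rec {n : ℕ} {W : Finset (Fin n)} {K : ℕ} {f : Fin n → Option (Fin n)}
    {y v : Fin n} : f v = some y ↔ v ∈ HEAVY_S W K f y ∨ HEAVY_r W K f v = some y := by
  classical
  constructor
  · intro h
    by_cases h1 : ∃ z, v ∈ HEAVY_S W K f z
    · obtain ⟨z, hz⟩ := h1
      have := HEAVY_memS hz
      rw [h, Option.some.injEq] at this
      subst this
      exact Or.inl hz
    · right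
      unfold HEAVY_r
      rw [if_neg h1]
      exact h
  · rintro (h | h)
    · exact HEAVY_memS h
    · unfold HEAVY_r at h
      split_ifs at h
      exact h

theorem HEAVY_inj {n : ℕ} (W : Finset (Fin n)) (K : ℕ) :
    Function.Injective (fun f : Fin n → Option (Fin n) => (HEAVY_r W K f, HEAVY_S W K f)) := by
  intro f f' h
  simp only [Prod.mk.injEq] at h
  funext v
  have key : ∀ y, f v = some y ↔ f' v = some y := by
    intro y
    rw [HEAVY_rec (W := W) (K := K), HEAVY_rec (f := f') (W := W) (K := K), h.1, h.2]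
  cases h1 : f v with
  | none =>
    cases h2 : f' v with
    | none => rfl
    | some y => rw [(key y).2 h2] at h1; simp at h1
  | some y => exact ((key y).1 h1).symm

open Classical in
theorem HEAVY_card {n : ℕ} (W : Finset (Fin n)) (K : ℕ) (f : Fin n → Option (Fin n)) :
    (univ.filter (fun v => f v ≠ none)).card =
      (univ.filter (fun v => HEAVY_r W K f v ≠ none)).card + ∑ y, (HEAVY_S W K f y).card := by
  have h1 : ∑ y, (HEAVY_S W K f y).card = (univ.biUnion (HEAVY_S W K f)).card := by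
    rw [card_biUnion]
    intro y _ y' _ hyy
    rw [Function.onFun, Finset.disjoint_left]
    intro v hv hv'
    have e1 := HEAVY_memS hv
    have e2 := HEAVY_memS hv'
    rw [e1, Option.some.injEq] at e2
    exact hyy e2
  rw [h1, ← card_union_of_disjoint]
  · congr 1
    ext v
    simp only [mem_filter, mem_univ, true_and, mem_union, mem_biUnion]
    constructor
    · intro h
      by_cases h2 : ∃ y, v ∈ HEAVY_S W K f y
      · exact Or.inr h2
      · left
        unfold HEAVY_r
        rw [if_neg h2]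
        exact h
    · rintro (h | ⟨y, h⟩)
      · unfold HEAVY_r at h
        split_ifs at h with h2
        · exact absurd rfl h
        · exact h
      · rw [HEAVY_memS h]; simp
  · rw [Finset.disjoint_left]
    intro v hv hv'
    rw [mem_biUnion] at hv'
    obtain ⟨y, _, hy⟩ := hv'
    rw [mem_filter] at hv
    apply hv.2
    unfold HEAVY_r
    rw [if_pos ⟨y, hy⟩]

open Classical in
/-- Blueprint 3.4, one vertex: sum over the partial functions `f` with `f v` a `G`-neighbour of
`v`. `r1 = r t^2 exp(r θ K)`, `r2 = r1 exp(r θ n / 4)`. -/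
theorem one_vertex {n : ℕ} (U W : Finset (Fin n)) (G : Finset (Sym2 (Fin n))) (hG : G ⊆ prs U)
    (K : ℕ) (a g1 g2 : ℝ) (ha : 0 ≤ a) (h1 : 1 ≤ g1) (h2 : 1 ≤ g2) :
    ∑ f ∈ (univ : Finset (Fin n → Option (Fin n))).filter
        (fun f => ∀ v y, f v = some y → v ∈ U ∧ s(v, y) ∈ G),
      a ^ (univ.filter (fun v => f v ≠ none)).card *
        ∏ y ∈ W, (g1 ^ (univ.filter (fun v => v ∉ W ∧ f v = some y)).card *
          (if K ≤ (univ.filter (fun v => v ∉ W ∧ f v = some y)).card then
            g2 ^ (univ.filter (fun v => v ∉ W ∧ f v = some y)).card else 1)) ≤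
    Real.exp (a * g1 * (2 * G.card)) *
      (1 + ∑ j ∈ range (n + 1), if K ≤ j then (n.choose j : ℝ) * (a * g1 * g2) ^ j else 0) ^ n := by
  have hg1 : 0 ≤ g1 := by linarith
  have hg2 : 0 ≤ g2 := by linarith
  have hag : 0 ≤ a * g1 := mul_nonneg ha hg1
  have hz : 0 ≤ a * g1 * g2 := mul_nonneg hag hg2
  -- the product of the two sums
  let T1 : Fin n → Finset (Option (Fin n)) := fun v =>
    insert none ((univ.filter (fun y => s(v, y) ∈ G)).image some)
  let T2 : Fin n → Finset (Finset (Fin n)) := fun _ =>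
    (univ : Finset (Finset (Fin n))).filter (fun S => S = ∅ ∨ K ≤ S.card)
  let w : (Fin n → Option (Fin n)) × (Fin n → Finset (Fin n)) → ℝ := fun z =>
    (∏ v, (if z.1 v = none then 1 else a * g1)) * ∏ y, (a * g1 * g2) ^ (z.2 y).card
  have hw0 : ∀ z, 0 ≤ w z := by
    intro z
    refine mul_nonneg (prod_nonneg fun v _ => ?_) (prod_nonneg fun y _ => pow_nonneg hz _)
    split_ifs
    · exact zero_le_one
    · exact hag
  have hstep1 : ∀ f : Fin n → Option (Fin n),
      a ^ (univ.filter (fun v => f v ≠ none)).card *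
        ∏ y ∈ W, (g1 ^ (univ.filter (fun v => v ∉ W ∧ f v = some y)).card *
          (if K ≤ (univ.filter (fun v => v ∉ W ∧ f v = some y)).card then
            g2 ^ (univ.filter (fun v => v ∉ W ∧ f v = some y)).card else 1)) ≤
      w (HEAVY_r W K f, HEAVY_S W K f) := by
    intro f
    have e1 : ∏ v, (if HEAVY_r W K f v = none then (1 : ℝ) else a * g1) =
        (a * g1) ^ (univ.filter (fun v => HEAVY_r W K f v ≠ none)).card := by
      rw [prod_ite, prod_const_one, one_mul, prod_const]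
    have e2 : ∏ y, (a * g1 * g2) ^ (HEAVY_S W K f y).card =
        (a * g1) ^ (∑ y, (HEAVY_S W K f y).card) * ∏ y, g2 ^ (HEAVY_S W K f y).card := by
      simp only [mul_pow (a * g1) g2]
      rw [prod_mul_distrib, prod_pow_eq_pow_sum]
    have e3 : w (HEAVY_r W K f, HEAVY_S W K f) =
        (a * g1) ^ (univ.filter (fun v => f v ≠ none)).card *
          ∏ y, g2 ^ (HEAVY_S W K f y).card := by
      show (∏ v, (if HEAVY_r W K f v = none then (1 : ℝ) else a * g1)) *
        ∏ y, (a * g1 * g2) ^ (HEAVY_S W K f y).card = _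
      rw [e1, e2, HEAVY_card W K f, pow_add]
      ring
    rw [e3, mul_pow, prod_mul_distrib, mul_assoc]
    refine mul_le_mul_of_nonneg_left ?_ (pow_nonneg ha _)
    refine mul_le_mul ?_ ?_ ?_ (pow_nonneg hg1 _)
    · rw [prod_pow_eq_pow_sum]
      refine pow_le_pow_right₀ h1 ?_
      rw [← card_biUnion]
      · refine card_le_card fun v hv => ?_
        rw [mem_biUnion] at hv
        obtain ⟨y, _, hy⟩ := hv
        rw [mem_filter] at hy ⊢
        exact ⟨mem_univ _, by rw [hy.2.2]; simp⟩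
      · intro y _ y' _ hyy
        rw [Function.onFun, Finset.disjoint_left]
        intro v hv hv'
        rw [mem_filter] at hv hv'
        rw [hv.2.2, Option.some.injEq] at hv'
        exact hyy hv'.2.2
    · refine le_of_eq ?_
      rw [← Finset.prod_subset (Finset.subset_univ W)]
      · refine prod_congr rfl fun y hy => ?_
        unfold HEAVY_S
        by_cases hK : K ≤ (univ.filter (fun v => v ∉ W ∧ f v = some y)).card
        · rw [if_pos hK, if_pos ⟨hy, hK⟩]
        · rw [if_neg hK, if_neg (fun h => hK h.2)]; simp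
      · intro y _ hy
        unfold HEAVY_S
        rw [if_neg (fun h => hy h.1)]; simp
    · refine prod_nonneg fun y _ => ?_
      split_ifs
      · exact pow_nonneg hg2 _
      · exact zero_le_one
  have hstep2 : ∑ f ∈ (univ : Finset (Fin n → Option (Fin n))).filter
        (fun f => ∀ v y, f v = some y → v ∈ U ∧ s(v, y) ∈ G),
        w (HEAVY_r W K f, HEAVY_S W K f) ≤
      ∑ z ∈ Fintype.piFinset T1 ×ˢ Fintype.piFinset T2, w z := by
    rw [← Finset.sum_image (f := w) (g := fun f => (HEAVY_r W K f, HEAVY_S W K f))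
      ((HEAVY_inj W K).injOn)]
    refine sum_le_sum_of_subset_of_nonneg ?_ fun z _ _ => hw0 z
    intro z hz'
    rw [mem_image] at hz'
    obtain ⟨f, hf, rfl⟩ := hz'
    rw [mem_filter] at hf
    rw [mem_product, Fintype.mem_piFinset, Fintype.mem_piFinset]
    constructor
    · intro v
      show HEAVY_r W K f v ∈ T1 v
      simp only [T1]
      cases h3 : HEAVY_r W K f v with
      | none => exact mem_insert_self _ _
      | some y =>
        have h4 : f v = some y := HEAVY_rec.2 (Or.inr h3)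
        exact mem_insert_of_mem (mem_image_of_mem _ (mem_filter.2 ⟨mem_univ _, (hf.2 v y h4).2⟩))
    · intro y
      show HEAVY_S W K f y ∈ T2 y
      simp only [T2, mem_filter, mem_univ, true_and]
      unfold HEAVY_S
      split_ifs with h3
      · exact Or.inr h3.2
      · exact Or.inl rfl
  have hstep3 : ∑ z ∈ Fintype.piFinset T1 ×ˢ Fintype.piFinset T2, w z =
      (∏ v, ∑ j ∈ T1 v, (if j = none then (1 : ℝ) else a * g1)) *
        ∏ y, ∑ S ∈ T2 y, (a * g1 * g2) ^ S.card := by
    rw [Finset.prod_univ_sum, Finset.prod_univ_sum, sum_product, sum_mul]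
    refine sum_congr rfl fun x _ => ?_
    rw [mul_sum]
  have hstep4 : ∏ v, ∑ j ∈ T1 v, (if j = none then (1 : ℝ) else a * g1) ≤
      Real.exp (a * g1 * (2 * G.card)) := by
    have e4 : ∀ v, ∑ j ∈ T1 v, (if j = none then (1 : ℝ) else a * g1) ≤
        Real.exp (a * g1 * dgr G v) := by
      intro v
      simp only [T1]
      rw [sum_insert (by simp), if_pos rfl]
      have e5 : ∀ j ∈ (univ.filter (fun y => s(v, y) ∈ G)).image some,
          (if j = none then (1 : ℝ) else a * g1) = a * g1 := by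
        intro j hj
        rw [mem_image] at hj
        obtain ⟨y, _, rfl⟩ := hj
        simp
      rw [sum_congr rfl e5, sum_const, card_image_of_injective _ (Option.some_injective _),
        nsmul_eq_mul]
      have := Real.add_one_le_exp (a * g1 * dgr G v)
      have e6 : ((univ.filter (fun y => s(v, y) ∈ G)).card : ℝ) = dgr G v := by
        unfold dgr; rfl
      rw [e6]
      linarith
    refine (prod_le_prod (fun v _ => ?_) fun v _ => e4 v).trans ?_
    · refine sum_nonneg fun j _ => ?_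
      split_ifs
      · exact zero_le_one
      · exact hag
    · rw [← Real.exp_sum, ← mul_sum]
      have := HEAVY_hand hG
      have h5 : (∑ v, (dgr G v : ℝ)) = 2 * G.card := by exact_mod_cast this
      rw [h5]
  have hstep5 : ∏ y : Fin n, ∑ S ∈ T2 y, (a * g1 * g2) ^ S.card ≤
      (1 + ∑ j ∈ range (n + 1), if K ≤ j then (n.choose j : ℝ) * (a * g1 * g2) ^ j else 0) ^ n := by
    have e7 : ∀ y : Fin n, ∑ S ∈ T2 y, (a * g1 * g2) ^ S.card ≤
        1 + ∑ j ∈ range (n + 1), if K ≤ j then (n.choose j : ℝ) * (a * g1 * g2) ^ j else 0 := by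
      intro y
      have hsub : T2 y ⊆ {∅} ∪ (univ : Finset (Finset (Fin n))).filter (fun S => K ≤ S.card) := by
        intro S hS
        simp only [T2, mem_filter, mem_univ, true_and] at hS
        rw [mem_union]
        rcases hS with hS | hS
        · left; rw [hS]; exact mem_singleton_self _
        · right; exact mem_filter.2 ⟨mem_univ _, hS⟩
      refine (sum_le_sum_of_subset_of_nonneg hsub fun S _ _ => pow_nonneg hz _).trans ?_
      have hui := Finset.sum_union_inter (f := fun S : Finset (Fin n) => (a * g1 * g2) ^ S.card)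
        (s₁ := {∅}) (s₂ := (univ : Finset (Finset (Fin n))).filter (fun S => K ≤ S.card))
      have hin : 0 ≤ ∑ S ∈ {∅} ∩ (univ : Finset (Finset (Fin n))).filter (fun S => K ≤ S.card),
          (a * g1 * g2) ^ S.card := sum_nonneg fun S _ => pow_nonneg hz _
      refine (show _ ≤ _ from by linarith : ∑ S ∈ {∅} ∪ (univ : Finset (Finset (Fin n))).filter
        (fun S => K ≤ S.card), (a * g1 * g2) ^ S.card ≤
        ∑ S ∈ ({∅} : Finset (Finset (Fin n))), (a * g1 * g2) ^ S.card +
        ∑ S ∈ (univ : Finset (Finset (Fin n))).filter (fun S => K ≤ S.card),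
          (a * g1 * g2) ^ S.card).trans ?_
      rw [sum_singleton, card_empty, pow_zero]
      refine add_le_add le_rfl (le_of_eq ?_)
      rw [sum_filter]
      have e8 := Finset.sum_powerset_apply_card
        (fun j => if K ≤ j then (a * g1 * g2) ^ j else 0) (x := (univ : Finset (Fin n)))
      rw [powerset_univ, card_univ, Fintype.card_fin] at e8
      rw [e8]
      refine sum_congr rfl fun j _ => ?_
      split_ifs
      · rw [nsmul_eq_mul]
      · simp
    refine (prod_le_prod (fun y _ => sum_nonneg fun S _ => pow_nonneg hz _)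
      fun y _ => e7 y).trans ?_
    rw [prod_const, card_univ, Fintype.card_fin]
  refine (sum_le_sum fun f _ => hstep1 f).trans (hstep2.trans ?_)
  rw [hstep3]
  exact mul_le_mul hstep4 hstep5 (prod_nonneg fun y _ => sum_nonneg fun S _ => pow_nonneg hz _)
    (Real.exp_nonneg _)

/-- numerical facts for large `n` -/
theorem HEAVY_num : ∀ᶠ n : ℕ in atTop,
    1 ≤ (n : ℝ) ∧
    (10001 / 10000 : ℝ) * (10001 / 10000) * (⌈(n : ℝ) ^ (3 / 4 : ℝ)⌉₊ : ℝ) *
      (20002 / 10000 * Real.log n) ≤ n / 2 ∧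
    (10001 / 10000 : ℝ) * tt ^ 2 * (20002 / 10000 * Real.log n) * 2 *
      (n : ℝ) ^ (5003 / 10000 : ℝ) ≤ (n : ℝ) ^ (2 / 3 : ℝ) ∧
    Real.exp 1 * 2 ≤ (n : ℝ) ^ (1 / 12 : ℝ) ∧
    ((n : ℝ) + 1) * (1 / 2) ^ ⌈(n : ℝ) ^ (3 / 4 : ℝ)⌉₊ ≤ 1 / (4 * 10 ^ 10) := by
  have hcast : Tendsto (fun n : ℕ => (n : ℝ)) atTop atTop := tendsto_natCast_atTop_atTop
  have hpow : ∀ s : ℝ, 0 < s → Tendsto (fun n : ℕ => (n : ℝ) ^ s) atTop atTop := fun s hs =>
    (tendsto_rpow_atTop hs).comp hcast
  have hlog : ∀ s : ℝ, 0 < s → ∀ c : ℝ, 0 < c →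
      ∀ᶠ n : ℕ in atTop, Real.log n ≤ c * (n : ℝ) ^ s := by
    intro s hs c hc
    have := (isLittleO_log_rpow_atTop hs).comp_tendsto hcast
    filter_upwards [this.bound hc, eventually_ge_atTop 1] with n hn hn1
    have h1 : (1 : ℝ) ≤ n := by exact_mod_cast hn1
    simp only [Function.comp_apply, Real.norm_eq_abs] at hn
    rw [abs_of_nonneg (Real.log_nonneg h1), abs_of_nonneg (by positivity)] at hn
    exact hn
  have htt : 0 < tt := Real.exp_pos _
  have c2 : 0 < 1 / ((10001 / 10000 : ℝ) * tt ^ 2 * (20002 / 10000) * 2) := by positivity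
  have hK : Tendsto (fun n : ℕ => ⌈(n : ℝ) ^ (3 / 4 : ℝ)⌉₊) atTop atTop :=
    tendsto_nat_ceil_atTop.comp (hpow (3 / 4) (by norm_num))
  have hsm : Tendsto (fun k : ℕ => ((k : ℝ) ^ 2 + 1) * (1 / 2 : ℝ) ^ k) atTop (nhds 0) := by
    have e1 := tendsto_pow_const_mul_const_pow_of_abs_lt_one 2 (r := (1 / 2 : ℝ))
      (by rw [abs_of_pos (by norm_num : (0 : ℝ) < 1 / 2)]; norm_num)
    have e2 := tendsto_pow_const_mul_const_pow_of_abs_lt_one 0 (r := (1 / 2 : ℝ))
      (by rw [abs_of_pos (by norm_num : (0 : ℝ) < 1 / 2)]; norm_num)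
    have e3 := e1.add e2
    simp only [pow_zero, one_mul, add_zero] at e3
    refine e3.congr fun k => ?_
    ring
  have hsm' := (hsm.comp hK).eventually_le_const (show (0 : ℝ) < 1 / (4 * 10 ^ 10) by norm_num)
  filter_upwards [eventually_ge_atTop 1, hlog (1 / 8) (by norm_num) (1 / 16) (by norm_num),
    hlog (1 / 10) (by norm_num) _ c2,
    (hpow (1 / 12) (by norm_num)).eventually_ge_atTop (Real.exp 1 * 2), hsm']
    with n hn1 hl1 hl2 h4 h5
  have h1 : (1 : ℝ) ≤ n := by exact_mod_cast hn1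
  have h0 : (0 : ℝ) < n := by linarith
  refine ⟨h1, ?_, ?_, h4, ?_⟩
  · have hc : (⌈(n : ℝ) ^ (3 / 4 : ℝ)⌉₊ : ℝ) ≤ 2 * (n : ℝ) ^ (3 / 4 : ℝ) := by
      have e1 := (Nat.ceil_lt_add_one (Real.rpow_nonneg h0.le (3 / 4))).le
      have e2 : 1 ≤ (n : ℝ) ^ (3 / 4 : ℝ) := Real.one_le_rpow h1 (by norm_num)
      linarith
    have e3 : (n : ℝ) ^ (3 / 4 : ℝ) * (n : ℝ) ^ (1 / 8 : ℝ) ≤ n := by
      rw [← Real.rpow_add h0]
      calc (n : ℝ) ^ ((3 / 4 : ℝ) + 1 / 8) ≤ (n : ℝ) ^ (1 : ℝ) :=
            Real.rpow_le_rpow_of_exponent_le h1 (by norm_num)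
        _ = n := Real.rpow_one _
    have hl0 : 0 ≤ Real.log n := Real.log_nonneg h1
    have e4 : (⌈(n : ℝ) ^ (3 / 4 : ℝ)⌉₊ : ℝ) * Real.log n ≤
        (2 * (n : ℝ) ^ (3 / 4 : ℝ)) * (1 / 16 * (n : ℝ) ^ (1 / 8 : ℝ)) :=
      mul_le_mul hc hl1 hl0 (by positivity)
    nlinarith
  · have e5 : Real.log n * (n : ℝ) ^ (5003 / 10000 : ℝ) ≤
        (1 / ((10001 / 10000 : ℝ) * tt ^ 2 * (20002 / 10000) * 2)) * (n : ℝ) ^ (2 / 3 : ℝ) := by
      calc Real.log n * (n : ℝ) ^ (5003 / 10000 : ℝ) ≤
          ((1 / ((10001 / 10000 : ℝ) * tt ^ 2 * (20002 / 10000) * 2)) * (n : ℝ) ^ (1 / 10 : ℝ)) *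
            (n : ℝ) ^ (5003 / 10000 : ℝ) :=
            mul_le_mul_of_nonneg_right hl2 (Real.rpow_nonneg h0.le _)
        _ = (1 / ((10001 / 10000 : ℝ) * tt ^ 2 * (20002 / 10000) * 2)) *
            ((n : ℝ) ^ (1 / 10 : ℝ) * (n : ℝ) ^ (5003 / 10000 : ℝ)) := by ring
        _ ≤ _ := by
            refine mul_le_mul_of_nonneg_left ?_ c2.le
            rw [← Real.rpow_add h0]
            exact Real.rpow_le_rpow_of_exponent_le h1 (by norm_num)
    have e6 : (10001 / 10000 : ℝ) * tt ^ 2 * (20002 / 10000 * Real.log n) * 2 *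
      (n : ℝ) ^ (5003 / 10000 : ℝ) = ((10001 / 10000 : ℝ) * tt ^ 2 * (20002 / 10000) * 2) *
        (Real.log n * (n : ℝ) ^ (5003 / 10000 : ℝ)) := by ring
    rw [e6]
    have c3 : 0 < (10001 / 10000 : ℝ) * tt ^ 2 * (20002 / 10000) * 2 := by positivity
    calc _ ≤ ((10001 / 10000 : ℝ) * tt ^ 2 * (20002 / 10000) * 2) *
          ((1 / ((10001 / 10000 : ℝ) * tt ^ 2 * (20002 / 10000) * 2)) * (n : ℝ) ^ (2 / 3 : ℝ)) :=
          mul_le_mul_of_nonneg_left e5 c3.le
      _ = _ := by
          rw [← mul_assoc, mul_one_div_cancel c3.ne', one_mul]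
  · simp only [Function.comp_apply] at h5
    refine le_trans ?_ h5
    refine mul_le_mul_of_nonneg_right ?_ (by positivity)
    have e7 : (n : ℝ) ≤ (⌈(n : ℝ) ^ (3 / 4 : ℝ)⌉₊ : ℝ) ^ 2 := by
      have e8 : (n : ℝ) ^ (3 / 4 : ℝ) ≤ (⌈(n : ℝ) ^ (3 / 4 : ℝ)⌉₊ : ℝ) := Nat.le_ceil _
      calc (n : ℝ) = (n : ℝ) ^ (1 : ℝ) := (Real.rpow_one _).symm
        _ ≤ (n : ℝ) ^ ((3 / 4 : ℝ) * 2) := Real.rpow_le_rpow_of_exponent_le h1 (by norm_num)
        _ = ((n : ℝ) ^ (3 / 4 : ℝ)) ^ 2 := by
            rw [Real.rpow_mul h0.le]; norm_num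
        _ ≤ _ := pow_le_pow_left₀ (Real.rpow_nonneg h0.le _) e8 2
    linarith

/-- `choose n j z^j` is small -/
theorem HEAVY_choose (n j : ℕ) (z : ℝ) (hz : 0 ≤ z) (hj : 0 < j)
    (h : Real.exp 1 * n * z ≤ j / 2) : (n.choose j : ℝ) * z ^ j ≤ (1 / 2) ^ j := by
  have h1 : (n.choose j : ℝ) ≤ (n : ℝ) ^ j / (j.factorial : ℝ) := Nat.choose_le_pow_div j n
  have h2 : (j : ℝ) ^ j / (j.factorial : ℝ) ≤ Real.exp j :=
    Real.pow_div_factorial_le_exp j (Nat.cast_nonneg j) j
  have hjp : (0 : ℝ) < j := by exact_mod_cast hj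
  have hf : (0 : ℝ) < j.factorial := by exact_mod_cast Nat.factorial_pos j
  have h3 : 1 / (j.factorial : ℝ) ≤ (Real.exp 1 / j) ^ j := by
    rw [div_pow, ← Real.exp_nat_mul, mul_one, div_le_div_iff₀ hf (by positivity), one_mul]
    rw [div_le_iff₀ hf] at h2
    exact h2
  calc (n.choose j : ℝ) * z ^ j ≤ ((n : ℝ) ^ j * (Real.exp 1 / j) ^ j) * z ^ j := by
        refine mul_le_mul_of_nonneg_right ?_ (pow_nonneg hz _)
        refine h1.trans ?_
        rw [div_eq_mul_one_div]
        exact mul_le_mul_of_nonneg_left h3 (by positivity)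
    _ = (Real.exp 1 * n * z / j) ^ j := by
        rw [← mul_pow, ← mul_pow]
        congr 1
        field_simp
    _ ≤ (1 / 2) ^ j := by
        refine pow_le_pow_left₀ (by positivity) ?_ j
        rw [div_le_iff₀ hjp]
        linarith

open Classical in
/-- Blueprint 3.4. -/
theorem heavy : ∀ᶠ n : ℕ in atTop, ∀ (B : Finset (Fin n)), Rng B →
    ∀ (U W : Finset (Fin n)) (G : Finset (Sym2 (Fin n))), W ⊆ U → G ⊆ prs U →
    (G.card : ℝ) ≤ epsP * n * B.card →
    psumR U W G (10001 / 10000 / B.card) tt (10001 / 10000) ≤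
      Real.exp (n / 10 ^ 10 * W.card) := by
  filter_upwards [rng_sizes, HEAVY_num] with n hrng hnum B hB U W G hWU hG hGc
  obtain ⟨hB1, _, _, hBn, _⟩ := hrng B hB
  obtain ⟨hn1, hK1, hz1, he1, hs1⟩ := hnum
  set K : ℕ := ⌈(n : ℝ) ^ (3 / 4 : ℝ)⌉₊ with hKdef
  have hn0 : (0 : ℝ) < n := by linarith
  have hBp : (0 : ℝ) < B.card := by exact_mod_cast hB1
  set r : ℝ := 10001 / 10000 / B.card with hr
  have hr0 : 0 < r := by positivity
  have htt : 1 ≤ tt := Real.one_le_exp (by norm_num)
  have htt0 : 0 < tt := by linarith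
  set a : ℝ := r * tt ^ 2 with ha
  have ha0 : 0 ≤ a := by positivity
  set g1 : ℝ := Real.exp (r * (10001 / 10000) * K) with hg1
  set g2 : ℝ := Real.exp (r * (10001 / 10000) * (n / 4)) with hg2
  have hg1' : 1 ≤ g1 := Real.one_le_exp (by positivity)
  have hg2' : 1 ≤ g2 := Real.one_le_exp (by positivity)
  have hrt : 0 ≤ r * (10001 / 10000) := by positivity
  -- pointwise bound
  have hpt : ∀ p ∈ pset U W G, (r * tt ^ 2) ^ (psz p) * (1 + r * (10001 / 10000)) ^ (cand W p) ≤
      ∏ x, (if x ∈ W then a ^ (univ.filter (fun v => p x v ≠ none)).card *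
        ∏ y ∈ W, (g1 ^ (univ.filter (fun v => v ∉ W ∧ p x v = some y)).card *
          (if K ≤ (univ.filter (fun v => v ∉ W ∧ p x v = some y)).card then
            g2 ^ (univ.filter (fun v => v ∉ W ∧ p x v = some y)).card else 1)) else 1) := by
    intro p hp
    have hpm := (mem_filter.1 hp).2.1
    rw [← Finset.prod_filter, Finset.filter_mem_eq_inter, univ_inter, prod_mul_distrib]
    refine mul_le_mul (le_of_eq ?_) ?_ (by positivity) (prod_nonneg fun x _ => by positivity)
    · rw [prod_pow_eq_pow_sum]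
      congr 1
      unfold psz
      have e1 : (univ.filter (fun q : Fin n × Fin n => p q.1 q.2 ≠ none)) =
          W.biUnion (fun x => (univ.filter (fun v => p x v ≠ none)).image (fun v => (x, v))) := by
        ext ⟨x, v⟩
        simp only [mem_filter, mem_univ, true_and, mem_biUnion, mem_image, Prod.mk.injEq]
        constructor
        · intro h
          obtain ⟨y, hy⟩ := Option.ne_none_iff_exists'.1 h
          exact ⟨x, (hpm x v y hy).1, v, h, rfl, rfl⟩
        · rintro ⟨x', _, v', h, rfl, rfl⟩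
          exact h
      rw [e1, card_biUnion]
      · refine sum_congr rfl fun x _ => ?_
        exact card_image_of_injective _ (fun v v' h => (Prod.mk.inj h).2)
      · intro x _ x' _ hxx
        rw [Function.onFun, Finset.disjoint_left]
        intro q hq hq'
        rw [mem_image] at hq hq'
        obtain ⟨v, _, rfl⟩ := hq
        obtain ⟨v', _, h⟩ := hq'
        exact hxx (Prod.mk.inj h).1.symm
    · have e2 : (1 + r * (10001 / 10000)) ^ (cand W p) ≤ Real.exp (r * (10001 / 10000) * cand W p) := by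
        have := Real.add_one_le_exp (r * (10001 / 10000))
        calc (1 + r * (10001 / 10000)) ^ (cand W p) ≤ (Real.exp (r * (10001 / 10000))) ^ (cand W p) :=
              pow_le_pow_left₀ (by positivity) (by linarith) _
          _ = _ := by rw [← Real.exp_nat_mul]; congr 1; ring
      refine e2.trans ?_
      have e3 : (cand W p : ℝ) ≤ ∑ x ∈ W, ∑ y ∈ W, ((K : ℝ) * cx W p x y +
        (if (K : ℝ) ≤ cx W p x y then (n : ℝ) / 4 * cx W p x y else 0)) :=
        cand_le hp K (Nat.cast_nonneg K)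
      have e4 : Real.exp (r * (10001 / 10000) * cand W p) ≤ Real.exp (∑ x ∈ W, ∑ y ∈ W,
          (r * (10001 / 10000)) * ((K : ℝ) * cx W p x y +
          (if (K : ℝ) ≤ cx W p x y then (n : ℝ) / 4 * cx W p x y else 0))) := by
        refine Real.exp_le_exp.2 ?_
        simp only [← mul_sum]
        exact mul_le_mul_of_nonneg_left e3 hrt
      refine e4.trans (le_of_eq ?_)
      rw [Real.exp_sum]
      refine prod_congr rfl fun x _ => ?_
      rw [Real.exp_sum]
      refine prod_congr rfl fun y _ => ?_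
      have e5 : (univ.filter (fun v => v ∉ W ∧ p x v = some y)).card = cx W p x y := by
        unfold cx; rfl
      rw [e5, mul_add, Real.exp_add]
      congr 1
      · rw [hg1, ← Real.exp_nat_mul]; congr 1; ring
      · by_cases hh : K ≤ cx W p x y
        · rw [if_pos hh, if_pos (by exact_mod_cast hh), hg2, ← Real.exp_nat_mul]; congr 1; ring
        · rw [if_neg hh, if_neg (by exact_mod_cast hh)]; simp
  -- sum over the product set
  let Fs : Finset (Fin n → Option (Fin n)) :=
    univ.filter (fun f => ∀ v y, f v = some y → v ∈ U ∧ s(v, y) ∈ G)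
  let Tt : Fin n → Finset (Fin n → Option (Fin n)) := fun x => if x ∈ W then Fs else {fun _ => none}
  let wt' : Fin n → (Fin n → Option (Fin n)) → ℝ := fun x f =>
    if x ∈ W then a ^ (univ.filter (fun v => f v ≠ none)).card *
        ∏ y ∈ W, (g1 ^ (univ.filter (fun v => v ∉ W ∧ f v = some y)).card *
          (if K ≤ (univ.filter (fun v => v ∉ W ∧ f v = some y)).card then
            g2 ^ (univ.filter (fun v => v ∉ W ∧ f v = some y)).card else 1)) else 1
  have hwt0 : ∀ x f, 0 ≤ wt' x f := by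
    intro x f
    simp only [wt']
    split_ifs
    · refine mul_nonneg (pow_nonneg ha0 _) (prod_nonneg fun y _ => ?_)
      refine mul_nonneg (by positivity) ?_
      split_ifs <;> positivity
    · exact zero_le_one
  have hsum : psumR U W G r tt (10001 / 10000) ≤ ∏ x, ∑ f ∈ Tt x, wt' x f := by
    rw [Finset.prod_univ_sum]
    unfold psumR
    refine (sum_le_sum hpt).trans ?_
    refine sum_le_sum_of_subset_of_nonneg (f := fun p : Pf n => ∏ x, wt' x (p x)) ?_
      fun p _ _ => prod_nonneg fun x _ => hwt0 x _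
    intro p hp
    have hpm := (mem_filter.1 hp).2.1
    rw [Fintype.mem_piFinset]
    intro x
    simp only [Tt]
    split_ifs with hx
    · exact mem_filter.2 ⟨mem_univ _, fun v y h => (hpm x v y h).2⟩
    · rw [mem_singleton]
      funext v
      cases h : p x v with
      | none => rfl
      | some y => exact absurd (hpm x v y h).1 hx
  refine hsum.trans ?_
  have hone := one_vertex U W G hG K a g1 g2 ha0 hg1' hg2'
  -- numerical bound of one factor
  have hnb : n / B.card ≤ 20002 / 10000 * Real.log n := by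
    rw [div_le_iff₀ hBp]
    linarith
  have hlog0 : 0 ≤ Real.log n := Real.log_nonneg hn1
  have hg1b : g1 ≤ 2 := by
    have e1 : r * (10001 / 10000) * K ≤ 1 / 2 := by
      have e2 : r * (10001 / 10000) * K = 10001 / 10000 * (10001 / 10000) * K * (n / B.card) / n := by
        rw [hr]; field_simp
      rw [e2, div_le_iff₀ hn0]
      have e3 : 10001 / 10000 * (10001 / 10000) * (K : ℝ) * (n / B.card) ≤
          10001 / 10000 * (10001 / 10000) * (K : ℝ) * (20002 / 10000 * Real.log n) :=
        mul_le_mul_of_nonneg_left hnb (by positivity)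
      linarith
    calc g1 ≤ Real.exp (1 / 2) := Real.exp_le_exp.2 e1
      _ ≤ 2 := by
        have := Real.exp_one_lt_d9
        have h3 : Real.exp (1 / 2) ^ 2 = Real.exp 1 := by
          rw [← Real.exp_nat_mul]; norm_num
        nlinarith [Real.exp_pos (1 / 2 : ℝ)]
  have hg2b : g2 ≤ (n : ℝ) ^ (5003 / 10000 : ℝ) := by
    rw [Real.rpow_def_of_pos hn0]
    refine Real.exp_le_exp.2 ?_
    have e2 : r * (10001 / 10000) * (n / 4) = 10001 / 10000 * (10001 / 10000) / 4 * (n / B.card) := by
      rw [hr]; field_simp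
    rw [e2]
    have e3 : 10001 / 10000 * (10001 / 10000) / 4 * (n / (B.card : ℝ)) ≤
        10001 / 10000 * (10001 / 10000) / 4 * (20002 / 10000 * Real.log n) :=
      mul_le_mul_of_nonneg_left hnb (by norm_num)
    nlinarith
  have ha1 : a * n ≤ 10001 / 10000 * tt ^ 2 * (20002 / 10000 * Real.log n) := by
    have e1 : a * n = 10001 / 10000 * tt ^ 2 * (n / B.card) := by
      rw [ha, hr]; field_simp
    rw [e1]
    exact mul_le_mul_of_nonneg_left hnb (by positivity)
  have hz : (a * g1 * g2) * n ≤ (n : ℝ) ^ (2 / 3 : ℝ) := by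
    calc (a * g1 * g2) * n = (a * n) * g1 * g2 := by ring
      _ ≤ (10001 / 10000 * tt ^ 2 * (20002 / 10000 * Real.log n)) * 2 *
          (n : ℝ) ^ (5003 / 10000 : ℝ) := by
          refine mul_le_mul (mul_le_mul ha1 hg1b (by positivity) (by positivity)) hg2b
            (by positivity) (by positivity)
      _ ≤ _ := hz1
  have hz0 : 0 ≤ a * g1 * g2 := by positivity
  have hKge : (n : ℝ) ^ (3 / 4 : ℝ) ≤ K := Nat.le_ceil _
  have hjbound : ∀ j : ℕ, K ≤ j → Real.exp 1 * n * (a * g1 * g2) ≤ j / 2 := by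
    intro j hj
    have hj' : (K : ℝ) ≤ j := by exact_mod_cast hj
    have e1 : Real.exp 1 * n * (a * g1 * g2) = Real.exp 1 * ((a * g1 * g2) * n) := by ring
    rw [e1]
    have e2 : Real.exp 1 * ((a * g1 * g2) * n) ≤ Real.exp 1 * (n : ℝ) ^ (2 / 3 : ℝ) :=
      mul_le_mul_of_nonneg_left hz (Real.exp_nonneg _)
    have e3 : Real.exp 1 * 2 * (n : ℝ) ^ (2 / 3 : ℝ) ≤ (n : ℝ) ^ (3 / 4 : ℝ) := by
      calc Real.exp 1 * 2 * (n : ℝ) ^ (2 / 3 : ℝ) ≤
          (n : ℝ) ^ (1 / 12 : ℝ) * (n : ℝ) ^ (2 / 3 : ℝ) :=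
            mul_le_mul_of_nonneg_right he1 (by positivity)
        _ = (n : ℝ) ^ (3 / 4 : ℝ) := by
            rw [← Real.rpow_add hn0]; norm_num
    linarith
  have hKpos : 0 < K := by
    have : 0 < (n : ℝ) ^ (3 / 4 : ℝ) := Real.rpow_pos_of_pos hn0 _
    have h2 : (0 : ℝ) < K := lt_of_lt_of_le this hKge
    exact_mod_cast h2
  have hser : ∑ j ∈ range (n + 1), (if K ≤ j then (n.choose j : ℝ) * (a * g1 * g2) ^ j else 0) ≤
      1 / (4 * 10 ^ 10) := by
    refine le_trans ?_ hs1
    have e1 : ∀ j ∈ range (n + 1), (if K ≤ j then (n.choose j : ℝ) * (a * g1 * g2) ^ j else 0) ≤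
        (1 / 2) ^ K := by
      intro j _
      split_ifs with hj
      · refine (HEAVY_choose n j _ hz0 (lt_of_lt_of_le hKpos hj) (hjbound j hj)).trans ?_
        exact pow_le_pow_of_le_one (by norm_num) (by norm_num) hj
      · positivity
    refine (sum_le_sum e1).trans ?_
    rw [sum_const, card_range, nsmul_eq_mul]
    push_cast
    exact le_rfl
  have hXi : ∑ f ∈ Fs, (a ^ (univ.filter (fun v => f v ≠ none)).card *
        ∏ y ∈ W, (g1 ^ (univ.filter (fun v => v ∉ W ∧ f v = some y)).card *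
          (if K ≤ (univ.filter (fun v => v ∉ W ∧ f v = some y)).card then
            g2 ^ (univ.filter (fun v => v ∉ W ∧ f v = some y)).card else 1))) ≤
      Real.exp (n / 10 ^ 10) := by
    refine hone.trans ?_
    have e1 : a * g1 * (2 * G.card) ≤ n / (4 * 10 ^ 10) := by
      have e2 : a * g1 * (2 * G.card) ≤ a * 2 * (2 * (epsP * n * B.card)) :=
        mul_le_mul (mul_le_mul_of_nonneg_left hg1b ha0)
          (mul_le_mul_of_nonneg_left hGc (by norm_num)) (by positivity) (by positivity)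
      refine e2.trans ?_
      have e3 : a * 2 * (2 * (epsP * n * B.card)) = 4 * (10001 / 10000) * (tt ^ 2 * epsP) * n := by
        rw [ha, hr]; field_simp; ring
      rw [e3]
      have e4 : tt ^ 2 * epsP = Real.exp (-360000) := by
        unfold tt epsP
        rw [← Real.exp_nat_mul, ← Real.exp_add]
        norm_num
      rw [e4]
      have e5 : (8 * 10 ^ 11 : ℝ) ≤ Real.exp 360000 := by
        have e6 : Real.exp 360000 = (Real.exp 90000) ^ 4 := by
          rw [← Real.exp_nat_mul]; norm_num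
        rw [e6]
        have e7 : (90001 : ℝ) ≤ Real.exp 90000 := by
          have := Real.add_one_le_exp (90000 : ℝ)
          linarith
        calc (8 * 10 ^ 11 : ℝ) ≤ 90001 ^ 4 := by norm_num
          _ ≤ _ := pow_le_pow_left₀ (by norm_num) e7 4
      have e8 : Real.exp (-360000) ≤ 1 / (8 * 10 ^ 11) := by
        rw [Real.exp_neg, ← one_div]
        exact one_div_le_one_div_of_le (by norm_num) e5
      nlinarith
    have e9 : (1 + ∑ j ∈ range (n + 1), if K ≤ j then (n.choose j : ℝ) * (a * g1 * g2) ^ j else 0) ^ n ≤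
        Real.exp (n / (4 * 10 ^ 10)) := by
      have e10 := Real.add_one_le_exp (1 / (4 * 10 ^ 10) : ℝ)
      have e11 : 0 ≤ ∑ j ∈ range (n + 1),
          (if K ≤ j then (n.choose j : ℝ) * (a * g1 * g2) ^ j else 0) := by
        refine sum_nonneg fun j _ => ?_
        split_ifs <;> positivity
      calc _ ≤ (Real.exp (1 / (4 * 10 ^ 10) : ℝ)) ^ n :=
            pow_le_pow_left₀ (by linarith) (by linarith) n
        _ = _ := by rw [← Real.exp_nat_mul]; congr 1; ring
    calc _ ≤ Real.exp (n / (4 * 10 ^ 10)) * Real.exp (n / (4 * 10 ^ 10)) :=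
          mul_le_mul (Real.exp_le_exp.2 e1) e9 (pow_nonneg (by
            refine add_nonneg zero_le_one (sum_nonneg fun j _ => ?_)
            split_ifs <;> positivity) n) (Real.exp_nonneg _)
      _ = Real.exp (n / (4 * 10 ^ 10) + n / (4 * 10 ^ 10)) := (Real.exp_add _ _).symm
      _ ≤ _ := by
          refine Real.exp_le_exp.2 ?_
          have : (0 : ℝ) ≤ n / 10 ^ 10 := by positivity
          have e12 : (n : ℝ) / (4 * 10 ^ 10) = (n / 10 ^ 10) / 4 := by ring
          rw [e12]
          linarith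
  have hprod : ∏ x, ∑ f ∈ Tt x, wt' x f ≤ ∏ x ∈ W, Real.exp (n / 10 ^ 10) := by
    rw [← Finset.prod_subset (Finset.subset_univ W)]
    · refine prod_le_prod (fun x _ => sum_nonneg fun f _ => hwt0 x f) fun x hx => ?_
      simp only [Tt, wt', if_pos hx]
      exact hXi
    · intro x _ hx
      simp only [Tt, wt', if_neg hx, sum_singleton]
  refine hprod.trans (le_of_eq ?_)
  rw [prod_const, ← Real.exp_nat_mul]
  congr 1
  ring

end PSys
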