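import Mathlib
import Pool.Agent.PSys.Spec
import Pool.Agent.PSys.FG
import Pool.Agent.PSys.Heavy

/-! Module BADV (blueprint 3.5). -/

open Finset Filter

namespace PSys

open Classical in
/-- number of vertices of degree at least `floor (B.card / 25000)` -/
noncomputable def bign {n : ℕ} (B : Finset (Fin n)) (G : Finset (Sym2 (Fin n))) : ℕ :=
  (univ.filter (fun x => ⌊(B.card : ℝ) / 25000⌋₊ ≤ dgr G x)).card

open Classical in
/-- number of vertices of degree at least `n / 16000` -/
noncomputable def mn {n : ℕ} (G : Finset (Sym2 (Fin n))) : ℕ :=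
  (univ.filter (fun x => (n : ℝ) / 16000 ≤ dgr G x)).card

theorem badv_two (n : ℕ) : (1 + Real.exp (-(18 * (n : ℝ)))) ^ n ≤ 2 := by
  have h1 : (1 + Real.exp (-(18 * (n : ℝ)))) ^ n ≤ Real.exp (Real.exp (-(18 * (n : ℝ))) * n) := by
    have h2 : 1 + Real.exp (-(18 * (n : ℝ))) ≤ Real.exp (Real.exp (-(18 * (n : ℝ)))) := by
      have := Real.add_one_le_exp (Real.exp (-(18 * (n : ℝ))))
      linarith
    calc (1 + Real.exp (-(18 * (n : ℝ)))) ^ n ≤ (Real.exp (Real.exp (-(18 * (n : ℝ))))) ^ n :=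
          pow_le_pow_left₀ (by positivity) h2 n
      _ = Real.exp (Real.exp (-(18 * (n : ℝ))) * n) := by
          rw [← Real.exp_nat_mul, mul_comm]
  refine h1.trans ?_
  have h3 : Real.exp (-(18 * (n : ℝ))) * n ≤ 1 / 18 := by
    rw [Real.exp_neg]
    have h4 := Real.add_one_le_exp (18 * (n : ℝ))
    have h5 := Real.exp_pos (18 * (n : ℝ))
    rw [inv_mul_le_iff₀ h5]
    linarith
  have h6 : (1 : ℝ) / 18 ≤ Real.log 2 := by
    have := Real.log_two_gt_d9
    linarith
  calc Real.exp (Real.exp (-(18 * (n : ℝ))) * n) ≤ Real.exp (Real.log 2) :=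
        Real.exp_le_exp.2 (h3.trans h6)
    _ = 2 := Real.exp_log (by norm_num)

theorem badv_theta {b : ℝ} (hb : 0 < b) (L : ℕ) (hL : (L : ℝ) ≤ b / 25000) :
    (1 + 10001 / 10000 / b * (10001 / 10000)) ^ (2 * L) ≤ (10001 / 10000 : ℝ) := by
  have h0 : (0 : ℝ) ≤ 10001 / 10000 / b * (10001 / 10000) := by positivity
  have h1 : (1 + 10001 / 10000 / b * (10001 / 10000)) ^ (2 * L) ≤
      Real.exp ((2 * L : ℕ) * (10001 / 10000 / b * (10001 / 10000))) := by
    rw [Real.exp_nat_mul]
    refine pow_le_pow_left₀ (by positivity) ?_ _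
    have := Real.add_one_le_exp (10001 / 10000 / b * (10001 / 10000))
    linarith
  refine h1.trans ?_
  have h2 : ((2 * L : ℕ) : ℝ) * (10001 / 10000 / b * (10001 / 10000)) ≤ 8.002e-5 := by
    push_cast
    have h3 : 2 * (L : ℝ) * (10001 / 10000 / b * (10001 / 10000)) ≤
        2 * (b / 25000) * (10001 / 10000 / b * (10001 / 10000)) := by
      refine mul_le_mul_of_nonneg_right ?_ h0
      linarith
    refine h3.trans ?_
    have h4 : 2 * (b / 25000) * (10001 / 10000 / b * (10001 / 10000)) =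
        2 / 25000 * (10001 / 10000) * (10001 / 10000) := by
      field_simp
    rw [h4]
    norm_num
  refine (Real.exp_le_exp.2 h2).trans ?_
  have h5 := Real.add_one_le_exp (-(8.002e-5 : ℝ))
  rw [Real.exp_neg] at h5
  have h6 := Real.exp_pos (8.002e-5 : ℝ)
  rw [le_inv_comm₀ (by norm_num) h6] at h5
  refine h5.trans ?_
  norm_num

open Classical in
theorem badv_dgr_out {n : ℕ} {U : Finset (Fin n)} {G : Finset (Sym2 (Fin n))} (hG : G ⊆ prs U)
    {x : Fin n} (hx : x ∉ U) : dgr G x = 0 := by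
  unfold dgr
  rw [card_eq_zero, filter_eq_empty_iff]
  intro y _ hy
  have := hG hy
  rw [mem_prs] at this
  exact hx this.2.1

theorem badv_fD_sub {n : ℕ} {U : Finset (Fin n)} {Q : Sys n} (hQ : IsFam U Q) : fD Q ⊆ prs U := by
  intro e he
  induction e with
  | _ u v =>
    rw [mem_fD hQ] at he
    rw [mem_prs]
    exact ⟨he.1, hQ.left_mem he.2, hQ.right_mem he.2⟩

open Classical in
theorem badv_dgr_le {n : ℕ} (D G : Finset (Sym2 (Fin n))) (x : Fin n) :
    dgr D x ≤ dgr G x + dgr (D \ G) x := by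
  unfold dgr
  refine le_trans (card_le_card ?_) (card_union_le _ _)
  intro y hy
  rw [mem_filter] at hy
  rw [mem_union, mem_filter, mem_filter, Finset.mem_sdiff]
  by_cases h : s(x, y) ∈ G
  · exact Or.inl ⟨mem_univ _, h⟩
  · exact Or.inr ⟨mem_univ _, hy.2, h⟩

open Classical in
/-- the pointwise bound -/
theorem badv_point {n : ℕ} {B : Finset (Fin n)} {Q : Sys n} {G : Finset (Sym2 (Fin n))}
    (hGc : (⌊(B.card : ℝ) / 25000⌋₊ : ℝ) ≤ (n : ℝ) / 16000) (Big Bad : Finset (Fin n))
    (hBig : Big = univ.filter (fun x => ⌊(B.card : ℝ) / 25000⌋₊ ≤ dgr G x))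
    (hBad : Bad = univ.filter (fun u => (n : ℝ) / 8000 ≤ dgr (fD Q) u)) :
    Real.exp (n * badn Q) ≤ Real.exp (n * mn G) * Real.exp (-(19 * n * ((Bad \ Big).card : ℝ))) *
      tt ^ (∑ x ∈ Big ∪ (Bad \ Big), dgr (fD Q \ G) x) := by
  set Mn := univ.filter (fun x => (n : ℝ) / 16000 ≤ dgr G x) with hMn
  have e1 : badn Q = Bad.card := by rw [hBad]; rfl
  have e2 : mn G = Mn.card := rfl
  have hMB : Mn ⊆ Big := by
    intro x hx
    rw [hMn, mem_filter] at hx
    rw [hBig, mem_filter]
    refine ⟨mem_univ _, ?_⟩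
    have := hGc.trans hx.2
    exact_mod_cast this
  have h1 : Bad.card ≤ Mn.card + (Bad \ Mn).card := by
    have := card_le_card_sdiff_add_card (s := Bad) (t := Mn)
    omega
  have h2 : (Bad \ Big).card ≤ (Bad \ Mn).card := card_le_card (sdiff_subset_sdiff le_rfl hMB)
  -- for x in Bad \ Mn
  have h3 : ∀ x ∈ Bad \ Mn, (n : ℝ) / 16000 ≤ dgr (fD Q \ G) x := by
    intro x hx
    rw [Finset.mem_sdiff, hBad, hMn, mem_filter, mem_filter] at hx
    obtain ⟨⟨_, h4⟩, h5⟩ := hx
    have h6 : ¬ ((n : ℝ) / 16000 ≤ dgr G x) := fun h => h5 ⟨mem_univ _, h⟩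
    have h7 : (dgr (fD Q) x : ℝ) ≤ dgr G x + dgr (fD Q \ G) x := by
      exact_mod_cast badv_dgr_le (fD Q) G x
    push Not at h6
    linarith
  have h4 : (20 : ℝ) * n * (Bad \ Mn).card ≤
      320000 * (∑ x ∈ Big ∪ (Bad \ Big), dgr (fD Q \ G) x : ℕ) := by
    have h5 : ∑ x ∈ Bad \ Mn, (n : ℝ) / 16000 ≤ ∑ x ∈ Bad \ Mn, (dgr (fD Q \ G) x : ℝ) :=
      sum_le_sum h3
    rw [sum_const, nsmul_eq_mul] at h5
    have h6 : ∑ x ∈ Bad \ Mn, (dgr (fD Q \ G) x : ℝ) ≤
        ∑ x ∈ Big ∪ (Bad \ Big), (dgr (fD Q \ G) x : ℝ) := by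
      apply sum_le_sum_of_subset_of_nonneg
      · intro x hx
        rw [Finset.mem_sdiff] at hx
        rw [mem_union, Finset.mem_sdiff]
        by_cases h7 : x ∈ Big
        · exact Or.inl h7
        · exact Or.inr ⟨hx.1, h7⟩
      · intro x _ _
        exact Nat.cast_nonneg _
    push_cast
    linarith
  have h5 : (tt : ℝ) ^ (∑ x ∈ Big ∪ (Bad \ Big), dgr (fD Q \ G) x) =
      Real.exp (320000 * (∑ x ∈ Big ∪ (Bad \ Big), dgr (fD Q \ G) x : ℕ)) := by
    unfold tt
    rw [← Real.exp_nat_mul, mul_comm]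
  rw [h5, e1, e2, ← Real.exp_add, ← Real.exp_add]
  apply Real.exp_le_exp.2
  have h6 : (Bad.card : ℝ) ≤ Mn.card + (Bad \ Mn).card := by exact_mod_cast h1
  have h7 : ((Bad \ Big).card : ℝ) ≤ (Bad \ Mn).card := by exact_mod_cast h2
  have hn : (0 : ℝ) ≤ n := Nat.cast_nonneg n
  have h8 : (n : ℝ) * Bad.card ≤ n * (Mn.card + (Bad \ Mn).card) :=
    mul_le_mul_of_nonneg_left h6 hn
  have h9 : (n : ℝ) * (Bad \ Big).card ≤ n * (Bad \ Mn).card :=
    mul_le_mul_of_nonneg_left h7 hn
  linarith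

open Classical in
/-- Blueprint 3.5. -/
theorem badv : ∀ᶠ n : ℕ in atTop, ∀ (B : Finset (Fin n)), Rng B →
    ∀ (G : Finset (Sym2 (Fin n))), G ⊆ prs Bᶜ → (G.card : ℝ) ≤ epsP * n * B.card →
    ∑ Q ∈ (fams Bᶜ).filter (fun Q => fG Q = G),
      ((10001 : ℝ) / 10000 / B.card) ^ (fD Q \ G).card * Real.exp (n * badn Q) ≤
    2 * (1 + 10001 / 10000 / B.card * (10001 / 10000)) ^ (cher G) *
      Real.exp (n / 10 ^ 10 * bign B G) * Real.exp (n * mn G) := by
  have hlog : ∀ᶠ n : ℕ in atTop, Real.log n ≤ (1 / 100000 : ℝ) * (n : ℝ) ^ (1 : ℝ) := by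
    have h := (isLittleO_log_rpow_atTop (r := 1) one_pos).bound
      (c := 1 / 100000) (by norm_num)
    have h2 := (tendsto_natCast_atTop_atTop (R := ℝ)).eventually h
    filter_upwards [h2] with n h3
    have h5 : 0 ≤ (n : ℝ) ^ (1 : ℝ) := by positivity
    rw [Real.norm_of_nonneg (Real.log_natCast_nonneg n), Real.norm_of_nonneg h5] at h3
    exact h3
  filter_upwards [heavy, rng_sizes, hlog, eventually_ge_atTop 2] with n hheavy hrng hlog hn2
    B hB G hG hGe
  have hn0 : (0 : ℝ) < n := by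
    have : 0 < n := by omega
    exact_mod_cast this
  have hn1 : (1 : ℝ) ≤ n := by
    have : 1 ≤ n := by omega
    exact_mod_cast this
  obtain ⟨r1, r2, r3, r4, r5⟩ := hrng B hB
  rw [Real.rpow_one] at hlog
  have hb0 : (0 : ℝ) < B.card := by exact_mod_cast r1
  -- B is large
  have hb25 : (25000 : ℝ) ≤ B.card := by
    by_contra hcon
    push Not at hcon
    have hl0 : 0 ≤ Real.log n := Real.log_natCast_nonneg n
    have h1 : (B.card : ℝ) * (20002 / 10000 * Real.log n) ≤
        25000 * (20002 / 10000 * Real.log n) :=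
      mul_le_mul_of_nonneg_right hcon.le (by positivity)
    have h2 : 25000 * (20002 / 10000 * Real.log n) < n := by
      have : 25000 * (20002 / 10000 * Real.log n) ≤
        25000 * (20002 / 10000 * (1 / 100000 * n)) := by
        have := mul_le_mul_of_nonneg_left hlog (show (0 : ℝ) ≤ 25000 * (20002 / 10000) by norm_num)
        linarith
      linarith
    linarith
  have hbn : (B.card : ℝ) ≤ n := by
    have : (0 : ℝ) ≤ (Bᶜ.card : ℝ) := Nat.cast_nonneg _
    linarith
  set L := ⌊(B.card : ℝ) / 25000⌋₊ with hLdef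
  have hL1 : 1 ≤ L := by
    apply Nat.le_floor
    rw [Nat.cast_one, le_div_iff₀ (by norm_num)]
    linarith
  have hL2 : (L : ℝ) ≤ (B.card : ℝ) / 25000 := Nat.floor_le (by positivity)
  have hL3 : (L : ℝ) ≤ (n : ℝ) / 16000 := by linarith
  set U := Bᶜ with hU
  set Big := univ.filter (fun x => L ≤ dgr G x) with hBig
  have hBigc : bign B G = Big.card := rfl
  have hBigU : Big ⊆ U := by
    intro x hx
    by_contra hxU
    rw [hBig, mem_filter, badv_dgr_out hG hxU] at hx
    omega
  set r : ℝ := (10001 : ℝ) / 10000 / B.card with hr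
  have hr0 : 0 ≤ r := by positivity
  set Bad : Sys n → Finset (Fin n) :=
    fun Q => univ.filter (fun u => (n : ℝ) / 8000 ≤ dgr (fD Q) u) with hBad
  have hmaps : ∀ Q ∈ (fams U).filter (fun Q => fG Q = G), Bad Q \ Big ∈ (U \ Big).powerset := by
    intro Q hQ
    rw [mem_filter, mem_fams] at hQ
    rw [mem_powerset]
    refine sdiff_subset_sdiff ?_ le_rfl
    intro x hx
    by_contra hxU
    simp only [hBad, mem_filter, badv_dgr_out (badv_fD_sub hQ.1) hxU] at hx
    have h2 := hx.2
    rw [Nat.cast_zero] at h2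
    have : (0 : ℝ) < n / 8000 := by positivity
    linarith
  rw [← sum_fiberwise_of_maps_to hmaps]
  have hstep : ∀ W ∈ (U \ Big).powerset,
      ∑ Q ∈ ((fams U).filter (fun Q => fG Q = G)).filter (fun Q => Bad Q \ Big = W),
        r ^ (fD Q \ G).card * Real.exp (n * badn Q) ≤
      (Real.exp (n * mn G) * (1 + r * (10001 / 10000)) ^ (cher G) *
        Real.exp (n / 10 ^ 10 * bign B G)) * (Real.exp (-(18 * n)) ^ W.card) := by
    intro W hW
    rw [mem_powerset] at hW
    have hWU : Big ∪ W ⊆ U := union_subset hBigU (hW.trans sdiff_subset)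
    have hFG := FG U (Big ∪ W) hWU G hG L r tt (10001 / 10000) hr0
      (by unfold tt; exact Real.one_le_exp (by norm_num)) (by norm_num)
      (badv_theta hb0 L hL2)
      (by
        intro x _ hx
        by_contra hcon
        push Not at hcon
        apply hx
        rw [mem_union]
        left
        rw [hBig, mem_filter]
        exact ⟨mem_univ _, hcon.le⟩)
    have hH := hheavy B hB U (Big ∪ W) G hWU hG hGe
    rw [← hr] at hH
    have h1 : ∑ Q ∈ ((fams U).filter (fun Q => fG Q = G)).filter (fun Q => Bad Q \ Big = W),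
        r ^ (fD Q \ G).card * Real.exp (n * badn Q) ≤
        ∑ Q ∈ ((fams U).filter (fun Q => fG Q = G)).filter (fun Q => Bad Q \ Big = W),
        (Real.exp (n * mn G) * Real.exp (-(19 * n * (W.card : ℝ)))) *
          (r ^ (fD Q \ G).card * tt ^ (∑ x ∈ Big ∪ W, dgr (fD Q \ G) x)) := by
      apply sum_le_sum
      intro Q hQ
      rw [mem_filter] at hQ
      have hp := badv_point (B := B) (Q := Q) (G := G) hL3 Big (Bad Q) rfl rfl
      rw [hQ.2] at hp
      have h3 : 0 ≤ r ^ (fD Q \ G).card := by positivity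
      have h4 := mul_le_mul_of_nonneg_left hp h3
      refine h4.trans (le_of_eq ?_)
      ring
    refine h1.trans ?_
    rw [← mul_sum]
    have h2 : ∑ Q ∈ ((fams U).filter (fun Q => fG Q = G)).filter (fun Q => Bad Q \ Big = W),
        (r ^ (fD Q \ G).card * tt ^ (∑ x ∈ Big ∪ W, dgr (fD Q \ G) x)) ≤
        (1 + r * (10001 / 10000)) ^ (cher G) * Real.exp (n / 10 ^ 10 * (Big ∪ W).card) := by
      refine le_trans (sum_le_sum_of_subset_of_nonneg (filter_subset _ _) ?_) ?_
      · intro Q _ _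
        have : 0 ≤ tt := (Real.exp_pos _).le
        positivity
      · refine hFG.trans ?_
        exact mul_le_mul_of_nonneg_left hH (by positivity)
    have h3 : Real.exp (n / 10 ^ 10 * (Big ∪ W).card) ≤
        Real.exp (n / 10 ^ 10 * bign B G) * Real.exp (n * W.card) := by
      rw [← Real.exp_add]
      apply Real.exp_le_exp.2
      have h4 : ((Big ∪ W).card : ℝ) ≤ Big.card + W.card := by exact_mod_cast card_union_le _ _
      rw [hBigc]
      have h5 : (n : ℝ) / 10 ^ 10 * (Big ∪ W).card ≤ n / 10 ^ 10 * (Big.card + W.card) :=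
        mul_le_mul_of_nonneg_left h4 (by positivity)
      have h6 : (n : ℝ) / 10 ^ 10 * W.card ≤ n * W.card := by
        refine mul_le_mul_of_nonneg_right ?_ (Nat.cast_nonneg _)
        exact div_le_self hn0.le (by norm_num)
      linarith
    have h7 : Real.exp (-(19 * n * (W.card : ℝ))) * Real.exp (n * W.card) =
        Real.exp (-(18 * n)) ^ W.card := by
      rw [← Real.exp_add, ← Real.exp_nat_mul]
      congr 1
      ring
    calc Real.exp (n * mn G) * Real.exp (-(19 * n * (W.card : ℝ))) * _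
        ≤ Real.exp (n * mn G) * Real.exp (-(19 * n * (W.card : ℝ))) *
          ((1 + r * (10001 / 10000)) ^ (cher G) *
            (Real.exp (n / 10 ^ 10 * bign B G) * Real.exp (n * W.card))) := by
          refine mul_le_mul_of_nonneg_left (h2.trans ?_) (by positivity)
          exact mul_le_mul_of_nonneg_left h3 (by positivity)
      _ = (Real.exp (n * mn G) * (1 + r * (10001 / 10000)) ^ (cher G) *
          Real.exp (n / 10 ^ 10 * bign B G)) *
          (Real.exp (-(19 * n * (W.card : ℝ))) * Real.exp (n * W.card)) := by ring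
      _ = _ := by rw [h7]
  refine (sum_le_sum hstep).trans ?_
  rw [← mul_sum]
  have hsum : ∑ W ∈ (U \ Big).powerset, Real.exp (-(18 * (n : ℝ))) ^ W.card ≤ 2 := by
    have h1 := sum_pow_mul_eq_add_pow (Real.exp (-(18 * (n : ℝ)))) 1 (U \ Big)
    simp only [one_pow, mul_one] at h1
    rw [h1]
    have h2 : (U \ Big).card ≤ n := by
      have := card_le_univ (U \ Big)
      rwa [Fintype.card_fin] at this
    refine le_trans ?_ (badv_two n)
    rw [add_comm]
    refine pow_le_pow_right₀ ?_ h2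
    have := Real.exp_pos (-(18 * (n : ℝ)))
    linarith
  refine (mul_le_mul_of_nonneg_left hsum (by positivity)).trans (le_of_eq ?_)
  ring

end PSys
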