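import Mathlib
import Pool.Agent.PSys.Spec

/-! Definitions for Stage 1 (blueprint part 1). -/

open Finset

namespace PSys

open Classical in
/-- children of `y` in the tree of the paths from `x` -/
noncomputable def chd {n : ℕ} (P : Sys n) (x y : Fin n) : Finset (Fin n) :=
  univ.filter (fun v => v ≠ x ∧ hop P v x = y)

open Classical in
/-- heavy parents: the parent of `v` in the tree from `x`, if `x v` is not direct and the parent
has at least `τ` children -/
noncomputable def hpf {n : ℕ} (P : Sys n) (τ : ℕ) (x v : Fin n) : Option (Fin n) :=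
  if v ≠ x ∧ ¬ Dir P x v ∧ τ ≤ (chd P x (hop P v x)).card then some (hop P v x) else none

/-- `v ∈ W_x` -/
def Wx {n : ℕ} (G : Finset (Sym2 (Fin n))) (hp : Fin n → Fin n → Option (Fin n)) (x v : Fin n) :
    Prop := x ≠ v ∧ (s(x, v) ∈ G ∨ hp x v ≠ none)

open Classical in
/-- the pairs of `H` -/
noncomputable def Hs {n : ℕ} (G : Finset (Sym2 (Fin n))) (hp : Fin n → Fin n → Option (Fin n)) :
    Finset (Sym2 (Fin n)) := univ.filter (fun e => ∃ x v, e = s(x, v) ∧ Wx G hp x v)

open Classical in
/-- options for a pair outside `H` -/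
noncomputable def opt {n : ℕ} (G : Finset (Sym2 (Fin n))) (hp : Fin n → Fin n → Option (Fin n))
    (e : Sym2 (Fin n)) : Finset (Fin n) :=
  univ.filter (fun z => ∃ u v, e = s(u, v) ∧ s(z, u) ∈ G ∧ Wx G hp z v)

open Classical in
/-- `|W_x|` -/
noncomputable def fx {n : ℕ} (G : Finset (Sym2 (Fin n))) (hp : Fin n → Fin n → Option (Fin n))
    (x : Fin n) : ℕ := (univ.filter (fun v => Wx G hp x v)).card

/-- sum of the numbers of options -/
noncomputable def Om {n : ℕ} (G : Finset (Sym2 (Fin n))) (hp : Fin n → Fin n → Option (Fin n)) :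
    ℕ := ∑ e ∈ prs univ \ Hs G hp, (opt G hp e).card

/-- label of the pair `u v`: an interior vertex of the path, or `none` if the pair is light -/
noncomputable def labf {n : ℕ} (P : Sys n) (τ : ℕ) (u v : Fin n) : Option (Fin n) :=
  if hop P u v = hop P v u then some (hop P u v)
  else if τ ≤ (chd P (hop P u v) (hop P v u)).card then some (hop P u v)
  else if τ ≤ (chd P (hop P v u) (hop P u v)).card then some (hop P v u) else none

open Classical in
/-- elements of the light pairs: `(x, v, r)`, `x = hop u v`, `r` = rank of `u` among the children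
of `x` in the tree from `hop v x` -/
def IsEl {n : ℕ} (P : Sys n) (τ : ℕ) (i : Fin n × Fin n × ℕ) : Prop :=
  ∃ u, u < i.2.1 ∧ s(u, i.2.1) ∉ Hs (fG P) (hpf P τ) ∧ labf P τ u i.2.1 = none ∧
    i.1 = hop P u i.2.1 ∧ i.2.2 = ((chd P (hop P i.2.1 i.1) i.1).filter (fun w => w < u)).card

/-- `floor (n / (log n)^3)` -/
noncomputable def tau (n : ℕ) : ℕ := ⌊(n : ℝ) / (Real.log n) ^ 3⌋₊

/-- `floor (2 (log n)^3)` -/
noncomputable def kk (n : ℕ) : ℕ := ⌊2 * (Real.log n) ^ 3⌋₊

/-- `(log n)^2 / n` -/
noncomputable def rho1 (n : ℕ) : ℝ := (Real.log n) ^ 2 / n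

/-- `N (log b0 - 1)` with `N = choose n 2` -/
noncomputable def Target (n : ℕ) : ℝ := (n.choose 2 : ℝ) * (Real.log (b0 n) - 1)

end PSys
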