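import Mathlib
import Pool.Agent.PSys.Spec1

/-! Module BASE (blueprint 3.8): the base systems. -/

open Finset Filter

namespace PSys

open Classical in
/-- The base system of an assignment: `f` labels the leaf pairs by a hub or `none` (direct), `g`
labels the hub pairs by a leaf or `none` (direct), all hub-leaf pairs are direct. -/
noncomputable def baseSys {n : ℕ} (B : Finset (Fin n)) (f : Lb n) : Sys n :=
  fun u v => if u = v then [u] else
    match f s(u, v) with
    | none => [u, v]
    | some z => if Same B u v then [u, z, v] else [u, v]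

theorem BASE_self {n : ℕ} (B : Finset (Fin n)) (f : Lb n) (u : Fin n) :
    baseSys B f u u = [u] := by
  simp [baseSys]

theorem BASE_dir {n : ℕ} (B : Finset (Fin n)) (f : Lb n) {u v : Fin n} (h : u ≠ v)
    (h' : f s(u, v) = none ∨ ¬ Same B u v) : baseSys B f u v = [u, v] := by
  unfold baseSys
  rw [if_neg h]
  rcases h' with h' | h'
  · rw [h']
  · cases f s(u, v) with
    | none => rfl
    | some z => simp only [if_neg h']

theorem BASE_std {n : ℕ} (B : Finset (Fin n)) (f : Lb n) {u v z : Fin n} (h : u ≠ v)
    (h' : f s(u, v) = some z) (h'' : Same B u v) : baseSys B f u v = [u, z, v] := by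
  unfold baseSys
  rw [if_neg h, h']
  simp only [if_pos h'']

theorem BASE_cases {n : ℕ} (B : Finset (Fin n)) (f : Lb n) {u v : Fin n} (h : u ≠ v) :
    (baseSys B f u v = [u, v]) ∨
      ∃ z, f s(u, v) = some z ∧ Same B u v ∧ baseSys B f u v = [u, z, v] := by
  cases h1 : f s(u, v) with
  | none => exact Or.inl (BASE_dir B f h (Or.inl h1))
  | some z =>
    by_cases h2 : Same B u v
    · exact Or.inr ⟨z, rfl, h2, BASE_std B f h h1 h2⟩
    · exact Or.inl (BASE_dir B f h (Or.inr h2))

theorem BASE_Same_symm {n : ℕ} {B : Finset (Fin n)} {u v : Fin n} (h : Same B u v) :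
    Same B v u := h.symm

/-- it is consistent if the labels of the leaf pairs are hubs and those of the hub pairs leaves -/
theorem baseSys_cps {n : ℕ} (B : Finset (Fin n)) (f : Lb n)
    (hf : ∀ u v z, u ≠ v → Same B u v → f s(u, v) = some z → ¬ Same B u z) :
    IsCPS (baseSys B f) := by
  refine ⟨BASE_self B f, ?_, ?_, ?_, ?_, ?_⟩
  · intro u v
    by_cases h : u = v
    · subst h; rw [BASE_self]; rfl
    · rcases BASE_cases B f h with h1 | ⟨z, -, -, h1⟩ <;> rw [h1] <;> rfl
  · intro u v
    by_cases h : u = v
    · subst h; rw [BASE_self]; rfl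
    · rcases BASE_cases B f h with h1 | ⟨z, -, -, h1⟩ <;> rw [h1] <;> rfl
  · intro u v
    by_cases h : u = v
    · subst h; rw [BASE_self]; simp
    · rcases BASE_cases B f h with h1 | ⟨z, h2, h3, h1⟩
      · rw [h1]; simp [h]
      · rw [h1]
        have h4 := hf u v z h h3 h2
        have h5 : u ≠ z := by
          rintro rfl
          exact h4 Iff.rfl
        have h6 : z ≠ v := by
          rintro rfl
          exact h4 h3
        simp [h, h5, h6]
  · intro u v
    by_cases h : u = v
    · subst h; rw [BASE_self]; rfl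
    · rcases BASE_cases B f h with h1 | ⟨z, h2, h3, h1⟩
      · have h2 : baseSys B f v u = [v, u] := by
          rcases BASE_cases B f (Ne.symm h) with h2 | ⟨z, h3, h4, h5⟩
          · exact h2
          · rw [Sym2.eq_swap] at h3
            rw [BASE_std B f h h3 (BASE_Same_symm h4)] at h1
            simp at h1
        rw [h1, h2]; rfl
      · rw [h1, BASE_std B f (Ne.symm h) (by rw [Sym2.eq_swap]; exact h2) (BASE_Same_symm h3)]
        rfl
  · intro u v a ha
    by_cases h : u = v
    · subst h
      rw [BASE_self] at ha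
      simp at ha
      subst ha
      rw [BASE_self]; rfl
    · by_cases hau : a = u
      · subst hau
        rw [BASE_self]
        rcases BASE_cases B f h with h1 | ⟨z, -, -, h1⟩ <;> rw [h1] <;> rfl
      · by_cases hav : a = v
        · subst hav
          rw [BASE_self]
          simp
        · rcases BASE_cases B f h with h1 | ⟨z, h2, h3, h1⟩
          · rw [h1] at ha
            simp [hau, hav] at ha
          · rw [h1] at ha
            simp [hau, hav] at ha
            subst ha
            have h4 := hf u v a h h3 h2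
            rw [h1, BASE_dir B f (Ne.symm hau) (Or.inr h4),
              BASE_dir B f hav (Or.inr (fun h5 => h4 (h3.trans h5.symm)))]
            rfl

open Classical in
/-- options of a pair -/
noncomputable def BASE_opt {n : ℕ} (B : Finset (Fin n)) (e : Sym2 (Fin n)) :
    Finset (Option (Fin n)) :=
  if e ∈ prs Bᶜ then insert none (B.image some)
  else if e ∈ prs B then insert none (Bᶜ.image some) else {none}

open Classical in
/-- the assignments -/
noncomputable def BASE_asg {n : ℕ} (B : Finset (Fin n)) : Finset (Lb n) :=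
  Fintype.piFinset (BASE_opt B)

theorem BASE_card_opt {n : ℕ} (B : Finset (Fin n)) (e : Sym2 (Fin n)) :
    (BASE_opt B e).card = (if e ∈ prs Bᶜ then 1 + B.card else 1) *
      (if e ∈ prs B then 1 + Bᶜ.card else 1) := by
  classical
  have hs : ∀ C : Finset (Fin n), (insert none (C.image some)).card = 1 + C.card := by
    intro C
    rw [card_insert_of_notMem (by simp), card_image_of_injective _ (Option.some_injective _),
      add_comm]
  have hd : e ∈ prs Bᶜ → e ∉ prs B := by
    induction e with
    | _ u v =>
      rw [mem_prs, mem_prs]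
      rintro ⟨-, h1, -⟩ ⟨-, h2, -⟩
      exact (mem_compl.1 h1) h2
  unfold BASE_opt
  by_cases h1 : e ∈ prs Bᶜ
  · rw [if_pos h1, if_pos h1, if_neg (hd h1), hs, mul_one]
  · rw [if_neg h1, if_neg h1, one_mul]
    by_cases h2 : e ∈ prs B
    · rw [if_pos h2, if_pos h2, hs]
    · rw [if_neg h2, if_neg h2]; rfl

theorem BASE_card_asg {n : ℕ} (B : Finset (Fin n)) :
    ((BASE_asg B).card : ℝ) = baseN B := by
  classical
  unfold BASE_asg baseN
  rw [Fintype.card_piFinset]
  simp only [BASE_card_opt]
  rw [prod_mul_distrib, prod_ite, prod_ite]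
  simp only [prod_const]
  have h1 : (univ.filter (fun e : Sym2 (Fin n) => e ∈ prs Bᶜ)) = prs Bᶜ := by
    ext e; simp
  have h2 : (univ.filter (fun e : Sym2 (Fin n) => e ∈ prs B)) = prs B := by
    ext e; simp
  rw [h1, h2, card_prs, card_prs, one_pow, one_pow, mul_one, mul_one]
  push_cast
  rfl

theorem BASE_mem_asg {n : ℕ} {B : Finset (Fin n)} {f : Lb n} (hf : f ∈ BASE_asg B)
    {u v z : Fin n} (h : f s(u, v) = some z) : u ≠ v ∧ Same B u v ∧ ¬ Same B u z := by
  classical
  have h1 := Fintype.mem_piFinset.1 hf s(u, v)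
  rw [h] at h1
  unfold BASE_opt at h1
  by_cases h2 : s(u, v) ∈ prs Bᶜ
  · rw [if_pos h2] at h1
    simp at h1
    rw [mem_prs] at h2
    obtain ⟨h3, h4, h5⟩ := h2
    rw [mem_compl] at h4 h5
    refine ⟨h3, ⟨fun h => absurd h h4, fun h => absurd h h5⟩, fun h => h4 (h.2 h1)⟩
  · rw [if_neg h2] at h1
    by_cases h3 : s(u, v) ∈ prs B
    · rw [if_pos h3] at h1
      simp at h1
      rw [mem_prs] at h3
      obtain ⟨h3, h4, h5⟩ := h3
      exact ⟨h3, ⟨fun _ => h5, fun _ => h4⟩, fun h => h1 (h.1 h4)⟩
    · rw [if_neg h3] at h1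
      simp at h1

theorem BASE_cps {n : ℕ} {B : Finset (Fin n)} {f : Lb n} (hf : f ∈ BASE_asg B) :
    baseSys B f ∈ cps n :=
  mem_cps.2 (baseSys_cps B f fun _ _ _ _ _ h => (BASE_mem_asg hf h).2.2)

theorem BASE_inj {n : ℕ} {B : Finset (Fin n)} {f g : Lb n} (hf : f ∈ BASE_asg B)
    (hg : g ∈ BASE_asg B) (h : baseSys B f = baseSys B g) : f = g := by
  funext e
  induction e with
  | _ u v =>
    have h1 : baseSys B f u v = baseSys B g u v := by rw [h]
    cases h2 : f s(u, v) with
    | some z =>
      obtain ⟨h3, h4, h5⟩ := BASE_mem_asg hf h2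
      rw [BASE_std B f h3 h2 h4] at h1
      cases h6 : g s(u, v) with
      | some z' =>
        rw [BASE_std B g h3 h6 h4] at h1
        simp at h1
        rw [h1]
      | none =>
        rw [BASE_dir B g h3 (Or.inl h6)] at h1
        simp at h1
    | none =>
      cases h6 : g s(u, v) with
      | none => rfl
      | some z =>
        obtain ⟨h3, h4, h5⟩ := BASE_mem_asg hg h6
        rw [BASE_std B g h3 h6 h4, BASE_dir B f h3 (Or.inl h2)] at h1
        simp at h1

/-- Blueprint 3.8: all hub-leaf pairs direct, leaf pairs direct or via a hub, hub pairs direct or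
via a leaf. -/
theorem base_le {n : ℕ} (B : Finset (Fin n)) : baseN B ≤ (cps n).card := by
  rw [← BASE_card_asg]
  exact_mod_cast card_le_card_of_injOn (baseSys B) (fun f hf => BASE_cps hf)
    (fun f hf g hg h => BASE_inj hf hg h)

end PSys
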