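import Mathlib
import Pool.Agent.PSys.Spec1
import Pool.Agent.PSys.Base
import Pool.Agent.PSys.GoodB

/-! Module BASESUM (blueprint 3.8): the base systems of different hub sets. -/

open Finset Filter

namespace PSys

open Classical in
/-- the leaves `v ≠ a` with a direct pair `a v` -/
noncomputable def BASESUM_fr {n : ℕ} (B : Finset (Fin n)) (f : Lb n) (a : Fin n) :
    Finset (Fin n) := Bᶜ.filter (fun v => v ≠ a ∧ f s(a, v) = none)

open Classical in
/-- good assignments -/
noncomputable def BASESUM_gd {n : ℕ} (B : Finset (Fin n)) : Finset (Lb n) :=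
  (BASE_asg B).filter (fun f => ∀ a ∈ Bᶜ, 3 * (BASESUM_fr B f a).card < n)

open Classical in
/-- assignments with prescribed direct pairs -/
theorem BASESUM_pre {n : ℕ} (B : Finset (Fin n)) (a : Fin n) (ha : a ∈ Bᶜ) (S : Finset (Fin n))
    (hS : S ⊆ Bᶜ) (haS : a ∉ S) :
    (((BASE_asg B).filter (fun f => ∀ v ∈ S, f s(a, v) = none)).card : ℝ) *
      (1 + B.card : ℝ) ^ S.card = baseN B := by
  let T : Finset (Sym2 (Fin n)) := S.image (fun v => s(a, v))
  have hT : T.card = S.card := by
    refine card_image_of_injOn ?_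
    intro v hv w hw h
    rcases Sym2.eq_iff.1 h with ⟨-, h⟩ | ⟨h1, h2⟩
    · exact h
    · rw [← h1, h2]
  have h1 : (BASE_asg B).filter (fun f => ∀ v ∈ S, f s(a, v) = none) =
      Fintype.piFinset (fun e => if e ∈ T then ({none} : Finset (Option (Fin n))) else BASE_opt B e) := by
    ext f
    simp only [BASE_asg, mem_filter, Fintype.mem_piFinset]
    constructor
    · rintro ⟨h1, h2⟩ e
      by_cases he : e ∈ T
      · rw [if_pos he]
        obtain ⟨v, hv, rfl⟩ := mem_image.1 he
        simp [h2 v hv]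
      · rw [if_neg he]
        exact h1 e
    · intro h
      refine ⟨fun e => ?_, fun v hv => ?_⟩
      · have h2 := h e
        by_cases he : e ∈ T
        · rw [if_pos he] at h2
          rw [mem_singleton] at h2
          rw [h2]
          unfold BASE_opt
          split_ifs <;> simp
        · rw [if_neg he] at h2
          exact h2
      · have h2 := h s(a, v)
        rw [if_pos (mem_image.2 ⟨v, hv, rfl⟩)] at h2
        simpa using h2
  have h2 : ∀ e ∈ T, (BASE_opt B e).card = 1 + B.card := by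
    intro e he
    obtain ⟨v, hv, rfl⟩ := mem_image.1 he
    have hvB := mem_compl.1 (hS hv)
    have haB := mem_compl.1 ha
    have hav : a ≠ v := by
      rintro rfl
      exact haS hv
    rw [BASE_card_opt, if_pos, if_neg, mul_one]
    · rw [mem_prs]
      rintro ⟨-, h, -⟩
      exact haB h
    · rw [mem_prs]
      exact ⟨hav, ha, hS hv⟩
  rw [h1, Fintype.card_piFinset, ← BASE_card_asg]
  unfold BASE_asg
  rw [Fintype.card_piFinset]
  have h3 : (1 + B.card : ℝ) ^ S.card = ((∏ e ∈ T, (BASE_opt B e).card : ℕ) : ℝ) := by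
    rw [prod_congr rfl h2, prod_const, hT]
    push_cast
    rfl
  rw [h3]
  norm_cast
  rw [← prod_mul_prod_compl T, ← prod_mul_prod_compl T (fun e => (BASE_opt B e).card)]
  have h4 : ∏ i ∈ T, (if i ∈ T then ({none} : Finset (Option (Fin n))) else BASE_opt B i).card = 1 := by
    refine prod_eq_one fun i hi => ?_
    rw [if_pos hi]; rfl
  have h5 : ∏ i ∈ Tᶜ, (if i ∈ T then ({none} : Finset (Option (Fin n))) else BASE_opt B i).card =
      ∏ i ∈ Tᶜ, (BASE_opt B i).card := by
    refine prod_congr rfl fun i hi => ?_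
    rw [if_neg (mem_compl.1 hi)]
  rw [h4, h5, one_mul, mul_comm]

open Classical in
theorem BASESUM_half {n : ℕ} (B : Finset (Fin n)) (hB : (64 : ℝ) ≤ 1 + B.card)
    (hn : (n : ℝ) * 2 ^ n ≤ 4 ^ n / 2) :
    baseN B ≤ 2 * (BASESUM_gd B).card := by
  have hB1 : (1 : ℝ) ≤ 1 + B.card := by linarith
  have hN : 0 ≤ baseN B := by
    unfold baseN; positivity
  -- each prescribed set is small
  have h1 : ∀ a ∈ Bᶜ, ∀ S ∈ (univ : Finset (Finset (Fin n))).filter
      (fun S => S ⊆ Bᶜ ∧ a ∉ S ∧ n ≤ 3 * S.card),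
      (((BASE_asg B).filter (fun f => ∀ v ∈ S, f s(a, v) = none)).card : ℝ) ≤
        baseN B / 4 ^ n := by
    intro a ha S hS
    obtain ⟨-, hS1, hS2, hS3⟩ := mem_filter.1 hS
    have h2 := BASESUM_pre B a ha S hS1 hS2
    rw [le_div_iff₀ (by positivity), ← h2]
    refine mul_le_mul_of_nonneg_left ?_ (Nat.cast_nonneg _)
    calc (4 : ℝ) ^ n ≤ 4 ^ (3 * S.card) := pow_le_pow_right₀ (by norm_num) hS3
      _ = 64 ^ S.card := by rw [pow_mul]; norm_num
      _ ≤ (1 + B.card : ℝ) ^ S.card := pow_le_pow_left₀ (by norm_num) hB _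
  have h2 : (BASE_asg B) ⊆ BASESUM_gd B ∪ (Bᶜ.biUnion fun a =>
      ((univ : Finset (Finset (Fin n))).filter (fun S => S ⊆ Bᶜ ∧ a ∉ S ∧ n ≤ 3 * S.card)).biUnion
        fun S => (BASE_asg B).filter (fun f => ∀ v ∈ S, f s(a, v) = none)) := by
    intro f hf
    rw [mem_union]
    by_cases h : ∀ a ∈ Bᶜ, 3 * (BASESUM_fr B f a).card < n
    · exact Or.inl (mem_filter.2 ⟨hf, h⟩)
    · right
      push Not at h
      obtain ⟨a, ha, h3⟩ := h
      rw [mem_biUnion]
      refine ⟨a, ha, ?_⟩
      rw [mem_biUnion]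
      refine ⟨BASESUM_fr B f a, mem_filter.2 ⟨mem_univ _, filter_subset _ _, ?_, h3⟩,
        mem_filter.2 ⟨hf, ?_⟩⟩
      · unfold BASESUM_fr
        simp
      · intro v hv
        exact (mem_filter.1 hv).2.2
  have h3 : ((BASE_asg B).card : ℝ) ≤ (BASESUM_gd B).card + n * (2 ^ n * (baseN B / 4 ^ n)) := by
    have h4 := card_le_card h2
    have h5 := h4.trans (card_union_le _ _)
    have h6 : (((Bᶜ.biUnion fun a =>
      ((univ : Finset (Finset (Fin n))).filter (fun S => S ⊆ Bᶜ ∧ a ∉ S ∧ n ≤ 3 * S.card)).biUnion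
        fun S => (BASE_asg B).filter (fun f => ∀ v ∈ S, f s(a, v) = none)).card : ℕ) : ℝ) ≤
        n * (2 ^ n * (baseN B / 4 ^ n)) := by
      have h7 : (((Bᶜ.biUnion fun a =>
        ((univ : Finset (Finset (Fin n))).filter (fun S => S ⊆ Bᶜ ∧ a ∉ S ∧ n ≤ 3 * S.card)).biUnion
        fun S => (BASE_asg B).filter (fun f => ∀ v ∈ S, f s(a, v) = none)).card : ℕ) : ℝ) ≤
        ∑ a ∈ Bᶜ, (((((univ : Finset (Finset (Fin n))).filter
          (fun S => S ⊆ Bᶜ ∧ a ∉ S ∧ n ≤ 3 * S.card)).biUnion
        fun S => (BASE_asg B).filter (fun f => ∀ v ∈ S, f s(a, v) = none)).card : ℕ) : ℝ) := by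
        exact_mod_cast card_biUnion_le
      refine h7.trans ?_
      have h8 : ∀ a ∈ Bᶜ, (((((univ : Finset (Finset (Fin n))).filter
          (fun S => S ⊆ Bᶜ ∧ a ∉ S ∧ n ≤ 3 * S.card)).biUnion
        fun S => (BASE_asg B).filter (fun f => ∀ v ∈ S, f s(a, v) = none)).card : ℕ) : ℝ) ≤
          2 ^ n * (baseN B / 4 ^ n) := by
        intro a ha
        have h9 : (((((univ : Finset (Finset (Fin n))).filter
          (fun S => S ⊆ Bᶜ ∧ a ∉ S ∧ n ≤ 3 * S.card)).biUnion
          fun S => (BASE_asg B).filter (fun f => ∀ v ∈ S, f s(a, v) = none)).card : ℕ) : ℝ) ≤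
          ∑ S ∈ (univ : Finset (Finset (Fin n))).filter
          (fun S => S ⊆ Bᶜ ∧ a ∉ S ∧ n ≤ 3 * S.card),
          (((BASE_asg B).filter (fun f => ∀ v ∈ S, f s(a, v) = none)).card : ℝ) := by
          exact_mod_cast card_biUnion_le
        refine h9.trans ((sum_le_sum (h1 a ha)).trans ?_)
        rw [sum_const, nsmul_eq_mul]
        refine mul_le_mul_of_nonneg_right ?_ (by positivity)
        have h10 : ((univ : Finset (Finset (Fin n))).filter
          (fun S => S ⊆ Bᶜ ∧ a ∉ S ∧ n ≤ 3 * S.card)).card ≤ 2 ^ n := by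
          refine (card_filter_le _ _).trans ?_
          simp
        exact_mod_cast h10
      refine (sum_le_sum h8).trans ?_
      rw [sum_const, nsmul_eq_mul]
      refine mul_le_mul_of_nonneg_right ?_ (by positivity)
      have h11 : Bᶜ.card ≤ n := by
        have := card_le_univ Bᶜ
        simpa using this
      exact_mod_cast h11
    have h7 : ((BASE_asg B).card : ℝ) ≤ (BASESUM_gd B).card + (((Bᶜ.biUnion fun a =>
      ((univ : Finset (Finset (Fin n))).filter (fun S => S ⊆ Bᶜ ∧ a ∉ S ∧ n ≤ 3 * S.card)).biUnion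
        fun S => (BASE_asg B).filter (fun f => ∀ v ∈ S, f s(a, v) = none)).card : ℕ) : ℝ) := by
      exact_mod_cast h5
    linarith
  rw [BASE_card_asg] at h3
  have h4 : (n : ℝ) * (2 ^ n * (baseN B / 4 ^ n)) ≤ baseN B / 2 := by
    have h5 : (n : ℝ) * (2 ^ n * (baseN B / 4 ^ n)) = (n * 2 ^ n) * (baseN B / 4 ^ n) := by ring
    rw [h5]
    calc (n * 2 ^ n) * (baseN B / 4 ^ n) ≤ (4 ^ n / 2) * (baseN B / 4 ^ n) :=
          mul_le_mul_of_nonneg_right hn (by positivity)
      _ = baseN B / 2 := by field_simp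
  linarith

open Classical in
theorem BASESUM_det {n : ℕ} (B : Finset (Fin n)) (h1 : 2 * Bᶜ.card ≥ n) (h2 : 6 * B.card < n)
    (f : Lb n) (hf : f ∈ BASESUM_gd B) :
    B = univ.filter (fun x => n ≤ 2 * (univ.filter (fun y => Dir (baseSys B f) x y)).card) := by
  obtain ⟨hf1, hf2⟩ := mem_filter.1 hf
  ext x
  rw [mem_filter]
  constructor
  · intro hx
    refine ⟨mem_univ _, h1.trans (Nat.mul_le_mul_left 2 (card_le_card ?_))⟩
    intro y hy
    rw [mem_filter]
    have hxy : x ≠ y := by
      rintro rfl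
      exact (mem_compl.1 hy) hx
    refine ⟨mem_univ _, hxy, BASE_dir B f hxy (Or.inr fun h => (mem_compl.1 hy) (h.1 hx))⟩
  · rintro ⟨-, h3⟩
    by_contra hx
    have hx' : x ∈ Bᶜ := mem_compl.2 hx
    have h4 := hf2 x hx'
    have h5 : (univ.filter (fun y => Dir (baseSys B f) x y)) ⊆ B ∪ BASESUM_fr B f x := by
      intro y hy
      obtain ⟨-, hxy, hy2⟩ := mem_filter.1 hy
      rw [mem_union]
      by_cases hyB : y ∈ B
      · exact Or.inl hyB
      · right
        refine mem_filter.2 ⟨mem_compl.2 hyB, hxy.symm, ?_⟩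
        cases h6 : f s(x, y) with
        | none => rfl
        | some z =>
          obtain ⟨h7, h8, -⟩ := BASE_mem_asg hf1 h6
          rw [BASE_std B f h7 h6 h8] at hy2
          simp at hy2
    have h6 := (card_le_card h5).trans (card_union_le _ _)
    omega

open Classical in
/-- Blueprint 3.8: for large `n` at least half of the base systems of `B` have less than `n/3`
direct leaf pairs at every leaf; these determine `B` as the set of vertices of degree `≥ n/2`. -/
theorem base_sum : ∀ᶠ n : ℕ in atTop,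
    ∑ B ∈ (univ : Finset (Finset (Fin n))).filter (fun B => Rng B), baseN B ≤ 2 * (cps n).card := by
  have hl : ∀ᶠ n : ℕ in atTop, (100 : ℝ) ≤ Real.log n :=
    (Real.tendsto_log_atTop.comp tendsto_natCast_atTop_atTop).eventually_ge_atTop 100
  have hb : ∀ᶠ n : ℕ in atTop, (64 : ℝ) * (20002 / 10000 * Real.log n) ≤ n := by
    have h1 : Tendsto (fun n : ℕ => Real.log (n : ℝ) / (n : ℝ)) atTop (nhds 0) := by
      have h2 := Real.isLittleO_log_id_atTop.tendsto_div_nhds_zero
      exact h2.comp tendsto_natCast_atTop_atTop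
    have h3 := h1.eventually (gt_mem_nhds (show (0 : ℝ) < 1 / 200 by norm_num))
    filter_upwards [h3, eventually_gt_atTop 0] with n hn hn0
    have hn0' : (0 : ℝ) < n := by exact_mod_cast hn0
    rw [div_lt_iff₀ hn0'] at hn
    linarith
  filter_upwards [rng_sizes, hl, hb, eventually_ge_atTop 3] with n hsz hln hbn hn3
  have hn : (n : ℝ) * 2 ^ n ≤ 4 ^ n / 2 := by
    have h1 : ∀ m : ℕ, 3 ≤ m → 2 * m ≤ 2 ^ m := by
      intro m hm
      induction m, hm using Nat.le_induction with
      | base => norm_num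
      | succ m hm ih =>
        rw [pow_succ]
        omega
    have h2 : (2 * n : ℝ) ≤ 2 ^ n := by exact_mod_cast h1 n hn3
    have h3 : (4 : ℝ) ^ n = 2 ^ n * 2 ^ n := by
      rw [← mul_pow]; norm_num
    rw [h3]
    have h4 : (0 : ℝ) < 2 ^ n := by positivity
    nlinarith
  have hsum : ∑ B ∈ (univ : Finset (Finset (Fin n))).filter (fun B => Rng B), baseN B ≤
      ∑ B ∈ (univ : Finset (Finset (Fin n))).filter (fun B => Rng B),
        2 * ((BASESUM_gd B).card : ℝ) := by
    refine sum_le_sum fun B hB => BASESUM_half B ?_ hn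
    obtain ⟨h1, h2, h3, h4, h5⟩ := hsz B (mem_filter.1 hB).2
    have h6 : 0 < 20002 / 10000 * Real.log n := by linarith
    have h7 : (64 : ℝ) * (20002 / 10000 * Real.log n) ≤ B.card * (20002 / 10000 * Real.log n) :=
      hbn.trans h4
    have h8 := le_of_mul_le_mul_right h7 h6
    linarith
  refine hsum.trans ?_
  rw [← mul_sum]
  refine mul_le_mul_of_nonneg_left ?_ (by norm_num)
  have hcard : ∑ B ∈ (univ : Finset (Finset (Fin n))).filter (fun B => Rng B),
      (BASESUM_gd B).card ≤ (cps n).card := by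
    rw [← card_sigma]
    refine card_le_card_of_injOn (fun p => baseSys p.1 p.2) ?_ ?_
    · intro p hp
      rw [mem_coe, mem_sigma] at hp
      exact BASE_cps (mem_filter.1 hp.2).1
    · rintro ⟨B, f⟩ hp ⟨B', f'⟩ hp' h
      rw [mem_coe, mem_sigma] at hp hp'
      obtain ⟨hp1, hp2⟩ := hp
      obtain ⟨hp1', hp2'⟩ := hp'
      simp only at hp1 hp2 hp1' hp2' h
      have key : ∀ C : Finset (Fin n), Rng C → 2 * Cᶜ.card ≥ n ∧ 6 * C.card < n := by
        intro C hC
        obtain ⟨h1, h2, h3, h4, h5⟩ := hsz C hC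
        constructor
        · have : (n : ℝ) ≤ 2 * Cᶜ.card := by
            have : (0 : ℝ) ≤ n := Nat.cast_nonneg _
            linarith
          exact_mod_cast this
        · have h6 : (C.card : ℝ) * 100 ≤ n := by
            have h7 : (C.card : ℝ) * 100 ≤ C.card * (19998 / 10000 * Real.log n) :=
              mul_le_mul_of_nonneg_left (by linarith) (Nat.cast_nonneg _)
            linarith
          have h7 : C.card * 100 ≤ n := by exact_mod_cast h6
          omega
      obtain ⟨k1, k2⟩ := key B (mem_filter.1 hp1).2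
      obtain ⟨k1', k2'⟩ := key B' (mem_filter.1 hp1').2
      have e1 := BASESUM_det B k1 k2 f hp2
      have e2 := BASESUM_det B' k1' k2' f' hp2'
      rw [h] at e1
      have e3 : B = B' := e1.trans e2.symm
      subst e3
      have e4 := BASE_inj (mem_filter.1 hp2).1 (mem_filter.1 hp2').1 h
      rw [e4]
  exact_mod_cast hcard

end PSys
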