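import Mathlib

/-! Module LC (blueprint 2.4): abstract label count. -/

open Finset

namespace PSys

/-- product formula for sums over subsets, grouped by the value of `r` -/
theorem LC_part {α β : Type*} [DecidableEq β] (r : α → β) (g : β → Finset α → ℝ) (B : Finset β) :
    ∀ K : Finset α, (∀ x ∈ K, r x ∈ B) →
    ∑ X ∈ K.powerset, ∏ s ∈ B, g s (X.filter (fun x => r x = s)) =
    ∏ s ∈ B, ∑ Y ∈ (K.filter (fun x => r x = s)).powerset, g s Y := by
  classical
  induction B using Finset.induction_on with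
  | empty =>
    intro K hK
    have : K = ∅ := by
      apply Finset.eq_empty_of_forall_notMem
      intro x hx; simpa using hK x hx
    subst this
    simp
  | insert s B hs ih =>
    intro K hK
    rw [Finset.prod_insert hs]
    have h1 : ∀ t ∈ B, K.filter (fun x => r x = t) =
        (K.filter (fun x => r x ≠ s)).filter (fun x => r x = t) := by
      intro t ht
      ext x; simp only [mem_filter]
      constructor
      · rintro ⟨h1, h2⟩
        exact ⟨⟨h1, fun h => hs (by rw [← h, h2]; exact ht)⟩, h2⟩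
      · rintro ⟨⟨h1, _⟩, h2⟩
        exact ⟨h1, h2⟩
    rw [Finset.prod_congr rfl (fun t ht => by rw [h1 t ht] :
      ∀ t ∈ B, ∑ Y ∈ (K.filter (fun x => r x = t)).powerset, g t Y =
        ∑ Y ∈ ((K.filter (fun x => r x ≠ s)).filter (fun x => r x = t)).powerset, g t Y)]
    rw [← ih (K.filter (fun x => r x ≠ s)) (by
      intro x hx
      rw [mem_filter] at hx
      rcases Finset.mem_insert.1 (hK x hx.1) with h | h
      · exact absurd h hx.2
      · exact h)]
    rw [Finset.sum_mul_sum, ← Finset.sum_product']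
    refine Finset.sum_nbij' (fun X => (X.filter (fun x => r x = s), X.filter (fun x => r x ≠ s)))
      (fun p => p.1 ∪ p.2) ?_ ?_ ?_ ?_ ?_
    · intro X hX
      rw [mem_powerset] at hX
      simp only [mem_product, mem_powerset]
      exact ⟨Finset.filter_subset_filter _ hX, Finset.filter_subset_filter _ hX⟩
    · rintro ⟨Y, Z⟩ hp
      simp only [mem_product, mem_powerset] at hp ⊢
      exact Finset.union_subset (hp.1.trans (Finset.filter_subset _ _))
        (hp.2.trans (Finset.filter_subset _ _))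
    · intro X hX
      exact Finset.filter_union_filter_not_eq _ X
    · rintro ⟨Y, Z⟩ hp
      simp only [mem_product, mem_powerset] at hp
      have hY : ∀ x ∈ Y, r x = s := fun x hx => (mem_filter.1 (hp.1 hx)).2
      have hZ : ∀ x ∈ Z, r x ≠ s := fun x hx => (mem_filter.1 (hp.2 hx)).2
      simp only [Prod.mk.injEq]
      constructor
      · ext x; simp only [mem_filter, mem_union]
        constructor
        · rintro ⟨h | h, h2⟩
          · exact h
          · exact absurd h2 (hZ x h)
        · intro h; exact ⟨Or.inl h, hY x h⟩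
      · ext x; simp only [mem_filter, mem_union]
        constructor
        · rintro ⟨h | h, h2⟩
          · exact absurd (hY x h) h2
          · exact h
        · intro h; exact ⟨Or.inr h, hZ x h⟩
    · intro X hX
      rw [Finset.prod_insert hs]
      congr 1
      refine Finset.prod_congr rfl fun t ht => ?_
      congr 1
      ext x; simp only [mem_filter]
      constructor
      · rintro ⟨h1, h2⟩
        exact ⟨⟨h1, fun h => hs (by rw [← h, h2]; exact ht)⟩, h2⟩
      · rintro ⟨⟨h1, _⟩, h2⟩
        exact ⟨h1, h2⟩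

theorem LC_pow (x : ℝ) (hx : 0 ≤ x) (j : ℕ) : (1 + x) ^ j - 1 ≤ j * x * (1 + x) ^ j := by
  induction j with
  | zero => simp
  | succ j ih =>
    have h1 : (1 : ℝ) ≤ (1 + x) ^ j := one_le_pow₀ (by linarith)
    have h3 : 0 ≤ x * (1 + x) ^ j := by positivity
    have h4 : 0 ≤ (j : ℝ) * x * (x * (1 + x) ^ j) := by positivity
    have h5 : 0 ≤ x * (x * (1 + x) ^ j) := by positivity
    rw [pow_succ]
    push_cast
    nlinarith

theorem LC_sum_pow {α : Type*} (x : ℝ) (K : Finset α) :
    ∑ Y ∈ K.powerset, x ^ Y.card = (1 + x) ^ K.card := by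
  have h := Finset.sum_pow_mul_eq_add_pow x 1 K
  rw [add_comm 1 x, ← h]
  refine Finset.sum_congr rfl fun Y _ => ?_
  rw [one_pow, mul_one]

open Classical in
theorem LC_sum_free {α : Type*} (x : ℝ) (K : Finset α) :
    ∑ Y ∈ K.powerset, x ^ Y.card * (if Y = ∅ then 1 else x) = 1 + x * ((1 + x) ^ K.card - 1) := by
  have h0 : (∅ : Finset α) ∈ K.powerset := Finset.empty_mem_powerset K
  rw [← LC_sum_pow x K, ← Finset.add_sum_erase _ _ h0, ← Finset.add_sum_erase _ (fun Y => x ^ Y.card) h0]
  simp only [card_empty, pow_zero, if_true, one_mul]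
  rw [add_sub_cancel_left, Finset.mul_sum]
  congr 1
  refine Finset.sum_congr rfl fun Y hY => ?_
  rw [if_neg (Finset.ne_of_mem_erase hY), mul_comm]

open Classical in
/-- Blueprint 2.4, Lemma LC. -/
theorem LC {ι κ : Type*} [Fintype ι] [Fintype κ] (F : ι → Finset κ) (T : Finset ι) (φ : ι → κ)
    (rt : ι → κ → Option ι) (m : ℕ) (hκ : 1 ≤ Fintype.card κ)
    (hrt : ∀ e, e ∉ T → ∀ k ∈ F e, ∀ e', rt e k = some e' →
      (e' ∈ T ∧ φ e' = k) ∨ (e' ∉ T ∧ k ∉ F e'))
    (hm : ∀ e' k, (univ.filter (fun e => e ∉ T ∧ k ∈ F e ∧ rt e k = some e')).card ≤ m) :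
    ((univ.filter (fun f : ι → κ => (∀ e ∈ T, f e = φ e) ∧
      ∀ e, e ∉ T → f e ∈ F e → ∃ e', rt e (f e) = some e' ∧ f e' = f e)).card : ℝ) ≤
    (Fintype.card κ : ℝ) ^ (Fintype.card ι - T.card) *
      Real.exp (-((∑ e, ((F e).card : ℝ)) / Fintype.card κ)) *
      (Real.exp 1 * (1 + Real.exp 1 / Fintype.card κ) ^ m) ^ T.card *
      Real.exp ((Real.exp 1 / Fintype.card κ) ^ 2 * (1 + Real.exp 1 / Fintype.card κ) ^ m *
        ∑ e, ((F e).card : ℝ)) := by
  set b : ℝ := (Fintype.card κ : ℝ) with hb
  have hb1 : (1 : ℝ) ≤ b := by rw [hb]; exact_mod_cast hκ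
  have hb0 : 0 < b := by linarith
  set x : ℝ := Real.exp 1 / b with hx
  have hx0 : 0 < x := by positivity
  -- slots and roots
  set K : Finset (ι × κ) := univ.filter (fun p => p.1 ∉ T ∧ p.2 ∈ F p.1 ∧ (rt p.1 p.2).isSome)
    with hK
  set root : ι × κ → ι × κ := fun p => ((rt p.1 p.2).getD p.1, p.2) with hroot
  have hKs : ∀ s : ι × κ, (K.filter (fun p => root p = s)).card ≤ m := by
    intro s
    refine le_trans ?_ (hm s.1 s.2)
    refine Finset.card_le_card_of_injOn Prod.fst ?_ ?_
    · intro p hp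
      rw [mem_coe, mem_filter, hK, mem_filter] at hp
      obtain ⟨⟨-, h1, h2, h3⟩, h4⟩ := hp
      obtain ⟨e', he'⟩ := Option.isSome_iff_exists.1 h3
      have h5 : root p = (e', p.2) := by simp only [hroot, he', Option.getD_some]
      rw [h5] at h4
      rw [mem_coe, mem_filter, ← h4]
      exact ⟨mem_univ _, h1, h2, he'⟩
    · intro p hp q hq hpq
      rw [mem_coe, mem_filter] at hp hq
      have h1 : (root p).2 = s.2 := congrArg Prod.snd hp.2
      have h2 : (root q).2 = s.2 := congrArg Prod.snd hq.2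
      exact Prod.ext hpq (h1.trans h2.symm)
  have hKT : ∀ s : ι × κ, s.1 ∈ T → s.2 ≠ φ s.1 → K.filter (fun p => root p = s) = ∅ := by
    intro s hs1 hs2
    apply Finset.eq_empty_of_forall_notMem
    intro p hp
    rw [mem_filter, hK, mem_filter] at hp
    obtain ⟨⟨-, h1, h2, h3⟩, h4⟩ := hp
    obtain ⟨e', he'⟩ := Option.isSome_iff_exists.1 h3
    have h5 : root p = (e', p.2) := by simp only [hroot, he', Option.getD_some]
    rw [h5] at h4
    rcases hrt p.1 h1 p.2 h2 e' he' with h6 | h6
    · apply hs2; rw [← h4]; exact h6.2.symm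
    · apply h6.1; rw [← h4] at hs1; exact hs1
  have hKF : (K.card : ℝ) ≤ ∑ e, ((F e).card : ℝ) := by
    have h1 : K.card = ∑ e : ι, (K.filter (fun p => p.1 = e)).card :=
      Finset.card_eq_sum_card_fiberwise (fun _ _ => mem_univ _)
    rw [h1]
    push_cast
    refine Finset.sum_le_sum fun e _ => ?_
    have h2 : (K.filter (fun p => p.1 = e)).card ≤ (F e).card := by
      refine Finset.card_le_card_of_injOn Prod.snd ?_ ?_
      · intro p hp
        rw [mem_coe, mem_filter, hK, mem_filter] at hp
        rw [mem_coe, ← hp.2]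
        exact hp.1.2.2.1
      · intro p hp q hq hpq
        rw [mem_coe, mem_filter] at hp hq
        exact Prod.ext (hp.2.trans hq.2.symm) hpq
    exact_mod_cast h2
  -- number of free roots
  set fr : Finset (ι × κ) → Finset (ι × κ) := fun X =>
    univ.filter (fun s => (X.filter (fun p => root p = s)) ≠ ∅ ∧ s.1 ∉ T) with hfr
  -- the slots used by a labelling
  set Xf : (ι → κ) → Finset (ι × κ) := fun f =>
    univ.filter (fun p => p.1 ∉ T ∧ p.2 ∈ F p.1 ∧ f p.1 = p.2) with hXf
  set V : Finset (ι → κ) := univ.filter (fun f : ι → κ => (∀ e ∈ T, f e = φ e) ∧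
      ∀ e, e ∉ T → f e ∈ F e → ∃ e', rt e (f e) = some e' ∧ f e' = f e) with hV
  have hmaps : ∀ f ∈ V, Xf f ∈ K.powerset := by
    intro f hf
    rw [hV, mem_filter] at hf
    rw [mem_powerset]
    intro p hp
    rw [hXf, mem_filter] at hp
    obtain ⟨-, h1, h2, h3⟩ := hp
    rw [hK, mem_filter]
    refine ⟨mem_univ _, h1, h2, ?_⟩
    obtain ⟨e', he', -⟩ := hf.2.2 p.1 h1 (by rw [h3]; exact h2)
    rw [h3] at he'
    rw [he']; rfl
  set C0 : ℝ := b ^ (Fintype.card ι) * Real.exp (-((∑ e, ((F e).card : ℝ)) / b)) with hC0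
  have hC0p : 0 ≤ C0 := by positivity
  have hfib : ∀ X ∈ K.powerset, ((V.filter (fun f => Xf f = X)).card : ℝ) ≤
      C0 * x ^ T.card * x ^ (X.card + (fr X).card) := by
    intro X hX
    rcases (V.filter (fun f => Xf f = X)).eq_empty_or_nonempty with h0 | ⟨f₀, hf₀⟩
    · rw [h0, card_empty, Nat.cast_zero]; positivity
    rw [mem_filter] at hf₀
    obtain ⟨hfV, hfX⟩ := hf₀
    rw [hV, mem_filter] at hfV
    obtain ⟨-, hT0, hR0⟩ := hfV
    -- facts
    have hmemX : ∀ f : ι → κ, Xf f = X → ∀ p : ι × κ, p ∈ X ↔ (p.1 ∉ T ∧ p.2 ∈ F p.1 ∧ f p.1 = p.2) := by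
      intro f hf p
      rw [← hf, hXf, mem_filter]
      simp
    set R : Finset ι := (fr X).image Prod.fst with hR
    have hrootX : ∀ f : ι → κ, f ∈ V → Xf f = X → ∀ p ∈ X, rt p.1 p.2 = some (root p).1 ∧
        f (root p).1 = (root p).2 := by
      intro f hf hfX' p hp
      rw [hV, mem_filter] at hf
      obtain ⟨h1, h2, h3⟩ := (hmemX f hfX' p).1 hp
      obtain ⟨e', he', hfe'⟩ := hf.2.2 p.1 h1 (by rw [h3]; exact h2)
      rw [h3] at he' hfe'
      have h5 : root p = (e', p.2) := by simp only [hroot, he', Option.getD_some]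
      rw [h5]
      exact ⟨he', hfe'⟩
    have hfrX : ∀ f : ι → κ, f ∈ V → Xf f = X → ∀ s ∈ fr X, f s.1 = s.2 ∧ s.1 ∉ T ∧ s.2 ∉ F s.1 := by
      intro f hf hfX' s hs
      rw [hfr, mem_filter] at hs
      obtain ⟨-, hs1, hs2⟩ := hs
      obtain ⟨p, hp⟩ := Finset.nonempty_iff_ne_empty.2 hs1
      rw [mem_filter] at hp
      obtain ⟨h1, h2⟩ := hrootX f hf hfX' p hp.1
      obtain ⟨h3, h4, h5⟩ := (hmemX f hfX' p).1 hp.1
      rcases hrt p.1 h3 p.2 h4 _ h1 with h6 | h6
      · rw [hp.2] at h6; exact absurd h6.1 hs2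
      · rw [hp.2] at h6 h2
        refine ⟨h2, h6.1, ?_⟩
        have h7 : (root p).2 = s.2 := congrArg Prod.snd hp.2
        rw [← h7]; exact h6.2
    have hf₀V : f₀ ∈ V := by rw [hV, mem_filter]; exact ⟨mem_univ _, hT0, hR0⟩
    have hRcard : R.card = (fr X).card := by
      rw [hR]
      apply Finset.card_image_of_injOn
      intro s hs t ht hst
      have h1 := (hfrX f₀ hf₀V hfX s hs).1
      have h2 := (hfrX f₀ hf₀V hfX t ht).1
      have hst' : s.1 = t.1 := hst
      exact Prod.ext hst' (by rw [← h1, ← h2, hst'])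
    set S : Finset ι := X.image Prod.fst with hS
    have hScard : S.card = X.card := by
      rw [hS]
      apply Finset.card_image_of_injOn
      intro s hs t ht hst
      have h1 := ((hmemX f₀ hfX s).1 hs).2.2
      have h2 := ((hmemX f₀ hfX t).1 ht).2.2
      have hst' : s.1 = t.1 := hst
      exact Prod.ext hst' (by rw [← h1, ← h2, hst'])
    have hTS : Disjoint T S := by
      rw [Finset.disjoint_left]
      intro e he heS
      rw [hS, mem_image] at heS
      obtain ⟨p, hp, rfl⟩ := heS
      exact ((hmemX f₀ hfX p).1 hp).1 he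
    have hTSR : Disjoint (T ∪ S) R := by
      rw [Finset.disjoint_left]
      intro e he heR
      rw [hR, mem_image] at heR
      obtain ⟨s, hs, rfl⟩ := heR
      obtain ⟨h1, h2, h3⟩ := hfrX f₀ hf₀V hfX s hs
      rw [mem_union] at he
      rcases he with he | he
      · exact h2 he
      · rw [hS, mem_image] at he
        obtain ⟨p, hp, hps⟩ := he
        obtain ⟨h4, h5, h6⟩ := (hmemX f₀ hfX p).1 hp
        apply h3
        rw [← h1, ← hps, h6]
        exact h5
    set D : Finset ι := (T ∪ S) ∪ R with hD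
    have hDcard : D.card = T.card + (X.card + (fr X).card) := by
      rw [hD, card_union_of_disjoint hTSR, card_union_of_disjoint hTS, hRcard, hScard]
      ring
    have hsub : V.filter (fun f => Xf f = X) ⊆
        Fintype.piFinset (fun e => if e ∈ D then {f₀ e} else univ \ F e) := by
      intro f hf
      rw [mem_filter] at hf
      obtain ⟨hfV', hfX'⟩ := hf
      rw [Fintype.mem_piFinset]
      intro e
      by_cases he : e ∈ D
      · rw [if_pos he, mem_singleton]
        rw [hD, mem_union, mem_union] at he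
        rcases he with (he | he) | he
        · have h1 := hfV'
          rw [hV, mem_filter] at h1
          rw [h1.2.1 e he, hT0 e he]
        · rw [hS, mem_image] at he
          obtain ⟨p, hp, rfl⟩ := he
          rw [((hmemX f hfX' p).1 hp).2.2, ((hmemX f₀ hfX p).1 hp).2.2]
        · rw [hR, mem_image] at he
          obtain ⟨s, hs, rfl⟩ := he
          rw [(hfrX f hfV' hfX' s hs).1, (hfrX f₀ hf₀V hfX s hs).1]
      · rw [if_neg he, mem_sdiff]
        refine ⟨mem_univ _, fun hF => he ?_⟩
        have heT : e ∉ T := fun h => he (by rw [hD, mem_union, mem_union]; exact Or.inl (Or.inl h))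
        have : (e, f e) ∈ X := (hmemX f hfX' (e, f e)).2 ⟨heT, hF, rfl⟩
        rw [hD, mem_union, mem_union, hS, mem_image]
        exact Or.inl (Or.inr ⟨_, this, rfl⟩)
    have h1 := Finset.card_le_card hsub
    rw [Fintype.card_piFinset] at h1
    have h2 : ((V.filter (fun f => Xf f = X)).card : ℝ) ≤
        ∏ e, ((if e ∈ D then ({f₀ e} : Finset κ) else univ \ F e).card : ℝ) := by
      exact_mod_cast h1
    refine h2.trans ?_
    have h3 : ∀ e, ((if e ∈ D then ({f₀ e} : Finset κ) else univ \ F e).card : ℝ) ≤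
        (b * Real.exp (-(((F e).card : ℝ) / b))) * (if e ∈ D then x else 1) := by
      intro e
      have hFb : ((F e).card : ℝ) ≤ b := by
        rw [hb]; exact_mod_cast Finset.card_le_univ (F e)
      have hFb1 : ((F e).card : ℝ) / b ≤ 1 := by rw [div_le_one hb0]; exact hFb
      by_cases he : e ∈ D
      · rw [if_pos he, if_pos he, card_singleton, Nat.cast_one, hx]
        have h4 : b * Real.exp (-(((F e).card : ℝ) / b)) * (Real.exp 1 / b) =
            Real.exp (1 - ((F e).card : ℝ) / b) := by
          rw [sub_eq_add_neg, Real.exp_add]; field_simp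
        rw [h4]
        exact Real.one_le_exp (by linarith)
      · rw [if_neg he, if_neg he, mul_one, card_univ_sdiff, Nat.cast_sub (Finset.card_le_univ _)]
        have h4 : 1 - ((F e).card : ℝ) / b ≤ Real.exp (-(((F e).card : ℝ) / b)) := by
          have := Real.add_one_le_exp (-(((F e).card : ℝ) / b))
          linarith
        calc b - ((F e).card : ℝ) = b * (1 - ((F e).card : ℝ) / b) := by field_simp
          _ ≤ _ := mul_le_mul_of_nonneg_left h4 hb0.le
    refine (Finset.prod_le_prod (fun e _ => Nat.cast_nonneg _) (fun e _ => h3 e)).trans ?_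
    rw [Finset.prod_mul_distrib, Finset.prod_mul_distrib, Finset.prod_const, card_univ,
      ← Real.exp_sum, Finset.sum_neg_distrib, ← Finset.sum_div, Finset.prod_ite, Finset.prod_const,
      Finset.prod_const, one_pow, mul_one, Finset.filter_mem_eq_inter, univ_inter, hDcard, pow_add,
      mul_assoc C0]
  have hsum : (V.card : ℝ) ≤ ∑ X ∈ K.powerset, C0 * x ^ T.card * x ^ (X.card + (fr X).card) := by
    rw [Finset.card_eq_sum_card_fiberwise hmaps, Nat.cast_sum]
    exact Finset.sum_le_sum hfib
  refine hsum.trans ?_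
  rw [← Finset.mul_sum]
  -- the generating function
  set g : ι × κ → Finset (ι × κ) → ℝ := fun s Y =>
    x ^ Y.card * (if Y = ∅ ∨ s.1 ∈ T then 1 else x) with hg
  have hgen : ∑ X ∈ K.powerset, x ^ (X.card + (fr X).card) =
      ∏ s : ι × κ, ∑ Y ∈ (K.filter (fun p => root p = s)).powerset, g s Y := by
    rw [← LC_part root g univ K (fun _ _ => mem_univ _)]
    refine Finset.sum_congr rfl fun X _ => ?_
    rw [hg, Finset.prod_mul_distrib, pow_add]
    congr 1
    · rw [Finset.prod_pow_eq_pow_sum]
      congr 1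
      exact Finset.card_eq_sum_card_fiberwise (fun _ _ => mem_univ _)
    · rw [Finset.prod_ite, Finset.prod_const_one, one_mul, Finset.prod_const]
      congr 1
      rw [hfr]
      congr 1
      ext s
      simp only [mem_filter, mem_univ, true_and, not_or, ne_eq]
  rw [hgen]
  have hbound : ∏ s : ι × κ, ∑ Y ∈ (K.filter (fun p => root p = s)).powerset, g s Y ≤
      ∏ s : ι × κ, (Real.exp (x ^ 2 * (1 + x) ^ m * ((K.filter (fun p => root p = s)).card : ℝ)) *
        (if s.1 ∈ T ∧ s.2 = φ s.1 then (1 + x) ^ m else 1)) := by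
    refine Finset.prod_le_prod (fun s _ => ?_) (fun s _ => ?_)
    · refine Finset.sum_nonneg fun Y _ => ?_
      rw [hg]
      dsimp only
      split_ifs <;> positivity
    · have hex : 1 ≤ Real.exp (x ^ 2 * (1 + x) ^ m * ((K.filter (fun p => root p = s)).card : ℝ)) :=
        Real.one_le_exp (by positivity)
      by_cases hs : s.1 ∈ T
      · by_cases hs2 : s.2 = φ s.1
        · rw [if_pos ⟨hs, hs2⟩]
          have h1 : ∑ Y ∈ (K.filter (fun p => root p = s)).powerset, g s Y =
              (1 + x) ^ (K.filter (fun p => root p = s)).card := by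
            rw [← LC_sum_pow]
            refine Finset.sum_congr rfl fun Y _ => ?_
            rw [hg]; simp [hs]
          rw [h1]
          have h2 : (1 + x) ^ (K.filter (fun p => root p = s)).card ≤ (1 + x) ^ m :=
            pow_le_pow_right₀ (by linarith) (hKs s)
          have h3 : (0 : ℝ) ≤ (1 + x) ^ m := by positivity
          nlinarith
        · rw [if_neg (fun h => hs2 h.2), mul_one, hKT s hs hs2]
          rw [hg]; simp
      · rw [if_neg (fun h => hs h.1), mul_one]
        have h1 : ∑ Y ∈ (K.filter (fun p => root p = s)).powerset, g s Y =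
            1 + x * ((1 + x) ^ (K.filter (fun p => root p = s)).card - 1) := by
          rw [← LC_sum_free]
          refine Finset.sum_congr rfl fun Y _ => ?_
          rw [hg]; simp [hs]
        rw [h1]
        set j := (K.filter (fun p => root p = s)).card with hj
        have h2 := LC_pow x hx0.le j
        have h3 : (1 + x) ^ j ≤ (1 + x) ^ m := pow_le_pow_right₀ (by linarith) (hKs s)
        have h4 : x * ((1 + x) ^ j - 1) ≤ x ^ 2 * (1 + x) ^ m * (j : ℝ) := by
          calc x * ((1 + x) ^ j - 1) ≤ x * ((j : ℝ) * x * (1 + x) ^ j) :=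
                mul_le_mul_of_nonneg_left h2 hx0.le
            _ = (x ^ 2 * (j : ℝ)) * (1 + x) ^ j := by ring
            _ ≤ (x ^ 2 * (j : ℝ)) * (1 + x) ^ m :=
                mul_le_mul_of_nonneg_left h3 (by positivity)
            _ = x ^ 2 * (1 + x) ^ m * (j : ℝ) := by ring
        have h5 := Real.add_one_le_exp (x ^ 2 * (1 + x) ^ m * (j : ℝ))
        linarith
  refine (mul_le_mul_of_nonneg_left hbound (by positivity)).trans ?_
  rw [Finset.prod_mul_distrib, ← Real.exp_sum, ← Finset.mul_sum]
  have hcardK : ∑ s : ι × κ, ((K.filter (fun p => root p = s)).card : ℝ) = (K.card : ℝ) := by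
    rw [Finset.card_eq_sum_card_fiberwise (f := root) (t := univ) (fun _ _ => mem_univ _)]
    push_cast; rfl
  rw [hcardK]
  have hprodT : ∏ s : ι × κ, (if s.1 ∈ T ∧ s.2 = φ s.1 then (1 + x) ^ m else 1) =
      ((1 + x) ^ m) ^ T.card := by
    rw [Finset.prod_ite, Finset.prod_const, Finset.prod_const_one, mul_one]
    congr 1
    have : univ.filter (fun s : ι × κ => s.1 ∈ T ∧ s.2 = φ s.1) = T.image (fun e => (e, φ e)) := by
      ext s
      simp only [mem_filter, mem_univ, true_and, mem_image]
      constructor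
      · rintro ⟨h1, h2⟩
        exact ⟨s.1, h1, by rw [← h2]⟩
      · rintro ⟨e, he, rfl⟩
        exact ⟨he, rfl⟩
    rw [this, Finset.card_image_of_injective _ (fun a c h => congrArg Prod.fst h)]
  rw [hprodT]
  have hTle : T.card ≤ Fintype.card ι := Finset.card_le_univ T
  have hC0x : C0 * x ^ T.card = b ^ (Fintype.card ι - T.card) *
      Real.exp (-((∑ e, ((F e).card : ℝ)) / b)) * Real.exp 1 ^ T.card := by
    rw [hC0, hx, div_pow]
    have h1 : b ^ Fintype.card ι = b ^ (Fintype.card ι - T.card) * b ^ T.card := by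
      rw [← pow_add, Nat.sub_add_cancel hTle]
    rw [h1]
    have h2 : b ^ T.card ≠ 0 := pow_ne_zero _ hb0.ne'
    field_simp
  rw [hC0x]
  have hfin : Real.exp (x ^ 2 * (1 + x) ^ m * (K.card : ℝ)) ≤
      Real.exp (x ^ 2 * (1 + x) ^ m * ∑ e, ((F e).card : ℝ)) :=
    Real.exp_le_exp.2 (mul_le_mul_of_nonneg_left hKF (by positivity))
  calc b ^ (Fintype.card ι - T.card) * Real.exp (-((∑ e, ((F e).card : ℝ)) / b)) *
        Real.exp 1 ^ T.card *
        (Real.exp (x ^ 2 * (1 + x) ^ m * (K.card : ℝ)) * ((1 + x) ^ m) ^ T.card)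
      = (b ^ (Fintype.card ι - T.card) * Real.exp (-((∑ e, ((F e).card : ℝ)) / b)) *
        (Real.exp 1 * (1 + x) ^ m) ^ T.card) *
        Real.exp (x ^ 2 * (1 + x) ^ m * (K.card : ℝ)) := by
        rw [mul_pow (Real.exp 1)]; ring
    _ ≤ _ := mul_le_mul_of_nonneg_left hfin (by positivity)

end PSys
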