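import Mathlib
import Pool.Agent.PSys.Spec
import Pool.Agent.PSys.LC

/-! Module CLAM (blueprint 2.6): number of valid leaf labellings for fixed `mu`, `l`. -/

open Finset

namespace PSys

open Classical in
/-- the pairs whose label is forced by the types 3 -/
noncomputable def Tset {n : ℕ} (mu : Lb n) (l : Ty n) : Finset (Sym2 (Fin n)) :=
  univ.filter (fun e => ∃ u b c a, l u b = some (2, c) ∧ mu s(c, b) = some a ∧ e = s(u, a))

open Classical in
/-- the leaf labellings compatible with the types 3 -/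
noncomputable def compat {n : ℕ} (B : Finset (Fin n)) (QA : Sys n) (mu : Lb n) (l : Ty n) :
    Finset (Lb n) :=
  (labs (EA B QA) B).filter (fun lam => ∀ u b c, l u b = some (2, c) →
    ∃ a, mu s(c, b) = some a ∧ lam s(u, a) = some c)

/-- the pair attached to a type 3 label -/
noncomputable def CLAM_g {n : ℕ} (mu : Lb n) (l : Ty n) (q : Fin n × Fin n) : Sym2 (Fin n) :=
  match l q.1 q.2 with
  | some (_, c) =>
    (match mu s(c, q.2) with
     | some a => s(q.1, a)
     | none => s(q.1, q.1))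
  | none => s(q.1, q.1)

theorem card_Tset {n : ℕ} (mu : Lb n) (l : Ty n) : (Tset mu l).card ≤ (Zs l).card := by
  classical
  refine (card_le_card (t := (Zs l).image (CLAM_g mu l)) ?_).trans card_image_le
  intro e he
  unfold Tset at he
  rw [mem_filter] at he
  obtain ⟨_, u, b, c, a, h1, h2, rfl⟩ := he
  rw [mem_image]
  refine ⟨(u, b), ?_, ?_⟩
  · unfold Zs
    rw [mem_filter]
    refine ⟨mem_univ _, ?_⟩
    show l u b ≠ none
    rw [h1]; simp
  · unfold CLAM_g
    simp only [h1, h2]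

open Classical in
/-- the forbidden hubs of a pair -/
noncomputable def CLAM_F {n : ℕ} (l : Ty n) (e : Sym2 (Fin n)) : Finset (Fin n) :=
  univ.filter (fun b => ∃ u v, e = s(u, v) ∧ l u b ≠ none ∧ l v b = none ∧
    ∀ c, (l u b = some (1, c) ∨ l u b = some (2, c)) → l v c = none)

/-- the root relation -/
inductive CLAM_Rt {n : ℕ} (l : Ty n) (T : Finset (Sym2 (Fin n))) (φ : Sym2 (Fin n) → Fin n)
    (b : Fin n) : Sym2 (Fin n) → Sym2 (Fin n) → Prop
  | base (u v a : Fin n) (h1 : l u b = some (0, a)) (h2 : l v b = none)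
      (h3 : (s(a, v) ∈ T ∧ φ s(a, v) = b) ∨ (s(a, v) ∉ T ∧ b ∉ CLAM_F l s(a, v))) :
      CLAM_Rt l T φ b s(u, v) s(a, v)
  | step (u v a : Fin n) (e' : Sym2 (Fin n)) (h1 : l u b = some (0, a)) (h2 : l v b = none)
      (h3 : s(a, v) ∉ T) (h4 : b ∈ CLAM_F l s(a, v)) (h5 : CLAM_Rt l T φ b s(a, v) e') :
      CLAM_Rt l T φ b s(u, v) e'

theorem CLAM_end {n : ℕ} {l : Ty n} {b u v u' v' : Fin n} (h : s(u, v) = s(u', v'))
    (h1 : l u b ≠ none) (h2 : l v b = none) (h1' : l u' b ≠ none) (h2' : l v' b = none) :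
    u = u' ∧ v = v' := by
  rcases Sym2.eq_iff.1 h with ⟨h3, h4⟩ | ⟨h3, h4⟩
  · exact ⟨h3, h4⟩
  · rw [← h3] at h2'
    exact absurd h2' h1

theorem CLAM_root {n : ℕ} {l : Ty n} {T : Finset (Sym2 (Fin n))} {φ : Sym2 (Fin n) → Fin n}
    {b : Fin n} {e e' : Sym2 (Fin n)} (h : CLAM_Rt l T φ b e e') :
    (e' ∈ T ∧ φ e' = b) ∨ (e' ∉ T ∧ b ∉ CLAM_F l e') := by
  induction h with
  | base u v a h1 h2 h3 => exact h3
  | step u v a e' h1 h2 h3 h4 h5 ih => exact ih

theorem CLAM_desc {n : ℕ} {l : Ty n} {T : Finset (Sym2 (Fin n))} {φ : Sym2 (Fin n) → Fin n}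
    {b : Fin n} {e e' : Sym2 (Fin n)} (h : CLAM_Rt l T φ b e e') :
    ∃ u v, e = s(u, v) ∧ l u b ≠ none ∧ l v b = none ∧ v ∈ e' := by
  induction h with
  | base u v a h1 h2 h3 =>
    exact ⟨u, v, rfl, by rw [h1]; simp, h2, Sym2.mem_mk_right _ _⟩
  | step u v a e' h1 h2 h3 h4 h5 ih =>
    obtain ⟨u1, v1, k1, k2, k3, k4⟩ := ih
    refine ⟨u, v, rfl, by rw [h1]; simp, h2, ?_⟩
    rcases Sym2.eq_iff.1 k1 with ⟨k5, k6⟩ | ⟨k5, k6⟩
    · rw [k6]; exact k4
    · rw [← k6] at k2
      exact absurd h2 k2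

theorem CLAM_unique {n : ℕ} {l : Ty n} {T : Finset (Sym2 (Fin n))} {φ : Sym2 (Fin n) → Fin n}
    {b : Fin n} {e e' : Sym2 (Fin n)} (h : CLAM_Rt l T φ b e e') :
    ∀ e'', CLAM_Rt l T φ b e e'' → e' = e'' := by
  induction h with
  | base u v a h1 h2 h3 =>
    intro e'' h'
    generalize hE : (s(u, v) : Sym2 (Fin n)) = E at h'
    cases h' with
    | base u' v' a' k1 k2 k3 =>
      obtain ⟨e1, e2⟩ := CLAM_end hE (by rw [h1]; simp) h2 (by rw [k1]; simp) k2
      subst e1; subst e2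
      rw [h1] at k1
      simp only [Option.some.injEq, Prod.mk.injEq, true_and] at k1
      rw [k1]
    | step u' v' a' e' k1 k2 k3 k4 k5 =>
      exfalso
      obtain ⟨e1, e2⟩ := CLAM_end hE (by rw [h1]; simp) h2 (by rw [k1]; simp) k2
      subst e1; subst e2
      rw [h1] at k1
      simp only [Option.some.injEq, Prod.mk.injEq, true_and] at k1
      rw [← k1] at k3 k4
      rcases h3 with h3 | h3
      · exact k3 h3.1
      · exact h3.2 k4
  | step u v a e' h1 h2 h3 h4 h5 ih =>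
    intro e'' h'
    generalize hE : (s(u, v) : Sym2 (Fin n)) = E at h'
    cases h' with
    | base u' v' a' k1 k2 k3 =>
      exfalso
      obtain ⟨e1, e2⟩ := CLAM_end hE (by rw [h1]; simp) h2 (by rw [k1]; simp) k2
      subst e1; subst e2
      rw [h1] at k1
      simp only [Option.some.injEq, Prod.mk.injEq, true_and] at k1
      rw [← k1] at k3
      rcases k3 with k3 | k3
      · exact h3 k3.1
      · exact k3.2 h4
    | step u' v' a' e' k1 k2 k3 k4 k5 =>
      obtain ⟨e1, e2⟩ := CLAM_end hE (by rw [h1]; simp) h2 (by rw [k1]; simp) k2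
      subst e1; subst e2
      rw [h1] at k1
      simp only [Option.some.injEq, Prod.mk.injEq, true_and] at k1
      rw [← k1] at k5
      exact ih _ k5

open Classical in
/-- existence of the root for valid labellings -/
theorem CLAM_exists {n : ℕ} {l : Ty n} {T : Finset (Sym2 (Fin n))} {φ : Sym2 (Fin n) → Fin n}
    {lam : Lb n} (hT : ∀ e ∈ T, lam e = some (φ e))
    (user1 : ∀ u b a v, l u b = some (0, a) → lam s(u, v) = some b →
      l v b ≠ none ∨ lam s(a, v) = some b)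
    (user2 : ∀ u b c v, l u b = some (1, c) → lam s(u, v) = some b → l v c ≠ none)
    (user3 : ∀ u b c v, l u b = some (2, c) → lam s(u, v) = some b → l v c ≠ none)
    (r : Fin n → Fin n → ℕ) (hr : ∀ u b a, l u b = some (0, a) → r a b < r u b) (b : Fin n) :
    ∀ (k : ℕ) (u v : Fin n), r u b = k → l u b ≠ none → l v b = none → b ∈ CLAM_F l s(u, v) →
      lam s(u, v) = some b → ∃ e', CLAM_Rt l T φ b s(u, v) e' ∧ lam e' = some b := by
  intro k
  induction k using Nat.strong_induction_on with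
  | _ k ih =>
    intro u v hk hu hv hF hlam
    unfold CLAM_F at hF
    rw [mem_filter] at hF
    obtain ⟨_, u', v', h1, h2, h3, h4⟩ := hF
    obtain ⟨e1, e2⟩ := CLAM_end h1 hu hv h2 h3
    subst e1; subst e2
    obtain ⟨⟨ty, a⟩, hty⟩ := Option.ne_none_iff_exists'.1 hu
    have hty3 : ty = 0 ∨ ty = 1 ∨ ty = 2 := by
      fin_cases ty <;> simp
    rcases hty3 with rfl | rfl | rfl
    · have h5 : lam s(a, v) = some b := by
        rcases user1 u b a v hty hlam with h | h
        · exact absurd hv h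
        · exact h
      by_cases h6 : s(a, v) ∈ T
      · refine ⟨s(a, v), CLAM_Rt.base u v a hty hv (Or.inl ⟨h6, ?_⟩), h5⟩
        have := hT _ h6
        rw [h5, Option.some.injEq] at this
        exact this.symm
      · by_cases h7 : b ∈ CLAM_F l s(a, v)
        · have h7' := h7
          unfold CLAM_F at h7'
          rw [mem_filter] at h7'
          obtain ⟨_, u2, v2, g1, g2, g3, _⟩ := h7'
          have ha : l a b ≠ none := by
            rcases Sym2.eq_iff.1 g1 with ⟨g4, g5⟩ | ⟨g4, g5⟩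
            · rw [g4]; exact g2
            · rw [← g5] at g2
              exact absurd hv g2
          obtain ⟨e', q1, q2⟩ := ih (r a b) (by rw [← hk]; exact hr u b a hty) a v rfl ha hv h7 h5
          exact ⟨e', CLAM_Rt.step u v a e' hty hv h6 h7 q1, q2⟩
        · exact ⟨s(a, v), CLAM_Rt.base u v a hty hv (Or.inr ⟨h6, h7⟩), h5⟩
    · exact absurd (h4 a (Or.inl hty)) (user2 u b a v hty hlam)
    · exact absurd (h4 a (Or.inr hty)) (user3 u b a v hty hlam)

open Classical in
/-- number of slots -/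
theorem CLAM_sum {n : ℕ} {B : Finset (Fin n)} {QA : Sys n} (l : Ty n) :
    ∑ e ∈ EA B QA, (CLAM_F l e).card = ∑ p ∈ Zs l, (univ.filter (fun v => s(p.1, v) ∈ EA B QA ∧
      l v p.2 = none ∧ ∀ c, (l p.1 p.2 = some (1, c) ∨ l p.1 p.2 = some (2, c)) →
        l v c = none)).card := by
  rw [← card_sigma, ← card_sigma]
  symm
  refine card_bij (fun q _ => ⟨s(q.1.1, q.2), q.1.2⟩) ?_ ?_ ?_
  · intro q hq
    rw [mem_sigma, mem_filter] at hq
    obtain ⟨h1, _, h2, h3, h4⟩ := hq
    unfold Zs at h1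
    rw [mem_filter] at h1
    rw [mem_sigma]
    refine ⟨h2, ?_⟩
    unfold CLAM_F
    rw [mem_filter]
    exact ⟨mem_univ _, q.1.1, q.2, rfl, h1.2, h3, h4⟩
  · intro q hq q' hq' h
    rw [mem_sigma, mem_filter] at hq hq'
    obtain ⟨h1, _, h2, h3, h4⟩ := hq
    obtain ⟨h1', _, h2', h3', h4'⟩ := hq'
    unfold Zs at h1 h1'
    rw [mem_filter] at h1 h1'
    simp only [Sigma.mk.injEq, heq_eq_eq] at h
    obtain ⟨k1, k2⟩ := h
    rw [← k2] at h3'
    have h1'' := h1'.2
    rw [← k2] at h1''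
    obtain ⟨k3, k4⟩ := CLAM_end k1 h1.2 h3 h1'' h3'
    obtain ⟨⟨u, b⟩, v⟩ := q
    obtain ⟨⟨u', b'⟩, v'⟩ := q'
    simp only at k2 k3 k4
    subst k2; subst k3; subst k4
    rfl
  · intro q hq
    obtain ⟨e, b⟩ := q
    rw [mem_sigma] at hq
    obtain ⟨h1, h2⟩ := hq
    simp only at h1 h2
    unfold CLAM_F at h2
    rw [mem_filter] at h2
    obtain ⟨_, u, v, rfl, h3, h4, h5⟩ := h2
    refine ⟨⟨(u, b), v⟩, ?_, rfl⟩
    rw [mem_sigma, mem_filter]
    refine ⟨?_, mem_univ _, h1, h4, h5⟩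
    unfold Zs
    rw [mem_filter]
    exact ⟨mem_univ _, h3⟩

open Classical in
/-- lower bound for the number of slots of one nondirect pair -/
theorem CLAM_low {n : ℕ} {B : Finset (Fin n)} {QA : Sys n} {l : Ty n}
    (hAB : ∀ u b, l u b ≠ none → u ∉ B ∧ b ∈ B)
    (few : ∀ b, ((univ.filter (fun u => l u b ≠ none)).card : ℝ) ≤ (n : ℝ) / 1000)
    (u b : Fin n) (h : l u b ≠ none) :
    ((Bᶜ.card : ℝ) - 1 - dgr (fD QA) u - n / 500) ≤
      ((univ.filter (fun v => s(u, v) ∈ EA B QA ∧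
      l v b = none ∧ ∀ c, (l u b = some (1, c) ∨ l u b = some (2, c)) → l v c = none)).card : ℝ) := by
  obtain ⟨⟨ty, c⟩, hty⟩ := Option.ne_none_iff_exists'.1 h
  set A := univ.filter (fun v => s(u, v) ∈ EA B QA ∧
      l v b = none ∧ ∀ c, (l u b = some (1, c) ∨ l u b = some (2, c)) → l v c = none) with hA
  have hsub : Bᶜ ⊆ A ∪ ({u} ∪ (univ.filter (fun v => s(u, v) ∈ fD QA) ∪
      (univ.filter (fun v => l v b ≠ none) ∪ univ.filter (fun v => l v c ≠ none)))) := by
    intro v hv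
    rw [mem_compl] at hv
    simp only [mem_union, mem_singleton, mem_filter, mem_univ, true_and, hA]
    by_cases h1 : v = u
    · exact Or.inr (Or.inl h1)
    by_cases h2 : s(u, v) ∈ fD QA
    · exact Or.inr (Or.inr (Or.inl h2))
    by_cases h3 : l v b = none
    · by_cases h4 : l v c = none
      · left
        refine ⟨?_, h3, ?_⟩
        · unfold EA
          rw [mem_sdiff, mem_prs]
          exact ⟨⟨fun h => h1 h.symm, mem_compl.2 (hAB u b h).1, mem_compl.2 hv⟩, h2⟩
        · intro c' hc'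
          rw [hty] at hc'
          simp only [Option.some.injEq, Prod.mk.injEq] at hc'
          rcases hc' with hc' | hc'
          · rw [← hc'.2]; exact h4
          · rw [← hc'.2]; exact h4
      · exact Or.inr (Or.inr (Or.inr (Or.inr h4)))
    · exact Or.inr (Or.inr (Or.inr (Or.inl h3)))
  have h1 := (card_le_card hsub).trans ((card_union_le _ _).trans (add_le_add le_rfl
    ((card_union_le _ _).trans (add_le_add le_rfl ((card_union_le _ _).trans
      (add_le_add le_rfl (card_union_le _ _)))))))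
  rw [card_singleton] at h1
  have h2 : (Bᶜ.card : ℝ) ≤ A.card + (1 + ((univ.filter (fun v => s(u, v) ∈ fD QA)).card +
      ((univ.filter (fun v => l v b ≠ none)).card + (univ.filter (fun v => l v c ≠ none)).card))) := by
    exact_mod_cast h1
  have h3 := few b
  have h4 := few c
  have h5 : ((univ.filter (fun v => s(u, v) ∈ fD QA)).card : ℝ) = dgr (fD QA) u := by
    unfold dgr; rfl
  rw [h5] at h2
  linarith

open Classical in
/-- the concrete forbidden sets -/
noncomputable def CLAM_F' {n : ℕ} (l : Ty n) (E : Finset (Sym2 (Fin n))) (B : Finset (Fin n))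
    (e : {e // e ∈ E}) : Finset {b // b ∈ B} := (CLAM_F l e.1).subtype (fun b => b ∈ B)

open Classical in
/-- the concrete root function -/
noncomputable def CLAM_rt {n : ℕ} (l : Ty n) (E T : Finset (Sym2 (Fin n))) (B : Finset (Fin n))
    (φ : Sym2 (Fin n) → Fin n) (e : {e // e ∈ E}) (k : {b // b ∈ B}) : Option {e // e ∈ E} :=
  if h : ∃ e' : {e // e ∈ E}, CLAM_Rt l T φ k.1 e.1 e'.1 then some h.choose else none

theorem CLAM_memF {n : ℕ} {l : Ty n} {E : Finset (Sym2 (Fin n))} {B : Finset (Fin n)}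
    {e : {e // e ∈ E}} {k : {b // b ∈ B}} : k ∈ CLAM_F' l E B e ↔ k.1 ∈ CLAM_F l e.1 := by
  unfold CLAM_F'
  rw [mem_subtype]

theorem CLAM_rt_spec {n : ℕ} {l : Ty n} {E T : Finset (Sym2 (Fin n))} {B : Finset (Fin n)}
    {φ : Sym2 (Fin n) → Fin n} {e : {e // e ∈ E}} {k : {b // b ∈ B}} {e' : {e // e ∈ E}}
    (h : CLAM_rt l E T B φ e k = some e') : CLAM_Rt l T φ k.1 e.1 e'.1 := by
  unfold CLAM_rt at h
  split_ifs at h with h1
  rw [Option.some.injEq] at h
  rw [← h]
  exact h1.choose_spec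

theorem CLAM_rt_of {n : ℕ} {l : Ty n} {E T : Finset (Sym2 (Fin n))} {B : Finset (Fin n)}
    {φ : Sym2 (Fin n) → Fin n} {e : {e // e ∈ E}} {k : {b // b ∈ B}} {e' : {e // e ∈ E}}
    (h : CLAM_Rt l T φ k.1 e.1 e'.1) : CLAM_rt l E T B φ e k = some e' := by
  have hex : ∃ e' : {e // e ∈ E}, CLAM_Rt l T φ k.1 e.1 e'.1 := ⟨e', h⟩
  unfold CLAM_rt
  rw [dif_pos hex]
  congr 1
  exact Subtype.ext (CLAM_unique h _ hex.choose_spec).symm

open Classical in
/-- Lemma LC for a set of objects which give valid functions -/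
theorem CLAM_gen {X ι κ : Type*} [Fintype ι] [Fintype κ] (𝓛 : Finset X) (F : ι → Finset κ)
    (T : Finset ι) (φ : ι → κ) (rt : ι → κ → Option ι) (m : ℕ) (hκ : 1 ≤ Fintype.card κ)
    (hrt : ∀ e, e ∉ T → ∀ k ∈ F e, ∀ e', rt e k = some e' →
      (e' ∈ T ∧ φ e' = k) ∨ (e' ∉ T ∧ k ∉ F e'))
    (hm : ∀ e' k (s : Finset ι), (∀ e ∈ s, e ∉ T ∧ k ∈ F e ∧ rt e k = some e') → s.card ≤ m)
    (fv : X → ι → κ) (hinj : ∀ x ∈ 𝓛, ∀ y ∈ 𝓛, fv x = fv y → x = y)
    (h1 : ∀ x ∈ 𝓛, ∀ e ∈ T, fv x e = φ e)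
    (h2 : ∀ x ∈ 𝓛, ∀ e, e ∉ T → fv x e ∈ F e → ∃ e', rt e (fv x e) = some e' ∧ fv x e' = fv x e) :
    (𝓛.card : ℝ) ≤ (Fintype.card κ : ℝ) ^ (Fintype.card ι - T.card) *
      Real.exp (-((∑ e, ((F e).card : ℝ)) / Fintype.card κ)) *
      (Real.exp 1 * (1 + Real.exp 1 / Fintype.card κ) ^ m) ^ T.card *
      Real.exp ((Real.exp 1 / Fintype.card κ) ^ 2 * (1 + Real.exp 1 / Fintype.card κ) ^ m *
        ∑ e, ((F e).card : ℝ)) := by
  refine le_trans ?_ (LC F T φ rt m hκ hrt (fun e' k => hm e' k _ fun e he => (mem_filter.1 he).2))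
  have : 𝓛.card ≤ (univ.filter (fun f : ι → κ => (∀ e ∈ T, f e = φ e) ∧
      ∀ e, e ∉ T → f e ∈ F e → ∃ e', rt e (f e) = some e' ∧ f e' = f e)).card := by
    refine card_le_card_of_injOn fv ?_ ?_
    · intro x hx
      rw [mem_coe] at hx
      rw [mem_coe, mem_filter]
      exact ⟨mem_univ _, h1 x hx, h2 x hx⟩
    · intro x hx y hy h
      exact hinj x (mem_coe.1 hx) y (mem_coe.1 hy) h
  exact_mod_cast this

open Classical in
/-- the multiplicity condition -/
theorem CLAM_mult {n : ℕ} {l : Ty n} {E T : Finset (Sym2 (Fin n))} {B : Finset (Fin n)}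
    {φ : Sym2 (Fin n) → Fin n} {m : ℕ}
    (few : ∀ b, (univ.filter (fun u => l u b ≠ none)).card * 2 ≤ m)
    (e' : {e // e ∈ E}) (k : {b // b ∈ B}) (s0 : Finset {e // e ∈ E})
    (hs0 : ∀ e ∈ s0, CLAM_rt l E T B φ e k = some e') : s0.card ≤ m := by
  have hsub : s0.image (fun e => e.1) ⊆
      ((univ.filter (fun u => l u k.1 ≠ none)) ×ˢ
        (univ.filter (fun v => v ∈ e'.1))).image (fun q => s(q.1, q.2)) := by
    intro e he
    rw [mem_image] at he
    obtain ⟨e2, he2, rfl⟩ := he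
    obtain ⟨u, v, h1, h2, h3, h4⟩ := CLAM_desc (CLAM_rt_spec (hs0 e2 he2))
    rw [mem_image]
    refine ⟨(u, v), ?_, h1.symm⟩
    rw [mem_product, mem_filter, mem_filter]
    exact ⟨⟨mem_univ _, h2⟩, mem_univ _, h4⟩
  have h1 := card_le_card hsub
  rw [card_image_of_injective _ Subtype.val_injective] at h1
  have h2 := h1.trans card_image_le
  rw [card_product] at h2
  have h3 : (univ.filter (fun v => v ∈ e'.1)).card ≤ 2 := by
    obtain ⟨e0, he0⟩ := e'
    simp only
    induction e0 with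
    | _ x y =>
      have : univ.filter (fun v => v ∈ s(x, y)) ⊆ {x, y} := by
        intro v hv
        rw [mem_filter, Sym2.mem_iff] at hv
        rw [mem_insert, mem_singleton]
        exact hv.2
      exact (card_le_card this).trans card_le_two
  exact (h2.trans (Nat.mul_le_mul_left _ h3)).trans (few k.1)

open Classical in
/-- Lemma LC for a set of labellings -/
theorem CLAM_core {n : ℕ} {l : Ty n} {E T : Finset (Sym2 (Fin n))} {B : Finset (Fin n)}
    (hB : 1 ≤ B.card) (φ : Sym2 (Fin n) → Fin n) (hφ : ∀ e, φ e ∈ B) (hTE : T ⊆ E)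
    (hF : ∀ e, CLAM_F l e ⊆ B) (𝓛 : Finset (Lb n))
    (hin : ∀ lam ∈ 𝓛, ∀ e ∈ E, ∃ b ∈ B, lam e = some b) (hout : ∀ lam ∈ 𝓛, ∀ e ∉ E, lam e = none)
    (hT : ∀ lam ∈ 𝓛, ∀ e ∈ T, lam e = some (φ e))
    (user1 : ∀ lam ∈ 𝓛, ∀ u b a v, l u b = some (0, a) → lam s(u, v) = some b →
      l v b ≠ none ∨ lam s(a, v) = some b)
    (user2 : ∀ lam ∈ 𝓛, ∀ u b c v, l u b = some (1, c) → lam s(u, v) = some b → l v c ≠ none)
    (user3 : ∀ lam ∈ 𝓛, ∀ u b c v, l u b = some (2, c) → lam s(u, v) = some b → l v c ≠ none)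
    (r : Fin n → Fin n → ℕ) (hr : ∀ u b a, l u b = some (0, a) → r a b < r u b) (m : ℕ)
    (few : ∀ b, (univ.filter (fun u => l u b ≠ none)).card * 2 ≤ m) :
    (𝓛.card : ℝ) ≤ (B.card : ℝ) ^ (E.card - T.card) *
      Real.exp (-((∑ e ∈ E, ((CLAM_F l e).card : ℝ)) / B.card)) *
      (Real.exp 1 * (1 + Real.exp 1 / B.card) ^ m) ^ T.card *
      Real.exp ((Real.exp 1 / B.card) ^ 2 * (1 + Real.exp 1 / B.card) ^ m *
        ∑ e ∈ E, ((CLAM_F l e).card : ℝ)) := by
  let T' : Finset {e // e ∈ E} := univ.filter (fun e => e.1 ∈ T)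
  have hmemT' : ∀ e : {e // e ∈ E}, e ∈ T' ↔ e.1 ∈ T := by
    intro e
    simp only [T', mem_filter, mem_univ, true_and]
  let φ' : {e // e ∈ E} → {b // b ∈ B} := fun e => ⟨φ e.1, hφ e.1⟩
  have c1 : Fintype.card {b // b ∈ B} = B.card := Fintype.card_coe B
  have c2 : Fintype.card {e // e ∈ E} = E.card := Fintype.card_coe _
  have c3 : T'.card = T.card := by
    have : T = T'.image (fun e => e.1) := by
      ext e
      rw [mem_image]
      constructor
      · intro he
        exact ⟨⟨e, hTE he⟩, (hmemT' _).2 he, rfl⟩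
      · rintro ⟨e', he', rfl⟩
        exact (hmemT' e').1 he'
    rw [this, card_image_of_injective _ Subtype.val_injective]
  have c4 : ∑ e, (((CLAM_F' l E B) e).card : ℝ) = ∑ e ∈ E, ((CLAM_F l e).card : ℝ) := by
    rw [← Finset.sum_coe_sort E (fun e => ((CLAM_F l e).card : ℝ))]
    refine sum_congr rfl fun e _ => ?_
    unfold CLAM_F'
    rw [card_subtype]
    congr 2
    rw [filter_eq_self]
    intro b hb
    exact hF e.1 hb
  -- counting
  let fv : Lb n → {e // e ∈ E} → {b // b ∈ B} := fun lam e =>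
    if h : ∃ b : {b // b ∈ B}, lam e.1 = some b.1 then h.choose else φ' e
  have hfv : ∀ lam ∈ 𝓛, ∀ e : {e // e ∈ E}, lam e.1 = some (fv lam e).1 := by
    intro lam hv e
    obtain ⟨b, hb, h1⟩ := hin lam hv e.1 e.2
    have hex : ∃ b : {b // b ∈ B}, lam e.1 = some b.1 := ⟨⟨b, hb⟩, h1⟩
    simp only [fv]
    rw [dif_pos hex]
    exact hex.choose_spec
  have hlc := CLAM_gen 𝓛 (CLAM_F' l E B) T' φ' (CLAM_rt l E T B φ) m
    (by rw [Fintype.card_coe]; exact hB)
    (by
      intro e _ k _ e' he'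
      rcases CLAM_root (CLAM_rt_spec he') with h1 | h1
      · exact Or.inl ⟨(hmemT' e').2 h1.1, Subtype.ext h1.2⟩
      · exact Or.inr ⟨fun h => h1.1 ((hmemT' e').1 h), fun h => h1.2 (CLAM_memF.1 h)⟩)
    (fun e' k s0 hs0 => CLAM_mult (T := T) (φ := φ) few e' k s0 fun e he => (hs0 e he).2.2)
    fv
    (by
      intro lam hlam lam' hlam' h
      funext e
      by_cases he : e ∈ E
      · rw [hfv lam hlam ⟨e, he⟩, hfv lam' hlam' ⟨e, he⟩, h]
      · rw [hout lam hlam e he, hout lam' hlam' e he])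
    (by
      intro lam hlam e he
      have h1 := hT lam hlam e.1 ((hmemT' e).1 he)
      rw [hfv lam hlam e, Option.some.injEq] at h1
      exact Subtype.ext h1)
    (by
      intro lam hlam e he hFe
      have hFe1 := CLAM_memF.1 hFe
      have hFe' := hFe1
      unfold CLAM_F at hFe'
      rw [mem_filter] at hFe'
      obtain ⟨_, u, v, h1, h2, h3, h4⟩ := hFe'
      have h5 := hfv lam hlam e
      rw [h1] at h5 hFe1
      obtain ⟨e', h6, h7⟩ := CLAM_exists (l := l) (T := T) (φ := φ) (lam := lam)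
        (hT lam hlam) (user1 lam hlam) (user2 lam hlam) (user3 lam hlam) r hr (fv lam e).1
        (r u (fv lam e).1) u v rfl h2 h3 hFe1 h5
      have h8 : e' ∈ E := by
        by_contra h9
        rw [hout lam hlam e' h9] at h7
        simp at h7
      rw [← h1] at h6
      refine ⟨⟨e', h8⟩, CLAM_rt_of h6, ?_⟩
      rw [hfv lam hlam ⟨e', h8⟩, Option.some.injEq] at h7
      exact Subtype.ext h7)
  rw [c1, c2, c3, c4] at hlc
  exact hlc

open Classical in
/-- Lemma LC in concrete form -/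
theorem CLAM_LC {n : ℕ} {B : Finset (Fin n)} {QA QB : Sys n} (hB : 1 ≤ B.card) (mu : Lb n)
    (l : Ty n) (S : Finset (Sym2 (Fin n))) (b₁ : Fin n) (hS : S ⊆ EA B QA) (lam0 : Lb n)
    (hv0 : VDat B QA QB lam0 mu l) (hs0 : ∀ e ∈ S, lam0 e = some b₁) :
    ((univ.filter (fun lam : Lb n => VDat B QA QB lam mu l ∧ ∀ e ∈ S, lam e = some b₁)).card : ℝ) ≤
    (B.card : ℝ) ^ ((EA B QA).card - (Tset mu l ∪ S).card) *
      Real.exp (-((∑ e ∈ EA B QA, ((CLAM_F l e).card : ℝ)) / B.card)) *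
      (Real.exp 1 * (1 + Real.exp 1 / B.card) ^ ⌊(n : ℝ) / 500⌋₊) ^ (Tset mu l ∪ S).card *
      Real.exp ((Real.exp 1 / B.card) ^ 2 * (1 + Real.exp 1 / B.card) ^ ⌊(n : ℝ) / 500⌋₊ *
        ∑ e ∈ EA B QA, ((CLAM_F l e).card : ℝ)) := by
  have hin : ∀ lam : Lb n, VDat B QA QB lam mu l → ∀ e ∈ EA B QA, ∃ b ∈ B, lam e = some b := by
    intro lam hv e he
    have h1 := hv.hlam
    unfold labs at h1
    rw [mem_filter] at h1
    have h2 : lam e ≠ none := by
      intro h3
      exact ((h1.2.1 e).1 h3) he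
    obtain ⟨b, hb⟩ := Option.ne_none_iff_exists'.1 h2
    exact ⟨b, h1.2.2 e b hb, hb⟩
  have hnone : ∀ lam : Lb n, VDat B QA QB lam mu l → ∀ e, e ∉ EA B QA → lam e = none := by
    intro lam hv e he
    have h1 := hv.hlam
    unfold labs at h1
    rw [mem_filter] at h1
    exact (h1.2.1 e).2 he
  have hTval : ∀ lam : Lb n, VDat B QA QB lam mu l → ∀ u b c a, l u b = some (2, c) →
      mu s(c, b) = some a → lam s(u, a) = some c := by
    intro lam hv u b c a h1 h2
    obtain ⟨a', h3, h4⟩ := hv.ty3 u b c h1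
    rw [h2, Option.some.injEq] at h3
    rw [h3]; exact h4
  have hTEA : Tset mu l ∪ S ⊆ EA B QA := by
    refine union_subset ?_ hS
    intro e he
    unfold Tset at he
    rw [mem_filter] at he
    obtain ⟨_, u, b, c, a, h1, h2, rfl⟩ := he
    by_contra h3
    have h4 := hnone lam0 hv0 _ h3
    rw [hTval lam0 hv0 u b c a h1 h2] at h4
    simp at h4
  obtain ⟨b0, hb0⟩ := card_pos.1 (lt_of_lt_of_le Nat.zero_lt_one hB)
  obtain ⟨r, hr⟩ := hv0.rank
  let φ : Sym2 (Fin n) → Fin n := fun e => if (lam0 e).getD b0 ∈ B then (lam0 e).getD b0 else b0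
  have hφB : ∀ e, φ e ∈ B := by
    intro e
    simp only [φ]
    split_ifs with h
    · exact h
    · exact hb0
  have hφ : ∀ e ∈ EA B QA, lam0 e = some (φ e) := by
    intro e he
    obtain ⟨b, hb, h1⟩ := hin lam0 hv0 e he
    simp only [φ, h1, Option.getD_some]
    rw [if_pos hb]
  refine CLAM_core hB φ hφB hTEA ?_ _ ?_ ?_ ?_ ?_ ?_ ?_ r hr _ ?_
  · intro e b hb
    unfold CLAM_F at hb
    rw [mem_filter] at hb
    obtain ⟨_, u, v, _, h2, _⟩ := hb
    exact (hv0.l_AB u b h2).2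
  · intro lam hlam
    exact hin lam (mem_filter.1 hlam).2.1
  · intro lam hlam
    exact hnone lam (mem_filter.1 hlam).2.1
  · intro lam hlam e he
    obtain ⟨_, hv, hs⟩ := mem_filter.1 hlam
    rw [← hφ e (hTEA he)]
    rw [mem_union] at he
    rcases he with he | he
    · unfold Tset at he
      rw [mem_filter] at he
      obtain ⟨_, u, b, c, a, h1, h2, rfl⟩ := he
      rw [hTval lam hv u b c a h1 h2, hTval lam0 hv0 u b c a h1 h2]
    · rw [hs e he, hs0 e he]
  · intro lam hlam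
    exact (mem_filter.1 hlam).2.1.user1
  · intro lam hlam
    exact (mem_filter.1 hlam).2.1.user2
  · intro lam hlam
    exact (mem_filter.1 hlam).2.1.user3
  · intro b
    apply Nat.le_floor
    have h1 := hv0.few b
    push_cast
    have h2 : (univ.filter (fun u => l u b ≠ none)).card = (univ.filter (fun u => l u b ≠ none)).card :=
      rfl
    linarith

open Classical in
/-- lower bound for the number of compatible labellings -/
theorem CLAM_compat {n : ℕ} {B : Finset (Fin n)} {QA QB : Sys n} (hB : 1 ≤ B.card) (mu : Lb n)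
    (l : Ty n) (lam0 : Lb n) (hv0 : VDat B QA QB lam0 mu l) :
    B.card ^ ((EA B QA).card - (Tset mu l).card) ≤ (compat B QA mu l).card := by
  have h1 := hv0.hlam
  unfold labs at h1
  rw [mem_filter] at h1
  have hTEA : Tset mu l ⊆ EA B QA := by
    intro e he
    unfold Tset at he
    rw [mem_filter] at he
    obtain ⟨_, u, b, c, a, h2, h3, rfl⟩ := he
    by_contra h4
    have h5 := (h1.2.1 _).2 h4
    obtain ⟨a', h6, h7⟩ := hv0.ty3 u b c h2
    rw [h3, Option.some.injEq] at h6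
    rw [← h6, h5] at h7
    simp at h7
  let tt' : Sym2 (Fin n) → Finset (Option (Fin n)) := fun e =>
    if e ∈ EA B QA then (if e ∈ Tset mu l then {lam0 e} else B.image some) else {none}
  have hc : (Fintype.piFinset tt').card = B.card ^ ((EA B QA).card - (Tset mu l).card) := by
    rw [Fintype.card_piFinset, ← card_sdiff_of_subset hTEA, ← prod_const,
      ← Finset.prod_subset (Finset.subset_univ (EA B QA \ Tset mu l))]
    · refine prod_congr rfl fun e he => ?_
      rw [mem_sdiff] at he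
      simp only [tt']
      rw [if_pos he.1, if_neg he.2, card_image_of_injective _ (Option.some_injective _)]
    · intro e _ he
      simp only [tt']
      by_cases h2 : e ∈ EA B QA
      · by_cases h3 : e ∈ Tset mu l
        · rw [if_pos h2, if_pos h3, card_singleton]
        · exact absurd (mem_sdiff.2 ⟨h2, h3⟩) he
      · rw [if_neg h2, card_singleton]
  rw [← hc]
  refine card_le_card fun lam hlam => ?_
  rw [Fintype.mem_piFinset] at hlam
  have hin : ∀ e ∈ EA B QA, ∃ b ∈ B, lam e = some b := by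
    intro e he
    have h2 := hlam e
    simp only [tt'] at h2
    rw [if_pos he] at h2
    split_ifs at h2 with h3
    · rw [mem_singleton] at h2
      have h4 : lam0 e ≠ none := fun h5 => ((h1.2.1 e).1 h5) he
      obtain ⟨b, hb⟩ := Option.ne_none_iff_exists'.1 h4
      exact ⟨b, h1.2.2 e b hb, by rw [h2, hb]⟩
    · rw [mem_image] at h2
      obtain ⟨b, hb, hb'⟩ := h2
      exact ⟨b, hb, hb'.symm⟩
  have hout : ∀ e, e ∉ EA B QA → lam e = none := by
    intro e he
    have h2 := hlam e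
    simp only [tt'] at h2
    rw [if_neg he, mem_singleton] at h2
    exact h2
  unfold compat labs
  rw [mem_filter, mem_filter]
  refine ⟨⟨mem_univ _, ?_, ?_⟩, ?_⟩
  · intro e
    constructor
    · intro h2 h3
      obtain ⟨b, _, hb⟩ := hin e h3
      rw [hb] at h2
      simp at h2
    · exact hout e
  · intro e b hb
    by_cases he : e ∈ EA B QA
    · obtain ⟨b', hb', h2⟩ := hin e he
      rw [hb, Option.some.injEq] at h2
      rw [h2]; exact hb'
    · rw [hout e he] at hb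
      simp at hb
  · intro u b c h2
    obtain ⟨a, h3, h4⟩ := hv0.ty3 u b c h2
    refine ⟨a, h3, ?_⟩
    have h5 : s(u, a) ∈ Tset mu l := by
      unfold Tset
      rw [mem_filter]
      exact ⟨mem_univ _, u, b, c, a, h2, h3, rfl⟩
    have h6 := hlam s(u, a)
    simp only [tt'] at h6
    rw [if_pos (hTEA h5), if_pos h5, mem_singleton] at h6
    rw [h6]; exact h4

open Classical in
/-- Blueprint 2.6. Lemma LC is applied with `ι` = the pairs of `EA B QA`, `κ` = the hubs, `T` =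
`Tset mu l ∪ S`, the forbidden sets and roots of 2.6, `m = floor (n/500)`. -/
theorem count_lam {n : ℕ} {B : Finset (Fin n)} {QA QB : Sys n} (hQA : IsFam Bᶜ QA)
    (hQB : IsFam B QB) (hB : 1 ≤ B.card) (mu : Lb n) (l : Ty n) (S : Finset (Sym2 (Fin n)))
    (b₁ : Fin n) (hS : S ⊆ EA B QA) (hd : Disjoint S (Tset mu l)) :
    ((univ.filter (fun lam : Lb n => VDat B QA QB lam mu l ∧ ∀ e ∈ S, lam e = some b₁)).card : ℝ) ≤
      ((compat B QA mu l).card : ℝ) * (ccv B / B.card) ^ S.card *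
        ∏ p ∈ Zs l, wpr B QA p.1 := by
  have hk : (0 : ℝ) < B.card := by exact_mod_cast hB
  have hx0 : 0 ≤ Real.exp 1 / (B.card : ℝ) := by positivity
  have hcc : 1 ≤ ccv B := by
    unfold ccv
    have h1 : 1 ≤ Real.exp 1 := Real.one_le_exp zero_le_one
    have h2 : 1 ≤ (1 + Real.exp 1 / (B.card : ℝ)) ^ ⌊(n : ℝ) / 500⌋₊ :=
      one_le_pow₀ (by linarith)
    exact one_le_mul_of_one_le_of_one_le h1 h2
  have hcc0 : 0 < ccv B := by linarith
  have hw0 : ∀ p ∈ Zs l, 0 ≤ wpr B QA p.1 := by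
    intro p _
    unfold wpr
    positivity
  by_cases hne : ∃ lam0 : Lb n, VDat B QA QB lam0 mu l ∧ ∀ e ∈ S, lam0 e = some b₁
  swap
  · have : univ.filter (fun lam : Lb n => VDat B QA QB lam mu l ∧ ∀ e ∈ S, lam e = some b₁) = ∅ := by
      rw [filter_eq_empty_iff]
      intro lam _ h
      exact hne ⟨lam, h⟩
    rw [this, card_empty, Nat.cast_zero]
    exact mul_nonneg (by positivity) (prod_nonneg hw0)
  obtain ⟨lam0, hv0, hs0⟩ := hne
  have h1 := CLAM_LC hB mu l S b₁ hS lam0 hv0 hs0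
  rw [show Real.exp 1 * (1 + Real.exp 1 / (B.card : ℝ)) ^ ⌊(n : ℝ) / 500⌋₊ = ccv B by
    unfold ccv; rfl] at h1
  have h2 := CLAM_compat hB mu l lam0 hv0
  refine h1.trans ?_
  have hTEA : Tset mu l ⊆ EA B QA := by
    intro e he
    unfold Tset at he
    rw [mem_filter] at he
    obtain ⟨_, u, b, c, a, h2, h3, rfl⟩ := he
    have h1 := hv0.hlam
    unfold labs at h1
    rw [mem_filter] at h1
    by_contra h4
    have h5 := (h1.2.1 _).2 h4
    obtain ⟨a', h6, h7⟩ := hv0.ty3 u b c h2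
    rw [h3, Option.some.injEq] at h6
    rw [← h6, h5] at h7
    simp at h7
  have hcard : (Tset mu l ∪ S).card = (Tset mu l).card + S.card :=
    card_union_of_disjoint hd.symm
  have hle : (Tset mu l).card + S.card ≤ (EA B QA).card := by
    rw [← hcard]
    exact card_le_card (union_subset hTEA hS)
  have hTz := card_Tset mu l
  rw [hcard]
  set C : ℝ := (Real.exp 1 / B.card) ^ 2 * (1 + Real.exp 1 / B.card) ^ ⌊(n : ℝ) / 500⌋₊ with hC
  have hC0 : 0 ≤ C := by positivity
  set Φ : ℝ := ∑ e ∈ EA B QA, ((CLAM_F l e).card : ℝ) with hΦ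
  have hsum : Φ = ∑ p ∈ Zs l, ((univ.filter (fun v => s(p.1, v) ∈ EA B QA ∧
      l v p.2 = none ∧ ∀ c, (l p.1 p.2 = some (1, c) ∨ l p.1 p.2 = some (2, c)) →
        l v c = none)).card : ℝ) := by
    rw [hΦ]
    have := CLAM_sum (B := B) (QA := QA) l
    exact_mod_cast this
  have hlow : ∑ p ∈ Zs l, ((Bᶜ.card : ℝ) - 1 - dgr (fD QA) p.1 - n / 500) ≤ Φ := by
    rw [hsum]
    refine sum_le_sum fun p hp => ?_
    unfold Zs at hp
    rw [mem_filter] at hp
    exact CLAM_low hv0.l_AB hv0.few p.1 p.2 hp.2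
  have hup : Φ ≤ (Zs l).card * n := by
    rw [hsum]
    refine (sum_le_card_nsmul _ _ (n : ℝ) fun p _ => ?_).trans (le_of_eq (by rw [nsmul_eq_mul]))
    have h3 := card_le_univ (univ.filter (fun v => s(p.1, v) ∈ EA B QA ∧
      l v p.2 = none ∧ ∀ c, (l p.1 p.2 = some (1, c) ∨ l p.1 p.2 = some (2, c)) →
        l v c = none))
    rw [Fintype.card_fin] at h3
    exact_mod_cast h3
  have hprod : ∏ p ∈ Zs l, wpr B QA p.1 =
      Real.exp (-((∑ p ∈ Zs l, ((Bᶜ.card : ℝ) - 1 - dgr (fD QA) p.1 - n / 500)) / B.card)) *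
        ccv B ^ (Zs l).card * Real.exp (n * C) ^ (Zs l).card := by
    unfold wpr
    rw [prod_mul_distrib, prod_mul_distrib, prod_const, prod_const, ← Real.exp_sum]
    have e1 : ∑ p ∈ Zs l, -(((Bᶜ.card : ℝ) - 1 - dgr (fD QA) p.1 - n / 500) / B.card) =
        -((∑ p ∈ Zs l, ((Bᶜ.card : ℝ) - 1 - dgr (fD QA) p.1 - n / 500)) / B.card) := by
      rw [sum_neg_distrib, sum_div]
    have e2 : (n : ℝ) * (Real.exp 1 / B.card) ^ 2 * (1 + Real.exp 1 / B.card) ^ ⌊(n : ℝ) / 500⌋₊ =
        n * C := by rw [hC]; ring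
    rw [e1, e2]
  rw [hprod]
  have k1 : (B.card : ℝ) ^ ((EA B QA).card - ((Tset mu l).card + S.card)) * ccv B ^ S.card ≤
      (compat B QA mu l).card * (ccv B / B.card) ^ S.card := by
    have e1 : (EA B QA).card - (Tset mu l).card =
        ((EA B QA).card - ((Tset mu l).card + S.card)) + S.card := by omega
    have e2 : ((B.card ^ ((EA B QA).card - (Tset mu l).card) : ℕ) : ℝ) ≤
        (compat B QA mu l).card := by exact_mod_cast h2
    rw [e1] at e2
    push_cast at e2
    calc (B.card : ℝ) ^ ((EA B QA).card - ((Tset mu l).card + S.card)) * ccv B ^ S.card =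
        (B.card : ℝ) ^ (((EA B QA).card - ((Tset mu l).card + S.card)) + S.card) *
          (ccv B / B.card) ^ S.card := by
          rw [pow_add, div_pow]
          field_simp
      _ ≤ _ := mul_le_mul_of_nonneg_right e2 (by positivity)
  have k2 : Real.exp (-(Φ / B.card)) ≤
      Real.exp (-((∑ p ∈ Zs l, ((Bᶜ.card : ℝ) - 1 - dgr (fD QA) p.1 - n / 500)) / B.card)) := by
    refine Real.exp_le_exp.2 (neg_le_neg ?_)
    exact div_le_div_of_nonneg_right hlow hk.le
  have k3 : ccv B ^ (Tset mu l).card ≤ ccv B ^ (Zs l).card := pow_le_pow_right₀ hcc hTz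
  have k4 : Real.exp (C * Φ) ≤ Real.exp (n * C) ^ (Zs l).card := by
    rw [← Real.exp_nat_mul]
    refine Real.exp_le_exp.2 ?_
    calc C * Φ ≤ C * ((Zs l).card * n) := mul_le_mul_of_nonneg_left hup hC0
      _ = _ := by ring
  calc (B.card : ℝ) ^ ((EA B QA).card - ((Tset mu l).card + S.card)) *
      Real.exp (-(Φ / B.card)) * ccv B ^ ((Tset mu l).card + S.card) * Real.exp (C * Φ) =
      ((B.card : ℝ) ^ ((EA B QA).card - ((Tset mu l).card + S.card)) * ccv B ^ S.card) *
        (Real.exp (-(Φ / B.card)) * ccv B ^ (Tset mu l).card * Real.exp (C * Φ)) := by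
        rw [pow_add]; ring
    _ ≤ ((compat B QA mu l).card * (ccv B / B.card) ^ S.card) *
        (Real.exp (-((∑ p ∈ Zs l, ((Bᶜ.card : ℝ) - 1 - dgr (fD QA) p.1 - n / 500)) / B.card)) *
        ccv B ^ (Zs l).card * Real.exp (n * C) ^ (Zs l).card) := by
        refine mul_le_mul k1 (mul_le_mul (mul_le_mul k2 k3 (by positivity) (by positivity)) k4
          (by positivity) (by positivity)) (by positivity) (by positivity)

end PSys
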