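import Mathlib
import Pool.Agent.PSys.Spec1

/-! Module CALC1 (blueprint 1.5): the calculus of Stage 1. -/

open Finset Filter

namespace PSys

theorem CALC1_log {r : ℝ} (hr : 0 < r) : Real.log r ≤ r - 1 - (Real.sqrt r - 1) ^ 2 := by
  have h1 : Real.log r = 2 * Real.log (Real.sqrt r) := by
    rw [Real.log_sqrt hr.le]; ring
  have h2 := Real.log_le_sub_one_of_pos (Real.sqrt_pos.2 hr)
  have h3 := Real.sq_sqrt hr.le
  rw [h1]
  nlinarith

theorem CALC1_caseB {ε u A B N' M q r : ℝ} (hε : 0 < ε) (hε1 : ε ≤ 1) (hu : 0 < u)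
    (hA0 : 0 ≤ A) (hA : A < u / 4) (hMA : M ≤ A) (hB : 14 * B ≤ (ε ^ 2 / 2000) * A)
    (hNl : 49 / 100 * u ≤ N') (hq0 : 0 ≤ q) (hqr : q ^ 2 = r)
    (hNr : N' * r ≤ M + 2 / 1000 * N') :
    14 * B + 2 * ((ε ^ 2 / 1000) * u) ≤ (A - M) + N' * (q - 1) ^ 2 := by
  have hε2 : ε ^ 2 ≤ 1 := pow_le_one₀ hε.le hε1
  have hN0 : 0 < N' := by linarith
  have hr1 : r ≤ 9 / 16 := by
    by_contra hcon
    push Not at hcon
    have := mul_lt_mul_of_pos_left hcon hN0
    linarith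
  have hq1 : q ≤ 3 / 4 := by
    by_contra hcon
    push Not at hcon
    have : (3 / 4 : ℝ) ^ 2 < q ^ 2 := pow_lt_pow_left₀ hcon (by norm_num) (by norm_num)
    rw [hqr] at this
    norm_num at this
    linarith
  have h1 : 1 / 16 ≤ (q - 1) ^ 2 := by nlinarith
  have h2 := mul_le_mul_of_nonneg_left h1 hN0.le
  have h3 := mul_le_mul_of_nonneg_right hε2 hA0
  have h4 := mul_le_mul_of_nonneg_right hε2 hu.le
  linarith

theorem CALC1_caseA {ε u A B M P : ℝ} (hε : 0 < ε) (hε1 : ε ≤ 1) (hu : 0 < u)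
    (hA : u / 4 ≤ A) (hM : M < (1 - ε / 4) * A) (hB : 14 * B ≤ (ε ^ 2 / 2000) * A)
    (hP : 0 ≤ P) :
    14 * B + 2 * ((ε ^ 2 / 1000) * u) ≤ (A - M) + P := by
  have hA0 : 0 ≤ A := by linarith
  have he2 : ε ^ 2 ≤ ε := by nlinarith
  have h6 := mul_le_mul_of_nonneg_right he2 hA0
  have h7 := mul_le_mul_of_nonneg_right he2 hu.le
  have h8 := mul_le_mul_of_nonneg_left hA hε.le
  nlinarith

theorem CALC1_caseC3 {ε u A B N' M q r : ℝ} (hε : 0 < ε) (hε1 : ε ≤ 1) (hu : 0 < u)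
    (hA : 2 * u < A) (hMA : M ≤ A) (hM : (1 - ε / 4) * A ≤ M)
    (hB : 14 * B ≤ (ε ^ 2 / 2000) * A)
    (hN0 : 0 < N') (hN : N' ≤ u / 2) (hq0 : 0 ≤ q) (hqr : q ^ 2 = r) (hNr : M ≤ N' * r) :
    14 * B + 2 * ((ε ^ 2 / 1000) * u) ≤ (A - M) + N' * (q - 1) ^ 2 := by
  have hε2 : ε ^ 2 ≤ 1 := pow_le_one₀ hε.le hε1
  have hA0 : 0 ≤ A := by linarith
  have h10 : 3 / 4 * A ≤ M := by
    have := mul_le_mul_of_nonneg_right hε1 hA0
    linarith
  have hr3 : 3 ≤ r := by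
    by_contra hcon
    push Not at hcon
    have := mul_lt_mul_of_pos_left hcon hN0
    linarith
  have hq17 : 17 / 10 ≤ q := by
    by_contra hcon
    push Not at hcon
    have : q ^ 2 < (17 / 10 : ℝ) ^ 2 := pow_lt_pow_left₀ hcon hq0 (by norm_num)
    rw [hqr] at this
    norm_num at this
    linarith
  have h12 : 4 / 25 * r ≤ (q - 1) ^ 2 := by
    rw [← hqr]; nlinarith
  have h13 := mul_le_mul_of_nonneg_left h12 hN0.le
  have h3 := mul_le_mul_of_nonneg_right hε2 hA0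
  have h4 := mul_le_mul_of_nonneg_right hε2 hu.le
  linarith

theorem CALC1_caseC1 {ε u A B N' M q r : ℝ} (hε : 0 < ε) (hε1 : ε ≤ 1) (hu : 0 < u)
    (hA0 : 0 ≤ A) (hA : A ≤ (1 - ε) * (u / 2)) (hMA : M ≤ A)
    (hB : 14 * B ≤ (ε ^ 2 / 2000) * A)
    (hNl : u / 2 - 7 / 1000 * (ε * u) ≤ N') (hq0 : 0 ≤ q) (hqr : q ^ 2 = r)
    (hNr : N' * r ≤ M + 2 / 1000 * (ε * N')) :
    14 * B + 2 * ((ε ^ 2 / 1000) * u) ≤ (A - M) + N' * (q - 1) ^ 2 := by
  have heu : 0 < ε * u := by positivity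
  have heu1 : ε * u ≤ u := by nlinarith
  have hNl2 : 49 / 100 * u ≤ N' := by linarith
  have hN0 : 0 < N' := by linarith
  have hr1 : r ≤ 1 - ε / 2 := by
    by_contra hcon
    push Not at hcon
    have h1 := mul_lt_mul_of_pos_left hcon hN0
    have h2 : N' * (1 - ε / 2) - 2 / 1000 * (ε * N') = N' * (1 - 502 / 1000 * ε) := by ring
    have h3 : (u / 2 - 7 / 1000 * (ε * u)) * (1 - 502 / 1000 * ε) ≤ N' * (1 - 502 / 1000 * ε) :=
      mul_le_mul_of_nonneg_right hNl (by linarith)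
    have h4 : (1 - ε) * (u / 2) ≤ (u / 2 - 7 / 1000 * (ε * u)) * (1 - 502 / 1000 * ε) := by
      have h5 : (u / 2 - 7 / 1000 * (ε * u)) * (1 - 502 / 1000 * ε) - (1 - ε) * (u / 2)
          = ε * u * (1 / 2 - 251 / 1000 - 7 / 1000 + 7 / 1000 * (502 / 1000) * ε) := by ring
      have h6 : 0 ≤ ε * u * (1 / 2 - 251 / 1000 - 7 / 1000 + 7 / 1000 * (502 / 1000) * ε) := by
        positivity
      linarith
    linarith
  have hq1 : q ≤ 1 - ε / 4 := by
    by_contra hcon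
    push Not at hcon
    have : (1 - ε / 4) ^ 2 < q ^ 2 := pow_lt_pow_left₀ hcon (by linarith) (by norm_num)
    rw [hqr] at this
    nlinarith
  have h1 : ε ^ 2 / 16 ≤ (q - 1) ^ 2 := by
    have h2 : ε / 4 ≤ 1 - q := by linarith
    have h3 := pow_le_pow_left₀ (by linarith : 0 ≤ ε / 4) h2 2
    nlinarith
  have h2 := mul_le_mul_of_nonneg_left h1 hN0.le
  have h3 : ε ^ 2 * A ≤ ε ^ 2 * u := mul_le_mul_of_nonneg_left (by nlinarith) (by positivity)
  have h4 : ε ^ 2 * (49 / 100 * u) ≤ ε ^ 2 * N' := mul_le_mul_of_nonneg_left hNl2 (by positivity)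
  have h5 : 0 < ε ^ 2 * u := by positivity
  linarith

theorem CALC1_caseC2 {ε u A B N' M q r : ℝ} (hε : 0 < ε) (hε1 : ε ≤ 1) (hu : 0 < u)
    (hA : (1 + ε) * (u / 2) ≤ A) (hA2 : A ≤ 2 * u) (hMA : M ≤ A) (hM : (1 - ε / 4) * A ≤ M)
    (hB : 14 * B ≤ (ε ^ 2 / 2000) * A)
    (hNl : 49 / 100 * u ≤ N') (hN : N' ≤ u / 2) (hq0 : 0 ≤ q) (hqr : q ^ 2 = r)
    (hNr : M ≤ N' * r) :
    14 * B + 2 * ((ε ^ 2 / 1000) * u) ≤ (A - M) + N' * (q - 1) ^ 2 := by
  have hN0 : 0 < N' := by linarith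
  have h19 : (1 + ε / 2) * (u / 2) ≤ M := by
    have h20 : (1 - ε / 4) * ((1 + ε) * (u / 2)) ≤ (1 - ε / 4) * A :=
      mul_le_mul_of_nonneg_left hA (by linarith)
    have h21 : (1 + ε / 2) * (u / 2) ≤ (1 - ε / 4) * ((1 + ε) * (u / 2)) := by
      have h22 : 1 + ε / 2 ≤ (1 - ε / 4) * (1 + ε) := by nlinarith
      have := mul_le_mul_of_nonneg_right h22 (by linarith : 0 ≤ u / 2)
      linarith
    linarith
  have hr1 : 1 + ε / 2 ≤ r := by
    by_contra hcon
    push Not at hcon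
    have h1 := mul_lt_mul_of_pos_left hcon hN0
    have h2 : N' * (1 + ε / 2) ≤ (u / 2) * (1 + ε / 2) :=
      mul_le_mul_of_nonneg_right hN (by linarith)
    linarith
  have hq1 : 1 + ε / 8 ≤ q := by
    by_contra hcon
    push Not at hcon
    have : q ^ 2 < (1 + ε / 8) ^ 2 := pow_lt_pow_left₀ hcon hq0 (by norm_num)
    rw [hqr] at this
    nlinarith
  have h1 : ε ^ 2 / 64 ≤ (q - 1) ^ 2 := by
    have h2 : ε / 8 ≤ q - 1 := by linarith
    have h3 := pow_le_pow_left₀ (by linarith : 0 ≤ ε / 8) h2 2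
    nlinarith
  have h2 := mul_le_mul_of_nonneg_left h1 hN0.le
  have h3 : ε ^ 2 * A ≤ ε ^ 2 * (2 * u) := mul_le_mul_of_nonneg_left hA2 (by positivity)
  have h4 : ε ^ 2 * (49 / 100 * u) ≤ ε ^ 2 * N' := mul_le_mul_of_nonneg_left hNl (by positivity)
  have h5 : 0 < ε ^ 2 * u := by positivity
  linarith

theorem CALC1_core {ε x L l E h N' M : ℝ} (hε : 0 < ε) (hε1 : ε ≤ 1) (hx : 100 ≤ ε * x)
    (hL : 1000 ≤ ε * L) (hl : 1 ≤ l) (hlL : 14 * l ≤ (ε ^ 2 / 2000) * L)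
    (hE : E + x ^ 2 / L ≤ (ε ^ 2 / 1000) * x ^ 2) (hh : 0 ≤ h)
    (hN' : N' = x * (x - 1) / 2 - h) (hN : 0 < N') (hM0 : 0 ≤ M) (hM : M ≤ h * L)
    (hyp : ¬ (|2 * h * L / x ^ 2 - 1| ≤ ε ∧ (1 - ε) * (h * L) ≤ M)) :
    x * (x - 1) / 2 + N' * Real.log ((M + 2 * N' / L) / N') + 13 * (h * l) + E
      + (ε ^ 2 / 1000) * x ^ 2 ≤ h * L := by
  have hx100 : 100 ≤ x := by
    by_contra hcon
    push Not at hcon
    have := mul_lt_mul_of_pos_left hcon hε
    linarith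
  have hL1000 : 1000 ≤ L := by
    by_contra hcon
    push Not at hcon
    have := mul_lt_mul_of_pos_left hcon hε
    linarith
  have hLpos : 0 < L := by linarith
  have hu : 0 < x ^ 2 := by positivity
  have hxu : x * (x - 1) / 2 = x ^ 2 / 2 - x / 2 := by ring
  have hxe : 100 * x ≤ ε * x ^ 2 := by
    have := mul_le_mul_of_nonneg_right hx (by linarith : 0 ≤ x)
    nlinarith
  rw [hxu] at hN' ⊢
  generalize x ^ 2 = u at *
  have hN'u : N' ≤ u / 2 := by linarith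
  obtain ⟨r, hr⟩ : ∃ r, r = (M + 2 * N' / L) / N' := ⟨_, rfl⟩
  have hrpos : 0 < r := by
    rw [hr]; positivity
  have hNr : N' * r = M + 2 * N' / L := by
    rw [hr]; field_simp
  rw [← hr]
  have hlog := CALC1_log hrpos
  obtain ⟨q, hq⟩ : ∃ q, q = Real.sqrt r := ⟨_, rfl⟩
  have hq0 : 0 ≤ q := by rw [hq]; exact Real.sqrt_nonneg r
  have hqr : q ^ 2 = r := by rw [hq]; exact Real.sq_sqrt hrpos.le
  rw [← hq] at hlog
  have h1 : N' * Real.log r ≤ M + 2 * N' / L - N' - N' * (q - 1) ^ 2 := by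
    have := mul_le_mul_of_nonneg_left hlog hN.le
    nlinarith
  have h2 : 2 * N' / L ≤ u / L := by
    rw [div_le_div_iff_of_pos_right hLpos]; linarith
  have hhl : 14 * (h * l) ≤ (ε ^ 2 / 2000) * (h * L) := by
    have := mul_le_mul_of_nonneg_left hlL hh
    nlinarith
  have hhl1 : h ≤ h * l := by
    have := mul_le_mul_of_nonneg_left hl hh
    linarith
  have hhL : 0 ≤ h * L := by positivity
  have h2N0 : 0 ≤ 2 * N' / L := by positivity
  have hheL : 1000 * h ≤ ε * (h * L) := by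
    have := mul_le_mul_of_nonneg_left hL hh
    nlinarith
  have hhL1 : 1000 * h ≤ h * L := by
    have := mul_le_mul_of_nonneg_left hL1000 hh
    linarith
  have hsm : 2 * N' / L ≤ 2 / 1000 * (ε * N') := by
    rw [div_le_iff₀ hLpos]
    have := mul_le_mul_of_nonneg_left hL hN.le
    nlinarith
  have hsm1 : 2 * N' / L ≤ 2 / 1000 * N' := by
    have := mul_le_mul_of_nonneg_right hε1 hN.le
    linarith
  have heu1 : ε * u ≤ u := by
    have := mul_le_mul_of_nonneg_right hε1 hu.le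
    linarith
  -- it suffices to prove the reduced inequality
  have hs : 14 * (h * l) + 2 * ((ε ^ 2 / 1000) * u) ≤ (h * L - M) + N' * (q - 1) ^ 2 := by
    by_cases hB : h * L < u / 4
    · exact CALC1_caseB hε hε1 hu hhL hB hM hhl (by linarith) hq0 hqr (by linarith)
    · push Not at hB
      by_cases hA : M < (1 - ε / 4) * (h * L)
      · exact CALC1_caseA hε hε1 hu hB hA hhl (by positivity)
      · push Not at hA
        have hA' : (1 - ε) * (h * L) ≤ M := by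
          have := mul_nonneg hε.le hhL
          linarith
        have hT : ¬ |2 * h * L / u - 1| ≤ ε := fun h9 => hyp ⟨h9, hA'⟩
        by_cases hC3 : 2 * u < h * L
        · exact CALC1_caseC3 hε hε1 hu hC3 hM hA hhl hN hN'u hq0 hqr (by linarith)
        · push Not at hC3
          have hhs : h ≤ 2 / 1000 * (ε * u) := by
            have := mul_le_mul_of_nonneg_left hC3 hε.le
            linarith
          have hNl : u / 2 - 7 / 1000 * (ε * u) ≤ N' := by linarith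
          rcases lt_or_ge (2 * h * L / u) 1 with hlt | hge
          · have h16 : 2 * h * L / u < 1 - ε := by
              by_contra hcon
              push Not at hcon
              apply hT
              rw [abs_le]; constructor <;> linarith
            have h17 : h * L ≤ (1 - ε) * (u / 2) := by
              rw [div_lt_iff₀ hu] at h16; linarith
            exact CALC1_caseC1 hε hε1 hu hhL h17 hM hhl hNl hq0 hqr (by linarith)
          · have h16 : 1 + ε < 2 * h * L / u := by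
              by_contra hcon
              push Not at hcon
              apply hT
              rw [abs_le]; constructor <;> linarith
            have h17 : (1 + ε) * (u / 2) ≤ h * L := by
              rw [lt_div_iff₀ hu] at h16; linarith
            exact CALC1_caseC2 hε hε1 hu h17 hC3 hM hA hhl (by linarith) hN'u hq0 hqr (by linarith)
  linarith

theorem CALC1_choose (N h : ℕ) {L : ℝ} (hL : 0 < L) :
    ((N.choose h : ℕ) : ℝ) ≤ Real.exp (N / L ^ 2 + 2 * (h * Real.log L)) := by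
  rcases Nat.lt_or_ge N h with hlt | hge
  · rw [Nat.choose_eq_zero_of_lt hlt, Nat.cast_zero]
    exact (Real.exp_pos _).le
  have hz : 0 < 1 / L ^ 2 := by positivity
  have h1 : (1 / L ^ 2) ^ h * (N.choose h : ℝ) ≤ (1 / L ^ 2 + 1) ^ N := by
    rw [add_pow]
    have h2 := Finset.single_le_sum (s := range (N + 1))
      (f := fun m => (1 / L ^ 2) ^ m * (1 : ℝ) ^ (N - m) * (N.choose m : ℝ))
      (fun m _ => by positivity) (Finset.mem_range.2 (Nat.lt_succ_of_le hge))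
    simpa using h2
  have h3 : (1 / L ^ 2 + 1) ^ N ≤ Real.exp (N / L ^ 2) := by
    have h4 := Real.add_one_le_exp (1 / L ^ 2)
    have h5 := pow_le_pow_left₀ (by positivity) h4 N
    rw [← Real.exp_nat_mul] at h5
    refine h5.trans (le_of_eq ?_)
    congr 1
    ring
  have h6 : Real.exp (2 * (h * Real.log L)) = (L ^ 2) ^ h := by
    have h7 : 2 * (h * Real.log L) = h * Real.log (L ^ 2) := by
      rw [Real.log_pow]; push_cast; ring
    rw [h7, Real.exp_nat_mul, Real.exp_log (by positivity)]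
  rw [Real.exp_add, h6]
  have h8 : ((N.choose h : ℕ) : ℝ) = ((1 / L ^ 2) ^ h * (N.choose h : ℝ)) * (L ^ 2) ^ h := by
    rw [one_div, inv_pow]
    have : (L ^ 2) ^ h ≠ 0 := by positivity
    field_simp
  rw [h8]
  exact mul_le_mul_of_nonneg_right (h1.trans h3) (by positivity)

theorem CALC1_ev (ε : ℝ) (hε : 0 < ε) : ∀ᶠ n : ℕ in atTop,
    100 ≤ ε * (n : ℝ) ∧ 2 ≤ (n : ℝ) ∧ 1000 ≤ ε * Real.log n ∧ 1000 ≤ Real.log n ∧
    1 ≤ Real.log (Real.log n) ∧
    14 * Real.log (Real.log n) ≤ (ε ^ 2 / 2000) * Real.log n ∧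
    14 * Real.log (Real.log n) ≤ (1 / 2000) * Real.log n ∧
    6000 ≤ ε ^ 2 * Real.log n ∧
    8000 * Real.log n ^ 4 ≤ ε ^ 2 * n := by
  have hx : Tendsto (fun n : ℕ => (n : ℝ)) atTop atTop := tendsto_natCast_atTop_atTop
  have hL : Tendsto (fun n : ℕ => Real.log (n : ℝ)) atTop atTop :=
    Real.tendsto_log_atTop.comp hx
  have hl : Tendsto (fun n : ℕ => Real.log (Real.log (n : ℝ))) atTop atTop :=
    Real.tendsto_log_atTop.comp hL
  have hsmall : ∀ c : ℝ, 0 < c → ∀ᶠ n : ℕ in atTop,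
      Real.log (Real.log n) ≤ c * Real.log n := by
    intro c hc
    have h1 := (Real.isLittleO_log_id_atTop.bound hc)
    have h2 := hL.eventually h1
    filter_upwards [h2, hL.eventually_ge_atTop 0] with n h3 h4
    simp only [id, Real.norm_eq_abs] at h3
    rw [abs_of_nonneg h4] at h3
    exact (le_abs_self _).trans h3
  have hpow : ∀ c : ℝ, 0 < c → ∀ᶠ n : ℕ in atTop, Real.log (n : ℝ) ^ 4 ≤ c * n := by
    intro c hc
    have h1 := ((Real.isLittleO_pow_log_id_atTop (n := 4)).bound hc)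
    have h2 := hx.eventually h1
    filter_upwards [h2] with n h3
    simp only [id, Real.norm_eq_abs] at h3
    rw [abs_of_nonneg (Nat.cast_nonneg n : (0:ℝ) ≤ (n:ℝ))] at h3
    exact (le_abs_self _).trans h3
  filter_upwards [hx.eventually_ge_atTop (100 / ε), hx.eventually_ge_atTop 2,
    hL.eventually_ge_atTop (1000 / ε), hL.eventually_ge_atTop 1000,
    hl.eventually_ge_atTop 1, hsmall (ε ^ 2 / 2000 / 14) (by positivity),
    hsmall (1 / 2000 / 14) (by positivity), hL.eventually_ge_atTop (6000 / ε ^ 2),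
    hpow (ε ^ 2 / 8000) (by positivity)] with n h1 h2 h3 h4 h5 h6 h7 h8 h9
  refine ⟨?_, h2, ?_, h4, h5, ?_, ?_, ?_, ?_⟩
  · rw [div_le_iff₀ hε] at h1; linarith
  · rw [div_le_iff₀ hε] at h3; linarith
  · linarith
  · linarith
  · rw [div_le_iff₀ (by positivity)] at h8; linarith
  · linarith

theorem CALC1_fac {n : ℕ} (h : ℕ) {L l : ℝ} (hLd : L = Real.log n) (hld : l = Real.log L)
    (e2 : 2 ≤ (n : ℝ)) (e4 : 1000 ≤ L) (e5 : 1 ≤ l) (hkk : (kk n : ℝ) ≤ 2 * L ^ 3)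
    (htau : (tau n : ℝ) ≤ n / L ^ 3) (hrho : rho1 n = L ^ 2 / n) :
    (((n.choose 2).choose h * 2 ^ h * (n + 1) ^ (n * kk n) * (1 + kk n) ^ (2 * h) : ℕ) : ℝ) *
      (1 + rho1 n) ^ (n * n * tau n) ≤ Real.exp ((n : ℝ) ^ 2 / (2 * L ^ 2) +
        (n : ℝ) * kk n * Real.log ((n : ℝ) + 1) + (n : ℝ) ^ 2 / L + 11 * (h * l)) := by
  have hN0 : ((n.choose 2 : ℕ) : ℝ) = (n : ℝ) * (n - 1) / 2 := Nat.cast_choose_two ℝ n
  have hL0 : 0 < L := by linarith
  have hx0 : (0 : ℝ) < n := by linarith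
  have hh0 : (0 : ℝ) ≤ h := Nat.cast_nonneg h
  have t1 : (((n.choose 2).choose h : ℕ) : ℝ) ≤
      Real.exp ((n : ℝ) ^ 2 / (2 * L ^ 2) + 2 * (h * l)) := by
    refine (CALC1_choose (n.choose 2) h hL0).trans ?_
    rw [← hld]
    apply Real.exp_le_exp.2
    have : ((n.choose 2 : ℕ) : ℝ) / L ^ 2 ≤ (n : ℝ) ^ 2 / (2 * L ^ 2) := by
      rw [hN0, div_le_div_iff₀ (by positivity) (by positivity)]
      have h1 : (n : ℝ) ^ 2 * L ^ 2 - (n : ℝ) * (n - 1) / 2 * (2 * L ^ 2) = n * L ^ 2 := by ring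
      have h2 : 0 ≤ (n : ℝ) * L ^ 2 := by positivity
      linarith
    linarith
  have t2 : (2 : ℝ) ^ h ≤ Real.exp (h * l) := by
    rw [Real.exp_nat_mul]
    apply pow_le_pow_left₀ (by norm_num)
    have := Real.add_one_le_exp l
    linarith
  have t3 : ((n : ℝ) + 1) ^ (n * kk n) = Real.exp ((n : ℝ) * kk n * Real.log ((n : ℝ) + 1)) := by
    have : (n : ℝ) * kk n * Real.log ((n : ℝ) + 1) =
        ((n * kk n : ℕ) : ℝ) * Real.log ((n : ℝ) + 1) := by push_cast; ring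
    rw [this, Real.exp_nat_mul, Real.exp_log (by linarith)]
  have t4 : (1 + (kk n : ℝ)) ^ (2 * h) ≤ Real.exp (8 * (h * l)) := by
    have h1 : 1 + (kk n : ℝ) ≤ Real.exp (4 * l) := by
      have h2 : Real.exp (4 * l) = L ^ 4 := by
        have : (4 : ℝ) * l = ((4 : ℕ) : ℝ) * l := by norm_num
        rw [this, Real.exp_nat_mul, hld, Real.exp_log hL0]
      rw [h2]
      have h3 : (1 : ℝ) ≤ L ^ 3 := one_le_pow₀ (by linarith)
      have h4 : 3 * L ^ 3 ≤ L ^ 4 := by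
        have : L ^ 4 = L * L ^ 3 := by ring
        rw [this]
        exact mul_le_mul_of_nonneg_right (by linarith) (by positivity)
      linarith
    have h5 := pow_le_pow_left₀ (by positivity) h1 (2 * h)
    rw [← Real.exp_nat_mul] at h5
    refine h5.trans (le_of_eq ?_)
    congr 1
    push_cast
    ring
  have t5 : (1 + rho1 n) ^ (n * n * tau n) ≤ Real.exp ((n : ℝ) ^ 2 / L) := by
    rw [hrho]
    have h1 := Real.add_one_le_exp (L ^ 2 / (n : ℝ))
    have h2 := pow_le_pow_left₀ (by positivity) h1 (n * n * tau n)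
    rw [← Real.exp_nat_mul] at h2
    rw [add_comm 1]
    refine h2.trans ?_
    apply Real.exp_le_exp.2
    push_cast
    have h3 : (n : ℝ) * n * tau n * (L ^ 2 / n) ≤ (n : ℝ) * n * (n / L ^ 3) * (L ^ 2 / n) := by
      apply mul_le_mul_of_nonneg_right _ (by positivity)
      exact mul_le_mul_of_nonneg_left htau (by positivity)
    refine h3.trans (le_of_eq ?_)
    field_simp
  have hcomb : (n : ℝ) ^ 2 / (2 * L ^ 2) +
      (n : ℝ) * kk n * Real.log ((n : ℝ) + 1) + (n : ℝ) ^ 2 / L + 11 * (h * l) = ((n : ℝ) ^ 2 / (2 * L ^ 2) + 2 * (h * l)) + (h * l) +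
      ((n : ℝ) * kk n * Real.log ((n : ℝ) + 1)) + 8 * (h * l) + (n : ℝ) ^ 2 / L := by
    ring
  rw [hcomb, Real.exp_add, Real.exp_add, Real.exp_add, Real.exp_add]
  push_cast
  have p5 : 0 ≤ (1 + rho1 n) ^ (n * n * tau n) := by
    rw [hrho]; positivity
  refine mul_le_mul ?_ t5 p5 (by positivity)
  refine mul_le_mul ?_ t4 (by positivity) (by positivity)
  refine mul_le_mul ?_ (le_of_eq t3) (by positivity) (by positivity)
  exact mul_le_mul t1 t2 (by positivity) (by positivity)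

theorem CALC1_E {n L ε k g : ℝ} (hx0 : 0 < n) (hL1 : 1 ≤ L)
    (hkk : k ≤ 2 * L ^ 3) (hlog1 : g ≤ 2 * L) (hlog10 : 0 ≤ g)
    (e8 : 6000 ≤ ε ^ 2 * L) (e9 : 8000 * L ^ 4 ≤ ε ^ 2 * n) :
    n ^ 2 / (2 * L ^ 2) + n * k * g + n ^ 2 / L + n ^ 2 / L ≤ (ε ^ 2 / 1000) * n ^ 2 := by
  have hu : 0 ≤ n ^ 2 := by positivity
  have hL0 : 0 < L := by linarith
  have h1 : n ^ 2 / (2 * L ^ 2) ≤ n ^ 2 / L := by
    apply div_le_div_of_nonneg_left hu hL0
    have := mul_le_mul_of_nonneg_left (by linarith : (1 : ℝ) ≤ 2 * L) hL0.le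
    linarith
  have h2 : n ^ 2 / L ≤ ε ^ 2 / 6000 * n ^ 2 := by
    rw [div_le_iff₀ hL0]
    have := mul_le_mul_of_nonneg_right e8 hu
    linarith
  have h3 : n * k * g ≤ n * (2 * L ^ 3) * (2 * L) := by
    apply mul_le_mul
    · exact mul_le_mul_of_nonneg_left hkk hx0.le
    · exact hlog1
    · exact hlog10
    · positivity
  have h4 : n * (2 * L ^ 3) * (2 * L) ≤ ε ^ 2 / 2000 * n ^ 2 := by
    have := mul_le_mul_of_nonneg_left e9 hx0.le
    linarith
  linarith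

/-- Blueprint 1.5, in product form. `om` is the sum of the options. -/
theorem calc1 (ε : ℝ) (hε : 0 < ε) (hε1 : ε ≤ 1) : ∃ c : ℝ, 0 < c ∧ ∀ᶠ n : ℕ in atTop,
    ∀ h : ℕ, h ≤ n.choose 2 → ∀ om : ℝ, 0 ≤ om → om ≤ h * n / 2 →
    ¬ (|2 * h * Real.log n / n ^ 2 - 1| ≤ ε ∧ (1 - ε) * (h * n / 2) ≤ om) →
    (((n.choose 2).choose h * 2 ^ h * (n + 1) ^ (n * kk n) * (1 + kk n) ^ (2 * h) : ℕ) : ℝ) *
      (1 + rho1 n) ^ (n * n * tau n) *
      ((om + ((n.choose 2 - h : ℕ) : ℝ) / rho1 n) / ((n.choose 2 - h : ℕ) : ℝ)) ^ (n.choose 2 - h)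
      ≤ Real.exp (Target n - c * n ^ 2) := by
  refine ⟨ε ^ 2 / 1000, by positivity, ?_⟩
  filter_upwards [CALC1_ev ε hε] with n hn
  obtain ⟨e1, e2, e3, e4, e5, e6, e7, e8, e9⟩ := hn
  intro h hh om hom0 hom hyp
  have hN0 : ((n.choose 2 : ℕ) : ℝ) = (n : ℝ) * (n - 1) / 2 := Nat.cast_choose_two ℝ n
  have hcast : ((n.choose 2 - h : ℕ) : ℝ) = (n : ℝ) * (n - 1) / 2 - h := by
    rw [Nat.cast_sub hh, hN0]
  have hhN : (h : ℝ) ≤ (n : ℝ) * (n - 1) / 2 := by
    rw [← hN0]; exact_mod_cast hh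
  have hLdef : ∃ L, L = Real.log (n : ℝ) := ⟨_, rfl⟩
  obtain ⟨L, hLd⟩ := hLdef
  have hldef : ∃ l, l = Real.log L := ⟨_, rfl⟩
  obtain ⟨l, hld⟩ := hldef
  rw [← hLd] at e3 e4 e5 e6 e7 e8 e9 hyp
  rw [← hld] at e5 e6 e7
  have hL0 : 0 < L := by linarith
  have hx0 : (0 : ℝ) < n := by linarith
  have hh0 : (0 : ℝ) ≤ h := Nat.cast_nonneg h
  -- the exponent bound `E`
  have hkk : (kk n : ℝ) ≤ 2 * L ^ 3 := by
    unfold kk
    rw [← hLd]
    exact Nat.floor_le (by positivity)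
  have htau : (tau n : ℝ) ≤ n / L ^ 3 := by
    unfold tau
    rw [← hLd]
    exact Nat.floor_le (by positivity)
  have hrho : rho1 n = L ^ 2 / n := by unfold rho1; rw [← hLd]
  have hlog1 : Real.log ((n : ℝ) + 1) ≤ 2 * L := by
    have h1 : (n : ℝ) + 1 ≤ (n : ℝ) ^ 2 := by
      have := mul_le_mul_of_nonneg_left e2 hx0.le
      have h0 : (n : ℝ) ^ 2 = n * n := sq _
      linarith
    have h2 := Real.log_le_log (by linarith) h1
    rw [Real.log_pow] at h2
    push_cast at h2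
    rw [hLd]; exact h2
  have hlog10 : 0 ≤ Real.log ((n : ℝ) + 1) := Real.log_nonneg (by linarith)
  obtain ⟨E, hEd⟩ : ∃ E, E = (n : ℝ) ^ 2 / (2 * L ^ 2) +
      (n : ℝ) * kk n * Real.log ((n : ℝ) + 1) + (n : ℝ) ^ 2 / L := ⟨_, rfl⟩
  have hE : E + (n : ℝ) ^ 2 / L ≤ (ε ^ 2 / 1000) * (n : ℝ) ^ 2 := by
    rw [hEd]
    exact CALC1_E hx0 (by linarith) hkk hlog1 hlog10 e8 e9
  -- the first two factors
  have hfac := CALC1_fac h hLd hld e2 e4 e5 hkk htau hrho
  rw [← hEd] at hfac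
  have hlb0 : Real.log (b0 n) = L - Real.log 2 - l := by
    unfold b0
    rw [← hLd, Real.log_div (by positivity) (by positivity), Real.log_mul (by norm_num) (by positivity),
      ← hLd, ← hld]
    ring
  have hT : Target n = (n : ℝ) * (n - 1) / 2 * (L - Real.log 2 - l - 1) := by
    unfold Target
    rw [hN0, hlb0]
  have hlog2 : Real.log 2 ≤ 1 := by
    have := Real.log_two_lt_d9; linarith
  have hlog20 : 0 ≤ Real.log 2 := Real.log_nonneg (by norm_num)
  have hhl : (h : ℝ) * Real.log 2 ≤ h * l := mul_le_mul_of_nonneg_left (by linarith) hh0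
  rcases Nat.eq_zero_or_pos (n.choose 2 - h) with hz | hpos
  · -- `h = N`
    rw [hz, pow_zero, mul_one]
    refine hfac.trans (Real.exp_le_exp.2 ?_)
    have hhe : (h : ℝ) = (n : ℝ) * (n - 1) / 2 := by
      have : h = n.choose 2 := le_antisymm hh (Nat.sub_eq_zero_iff_le.1 hz)
      rw [this, hN0]
    rw [hT, ← hhe]
    have h1 : (49 / 100) * (n : ℝ) ^ 2 ≤ h := by
      rw [hhe]
      have h100 : 100 ≤ (n : ℝ) := by
        have := mul_le_mul_of_nonneg_right hε1 hx0.le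
        linarith
      have := mul_le_mul_of_nonneg_left h100 hx0.le
      linarith
    have h2 : (h : ℝ) ≤ h * (L - 12 * l - 2) := by
      have : 1 ≤ L - 12 * l - 2 := by linarith
      have := mul_le_mul_of_nonneg_left this hh0
      linarith
    have h3 : ε ^ 2 ≤ 1 := pow_le_one₀ hε.le hε1
    have h4 := mul_le_mul_of_nonneg_right h3 (by positivity : (0:ℝ) ≤ (n : ℝ) ^ 2)
    have h5 : 0 ≤ (n : ℝ) ^ 2 / L := by positivity
    have h6 : (h : ℝ) * Real.log 2 ≤ h * 1 := mul_le_mul_of_nonneg_left hlog2 hh0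
    have key : (h : ℝ) * (L - Real.log 2 - l - 1) = h * (L - 12 * l - 2) + 11 * (h * l) + h
        - h * Real.log 2 := by ring
    rw [key]
    linarith
  · -- `h < N`
    have hN'pos : (0 : ℝ) < ((n.choose 2 - h : ℕ) : ℝ) := by exact_mod_cast hpos
    obtain ⟨N', hN'd⟩ : ∃ N' : ℝ, N' = ((n.choose 2 - h : ℕ) : ℝ) := ⟨_, rfl⟩
    obtain ⟨M, hMd⟩ : ∃ M : ℝ, M = 2 * L * om / n := ⟨_, rfl⟩
    have hM0 : 0 ≤ M := by rw [hMd]; positivity
    have hMle : M ≤ h * L := by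
      rw [hMd, div_le_iff₀ hx0]
      have := mul_le_mul_of_nonneg_left hom hL0.le
      linarith
    have hyp' : ¬ (|2 * h * L / (n : ℝ) ^ 2 - 1| ≤ ε ∧ (1 - ε) * (h * L) ≤ M) := by
      rintro ⟨h1, h2⟩
      apply hyp
      refine ⟨h1, ?_⟩
      rw [hMd, le_div_iff₀ hx0] at h2
      have h3 : 2 * L * ((1 - ε) * (h * n / 2)) ≤ 2 * L * om := by linarith
      exact le_of_mul_le_mul_left h3 (by positivity)
    rw [← hN'd] at hN'pos
    have hcore := CALC1_core hε hε1 e1 e3 e5 e6 hE hh0 (by rw [hN'd, hcast]) hN'pos hM0 hMle hyp'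
    obtain ⟨r, hrd⟩ : ∃ r, r = (M + 2 * N' / L) / N' := ⟨_, rfl⟩
    have hr0 : 0 < r := by rw [hrd]; positivity
    rw [← hrd] at hcore
    have hX : (om + ((n.choose 2 - h : ℕ) : ℝ) / rho1 n) / ((n.choose 2 - h : ℕ) : ℝ) =
        Real.exp (Real.log r + Real.log (b0 n)) := by
      have hb : 0 < b0 n := by unfold b0; rw [← hLd]; positivity
      rw [Real.exp_add, Real.exp_log hr0, Real.exp_log hb, ← hN'd, hrd, hMd, hrho]
      unfold b0
      rw [← hLd]
      field_simp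
    rw [hX, ← Real.exp_nat_mul, ← hN'd]
    have hfin : Real.exp (E + 11 * (h * l)) * Real.exp (N' * (Real.log r + Real.log (b0 n)))
        ≤ Real.exp (Target n - ε ^ 2 / 1000 * (n : ℝ) ^ 2) := by
      rw [← Real.exp_add]
      apply Real.exp_le_exp.2
      rw [hT, hlb0]
      have hN0' : (n : ℝ) * (n - 1) / 2 = N' + h := by rw [hN'd, hcast]; ring
      rw [hN0'] at hcore ⊢
      have key : (N' + h) * (L - Real.log 2 - l - 1) - N' * (Real.log r + (L - Real.log 2 - l))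
          = h * L - h * Real.log 2 - h * l - N' - h - N' * Real.log r := by ring
      linarith
    exact (mul_le_mul_of_nonneg_right hfac (Real.exp_pos _).le).trans hfin

end PSys
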