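import Mathlib
import Pool.Agent.PSys.Spec
import Pool.Agent.PSys.CLam

/-! Module DOM (blueprint 2.6): domination by a product. -/

open Finset

namespace PSys

theorem DOM_wpr_nonneg {n : ℕ} (B : Finset (Fin n)) (QA : Sys n) (u : Fin n) :
    0 ≤ wpr B QA u := by
  unfold wpr ccv
  positivity

open Classical in
/-- the allowed values at one pair -/
noncomputable def DOM_val {n : ℕ} (B : Finset (Fin n)) (QA QB : Sys n) (lam mu : Lb n)
    (p : Fin n × Fin n) : Finset (Option (Fin 3 × Fin n)) :=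
  univ.filter (fun x => x = none ∨ (p.1 ∉ B ∧ p.2 ∈ B ∧
    ((∃ a, x = some (0, a) ∧ s(p.1, a) ∈ fG QA) ∨ (∃ c, x = some (1, c) ∧ s(c, p.2) ∈ fG QB) ∨
      (∃ c, x = some (2, c) ∧ ∃ a, mu s(c, p.2) = some a ∧ lam s(p.1, a) = some c))))

open Classical in
theorem DOM_val_card {n : ℕ} (B : Finset (Fin n)) (QA QB : Sys n) (lam mu : Lb n)
    (u b : Fin n) :
    ((DOM_val B QA QB lam mu (u, b)).erase none).card ≤
      dgr (fG QA) u + dgr (fG QB) b + Aub lam mu u b := by
  have hsub : (DOM_val B QA QB lam mu (u, b)).erase none ⊆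
      ((univ.filter (fun y => s(u, y) ∈ fG QA)).image (fun a => (some (0, a) : Option (Fin 3 × Fin n))) ∪
      (univ.filter (fun y => s(b, y) ∈ fG QB)).image (fun a => (some (1, a) : Option (Fin 3 × Fin n)))) ∪
      (univ.filter (fun c => ∃ a, mu s(c, b) = some a ∧ lam s(u, a) = some c)).image
        (fun a => (some (2, a) : Option (Fin 3 × Fin n))) := by
    intro x hx
    rw [mem_erase, DOM_val, mem_filter] at hx
    obtain ⟨hne, -, hx⟩ := hx
    rcases hx with h | ⟨-, -, h⟩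
    · exact absurd h hne
    rcases h with ⟨a, rfl, h⟩ | ⟨c, rfl, h⟩ | ⟨c, rfl, h⟩
    · refine mem_union_left _ (mem_union_left _ (mem_image.2 ⟨a, ?_, rfl⟩))
      simpa using h
    · refine mem_union_left _ (mem_union_right _ (mem_image.2 ⟨c, ?_, rfl⟩))
      rw [mem_filter]
      refine ⟨mem_univ _, ?_⟩
      rw [Sym2.eq_swap]
      exact h
    · refine mem_union_right _ (mem_image.2 ⟨c, ?_, rfl⟩)
      rw [mem_filter]
      exact ⟨mem_univ _, h⟩
  refine (card_le_card hsub).trans ?_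
  refine (card_union_le _ _).trans ?_
  refine Nat.add_le_add ((card_union_le _ _).trans ?_) card_image_le
  exact Nat.add_le_add card_image_le card_image_le

open Classical in
/-- the sum of the products over the types compatible with `lam, mu` is at most `domR` -/
theorem sum_types_le {n : ℕ} {B : Finset (Fin n)} {QA QB : Sys n} (hQA : IsFam Bᶜ QA)
    (hQB : IsFam B QB) (lam mu : Lb n) :
    ∑ l ∈ (univ : Finset (Ty n)).filter (fun l => (∀ u b, l u b ≠ none → u ∉ B ∧ b ∈ B) ∧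
      (∀ u b a, l u b = some (0, a) → s(u, a) ∈ fG QA) ∧
      (∀ u b c, l u b = some (1, c) → s(c, b) ∈ fG QB) ∧
      (∀ u b c, l u b = some (2, c) → ∃ a, mu s(c, b) = some a ∧ lam s(u, a) = some c)),
      ∏ p ∈ Zs l, (Real.exp 1 * wpr B QA p.1) ≤ domR B QA QB lam mu := by
  set L := (univ : Finset (Ty n)).filter (fun l => (∀ u b, l u b ≠ none → u ∉ B ∧ b ∈ B) ∧
      (∀ u b a, l u b = some (0, a) → s(u, a) ∈ fG QA) ∧
      (∀ u b c, l u b = some (1, c) → s(c, b) ∈ fG QB) ∧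
      (∀ u b c, l u b = some (2, c) → ∃ a, mu s(c, b) = some a ∧ lam s(u, a) = some c)) with hL
  have hw : ∀ u, 0 ≤ Real.exp 1 * wpr B QA u := fun u =>
    mul_nonneg (Real.exp_pos _).le (DOM_wpr_nonneg B QA u)
  let F : Fin n × Fin n → Option (Fin 3 × Fin n) → ℝ := fun p x =>
    if x = none then 1 else Real.exp 1 * wpr B QA p.1
  have hF : ∀ p x, 0 ≤ F p x := by
    intro p x
    by_cases hx : x = none
    · simp [F, hx]
    · simp only [F, hx, if_false]
      exact hw p.1
  let φ : Ty n → (Fin n × Fin n → Option (Fin 3 × Fin n)) := fun l p => l p.1 p.2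
  have hφ : Function.Injective φ := by
    intro l l' h
    funext u b
    exact congrFun h (u, b)
  have hprod : ∀ l : Ty n, ∏ p ∈ Zs l, (Real.exp 1 * wpr B QA p.1) = ∏ p, F p (φ l p) := by
    intro l
    rw [Zs, prod_filter]
    refine prod_congr rfl fun p _ => ?_
    by_cases hp : l p.1 p.2 = none
    · simp [F, φ, hp]
    · simp [F, φ, hp]
  have h1 : ∑ l ∈ L, ∏ p ∈ Zs l, (Real.exp 1 * wpr B QA p.1) =
      ∑ f ∈ L.image φ, ∏ p, F p (f p) := by
    rw [sum_image fun l _ l' _ h => hφ h]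
    exact sum_congr rfl fun l _ => hprod l
  have h2 : L.image φ ⊆ Fintype.piFinset (DOM_val B QA QB lam mu) := by
    intro f hf
    obtain ⟨l, hl, rfl⟩ := mem_image.1 hf
    rw [hL, mem_filter] at hl
    obtain ⟨-, ha, h0, h1', h2'⟩ := hl
    rw [Fintype.mem_piFinset]
    rintro ⟨u, b⟩
    rw [DOM_val, mem_filter]
    refine ⟨mem_univ _, ?_⟩
    by_cases hn : l u b = none
    · left
      exact hn
    · right
      obtain ⟨hu, hb⟩ := ha u b hn
      refine ⟨hu, hb, ?_⟩
      obtain ⟨⟨i, a⟩, hia⟩ := Option.ne_none_iff_exists'.1 hn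
      change (∃ a, l u b = some (0, a) ∧ s(u, a) ∈ fG QA) ∨
        (∃ c, l u b = some (1, c) ∧ s(c, b) ∈ fG QB) ∨
        (∃ c, l u b = some (2, c) ∧ ∃ a, mu s(c, b) = some a ∧ lam s(u, a) = some c)
      fin_cases i
      · left
        exact ⟨a, hia, h0 u b a hia⟩
      · right; left
        exact ⟨a, hia, h1' u b a hia⟩
      · right; right
        exact ⟨a, hia, h2' u b a hia⟩
  have h3 : ∑ f ∈ L.image φ, ∏ p, F p (f p) ≤
      ∑ f ∈ Fintype.piFinset (DOM_val B QA QB lam mu), ∏ p, F p (f p) :=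
    sum_le_sum_of_subset_of_nonneg h2 fun f _ _ => prod_nonneg fun p _ => hF p (f p)
  have h4 : ∑ f ∈ Fintype.piFinset (DOM_val B QA QB lam mu), ∏ p, F p (f p) =
      ∏ p, ∑ x ∈ DOM_val B QA QB lam mu p, F p x := (prod_univ_sum _ _).symm
  have h5 : ∀ p : Fin n × Fin n, ∑ x ∈ DOM_val B QA QB lam mu p, F p x =
      1 + (((DOM_val B QA QB lam mu p).erase none).card : ℝ) * (Real.exp 1 * wpr B QA p.1) := by
    intro p
    have hm : none ∈ DOM_val B QA QB lam mu p := by
      rw [DOM_val, mem_filter]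
      exact ⟨mem_univ _, Or.inl rfl⟩
    have h50 : F p none = 1 := by simp [F]
    have h51 : ∀ x ∈ (DOM_val B QA QB lam mu p).erase none,
        F p x = Real.exp 1 * wpr B QA p.1 := by
      intro x hx
      have := (mem_erase.1 hx).1
      simp [F, this]
    rw [← add_sum_erase _ _ hm, h50, sum_congr rfl h51, sum_const, nsmul_eq_mul]
  have h6 : ∏ p, ∑ x ∈ DOM_val B QA QB lam mu p, F p x =
      ∏ p ∈ Bᶜ ×ˢ B, ∑ x ∈ DOM_val B QA QB lam mu p, F p x := by
    symm
    refine prod_subset (subset_univ _) fun p _ hp => ?_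
    rw [h5]
    have he : (DOM_val B QA QB lam mu p).erase none = ∅ := by
      rw [Finset.eq_empty_iff_forall_notMem]
      intro x hx
      rw [mem_erase, DOM_val, mem_filter] at hx
      obtain ⟨hne, -, h | ⟨hu, hb, -⟩⟩ := hx
      · exact hne h
      · exact hp (mem_product.2 ⟨mem_compl.2 hu, hb⟩)
    rw [he]
    simp
  rw [h1]
  refine h3.trans ?_
  rw [h4, h6, domR, ← prod_product']
  refine prod_le_prod (fun p _ => sum_nonneg fun x _ => hF p x) fun p _ => ?_
  rw [h5]
  have h7 : (((DOM_val B QA QB lam mu p).erase none).card : ℝ) ≤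
      dgr (fG QA) p.1 + dgr (fG QB) p.2 + Aub lam mu p.1 p.2 := by
    exact_mod_cast DOM_val_card B QA QB lam mu p.1 p.2
  have h8 := mul_le_mul_of_nonneg_right h7 (hw p.1)
  linarith

open Classical in
/-- Blueprint 2.6, (DOM), with an arbitrary restriction `pm` on `mu`. -/
theorem dom {n : ℕ} {B : Finset (Fin n)} {QA QB : Sys n} (hQA : IsFam Bᶜ QA)
    (hQB : IsFam B QB) (hB : 1 ≤ B.card) (pm : Lb n → Prop) :
    ∑ x ∈ (univ : Finset (Lb n × Lb n × Ty n)).filter
      (fun x => VDat B QA QB x.1 x.2.1 x.2.2 ∧ pm x.2.1), Real.exp ((Zs x.2.2).card) ≤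
    ∑ lam ∈ labs (EA B QA) B, ∑ mu ∈ (labs (EB B QB) Bᶜ).filter pm, domR B QA QB lam mu := by
  let C0 : Ty n → Prop := fun l => (∀ u b, l u b ≠ none → u ∉ B ∧ b ∈ B) ∧
      (∀ u b a, l u b = some (0, a) → s(u, a) ∈ fG QA) ∧
      (∀ u b c, l u b = some (1, c) → s(c, b) ∈ fG QB)
  let C3 : Lb n → Lb n → Ty n → Prop := fun lam mu l =>
    ∀ u b c, l u b = some (2, c) → ∃ a, mu s(c, b) = some a ∧ lam s(u, a) = some c
  have hexp : ∀ l : Ty n, Real.exp ((Zs l).card) * ∏ p ∈ Zs l, wpr B QA p.1 =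
      ∏ p ∈ Zs l, (Real.exp 1 * wpr B QA p.1) := by
    intro l
    rw [prod_mul_distrib, prod_const, ← Real.exp_nat_mul, mul_one]
  -- reorder
  have h1 : ∑ x ∈ (univ : Finset (Lb n × Lb n × Ty n)).filter
      (fun x => VDat B QA QB x.1 x.2.1 x.2.2 ∧ pm x.2.1), Real.exp ((Zs x.2.2).card) =
      ∑ mu : Lb n, ∑ l : Ty n, ∑ lam : Lb n,
        if VDat B QA QB lam mu l ∧ pm mu then Real.exp ((Zs l).card) else 0 := by
    rw [sum_filter, Fintype.sum_prod_type]
    simp_rw [Fintype.sum_prod_type]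
    rw [sum_comm]
    refine sum_congr rfl fun mu _ => ?_
    rw [sum_comm]
  rw [h1, sum_comm (s := labs (EA B QA) B)]
  -- restriction of `mu`
  have h2 : ∑ mu : Lb n, ∑ l : Ty n, ∑ lam : Lb n,
      (if VDat B QA QB lam mu l ∧ pm mu then Real.exp ((Zs l).card) else 0) =
      ∑ mu ∈ (labs (EB B QB) Bᶜ).filter pm, ∑ l : Ty n, ∑ lam : Lb n,
      (if VDat B QA QB lam mu l ∧ pm mu then Real.exp ((Zs l).card) else 0) := by
    symm
    refine sum_subset (subset_univ _) fun mu _ hmu => ?_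
    refine sum_eq_zero fun l _ => sum_eq_zero fun lam _ => if_neg ?_
    rintro ⟨hv, hp⟩
    exact hmu (mem_filter.2 ⟨hv.hmu, hp⟩)
  rw [h2]
  refine sum_le_sum fun mu hmu => ?_
  have hpm : pm mu := (mem_filter.1 hmu).2
  -- restriction of `l`
  have h3 : ∑ l : Ty n, ∑ lam : Lb n,
      (if VDat B QA QB lam mu l ∧ pm mu then Real.exp ((Zs l).card) else 0) =
      ∑ l ∈ univ.filter C0, ∑ lam : Lb n,
      (if VDat B QA QB lam mu l ∧ pm mu then Real.exp ((Zs l).card) else 0) := by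
    symm
    refine sum_subset (subset_univ _) fun l _ hl => ?_
    refine sum_eq_zero fun lam _ => if_neg ?_
    rintro ⟨hv, -⟩
    exact hl (mem_filter.2 ⟨mem_univ _, hv.l_AB, hv.ty1, hv.ty2⟩)
  rw [h3]
  have h4 : ∀ l ∈ univ.filter C0, ∑ lam : Lb n,
      (if VDat B QA QB lam mu l ∧ pm mu then Real.exp ((Zs l).card) else 0) ≤
      ∑ lam ∈ labs (EA B QA) B,
        if C3 lam mu l then ∏ p ∈ Zs l, (Real.exp 1 * wpr B QA p.1) else 0 := by
    intro l _
    obtain ⟨b₁, hb₁⟩ := card_pos.1 hB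
    have hc := count_lam hQA hQB hB mu l ∅ b₁ (empty_subset _) (disjoint_empty_left _)
    rw [card_empty, pow_zero, mul_one] at hc
    have h5 : ∑ lam : Lb n,
        (if VDat B QA QB lam mu l ∧ pm mu then Real.exp ((Zs l).card) else 0) =
        ((univ.filter (fun lam : Lb n => VDat B QA QB lam mu l ∧
          ∀ e ∈ (∅ : Finset (Sym2 (Fin n))), lam e = some b₁)).card : ℝ) *
          Real.exp ((Zs l).card) := by
      rw [← sum_filter, sum_const, nsmul_eq_mul]
      congr 2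
      refine congrArg card (filter_congr fun lam _ => ?_)
      simp [hpm]
    have h6 : ∑ lam ∈ labs (EA B QA) B,
        (if C3 lam mu l then ∏ p ∈ Zs l, (Real.exp 1 * wpr B QA p.1) else 0) =
        ((compat B QA mu l).card : ℝ) * ∏ p ∈ Zs l, (Real.exp 1 * wpr B QA p.1) := by
      rw [← sum_filter, sum_const, nsmul_eq_mul]
      rfl
    rw [h5, h6, ← hexp l]
    calc _ ≤ (((compat B QA mu l).card : ℝ) * ∏ p ∈ Zs l, wpr B QA p.1) *
          Real.exp ((Zs l).card) := mul_le_mul_of_nonneg_right hc (Real.exp_pos _).le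
      _ = _ := by ring
  refine (sum_le_sum h4).trans ?_
  rw [sum_comm]
  refine sum_le_sum fun lam _ => ?_
  refine le_trans (le_of_eq ?_) (sum_types_le hQA hQB lam mu)
  rw [← sum_filter, filter_filter]
  refine sum_congr (filter_congr fun l _ => ?_) fun _ _ => rfl
  simp only [C0, C3, and_assoc]

end PSys
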