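import Mathlib
import Pool.Agent.PSys.Spec
import Pool.Agent.PSys.CLam
import Pool.Agent.PSys.Dom

/-! Module DOMBM (blueprint 2.6, last lines): large multiplicities of the leaf labels. -/

open Finset

namespace PSys

theorem dombm_ccv_nonneg {n : ℕ} (B : Finset (Fin n)) : 0 ≤ ccv B := by
  unfold ccv
  positivity

theorem dombm_wpr_nonneg {n : ℕ} (B : Finset (Fin n)) (QA : Sys n) (u : Fin n) :
    0 ≤ wpr B QA u := by
  unfold wpr
  have := dombm_ccv_nonneg B
  positivity

/-- the conditions on the types which do not involve the leaf labels -/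
def dombmC {n : ℕ} (B : Finset (Fin n)) (QA QB : Sys n) (l : Ty n) : Prop :=
  (∀ u b, l u b ≠ none → u ∉ B ∧ b ∈ B) ∧
      (∀ u b a, l u b = some (0, a) → s(u, a) ∈ fG QA) ∧
      (∀ u b c, l u b = some (1, c) → s(c, b) ∈ fG QB)

open Classical in
theorem dombm_sum {n : ℕ} {B : Finset (Fin n)} {QA QB : Sys n} (hQA : IsFam Bᶜ QA)
    (hQB : IsFam B QB) :
    ∑ y ∈ (labs (EB B QB) Bᶜ) ×ˢ (univ : Finset (Ty n)).filter (dombmC B QA QB),
      ((compat B QA y.1 y.2).card : ℝ) * ∏ p ∈ Zs y.2, wpr B QA p.1 ≤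
    ∑ lam ∈ labs (EA B QA) B, ∑ mu ∈ labs (EB B QB) Bᶜ, domR B QA QB lam mu := by
  rw [sum_product]
  have h1 : ∀ mu : Lb n, ∀ l : Ty n, ((compat B QA mu l).card : ℝ) * ∏ p ∈ Zs l, wpr B QA p.1 =
      ∑ lam ∈ labs (EA B QA) B, if (∀ u b c, l u b = some (2, c) →
        ∃ a, mu s(c, b) = some a ∧ lam s(u, a) = some c) then ∏ p ∈ Zs l, wpr B QA p.1 else 0 := by
    intro mu l
    unfold compat
    rw [← sum_filter, sum_const, nsmul_eq_mul]
  have h2 : ∑ mu ∈ labs (EB B QB) Bᶜ, ∑ l ∈ (univ : Finset (Ty n)).filter (dombmC B QA QB),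
      ((compat B QA mu l).card : ℝ) * ∏ p ∈ Zs l, wpr B QA p.1 =
      ∑ lam ∈ labs (EA B QA) B, ∑ mu ∈ labs (EB B QB) Bᶜ,
        ∑ l ∈ (univ : Finset (Ty n)).filter (dombmC B QA QB),
        if (∀ u b c, l u b = some (2, c) →
        ∃ a, mu s(c, b) = some a ∧ lam s(u, a) = some c) then ∏ p ∈ Zs l, wpr B QA p.1 else 0 := by
    rw [sum_comm]
    rw [sum_comm]
    rw [sum_comm (s := labs (EA B QA) B)]
    refine sum_congr rfl fun mu _ => ?_
    rw [sum_comm (s := labs (EA B QA) B)]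
    refine sum_congr rfl fun l _ => ?_
    exact h1 mu l
  rw [h2]
  refine sum_le_sum fun lam _ => sum_le_sum fun mu _ => ?_
  refine le_trans ?_ (sum_types_le hQA hQB lam mu)
  rw [← sum_filter, filter_filter]
  have h3 : (univ : Finset (Ty n)).filter (fun l => dombmC B QA QB l ∧
      ∀ u b c, l u b = some (2, c) → ∃ a, mu s(c, b) = some a ∧ lam s(u, a) = some c) =
      (univ : Finset (Ty n)).filter (fun l => (∀ u b, l u b ≠ none → u ∉ B ∧ b ∈ B) ∧
      (∀ u b a, l u b = some (0, a) → s(u, a) ∈ fG QA) ∧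
      (∀ u b c, l u b = some (1, c) → s(c, b) ∈ fG QB) ∧
      (∀ u b c, l u b = some (2, c) → ∃ a, mu s(c, b) = some a ∧ lam s(u, a) = some c)) := by
    apply filter_congr
    intro l _
    unfold dombmC
    tauto
  rw [h3]
  refine sum_le_sum fun l _ => ?_
  refine prod_le_prod (fun p _ => dombm_wpr_nonneg B QA p.1) (fun p _ => ?_)
  have h4 := dombm_wpr_nonneg B QA p.1
  have h5 : (1 : ℝ) ≤ Real.exp 1 := Real.one_le_exp (by norm_num)
  nlinarith

open Classical in
theorem dombm_one {n : ℕ} {B : Finset (Fin n)} {QA QB : Sys n} (hQA : IsFam Bᶜ QA)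
    (hQB : IsFam B QB) (hB : 1 ≤ B.card) (S : Finset (Sym2 (Fin n))) (b₁ : Fin n) :
    (((univ : Finset (Lb n × Lb n × Ty n)).filter
      (fun x => VDat B QA QB x.1 x.2.1 x.2.2 ∧ S ⊆ EA B QA ∧ Disjoint S (Tset x.2.1 x.2.2) ∧
        ∀ e ∈ S, x.1 e = some b₁)).card : ℝ) ≤
    (ccv B / B.card) ^ S.card *
    ∑ lam ∈ labs (EA B QA) B, ∑ mu ∈ labs (EB B QB) Bᶜ, domR B QA QB lam mu := by
  set X := (univ : Finset (Lb n × Lb n × Ty n)).filter
      (fun x => VDat B QA QB x.1 x.2.1 x.2.2 ∧ S ⊆ EA B QA ∧ Disjoint S (Tset x.2.1 x.2.2) ∧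
        ∀ e ∈ S, x.1 e = some b₁) with hX
  set G := (labs (EB B QB) Bᶜ) ×ˢ (univ : Finset (Ty n)).filter (dombmC B QA QB) with hG
  have hmaps : ∀ x ∈ X, x.2 ∈ G := by
    intro x hx
    rw [hX, mem_filter] at hx
    obtain ⟨_, h1, _⟩ := hx
    rw [hG, mem_product, mem_filter]
    exact ⟨h1.hmu, mem_univ _, h1.l_AB, h1.ty1, h1.ty2⟩
  have hfw : X.card = ∑ y ∈ G, (X.filter (fun x => x.2 = y)).card :=
    card_eq_sum_card_fiberwise (s := X) (t := G) (f := fun x : Lb n × Lb n × Ty n => x.2)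
      (fun x hx => hmaps x hx)
  rw [hfw]
  push_cast
  have hc : 0 ≤ (ccv B / B.card) ^ S.card := by
    have := dombm_ccv_nonneg B
    positivity
  have h1 : ∀ y ∈ G, ((X.filter (fun x => x.2 = y)).card : ℝ) ≤
      (ccv B / B.card) ^ S.card *
        (((compat B QA y.1 y.2).card : ℝ) * ∏ p ∈ Zs y.2, wpr B QA p.1) := by
    intro y _
    rcases (X.filter (fun x => x.2 = y)).eq_empty_or_nonempty with h0 | ⟨x0, hx0⟩
    · rw [h0, card_empty, Nat.cast_zero]
      refine mul_nonneg hc (mul_nonneg (Nat.cast_nonneg _) ?_)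
      exact prod_nonneg fun p _ => dombm_wpr_nonneg B QA p.1
    · rw [mem_filter, hX, mem_filter] at hx0
      obtain ⟨⟨_, _, h2, h3, _⟩, h4⟩ := hx0
      rw [h4] at h3
      have h5 := count_lam hQA hQB hB y.1 y.2 S b₁ h2 h3
      have h6 : ((X.filter (fun x => x.2 = y)).card : ℝ) ≤
          ((univ.filter (fun lam : Lb n => VDat B QA QB lam y.1 y.2 ∧
            ∀ e ∈ S, lam e = some b₁)).card : ℝ) := by
        norm_cast
        refine card_le_card_of_injOn (fun x => x.1) ?_ ?_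
        · intro x hx
          rw [mem_coe, mem_filter, hX, mem_filter] at hx
          obtain ⟨⟨_, h7, _, _, h8⟩, h9⟩ := hx
          rw [mem_coe, mem_filter]
          refine ⟨mem_univ _, ?_, h8⟩
          rw [← h9]; exact h7
        · intro x hx x' hx' hxx
          rw [mem_coe, mem_filter] at hx hx'
          exact Prod.ext hxx (hx.2.trans hx'.2.symm)
      refine h6.trans (h5.trans (le_of_eq ?_))
      ring
  refine (sum_le_sum h1).trans ?_
  rw [← mul_sum]
  exact mul_le_mul_of_nonneg_left (dombm_sum hQA hQB) hc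

open Classical in
/-- Blueprint 2.6: if `BMl lam l` there are `u, b` and a set of `k = ceil (n^(1/32))` pairs `u v`
outside `Tset` with label `b`; union bound with `count_lam`. -/
theorem dom_bm {n : ℕ} {B : Finset (Fin n)} {QA QB : Sys n} (hQA : IsFam Bᶜ QA)
    (hQB : IsFam B QB) (hB : 1 ≤ B.card) :
    (((univ : Finset (Lb n × Lb n × Ty n)).filter
      (fun x => VDat B QA QB x.1 x.2.1 x.2.2 ∧ BMl x.1 x.2.2)).card : ℝ) ≤
    (n : ℝ) ^ 2 * (n.choose ⌈(n : ℝ) ^ ((1 : ℝ) / 32)⌉₊ : ℝ) *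
      (ccv B / B.card) ^ ⌈(n : ℝ) ^ ((1 : ℝ) / 32)⌉₊ *
    ∑ lam ∈ labs (EA B QA) B, ∑ mu ∈ labs (EB B QB) Bᶜ, domR B QA QB lam mu := by
  set k := ⌈(n : ℝ) ^ ((1 : ℝ) / 32)⌉₊ with hk
  set Dm := ∑ lam ∈ labs (EA B QA) B, ∑ mu ∈ labs (EB B QB) Bᶜ, domR B QA QB lam mu with hDm
  set I := (univ : Finset (Fin n × Fin n)) ×ˢ powersetCard k (univ : Finset (Fin n)) with hI
  set SS : (Fin n × Fin n) × Finset (Fin n) → Finset (Sym2 (Fin n)) :=
    fun i => i.2.image (fun v => s(i.1.1, v)) with hSS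
  have hinj : ∀ u : Fin n, Function.Injective (fun v => s(u, v)) := by
    intro u v w h
    have h' : s(u, v) = s(u, w) := h
    rcases Sym2.eq_iff.1 h' with ⟨_, h1⟩ | ⟨h1, h2⟩
    · exact h1
    · exact h2.trans h1
  have hSSc : ∀ i ∈ I, (SS i).card = k := by
    intro i hi
    rw [hI, mem_product, mem_powersetCard] at hi
    rw [hSS]
    simp only
    rw [card_image_of_injective _ (hinj i.1.1), hi.2.2]
  set Y : (Fin n × Fin n) × Finset (Fin n) → Finset (Lb n × Lb n × Ty n) := fun i =>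
    (univ : Finset (Lb n × Lb n × Ty n)).filter
      (fun x => VDat B QA QB x.1 x.2.1 x.2.2 ∧ SS i ⊆ EA B QA ∧
        Disjoint (SS i) (Tset x.2.1 x.2.2) ∧ ∀ e ∈ SS i, x.1 e = some i.1.2) with hY
  have hsub : (univ : Finset (Lb n × Lb n × Ty n)).filter
      (fun x => VDat B QA QB x.1 x.2.1 x.2.2 ∧ BMl x.1 x.2.2) ⊆ I.biUnion Y := by
    intro x hx
    rw [mem_filter] at hx
    obtain ⟨_, hV, u, b, hub⟩ := hx
    set V := univ.filter (fun v => x.1 s(u, v) = some b) with hVdef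
    set V' := V.filter (fun v => s(u, v) ∉ Tset x.2.1 x.2.2) with hV'
    have h1 : V.card ≤ V'.card + (Zs x.2.2).card := by
      have h2 : V = V' ∪ V.filter (fun v => ¬ s(u, v) ∉ Tset x.2.1 x.2.2) :=
        (filter_union_filter_not_eq _ _).symm
      have h3 : (V.filter (fun v => ¬ s(u, v) ∉ Tset x.2.1 x.2.2)).card ≤
          (Tset x.2.1 x.2.2).card := by
        refine card_le_card_of_injOn (fun v => s(u, v)) ?_ ((hinj u).injOn)
        intro v hv
        rw [mem_coe, mem_filter] at hv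
        rw [mem_coe]
        exact not_not.1 hv.2
      have h4 := card_Tset x.2.1 x.2.2
      have h5 : V.card ≤ V'.card + (V.filter (fun v => ¬ s(u, v) ∉ Tset x.2.1 x.2.2)).card := by
        conv_lhs => rw [h2]
        exact card_union_le _ _
      omega
    have h6 : k ≤ V'.card := by omega
    obtain ⟨V₀, hV₀, hV₀c⟩ := exists_subset_card_eq h6
    rw [mem_biUnion]
    refine ⟨((u, b), V₀), ?_, ?_⟩
    · rw [hI, mem_product, mem_powersetCard]
      exact ⟨mem_univ _, subset_univ _, hV₀c⟩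
    · rw [hY, mem_filter]
      have h7 : ∀ e ∈ SS ((u, b), V₀), x.1 e = some b ∧ e ∉ Tset x.2.1 x.2.2 := by
        intro e he
        rw [hSS] at he
        simp only [mem_image] at he
        obtain ⟨v, hv, rfl⟩ := he
        have h8 := hV₀ hv
        rw [hV', mem_filter, hVdef, mem_filter] at h8
        exact ⟨h8.1.2, h8.2⟩
      refine ⟨mem_univ _, hV, ?_, ?_, ?_⟩
      · intro e he
        have h9 := hV.hlam
        rw [labs, mem_filter] at h9
        by_contra hcon
        have h10 := (h9.2.1 e).2 hcon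
        rw [(h7 e he).1] at h10
        exact absurd h10 (by simp)
      · rw [disjoint_left]
        exact fun e he => (h7 e he).2
      · exact fun e he => (h7 e he).1
  have h1 : (((univ : Finset (Lb n × Lb n × Ty n)).filter
      (fun x => VDat B QA QB x.1 x.2.1 x.2.2 ∧ BMl x.1 x.2.2)).card : ℝ) ≤
      ∑ i ∈ I, ((Y i).card : ℝ) := by
    have h2 := (card_le_card hsub).trans card_biUnion_le
    exact_mod_cast h2
  refine h1.trans ?_
  have h2 : ∀ i ∈ I, ((Y i).card : ℝ) ≤ (ccv B / B.card) ^ k * Dm := by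
    intro i hi
    have h3 := dombm_one hQA hQB hB (SS i) i.1.2
    rw [hSSc i hi] at h3
    exact h3
  refine (sum_le_sum h2).trans (le_of_eq ?_)
  rw [sum_const, nsmul_eq_mul, hI, card_product, card_powersetCard, card_univ, Fintype.card_prod,
    Fintype.card_fin, card_univ, Fintype.card_fin]
  push_cast
  ring

end PSys
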