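import Mathlib
import Pool.Agent.PSys.Spec
import Pool.Agent.PSys.Dom
import Pool.Agent.PSys.DomBM
import Pool.Agent.PSys.Avg
import Pool.Agent.PSys.AvgBM

/-! Theorem CNT (blueprint 2.5) assembled. -/

open Finset Filter

namespace PSys

theorem cntX_nonneg {n : ℕ} (B : Finset (Fin n)) (QA QB : Sys n) : 0 ≤ cntX B QA QB := by
  unfold cntX
  positivity

open Classical in
theorem cnt : ∀ᶠ n : ℕ in atTop, ∀ (B : Finset (Fin n)), Rng B → ∀ (QA QB : Sys n),
    IsFam Bᶜ QA → IsFam B QB →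
    ∑ x ∈ (univ : Finset (Lb n × Lb n × Ty n)).filter
      (fun x => VDat B QA QB x.1 x.2.1 x.2.2),
      (Real.exp ((Zs x.2.2).card) +
        (if BMl x.1 x.2.2 ∨ BMm x.2.1 then Real.exp ((n : ℝ) ^ ((1 : ℝ) / 32)) else 0)) ≤
    4 * cntX B QA QB := by
  filter_upwards [avg, avg_bm, bm_num, rng_sizes] with n h1 h2 h3 h4
  intro B hB QA QB hQA hQB
  obtain ⟨hB1, -⟩ := h4 B hB
  have hX := cntX_nonneg B QA QB
  have a1 := h1 B hB QA QB hQA hQB
  have a2 := h2 B hB QA QB hQA hQB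
  have a3 := h3 B hB
  have d1 := dom hQA hQB hB1 (fun _ => True)
  have d2 := dom hQA hQB hB1 (fun mu => BMm mu)
  have d3 := dom_bm hQA hQB hB1
  set E := Real.exp ((n : ℝ) ^ ((1 : ℝ) / 32)) with hE
  have hEpos : 0 < E := Real.exp_pos _
  have hEinv : E * Real.exp (-(n : ℝ) ^ ((1 : ℝ) / 32)) = 1 := by
    rw [hE, ← Real.exp_add, add_neg_cancel, Real.exp_zero]
  set S := (univ : Finset (Lb n × Lb n × Ty n)).filter
      (fun x => VDat B QA QB x.1 x.2.1 x.2.2) with hS
  set S2 := (univ : Finset (Lb n × Lb n × Ty n)).filter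
      (fun x => VDat B QA QB x.1 x.2.1 x.2.2 ∧ BMm x.2.1) with hS2
  set S3 := (univ : Finset (Lb n × Lb n × Ty n)).filter
      (fun x => VDat B QA QB x.1 x.2.1 x.2.2 ∧ BMl x.1 x.2.2) with hS3
  have e1 : ∑ x ∈ S, Real.exp ((Zs x.2.2).card) ≤ cntX B QA QB := by
    refine le_trans (le_of_eq ?_) (d1.trans (le_trans (le_of_eq ?_) a1))
    · apply sum_congr _ (fun _ _ => rfl)
      ext x
      simp [hS]
    · apply sum_congr rfl
      intro lam _
      apply sum_congr _ (fun _ _ => rfl)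
      ext x
      simp
  have e2 : (S2.card : ℝ) ≤ Real.exp (-(n : ℝ) ^ ((1 : ℝ) / 32)) * cntX B QA QB := by
    refine le_trans ?_ (d2.trans a2)
    rw [card_eq_sum_ones]
    push_cast
    apply sum_le_sum
    intro x _
    exact Real.one_le_exp (by positivity)
  have e3 : (S3.card : ℝ) ≤ Real.exp (-(n : ℝ) ^ ((1 : ℝ) / 32)) * cntX B QA QB := by
    refine d3.trans ?_
    have h6 : 0 ≤ ∑ lam ∈ labs (EA B QA) B, ∑ mu ∈ labs (EB B QB) Bᶜ, domR B QA QB lam mu := by
      apply sum_nonneg; intro lam _; apply sum_nonneg; intro mu _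
      unfold domR
      apply prod_nonneg; intro u _; apply prod_nonneg; intro b _
      have : 0 ≤ wpr B QA u := by
        unfold wpr ccv; positivity
      positivity
    exact mul_le_mul a3 a1 h6 (Real.exp_pos _).le
  have hsplit : ∑ x ∈ S, (if BMl x.1 x.2.2 ∨ BMm x.2.1 then E else 0) ≤
      E * S2.card + E * S3.card := by
    have h7 : ∀ x ∈ S, (if BMl x.1 x.2.2 ∨ BMm x.2.1 then E else 0) ≤
        (if BMm x.2.1 then E else 0) + (if BMl x.1 x.2.2 then E else 0) := by
      intro x _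
      by_cases p1 : BMl x.1 x.2.2 <;> by_cases p2 : BMm x.2.1 <;> simp [p1, p2] <;> linarith
    refine (sum_le_sum h7).trans ?_
    rw [sum_add_distrib]
    have h8 : ∑ x ∈ S, (if BMm x.2.1 then E else 0) = E * S2.card := by
      rw [← sum_filter, sum_const, nsmul_eq_mul, mul_comm]
      congr 3
      rw [hS, hS2, filter_filter]
    have h9 : ∑ x ∈ S, (if BMl x.1 x.2.2 then E else 0) = E * S3.card := by
      rw [← sum_filter, sum_const, nsmul_eq_mul, mul_comm]
      congr 3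
      rw [hS, hS3, filter_filter]
    rw [h8, h9]
  rw [sum_add_distrib]
  have h10 : E * S2.card ≤ cntX B QA QB := by
    calc E * S2.card ≤ E * (Real.exp (-(n : ℝ) ^ ((1 : ℝ) / 32)) * cntX B QA QB) :=
          mul_le_mul_of_nonneg_left e2 hEpos.le
      _ = (E * Real.exp (-(n : ℝ) ^ ((1 : ℝ) / 32))) * cntX B QA QB := by ring
      _ = cntX B QA QB := by rw [hEinv, one_mul]
  have h11 : E * S3.card ≤ cntX B QA QB := by
    calc E * S3.card ≤ E * (Real.exp (-(n : ℝ) ^ ((1 : ℝ) / 32)) * cntX B QA QB) :=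
          mul_le_mul_of_nonneg_left e3 hEpos.le
      _ = (E * Real.exp (-(n : ℝ) ^ ((1 : ℝ) / 32))) * cntX B QA QB := by ring
      _ = cntX B QA QB := by rw [hEinv, one_mul]
  linarith

end PSys
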