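import Mathlib
import Pool.Agent.PSys.Spec1

/-! Module ENC (blueprint 1.1): injectivity of the encoding. -/

open Finset

namespace PSys

theorem ENC_hop_facts {n : ℕ} {P : Sys n} (hP : IsCPS P) (τ : ℕ) {u v : Fin n} (huv : u ≠ v)
    (hH : s(u, v) ∉ Hs (fG P) (hpf P τ)) :
    Dir P u (hop P u v) ∧ Dir P v (hop P v u) ∧ hop P u v ∈ P u v ∧ hop P v u ∈ P u v ∧
      hop P u v ≠ v ∧ hop P v u ≠ u ∧ hop P v (hop P u v) = hop P v u ∧
      hop P u (hop P v u) = hop P u v := by
  have hF := hP.fam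
  have h1 := hF.hop_dir (hP.ne_nil u v) huv
  have h2 := hF.hop_dir (hP.ne_nil v u) huv.symm
  have h3 := hF.hop_mem (hP.ne_nil u v) huv
  have h4 := hF.hop_mem (hP.ne_nil v u) huv.symm
  have h4' : hop P v u ∈ P u v := hF.mem_symm.2 h4
  have hnd : ¬ Dir P u v := by
    intro hd
    apply hH
    simp only [Hs, mem_filter, mem_univ, true_and]
    exact ⟨u, v, rfl, huv, Or.inl ((mem_fG hF).2 hd)⟩
  have hnd' : ¬ Dir P v u := fun h => hnd (hF.dir_symm.1 h)
  have h5 := hF.not_dir_hop_ne (hP.ne_nil u v) huv hnd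
  have h6 := hF.not_dir_hop_ne (hP.ne_nil v u) huv.symm hnd'
  refine ⟨h1, h2, h3, h4', h5, h6, hF.hop_eq_of_mem h3 h5, hF.hop_eq_of_mem h4 h6⟩

theorem ENC_wx {n : ℕ} {P : Sys n} (hP : IsCPS P) (τ : ℕ) {x v : Fin n} (hxv : x ≠ v)
    (hc : τ ≤ (chd P x (hop P v x)).card) : Wx (fG P) (hpf P τ) x v := by
  refine ⟨hxv, ?_⟩
  by_cases hd : Dir P x v
  · exact Or.inl ((mem_fG hP.fam).2 hd)
  · refine Or.inr ?_
    unfold hpf
    rw [if_pos ⟨hxv.symm, hd, hc⟩]
    simp

/-- Blueprint 1.1.1: outside `H` the label (if any) is an option and lies strictly inside the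
path. -/
theorem labf_opt {n : ℕ} {P : Sys n} (hP : IsCPS P) (τ : ℕ) {u v z : Fin n} (huv : u ≠ v)
    (hH : s(u, v) ∉ Hs (fG P) (hpf P τ)) (hz : labf P τ u v = some z) :
    z ∈ opt (fG P) (hpf P τ) s(u, v) ∧ z ∈ P u v ∧ z ≠ u ∧ z ≠ v := by
  obtain ⟨h1, h2, h3, h4, h5, h6, h7, h8⟩ := ENC_hop_facts hP τ huv hH
  have hF := hP.fam
  have hG1 : s(hop P u v, u) ∈ fG P := (mem_fG hF).2 (hF.dir_symm.2 h1)
  have hG2 : s(hop P v u, v) ∈ fG P := (mem_fG hF).2 (hF.dir_symm.2 h2)
  simp only [opt, mem_filter, mem_univ, true_and]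
  unfold labf at hz
  split_ifs at hz with ha hb hc
  · obtain rfl := Option.some.inj hz
    refine ⟨⟨u, v, rfl, hG1, h5, Or.inl ?_⟩, h3, h1.1.symm, h5⟩
    rw [ha]; exact hG2
  · obtain rfl := Option.some.inj hz
    refine ⟨⟨u, v, rfl, hG1, ?_⟩, h3, h1.1.symm, h5⟩
    exact ENC_wx hP τ h5 (by rw [h7]; exact hb)
  · obtain rfl := Option.some.inj hz
    refine ⟨⟨v, u, Sym2.eq_swap, hG2, ?_⟩, h4, h6, h2.1.symm⟩
    exact ENC_wx hP τ h6 (by rw [h8]; exact hc)

/-- the rank of an element is less than `τ` -/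
theorem isEl_lt {n : ℕ} {P : Sys n} (hP : IsCPS P) (τ : ℕ) {i : Fin n × Fin n × ℕ}
    (hi : IsEl P τ i) : i.2.2 < τ := by
  obtain ⟨u, hu, hH, hl, hx, hr⟩ := hi
  obtain ⟨h1, h2, h3, h4, h5, h6, h7, h8⟩ := ENC_hop_facts hP τ hu.ne hH
  unfold labf at hl
  split_ifs at hl with ha hb hc
  rw [hr, hx, h7]
  refine lt_of_le_of_lt (card_filter_le _ _) (not_le.1 hc)

theorem ENC_rank {n : ℕ} (S : Finset (Fin n)) {u u' : Fin n} (hu : u ∈ S) (hu' : u' ∈ S)
    (h : (S.filter (fun w => w < u)).card = (S.filter (fun w => w < u')).card) : u = u' := by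
  have key : ∀ a b : Fin n, a ∈ S → a < b →
      (S.filter (fun w => w < a)).card < (S.filter (fun w => w < b)).card := by
    intro a b ha hab
    apply card_lt_card
    refine ⟨fun w hw => ?_, fun hsub => ?_⟩
    · rw [mem_filter] at hw ⊢
      exact ⟨hw.1, hw.2.trans hab⟩
    · have := hsub (mem_filter.2 ⟨ha, hab⟩)
      exact absurd (mem_filter.1 this).2 (lt_irrefl a)
  rcases lt_trichotomy u u' with h1 | h1 | h1
  · exact absurd h (key u u' hu h1).ne
  · exact h1
  · exact absurd h.symm (key u' u hu' h1).ne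

theorem ENC_mem_chd {n : ℕ} {P : Sys n} (hP : IsCPS P) (τ : ℕ) {x v u : Fin n}
    (h1 : u < v) (h2 : s(u, v) ∉ Hs (fG P) (hpf P τ)) (h4 : x = hop P u v) :
    u ∈ chd P (hop P v x) x ∧ hop P v x = hop P v u := by
  obtain ⟨g1, g2, g3, g4, g5, g6, g7, g8⟩ := ENC_hop_facts hP τ h1.ne h2
  rw [h4, g7]
  refine ⟨?_, rfl⟩
  unfold chd
  simp only [mem_filter, mem_univ, true_and]
  exact ⟨g6.symm, g8⟩

/-- the light pair of an element is determined by the element -/
theorem isEl_unique {n : ℕ} {P : Sys n} (hP : IsCPS P) (τ : ℕ) {x v u u' : Fin n} {r : ℕ}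
    (h : u < v ∧ s(u, v) ∉ Hs (fG P) (hpf P τ) ∧ labf P τ u v = none ∧
      x = hop P u v ∧ r = ((chd P (hop P v x) x).filter (fun w => w < u)).card)
    (h' : u' < v ∧ s(u', v) ∉ Hs (fG P) (hpf P τ) ∧ labf P τ u' v = none ∧
      x = hop P u' v ∧ r = ((chd P (hop P v x) x).filter (fun w => w < u')).card) : u = u' := by
  obtain ⟨h1, h2, h3, h4, h5⟩ := h
  obtain ⟨g1, g2, g3, g4, g5⟩ := h'
  exact ENC_rank _ (ENC_mem_chd hP τ h1 h2 h4).1 (ENC_mem_chd hP τ g1 g2 g4).1 (h5.symm.trans g5)

theorem ENC_flip {n : ℕ} {P P' : Sys n} (hP : IsCPS P) (hP' : IsCPS P') {u v : Fin n}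
    (h : P v u = P' v u) : P u v = P' u v := by
  rw [hP.symm v u, hP'.symm v u, h]

theorem ENC_hop_congr {n : ℕ} {P P' : Sys n} {u v : Fin n} (h : P u v = P' u v) :
    hop P u v = hop P' u v := by
  unfold hop; rw [h]

theorem ENC_len_flip {n : ℕ} {P : Sys n} (hP : IsCPS P) (u v : Fin n) :
    (P v u).length = (P u v).length := by
  rw [hP.symm u v, List.length_reverse]

/-- the induction step -/
theorem ENC_step {n : ℕ} {P P' : Sys n} (hP : IsCPS P) (hP' : IsCPS P') (τ : ℕ)
    (hG : fG P = fG P') (hh : hpf P τ = hpf P' τ)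
    (hl : ∀ u v, u < v → s(u, v) ∉ Hs (fG P) (hpf P τ) → labf P τ u v = labf P' τ u v)
    (hI : ∀ i, IsEl P τ i ↔ IsEl P' τ i) (k : ℕ)
    (ih : ∀ u v, (P u v).length ≤ k → P u v = P' u v)
    (ih' : ∀ u v, (P' u v).length ≤ k → P u v = P' u v)
    (u v : Fin n) (huv : u < v) (hk : (P u v).length = k + 1) : P u v = P' u v := by
  have hF := hP.fam
  have hF' := hP'.fam
  by_cases hd : Dir P u v
  · have h1 : s(u, v) ∈ fG P' := by rw [← hG]; exact (mem_fG hF).2 hd
    rw [hd.2, ((mem_fG hF').1 h1).2]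
  by_cases hH : s(u, v) ∈ Hs (fG P) (hpf P τ)
  · -- heavy pairs
    have main : ∀ x w : Fin n, x ≠ w → ¬ Dir P x w → (P x w).length = k + 1 →
        Wx (fG P) (hpf P τ) x w → P x w = P' x w := by
      intro x w hxw hdw hkw hW
      rcases hW.2 with h1 | h1
      · exact absurd ((mem_fG hF).1 h1) hdw
      · have h2 : hpf P τ x w = some (hop P w x) := by
          unfold hpf at h1 ⊢
          split_ifs at h1 ⊢ with h3
          · rfl
          · exact absurd rfl h1
        have h3 : hpf P' τ x w = some (hop P w x) := by rw [← hh]; exact h2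
        have h4 : hop P' w x = hop P w x := by
          unfold hpf at h3
          split_ifs at h3 with h5
          exact Option.some.inj h3
        have h5 := hF.snoc_hop (hP.ne_nil x w) hxw
        have h6 := hF'.snoc_hop (hP'.ne_nil x w) hxw
        rw [h4] at h6
        have h7 : (P x (hop P w x)).length ≤ k := by
          have := congrArg List.length h5
          rw [List.length_append, hkw] at this
          simp only [List.length_cons, List.length_nil] at this
          omega
        rw [h5, h6, ih _ _ h7]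
    simp only [Hs, mem_filter, mem_univ, true_and] at hH
    obtain ⟨x, w, he, hW⟩ := hH
    rcases Sym2.eq_iff.1 he with ⟨rfl, rfl⟩ | ⟨rfl, rfl⟩
    · exact main _ _ huv.ne hd hk hW
    · apply ENC_flip hP hP'
      exact main _ _ huv.ne' (fun h => hd (hF.dir_symm.1 h)) (by rw [ENC_len_flip hP, hk]) hW
  · have hH' : s(u, v) ∉ Hs (fG P') (hpf P' τ) := by rw [← hG, ← hh]; exact hH
    cases hlab : labf P τ u v with
    | some z =>
      have hlab' : labf P' τ u v = some z := by rw [← hl u v huv hH]; exact hlab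
      obtain ⟨_, h2, h3, h4⟩ := labf_opt hP τ huv.ne hH hlab
      obtain ⟨_, g2, g3, g4⟩ := labf_opt hP' τ huv.ne hH' hlab'
      have h5 := hF.length_lt_left h2 h4
      have h6 := hF.length_lt_right h2 h3.symm
      exact ext_of_mem hF hF' h2 g2 (ih _ _ (by omega)) (ih _ _ (by omega))
    | none =>
      obtain ⟨f1, f2, f3, f4, f5, f6, f7, f8⟩ := ENC_hop_facts hP τ huv.ne hH
      set x := hop P u v with hx
      have hIs : IsEl P τ (x, v, ((chd P (hop P v x) x).filter (fun w => w < u)).card) :=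
        ⟨u, huv, hH, hlab, hx, rfl⟩
      obtain ⟨u', hu', hH2, hlab2, hx2, hr2⟩ := (hI _).1 hIs
      simp only at hu' hH2 hlab2 hx2 hr2
      have hkx : (P x v).length = k := by
        have := hF.length_hop (hP.ne_nil u v) huv.ne
        rw [← hx, hk] at this
        omega
      have hxv : P x v = P' x v := ih _ _ hkx.le
      have hvx : P v x = P' v x := ENC_flip hP hP' hxv
      have hy : hop P' v x = hop P v x := (ENC_hop_congr hvx).symm
      rw [hy] at hr2
      -- y = hop P v x
      have hyx : hop P v x ∈ P x v := hF.mem_symm.1 (hF.hop_mem (hP.ne_nil v x) f5.symm)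
      have hyv : hop P v x ≠ v := (hF.hop_dir (hP.ne_nil v x) f5.symm).1.symm
      have hlen : (P x (hop P v x)).length < k := by
        have := hF.length_lt_left hyx hyv
        omega
      have hPxy : P x (hop P v x) = P' x (hop P v x) := ih _ _ hlen.le
      have hchd : chd P (hop P v x) x = chd P' (hop P v x) x := by
        ext w
        simp only [chd, mem_filter, mem_univ, true_and]
        constructor
        · rintro ⟨a1, a2⟩
          refine ⟨a1, ?_⟩
          have a3 := hF.length_hop (hP.ne_nil w _) a1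
          rw [a2] at a3
          rw [← ENC_hop_congr (ih w _ (by omega))]
          exact a2
        · rintro ⟨a1, a2⟩
          refine ⟨a1, ?_⟩
          have a3 := hF'.length_hop (hP'.ne_nil w _) a1
          rw [a2, ← hPxy] at a3
          rw [ENC_hop_congr (ih' w _ (by omega))]
          exact a2
      have hmu := (ENC_mem_chd hP τ huv hH hx).1
      have hmu' := (ENC_mem_chd hP' τ hu' hH2 hx2).1
      rw [hy, ← hchd] at hmu'
      rw [← hchd] at hr2
      have huu : u = u' := ENC_rank _ hmu hmu' hr2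
      subst huu
      rw [hF.cons_hop (hP.ne_nil u v) huv.ne, hF'.cons_hop (hP'.ne_nil u v) huv.ne, ← hx, ← hx2,
        hxv]

/-- Blueprint 1.1.2: injectivity. -/
theorem enc_inj {n : ℕ} {P P' : Sys n} (hP : IsCPS P) (hP' : IsCPS P') (τ : ℕ)
    (hG : fG P = fG P') (hh : hpf P τ = hpf P' τ)
    (hl : ∀ u v, u < v → s(u, v) ∉ Hs (fG P) (hpf P τ) → labf P τ u v = labf P' τ u v)
    (hI : ∀ i, IsEl P τ i ↔ IsEl P' τ i) : P = P' := by
  have hl' : ∀ u v, u < v → s(u, v) ∉ Hs (fG P') (hpf P' τ) → labf P' τ u v = labf P τ u v := by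
    intro u v huv hH
    rw [← hG, ← hh] at hH
    exact (hl u v huv hH).symm
  have main : ∀ k : ℕ, (∀ u v, (P u v).length ≤ k → P u v = P' u v) ∧
      (∀ u v, (P' u v).length ≤ k → P u v = P' u v) := by
    intro k
    induction k with
    | zero =>
      refine ⟨fun u v h => ?_, fun u v h => ?_⟩
      · exact absurd (List.length_eq_zero_iff.1 (Nat.le_zero.1 h)) (hP.ne_nil u v)
      · exact absurd (List.length_eq_zero_iff.1 (Nat.le_zero.1 h)) (hP'.ne_nil u v)
    | succ k ih =>
      refine ⟨fun u v h => ?_, fun u v h => ?_⟩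
      · rcases Nat.lt_or_ge (P u v).length (k + 1) with h1 | h1
        · exact ih.1 u v (Nat.lt_succ_iff.1 h1)
        have h2 : (P u v).length = k + 1 := le_antisymm h h1
        rcases lt_trichotomy u v with h3 | h3 | h3
        · exact ENC_step hP hP' τ hG hh hl hI k ih.1 ih.2 u v h3 h2
        · rw [h3, hP.self, hP'.self]
        · apply ENC_flip hP hP'
          exact ENC_step hP hP' τ hG hh hl hI k ih.1 ih.2 v u h3 (by rw [ENC_len_flip hP, h2])
      · rcases Nat.lt_or_ge (P' u v).length (k + 1) with h1 | h1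
        · exact ih.2 u v (Nat.lt_succ_iff.1 h1)
        have h2 : (P' u v).length = k + 1 := le_antisymm h h1
        have st := ENC_step hP' hP τ hG.symm hh.symm hl' (fun i => (hI i).symm) k
          (fun a b hab => (ih.2 a b hab).symm) (fun a b hab => (ih.1 a b hab).symm)
        rcases lt_trichotomy u v with h3 | h3 | h3
        · exact (st u v h3 h2).symm
        · rw [h3, hP.self, hP'.self]
        · apply ENC_flip hP hP'
          exact (st v u h3 (by rw [ENC_len_flip hP', h2])).symm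
  funext u v
  exact (main (P u v).length).1 u v le_rfl

end PSys
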