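import Mathlib
import Pool.Agent.PSys.Spec1
import Pool.Agent.PSys.Enc

/-! Module CNTJ (blueprint 1.2): number of systems with given coarse data. -/

open Finset

namespace PSys

open Classical in
/-- the label function of a system, on unordered pairs -/
noncomputable def CNTJ_lab {n : ℕ} (P : Sys n) (τ : ℕ) (E : Finset (Sym2 (Fin n)))
    (e : Sym2 (Fin n)) : Option (Fin n) :=
  if e ∈ E then labf P τ e.inf e.sup else none

open Classical in
/-- the set of elements of the light pairs -/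
noncomputable def CNTJ_el {n : ℕ} (P : Sys n) (τ : ℕ) : Finset (Fin n × Fin n × ℕ) :=
  ((univ : Finset (Fin n)) ×ˢ ((univ : Finset (Fin n)) ×ˢ range τ)).filter (fun i => IsEl P τ i)

theorem CNTJ_mem_el {n : ℕ} {P : Sys n} (hP : IsCPS P) (τ : ℕ) (i : Fin n × Fin n × ℕ) :
    i ∈ CNTJ_el P τ ↔ IsEl P τ i := by
  unfold CNTJ_el
  simp only [mem_filter, mem_product, mem_univ, true_and, mem_range]
  exact ⟨fun h => h.2, fun h => ⟨isEl_lt hP τ h, h⟩⟩

theorem CNTJ_pair {n : ℕ} {e : Sym2 (Fin n)} (he : e ∈ prs (univ : Finset (Fin n))) :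
    e.inf < e.sup ∧ e = s(e.inf, e.sup) := by
  induction e with
  | _ u v =>
    have huv : u ≠ v := (mem_prs.1 he).1
    rcases lt_or_gt_of_ne huv with h | h
    · have h1 : (s(u, v) : Sym2 (Fin n)).inf = u := inf_eq_left.2 h.le
      have h2 : (s(u, v) : Sym2 (Fin n)).sup = v := sup_eq_right.2 h.le
      rw [h1, h2]
      exact ⟨h, rfl⟩
    · have h1 : (s(u, v) : Sym2 (Fin n)).inf = v := inf_eq_right.2 h.le
      have h2 : (s(u, v) : Sym2 (Fin n)).sup = u := sup_eq_left.2 h.le
      rw [h1, h2]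
      exact ⟨h, Sym2.eq_swap⟩

theorem CNTJ_inf {n : ℕ} {u v : Fin n} (h : u < v) : (s(u, v) : Sym2 (Fin n)).inf = u :=
  inf_eq_left.2 h.le

theorem CNTJ_sup {n : ℕ} {u v : Fin n} (h : u < v) : (s(u, v) : Sym2 (Fin n)).sup = v :=
  sup_eq_right.2 h.le

/-- the number of elements is the number of light pairs -/
theorem CNTJ_card {n : ℕ} {P : Sys n} (hP : IsCPS P) (τ : ℕ) (E : Finset (Sym2 (Fin n)))
    (hE : E = prs univ \ Hs (fG P) (hpf P τ)) :
    (CNTJ_el P τ).card = (E.filter (fun e => CNTJ_lab P τ E e = none)).card := by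
  classical
  symm
  have hmem : ∀ e ∈ E.filter (fun e => CNTJ_lab P τ E e = none), e ∈ prs univ ∧
      e ∉ Hs (fG P) (hpf P τ) ∧ labf P τ e.inf e.sup = none := by
    intro e he
    rw [mem_filter] at he
    have h1 := he.1
    have h2 := he.2
    unfold CNTJ_lab at h2
    rw [if_pos h1] at h2
    rw [hE, mem_sdiff] at h1
    exact ⟨h1.1, h1.2, h2⟩
  refine card_bij (fun e _ => (hop P e.inf e.sup, e.sup,
    ((chd P (hop P e.sup (hop P e.inf e.sup)) (hop P e.inf e.sup)).filter
      (fun w => w < e.inf)).card)) ?_ ?_ ?_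
  · intro e he
    obtain ⟨h1, h2, h3⟩ := hmem e he
    obtain ⟨h4, h5⟩ := CNTJ_pair h1
    rw [CNTJ_mem_el hP]
    refine ⟨e.inf, h4, ?_, h3, rfl, rfl⟩
    show s(e.inf, e.sup) ∉ _
    rw [← h5]
    exact h2
  · intro e he e' he' hh
    obtain ⟨h1, h2, h3⟩ := hmem e he
    obtain ⟨h4, h5⟩ := CNTJ_pair h1
    obtain ⟨h1', h2', h3'⟩ := hmem e' he'
    obtain ⟨h4', h5'⟩ := CNTJ_pair h1'
    simp only [Prod.mk.injEq] at hh
    obtain ⟨g1, g2, g3⟩ := hh
    have := isEl_unique hP τ (x := hop P e.inf e.sup) (v := e.sup) (u := e.inf) (u' := e'.inf)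
      (r := ((chd P (hop P e.sup (hop P e.inf e.sup)) (hop P e.inf e.sup)).filter
      (fun w => w < e.inf)).card) ⟨h4, by rw [← h5]; exact h2, h3, rfl, rfl⟩
      ⟨by rw [g2]; exact h4', by rw [g2, ← h5']; exact h2', by rw [g2]; exact h3',
        by rw [g1, g2], by rw [g3, g1, g2]⟩
    rw [h5, h5', this, g2]
  · intro i hi
    rw [CNTJ_mem_el hP] at hi
    obtain ⟨x, v, r⟩ := i
    obtain ⟨u, k1, k2, k3, k4, k5⟩ := hi
    simp only at k1 k2 k3 k4 k5
    have hmE : s(u, v) ∈ E := by
      rw [hE, mem_sdiff]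
      exact ⟨mem_prs.2 ⟨k1.ne, mem_univ _, mem_univ _⟩, k2⟩
    refine ⟨s(u, v), ?_, ?_⟩
    · rw [mem_filter]
      refine ⟨hmE, ?_⟩
      unfold CNTJ_lab
      rw [if_pos hmE, CNTJ_inf k1, CNTJ_sup k1]
      exact k3
    · rw [CNTJ_inf k1, CNTJ_sup k1, ← k4, ← k5]

open Classical in
/-- Blueprint 1.2, first line. -/
theorem count_J {n : ℕ} (τ : ℕ) (ρ : ℝ) (hρ : 0 < ρ) (G : Finset (Sym2 (Fin n)))
    (hp : Fin n → Fin n → Option (Fin n)) :
    (((cps n).filter (fun P => fG P = G ∧ hpf P τ = hp)).card : ℝ) ≤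
      (1 + ρ) ^ (n * n * τ) * ∏ e ∈ prs univ \ Hs G hp, (((opt G hp e).card : ℝ) + 1 / ρ) := by
  set E := prs univ \ Hs G hp with hE
  let T : Sym2 (Fin n) → Finset (Option (Fin n)) := fun e =>
    if e ∈ E then insert none ((opt G hp e).image some) else {none}
  let f : Sym2 (Fin n) → Option (Fin n) → ℝ := fun e j =>
    if e ∈ E ∧ j = none then 1 / ρ else 1
  let S : Finset (Fin n × Fin n × ℕ) :=
    (univ : Finset (Fin n)) ×ˢ ((univ : Finset (Fin n)) ×ˢ range τ)
  have hS : S.card = n * n * τ := by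
    simp only [S, card_product, card_univ, Fintype.card_fin, card_range]
    ring
  have hR : (1 + ρ) ^ (n * n * τ) * ∏ e ∈ E, (((opt G hp e).card : ℝ) + 1 / ρ) =
      ∑ y ∈ (Fintype.piFinset T) ×ˢ S.powerset, (∏ e, f e (y.1 e)) * ρ ^ y.2.card := by
    rw [sum_product]
    have h1 : ∑ I ∈ S.powerset, ρ ^ I.card = (1 + ρ) ^ (n * n * τ) := by
      have := Finset.sum_pow_mul_eq_add_pow ρ 1 S
      simp only [one_pow, mul_one] at this
      rw [this, hS, add_comm]
    have h2 : ∑ x ∈ Fintype.piFinset T, ∏ e, f e (x e) =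
        ∏ e ∈ E, (((opt G hp e).card : ℝ) + 1 / ρ) := by
      rw [← Finset.prod_univ_sum]
      rw [← Finset.prod_subset (Finset.subset_univ E)]
      · refine prod_congr rfl fun e he => ?_
        simp only [T, if_pos he]
        rw [sum_insert (by simp)]
        have : ∀ j ∈ (opt G hp e).image some, f e j = 1 := by
          intro j hj
          rw [mem_image] at hj
          obtain ⟨z, _, rfl⟩ := hj
          simp [f]
        rw [sum_congr rfl this, sum_const, card_image_of_injective _ (Option.some_injective _)]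
        simp only [f, he, true_and, if_true, nsmul_eq_mul, mul_one]
        ring
      · intro e _ he
        simp only [T, if_neg he, sum_singleton, f, he, false_and, if_false]
    simp only [← mul_sum, h1, ← sum_mul, h2]
    ring
  rw [hR]
  have hcard : (((cps n).filter (fun P => fG P = G ∧ hpf P τ = hp)).card : ℝ) =
      ∑ P ∈ (cps n).filter (fun P => fG P = G ∧ hpf P τ = hp),
        (∏ e, f e (CNTJ_lab P τ E e)) * ρ ^ (CNTJ_el P τ).card := by
    rw [card_eq_sum_ones, Nat.cast_sum]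
    refine sum_congr rfl fun P hP => ?_
    rw [mem_filter, mem_cps] at hP
    obtain ⟨hP, hG, hh⟩ := hP
    have hE' : E = prs univ \ Hs (fG P) (hpf P τ) := by rw [hG, hh]
    rw [CNTJ_card hP τ E hE']
    have : ∏ e, f e (CNTJ_lab P τ E e) =
        ∏ e ∈ E.filter (fun e => CNTJ_lab P τ E e = none), (1 / ρ) := by
      rw [← Finset.prod_subset (Finset.subset_univ
        (E.filter (fun e => CNTJ_lab P τ E e = none)))]
      · refine prod_congr rfl fun e he => ?_
        rw [mem_filter] at he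
        simp only [f]
        rw [if_pos he]
      · intro e _ he
        simp only [f]
        rw [if_neg]
        intro h
        exact he (mem_filter.2 h)
    rw [this, prod_const, ← mul_pow, one_div, inv_mul_cancel₀ hρ.ne', one_pow]
    simp
  rw [hcard]
  have hinj : Set.InjOn (fun P : Sys n => (CNTJ_lab P τ E, CNTJ_el P τ))
      ((cps n).filter (fun P => fG P = G ∧ hpf P τ = hp) : Finset (Sys n)) := by
    intro P hP P' hP' hh
    rw [mem_coe, mem_filter, mem_cps] at hP hP'
    obtain ⟨hP, hG, hh1⟩ := hP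
    obtain ⟨hP', hG', hh1'⟩ := hP'
    simp only [Prod.mk.injEq] at hh
    obtain ⟨g1, g2⟩ := hh
    refine enc_inj hP hP' τ (by rw [hG, hG']) (by rw [hh1, hh1']) ?_ ?_
    · intro u v huv hH
      have hmE : s(u, v) ∈ E := by
        rw [hE, mem_sdiff]
        refine ⟨mem_prs.2 ⟨huv.ne, mem_univ _, mem_univ _⟩, ?_⟩
        rw [← hG, ← hh1]
        exact hH
      have := congrFun g1 s(u, v)
      unfold CNTJ_lab at this
      rw [if_pos hmE, if_pos hmE, CNTJ_inf huv, CNTJ_sup huv] at this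
      exact this
    · intro i
      rw [← CNTJ_mem_el hP, ← CNTJ_mem_el hP', g2]
  rw [← Finset.sum_image (f := fun y : (Sym2 (Fin n) → Option (Fin n)) ×
    Finset (Fin n × Fin n × ℕ) => (∏ e, f e (y.1 e)) * ρ ^ y.2.card) hinj]
  refine sum_le_sum_of_subset_of_nonneg ?_ ?_
  · intro y hy
    rw [mem_image] at hy
    obtain ⟨P, hP, rfl⟩ := hy
    rw [mem_filter, mem_cps] at hP
    obtain ⟨hP, hG, hh1⟩ := hP
    rw [mem_product, Fintype.mem_piFinset, mem_powerset]
    refine ⟨?_, filter_subset _ _⟩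
    intro e
    show CNTJ_lab P τ E e ∈ T e
    by_cases he : e ∈ E
    · have he' := he
      rw [hE, mem_sdiff] at he'
      obtain ⟨h4, h5⟩ := CNTJ_pair he'.1
      simp only [T, if_pos he, CNTJ_lab]
      cases hz : labf P τ e.inf e.sup with
      | none => exact mem_insert_self _ _
      | some z =>
        have h6 : s(e.inf, e.sup) ∉ Hs (fG P) (hpf P τ) := by
          rw [← h5, hG, hh1]; exact he'.2
        have h7 := (labf_opt hP τ h4.ne h6 hz).1
        rw [← h5, hG, hh1] at h7
        exact mem_insert_of_mem (mem_image_of_mem _ h7)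
    · simp only [T, if_neg he, CNTJ_lab]
      exact mem_singleton_self _
  · intro y _ _
    refine mul_nonneg (prod_nonneg fun e _ => ?_) (pow_nonneg hρ.le _)
    simp only [f]
    split_ifs
    · positivity
    · exact zero_le_one

end PSys
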