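import Mathlib
import Pool.Agent.PSys.Spec1

/-! Module CNTJS (blueprint 1.4): number of coarse data with `h` pairs in `H`. -/

open Finset

namespace PSys

theorem CNTJS_some {n : ℕ} {P : Sys n} {τ : ℕ} {x v y : Fin n} (h : hpf P τ x v = some y) :
    v ≠ x ∧ hop P v x = y ∧ τ ≤ (chd P x y).card := by
  classical
  unfold hpf at h
  split_ifs at h with h1
  · simp only [Option.some.injEq] at h
    refine ⟨h1.1, h, ?_⟩
    rw [← h]
    exact h1.2.2

open Classical in
/-- the values of `hpf P τ x` -/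
noncomputable def CNTJS_Y {n : ℕ} (P : Sys n) (τ : ℕ) (x : Fin n) : Finset (Fin n) :=
  univ.filter (fun y => ∃ v, hpf P τ x v = some y)

theorem CNTJS_card {n : ℕ} (P : Sys n) (τ : ℕ) (hτ : 1 ≤ τ) (x : Fin n) :
    (CNTJS_Y P τ x).card ≤ n / τ := by
  classical
  rw [Nat.le_div_iff_mul_le (by omega)]
  have h1 : (CNTJS_Y P τ x).card * τ ≤ ∑ y ∈ CNTJS_Y P τ x, (chd P x y).card := by
    rw [← smul_eq_mul]
    refine card_nsmul_le_sum _ _ _ fun y hy => ?_
    obtain ⟨v, hv⟩ := (mem_filter.1 hy).2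
    exact (CNTJS_some hv).2.2
  have h2 : ∑ y ∈ CNTJS_Y P τ x, (chd P x y).card =
      ((CNTJS_Y P τ x).biUnion (fun y => chd P x y)).card := by
    rw [card_biUnion]
    intro y _ y' _ hyy
    change Disjoint (chd P x y) (chd P x y')
    rw [disjoint_left]
    intro v hv hv'
    unfold chd at hv hv'
    rw [mem_filter] at hv hv'
    exact hyy (hv.2.2.symm.trans hv'.2.2)
  rw [h2] at h1
  refine h1.trans ((card_le_univ _).trans (le_of_eq (Fintype.card_fin n)))

theorem CNTJS_pairs {n : ℕ} (H : Finset (Sym2 (Fin n))) :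
    Fintype.card {p : Fin n × Fin n // s(p.1, p.2) ∈ H} ≤ 2 * H.card := by
  classical
  rw [Fintype.card_subtype]
  have h1 : (univ.filter (fun p : Fin n × Fin n => s(p.1, p.2) ∈ H)).card ≤
      2 * ((univ.filter (fun p : Fin n × Fin n => s(p.1, p.2) ∈ H)).image
        (fun p => s(p.1, p.2))).card := by
    refine card_le_mul_card_image _ 2 ?_
    intro e _
    induction e with
    | _ u v =>
      refine le_trans (card_le_card (t := {(u, v), (v, u)}) ?_) card_le_two
      rintro ⟨a, b⟩ hp
      rw [mem_filter] at hp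
      rcases Sym2.eq_iff.1 hp.2 with ⟨h1, h2⟩ | ⟨h1, h2⟩
      · simp only at h1 h2
        simp [h1, h2]
      · simp only at h1 h2
        simp [h1, h2]
  refine h1.trans (Nat.mul_le_mul_left 2 (card_le_card ?_))
  intro e he
  obtain ⟨p, hp, rfl⟩ := mem_image.1 he
  exact (mem_filter.1 hp).2

open Classical in
/-- decoding -/
noncomputable def CNTJS_dec {n k : ℕ} (H : Finset (Sym2 (Fin n)))
    (t : Finset (Sym2 (Fin n)) × (Fin n → Fin k → Option (Fin n)) ×
      ({p : Fin n × Fin n // s(p.1, p.2) ∈ H} → Option (Fin k))) :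
    Finset (Sym2 (Fin n)) × (Fin n → Fin n → Option (Fin n)) :=
  (t.1, fun x v => if h : s(x, v) ∈ H then (t.2.2 ⟨(x, v), h⟩).bind (t.2.1 x) else none)

open Classical in
theorem CNTJS_fib {n : ℕ} (τ k h : ℕ) (hτ : 1 ≤ τ) (hk : n / τ ≤ k)
    (H : Finset (Sym2 (Fin n))) (hH : H.card = h) :
    (((cps n).filter (fun P => Hs (fG P) (hpf P τ) = H)).image
      (fun P => (fG P, hpf P τ))).card ≤ 2 ^ h * (n + 1) ^ (n * k) * (1 + k) ^ (2 * h) := by
  have h1 : (((cps n).filter (fun P => Hs (fG P) (hpf P τ) = H)).image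
      (fun P => (fG P, hpf P τ))) ⊆ ((H.powerset ×ˢ
        ((univ : Finset (Fin n → Fin k → Option (Fin n))) ×ˢ
        (univ : Finset ({p : Fin n × Fin n // s(p.1, p.2) ∈ H} → Option (Fin k))))).image
        (CNTJS_dec H)) := by
    intro J hJ
    obtain ⟨P, hP, rfl⟩ := mem_image.1 hJ
    obtain ⟨hP1, hP2⟩ := mem_filter.1 hP
    have hP' : IsCPS P := mem_cps.1 hP1
    rw [mem_image]
    have hY : ∀ x v, ∃ o : Option (Fin k),
        hpf P τ x v = o.bind (fun j => (CNTJS_Y P τ x).toList[(j : ℕ)]?) := by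
      intro x v
      cases hxy : hpf P τ x v with
      | none => exact ⟨none, rfl⟩
      | some y =>
        have hy : y ∈ (CNTJS_Y P τ x).toList := by
          rw [mem_toList]
          exact mem_filter.2 ⟨mem_univ _, v, hxy⟩
        obtain ⟨j, hj, hjy⟩ := List.mem_iff_getElem.1 hy
        have h3 : j < k := by
          rw [length_toList] at hj
          exact lt_of_lt_of_le hj ((CNTJS_card P τ hτ x).trans hk)
        refine ⟨some ⟨j, h3⟩, ?_⟩
        rw [Option.bind_some, List.getElem?_eq_getElem hj, hjy]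
    choose jf hjf using hY
    refine ⟨(fG P, (fun x j => (CNTJS_Y P τ x).toList[(j : ℕ)]?), fun p =>
      jf p.1.1 p.1.2), ?_, ?_⟩
    · rw [mem_product, mem_product]
      refine ⟨?_, mem_univ _, mem_univ _⟩
      rw [mem_powerset, ← hP2]
      intro e he
      induction e with
      | _ u v =>
        have hd : Dir P u v := (mem_fG hP'.fam).1 he
        simp only [Hs, mem_filter, mem_univ, true_and]
        exact ⟨u, v, rfl, hd.1, Or.inl he⟩
    · unfold CNTJS_dec
      simp only [Prod.mk.injEq, true_and]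
      funext x v
      by_cases hxv : s(x, v) ∈ H
      · rw [dif_pos hxv]
        exact (hjf x v).symm
      · rw [dif_neg hxv]
        cases hval : hpf P τ x v with
        | none => rfl
        | some y =>
          exfalso
          apply hxv
          rw [← hP2]
          simp only [Hs, mem_filter, mem_univ, true_and]
          refine ⟨x, v, rfl, (CNTJS_some hval).1.symm, Or.inr ?_⟩
          rw [hval]
          simp
  refine (card_le_card h1).trans (card_image_le.trans ?_)
  rw [card_product, card_product, card_powerset, hH, card_univ, card_univ, Fintype.card_fun,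
    Fintype.card_fun, Fintype.card_fun, Fintype.card_option, Fintype.card_option,
    Fintype.card_fin, Fintype.card_fin, ← mul_assoc]
  have h2 : ((n + 1) ^ k) ^ n = (n + 1) ^ (n * k) := by
    rw [← pow_mul, mul_comm]
  rw [h2]
  refine Nat.mul_le_mul_left _ ?_
  rw [add_comm 1 k]
  refine Nat.pow_le_pow_right (by omega) ?_
  rw [← hH]
  exact CNTJS_pairs H

open Classical in
/-- Blueprint 1.4. `hpf P τ x` takes at most `n/τ` values (`τ ≥ 1`): the children sets are
disjoint. -/
theorem count_Js {n : ℕ} (τ k h : ℕ) (hτ : 1 ≤ τ) (hk : n / τ ≤ k) :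
    (((cps n).filter (fun P => (Hs (fG P) (hpf P τ)).card = h)).image
      (fun P => (fG P, hpf P τ))).card ≤
      (n.choose 2).choose h * 2 ^ h * (n + 1) ^ (n * k) * (1 + k) ^ (2 * h) := by
  have h1 : (((cps n).filter (fun P => (Hs (fG P) (hpf P τ)).card = h)).image
      (fun P => (fG P, hpf P τ))) ⊆ (powersetCard h (prs univ)).biUnion (fun H =>
        (((cps n).filter (fun P => Hs (fG P) (hpf P τ) = H)).image
      (fun P => (fG P, hpf P τ)))) := by
    intro J hJ
    obtain ⟨P, hP, rfl⟩ := mem_image.1 hJ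
    obtain ⟨hP1, hP2⟩ := mem_filter.1 hP
    rw [mem_biUnion]
    refine ⟨Hs (fG P) (hpf P τ), ?_, mem_image.2 ⟨P, mem_filter.2 ⟨hP1, rfl⟩, rfl⟩⟩
    rw [mem_powersetCard]
    refine ⟨?_, hP2⟩
    intro e he
    simp only [Hs, mem_filter, mem_univ, true_and] at he
    obtain ⟨x, v, rfl, hw⟩ := he
    exact mem_prs.2 ⟨hw.1, mem_univ _, mem_univ _⟩
  refine (card_le_card h1).trans (card_biUnion_le.trans ?_)
  refine (sum_le_card_nsmul _ _ (2 ^ h * (n + 1) ^ (n * k) * (1 + k) ^ (2 * h)) ?_).trans ?_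
  · intro H hH
    exact CNTJS_fib τ k h hτ hk H (mem_powersetCard.1 hH).2
  · rw [card_powersetCard, card_prs, card_univ, Fintype.card_fin, smul_eq_mul]
    apply le_of_eq
    ring

end PSys
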