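import Mathlib
import Pool.Agent.PSys.Spec

/-! Module CONTR (blueprint 2.1): contraction of a path. -/

open Finset

namespace PSys

open Classical in
/-- contraction of the path of the pair `u b` to a direct edge -/
noncomputable def contr {n : ℕ} (P : Sys n) (u b : Fin n) : Sys n := fun x y =>
  if u ∈ P x y ∧ b ∈ P x y then (P x y).filter (fun z => z = u ∨ z = b ∨ z ∉ P u b) else P x y

theorem contr_mem {n : ℕ} {P : Sys n} {u b x y z : Fin n} (h : z ∈ contr P u b x y) :
    z ∈ P x y := by
  classical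
  unfold contr at h
  split_ifs at h with h1
  · exact (List.mem_filter.1 h).1
  · exact h

theorem contr_eq {n : ℕ} {P : Sys n} {u b x y : Fin n} (h : ¬ (u ∈ P x y ∧ b ∈ P x y)) :
    contr P u b x y = P x y := by
  classical
  unfold contr
  rw [if_neg h]

theorem contr_mem_iff {n : ℕ} {P : Sys n} {u b x y : Fin n} (h : u ∈ P x y ∧ b ∈ P x y)
    (z : Fin n) : z ∈ contr P u b x y ↔ z ∈ P x y ∧ (z = u ∨ z = b ∨ z ∉ P u b) := by
  classical
  unfold contr
  rw [if_pos h, List.mem_filter]
  simp

theorem CONTR_comm {n : ℕ} {P : Sys n} (hP : IsCPS P) (u b : Fin n) :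
    contr P u b = contr P b u := by
  classical
  have hF := hP.fam
  funext x y
  unfold contr
  by_cases h : u ∈ P x y ∧ b ∈ P x y
  · rw [if_pos h, if_pos ⟨h.2, h.1⟩]
    refine List.filter_congr ?_
    intro z _
    have h1 : z ∈ P u b ↔ z ∈ P b u := hF.mem_symm
    simp only [decide_eq_decide]
    rw [h1]
    tauto
  · rw [if_neg h, if_neg (fun h' => h ⟨h'.2, h'.1⟩)]

theorem CONTR_split {n : ℕ} {P : Sys n} (hP : IsCPS P) {u b x y : Fin n} (hub : u ≠ b)
    (hu : u ∈ P x y) (hb : b ∈ P u y) : contr P u b x y = P x u ++ P b y := by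
  classical
  have hF := hP.fam
  have hb' : b ∈ P x y := (hF.split hu).2 (Or.inr hb)
  have hub' : u ∈ P x b := hF.order hu hb
  unfold contr
  rw [if_pos ⟨hu, hb'⟩]
  rw [hP.cons x y u hu, hP.cons u y b hb]
  have e1 : (P u b ++ (P b y).tail).tail = (P u b).tail ++ (P b y).tail := by
    rw [List.tail_append_of_ne_nil (hP.ne_nil u b)]
  rw [e1, List.filter_append, List.filter_append]
  have f1 : (P x u).filter (fun z => z = u ∨ z = b ∨ z ∉ P u b) = P x u := by
    rw [List.filter_eq_self]
    intro z hz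
    by_cases hzu : z ∈ P u b
    · have := hF.inter hub' hz hzu
      simp [this]
    · simp [hzu]
  have f3 : ((P b y).tail).filter (fun z => z = u ∨ z = b ∨ z ∉ P u b) = (P b y).tail := by
    rw [List.filter_eq_self]
    intro z hz
    by_cases hzu : z ∈ P u b
    · have := hF.inter hb hzu (List.mem_of_mem_tail hz)
      simp [this]
    · simp [hzu]
  have f2 : ((P u b).tail).filter (fun z => z = u ∨ z = b ∨ z ∉ P u b) = [b] := by
    have h1 := hF.eq_cons_tail (hP.ne_nil u b)
    have h2 := hP.nodup u b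
    rw [h1, List.nodup_cons] at h2
    have h3 : b ∈ (P u b).tail := by
      have := hF.mem_right (hP.ne_nil u b)
      rw [h1, List.mem_cons] at this
      rcases this with h | h
      · exact absurd h.symm hub
      · exact h
    have h4 : ((P u b).tail).filter (fun z => z = u ∨ z = b ∨ z ∉ P u b)
        = ((P u b).tail).filter (fun z => z = b) := by
      refine List.filter_congr ?_
      intro z hz
      have hzu : z ≠ u := fun h => h2.1 (h ▸ hz)
      have hz' : z ∈ P u b := List.mem_of_mem_tail hz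
      simp [hzu, hz']
    rw [h4]
    have h5 : ((P u b).tail).filter (fun z => z = b) = ((P u b).tail).filter (fun z => z == b) := by
      refine List.filter_congr ?_
      intro z _
      simp [beq_eq_decide]
    rw [h5, List.filter_beq, List.count_eq_one_of_mem h2.2 h3]
    rfl
  rw [f1, f2, f3]
  conv_rhs => rw [hF.eq_cons_tail (hP.ne_nil b y)]
  simp

theorem CONTR_order {n : ℕ} {P : Sys n} (hP : IsCPS P) {u b x y : Fin n}
    (h : u ∈ P x y ∧ b ∈ P x y) : (u ∈ P x y ∧ b ∈ P u y) ∨ (b ∈ P x y ∧ u ∈ P b y) := by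
  rcases hP.fam.order_total h.1 h.2 with ⟨_, h2⟩ | ⟨_, h2⟩
  · exact Or.inl ⟨h.1, h2⟩
  · exact Or.inr ⟨h.2, h2⟩

theorem CONTR_symm {n : ℕ} {P : Sys n} (hP : IsCPS P) (u b x y : Fin n) :
    contr P u b y x = (contr P u b x y).reverse := by
  classical
  have hF := hP.fam
  unfold contr
  by_cases h : u ∈ P x y ∧ b ∈ P x y
  · rw [if_pos h, if_pos ⟨hF.mem_symm.2 h.1, hF.mem_symm.2 h.2⟩, hP.symm x y, List.filter_reverse]
  · rw [if_neg h, if_neg (fun h' => h ⟨hF.mem_symm.1 h'.1, hF.mem_symm.1 h'.2⟩), hP.symm x y]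

theorem CONTR_head {n : ℕ} {P : Sys n} (hP : IsCPS P) {u b : Fin n} (hub : u ≠ b) (x y : Fin n) :
    (contr P u b x y).head? = some x := by
  by_cases h : u ∈ P x y ∧ b ∈ P x y
  · rcases CONTR_order hP h with ⟨h1, h2⟩ | ⟨h1, h2⟩
    · rw [CONTR_split hP hub h1 h2, List.head?_append, hP.head x u]
      rfl
    · rw [CONTR_comm hP, CONTR_split hP hub.symm h1 h2, List.head?_append, hP.head x b]
      rfl
  · rw [contr_eq h]
    exact hP.head x y

/-- the consistency condition for the order `x u b y` -/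
theorem CONTR_cons1 {n : ℕ} {P : Sys n} (hP : IsCPS P) {u b : Fin n} (hub : u ≠ b)
    {x y a : Fin n} (hu : u ∈ P x y) (hb : b ∈ P u y) (ha : a ∈ contr P u b x y) :
    contr P u b x y = contr P u b x a ++ (contr P u b a y).tail := by
  have hF := hP.fam
  have hb' : b ∈ P x y := (hF.split hu).2 (Or.inr hb)
  have hub' : u ∈ P x b := hF.order hu hb
  have hay := contr_mem ha
  rw [CONTR_split hP hub hu hb, List.mem_append] at ha
  rw [CONTR_split hP hub hu hb]
  rcases ha with ha | ha
  · -- `a` before `u`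
    have h1 : u ∈ P a y := by
      rcases hF.order_total hay hu with ⟨_, h⟩ | ⟨h, _⟩
      · exact h
      · have h4 : u ∈ P x a := h
        have h5 : a = u := by
          by_contra hau
          have h7 := hF.length_add ha
          have h8 := hF.length_add h4
          have h9 := hF.two_le (hP.ne_nil a u) hau
          have h10 := hF.two_le (hP.ne_nil u a) (fun h => hau h.symm)
          omega
        rw [h5]
        exact hF.mem_left (hP.ne_nil u y)
    have h2 : ¬ (u ∈ P x a ∧ b ∈ P x a) := by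
      rintro ⟨_, h⟩
      have h3 : b ∈ P x u := (hF.split ha).2 (Or.inl h)
      exact hub (hF.inter hu h3 hb).symm
    rw [contr_eq h2, CONTR_split hP hub h1 hb, List.tail_append_of_ne_nil (hP.ne_nil a u),
      hP.cons x u a ha, List.append_assoc]
  · -- `a` after `b`
    have h1 : b ∈ P u a := hF.order hb ha
    have h2 : ¬ (u ∈ P a y ∧ b ∈ P a y) := by
      rintro ⟨h, _⟩
      have h3 : u ∈ P b y := (hF.split ha).2 (Or.inr h)
      exact hub (hF.inter hb' hub' h3)
    have h3 : u ∈ P x a := by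
      have h4 : a ∈ P u y := (hF.split hb).2 (Or.inr ha)
      exact hF.order hu h4
    rw [contr_eq h2, CONTR_split hP hub h3 h1, hP.cons b y a ha, List.append_assoc]

/-- Blueprint 2.1. -/
theorem contr_cps {n : ℕ} {P : Sys n} (hP : IsCPS P) {u b : Fin n} (hub : u ≠ b) :
    IsCPS (contr P u b) := by
  classical
  have hF := hP.fam
  refine ⟨?_, ?_, ?_, ?_, ?_, ?_⟩
  · intro x
    rw [contr_eq, hP.self x]
    rw [hP.self x]
    simp only [List.mem_singleton]
    rintro ⟨h1, h2⟩
    exact hub (h1.trans h2.symm)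
  · exact CONTR_head hP hub
  · intro x y
    have h := CONTR_head hP hub y x
    rw [CONTR_symm hP u b x y, List.head?_reverse] at h
    exact h
  · intro x y
    unfold contr
    split_ifs
    · exact (hP.nodup x y).filter _
    · exact hP.nodup x y
  · exact fun x y => CONTR_symm hP u b x y
  · intro x y a ha
    by_cases h : u ∈ P x y ∧ b ∈ P x y
    · rcases CONTR_order hP h with ⟨h1, h2⟩ | ⟨h1, h2⟩
      · exact CONTR_cons1 hP hub h1 h2 ha
      · rw [CONTR_comm hP u b] at ha ⊢
        exact CONTR_cons1 hP hub.symm h1 h2 ha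
    · rw [contr_eq h] at ha ⊢
      have h1 : ¬ (u ∈ P x a ∧ b ∈ P x a) := fun h' =>
        h ⟨(hF.split ha).2 (Or.inl h'.1), (hF.split ha).2 (Or.inl h'.2)⟩
      have h2 : ¬ (u ∈ P a y ∧ b ∈ P a y) := fun h' =>
        h ⟨(hF.split ha).2 (Or.inr h'.1), (hF.split ha).2 (Or.inr h'.2)⟩
      rw [contr_eq h1, contr_eq h2]
      exact hP.cons x y a ha

theorem contr_pair {n : ℕ} {P : Sys n} (hP : IsCPS P) {u b : Fin n} (hub : u ≠ b) :
    contr P u b u b = [u, b] := by
  have hF := hP.fam
  rw [CONTR_split hP hub (hF.mem_left (hP.ne_nil u b)) (hF.mem_right (hP.ne_nil u b)), hP.self u,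
    hP.self b]
  rfl

theorem CONTR_dir1 {n : ℕ} {P : Sys n} (hP : IsCPS P) {u b : Fin n} (hub : u ≠ b) {x y : Fin n}
    (hu : u ∈ P x y) (hb : b ∈ P u y) :
    Dir (contr P u b) x y ↔ Dir P x y ∨ s(x, y) = s(u, b) := by
  have hF := hP.fam
  have hb' : b ∈ P x y := (hF.split hu).2 (Or.inr hb)
  constructor
  · rintro ⟨h1, h2⟩
    right
    rw [CONTR_split hP hub hu hb, hF.eq_cons_tail (hP.ne_nil x u),
      hF.eq_cons_tail (hP.ne_nil b y)] at h2
    have h3 : (P x u).tail = [] ∧ (P b y).tail = [] ∧ b = y := by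
      have h4 := congrArg List.length h2
      simp only [List.cons_append, List.length_cons, List.length_append, List.length_nil] at h4
      have h5 : (P x u).tail = [] := List.eq_nil_of_length_eq_zero (by omega)
      have h6 : (P b y).tail = [] := List.eq_nil_of_length_eq_zero (by omega)
      refine ⟨h5, h6, ?_⟩
      rw [h5, h6] at h2
      simpa using h2
    have h4 : x = u := by
      have := hP.last x u
      rw [hF.eq_cons_tail (hP.ne_nil x u), h3.1] at this
      simpa using this
    rw [h4, h3.2.2]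
  · intro h
    have key : s(x, y) = s(u, b) := by
      rcases h with h | h
      · have h1 := h.2
        rw [h1] at hu hb'
        simp only [List.mem_cons, List.not_mem_nil, or_false] at hu hb'
        rw [Sym2.eq_iff]
        rcases hu with rfl | rfl
        · rcases hb' with rfl | rfl
          · exact absurd rfl hub
          · exact Or.inl ⟨rfl, rfl⟩
        · rcases hb' with rfl | rfl
          · exact Or.inr ⟨rfl, rfl⟩
          · exact absurd rfl hub
      · exact h
    rcases Sym2.eq_iff.1 key with ⟨rfl, rfl⟩ | ⟨rfl, rfl⟩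
    · exact ⟨hub, contr_pair hP hub⟩
    · -- `x = b`, `y = u`: then `b ∈ P u u`
      rw [hP.self] at hb
      simp only [List.mem_singleton] at hb
      exact absurd hb.symm hub

theorem contr_dir {n : ℕ} {P : Sys n} (hP : IsCPS P) {u b : Fin n} (hub : u ≠ b) (x y : Fin n) :
    Dir (contr P u b) x y ↔ Dir P x y ∨ s(x, y) = s(u, b) := by
  have hF := hP.fam
  by_cases h : u ∈ P x y ∧ b ∈ P x y
  · rcases CONTR_order hP h with ⟨h1, h2⟩ | ⟨h1, h2⟩
    · exact CONTR_dir1 hP hub h1 h2
    · rw [CONTR_comm hP u b, CONTR_dir1 hP hub.symm h1 h2, Sym2.eq_swap (a := b) (b := u)]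
  · have h1 : s(x, y) ≠ s(u, b) := by
      intro h2
      apply h
      rcases Sym2.eq_iff.1 h2 with ⟨rfl, rfl⟩ | ⟨rfl, rfl⟩
      · exact ⟨hF.mem_left (hP.ne_nil _ _), hF.mem_right (hP.ne_nil _ _)⟩
      · exact ⟨hF.mem_right (hP.ne_nil _ _), hF.mem_left (hP.ne_nil _ _)⟩
    unfold Dir
    rw [contr_eq h]
    tauto

end PSys
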