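import Mathlib
import Pool.Agent.PSys.Spec

/-! Module CRIT (blueprint 0.3): metric criterion. -/

open Finset

namespace PSys

/-- used same-side pairs -/
def CritU {n : ℕ} (B : Finset (Fin n)) (P : Sys n) (x y : Fin n) : Prop :=
  Same B x y ∧ ∃ z, Same B x z ∧ (P x z = [x, y, z] ∨ P z y = [z, x, y])

open Classical in
/-- the weights -/
noncomputable def critW {n : ℕ} (B : Finset (Fin n)) (P : Sys n) (x y : Fin n) : ℝ :=
  if Same B x y then (if CritU B P x y then 1 else 2) else (if Dir P x y then 1 else 3)

theorem crit_same_symm {n : ℕ} {B : Finset (Fin n)} {x y : Fin n} (h : Same B x y) :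
    Same B y x := Iff.symm h

theorem critU_symm {n : ℕ} {B : Finset (Fin n)} {P : Sys n} (hP : IsCPS P) {x y : Fin n}
    (h : CritU B P x y) : CritU B P y x := by
  obtain ⟨h1, z, h2, h3⟩ := h
  refine ⟨h1.symm, z, h1.symm.trans h2, ?_⟩
  rcases h3 with h3 | h3
  · right
    rw [hP.symm x z, h3]; rfl
  · left
    rw [hP.symm z y, h3]; rfl

theorem crit_dir_symm {n : ℕ} {P : Sys n} (hP : IsCPS P) {x y : Fin n}
    (h : Dir P x y) : Dir P y x := hP.fam.dir_symm.2 h

theorem critW_symm {n : ℕ} {P : Sys n} (hP : IsCPS P) (B : Finset (Fin n)) (x y : Fin n) :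
    critW B P x y = critW B P y x := by
  unfold critW
  have h1 : Same B x y ↔ Same B y x := ⟨crit_same_symm, crit_same_symm⟩
  have h2 : CritU B P x y ↔ CritU B P y x := ⟨critU_symm hP, critU_symm hP⟩
  have h3 : Dir P x y ↔ Dir P y x := ⟨crit_dir_symm hP, crit_dir_symm hP⟩
  by_cases a : Same B x y
  · rw [if_pos a, if_pos (h1.1 a)]
    by_cases b : CritU B P x y
    · rw [if_pos b, if_pos (h2.1 b)]
    · rw [if_neg b, if_neg (fun h => b (h2.2 h))]
  · rw [if_neg a, if_neg (fun h => a (h1.2 h))]
    by_cases b : Dir P x y
    · rw [if_pos b, if_pos (h3.1 b)]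
    · rw [if_neg b, if_neg (fun h => b (h3.2 h))]

theorem critW_pos {n : ℕ} (P : Sys n) (B : Finset (Fin n)) (x y : Fin n) :
    1 ≤ critW B P x y := by
  unfold critW
  split_ifs <;> norm_num

/-- the edges of a three-vertex path are direct -/
theorem crit_dirs {n : ℕ} {P : Sys n} (hP : IsCPS P) {x m y : Fin n} (h : P x y = [x, m, y]) :
    Dir P x m ∧ Dir P m y ∧ ¬ Dir P x y := by
  have hn := hP.nodup x y
  rw [h] at hn
  simp only [List.nodup_cons, List.mem_cons, List.not_mem_nil, or_false, not_or,
    not_false_eq_true, List.nodup_nil, and_true] at hn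
  obtain ⟨⟨h1, h2⟩, h3⟩ := hn
  have hm : m ∈ P x y := by rw [h]; simp
  have h4 := hP.fam.hop_spec (hP.ne_nil x y) h2
  have h5 : hop P x y = m := by unfold hop; rw [h]; rfl
  rw [h5] at h4
  refine ⟨h4.1, ?_, ?_⟩
  · refine ⟨h3, ?_⟩
    have h6 := h4.2.2
    rw [h] at h6
    exact (List.cons.inj h6).2.symm
  · intro h7
    have := h7.2
    rw [h] at this
    simp at this

theorem crit_critU_dir {n : ℕ} {B : Finset (Fin n)} {P : Sys n} (hP : IsCPS P) {x y : Fin n}
    (h : CritU B P x y) : Dir P x y := by
  obtain ⟨_, z, _, h3⟩ := h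
  rcases h3 with h3 | h3
  · exact (crit_dirs hP h3).1
  · exact (crit_dirs hP h3).2.1

/-- a vertex of a nondirect opposite pair is on no used pair -/
theorem crit_not_used {n : ℕ} {B : Finset (Fin n)} {P : Sys n} (_ : IsCPS P)
    (h2 : ¬ Viol B P) {z z' y : Fin n} (hz : ¬ Same B z z') (hd : ¬ Dir P z z') :
    ¬ CritU B P z y := by
  rintro ⟨h3, w, h4, h5⟩
  apply h2
  rcases h5 with h5 | h5
  · exact ⟨z, y, w, z, z', h5, h3, h4, hz, hd, Or.inl rfl⟩
  · exact ⟨w, z, y, z, z', h5, h4.symm, h4.symm.trans h3, hz, hd, Or.inr (Or.inl rfl)⟩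

theorem crit_eq {n : ℕ} {P : Sys n} (hP : IsCPS P) (B : Finset (Fin n))
    (h1 : ∀ x y, ¬ Rp B P x y) (h2 : ¬ Viol B P) {x y : Fin n} (hxy : x ≠ y) :
    wt (critW B P) (P x y) = critW B P x y := by
  have hl := hP.fam.two_le (hP.ne_nil x y) hxy
  by_cases hD : Dir P x y
  · rw [hD.2]; simp [wt]
  by_cases hR : 4 ≤ (P x y).length
  · have h3 : Alt3 B P x y := by
      by_contra h; exact h1 x y ⟨hR, h⟩
    obtain ⟨c, a, h4, h5, h6, h7⟩ := h3
    have hs : ¬ Same B x y := by
      unfold Same at *
      tauto
    have hn := hP.nodup x y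
    rw [h4] at hn
    simp only [List.nodup_cons, List.mem_cons, List.not_mem_nil, or_false, not_or,
      not_false_eq_true, List.nodup_nil, and_true] at hn
    obtain ⟨⟨h8, h9, h10⟩, ⟨h11, h12⟩, h13⟩ := hn
    have hF := hP.fam
    have e1 := hF.hop_spec (hP.ne_nil x y) hxy
    have e2 : hop P x y = c := by unfold hop; rw [h4]; rfl
    rw [e2] at e1
    have e3 : P c y = [c, a, y] := by
      have := e1.2.2
      rw [h4] at this
      exact (List.cons.inj this).2.symm
    have e4 := crit_dirs hP e3
    have d1 : Dir P x c := e1.1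
    rw [h4]
    simp only [wt, critW]
    rw [if_neg h5, if_neg h6, if_neg h7, if_neg hs, if_pos d1, if_pos e4.1, if_pos e4.2.1,
      if_neg hD]
    norm_num
  · have h3 : (P x y).length ≠ 2 := fun h => hD ((hP.fam.dir_iff_length (hP.ne_nil x y) hxy).2 h)
    have h4 : (P x y).length = 3 := by omega
    have h5 := hP.fam.hop_spec (hP.ne_nil x y) hxy
    set m := hop P x y with hm
    have hmy : m ≠ y := by
      intro h
      apply hD
      have := h5.1
      rwa [h] at this
    have h6 : (P m y).length = 2 := by
      have := congrArg List.length h5.2.2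
      simp only [List.length_cons] at this
      omega
    have h7 : Dir P m y := (hP.fam.dir_iff_length (hP.ne_nil m y) hmy).2 h6
    have h8 : P x y = [x, m, y] := by
      rw [h5.2.2, h7.2]
    have h9 : Dir P x m := h5.1
    rw [h8]
    simp only [wt]
    by_cases hs : Same B x y
    · have hw : critW B P x y = 2 := by
        unfold critW
        rw [if_pos hs, if_neg (fun h => hD (crit_critU_dir hP h))]
      rw [hw]
      by_cases hsm : Same B x m
      · have u1 : CritU B P x m := ⟨hsm, y, hs, Or.inl h8⟩
        have u2 : CritU B P m y := ⟨hsm.symm.trans hs, x, hsm.symm, Or.inr h8⟩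
        unfold critW
        rw [if_pos hsm, if_pos u1, if_pos u2.1, if_pos u2]
        norm_num
      · have hsm2 : ¬ Same B m y := fun h => hsm (hs.trans h.symm)
        unfold critW
        rw [if_neg hsm, if_neg hsm2, if_pos h9, if_pos h7]
        norm_num
    · have hw : critW B P x y = 3 := by
        unfold critW
        rw [if_neg hs, if_neg hD]
      rw [hw]
      by_cases hsm : Same B x m
      · have hsm2 : ¬ Same B m y := fun h => hs (hsm.trans h)
        unfold critW
        rw [if_pos hsm, if_neg (crit_not_used hP h2 hs hD), if_neg hsm2, if_pos h7]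
        norm_num
      · have hsm2 : Same B m y := by
          unfold Same at *
          tauto
        have hyx : ¬ Same B y x := fun h => hs h.symm
        have hdyx : ¬ Dir P y x := fun h => hD (crit_dir_symm hP h)
        have hnu : ¬ CritU B P m y := fun h => crit_not_used hP h2 hyx hdyx (critU_symm hP h)
        unfold critW
        rw [if_neg hsm, if_pos h9, if_pos hsm2, if_neg hnu]
        norm_num

theorem crit_tri {n : ℕ} {P : Sys n} (hP : IsCPS P) (B : Finset (Fin n))
    (h2 : ¬ Viol B P) (x y z : Fin n) :
    critW B P x z ≤ critW B P x y + critW B P y z := by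
  have p1 := critW_pos P B x y
  have p2 := critW_pos P B y z
  by_cases hs : Same B x z
  · have : critW B P x z ≤ 2 := by
      unfold critW
      rw [if_pos hs]
      split_ifs <;> norm_num
    linarith
  · by_cases hD : Dir P x z
    · have : critW B P x z = 1 := by
        unfold critW
        rw [if_neg hs, if_pos hD]
      linarith
    · have h3 : critW B P x z = 3 := by
        unfold critW
        rw [if_neg hs, if_neg hD]
      by_cases hxy : Same B x y
      · have : critW B P x y = 2 := by
          unfold critW
          rw [if_pos hxy, if_neg (crit_not_used hP h2 hs hD)]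
        linarith
      · have hyz : Same B y z := by
          unfold Same at *
          tauto
        have hzx : ¬ Same B z x := fun h => hs h.symm
        have hdzx : ¬ Dir P z x := fun h => hD (crit_dir_symm hP h)
        have hnu : ¬ CritU B P y z := fun h => crit_not_used hP h2 hzx hdzx (critU_symm hP h)
        have : critW B P y z = 2 := by
          unfold critW
          rw [if_pos hyz, if_neg hnu]
        linarith

theorem crit_list {n : ℕ} {P : Sys n} (hP : IsCPS P) (B : Finset (Fin n))
    (h2 : ¬ Viol B P) : ∀ (L : List (Fin n)) (u v : Fin n), u ≠ v → L.Nodup → L.head? = some u →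
      L.getLast? = some v → critW B P u v ≤ wt (critW B P) L
  | [], u, v, _, _, h, _ => by simp at h
  | [a], u, v, huv, _, h, h' => by
      simp only [List.head?_cons, Option.some.injEq] at h
      simp only [List.getLast?_singleton, Option.some.injEq] at h'
      exact absurd (h.symm.trans h') huv
  | a :: b :: l, u, v, huv, hn, h, h' => by
      simp only [List.head?_cons, Option.some.injEq] at h
      subst h
      have h'' : (b :: l).getLast? = some v := by
        rw [List.getLast?_cons_cons] at h'
        exact h'
      simp only [wt]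
      by_cases hbv : b = v
      · subst hbv
        have : l = [] := by
          cases l with
          | nil => rfl
          | cons c t =>
            exfalso
            rw [List.getLast?_cons_cons] at h''
            have h3 : b ∈ c :: t := List.mem_of_getLast? h''
            have h4 := (List.nodup_cons.1 (List.nodup_cons.1 hn).2).1
            exact h4 h3
        subst this
        simp [wt]
      · have ih := crit_list hP B h2 (b :: l) b v hbv (List.nodup_cons.1 hn).2 rfl h''
        have := crit_tri hP B h2 a b v
        linarith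

/-- Blueprint 0.3. Weights: same-side edges `x m`, `m y` with `P x y = [x,m,y]`, all on one side: 1;
other same-side pairs: 2; direct pairs of different sides: 1; nondirect pairs of different sides: 3. -/
theorem crit {n : ℕ} {P : Sys n} (hP : IsCPS P) (B : Finset (Fin n))
    (h1 : ∀ x y, ¬ Rp B P x y) (h2 : ¬ Viol B P) : IsMetric P := by
  refine ⟨critW B P, critW_symm hP B, fun a b _ => lt_of_lt_of_le one_pos (critW_pos P B a b), ?_⟩
  intro u v huv L hn hh hl
  rw [crit_eq hP B h1 h2 huv]
  exact crit_list hP B h2 L u v huv hn hh hl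

end PSys
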