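import Mathlib
import Pool.Agent.PSys.Spec

/-! Module DET (blueprint 2.3): the data determine the system. -/

open Finset

namespace PSys

theorem DET_mid {n : ℕ} {P P' : Sys n} (hP : IsCPS P) (hP' : IsCPS P') {k : ℕ}
    (ih : ∀ x y, (P x y).length ≤ k → P x y = P' x y) {x y a : Fin n}
    (hl : (P x y).length ≤ k + 1) (h : a ∈ P x y) (h' : a ∈ P' x y) (hxa : x ≠ a) (hay : a ≠ y) :
    P x y = P' x y := by
  have h1 := hP.fam.length_lt_left h hay
  have h2 := hP.fam.length_lt_right h hxa
  exact ext_of_mem hP.fam hP'.fam h h' (ih x a (by omega)) (ih a y (by omega))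

theorem DET_AB {n : ℕ} {P P' : Sys n} (hP : IsCPS P) (hP' : IsCPS P') (B : Finset (Fin n))
    {lam mu : Lb n} {l : Ty n} (h : HasDat B P lam mu l) (h' : HasDat B P' lam mu l) {k : ℕ}
    (ih : ∀ x y, (P x y).length ≤ k → P x y = P' x y) {x y : Fin n}
    (hl : (P x y).length ≤ k + 1) (hx : x ∉ B) (hy : y ∈ B) : P x y = P' x y := by
  rcases hc : l x y with _ | ⟨t, c⟩
  · have h1 := (h.l_none x y).1 hc
    have h2 := (h'.l_none x y).1 hc
    have h3 : Dir P x y := by
      by_contra hd
      exact h1 ⟨hx, hy, hd⟩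
    have h4 : Dir P' x y := by
      by_contra hd
      exact h2 ⟨hx, hy, hd⟩
    rw [h3.2, h4.2]
  · have hcases : ∀ t : Fin 3, t = 0 ∨ t = 1 ∨ t = 2 := by decide
    rcases hcases t with ht | ht | ht
    · subst ht
      obtain ⟨h1, h2, h3⟩ := h.ty1 x y c hc
      obtain ⟨_, _, h4⟩ := h'.ty1 x y c hc
      refine DET_mid hP hP' ih hl h3 h4 h2.1 ?_
      rintro rfl
      exact h1 hy
    · subst ht
      obtain ⟨h1, h2, h3⟩ := h.ty2 x y c hc
      obtain ⟨_, _, h4⟩ := h'.ty2 x y c hc
      refine DET_mid hP hP' ih hl h3 h4 ?_ h2.1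
      rintro rfl
      exact hx h1
    · subst ht
      obtain ⟨h1, h2, h3, _⟩ := h.ty3 x y c hc
      obtain ⟨_, _, h4, _⟩ := h'.ty3 x y c hc
      refine DET_mid hP hP' ih hl h3 h4 ?_ h2
      rintro rfl
      exact hx h1

theorem DET_restr {n : ℕ} {P P' : Sys n} {U : Finset (Fin n)} (hU : restr U P = restr U P')
    {x y : Fin n} (h : ∀ z ∈ P x y, z ∈ U) (h' : ∀ z ∈ P' x y, z ∈ U) : P x y = P' x y := by
  have h1 := congrFun (congrFun hU x) y
  unfold restr at h1
  rwa [if_pos h, if_pos h'] at h1

theorem DET_all {n : ℕ} {P P' : Sys n} (hP : IsCPS P) (hP' : IsCPS P') (B : Finset (Fin n))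
    {lam mu : Lb n} {l : Ty n} (h : HasDat B P lam mu l) (h' : HasDat B P' lam mu l)
    (hA : restr Bᶜ P = restr Bᶜ P') (hB : restr B P = restr B P') (k : ℕ) :
    ∀ x y, (P x y).length ≤ k → P x y = P' x y := by
  induction k with
  | zero =>
    intro x y hl
    exact absurd (List.length_eq_zero_iff.1 (Nat.le_zero.1 hl)) (hP.ne_nil x y)
  | succ k ih =>
    intro x y hl
    by_cases hxy : x = y
    · subst hxy
      rw [hP.self, hP'.self]
    by_cases hx : x ∈ B
    · by_cases hy : y ∈ B
      · rcases hc : mu s(x, y) with _ | a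
        · have h1 := (h.mu_none _).1 hc
          have h2 := (h'.mu_none _).1 hc
          refine DET_restr hB ?_ ?_
          · by_contra hd
            exact h1 ⟨x, y, rfl, hxy, hx, hy, hd⟩
          · by_contra hd
            exact h2 ⟨x, y, rfl, hxy, hx, hy, hd⟩
        · obtain ⟨h1, h2⟩ := h.mu_mem x y a hc
          obtain ⟨_, h3⟩ := h'.mu_mem x y a hc
          refine DET_mid hP hP' ih hl h2 h3 ?_ ?_
          · rintro rfl
            exact h1 hx
          · rintro rfl
            exact h1 hy
      · have h1 : P y x = P' y x := by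
          refine DET_AB hP hP' B h h' ih ?_ hy hx
          rw [hP.symm x y, List.length_reverse]
          exact hl
        rw [hP.symm y x, hP'.symm y x, h1]
    · by_cases hy : y ∈ B
      · exact DET_AB hP hP' B h h' ih hl hx hy
      · rcases hc : lam s(x, y) with _ | b
        · have h1 := (h.lam_none _).1 hc
          have h2 := (h'.lam_none _).1 hc
          refine DET_restr hA ?_ ?_
          · by_contra hd
            refine h1 ⟨x, y, rfl, hxy, hx, hy, fun h3 => hd fun z hz => ?_⟩
            exact Finset.mem_compl.2 (h3 z hz)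
          · by_contra hd
            refine h2 ⟨x, y, rfl, hxy, hx, hy, fun h3 => hd fun z hz => ?_⟩
            exact Finset.mem_compl.2 (h3 z hz)
        · obtain ⟨h1, h2⟩ := h.lam_mem x y b hc
          obtain ⟨_, h3⟩ := h'.lam_mem x y b hc
          refine DET_mid hP hP' ih hl h2 h3 ?_ ?_
          · rintro rfl
            exact hx h1
          · rintro rfl
            exact hy h1

theorem det {n : ℕ} {P P' : Sys n} (hP : IsCPS P) (hP' : IsCPS P') (B : Finset (Fin n))
    {lam mu : Lb n} {l : Ty n} (h : HasDat B P lam mu l) (h' : HasDat B P' lam mu l)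
    (hA : restr Bᶜ P = restr Bᶜ P') (hB : restr B P = restr B P') : P = P' := by
  funext x y
  exact DET_all hP hP' B h h' hA hB (P x y).length x y le_rfl

end PSys
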