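import Mathlib
import Pool.Agent.PSys.Spec

/-! Module GS (blueprint 3.6): graph sum lemma. -/

open Finset Filter

namespace PSys

/-! ### double counting -/

open Classical in
/-- number of ends in `S` -/
noncomputable def GS_a {n : ℕ} (S : Finset (Fin n)) (e : Sym2 (Fin n)) : ℕ :=
  (S.filter (fun x => x ∈ e)).card

section dc

variable {n : ℕ} {U : Finset (Fin n)} {G : Finset (Sym2 (Fin n))}

theorem GS_dgr (hG : G ⊆ prs U) (x : Fin n) :
    dgr G x = (G.filter (fun e => x ∈ e)).card := by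
  classical
  unfold dgr
  refine card_bij (fun y _ => s(x, y)) ?_ ?_ ?_
  · intro y hy
    exact mem_filter.2 ⟨(mem_filter.1 hy).2, Sym2.mem_mk_left _ _⟩
  · intro y _ z _ h
    exact Sym2.congr_right.1 h
  · intro e he
    obtain ⟨h1, h2⟩ := mem_filter.1 he
    obtain ⟨y, rfl⟩ := Sym2.mem_iff_exists.1 h2
    exact ⟨y, mem_filter.2 ⟨mem_univ _, h1⟩, rfl⟩

theorem GS_sum_dgr (hG : G ⊆ prs U) (S : Finset (Fin n)) :
    ∑ x ∈ S, dgr G x = ∑ e ∈ G, GS_a S e := by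
  classical
  unfold GS_a
  simp only [GS_dgr hG, card_filter]
  exact sum_comm

theorem GS_a_pair (S : Finset (Fin n)) {u v : Fin n} (huv : u ≠ v) :
    GS_a S s(u, v) = (if u ∈ S then 1 else 0) + (if v ∈ S then 1 else 0) := by
  classical
  unfold GS_a
  have h1 : S.filter (fun x => x ∈ s(u, v)) = ({u, v} : Finset (Fin n)).filter (· ∈ S) := by
    ext x
    simp only [mem_filter, Sym2.mem_iff, mem_insert, mem_singleton]
    tauto
  rw [h1, filter_insert, filter_singleton]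
  split_ifs with h2 h3 h3
  · rw [card_insert_of_notMem (by simpa using huv), card_singleton]
  · simp
  · simp
  · simp

/-- number of pairs of `prs M` -/
theorem GS_i2 (M : Finset (Fin n)) (E : Finset (Sym2 (Fin n))) :
    ((E.filter (fun e => e ∈ prs M)).card : ℝ) ≤ (M.card : ℝ) ^ 2 / 2 := by
  classical
  have h1 : (E.filter (fun e => e ∈ prs M)).card ≤ (prs M).card :=
    card_le_card (fun e he => (mem_filter.1 he).2)
  rw [card_prs] at h1
  have h2 : ((M.card.choose 2 : ℕ) : ℝ) = (M.card : ℝ) * (M.card - 1) / 2 :=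
    Nat.cast_choose_two ℝ _
  have h3 : ((E.filter (fun e => e ∈ prs M)).card : ℝ) ≤ ((M.card.choose 2 : ℕ) : ℝ) := by
    exact_mod_cast h1
  have h4 : (0 : ℝ) ≤ M.card := Nat.cast_nonneg _
  nlinarith

end dc

/-! ### numerical facts -/

theorem GS_num : ∀ᶠ n : ℕ in atTop, 2048000000 ≤ Real.log n ∧
    3 * Real.exp 1 * Real.log n ≤ (n : ℝ) ^ ((1 : ℝ) / 8000) ∧
    (n : ℝ) ^ ((5 : ℝ) / 8000) + 2 * Real.log n ≤
      1 / 8000 * Real.log n * (n : ℝ) ^ ((1 : ℝ) / 1000) ∧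
    2 * n + 2 * Real.log n ≤ 1 / 512000000 * Real.log n * n ∧
    (1 + ((n : ℝ) ^ 2)⁻¹) ^ (2 * n) ≤ 2 := by
  have h1 : ∀ᶠ n : ℕ in atTop, (2048000000 : ℝ) ≤ Real.log n :=
    (Real.tendsto_log_atTop.comp tendsto_natCast_atTop_atTop).eventually_ge_atTop _
  have h2 : ∀ᶠ n : ℕ in atTop,
      3 * Real.exp 1 * Real.log n ≤ (n : ℝ) ^ ((1 : ℝ) / 8000) := by
    have h3 := (isLittleO_log_rpow_atTop (r := (1 : ℝ) / 8000) (by norm_num)).bound
      (c := 1 / (3 * Real.exp 1)) (by positivity)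
    have h4 := tendsto_natCast_atTop_atTop (R := ℝ) |>.eventually h3
    filter_upwards [h4] with n hn
    have h5 : (0 : ℝ) ≤ (n : ℝ) ^ ((1 : ℝ) / 8000) := by positivity
    rw [Real.norm_of_nonneg h5] at hn
    have h6 : Real.log n ≤ 1 / (3 * Real.exp 1) * (n : ℝ) ^ ((1 : ℝ) / 8000) :=
      (le_abs_self _).trans hn
    have h7 : 0 < 3 * Real.exp 1 := by positivity
    calc 3 * Real.exp 1 * Real.log n ≤
        3 * Real.exp 1 * (1 / (3 * Real.exp 1) * (n : ℝ) ^ ((1 : ℝ) / 8000)) :=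
          mul_le_mul_of_nonneg_left h6 h7.le
      _ = (n : ℝ) ^ ((1 : ℝ) / 8000) := by field_simp
  filter_upwards [h1, h2, eventually_ge_atTop 4] with n h1 h2 h3
  have hn4 : (4 : ℝ) ≤ n := by exact_mod_cast h3
  have hn1 : (1 : ℝ) ≤ n := by linarith
  refine ⟨h1, h2, ?_, ?_, ?_⟩
  · have e1 : (n : ℝ) ^ ((5 : ℝ) / 8000) ≤ (n : ℝ) ^ ((1 : ℝ) / 1000) :=
      Real.rpow_le_rpow_of_exponent_le hn1 (by norm_num)
    have e2 : (n : ℝ) ^ ((1 : ℝ) / 8000) ≤ (n : ℝ) ^ ((1 : ℝ) / 1000) :=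
      Real.rpow_le_rpow_of_exponent_le hn1 (by norm_num)
    have e3 : (1 : ℝ) ≤ Real.exp 1 := Real.one_le_exp (by norm_num)
    have e4 : 2 * Real.log n ≤ 3 * Real.exp 1 * Real.log n := by nlinarith
    have e5 : (0 : ℝ) ≤ (n : ℝ) ^ ((1 : ℝ) / 1000) := by positivity
    nlinarith
  · have e1 : Real.log n ≤ n := (Real.log_le_sub_one_of_pos (by linarith)).trans (by linarith)
    nlinarith
  · have e1 : 1 + ((n : ℝ) ^ 2)⁻¹ ≤ Real.exp (((n : ℝ) ^ 2)⁻¹) := by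
      rw [add_comm]
      exact Real.add_one_le_exp _
    calc (1 + ((n : ℝ) ^ 2)⁻¹) ^ (2 * n) ≤ (Real.exp (((n : ℝ) ^ 2)⁻¹)) ^ (2 * n) :=
          pow_le_pow_left₀ (by positivity) e1 _
      _ = Real.exp (2 / n) := by
          rw [← Real.exp_nat_mul]
          congr 1
          push_cast
          field_simp
      _ ≤ Real.exp (1 / 2) := by
          apply Real.exp_le_exp.2
          rw [div_le_div_iff₀ (by linarith) (by norm_num)]
          linarith
      _ ≤ 2 := by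
          have e2 : Real.exp (1 / 2) * Real.exp (1 / 2) = Real.exp 1 := by
            rw [← Real.exp_add]
            norm_num
          have e3 := Real.exp_one_lt_d9
          have e4 := Real.exp_pos (1 / 2 : ℝ)
          nlinarith

/-- the bound for one pair -/
theorem GS_edge_num (L ρ c : ℝ) (hL : 0 ≤ L) (hρ0 : 0 ≤ ρ)
    (hρ : ρ ≤ Real.exp (L / 8000 - 1 - L)) (hc0 : 0 ≤ c) (hc1 : c ≤ 1) (aY aM a0 : ℕ)
    (h : aY + aM + a0 = 2) (i2 : ℝ) (h2 : aM = 2 → i2 = 1) (h2' : aM ≠ 2 → i2 = 0) :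
    1 + ρ * Real.exp (L / 4000 * aY + (1 - 1 / 2000) * L * aM + c * a0 +
      L / 16000 * (aM - 2 * i2)) ≤
    (1 + ρ * Real.exp (2 * c)) *
      Real.exp (Real.exp (5 / 8000 * L - L) * aY + aM + 2 * L * i2) := by
  have hA : 1 ≤ 1 + ρ * Real.exp (2 * c) := by
    have := mul_nonneg hρ0 (Real.exp_pos (2 * c)).le
    linarith
  have hmain : ∀ E F : ℝ, 1 + ρ * Real.exp E ≤ Real.exp F →
      1 + ρ * Real.exp E ≤ (1 + ρ * Real.exp (2 * c)) * Real.exp F := by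
    intro E F h3
    have h4 : 0 < Real.exp F := Real.exp_pos F
    nlinarith
  have hw : ∀ E : ℝ, ρ * Real.exp E ≤ Real.exp (L / 8000 - 1 - L + E) := by
    intro E
    rw [Real.exp_add]
    exact mul_le_mul_of_nonneg_right hρ (Real.exp_pos E).le
  have hq : 0 < Real.exp (5 / 8000 * L - L) := Real.exp_pos _
  have h1q : 1 + Real.exp (5 / 8000 * L - L) ≤ Real.exp (Real.exp (5 / 8000 * L - L)) := by
    rw [add_comm]
    exact Real.add_one_le_exp _
  have he1 : (2 : ℝ) ≤ Real.exp 1 := by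
    have := Real.add_one_le_exp (1 : ℝ)
    linarith
  have hcases : (aM = 0 ∧ aY = 0 ∧ a0 = 2) ∨ (aM = 0 ∧ aY = 1 ∧ a0 = 1) ∨
      (aM = 0 ∧ aY = 2 ∧ a0 = 0) ∨ (aM = 1 ∧ aY = 0 ∧ a0 = 1) ∨ (aM = 1 ∧ aY = 1 ∧ a0 = 0) ∨
      (aM = 2 ∧ aY = 0 ∧ a0 = 0) := by omega
  rcases hcases with ⟨rfl, rfl, rfl⟩ | ⟨rfl, rfl, rfl⟩ | ⟨rfl, rfl, rfl⟩ | ⟨rfl, rfl, rfl⟩ |
    ⟨rfl, rfl, rfl⟩ | ⟨rfl, rfl, rfl⟩
  · rw [h2' (by norm_num)]
    have e1 : L / 4000 * ((0 : ℕ) : ℝ) + (1 - 1 / 2000) * L * ((0 : ℕ) : ℝ) +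
        c * ((2 : ℕ) : ℝ) + L / 16000 * (((0 : ℕ) : ℝ) - 2 * 0) = 2 * c := by
      push_cast
      ring
    have e2 : Real.exp (5 / 8000 * L - L) * ((0 : ℕ) : ℝ) + ((0 : ℕ) : ℝ) + 2 * L * 0 = 0 := by
      push_cast
      ring
    rw [e1, e2, Real.exp_zero, mul_one]
  · rw [h2' (by norm_num)]
    apply hmain
    have e1 : ρ * Real.exp (L / 4000 * ((1 : ℕ) : ℝ) + (1 - 1 / 2000) * L * ((0 : ℕ) : ℝ) +
        c * ((1 : ℕ) : ℝ) + L / 16000 * (((0 : ℕ) : ℝ) - 2 * 0)) ≤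
        Real.exp (5 / 8000 * L - L) := by
      refine (hw _).trans (Real.exp_le_exp.2 ?_)
      push_cast
      linarith
    have e2 : Real.exp (5 / 8000 * L - L) * ((1 : ℕ) : ℝ) + ((0 : ℕ) : ℝ) + 2 * L * 0 =
        Real.exp (5 / 8000 * L - L) := by
      push_cast
      ring
    rw [e2]
    linarith
  · rw [h2' (by norm_num)]
    apply hmain
    have e1 : ρ * Real.exp (L / 4000 * ((2 : ℕ) : ℝ) + (1 - 1 / 2000) * L * ((0 : ℕ) : ℝ) +
        c * ((0 : ℕ) : ℝ) + L / 16000 * (((0 : ℕ) : ℝ) - 2 * 0)) ≤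
        Real.exp (5 / 8000 * L - L) := by
      refine (hw _).trans (Real.exp_le_exp.2 ?_)
      push_cast
      linarith
    have e2 : Real.exp (Real.exp (5 / 8000 * L - L)) ≤
        Real.exp (Real.exp (5 / 8000 * L - L) * ((2 : ℕ) : ℝ) + ((0 : ℕ) : ℝ) + 2 * L * 0) := by
      apply Real.exp_le_exp.2
      push_cast
      linarith
    linarith
  · rw [h2' (by norm_num)]
    apply hmain
    have e1 : ρ * Real.exp (L / 4000 * ((0 : ℕ) : ℝ) + (1 - 1 / 2000) * L * ((1 : ℕ) : ℝ) +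
        c * ((1 : ℕ) : ℝ) + L / 16000 * (((1 : ℕ) : ℝ) - 2 * 0)) ≤ Real.exp 0 := by
      refine (hw _).trans (Real.exp_le_exp.2 ?_)
      push_cast
      linarith
    have e2 : Real.exp 1 ≤
        Real.exp (Real.exp (5 / 8000 * L - L) * ((0 : ℕ) : ℝ) + ((1 : ℕ) : ℝ) + 2 * L * 0) := by
      apply Real.exp_le_exp.2
      push_cast
      linarith
    rw [Real.exp_zero] at e1
    linarith
  · rw [h2' (by norm_num)]
    apply hmain
    have e1 : ρ * Real.exp (L / 4000 * ((1 : ℕ) : ℝ) + (1 - 1 / 2000) * L * ((1 : ℕ) : ℝ) +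
        c * ((0 : ℕ) : ℝ) + L / 16000 * (((1 : ℕ) : ℝ) - 2 * 0)) ≤ Real.exp 0 := by
      refine (hw _).trans (Real.exp_le_exp.2 ?_)
      push_cast
      linarith
    have e2 : Real.exp 1 ≤
        Real.exp (Real.exp (5 / 8000 * L - L) * ((1 : ℕ) : ℝ) + ((1 : ℕ) : ℝ) + 2 * L * 0) := by
      apply Real.exp_le_exp.2
      push_cast
      linarith
    rw [Real.exp_zero] at e1
    linarith
  · rw [h2 rfl]
    apply hmain
    have e1 : ρ * Real.exp (L / 4000 * ((0 : ℕ) : ℝ) + (1 - 1 / 2000) * L * ((2 : ℕ) : ℝ) +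
        c * ((0 : ℕ) : ℝ) + L / 16000 * (((2 : ℕ) : ℝ) - 2 * 1)) ≤ Real.exp L := by
      refine (hw _).trans (Real.exp_le_exp.2 ?_)
      push_cast
      linarith
    have e2 : Real.exp (1 + L) ≤
        Real.exp (Real.exp (5 / 8000 * L - L) * ((0 : ℕ) : ℝ) + ((2 : ℕ) : ℝ) + 2 * L * 1) := by
      apply Real.exp_le_exp.2
      push_cast
      linarith
    have e3 : 1 ≤ Real.exp L := Real.one_le_exp hL
    rw [Real.exp_add] at e2
    nlinarith

section fix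

variable {n : ℕ} {U : Finset (Fin n)}

open Classical in
/-- `1` for the pairs inside `M` -/
noncomputable def GS_i (M : Finset (Fin n)) (e : Sym2 (Fin n)) : ℝ := if e ∈ prs M then 1 else 0

/-- exponent of the weight of a pair -/
noncomputable def GS_E (L c : ℝ) (Y M : Finset (Fin n)) (e : Sym2 (Fin n)) : ℝ :=
  L / 4000 * GS_a Y e + (1 - 1 / 2000) * L * GS_a M e + c * GS_a (Y ∪ M)ᶜ e +
    L / 16000 * (GS_a M e - 2 * GS_i M e)

theorem GS_edge (L ρ c : ℝ) (hL : 0 ≤ L) (hρ0 : 0 ≤ ρ)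
    (hρ : ρ ≤ Real.exp (L / 8000 - 1 - L)) (hc0 : 0 ≤ c) (hc1 : c ≤ 1) (Y M : Finset (Fin n))
    (hd : Disjoint Y M) (e : Sym2 (Fin n)) (he : e ∈ prs U) :
    1 + ρ * Real.exp (GS_E L c Y M e) ≤ (1 + ρ * Real.exp (2 * c)) *
      Real.exp (Real.exp (5 / 8000 * L - L) * GS_a Y e + GS_a M e + 2 * L * GS_i M e) := by
  classical
  induction e with
  | _ u v =>
    rw [mem_prs] at he
    obtain ⟨huv, _, _⟩ := he
    have hY := GS_a_pair Y huv
    have hM := GS_a_pair M huv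
    have h0 := GS_a_pair (Y ∪ M)ᶜ huv
    have hu : u ∈ Y → u ∉ M := fun h1 h2 => (disjoint_left.1 hd) h1 h2
    have hv : v ∈ Y → v ∉ M := fun h1 h2 => (disjoint_left.1 hd) h1 h2
    refine GS_edge_num L ρ c hL hρ0 hρ hc0 hc1 _ _ _ ?_ _ ?_ ?_
    · rw [hY, hM, h0]
      simp only [mem_compl, mem_union]
      by_cases h1 : u ∈ Y <;> by_cases h2 : u ∈ M <;> by_cases h3 : v ∈ Y <;>
        by_cases h4 : v ∈ M <;> simp_all
    · intro h1
      rw [hM] at h1
      unfold GS_i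
      rw [if_pos]
      rw [mem_prs]
      by_cases h2 : u ∈ M <;> by_cases h4 : v ∈ M <;> simp_all
    · intro h1
      rw [hM] at h1
      unfold GS_i
      rw [if_neg]
      rw [mem_prs]
      rintro ⟨_, h2, h3⟩
      simp [h2, h3] at h1

/-- lower bound for the exponent -/
theorem GS_low (L c T1 T2 : ℝ) (hL : 0 ≤ L) (f : ℕ → ℝ) (Y M : Finset (Fin n))
    (hd : Disjoint Y M) (G : Finset (Sym2 (Fin n))) (hG : G ⊆ prs U)
    (hY : ∀ x ∈ Y, T1 ≤ dgr G x ∧ f (dgr G x) ≤ 1 / 8000 * dgr G x * L)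
    (hM : ∀ x ∈ M, T2 ≤ dgr G x ∧ f (dgr G x) ≤ (1 - 1 / 2000) * dgr G x * L)
    (h0 : ∀ x, x ∉ Y → x ∉ M → f (dgr G x) ≤ c * dgr G x) :
    ∑ x, f (dgr G x) + L / 8000 * (Y.card * T1) +
      L / 16000 * (M.card * T2 - (M.card : ℝ) ^ 2) ≤ ∑ e ∈ G, GS_E L c Y M e := by
  classical
  have hsum : ∀ S : Finset (Fin n),
      ∑ e ∈ G, (GS_a S e : ℝ) = ∑ x ∈ S, (dgr G x : ℝ) := by
    intro S
    have h1 := GS_sum_dgr hG S
    exact_mod_cast h1.symm
  have hi : ∑ e ∈ G, GS_i M e ≤ (M.card : ℝ) ^ 2 / 2 := by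
    have h1 := GS_i2 M G
    have h2 : ∑ e ∈ G, GS_i M e = ((G.filter (fun e => e ∈ prs M)).card : ℝ) := by
      unfold GS_i
      rw [card_filter]
      push_cast
      rfl
    rw [h2]
    exact h1
  have e1 : ∑ e ∈ G, GS_E L c Y M e = L / 4000 * ∑ x ∈ Y, (dgr G x : ℝ) +
      (1 - 1 / 2000) * L * ∑ x ∈ M, (dgr G x : ℝ) + c * ∑ x ∈ (Y ∪ M)ᶜ, (dgr G x : ℝ) +
      L / 16000 * (∑ x ∈ M, (dgr G x : ℝ) - 2 * ∑ e ∈ G, GS_i M e) := by
    rw [← hsum Y, ← hsum M, ← hsum (Y ∪ M)ᶜ]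
    unfold GS_E
    rw [sum_add_distrib, sum_add_distrib, sum_add_distrib, ← mul_sum, ← mul_sum, ← mul_sum,
      ← mul_sum, sum_sub_distrib, ← mul_sum]
  have e2 : ∑ x, f (dgr G x) = ∑ x ∈ Y, f (dgr G x) + ∑ x ∈ M, f (dgr G x) +
      ∑ x ∈ (Y ∪ M)ᶜ, f (dgr G x) := by
    rw [← sum_union hd, sum_add_sum_compl]
  have e3 : ∑ x ∈ Y, f (dgr G x) ≤ L / 8000 * ∑ x ∈ Y, (dgr G x : ℝ) := by
    rw [mul_sum]
    refine sum_le_sum fun x hx => ?_
    have := (hY x hx).2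
    linarith
  have e4 : ∑ x ∈ M, f (dgr G x) ≤ (1 - 1 / 2000) * L * ∑ x ∈ M, (dgr G x : ℝ) := by
    rw [mul_sum]
    refine sum_le_sum fun x hx => ?_
    have := (hM x hx).2
    linarith
  have e5 : ∑ x ∈ (Y ∪ M)ᶜ, f (dgr G x) ≤ c * ∑ x ∈ (Y ∪ M)ᶜ, (dgr G x : ℝ) := by
    rw [mul_sum]
    refine sum_le_sum fun x hx => ?_
    rw [mem_compl, mem_union, not_or] at hx
    exact h0 x hx.1 hx.2
  have e6 : (Y.card : ℝ) * T1 ≤ ∑ x ∈ Y, (dgr G x : ℝ) := by
    rw [← nsmul_eq_mul]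
    exact card_nsmul_le_sum _ _ _ (fun x hx => (hY x hx).1)
  have e7 : (M.card : ℝ) * T2 ≤ ∑ x ∈ M, (dgr G x : ℝ) := by
    rw [← nsmul_eq_mul]
    exact card_nsmul_le_sum _ _ _ (fun x hx => (hM x hx).1)
  rw [e1, e2]
  have e8 : L / 8000 * ((Y.card : ℝ) * T1) ≤ L / 8000 * ∑ x ∈ Y, (dgr G x : ℝ) :=
    mul_le_mul_of_nonneg_left e6 (by positivity)
  have e9 : L / 16000 * (M.card * T2 - (M.card : ℝ) ^ 2) ≤
      L / 16000 * (∑ x ∈ M, (dgr G x : ℝ) - 2 * ∑ e ∈ G, GS_i M e) :=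
    mul_le_mul_of_nonneg_left (by linarith) (by positivity)
  have e10 : L / 4000 * ∑ x ∈ Y, (dgr G x : ℝ) =
      L / 8000 * ∑ x ∈ Y, (dgr G x : ℝ) + L / 8000 * ∑ x ∈ Y, (dgr G x : ℝ) := by ring
  rw [e10]
  linarith

/-- the sum over the graphs with given `Y`, `M` -/
theorem GS_fix (L ρ c T1 T2 : ℝ) (hL : 0 ≤ L) (hρ0 : 0 ≤ ρ)
    (hρ : ρ ≤ Real.exp (L / 8000 - 1 - L)) (hc0 : 0 ≤ c) (hc1 : c ≤ 1) (f : ℕ → ℝ)
    (Y M : Finset (Fin n)) (hd : Disjoint Y M) (SS : Finset (Finset (Sym2 (Fin n))))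
    (hS : ∀ G ∈ SS, G ⊆ prs U ∧
      (∀ x ∈ Y, T1 ≤ dgr G x ∧ f (dgr G x) ≤ 1 / 8000 * dgr G x * L) ∧
      (∀ x ∈ M, T2 ≤ dgr G x ∧ f (dgr G x) ≤ (1 - 1 / 2000) * dgr G x * L) ∧
      (∀ x, x ∉ Y → x ∉ M → f (dgr G x) ≤ c * dgr G x)) :
    ∑ G ∈ SS, ρ ^ G.card * Real.exp (∑ x, f (dgr G x)) ≤
      Real.exp (-(L / 8000 * (Y.card * T1)) - L / 16000 * (M.card * T2 - (M.card : ℝ) ^ 2)) *
      ((1 + ρ * Real.exp (2 * c)) ^ (U.card.choose 2) *
        Real.exp (Real.exp (5 / 8000 * L - L) * (Y.card * n) + M.card * n +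
          L * (M.card : ℝ) ^ 2)) := by
  classical
  set A : ℝ := -(L / 8000 * (Y.card * T1)) - L / 16000 * (M.card * T2 - (M.card : ℝ) ^ 2) with hA
  have h1 : ∀ G ∈ SS, ρ ^ G.card * Real.exp (∑ x, f (dgr G x)) ≤
      Real.exp A * ∏ e ∈ G, ρ * Real.exp (GS_E L c Y M e) := by
    intro G hG
    obtain ⟨h2, h3, h4, h5⟩ := hS G hG
    have h6 := GS_low L c T1 T2 hL f Y M hd G h2 h3 h4 h5
    rw [prod_mul_distrib, prod_const, ← Real.exp_sum, mul_left_comm, ← Real.exp_add]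
    refine mul_le_mul_of_nonneg_left (Real.exp_le_exp.2 ?_) (pow_nonneg hρ0 _)
    rw [hA]
    linarith
  have hsumC : ∀ S : Finset (Fin n), ∑ e ∈ prs U, (GS_a S e : ℝ) ≤ S.card * n := by
    intro S
    have h2 := GS_sum_dgr (Finset.Subset.refl (prs U)) S
    have h3 : ∑ x ∈ S, dgr (prs U) x ≤ S.card * n := by
      rw [← smul_eq_mul]
      refine sum_le_card_nsmul _ _ _ fun x _ => ?_
      unfold dgr
      refine (card_le_univ _).trans ?_
      rw [Fintype.card_fin]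
    rw [h2] at h3
    exact_mod_cast h3
  have hi : ∑ e ∈ prs U, GS_i M e ≤ (M.card : ℝ) ^ 2 / 2 := by
    have h1 := GS_i2 M (prs U)
    have h2 : ∑ e ∈ prs U, GS_i M e = (((prs U).filter (fun e => e ∈ prs M)).card : ℝ) := by
      unfold GS_i
      rw [card_filter]
      push_cast
      rfl
    rw [h2]
    exact h1
  calc ∑ G ∈ SS, ρ ^ G.card * Real.exp (∑ x, f (dgr G x))
      ≤ ∑ G ∈ SS, Real.exp A * ∏ e ∈ G, ρ * Real.exp (GS_E L c Y M e) := sum_le_sum h1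
    _ ≤ ∑ G ∈ (prs U).powerset, Real.exp A * ∏ e ∈ G, ρ * Real.exp (GS_E L c Y M e) := by
        refine sum_le_sum_of_subset_of_nonneg (fun G hG => mem_powerset.2 (hS G hG).1) ?_
        intro G _ _
        exact mul_nonneg (Real.exp_pos _).le
          (prod_nonneg fun e _ => mul_nonneg hρ0 (Real.exp_pos _).le)
    _ = Real.exp A * ∏ e ∈ prs U, (1 + ρ * Real.exp (GS_E L c Y M e)) := by
        rw [← mul_sum, prod_one_add]
    _ ≤ Real.exp A * ∏ e ∈ prs U, ((1 + ρ * Real.exp (2 * c)) *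
        Real.exp (Real.exp (5 / 8000 * L - L) * GS_a Y e + GS_a M e + 2 * L * GS_i M e)) := by
        refine mul_le_mul_of_nonneg_left (prod_le_prod ?_ ?_) (Real.exp_pos _).le
        · intro e _
          have := mul_nonneg hρ0 (Real.exp_pos (GS_E L c Y M e)).le
          linarith
        · intro e he
          exact GS_edge L ρ c hL hρ0 hρ hc0 hc1 Y M hd e he
    _ = Real.exp A * ((1 + ρ * Real.exp (2 * c)) ^ (U.card.choose 2) *
        Real.exp (Real.exp (5 / 8000 * L - L) * ∑ e ∈ prs U, (GS_a Y e : ℝ) +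
          ∑ e ∈ prs U, (GS_a M e : ℝ) + 2 * L * ∑ e ∈ prs U, GS_i M e)) := by
        rw [prod_mul_distrib, prod_const, card_prs, ← Real.exp_sum, sum_add_distrib,
          sum_add_distrib, ← mul_sum, ← mul_sum]
    _ ≤ _ := by
        refine mul_le_mul_of_nonneg_left (mul_le_mul_of_nonneg_left
          (Real.exp_le_exp.2 ?_) ?_) (Real.exp_pos _).le
        · have h7 : Real.exp (5 / 8000 * L - L) * ∑ e ∈ prs U, (GS_a Y e : ℝ) ≤
              Real.exp (5 / 8000 * L - L) * (Y.card * n) :=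
            mul_le_mul_of_nonneg_left (hsumC Y) (Real.exp_pos _).le
          have h8 : 2 * L * ∑ e ∈ prs U, GS_i M e ≤ 2 * L * ((M.card : ℝ) ^ 2 / 2) :=
            mul_le_mul_of_nonneg_left hi (by positivity)
          have h9 := hsumC M
          linarith
        · have := mul_nonneg hρ0 (Real.exp_pos (2 * c)).le
          positivity

end fix

theorem GS_pows {α : Type*} (A : Finset α) (a : ℝ) :
    ∑ s ∈ A.powerset, a ^ s.card = (1 + a) ^ A.card := by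
  classical
  have h1 := sum_pow_mul_eq_add_pow a 1 A
  rw [add_comm a 1] at h1
  rw [← h1]
  refine sum_congr rfl fun s _ => ?_
  rw [one_pow, mul_one]

open Classical in
/-- Blueprint 3.6 (`eta = 1/8000`, `delta = 1/1000`). -/
theorem gs : ∀ᶠ n : ℕ in atTop, ∀ (U : Finset (Fin n)) (ρ c : ℝ), 0 ≤ ρ →
    ρ ≤ 3 * Real.log n / n → 0 ≤ c → c ≤ 1 → ∀ (f : ℕ → ℝ)
    (GG : Finset (Finset (Sym2 (Fin n)))),
    (∀ G ∈ GG, G ⊆ prs U ∧
      ((univ.filter (fun x => (n : ℝ) / 16000 ≤ dgr G x)).card : ℝ) ≤ n / Real.log n ∧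
      ∀ x, ((dgr G x : ℝ) < (n : ℝ) ^ ((1 : ℝ) / 1000) → f (dgr G x) ≤ c * dgr G x) ∧
        ((n : ℝ) ^ ((1 : ℝ) / 1000) ≤ dgr G x → (dgr G x : ℝ) < n / 16000 →
          f (dgr G x) ≤ 1 / 8000 * dgr G x * Real.log n) ∧
        ((n : ℝ) / 16000 ≤ dgr G x → f (dgr G x) ≤ (1 - 1 / 2000) * dgr G x * Real.log n)) →
    ∑ G ∈ GG, ρ ^ G.card * Real.exp (∑ x, f (dgr G x)) ≤
      2 * (1 + ρ * Real.exp (2 * c)) ^ (U.card.choose 2) := by
  filter_upwards [GS_num, eventually_ge_atTop 1] with n hnum hn1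
  obtain ⟨h1, h2, h3, h4, h5⟩ := hnum
  intro U ρ c hρ0 hρ1 hc0 hc1 f GG hGG
  set L := Real.log n with hLdef
  have hn : (0 : ℝ) < n := by exact_mod_cast hn1
  have hL : 0 ≤ L := by linarith
  have hL0 : 0 < L := by linarith
  have hexpL : Real.exp L = n := Real.exp_log hn
  have hpow : ∀ a : ℝ, (n : ℝ) ^ a = Real.exp (a * L) := by
    intro a
    rw [Real.rpow_def_of_pos hn, mul_comm]
  have hρ : ρ ≤ Real.exp (L / 8000 - 1 - L) := by
    refine hρ1.trans ?_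
    rw [Real.exp_sub, Real.exp_sub, hexpL, div_le_div_iff_of_pos_right hn,
      le_div_iff₀ (Real.exp_pos 1)]
    rw [hpow] at h2
    have e1 : (1 : ℝ) / 8000 * L = L / 8000 := by ring
    rw [e1] at h2
    linarith
  set T1 : ℝ := (n : ℝ) ^ ((1 : ℝ) / 1000) with hT1
  set T2 : ℝ := (n : ℝ) / 16000 with hT2
  -- the key
  set key : Finset (Sym2 (Fin n)) → Finset (Fin n) × Finset (Fin n) := fun G =>
    (univ.filter (fun x => T1 ≤ (dgr G x : ℝ) ∧ (dgr G x : ℝ) < T2),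
      univ.filter (fun x => T2 ≤ (dgr G x : ℝ))) with hkey
  have hmaps : ∀ G ∈ GG, key G ∈
      (univ : Finset (Fin n)).powerset ×ˢ (univ : Finset (Fin n)).powerset := by
    intro G _
    rw [mem_product, mem_powerset, mem_powerset]
    exact ⟨subset_univ _, subset_univ _⟩
  rw [← sum_fiberwise_of_maps_to hmaps]
  have hB0 : 0 ≤ (1 + ρ * Real.exp (2 * c)) ^ (U.card.choose 2) := by
    have := mul_nonneg hρ0 (Real.exp_pos (2 * c)).le
    positivity
  have ha : Real.exp (-(2 * L)) = ((n : ℝ) ^ 2)⁻¹ := by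
    rw [Real.exp_neg, ← hexpL, ← Real.exp_nat_mul]
    norm_num
  have hterm : ∀ k ∈ (univ : Finset (Fin n)).powerset ×ˢ (univ : Finset (Fin n)).powerset,
      ∑ G ∈ GG.filter (fun G => key G = k), ρ ^ G.card * Real.exp (∑ x, f (dgr G x)) ≤
      (((n : ℝ) ^ 2)⁻¹ ^ k.1.card * ((n : ℝ) ^ 2)⁻¹ ^ k.2.card) *
        (1 + ρ * Real.exp (2 * c)) ^ (U.card.choose 2) := by
    rintro ⟨Y, M⟩ _
    rcases (GG.filter (fun G => key G = (Y, M))).eq_empty_or_nonempty with hE | ⟨G0, hG0⟩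
    · rw [hE, sum_empty]
      positivity
    · have hY : ∀ G ∈ GG.filter (fun G => key G = (Y, M)),
          Y = univ.filter (fun x => T1 ≤ (dgr G x : ℝ) ∧ (dgr G x : ℝ) < T2) ∧
          M = univ.filter (fun x => T2 ≤ (dgr G x : ℝ)) := by
        intro G hG
        have h6 : key G = (Y, M) := (mem_filter.1 hG).2
        rw [hkey] at h6
        simp only [Prod.mk.injEq] at h6
        exact ⟨h6.1.symm, h6.2.symm⟩
      have hd : Disjoint Y M := by
        rw [(hY G0 hG0).1, (hY G0 hG0).2, disjoint_left]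
        intro x hx hx'
        have h6 := (mem_filter.1 hx).2.2
        have h7 := (mem_filter.1 hx').2
        linarith
      have hMc : (M.card : ℝ) ≤ n / L := by
        rw [(hY G0 hG0).2]
        exact (hGG G0 (mem_filter.1 hG0).1).2.1
      have hfix := GS_fix (U := U) L ρ c T1 T2 hL hρ0 hρ hc0 hc1 f Y M hd
        (GG.filter (fun G => key G = (Y, M))) (by
          intro G hG
          obtain ⟨h6, _, h7⟩ := hGG G (mem_filter.1 hG).1
          obtain ⟨h8, h9⟩ := hY G hG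
          refine ⟨h6, ?_, ?_, ?_⟩
          · intro x hx
            rw [h8, mem_filter] at hx
            exact ⟨hx.2.1, (h7 x).2.1 hx.2.1 hx.2.2⟩
          · intro x hx
            rw [h9, mem_filter] at hx
            exact ⟨hx.2, (h7 x).2.2 hx.2⟩
          · intro x hx hx'
            rw [h8, mem_filter] at hx
            rw [h9, mem_filter] at hx'
            have h10 : ¬ T2 ≤ (dgr G x : ℝ) := fun h => hx' ⟨mem_univ _, h⟩
            have h11 : ¬ T1 ≤ (dgr G x : ℝ) := fun h => hx ⟨mem_univ _, h, not_le.1 h10⟩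
            exact (h7 x).1 (not_le.1 h11))
      refine hfix.trans ?_
      have e0 : Real.exp (5 / 8000 * L - L) * (Y.card * n) =
          (n : ℝ) ^ ((5 : ℝ) / 8000) * Y.card := by
        rw [hpow, Real.exp_sub, hexpL]
        field_simp
      have hm0 : (0 : ℝ) ≤ M.card := Nat.cast_nonneg _
      have hy0 : (0 : ℝ) ≤ Y.card := Nat.cast_nonneg _
      have e1 : L * (M.card : ℝ) ≤ n := by
        have := mul_le_mul_of_nonneg_left hMc hL
        rwa [mul_div_cancel₀ _ hL0.ne'] at this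
      have e2 : (M.card : ℝ) ≤ n / 32000 := by
        refine hMc.trans ?_
        apply div_le_div_of_nonneg_left hn.le (by norm_num)
        linarith
      have e3 : L * (M.card : ℝ) ^ 2 ≤ M.card * n := by nlinarith
      have e4 : (M.card : ℝ) * (n / 32000) ≤ M.card * T2 - (M.card : ℝ) ^ 2 := by
        rw [hT2]
        nlinarith
      have e5 : (1 / 512000000 * L * n) * M.card ≤
          L / 16000 * (M.card * T2 - (M.card : ℝ) ^ 2) := by
        have := mul_le_mul_of_nonneg_left e4 (show 0 ≤ L / 16000 by positivity)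
        linarith
      have e6 : (2 * n + 2 * L) * M.card ≤ (1 / 512000000 * L * n) * M.card :=
        mul_le_mul_of_nonneg_right h4 hm0
      have e7 : ((n : ℝ) ^ ((5 : ℝ) / 8000) + 2 * L) * Y.card ≤
          (1 / 8000 * L * T1) * Y.card := mul_le_mul_of_nonneg_right h3 hy0
      have e8 : -(L / 8000 * (Y.card * T1)) - L / 16000 * (M.card * T2 - (M.card : ℝ) ^ 2) +
          (Real.exp (5 / 8000 * L - L) * (Y.card * n) + M.card * n + L * (M.card : ℝ) ^ 2) ≤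
          Y.card * (-(2 * L)) + M.card * (-(2 * L)) := by
        rw [e0]
        linarith
      have gen : ∀ A B P : ℝ, Real.exp A * (P * Real.exp B) = P * Real.exp (A + B) := by
        intro A B P
        rw [Real.exp_add]
        ring
      calc _ = (1 + ρ * Real.exp (2 * c)) ^ (U.card.choose 2) * Real.exp
            (-(L / 8000 * (Y.card * T1)) - L / 16000 * (M.card * T2 - (M.card : ℝ) ^ 2) +
            (Real.exp (5 / 8000 * L - L) * (Y.card * n) + M.card * n +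
              L * (M.card : ℝ) ^ 2)) := gen _ _ _
        _ ≤ (1 + ρ * Real.exp (2 * c)) ^ (U.card.choose 2) *
            Real.exp (Y.card * (-(2 * L)) + M.card * (-(2 * L))) :=
            mul_le_mul_of_nonneg_left (Real.exp_le_exp.2 e8) hB0
        _ = _ := by
            rw [Real.exp_add, Real.exp_nat_mul, Real.exp_nat_mul, ha]
            ring
  refine (sum_le_sum hterm).trans ?_
  rw [← sum_mul]
  have hfin : ∑ k ∈ (univ : Finset (Fin n)).powerset ×ˢ (univ : Finset (Fin n)).powerset,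
      (((n : ℝ) ^ 2)⁻¹ ^ k.1.card * ((n : ℝ) ^ 2)⁻¹ ^ k.2.card) ≤ 2 := by
    rw [sum_product]
    simp only
    rw [← sum_mul_sum, GS_pows, card_univ, Fintype.card_fin, ← pow_add, ← two_mul]
    exact h5
  exact mul_le_mul_of_nonneg_right hfin hB0

end PSys
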