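import Mathlib
import Pool.Agent.PSys.Spec

/-! Module RESTR: restrictions are closed families; the data of a system are valid data. -/

open Finset

namespace PSys

theorem restr_pos {n : ℕ} {P : Sys n} {U : Finset (Fin n)} {u v : Fin n}
    (h : ∀ x ∈ P u v, x ∈ U) : restr U P u v = P u v := by
  classical
  unfold restr; rw [if_pos h]

theorem restr_neg {n : ℕ} {P : Sys n} {U : Finset (Fin n)} {u v : Fin n}
    (h : ¬ ∀ x ∈ P u v, x ∈ U) : restr U P u v = [] := by
  classical
  unfold restr; rw [if_neg h]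

theorem restr_mem {n : ℕ} {P : Sys n} {U : Finset (Fin n)} {u v a : Fin n}
    (h : a ∈ restr U P u v) : (∀ x ∈ P u v, x ∈ U) ∧ a ∈ P u v := by
  by_cases h1 : ∀ x ∈ P u v, x ∈ U
  · rw [restr_pos h1] at h; exact ⟨h1, h⟩
  · rw [restr_neg h1] at h; simp at h

theorem restr_ne {n : ℕ} {P : Sys n} {U : Finset (Fin n)} {u v : Fin n}
    (h : restr U P u v ≠ []) : (∀ x ∈ P u v, x ∈ U) ∧ restr U P u v = P u v := by
  by_cases h1 : ∀ x ∈ P u v, x ∈ U
  · exact ⟨h1, restr_pos h1⟩
  · exact absurd (restr_neg h1) h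

theorem restr_fam {n : ℕ} {P : Sys n} (hP : IsCPS P) (U : Finset (Fin n)) :
    IsFam U (restr U P) := by
  have hF := hP.fam
  constructor
  · intro u v x hx
    obtain ⟨h1, h2⟩ := restr_mem hx
    exact h1 x h2
  · intro u hu
    rw [restr_pos (by rw [hP.self u]; simpa using hu), hP.self u]
  · intro u v h
    rw [(restr_ne h).2]; exact hP.head u v
  · intro u v h
    rw [(restr_ne h).2]; exact hP.last u v
  · intro u v
    by_cases h1 : ∀ x ∈ P u v, x ∈ U
    · rw [restr_pos h1]; exact hP.nodup u v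
    · rw [restr_neg h1]; exact List.nodup_nil
  · intro u v
    by_cases h1 : ∀ x ∈ P u v, x ∈ U
    · have h2 : ∀ x ∈ P v u, x ∈ U := fun x hx => h1 x (hF.mem_symm.1 hx)
      rw [restr_pos h1, restr_pos h2]; exact hP.symm u v
    · have h2 : ¬ ∀ x ∈ P v u, x ∈ U := fun h => h1 (fun x hx => h x (hF.mem_symm.2 hx))
      rw [restr_neg h1, restr_neg h2]; rfl
  · intro u v a ha
    obtain ⟨h1, h2⟩ := restr_mem ha
    have h3 : ∀ x ∈ P u a, x ∈ U := fun x hx => h1 x ((hF.split h2).2 (Or.inl hx))
    have h4 : ∀ x ∈ P a v, x ∈ U := fun x hx => h1 x ((hF.split h2).2 (Or.inr hx))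
    rw [restr_pos h1, restr_pos h3, restr_pos h4]
    exact ⟨hP.ne_nil u a, hP.ne_nil a v, hP.cons u v a h2⟩

theorem restr_dir {n : ℕ} {P : Sys n} (U : Finset (Fin n)) (u v : Fin n) :
    Dir (restr U P) u v ↔ Dir P u v ∧ u ∈ U ∧ v ∈ U := by
  constructor
  · rintro ⟨h1, h2⟩
    have h3 : restr U P u v ≠ [] := by rw [h2]; simp
    obtain ⟨h4, h5⟩ := restr_ne h3
    rw [h5] at h2
    refine ⟨⟨h1, h2⟩, h4 u (by rw [h2]; simp), h4 v (by rw [h2]; simp)⟩
  · rintro ⟨⟨h1, h2⟩, h3, h4⟩
    refine ⟨h1, ?_⟩
    rw [restr_pos, h2]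
    intro x hx
    rw [h2] at hx
    simp only [List.mem_cons, List.not_mem_nil, or_false] at hx
    rcases hx with rfl | rfl
    · exact h3
    · exact h4

theorem restr_fG {n : ℕ} {P : Sys n} (hP : IsCPS P) (U : Finset (Fin n)) :
    fG (restr U P) = inside (fG P) U := by
  ext e
  induction e with
  | _ u v =>
    rw [mem_fG (restr_fam hP U), restr_dir]
    unfold inside
    rw [mem_filter, mem_fG hP.fam]
    simp only [Sym2.mem_iff, forall_eq_or_imp, forall_eq]

theorem restr_dgr {n : ℕ} {P : Sys n} (hP : IsCPS P) (U : Finset (Fin n)) (x : Fin n) :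
    dgr (fG (restr U P)) x ≤ dgr (fG P) x ∧ (x ∉ U → dgr (fG (restr U P)) x = 0) := by
  unfold dgr
  constructor
  · apply card_le_card
    intro y hy
    rw [mem_filter] at hy ⊢
    refine ⟨mem_univ _, ?_⟩
    have h1 := (mem_fG (restr_fam hP U)).1 hy.2
    exact (mem_fG hP.fam).2 ((restr_dir U x y).1 h1).1
  · intro hx
    rw [card_eq_zero, filter_eq_empty_iff]
    intro y _ hy
    have h1 := (mem_fG (restr_fam hP U)).1 hy
    exact hx ((restr_dir U x y).1 h1).2.1

open Classical in
/-- the data of a system are valid data -/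
theorem vdat_of_has {n : ℕ} {P : Sys n} (hP : IsCPS P) (B : Finset (Fin n)) {lam mu : Lb n}
    {l : Ty n} (h : HasDat B P lam mu l)
    (hdeg : ∀ b ∈ B, (1 - 1 / 1000) * (n : ℝ) ≤ dgr (fG P) b) :
    VDat B (restr Bᶜ P) (restr B P) lam mu l := by
  have hF := hP.fam
  have hA := restr_fam hP Bᶜ
  have hB := restr_fam hP B
  have hl : ∀ u b, l u b ≠ none → u ∉ B ∧ b ∈ B ∧ ¬ Dir P u b := by
    intro u b h1
    by_contra h2
    exact h1 ((h.l_none u b).2 h2)
  constructor
  · unfold labs
    rw [mem_filter]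
    refine ⟨mem_univ _, ?_, ?_⟩
    · intro e
      rw [h.lam_none e]
      apply not_congr
      unfold EA
      induction e with
      | _ u v =>
        rw [mem_sdiff, mem_prs, mem_fD hA, mem_compl, mem_compl]
        constructor
        · rintro ⟨a, b, hab, h1, h2, h3, h4⟩
          have h4' : ¬ (∀ x ∈ P a b, x ∈ Bᶜ) := by
            intro h5; apply h4; intro x hx; have := h5 x hx; simpa using this
          rcases Sym2.eq_iff.1 hab with ⟨rfl, rfl⟩ | ⟨rfl, rfl⟩
          · refine ⟨⟨h1, h2, h3⟩, ?_⟩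
            rintro ⟨_, h6⟩
            exact h6 (restr_neg h4')
          · refine ⟨⟨h1.symm, h3, h2⟩, ?_⟩
            rintro ⟨_, h6⟩
            apply h6
            apply restr_neg
            intro h7
            exact h4' (fun x hx => h7 x (hF.mem_symm.2 hx))
        · rintro ⟨⟨h1, h2, h3⟩, h4⟩
          refine ⟨u, v, rfl, h1, h2, h3, ?_⟩
          intro h5
          apply h4
          refine ⟨h1, ?_⟩
          rw [restr_pos (fun x hx => by have := h5 x hx; simpa using this)]
          exact hP.ne_nil u v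
    · intro e
      induction e with
      | _ u v =>
        intro b hb
        exact (h.lam_mem u v b hb).1
  · unfold labs
    rw [mem_filter]
    refine ⟨mem_univ _, ?_, ?_⟩
    · intro e
      rw [h.mu_none e]
      apply not_congr
      unfold EB
      induction e with
      | _ u v =>
        rw [mem_sdiff, mem_prs, mem_fD hB]
        constructor
        · rintro ⟨a, b, hab, h1, h2, h3, h4⟩
          rcases Sym2.eq_iff.1 hab with ⟨rfl, rfl⟩ | ⟨rfl, rfl⟩
          · refine ⟨⟨h1, h2, h3⟩, ?_⟩
            rintro ⟨_, h6⟩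
            exact h6 (restr_neg h4)
          · refine ⟨⟨h1.symm, h3, h2⟩, ?_⟩
            rintro ⟨_, h6⟩
            apply h6
            apply restr_neg
            intro h7
            exact h4 (fun x hx => h7 x (hF.mem_symm.2 hx))
        · rintro ⟨⟨h1, h2, h3⟩, h4⟩
          refine ⟨u, v, rfl, h1, h2, h3, ?_⟩
          intro h5
          apply h4
          refine ⟨h1, ?_⟩
          rw [restr_pos h5]
          exact hP.ne_nil u v
    · intro e
      induction e with
      | _ u v =>
        intro b hb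
        have := (h.mu_mem u v b hb).1
        simpa using this
  · intro u b h1
    exact ⟨(hl u b h1).1, (hl u b h1).2.1⟩
  · intro u b a h1
    obtain ⟨h2, h3, h4⟩ := h.ty1 u b a h1
    have h5 := (hl u b (by rw [h1]; simp)).1
    exact (mem_fG hA).2 ((restr_dir _ _ _).2 ⟨h3, by simpa using h5, by simpa using h2⟩)
  · intro u b c h1
    obtain ⟨h2, h3, h4⟩ := h.ty2 u b c h1
    have h5 := (hl u b (by rw [h1]; simp)).2.1
    exact (mem_fG hB).2 ((restr_dir _ _ _).2 ⟨h3, h2, h5⟩)
  · intro u b c h1
    obtain ⟨_, _, _, a, h5, _, h7⟩ := h.ty3 u b c h1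
    exact ⟨a, h5, h7⟩
  · exact h.user1
  · exact h.user2
  · exact h.user3
  · refine ⟨fun u b => (P u b).length, ?_⟩
    intro u b a h1
    obtain ⟨_, h3, h4⟩ := h.ty1 u b a h1
    exact hF.length_lt_right h4 h3.1
  · intro b
    by_cases hb : b ∈ B
    · have h1 := hdeg b hb
      -- the neighbours, the leaves with `l u b ≠ none` and `b` itself are disjoint
      have h2 : (univ.filter (fun u => l u b ≠ none)).card + dgr (fG P) b ≤ n := by
        unfold dgr
        rw [← card_union_of_disjoint]
        · exact (card_le_univ _).trans (by simp)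
        · rw [disjoint_left]
          intro u hu hu'
          rw [mem_filter] at hu hu'
          have h3 := (hl u b hu.2).2.2
          exact h3 (hF.dir_symm.1 ((mem_fG hF).1 hu'.2))
      have h3 : ((univ.filter (fun u => l u b ≠ none)).card : ℝ) + dgr (fG P) b ≤ n := by
        exact_mod_cast h2
      linarith
    · have : (univ.filter (fun u => l u b ≠ none)) = ∅ := by
        rw [filter_eq_empty_iff]
        intro u _ h1
        exact hb (hl u b h1).2.1
      rw [this]
      simp only [card_empty, Nat.cast_zero]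
      positivity

end PSys
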