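import Mathlib
import Pool.Agent.PSys.Spec
import Pool.Agent.PSys.Restr

/-! Module GOODOF (blueprint 3.9): small data imply a good system. -/

open Finset Filter

namespace PSys

open Classical in
theorem goodOf_ordered {n : ℕ} (E : Finset (Sym2 (Fin n))) :
    (univ.filter (fun p : Fin n × Fin n => s(p.1, p.2) ∈ E)).card ≤ 2 * E.card := by
  have h1 := card_le_mul_card_image (f := fun p : Fin n × Fin n => s(p.1, p.2))
    (univ.filter (fun p : Fin n × Fin n => s(p.1, p.2) ∈ E)) 2 (by
      intro e _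
      induction e with
      | _ u v =>
        have hsub : ((univ.filter (fun p : Fin n × Fin n => s(p.1, p.2) ∈ E)).filter
            (fun p => s(p.1, p.2) = s(u, v))) ⊆ {(u, v), (v, u)} := by
          intro p hp
          rw [mem_filter] at hp
          rw [mem_insert, mem_singleton]
          rcases Sym2.eq_iff.1 hp.2 with ⟨h1, h2⟩ | ⟨h1, h2⟩
          · left; exact Prod.ext h1 h2
          · right; exact Prod.ext h1 h2
        exact (card_le_card hsub).trans (card_le_two))
  refine h1.trans (Nat.mul_le_mul_left 2 (card_le_card ?_))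
  intro e he
  obtain ⟨p, hp, rfl⟩ := mem_image.1 he
  exact (mem_filter.1 hp).2

open Classical in
/-- combinatorial part: number of special pairs -/
theorem goodOf_special {n : ℕ} (B : Finset (Fin n)) {P : Sys n} (hP : IsCPS P)
    {lam mu : Lb n} {l : Ty n} (h : HasDat B P lam mu l) (m : ℕ)
    (hm1 : ∀ u b, (univ.filter (fun v => lam s(u, v) = some b)).card ≤ m)
    (hm2 : ∀ b a, (univ.filter (fun c => mu s(b, c) = some a)).card ≤ m) :
    (univ.filter (fun p : Fin n × Fin n => Special B P p.1 p.2)).card ≤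
      2 * (Zs l).card + 2 * (fD (restr Bᶜ P) \ fG (restr Bᶜ P)).card +
        2 * (fD (restr B P) \ fG (restr B P)).card + 4 * ((Zs l).card * m) := by
  have hF := hP.fam
  have hA := restr_fam hP Bᶜ
  have hB := restr_fam hP B
  set T1 := Zs l
  set T2 := (Zs l).image Prod.swap
  set T3 := univ.filter (fun p : Fin n × Fin n =>
    s(p.1, p.2) ∈ fD (restr Bᶜ P) \ fG (restr Bᶜ P)) with hT3
  set T4 := univ.filter (fun p : Fin n × Fin n =>
    s(p.1, p.2) ∈ fD (restr B P) \ fG (restr B P)) with hT4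
  set T5 := (Zs l).biUnion (fun p => (univ.filter (fun v => lam s(p.1, v) = some p.2)).image
    (fun v => (p.1, v))) with hT5
  set T6 := (Zs l).biUnion (fun p => (univ.filter (fun v => lam s(p.1, v) = some p.2)).image
    (fun v => (v, p.1))) with hT6
  set T7 := (Zs l).biUnion (fun p => (univ.filter (fun c => mu s(p.2, c) = some p.1)).image
    (fun c => (p.2, c))) with hT7
  set T8 := (Zs l).biUnion (fun p => (univ.filter (fun c => mu s(p.2, c) = some p.1)).image
    (fun c => (c, p.2))) with hT8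
  have hZ : ∀ u b, u ∉ B → b ∈ B → ¬ Dir P u b → (u, b) ∈ Zs l := by
    intro u b hu hb hd
    unfold Zs
    rw [mem_filter]
    refine ⟨mem_univ _, ?_⟩
    intro h0
    exact (h.l_none u b).1 h0 ⟨hu, hb, hd⟩
  have hsub : univ.filter (fun p : Fin n × Fin n => Special B P p.1 p.2) ⊆
      (((((((T1 ∪ T2) ∪ T3) ∪ T4) ∪ T5) ∪ T6) ∪ T7) ∪ T8) := by
    rintro ⟨x, y⟩ hp
    rw [mem_filter] at hp
    obtain ⟨_, hne, hnd, hns⟩ := hp
    simp only at hne hnd hns
    have hndir : ¬ Dir P x y := fun hd => hnd hd.2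
    have hndir' : ¬ Dir P y x := fun hd => hndir (hF.dir_symm.1 hd)
    simp only [mem_union]
    by_cases hx : x ∈ B <;> by_cases hy : y ∈ B
    · -- both hubs
      by_cases hall : ∀ z ∈ P x y, z ∈ B
      · have : (x, y) ∈ T4 := by
          rw [hT4, mem_filter]
          refine ⟨mem_univ _, ?_⟩
          rw [Finset.mem_sdiff, mem_fD hB, mem_fG hB, restr_dir]
          refine ⟨⟨hne, ?_⟩, fun hd => hndir hd.1⟩
          rw [restr_pos hall]; exact hP.ne_nil x y
        tauto
      · have hmn : mu s(x, y) ≠ none := by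
          intro h0
          exact (h.mu_none s(x, y)).1 h0 ⟨x, y, rfl, hne, hx, hy, hall⟩
        obtain ⟨a, ha⟩ := Option.ne_none_iff_exists'.1 hmn
        obtain ⟨ha1, ha2⟩ := h.mu_mem x y a ha
        by_cases d1 : Dir P a x
        · by_cases d2 : Dir P a y
          · exfalso
            apply hns a
            have d1' : Dir P x a := hF.dir_symm.1 d1
            refine ⟨?_, ?_, ?_⟩
            · rw [(hF.cons x y a ha2).2.2, d1'.2, d2.2]; rfl
            · unfold Same; tauto
            · unfold Same; tauto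
          · have : (x, y) ∈ T8 := by
              rw [hT8, mem_biUnion]
              refine ⟨(a, y), hZ a y ha1 hy d2, ?_⟩
              rw [mem_image]
              refine ⟨x, ?_, rfl⟩
              rw [mem_filter]
              refine ⟨mem_univ _, ?_⟩
              simp only
              rw [Sym2.eq_swap]; exact ha
            tauto
        · have : (x, y) ∈ T7 := by
            rw [hT7, mem_biUnion]
            refine ⟨(a, x), hZ a x ha1 hx d1, ?_⟩
            rw [mem_image]
            exact ⟨y, mem_filter.2 ⟨mem_univ _, ha⟩, rfl⟩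
          tauto
    · -- x hub, y leaf
      have : (x, y) ∈ T2 := by
        rw [mem_image]
        exact ⟨(y, x), hZ y x hy hx hndir', rfl⟩
      tauto
    · -- x leaf, y hub
      have : (x, y) ∈ T1 := hZ x y hx hy hndir
      tauto
    · -- both leaves
      by_cases hall : ∀ z ∈ P x y, z ∈ Bᶜ
      · have : (x, y) ∈ T3 := by
          rw [hT3, mem_filter]
          refine ⟨mem_univ _, ?_⟩
          rw [Finset.mem_sdiff, mem_fD hA, mem_fG hA, restr_dir]
          refine ⟨⟨hne, ?_⟩, fun hd => hndir hd.1⟩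
          rw [restr_pos hall]; exact hP.ne_nil x y
        tauto
      · have hmn : lam s(x, y) ≠ none := by
          intro h0
          refine (h.lam_none s(x, y)).1 h0 ⟨x, y, rfl, hne, hx, hy, ?_⟩
          intro h1; apply hall; intro z hz; simpa using h1 z hz
        obtain ⟨b, hb⟩ := Option.ne_none_iff_exists'.1 hmn
        obtain ⟨hb1, hb2⟩ := h.lam_mem x y b hb
        by_cases d1 : Dir P x b
        · by_cases d2 : Dir P y b
          · exfalso
            apply hns b
            have d2' : Dir P b y := hF.dir_symm.1 d2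
            refine ⟨?_, ?_, ?_⟩
            · rw [(hF.cons x y b hb2).2.2, d1.2, d2'.2]; rfl
            · unfold Same; tauto
            · unfold Same; tauto
          · have : (x, y) ∈ T6 := by
              rw [hT6, mem_biUnion]
              refine ⟨(y, b), hZ y b hy hb1 d2, ?_⟩
              rw [mem_image]
              refine ⟨x, ?_, rfl⟩
              rw [mem_filter]
              refine ⟨mem_univ _, ?_⟩
              simp only
              rw [Sym2.eq_swap]; exact hb
            tauto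
        · have : (x, y) ∈ T5 := by
            rw [hT5, mem_biUnion]
            refine ⟨(x, b), hZ x b hx hb1 d1, ?_⟩
            rw [mem_image]
            exact ⟨y, mem_filter.2 ⟨mem_univ _, hb⟩, rfl⟩
          tauto
  have c2 : T2.card ≤ (Zs l).card := card_image_le
  have c3 : T3.card ≤ 2 * (fD (restr Bᶜ P) \ fG (restr Bᶜ P)).card := goodOf_ordered _
  have c4 : T4.card ≤ 2 * (fD (restr B P) \ fG (restr B P)).card := goodOf_ordered _
  have c5 : T5.card ≤ (Zs l).card * m :=
    card_biUnion_le_card_mul _ _ _ (fun p _ => card_image_le.trans (hm1 p.1 p.2))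
  have c6 : T6.card ≤ (Zs l).card * m :=
    card_biUnion_le_card_mul _ _ _ (fun p _ => card_image_le.trans (hm1 p.1 p.2))
  have c7 : T7.card ≤ (Zs l).card * m :=
    card_biUnion_le_card_mul _ _ _ (fun p _ => card_image_le.trans (hm2 p.2 p.1))
  have c8 : T8.card ≤ (Zs l).card * m :=
    card_biUnion_le_card_mul _ _ _ (fun p _ => card_image_le.trans (hm2 p.2 p.1))
  have u1 := card_union_le T1 T2
  have u2 := card_union_le (T1 ∪ T2) T3
  have u3 := card_union_le ((T1 ∪ T2) ∪ T3) T4
  have u4 := card_union_le (((T1 ∪ T2) ∪ T3) ∪ T4) T5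
  have u5 := card_union_le ((((T1 ∪ T2) ∪ T3) ∪ T4) ∪ T5) T6
  have u6 := card_union_le (((((T1 ∪ T2) ∪ T3) ∪ T4) ∪ T5) ∪ T6) T7
  have u7 := card_union_le ((((((T1 ∪ T2) ∪ T3) ∪ T4) ∪ T5) ∪ T6) ∪ T7) T8
  have u0 := card_le_card hsub
  have hT1 : T1.card = (Zs l).card := rfl
  linarith

theorem goodOf_num : ∀ᶠ n : ℕ in atTop, (1 : ℝ) ≤ n ∧
    2 * (n : ℝ) ^ ((1 : ℝ) / 32) + 1 ≤ (n : ℝ) ^ ((1 : ℝ) / 30) ∧
    ∀ z a b m : ℝ, 0 ≤ z → 0 ≤ m → z ≤ (n : ℝ) ^ ((1 : ℝ) / 32) → a ≤ (n : ℝ) ^ ((1 : ℝ) / 31) →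
      b ≤ (n : ℝ) ^ ((1 : ℝ) / 31) → m ≤ 2 * (n : ℝ) ^ ((1 : ℝ) / 32) + 1 →
      2 * z + 2 * a + 2 * b + 4 * (z * m) ≤ (n : ℝ) ^ ((1 : ℝ) / 10) := by
  have t1 : Tendsto (fun n : ℕ => (n : ℝ) ^ ((1 : ℝ) / 480)) atTop atTop :=
    (tendsto_rpow_atTop (by norm_num)).comp (tendsto_natCast_atTop_atTop (R := ℝ))
  have t2 : Tendsto (fun n : ℕ => (n : ℝ) ^ ((1 : ℝ) / 30)) atTop atTop :=
    (tendsto_rpow_atTop (by norm_num)).comp (tendsto_natCast_atTop_atTop (R := ℝ))
  filter_upwards [eventually_ge_atTop 1, t1.eventually_ge_atTop 3, t2.eventually_ge_atTop 16]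
    with n hn h1 h2
  have hn1 : (1 : ℝ) ≤ n := by exact_mod_cast hn
  have hn0 : (0 : ℝ) < n := by linarith
  have e1 : (n : ℝ) ^ ((1 : ℝ) / 30) = (n : ℝ) ^ ((1 : ℝ) / 32) * (n : ℝ) ^ ((1 : ℝ) / 480) := by
    rw [← Real.rpow_add hn0]; congr 1; norm_num
  have hX : (1 : ℝ) ≤ (n : ℝ) ^ ((1 : ℝ) / 32) := Real.one_le_rpow hn1 (by norm_num)
  have hY1 : (n : ℝ) ^ ((1 : ℝ) / 32) ≤ (n : ℝ) ^ ((1 : ℝ) / 30) :=
    Real.rpow_le_rpow_of_exponent_le hn1 (by norm_num)
  have hY2 : (n : ℝ) ^ ((1 : ℝ) / 31) ≤ (n : ℝ) ^ ((1 : ℝ) / 30) :=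
    Real.rpow_le_rpow_of_exponent_le hn1 (by norm_num)
  have e2 : (n : ℝ) ^ ((1 : ℝ) / 10) =
      (n : ℝ) ^ ((1 : ℝ) / 30) * (n : ℝ) ^ ((1 : ℝ) / 30) * (n : ℝ) ^ ((1 : ℝ) / 30) := by
    rw [← Real.rpow_add hn0, ← Real.rpow_add hn0]; congr 1; norm_num
  have hb : 2 * (n : ℝ) ^ ((1 : ℝ) / 32) + 1 ≤ (n : ℝ) ^ ((1 : ℝ) / 30) := by
    rw [e1]; nlinarith
  refine ⟨hn1, hb, ?_⟩
  intro z a b m hz hm0 hz' ha hb' hm
  set Y := (n : ℝ) ^ ((1 : ℝ) / 30) with hYdef
  have hzY : z ≤ Y := hz'.trans hY1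
  have haY : a ≤ Y := ha.trans hY2
  have hbY : b ≤ Y := hb'.trans hY2
  have hmY : m ≤ Y := hm.trans hb
  rw [e2]
  have hYpos : 0 ≤ Y := by linarith
  have h5 : z * m ≤ Y * Y := mul_le_mul hzY hmY hm0 hYpos
  have h6 : 16 * (Y * Y) ≤ Y * Y * Y := by nlinarith [mul_nonneg hYpos hYpos]
  have h7 : Y ≤ Y * Y := by nlinarith
  nlinarith

theorem goodOf : ∀ᶠ n : ℕ in atTop, ∀ (B : Finset (Fin n)), Rng B → ∀ (P : Sys n), IsCPS P →
    ∀ (lam mu : Lb n) (l : Ty n), HasDat B P lam mu l →
    hin (fG (restr Bᶜ P)) = 0 → hin (fG (restr B P)) = 0 →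
    ((Zs l).card : ℝ) < (n : ℝ) ^ ((1 : ℝ) / 32) →
    ((fD (restr Bᶜ P) \ fG (restr Bᶜ P)).card : ℝ) ≤ (n : ℝ) ^ ((1 : ℝ) / 31) →
    ((fD (restr B P) \ fG (restr B P)).card : ℝ) ≤ (n : ℝ) ^ ((1 : ℝ) / 31) →
    ¬ BMl lam l → ¬ BMm mu → Good B P := by
  classical
  filter_upwards [goodOf_num] with n hnum
  obtain ⟨hn1, hnum1, hnum2⟩ := hnum
  intro B hR P hP lam mu l h hA0 hB0 hZ hQA hQB hl hm
  have hF := hP.fam
  have hFA := restr_fam hP Bᶜ
  have hFB := restr_fam hP B
  set k := ⌈(n : ℝ) ^ ((1 : ℝ) / 32)⌉₊ with hk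
  have hX0 : (0 : ℝ) ≤ (n : ℝ) ^ ((1 : ℝ) / 32) := by positivity
  have hk1 : (k : ℝ) < (n : ℝ) ^ ((1 : ℝ) / 32) + 1 := Nat.ceil_lt_add_one hX0
  have hm1 : ∀ u b, (univ.filter (fun v => lam s(u, v) = some b)).card ≤ (Zs l).card + k := by
    intro u b
    by_contra h0
    push Not at h0
    exact hl ⟨u, b, by rw [← hk]; omega⟩
  have hm2 : ∀ b a, (univ.filter (fun c => mu s(b, c) = some a)).card ≤ (Zs l).card + k := by
    intro b a
    by_contra h0
    push Not at h0
    exact hm ⟨b, a, by rw [← hk]; omega⟩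
  have hmR : (((Zs l).card + k : ℕ) : ℝ) ≤ 2 * (n : ℝ) ^ ((1 : ℝ) / 32) + 1 := by
    push_cast; linarith
  have hdeg : ∀ (U : Finset (Fin n)) (Q : Sys n), hin (fG Q) = 0 → ∀ x,
      (dgr (fG Q) x : ℝ) < (n : ℝ) ^ ((1 : ℝ) / 32) := by
    intro U Q h0 x
    unfold hin at h0
    rw [card_eq_zero, filter_eq_empty_iff] at h0
    have := h0 (mem_univ x)
    linarith [not_le.1 this]
  constructor
  · exact hP
  · exact hR
  · intro x
    by_cases hx : x ∈ B
    · have hsub : (univ.filter (fun y => Same B x y ∧ Dir P x y)) ⊆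
          univ.filter (fun y => s(x, y) ∈ fG (restr B P)) := by
        intro y hy
        rw [mem_filter] at hy ⊢
        obtain ⟨_, h1, h2⟩ := hy
        exact ⟨mem_univ _, (mem_fG hFB).2 ((restr_dir _ _ _).2 ⟨h2, hx, h1.1 hx⟩)⟩
      have h1 : ((univ.filter (fun y => Same B x y ∧ Dir P x y)).card : ℝ) ≤
          dgr (fG (restr B P)) x := by
        unfold dgr; exact_mod_cast card_le_card hsub
      have h2 := hdeg B _ hB0 x
      linarith
    · have hsub : (univ.filter (fun y => Same B x y ∧ Dir P x y)) ⊆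
          univ.filter (fun y => s(x, y) ∈ fG (restr Bᶜ P)) := by
        intro y hy
        rw [mem_filter] at hy ⊢
        obtain ⟨_, h1, h2⟩ := hy
        have hy' : y ∉ B := fun h3 => hx (h1.2 h3)
        exact ⟨mem_univ _, (mem_fG hFA).2 ((restr_dir _ _ _).2 ⟨h2, by simpa using hx,
          by simpa using hy'⟩)⟩
      have h1 : ((univ.filter (fun y => Same B x y ∧ Dir P x y)).card : ℝ) ≤
          dgr (fG (restr Bᶜ P)) x := by
        unfold dgr; exact_mod_cast card_le_card hsub
      have h2 := hdeg B _ hA0 x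
      linarith
  · have h1 := goodOf_special B hP h ((Zs l).card + k) hm1 hm2
    have h2 : ((univ.filter (fun p : Fin n × Fin n => Special B P p.1 p.2)).card : ℝ) ≤
      2 * (Zs l).card + 2 * (fD (restr Bᶜ P) \ fG (restr Bᶜ P)).card +
        2 * (fD (restr B P) \ fG (restr B P)).card +
        4 * ((Zs l).card * (((Zs l).card + k : ℕ) : ℝ)) := by exact_mod_cast h1
    refine h2.trans ?_
    exact hnum2 _ _ _ _ (by positivity) (by positivity) hZ.le hQA hQB hmR
  · intro x z
    refine le_trans ?_ (hmR.trans hnum1)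
    by_cases hx : x ∈ B
    · have hsub : (univ.filter (fun y => Std B P x y z)) ⊆
          univ.filter (fun c => mu s(x, c) = some z) := by
        intro y hy
        rw [mem_filter] at hy ⊢
        obtain ⟨_, h1, h2, h3⟩ := hy
        refine ⟨mem_univ _, ?_⟩
        have hne : x ≠ y := by
          rintro rfl
          have := hP.nodup x x
          rw [h1] at this
          simp at this
        have hy : y ∈ B := h2.1 hx
        have hz : z ∉ B := fun h4 => h3 ⟨fun _ => h4, fun _ => hx⟩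
        have hmn : mu s(x, y) ≠ none := by
          intro h0
          refine (h.mu_none s(x, y)).1 h0 ⟨x, y, rfl, hne, hx, hy, ?_⟩
          intro h5
          exact hz (h5 z (by rw [h1]; simp))
        obtain ⟨a, ha⟩ := Option.ne_none_iff_exists'.1 hmn
        obtain ⟨ha1, ha2⟩ := h.mu_mem x y a ha
        rw [h1] at ha2
        simp only [List.mem_cons, List.not_mem_nil, or_false] at ha2
        rcases ha2 with rfl | rfl | rfl
        · exact absurd hx ha1
        · exact ha
        · exact absurd hy ha1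
      have h1 := (card_le_card hsub).trans (hm2 x z)
      exact_mod_cast h1
    · have hsub : (univ.filter (fun y => Std B P x y z)) ⊆
          univ.filter (fun v => lam s(x, v) = some z) := by
        intro y hy
        rw [mem_filter] at hy ⊢
        obtain ⟨_, h1, h2, h3⟩ := hy
        refine ⟨mem_univ _, ?_⟩
        have hne : x ≠ y := by
          rintro rfl
          have := hP.nodup x x
          rw [h1] at this
          simp at this
        have hy : y ∉ B := fun h4 => hx (h2.2 h4)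
        have hz : z ∈ B := by
          by_contra h4
          exact h3 ⟨fun h5 => absurd h5 hx, fun h5 => absurd h5 h4⟩
        have hmn : lam s(x, y) ≠ none := by
          intro h0
          refine (h.lam_none s(x, y)).1 h0 ⟨x, y, rfl, hne, hx, hy, ?_⟩
          intro h5
          exact h5 z (by rw [h1]; simp) hz
        obtain ⟨b, hb⟩ := Option.ne_none_iff_exists'.1 hmn
        obtain ⟨hb1, hb2⟩ := h.lam_mem x y b hb
        rw [h1] at hb2
        simp only [List.mem_cons, List.not_mem_nil, or_false] at hb2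
        rcases hb2 with rfl | rfl | rfl
        · exact absurd hb1 hx
        · exact hb
        · exact absurd hb1 hy
      have h1 := (card_le_card hsub).trans (hm1 x z)
      exact_mod_cast h1

end PSys
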