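import Mathlib
import Pool.Agent.PSys.Spec

/-! Module INC (blueprint 0.5, in-count). -/

open Finset

namespace PSys

/-- `p` is a possible R-path all of whose proper subpaths are paths of `P`. -/
def RL {n : ℕ} (B : Finset (Fin n)) (P : Sys n) (p : List (Fin n)) : Prop :=
  ∃ x x' y' y, p = P x y' ++ [y] ∧ p = x :: P x' y ∧ 4 ≤ p.length ∧
    ¬ ∃ c a, p = [x, c, a, y] ∧ ¬ Same B x c ∧ ¬ Same B c a ∧ ¬ Same B a y

theorem INC_std {n : ℕ} {P : Sys n} {B : Finset (Fin n)} {x y : Fin n} (hxy : x ≠ y)
    (hd : P x y ≠ [x, y]) (hs : ¬ Special B P x y) : ∃ z, Std B P x y z := by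
  by_contra h
  exact hs ⟨hxy, hd, fun z hz => h ⟨z, hz⟩⟩

theorem INC_sym {n : ℕ} {P : Sys n} (hP : IsCPS P) {B : Finset (Fin n)} {x y : Fin n}
    (h : Special B P x y) : Special B P y x := by
  obtain ⟨h1, h2, h3⟩ := h
  refine ⟨h1.symm, ?_, ?_⟩
  · intro h4
    apply h2
    rw [hP.symm y x, h4]
    rfl
  · intro z hz
    obtain ⟨h5, h6, h7⟩ := hz
    apply h3 z
    refine ⟨by rw [hP.symm y x, h5]; rfl, ?_, ?_⟩
    · unfold Same at *
      tauto
    · unfold Same at *
      tauto

open Classical in
/-- endpoints of the extensions -/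
noncomputable def INC_T {n : ℕ} (B : Finset (Fin n)) (P : Sys n) (a b : Fin n) : Finset (Fin n) :=
  univ.filter (fun y => Special B P (hop P a b) y) ∪ univ.filter (fun y => Std B P (hop P a b) y b)

open Classical in
/-- lists with special left part -/
noncomputable def INC_S {n : ℕ} (B : Finset (Fin n)) (P : Sys n) : Finset (List (Fin n)) :=
  (univ.filter (fun p : Fin n × Fin n => Special B P p.1 p.2)).biUnion
    (fun p => (INC_T B P p.1 p.2).image (fun y => P p.1 p.2 ++ [y]))

open Classical in
theorem INC_T_card {n : ℕ} {P : Sys n} (B : Finset (Fin n)) (s m : ℕ)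
    (hs : (univ.filter (fun p : Fin n × Fin n => Special B P p.1 p.2)).card ≤ s)
    (hm : ∀ x z, (univ.filter (fun y => Std B P x y z)).card ≤ m)
    (a b : Fin n) : (INC_T B P a b).card ≤ s + m := by
  unfold INC_T
  refine (card_union_le _ _).trans (Nat.add_le_add ?_ ?_)
  · refine le_trans ?_ hs
    refine card_le_card_of_injOn (fun y => (hop P a b, y)) ?_ ?_
    · intro y hy
      simp only [coe_filter, mem_univ, true_and, Set.mem_setOf_eq] at hy ⊢
      simpa using hy
    · intro y _ z _ h
      exact (Prod.mk.inj h).2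
  · convert hm (hop P a b) b

open Classical in
theorem INC_S_card {n : ℕ} {P : Sys n} (B : Finset (Fin n)) (s m : ℕ)
    (hs : (univ.filter (fun p : Fin n × Fin n => Special B P p.1 p.2)).card ≤ s)
    (hm : ∀ x z, (univ.filter (fun y => Std B P x y z)).card ≤ m) :
    (INC_S B P).card ≤ s * (s + m) := by
  unfold INC_S
  refine card_biUnion_le.trans ?_
  calc _ ≤ ∑ _p ∈ univ.filter (fun p : Fin n × Fin n => Special B P p.1 p.2), (s + m) := by
        refine sum_le_sum ?_
        intro p _
        exact card_image_le.trans (INC_T_card B s m hs hm p.1 p.2)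
    _ = (univ.filter (fun p : Fin n × Fin n => Special B P p.1 p.2)).card * (s + m) := by
        rw [sum_const, smul_eq_mul]
    _ ≤ s * (s + m) := by
        refine Nat.mul_le_mul_right _ ?_
        convert hs

theorem INC_mem {n : ℕ} {P : Sys n} (hP : IsCPS P) (B : Finset (Fin n)) {p : List (Fin n)}
    {x x' y' y : Fin n} (h1 : p = P x y' ++ [y]) (h2 : p = x :: P x' y) (h3 : 4 ≤ p.length)
    (h4 : Special B P x y') : p ∈ INC_S B P := by
  classical
  have hF := hP.fam
  have hl1 : 3 ≤ (P x y').length := by
    have := h3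
    rw [h1, List.length_append, List.length_singleton] at this
    omega
  have hl2 : 3 ≤ (P x' y).length := by
    have := h3
    rw [h2, List.length_cons] at this
    omega
  have hxy' : x ≠ y' := h4.1
  have hx'y : x' ≠ y := by
    rintro rfl
    rw [hP.self] at hl2
    simp at hl2
  have hne := hP.ne_nil x y'
  have hc := hF.cons_hop hne hxy'
  have h5 : P (hop P x y') y' ++ [y] = P x' y := by
    have h6 : x :: (P (hop P x y') y' ++ [y]) = x :: P x' y := by
      rw [← List.cons_append, ← hc, ← h1, h2]
    exact (List.cons.inj h6).2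
  have h6 : hop P x y' = x' := by
    have h7 := congrArg List.head? h5
    rw [List.head?_append_of_ne_nil _ (hP.ne_nil _ _), hP.head, hP.head] at h7
    exact Option.some.inj h7
  have h7 : y ∈ INC_T B P x y' := by
    unfold INC_T
    rw [h6, mem_union, mem_filter, mem_filter]
    by_cases h8 : Special B P x' y
    · exact Or.inl ⟨mem_univ _, h8⟩
    · right
      refine ⟨mem_univ _, ?_⟩
      obtain ⟨z, hz⟩ := INC_std hx'y (by
        intro h9
        rw [h9] at hl2
        simp at hl2) h8
      have h9 : z = y' := by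
        have h10 := h5
        rw [hz.1, h6] at h10
        have h11 : P x' y' = [x', z] := by
          have h12 : P x' y' ++ [y] = [x', z] ++ [y] := by rw [h10]; rfl
          exact (List.append_inj_left' h12 rfl)
        have h12 := hP.last x' y'
        rw [h11] at h12
        simpa using h12
      rw [← h9]
      exact hz
  unfold INC_S
  rw [mem_biUnion]
  refine ⟨(x, y'), ?_, ?_⟩
  · rw [mem_filter]
    exact ⟨mem_univ _, h4⟩
  · rw [mem_image]
    exact ⟨y, h7, h1.symm⟩

open Classical in
/-- Blueprint 0.5, IN-COUNT: one of the two maximal proper subpaths is special. -/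
theorem inc {n : ℕ} {P : Sys n} (hP : IsCPS P) (B : Finset (Fin n)) (s m : ℕ)
    (hs : (univ.filter (fun p : Fin n × Fin n => Special B P p.1 p.2)).card ≤ s)
    (hm : ∀ x z, (univ.filter (fun y => Std B P x y z)).card ≤ m) :
    ∃ S : Finset (List (Fin n)), (∀ p, RL B P p → p ∈ S) ∧ S.card ≤ 2 * s * (s + m) := by
  refine ⟨INC_S B P ∪ (INC_S B P).image List.reverse, ?_, ?_⟩
  · rintro p ⟨x, x', y', y, h1, h2, h3, h4⟩
    rw [mem_union, mem_image]
    by_cases h5 : Special B P x y'
    · exact Or.inl (INC_mem hP B h1 h2 h3 h5)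
    by_cases h6 : Special B P x' y
    · right
      refine ⟨p.reverse, ?_, List.reverse_reverse p⟩
      refine INC_mem hP B (x := y) (x' := y') (y' := x') (y := x) ?_ ?_ ?_ (INC_sym hP h6)
      · rw [h2, List.reverse_cons, hP.symm x' y]
      · rw [h1, List.reverse_append, hP.symm x y']
        rfl
      · rw [List.length_reverse]; exact h3
    exfalso
    have hl1 : 3 ≤ (P x y').length := by
      have := h3
      rw [h1, List.length_append, List.length_singleton] at this
      omega
    have hl2 : 3 ≤ (P x' y).length := by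
      have := h3
      rw [h2, List.length_cons] at this
      omega
    have hxy' : x ≠ y' := by
      rintro rfl
      rw [hP.self] at hl1
      simp at hl1
    have hx'y : x' ≠ y := by
      rintro rfl
      rw [hP.self] at hl2
      simp at hl2
    obtain ⟨z, hz⟩ := INC_std hxy' (by intro h9; rw [h9] at hl1; simp at hl1) h5
    obtain ⟨w, hw⟩ := INC_std hx'y (by intro h9; rw [h9] at hl2; simp at hl2) h6
    have h7 : p = [x, z, y', y] := by rw [h1, hz.1]; rfl
    have h8 : p = [x, x', w, y] := by rw [h2, hw.1]
    rw [h7] at h8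
    simp only [List.cons.injEq, and_true, true_and] at h8
    obtain ⟨h9, h10⟩ := h8
    subst h9
    subst h10
    apply h4
    refine ⟨z, y', h7, hz.2.2, hw.2.2, ?_⟩
    have h11 := hw.2.1
    have h12 := hw.2.2
    unfold Same at *
    tauto
  · refine (card_union_le _ _).trans ?_
    have h1 := INC_S_card B s m hs hm
    have h2 : ((INC_S B P).image List.reverse).card ≤ (INC_S B P).card := card_image_le
    calc _ ≤ s * (s + m) + s * (s + m) := Nat.add_le_add h1 (h2.trans h1)
      _ = 2 * s * (s + m) := by ring

end PSys
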