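import Mathlib
import Pool.Agent.PSys.Spec1
import Pool.Agent.PSys.Base

/-! Module LOWB (blueprint 1.6): lower bound for the number of consistent systems. -/

open Finset Filter

namespace PSys

/-- Blueprint 1.6: `B` of size `floor (b0 n)`; `log baseN B ≥ (N - n b0) log b0 ≥ Target - n/2`. -/
theorem lowb : ∀ᶠ n : ℕ in atTop, Real.exp (Target n - n / 2) ≤ (cps n).card := by
  have hl : ∀ᶠ n : ℕ in atTop, (1 : ℝ) ≤ Real.log n :=
    (Real.tendsto_log_atTop.comp tendsto_natCast_atTop_atTop).eventually_ge_atTop 1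
  have hb : ∀ᶠ n : ℕ in atTop, (1 : ℝ) ≤ b0 n := by
    have h1 : Tendsto (fun n : ℕ => Real.log (n : ℝ) / (n : ℝ)) atTop (nhds 0) := by
      have h2 := Real.isLittleO_log_id_atTop.tendsto_div_nhds_zero
      exact h2.comp tendsto_natCast_atTop_atTop
    have h3 := h1.eventually (gt_mem_nhds (show (0 : ℝ) < 1 / 2 by norm_num))
    filter_upwards [h3, hl, eventually_gt_atTop 0] with n hn hln hn0
    have hn0' : (0 : ℝ) < n := by exact_mod_cast hn0
    unfold b0
    rw [le_div_iff₀ (by linarith)]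
    rw [div_lt_iff₀ hn0'] at hn
    linarith
  filter_upwards [hl, hb, eventually_ge_atTop 3] with n hln hbn hn
  have hn3 : (3 : ℝ) ≤ n := by exact_mod_cast hn
  have hb0n : b0 n ≤ n := by
    unfold b0
    rw [div_le_iff₀ (by linarith)]
    nlinarith
  have hk : ⌊b0 n⌋₊ ≤ n := by
    have := Nat.floor_le (show 0 ≤ b0 n by linarith)
    exact_mod_cast this.trans hb0n
  obtain ⟨B, -, hB⟩ := exists_subset_card_eq (s := (univ : Finset (Fin n))) (n := ⌊b0 n⌋₊)
    (by simpa using hk)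
  refine le_trans ?_ (base_le B)
  have hBc : Bᶜ.card = n - ⌊b0 n⌋₊ := by
    rw [card_compl, Fintype.card_fin, hB]
  have h1 : (1 + B.card : ℝ) ^ (Bᶜ.card.choose 2) ≤ baseN B := by
    unfold baseN
    refine le_mul_of_one_le_right (by positivity) (one_le_pow₀ ?_)
    have : (0 : ℝ) ≤ Bᶜ.card := Nat.cast_nonneg _
    linarith
  refine le_trans ?_ h1
  have h2 : (0 : ℝ) < 1 + B.card := by positivity
  rw [← Real.exp_log (pow_pos h2 _), Real.exp_le_exp, Real.log_pow]
  have h3 : b0 n ≤ 1 + B.card := by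
    rw [hB, add_comm]
    exact (Nat.lt_floor_add_one (b0 n)).le
  have h4 : Real.log (b0 n) ≤ Real.log (1 + B.card) := Real.log_le_log (by linarith) h3
  have h5 : 0 ≤ Real.log (b0 n) := Real.log_nonneg hbn
  have h6 : ((n.choose 2 : ℕ) : ℝ) = n * (n - 1) / 2 := Nat.cast_choose_two ℝ n
  have h7 : ((Bᶜ.card.choose 2 : ℕ) : ℝ) = (n - ⌊b0 n⌋₊) * (n - ⌊b0 n⌋₊ - 1) / 2 := by
    rw [Nat.cast_choose_two, hBc, Nat.cast_sub hk]
  have h8 : (⌊b0 n⌋₊ : ℝ) ≤ b0 n := Nat.floor_le (by linarith)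
  have h9 : ((n.choose 2 : ℕ) : ℝ) - n * b0 n ≤ ((Bᶜ.card.choose 2 : ℕ) : ℝ) := by
    rw [h6, h7]
    have h10 : (0 : ℝ) ≤ (⌊b0 n⌋₊ : ℝ) := Nat.cast_nonneg _
    nlinarith
  have h10 : (((n.choose 2 : ℕ) : ℝ) - n * b0 n) * Real.log (b0 n) ≤
      ((Bᶜ.card.choose 2 : ℕ) : ℝ) * Real.log (1 + B.card) :=
    (mul_le_mul_of_nonneg_right h9 h5).trans
      (mul_le_mul_of_nonneg_left h4 (Nat.cast_nonneg _))
  refine le_trans ?_ h10
  unfold Target
  have h11 : b0 n * Real.log (b0 n) ≤ n / 2 := by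
    have h12 : Real.log (b0 n) ≤ Real.log n := Real.log_le_log (by linarith) hb0n
    calc b0 n * Real.log (b0 n) ≤ b0 n * Real.log n :=
          mul_le_mul_of_nonneg_left h12 (by linarith)
      _ = n / 2 := by
          unfold b0
          field_simp
  have h12 : (n : ℝ) * (b0 n * Real.log (b0 n)) ≤ n * (n / 2) :=
    mul_le_mul_of_nonneg_left h11 (by linarith)
  rw [h6]
  nlinarith

end PSys
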