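import Mathlib

/-! Module NUM3: the error term tends to zero. -/

open Filter

namespace PSys

theorem num3 : Tendsto (fun n : ℕ => Real.exp (-(n : ℝ)) +
    2 * Real.exp ((n : ℝ) ^ ((1 : ℝ) / 42) - (n : ℝ) ^ ((1 : ℝ) / 32)) +
    3 * (n : ℝ) ^ (-((1 : ℝ) / 4))) atTop (nhds 0) := by
  have h1 : Tendsto (fun n : ℕ => Real.exp (-(n : ℝ))) atTop (nhds 0) :=
    (Real.tendsto_exp_neg_atTop_nhds_zero).comp tendsto_natCast_atTop_atTop
  have h3 : Tendsto (fun n : ℕ => 3 * (n : ℝ) ^ (-((1 : ℝ) / 4))) atTop (nhds 0) := by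
    have := (tendsto_rpow_neg_atTop (show (0 : ℝ) < 1 / 4 by norm_num)).comp
      (tendsto_natCast_atTop_atTop (R := ℝ))
    simpa using this.const_mul 3
  have h2 : Tendsto (fun n : ℕ => 2 * Real.exp ((n : ℝ) ^ ((1 : ℝ) / 42) -
      (n : ℝ) ^ ((1 : ℝ) / 32))) atTop (nhds 0) := by
    have key : Tendsto (fun n : ℕ => (n : ℝ) ^ ((1 : ℝ) / 42) - (n : ℝ) ^ ((1 : ℝ) / 32))
        atTop atBot := by
      have hA : Tendsto (fun x : ℝ => x ^ ((1 : ℝ) / 42) * (x ^ ((1 : ℝ) / 32 - 1 / 42) - 1))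
          atTop atTop := by
        apply Tendsto.atTop_mul_atTop₀ (tendsto_rpow_atTop (by norm_num))
        exact tendsto_atTop_add_const_right _ (-1) (tendsto_rpow_atTop (by norm_num))
      have hB : Tendsto (fun x : ℝ => x ^ ((1 : ℝ) / 42) - x ^ ((1 : ℝ) / 32)) atTop atBot := by
        rw [← tendsto_neg_atTop_iff]
        refine hA.congr' ?_
        filter_upwards [eventually_gt_atTop 0] with x hx
        have : x ^ ((1 : ℝ) / 32) = x ^ ((1 : ℝ) / 42) * x ^ ((1 : ℝ) / 32 - 1 / 42) := by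
          rw [← Real.rpow_add hx]; congr 1; ring
        rw [this]; ring
      exact hB.comp (tendsto_natCast_atTop_atTop (R := ℝ))
    have := (Real.tendsto_exp_atBot.comp key).const_mul 2
    simpa using this
  have := (h1.add h2).add h3
  simpa using this

end PSys
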