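import Mathlib
import Pool.Agent.PSys.Spec1

/-! Module NUM1: numerical facts for Stage 1. -/

open Finset Filter

namespace PSys

theorem NUM1_log3 : ∀ᶠ n : ℕ in atTop, 2 * (Real.log n) ^ 3 ≤ (n : ℝ) := by
  have h1 : (fun x : ℝ => (Real.log x) ^ (3 : ℕ)) =o[atTop] (fun x : ℝ => x) := by
    exact Real.isLittleO_pow_log_id_atTop
  have h2 := h1.def (show (0 : ℝ) < 1 / 2 by norm_num)
  have h3 := (tendsto_natCast_atTop_atTop (R := ℝ)).eventually h2
  filter_upwards [h3, eventually_ge_atTop 1] with n hn hn1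
  have h4 : (0 : ℝ) ≤ n := Nat.cast_nonneg n
  rw [Real.norm_of_nonneg h4, Real.norm_eq_abs] at hn
  have := le_abs_self ((Real.log (n : ℝ)) ^ 3)
  linarith

/-- numerical facts for the encoding parameters -/
theorem params_ok : ∀ᶠ n : ℕ in atTop, 1 ≤ tau n ∧ n / tau n ≤ kk n ∧ 0 < rho1 n := by
  filter_upwards [NUM1_log3, eventually_ge_atTop 3] with n hn hn3
  have hn0 : (3 : ℝ) ≤ n := by exact_mod_cast hn3
  have hnpos : (0 : ℝ) < n := by linarith
  have hlog : 0 < Real.log n := Real.log_pos (by linarith)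
  have hL : 0 < (Real.log n) ^ 3 := pow_pos hlog 3
  have h1 : 2 ≤ (n : ℝ) / (Real.log n) ^ 3 := by
    rw [le_div_iff₀ hL]; linarith
  have htau : (n : ℝ) / (Real.log n) ^ 3 < tau n + 1 := Nat.lt_floor_add_one _
  have htau1 : 1 ≤ tau n := by
    unfold tau
    apply Nat.le_floor
    push_cast
    linarith
  refine ⟨htau1, ?_, ?_⟩
  · unfold kk
    apply Nat.le_floor
    have htp : (0 : ℝ) < tau n := by exact_mod_cast htau1
    refine Nat.cast_div_le.trans ?_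
    rw [div_le_iff₀ htp]
    have h2 : (n : ℝ) / (Real.log n) ^ 3 / 2 ≤ tau n := by linarith
    have h3 : (n : ℝ) = 2 * (Real.log n) ^ 3 * ((n : ℝ) / (Real.log n) ^ 3 / 2) := by
      field_simp
    calc (n : ℝ) = 2 * (Real.log n) ^ 3 * ((n : ℝ) / (Real.log n) ^ 3 / 2) := h3
      _ ≤ 2 * (Real.log n) ^ 3 * tau n := by
          apply mul_le_mul_of_nonneg_left h2; positivity
  · unfold rho1
    positivity

/-- numerical conclusion of Stage 1 -/
theorem num1 (c : ℝ) (hc : 0 < c) : ∀ᶠ n : ℕ in atTop,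
    ((n.choose 2 + 1 : ℕ) : ℝ) * ((n.choose 2 * n + 1 : ℕ) : ℝ) * Real.exp (Target n - c * n ^ 2)
      ≤ Real.exp (-(n : ℝ)) * Real.exp (Target n - n / 2) := by
  filter_upwards [eventually_ge_atTop (⌈(9 / 2) / c⌉₊ + 1)] with n hn
  have h1 : (9 / 2) / c ≤ n := by
    refine (Nat.le_ceil _).trans ?_
    exact_mod_cast (Nat.le_succ _).trans hn
  have h2 : 9 / 2 ≤ c * n := by
    rw [div_le_iff₀ hc] at h1; linarith
  have hn0 : (0 : ℝ) ≤ n := Nat.cast_nonneg n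
  have h3 : 1 + (n : ℝ) + (n : ℝ) ^ 2 / 2 ≤ Real.exp n := Real.quadratic_le_exp_of_nonneg hn0
  have h4 : ((n.choose 2 : ℕ) : ℝ) ≤ (n : ℝ) ^ 2 / 2 := by
    rw [Nat.cast_choose_two]
    nlinarith
  have h5 : ((n.choose 2 + 1 : ℕ) : ℝ) ≤ Real.exp n := by
    push_cast; linarith
  have h6 : ((n.choose 2 * n + 1 : ℕ) : ℝ) ≤ Real.exp n * Real.exp n := by
    push_cast
    have h7 : ((n.choose 2 : ℕ) : ℝ) * n + 1 ≤
        (1 + (n : ℝ) + (n : ℝ) ^ 2 / 2) * (1 + (n : ℝ) + (n : ℝ) ^ 2 / 2) := by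
      have h8 : ((n.choose 2 : ℕ) : ℝ) * n ≤ (n : ℝ) ^ 2 / 2 * n :=
        mul_le_mul_of_nonneg_right h4 hn0
      nlinarith [pow_nonneg hn0 2, pow_nonneg hn0 3, pow_nonneg hn0 4]
    refine h7.trans ?_
    have h9 : 0 ≤ 1 + (n : ℝ) + (n : ℝ) ^ 2 / 2 := by positivity
    exact mul_le_mul h3 h3 h9 (Real.exp_pos _).le
  have h7 : ((n.choose 2 + 1 : ℕ) : ℝ) * ((n.choose 2 * n + 1 : ℕ) : ℝ) ≤
      Real.exp n * (Real.exp n * Real.exp n) :=
    mul_le_mul h5 h6 (Nat.cast_nonneg _) (Real.exp_pos _).le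
  calc ((n.choose 2 + 1 : ℕ) : ℝ) * ((n.choose 2 * n + 1 : ℕ) : ℝ) *
        Real.exp (Target n - c * n ^ 2)
      ≤ Real.exp n * (Real.exp n * Real.exp n) * Real.exp (Target n - c * n ^ 2) :=
        mul_le_mul_of_nonneg_right h7 (Real.exp_pos _).le
    _ = Real.exp (n + (n + n) + (Target n - c * n ^ 2)) := by
        rw [← Real.exp_add, ← Real.exp_add, ← Real.exp_add]
    _ ≤ Real.exp (-(n : ℝ) + (Target n - n / 2)) := by
        apply Real.exp_le_exp.2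
        nlinarith
    _ = Real.exp (-(n : ℝ)) * Real.exp (Target n - n / 2) := by rw [Real.exp_add]

end PSys
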