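import Mathlib
import Pool.Agent.PSys.Spec1

/-! Module OMEGA (blueprint 1.3): the two deterministic inequalities. -/

open Finset

namespace PSys

theorem OMEGA_mem_prs_of_mem {n : ℕ} {G : Finset (Sym2 (Fin n))} (hG : G ⊆ prs univ)
    {u v : Fin n} (h : s(u, v) ∈ G) : u ≠ v := (mem_prs.1 (hG h)).1

theorem OMEGA_mem_Hs {n : ℕ} {G : Finset (Sym2 (Fin n))} {hp : Fin n → Fin n → Option (Fin n)}
    {x v : Fin n} (h : Wx G hp x v) : s(x, v) ∈ Hs G hp := by
  classical
  simp only [Hs, mem_filter, mem_univ, true_and]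
  exact ⟨x, v, rfl, h⟩

theorem OMEGA_opt {n : ℕ} {G : Finset (Sym2 (Fin n))} {hp : Fin n → Fin n → Option (Fin n)}
    {z u v : Fin n} (h : z ∈ opt G hp s(u, v)) :
    (s(z, u) ∈ G ∧ Wx G hp z v) ∨ (s(z, v) ∈ G ∧ Wx G hp z u) := by
  classical
  simp only [opt, mem_filter, mem_univ, true_and] at h
  obtain ⟨a, b, hab, h1, h2⟩ := h
  rcases Sym2.eq_iff.1 hab with ⟨rfl, rfl⟩ | ⟨rfl, rfl⟩
  · exact Or.inl ⟨h1, h2⟩
  · exact Or.inr ⟨h1, h2⟩

theorem OMEGA_two {n : ℕ} (G : Finset (Sym2 (Fin n))) (hp : Fin n → Fin n → Option (Fin n))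
    (O : Finset (Fin n × Fin n × Fin n))
    (h : ∀ z u v, u ≠ v → s(u, v) ∉ Hs G hp → z ∈ opt G hp s(u, v) → (z, u, v) ∈ O) :
    2 * Om G hp ≤ O.card := by
  classical
  have key : ∀ e ∈ prs univ \ Hs G hp, 2 * (opt G hp e).card ≤
      (O.filter (fun t => s(t.2.1, t.2.2) = e)).card := by
    intro e he
    induction e with
    | _ u v =>
      rw [mem_sdiff, mem_prs] at he
      obtain ⟨⟨huv, _, _⟩, hH⟩ := he
      have hH' : s(v, u) ∉ Hs G hp := by rwa [Sym2.eq_swap]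
      have h1 : ((opt G hp s(u, v)) ×ˢ ({(u, v), (v, u)} : Finset (Fin n × Fin n))) ⊆
          O.filter (fun t => s(t.2.1, t.2.2) = s(u, v)) := by
        rintro ⟨z, p⟩ hz
        rw [mem_product] at hz
        obtain ⟨hz1, hz2⟩ := hz
        rw [mem_filter]
        simp only [mem_insert, mem_singleton] at hz2
        rcases hz2 with hz2 | hz2
        · rw [hz2]
          exact ⟨h z u v huv hH hz1, rfl⟩
        · rw [hz2]
          refine ⟨h z v u huv.symm hH' ?_, Sym2.eq_swap⟩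
          rw [Sym2.eq_swap]
          exact hz1
      have h2 := card_le_card h1
      rw [card_product, card_pair] at h2
      · rw [mul_comm]
        exact h2
      · intro h3
        exact huv (Prod.ext_iff.1 h3).1
  have h3 : ∑ e ∈ prs univ \ Hs G hp, (O.filter (fun t => s(t.2.1, t.2.2) = e)).card ≤ O.card := by
    have h4 : (O.filter (fun t => s(t.2.1, t.2.2) ∈ prs univ \ Hs G hp)).card =
        ∑ e ∈ prs univ \ Hs G hp,
          ((O.filter (fun t => s(t.2.1, t.2.2) ∈ prs univ \ Hs G hp)).filter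
            (fun t => s(t.2.1, t.2.2) = e)).card :=
      card_eq_sum_card_fiberwise (fun t ht => (mem_filter.1 ht).2)
    calc ∑ e ∈ prs univ \ Hs G hp, (O.filter (fun t => s(t.2.1, t.2.2) = e)).card
        ≤ ∑ e ∈ prs univ \ Hs G hp,
          ((O.filter (fun t => s(t.2.1, t.2.2) ∈ prs univ \ Hs G hp)).filter
            (fun t => s(t.2.1, t.2.2) = e)).card := by
          refine sum_le_sum fun e he => card_le_card ?_
          intro t ht
          rw [mem_filter] at ht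
          rw [mem_filter, mem_filter]
          refine ⟨⟨ht.1, ?_⟩, ht.2⟩
          rw [ht.2]
          exact he
      _ = (O.filter (fun t => s(t.2.1, t.2.2) ∈ prs univ \ Hs G hp)).card := h4.symm
      _ ≤ O.card := card_le_card (filter_subset _ _)
  unfold Om
  rw [mul_sum]
  exact (sum_le_sum key).trans h3

/-- Blueprint 1.3 (a). -/
theorem omega_a {n : ℕ} (G : Finset (Sym2 (Fin n))) (hG : G ⊆ prs univ)
    (hp : Fin n → Fin n → Option (Fin n)) : 2 * Om G hp ≤ (Hs G hp).card * n := by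
  classical
  set O : Finset (Fin n × Fin n × Fin n) := univ.filter (fun t => s(t.1, t.2.1) ∈ Hs G hp ∧
    s(t.1, t.2.2) ∈ Hs G hp ∧ s(t.2.1, t.2.2) ∉ Hs G hp) with hO
  have hGH : ∀ {x v : Fin n}, s(x, v) ∈ G → s(x, v) ∈ Hs G hp := fun {x v} h =>
    OMEGA_mem_Hs ⟨OMEGA_mem_prs_of_mem hG h, Or.inl h⟩
  have h1 : 2 * Om G hp ≤ O.card := by
    refine OMEGA_two G hp O ?_
    intro z u v _ hH hz
    rw [hO, mem_filter]
    refine ⟨mem_univ _, ?_⟩
    rcases OMEGA_opt hz with ⟨h1, h2⟩ | ⟨h1, h2⟩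
    · exact ⟨hGH h1, OMEGA_mem_Hs h2, hH⟩
    · exact ⟨OMEGA_mem_Hs h2, hGH h1, hH⟩
  have h2 : O.card ≤ (Hs G hp ×ˢ (univ : Finset (Fin n))).card := by
    refine card_le_card_of_injOn (fun t => (s(t.1, t.2.1), t.2.2)) ?_ ?_
    · intro t ht
      have := (mem_filter.1 ht).2
      exact mem_coe.2 (mem_product.2 ⟨this.1, mem_univ _⟩)
    · rintro ⟨z, u, v⟩ ht ⟨z', u', v'⟩ ht' heq
      have a1 := (mem_filter.1 (mem_coe.1 ht)).2
      have a2 := (mem_filter.1 (mem_coe.1 ht')).2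
      simp only at a1 a2
      simp only [Prod.mk.injEq] at heq
      obtain ⟨b1, b2⟩ := heq
      subst b2
      rcases Sym2.eq_iff.1 b1 with ⟨rfl, rfl⟩ | ⟨rfl, rfl⟩
      · rfl
      · exact absurd a2.2.1 a1.2.2
  rw [card_product, card_univ, Fintype.card_fin] at h2
  exact h1.trans h2

/-- Blueprint 1.3 (b). -/
theorem omega_b {n : ℕ} (G : Finset (Sym2 (Fin n))) (hG : G ⊆ prs univ)
    (hp : Fin n → Fin n → Option (Fin n)) :
    2 * (Om G hp : ℝ) ≤ ∑ x, (2 * (fx G hp x : ℝ) * dgr G x - (dgr G x : ℝ) ^ 2) := by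
  classical
  set N : Fin n → Finset (Fin n) := fun x => univ.filter (fun y => s(x, y) ∈ G) with hN
  set Wf : Fin n → Finset (Fin n) := fun x => univ.filter (fun v => Wx G hp x v) with hWf
  have hNW : ∀ x, N x ⊆ Wf x := by
    intro x y hy
    rw [hN, mem_filter] at hy
    rw [hWf, mem_filter]
    exact ⟨mem_univ _, OMEGA_mem_prs_of_mem hG hy.2, Or.inl hy.2⟩
  set Sx : Fin n → Finset (Fin n × Fin n) := fun x =>
    (Wf x ×ˢ Wf x) \ ((Wf x \ N x) ×ˢ (Wf x \ N x)) with hSx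
  set O : Finset (Fin n × Fin n × Fin n) := univ.filter (fun t => t.2 ∈ Sx t.1) with hO
  have h1 : 2 * Om G hp ≤ O.card := by
    refine OMEGA_two G hp O ?_
    intro z u v _ _ hz
    rw [hO, mem_filter]
    refine ⟨mem_univ _, ?_⟩
    change (u, v) ∈ Sx z
    rw [hSx]
    simp only [mem_sdiff, mem_product, not_and, not_not]
    have m1 : ∀ {y}, s(z, y) ∈ G → y ∈ N z := fun {y} h => mem_filter.2 ⟨mem_univ _, h⟩
    have m2 : ∀ {y}, Wx G hp z y → y ∈ Wf z := fun {y} h => mem_filter.2 ⟨mem_univ _, h⟩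
    rcases OMEGA_opt hz with ⟨h1, h2⟩ | ⟨h1, h2⟩
    · refine ⟨⟨hNW z (m1 h1), m2 h2⟩, ?_⟩
      intro h3
      exact absurd (m1 h1) h3.2
    · refine ⟨⟨m2 h2, hNW z (m1 h1)⟩, ?_⟩
      intro _ _
      exact m1 h1
  have h2 : O.card = ∑ x, (Sx x).card := by
    have h3 : O = ((univ : Finset (Fin n)).sigma Sx).map ⟨fun t => (t.1, t.2), by
        rintro ⟨a, b⟩ ⟨c, d⟩ h
        simp only [Prod.mk.injEq] at h
        obtain ⟨rfl, rfl⟩ := h
        rfl⟩ := by
      ext ⟨a, b⟩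
      simp only [hO, mem_filter, mem_univ, true_and, mem_map, mem_sigma,
        Function.Embedding.coeFn_mk, Prod.mk.injEq, Sigma.exists]
      constructor
      · intro h
        exact ⟨a, b, h, rfl, rfl⟩
      · rintro ⟨c, d, h, rfl, rfl⟩
        exact h
    rw [h3, card_map, card_sigma]
  have h3 : ∀ x, ((Sx x).card : ℝ) =
      2 * (fx G hp x : ℝ) * dgr G x - (dgr G x : ℝ) ^ 2 := by
    intro x
    have e1 : (Wf x).card = fx G hp x := by
      rw [hWf, fx]
    have e2 : (N x).card = dgr G x := by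
      rw [hN, dgr]
    have h4 : (Wf x \ N x).card = (Wf x).card - (N x).card :=
      card_sdiff_of_subset (hNW x)
    have h5 : (N x).card ≤ (Wf x).card := card_le_card (hNW x)
    have h6 : (Sx x).card = (Wf x).card * (Wf x).card -
        ((Wf x).card - (N x).card) * ((Wf x).card - (N x).card) := by
      rw [hSx]
      simp only
      rw [card_sdiff_of_subset (product_subset_product sdiff_subset sdiff_subset), card_product,
        card_product, h4]
    have h7 : ((Wf x).card - (N x).card) * ((Wf x).card - (N x).card) ≤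
        (Wf x).card * (Wf x).card := Nat.mul_le_mul (Nat.sub_le _ _) (Nat.sub_le _ _)
    rw [h6, Nat.cast_sub h7, Nat.cast_mul, Nat.cast_mul, Nat.cast_sub h5, e1, e2]
    ring
  have h4 : (2 * Om G hp : ℝ) ≤ (O.card : ℝ) := by exact_mod_cast h1
  rw [h2] at h4
  push_cast at h4
  rw [sum_congr rfl (fun x _ => h3 x)] at h4
  exact h4

/-- `G ⊆ H`, `d_x ≤ f_x ≤ D_x` -/
theorem fx_bounds {n : ℕ} (G : Finset (Sym2 (Fin n))) (hG : G ⊆ prs univ)
    (hp : Fin n → Fin n → Option (Fin n)) :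
    G ⊆ Hs G hp ∧ Hs G hp ⊆ prs univ ∧ ∀ x, dgr G x ≤ fx G hp x ∧ fx G hp x ≤ dgr (Hs G hp) x := by
  classical
  refine ⟨?_, ?_, fun x => ⟨?_, ?_⟩⟩
  · intro e he
    induction e with
    | _ u v => exact OMEGA_mem_Hs ⟨OMEGA_mem_prs_of_mem hG he, Or.inl he⟩
  · intro e he
    simp only [Hs, mem_filter, mem_univ, true_and] at he
    obtain ⟨x, v, rfl, h⟩ := he
    exact mem_prs.2 ⟨h.1, mem_univ _, mem_univ _⟩
  · unfold dgr fx
    refine card_le_card fun y hy => ?_
    rw [mem_filter] at hy ⊢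
    exact ⟨mem_univ _, OMEGA_mem_prs_of_mem hG hy.2, Or.inl hy.2⟩
  · unfold dgr fx
    refine card_le_card fun y hy => ?_
    rw [mem_filter] at hy ⊢
    exact ⟨mem_univ _, OMEGA_mem_Hs hy.2⟩

/-- AM-GM for a finite product. -/
theorem prod_le_mean {ι : Type*} (S : Finset ι) (a : ι → ℝ) (ha : ∀ i ∈ S, 0 ≤ a i) :
    ∏ i ∈ S, a i ≤ ((∑ i ∈ S, a i) / S.card) ^ S.card := by
  rcases S.eq_empty_or_nonempty with rfl | hS
  · simp
  · have hc : (0 : ℝ) < S.card := by exact_mod_cast card_pos.2 hS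
    have h1 := Real.geom_mean_le_arith_mean_weighted S (fun _ => (S.card : ℝ)⁻¹) a
      (fun _ _ => by positivity) (by rw [sum_const, nsmul_eq_mul, mul_inv_cancel₀ hc.ne']) ha
    have h2 : 0 ≤ ∏ i ∈ S, a i ^ (S.card : ℝ)⁻¹ :=
      prod_nonneg fun i hi => Real.rpow_nonneg (ha i hi) _
    have h3 := pow_le_pow_left₀ h2 h1 S.card
    rw [← prod_pow] at h3
    have h4 : ∏ i ∈ S, (a i ^ (S.card : ℝ)⁻¹) ^ S.card = ∏ i ∈ S, a i := by
      refine prod_congr rfl fun i hi => ?_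
      rw [← Real.rpow_natCast, ← Real.rpow_mul (ha i hi), inv_mul_cancel₀ hc.ne', Real.rpow_one]
    rw [h4] at h3
    refine h3.trans (le_of_eq ?_)
    congr 1
    rw [← mul_sum, div_eq_inv_mul]

end PSys
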