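import Mathlib
import Pool.Agent.PSys.Spec1

/-! Module STAB1 (blueprint 1.7): deterministic stability. -/

open Finset Filter

namespace PSys

theorem stab1_dgr_le {n : ℕ} (H : Finset (Sym2 (Fin n))) (x : Fin n) : dgr H x ≤ n := by
  classical
  unfold dgr
  exact (card_filter_le _ _).trans (by simp)

theorem stab1_dgr_mono {n : ℕ} {G H : Finset (Sym2 (Fin n))} (h : G ⊆ H) (x : Fin n) :
    dgr G x ≤ dgr H x := by
  classical
  unfold dgr
  exact card_le_card (fun y hy => by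
    simp only [mem_filter, mem_univ, true_and] at hy ⊢
    exact h hy)

/-- the degree is at most the number of pairs of `H` containing `x` -/
theorem stab1_dgr_le_inc {n : ℕ} (H : Finset (Sym2 (Fin n))) (x : Fin n) :
    dgr H x ≤ (H.filter (fun e => x ∈ e)).card := by
  classical
  unfold dgr
  refine card_le_card_of_injOn (fun y => s(x, y)) ?_ ?_
  · intro y hy
    simp only [coe_filter, mem_univ, true_and, Set.mem_ofPred_eq] at hy ⊢
    exact ⟨hy, Sym2.mem_mk_left x y⟩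
  · intro y _ z _ hyz
    exact Sym2.congr_right.1 hyz

theorem stab1_card_mem {n : ℕ} (e : Sym2 (Fin n)) :
    (univ.filter (fun x : Fin n => x ∈ e)).card ≤ 2 := by
  classical
  induction e with
  | _ u v =>
    refine (card_le_card (t := {u, v}) ?_).trans card_le_two
    intro x hx
    simp only [mem_filter, mem_univ, true_and, Sym2.mem_iff] at hx
    simpa using hx

theorem stab1_sum_dgr {n : ℕ} (H : Finset (Sym2 (Fin n))) : ∑ x, dgr H x ≤ 2 * H.card := by
  classical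
  calc ∑ x, dgr H x ≤ ∑ x, (H.filter (fun e => x ∈ e)).card :=
        sum_le_sum (fun x _ => stab1_dgr_le_inc H x)
    _ = ∑ x, ∑ e ∈ H, if x ∈ e then 1 else 0 := by
        refine sum_congr rfl (fun x _ => ?_)
        rw [card_filter]
    _ = ∑ e ∈ H, ∑ x, if x ∈ e then 1 else 0 := sum_comm
    _ = ∑ e ∈ H, (univ.filter (fun x : Fin n => x ∈ e)).card := by
        refine sum_congr rfl (fun e _ => ?_)
        rw [card_filter]
    _ ≤ ∑ _e ∈ H, 2 := sum_le_sum (fun e _ => stab1_card_mem e)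
    _ = 2 * H.card := by rw [sum_const, smul_eq_mul, mul_comm]

theorem stab1_touch {n : ℕ} (H : Finset (Sym2 (Fin n))) (Q : Finset (Fin n)) :
    (inside H Qᶜ).card + ∑ x ∈ Q, dgr H x ≤ H.card + Q.card ^ 2 := by
  classical
  -- pairs (x, y), x in Q, s(x,y) in H
  have h1 : ∀ x, dgr H x = (Q.filter (fun y => s(x, y) ∈ H)).card +
      (Qᶜ.filter (fun y => s(x, y) ∈ H)).card := by
    intro x
    unfold dgr
    have h2 : (univ : Finset (Fin n)).filter (fun y => s(x, y) ∈ H) =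
        Q.filter (fun y => s(x, y) ∈ H) ∪ Qᶜ.filter (fun y => s(x, y) ∈ H) := by
      ext y
      simp only [mem_filter, mem_univ, true_and, mem_union, mem_compl]
      tauto
    have h3 : Disjoint (Q.filter (fun y => s(x, y) ∈ H)) (Qᶜ.filter (fun y => s(x, y) ∈ H)) := by
      rw [Finset.disjoint_left]
      intro y hy hy2
      simp only [mem_filter, mem_compl] at hy hy2
      exact hy2.1 hy.1
    have h4 := card_union_of_disjoint h3
    rw [← h2] at h4
    convert h4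
  have h5 : ∑ x ∈ Q, (Q.filter (fun y => s(x, y) ∈ H)).card ≤ Q.card ^ 2 := by
    calc ∑ x ∈ Q, (Q.filter (fun y => s(x, y) ∈ H)).card ≤ ∑ _x ∈ Q, Q.card :=
          sum_le_sum (fun x _ => card_filter_le _ _)
      _ = Q.card ^ 2 := by rw [sum_const, smul_eq_mul, sq]
  have h6 : (inside H Qᶜ).card + ∑ x ∈ Q, (Qᶜ.filter (fun y => s(x, y) ∈ H)).card ≤ H.card := by
    have h7 : ∑ x ∈ Q, (Qᶜ.filter (fun y => s(x, y) ∈ H)).card =
        ((Q ×ˢ Qᶜ).filter (fun p => s(p.1, p.2) ∈ H)).card := by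
      rw [card_filter, sum_product]
      refine sum_congr rfl (fun x _ => ?_)
      rw [card_filter]
    have h8 : ((Q ×ˢ Qᶜ).filter (fun p => s(p.1, p.2) ∈ H)).card ≤
        (H.filter (fun e => ¬ ∀ x ∈ e, x ∈ Qᶜ)).card := by
      refine card_le_card_of_injOn (fun p => s(p.1, p.2)) ?_ ?_
      · intro p hp
        simp only [coe_filter, mem_product, Set.mem_ofPred_eq, mem_compl] at hp ⊢
        refine ⟨hp.2, ?_⟩
        intro h9
        exact h9 p.1 (Sym2.mem_mk_left _ _) hp.1.1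
      · intro p hp q hq hpq
        simp only [coe_filter, mem_product, Set.mem_ofPred_eq, mem_compl] at hp hq
        rcases Sym2.eq_iff.1 hpq with ⟨h9, h10⟩ | ⟨h9, h10⟩
        · exact Prod.ext h9 h10
        · exact absurd (h9 ▸ hp.1.1) hq.1.2
    have h9 : (inside H Qᶜ).card + (H.filter (fun e => ¬ ∀ x ∈ e, x ∈ Qᶜ)).card = H.card := by
      unfold inside
      convert Finset.card_filter_add_card_filter_not (s := H) (fun e => ∀ x ∈ e, x ∈ Qᶜ) using 3
    rw [h7]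
    omega
  calc (inside H Qᶜ).card + ∑ x ∈ Q, dgr H x
      = (inside H Qᶜ).card + (∑ x ∈ Q, (Q.filter (fun y => s(x, y) ∈ H)).card +
        ∑ x ∈ Q, (Qᶜ.filter (fun y => s(x, y) ∈ H)).card) := by
        rw [← sum_add_distrib]
        congr 1
        exact sum_congr rfl (fun x _ => h1 x)
    _ ≤ H.card + Q.card ^ 2 := by omega

theorem stab1_inside_mono {n : ℕ} {G H : Finset (Sym2 (Fin n))} (h : G ⊆ H)
    (U : Finset (Fin n)) : (inside G U).card ≤ (inside H U).card := by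
  classical
  unfold inside
  exact card_le_card (filter_subset_filter _ h)

/-- the purely numerical part, for fixed `zeta` -/
theorem stab1_core {n : ℕ} (G H : Finset (Sym2 (Fin n))) (f : Fin n → ℝ) (ζ : ℝ)
    (hζ : 0 < ζ) (hζ1 : ζ ≤ 1 / 10 ^ 12) (hn : 0 < (n : ℝ)) (hlog : 0 < Real.log n)
    (hlogn : 4 / ζ ^ 3 ≤ Real.log n)
    (hGH : G ⊆ H)
    (hf : ∀ x, (dgr G x : ℝ) ≤ f x ∧ f x ≤ dgr H x)
    (hT : |2 * H.card * Real.log n / n ^ 2 - 1| ≤ ζ)
    (hS : (1 - ζ) * (H.card * n) ≤ ∑ x, (2 * f x * dgr G x - (dgr G x : ℝ) ^ 2)) :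
    |((hubs G).card : ℝ) - b0 n| ≤ b0 n / 20000 ∧
      ((inside G (hubs G)ᶜ).card : ℝ) ≤ (10 ^ 8 * ζ) * n * (hubs G).card := by
  classical
  obtain ⟨h, hh⟩ : ∃ h : ℝ, h = (H.card : ℝ) := ⟨_, rfl⟩
  obtain ⟨d, hd⟩ : ∃ d : Fin n → ℝ, ∀ x, d x = (dgr G x : ℝ) := ⟨_, fun _ => rfl⟩
  obtain ⟨D, hD⟩ : ∃ D : Fin n → ℝ, ∀ x, D x = (dgr H x : ℝ) := ⟨_, fun _ => rfl⟩
  rw [← hh] at hT hS
  have hd0 : ∀ x, 0 ≤ d x := fun x => by rw [hd]; positivity
  have hdD : ∀ x, d x ≤ D x := fun x => by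
    rw [hd, hD]; exact_mod_cast stab1_dgr_mono hGH x
  have hDn : ∀ x, D x ≤ n := fun x => by
    rw [hD]; exact_mod_cast stab1_dgr_le H x
  have hD0 : ∀ x, 0 ≤ D x := fun x => (hd0 x).trans (hdD x)
  have hh0 : 0 ≤ h := by rw [hh]; positivity
  -- T
  have hT1 := (abs_le.1 hT).1
  have hT2 := (abs_le.1 hT).2
  have hn2 : 0 < (n : ℝ) ^ 2 := by positivity
  have hb0 : 0 < b0 n := by unfold b0; positivity
  have hhT : h = (2 * h * Real.log n / n ^ 2) * (n * b0 n) := by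
    unfold b0; field_simp
  set T : ℝ := 2 * h * Real.log n / n ^ 2 with hTdef
  have hnb : 0 < n * b0 n := by positivity
  have hhlo : (1 - ζ) * (n * b0 n) ≤ h := by
    rw [hhT]; exact mul_le_mul_of_nonneg_right (by linarith) hnb.le
  have hhhi : h ≤ (1 + ζ) * (n * b0 n) := by
    rw [hhT]; exact mul_le_mul_of_nonneg_right (by linarith) hnb.le
  have hhpos : 0 < h := by
    have : 0 < (1 - ζ) * (n * b0 n) := by
      apply mul_pos _ hnb
      have : (1 : ℝ) / 10 ^ 12 < 1 := by norm_num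
      linarith
    linarith
  -- h log n <= n^2
  have hhn : h * Real.log n ≤ n ^ 2 := by
    have h1 : 2 * h * Real.log n / n ^ 2 ≤ 2 := by
      have : (1 : ℝ) / 10 ^ 12 < 1 := by norm_num
      linarith
    rw [div_le_iff₀ hn2] at h1
    linarith
  -- sum of degrees
  have hsum : ∑ x, D x ≤ 2 * h := by
    have := stab1_sum_dgr H
    rw [hh]
    simp_rw [hD]
    exact_mod_cast this
  -- Q
  set Q : Finset (Fin n) := univ.filter (fun x => ζ * n ≤ D x) with hQ
  set B : Finset (Fin n) := hubs G with hB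
  have hmemB : ∀ x, x ∈ B ↔ (1 - 1 / 1000) * (n : ℝ) ≤ d x := by
    intro x
    rw [hd]
    simp only [hB, hubs, mem_filter, mem_univ, true_and]
  have hmemQ : ∀ x, x ∈ Q ↔ ζ * n ≤ D x := by
    intro x
    simp only [hQ, mem_filter, mem_univ, true_and]
  have hBQ : B ⊆ Q := by
    intro x hx
    rw [hmemB] at hx
    rw [hmemQ]
    have h1 := hdD x
    have h2 : ζ * n ≤ (1 - 1 / 1000) * n := mul_le_mul_of_nonneg_right
      (by have : (1 : ℝ) / 10 ^ 12 < 1 - 1 / 1000 := by norm_num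
          linarith) hn.le
    linarith
  have hQcard : (Q.card : ℝ) * (ζ * n) ≤ 2 * h := by
    calc (Q.card : ℝ) * (ζ * n) = ∑ _x ∈ Q, ζ * n := by rw [sum_const, nsmul_eq_mul]
      _ ≤ ∑ x ∈ Q, D x := sum_le_sum (fun x hx => (hmemQ x).1 hx)
      _ ≤ ∑ x, D x := sum_le_sum_of_subset_of_nonneg (subset_univ _) (fun x _ _ => hD0 x)
      _ ≤ 2 * h := hsum
  have hQ2 : (Q.card : ℝ) ^ 2 ≤ ζ * h := by
    have h1 : ((Q.card : ℝ) * (ζ * n)) ^ 2 ≤ (2 * h) ^ 2 :=
      pow_le_pow_left₀ (mul_nonneg (Nat.cast_nonneg _) (by positivity)) hQcard 2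
    have h2 : (Q.card : ℝ) ^ 2 * (ζ ^ 2 * n ^ 2) ≤ 4 * h * h := by nlinarith [h1]
    -- 4 h <= zeta^3 n^2
    have h3 : 4 ≤ ζ ^ 3 * Real.log n := by
      rw [div_le_iff₀ (by positivity)] at hlogn
      linarith
    have h4 : 4 * h ≤ ζ ^ 3 * n ^ 2 := by
      calc 4 * h ≤ (ζ ^ 3 * Real.log n) * h := mul_le_mul_of_nonneg_right h3 hh0
        _ = ζ ^ 3 * (h * Real.log n) := by ring
        _ ≤ ζ ^ 3 * n ^ 2 := mul_le_mul_of_nonneg_left hhn (by positivity)
    have h5 : (Q.card : ℝ) ^ 2 * (ζ ^ 2 * n ^ 2) ≤ (ζ * h) * (ζ ^ 2 * n ^ 2) := by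
      calc (Q.card : ℝ) ^ 2 * (ζ ^ 2 * n ^ 2) ≤ 4 * h * h := h2
        _ ≤ (ζ ^ 3 * n ^ 2) * h := mul_le_mul_of_nonneg_right h4 hh0
        _ = (ζ * h) * (ζ ^ 2 * n ^ 2) := by ring
    exact le_of_mul_le_mul_right h5 (by positivity)
  have hB2 : (B.card : ℝ) ^ 2 ≤ ζ * h := by
    have h1 : (B.card : ℝ) ≤ Q.card := by exact_mod_cast card_le_card hBQ
    exact (pow_le_pow_left₀ (Nat.cast_nonneg _) h1 2).trans hQ2
  -- the sum over Q
  have hQsum : ∑ x ∈ Q, D x ≤ (1 + ζ) * h := by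
    have h1 := stab1_touch H Q
    have h2 : ((inside H Qᶜ).card : ℝ) + ∑ x ∈ Q, D x ≤ h + (Q.card : ℝ) ^ 2 := by
      rw [hh]
      simp_rw [hD]
      exact_mod_cast h1
    have h3 : (0 : ℝ) ≤ ((inside H Qᶜ).card : ℝ) := Nat.cast_nonneg _
    linarith
  have hSD : (1 - ζ) * (h * n) ≤ ∑ x, (2 * D x * d x - d x ^ 2) := by
    refine hS.trans (sum_le_sum (fun x _ => ?_))
    have h1 := (hf x).2
    have h2 := hd0 x
    rw [← hD] at h1
    rw [← hd]
    have h3 := mul_le_mul_of_nonneg_right h1 h2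
    linarith
  have hSQ : (1 - 3 * ζ) * (h * n) ≤ ∑ x ∈ Q, (2 * D x * d x - d x ^ 2) := by
    have h1 : ∑ x, (2 * D x * d x - d x ^ 2) = ∑ x ∈ Q, (2 * D x * d x - d x ^ 2) +
        ∑ x ∈ Qᶜ, (2 * D x * d x - d x ^ 2) := (sum_add_sum_compl Q _).symm
    have h2 : ∑ x ∈ Qᶜ, (2 * D x * d x - d x ^ 2) ≤ 2 * ζ * (h * n) := by
      calc ∑ x ∈ Qᶜ, (2 * D x * d x - d x ^ 2) ≤ ∑ x ∈ Qᶜ, (ζ * n) * D x := by
            refine sum_le_sum (fun x hx => ?_)
            rw [mem_compl, hmemQ, not_le] at hx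
            have h3 := hD0 x
            nlinarith [sq_nonneg (D x - d x), mul_le_mul_of_nonneg_right hx.le h3]
        _ = (ζ * n) * ∑ x ∈ Qᶜ, D x := by rw [mul_sum]
        _ ≤ (ζ * n) * ∑ x, D x := mul_le_mul_of_nonneg_left
            (sum_le_sum_of_subset_of_nonneg (subset_univ _) (fun x _ _ => hD0 x)) (by positivity)
        _ ≤ (ζ * n) * (2 * h) := mul_le_mul_of_nonneg_left hsum (by positivity)
        _ = 2 * ζ * (h * n) := by ring
    linarith
  -- defects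
  obtain ⟨g, hg⟩ : ∃ g : Fin n → ℝ, ∀ x, g x = D x * (n - D x) + (D x - d x) ^ 2 :=
    ⟨_, fun _ => rfl⟩
  have hg0 : ∀ x, 0 ≤ g x := fun x => by
    have h1 := hDn x
    have h2 := hD0 x
    have h3 : 0 ≤ D x * (n - D x) := mul_nonneg h2 (by linarith)
    rw [hg]
    positivity
  have hgQ : ∑ x ∈ Q, g x ≤ 4 * ζ * (h * n) := by
    have h1 : ∑ x ∈ Q, g x = n * ∑ x ∈ Q, D x - ∑ x ∈ Q, (2 * D x * d x - d x ^ 2) := by
      rw [mul_sum, ← sum_sub_distrib]
      refine sum_congr rfl (fun x _ => ?_)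
      rw [hg]; ring
    have h2 : n * ∑ x ∈ Q, D x ≤ n * ((1 + ζ) * h) := mul_le_mul_of_nonneg_left hQsum hn.le
    rw [h1]
    linarith
  -- lower bound for the sum over Q
  have hQlow : (1 - 3 * ζ) * h ≤ ∑ x ∈ Q, D x := by
    have h1 : ∑ x ∈ Q, (2 * D x * d x - d x ^ 2) ≤ n * ∑ x ∈ Q, D x := by
      rw [mul_sum]
      refine sum_le_sum (fun x _ => ?_)
      nlinarith [sq_nonneg (D x - d x), mul_nonneg (hD0 x) (sub_nonneg.2 (hDn x))]
    have h2 : n * ((1 - 3 * ζ) * h) ≤ n * ∑ x ∈ Q, D x := by linarith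
    exact le_of_mul_le_mul_left h2 hn
  -- Q \ B
  have hQB : ∑ x ∈ Q \ B, D x ≤ 16 * 10 ^ 6 * ζ * h := by
    have h1 : ∑ x ∈ Q \ B, (1 / (4 * 10 ^ 6)) * (n * D x) ≤ ∑ x ∈ Q, g x := by
      calc ∑ x ∈ Q \ B, (1 / (4 * 10 ^ 6)) * (n * D x) ≤ ∑ x ∈ Q \ B, g x := by
            refine sum_le_sum (fun x hx => ?_)
            rw [Finset.mem_sdiff, hmemB, not_le] at hx
            have h2 := hx.2
            have h3 := hDn x
            have h4 := hD0 x
            by_cases h5 : D x ≤ (1 - 1 / 2000) * n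
            · have h6 : (1 / 2000 : ℝ) * n * D x ≤ D x * (n - D x) := by
                have : (1 / 2000 : ℝ) * n ≤ n - D x := by linarith
                nlinarith [mul_le_mul_of_nonneg_right this h4]
              have h7 : 0 ≤ (D x - d x) ^ 2 := sq_nonneg _
              have h8 : 0 ≤ n * D x := by positivity
              rw [hg]
              nlinarith
            · rw [not_le] at h5
              have h6 : (1 / 2000 : ℝ) * n ≤ D x - d x := by linarith
              have h7 : ((1 / 2000 : ℝ) * n) ^ 2 ≤ (D x - d x) ^ 2 :=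
                pow_le_pow_left₀ (by positivity) h6 2
              have h8 : (n : ℝ) * D x ≤ n * n := mul_le_mul_of_nonneg_left h3 hn.le
              have h9 : 0 ≤ D x * (n - D x) := mul_nonneg h4 (by linarith)
              rw [hg]
              nlinarith
        _ ≤ ∑ x ∈ Q, g x := sum_le_sum_of_subset_of_nonneg sdiff_subset (fun x _ _ => hg0 x)
    have h2 : (1 / (4 * 10 ^ 6)) * (n * ∑ x ∈ Q \ B, D x) ≤ 4 * ζ * (h * n) := by
      rw [mul_sum, mul_sum]
      exact h1.trans hgQ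
    have h3 : n * ∑ x ∈ Q \ B, D x ≤ n * (16 * 10 ^ 6 * ζ * h) := by
      nlinarith
    exact le_of_mul_le_mul_left h3 hn
  have hsplit : ∑ x ∈ Q \ B, D x + ∑ x ∈ B, D x = ∑ x ∈ Q, D x := sum_sdiff hBQ
  have hBlow : (1 - 2 * 10 ^ 7 * ζ) * h ≤ ∑ x ∈ B, D x := by
    have h1 : 0 ≤ ζ * h := by positivity
    nlinarith
  have hnB1 : ∑ x ∈ B, D x ≤ n * B.card := by
    calc ∑ x ∈ B, D x ≤ ∑ _x ∈ B, (n : ℝ) := sum_le_sum (fun x _ => hDn x)
      _ = n * B.card := by rw [sum_const, nsmul_eq_mul, mul_comm]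
  have hBdef : ∑ x ∈ B, (n - D x) ≤ 8 * ζ * h := by
    have h1 : ∑ x ∈ B, (1 / 2) * (n * (n - D x)) ≤ ∑ x ∈ Q, g x := by
      calc ∑ x ∈ B, (1 / 2) * (n * (n - D x)) ≤ ∑ x ∈ B, g x := by
            refine sum_le_sum (fun x hx => ?_)
            rw [hmemB] at hx
            have h2 := hdD x
            have h3 := hDn x
            have h4 : (1 / 2 : ℝ) * n ≤ D x := by linarith
            have h5 : 0 ≤ (n : ℝ) - D x := by linarith
            have h6 : 0 ≤ (D x - d x) ^ 2 := sq_nonneg _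
            rw [hg]
            nlinarith [mul_le_mul_of_nonneg_right h4 h5]
        _ ≤ ∑ x ∈ Q, g x := sum_le_sum_of_subset_of_nonneg hBQ (fun x _ _ => hg0 x)
    have h2 : (1 / 2) * (n * ∑ x ∈ B, (n - D x)) ≤ 4 * ζ * (h * n) := by
      rw [mul_sum, mul_sum]
      exact h1.trans hgQ
    have h3 : n * ∑ x ∈ B, (n - D x) ≤ n * (8 * ζ * h) := by nlinarith
    exact le_of_mul_le_mul_left h3 hn
  have hnB2 : n * B.card ≤ (1 + 9 * ζ) * h := by
    have h1 : ∑ x ∈ B, ((n : ℝ) - D x) = n * B.card - ∑ x ∈ B, D x := by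
      rw [sum_sub_distrib, sum_const, nsmul_eq_mul, mul_comm]
    have h2 : ∑ x ∈ B, D x ≤ ∑ x ∈ Q, D x :=
      sum_le_sum_of_subset_of_nonneg hBQ (fun x _ _ => hD0 x)
    rw [h1] at hBdef
    nlinarith
  have hζs : 2 * 10 ^ 7 * ζ ≤ 1 / 50000 := by
    calc 2 * 10 ^ 7 * ζ ≤ 2 * 10 ^ 7 * (1 / 10 ^ 12) := by gcongr
      _ ≤ 1 / 50000 := by norm_num
  constructor
  · rw [abs_le]
    constructor
    · -- lower bound
      have h1 : (1 - 1 / 50000) * ((1 - 1 / 10 ^ 12) * (n * b0 n)) ≤ n * B.card := by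
        calc (1 - 1 / 50000) * ((1 - 1 / 10 ^ 12) * (n * b0 n))
            ≤ (1 - 2 * 10 ^ 7 * ζ) * ((1 - ζ) * (n * b0 n)) := by
              apply mul_le_mul
              · linarith
              · apply mul_le_mul_of_nonneg_right _ hnb.le
                linarith
              · positivity
              · linarith
          _ ≤ (1 - 2 * 10 ^ 7 * ζ) * h := by
              apply mul_le_mul_of_nonneg_left hhlo
              linarith
          _ ≤ n * B.card := by linarith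
      have h2 : n * ((1 - 1 / 20000) * b0 n) ≤ n * B.card := by
        nlinarith
      have h3 := le_of_mul_le_mul_left h2 hn
      linarith
    · have h1 : n * B.card ≤ (1 + 9 / 10 ^ 12) * ((1 + 1 / 10 ^ 12) * (n * b0 n)) := by
        calc n * B.card ≤ (1 + 9 * ζ) * h := hnB2
          _ ≤ (1 + 9 * ζ) * ((1 + ζ) * (n * b0 n)) := by
              apply mul_le_mul_of_nonneg_left hhhi
              positivity
          _ ≤ (1 + 9 * (1 / 10 ^ 12)) * ((1 + 1 / 10 ^ 12) * (n * b0 n)) := by gcongr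
          _ = (1 + 9 / 10 ^ 12) * ((1 + 1 / 10 ^ 12) * (n * b0 n)) := by ring
      have h2 : n * B.card ≤ n * ((1 + 1 / 20000) * b0 n) := by nlinarith
      have h3 := le_of_mul_le_mul_left h2 hn
      linarith
  · -- inside
    have h1 := stab1_touch H B
    have h2 : ((inside H Bᶜ).card : ℝ) + ∑ x ∈ B, D x ≤ h + (B.card : ℝ) ^ 2 := by
      rw [hh]
      simp_rw [hD]
      exact_mod_cast h1
    have h3 : ((inside G Bᶜ).card : ℝ) ≤ (inside H Bᶜ).card := by
      exact_mod_cast stab1_inside_mono hGH Bᶜ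
    have h4 : ((inside G Bᶜ).card : ℝ) ≤ (3 * 10 ^ 7 * ζ) * h := by nlinarith
    have h5 : h ≤ 2 * (n * B.card) := by
      have : (1 / 2) * h ≤ n * B.card := by
        calc (1 / 2) * h ≤ (1 - 2 * 10 ^ 7 * ζ) * h := by
              apply mul_le_mul_of_nonneg_right _ hh0
              linarith
          _ ≤ n * B.card := by linarith
      linarith
    calc ((inside G Bᶜ).card : ℝ) ≤ (3 * 10 ^ 7 * ζ) * h := h4
      _ ≤ (3 * 10 ^ 7 * ζ) * (2 * (n * B.card)) := by gcongr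
      _ ≤ (10 ^ 8 * ζ) * n * B.card := by
          have : 0 ≤ ζ * (n * B.card) :=
            mul_nonneg hζ.le (mul_nonneg hn.le (Nat.cast_nonneg _))
          nlinarith

/-- Blueprint 1.7 with `delta = 1/1000`, `delta1 = 1/20000`, `eps' = epsP`. -/
theorem stab1 : ∃ ε : ℝ, 0 < ε ∧ ε ≤ 1 ∧ ∀ᶠ n : ℕ in atTop,
    ∀ (G H : Finset (Sym2 (Fin n))) (f : Fin n → ℝ), G ⊆ H → H ⊆ prs univ →
    (∀ x, (dgr G x : ℝ) ≤ f x ∧ f x ≤ dgr H x) →
    |2 * H.card * Real.log n / n ^ 2 - 1| ≤ ε →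
    (1 - ε) * (H.card * n) ≤ ∑ x, (2 * f x * dgr G x - (dgr G x : ℝ) ^ 2) →
    CS1 G := by
  have he : 0 < epsP := Real.exp_pos _
  have he1 : epsP ≤ 1 := by
    unfold epsP
    rw [Real.exp_le_one_iff]
    norm_num
  refine ⟨epsP / 10 ^ 12, by positivity, ?_, ?_⟩
  · rw [div_le_one (by positivity)]
    exact he1.trans (by norm_num)
  have h1 : ∀ᶠ n : ℕ in atTop, max 1 (4 / (epsP / 10 ^ 12) ^ 3) ≤ Real.log n :=
    (Real.tendsto_log_atTop.comp tendsto_natCast_atTop_atTop).eventually_ge_atTop _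
  filter_upwards [h1, eventually_ge_atTop 1] with n hn hn1
  intro G H f hGH _ hf hT hS
  have hn0 : 0 < (n : ℝ) := by exact_mod_cast hn1
  have hl1 : (1 : ℝ) ≤ Real.log n := (le_max_left _ _).trans hn
  have hz : epsP / 10 ^ 12 ≤ 1 / 10 ^ 12 := by gcongr
  obtain ⟨h2, h3⟩ := stab1_core G H f (epsP / 10 ^ 12) (by positivity) hz hn0 (by linarith)
    ((le_max_right _ _).trans hn) hGH hf hT hS
  refine ⟨h2, h3.trans ?_⟩
  have h4 : (10 ^ 8 * (epsP / 10 ^ 12) : ℝ) ≤ epsP := by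
    have : (10 ^ 8 * (epsP / 10 ^ 12) : ℝ) = epsP / 10 ^ 4 := by ring
    rw [this]
    apply div_le_self he.le
    norm_num
  gcongr

end PSys
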