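import Mathlib
import Pool.Agent.PSys.Spec1
import Pool.Agent.PSys.CntJ
import Pool.Agent.PSys.CntJs
import Pool.Agent.PSys.Omega
import Pool.Agent.PSys.Calc1
import Pool.Agent.PSys.Stab1
import Pool.Agent.PSys.Lowb
import Pool.Agent.PSys.Num1

/-! Stage 1 assembled. -/

open Finset Filter

namespace PSys

theorem fG_sub_prs {n : ℕ} {U : Finset (Fin n)} {Q : Sys n} (hQ : IsFam U Q) : fG Q ⊆ prs U := by
  intro e
  induction e with
  | _ u v =>
    intro h
    have h1 := (mem_fG hQ).1 h
    have h2 : Q u v ≠ [] := IsFam.dir_ne h1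
    exact mem_prs.2 ⟨h1.1, hQ.left_mem h2, hQ.right_mem h2⟩

open Classical in
/-- number of systems with given `h` and sum of options -/
theorem count_class {n : ℕ} (h om : ℕ) (hτ : 1 ≤ tau n) (hk : n / tau n ≤ kk n)
    (hρ : 0 < rho1 n) :
    (((cps n).filter (fun P => (Hs (fG P) (hpf P (tau n))).card = h ∧
        Om (fG P) (hpf P (tau n)) = om)).card : ℝ) ≤
    (((n.choose 2).choose h * 2 ^ h * (n + 1) ^ (n * kk n) * (1 + kk n) ^ (2 * h) : ℕ) : ℝ) *
      (1 + rho1 n) ^ (n * n * tau n) *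
      (((om : ℝ) + ((n.choose 2 - h : ℕ) : ℝ) / rho1 n) / ((n.choose 2 - h : ℕ) : ℝ)) ^
        (n.choose 2 - h) := by
  set S := (cps n).filter (fun P => (Hs (fG P) (hpf P (tau n))).card = h ∧
        Om (fG P) (hpf P (tau n)) = om) with hS
  set S0 := (cps n).filter (fun P => (Hs (fG P) (hpf P (tau n))).card = h) with hS0
  set J : Sys n → Finset (Sym2 (Fin n)) × (Fin n → Fin n → Option (Fin n)) :=
    fun P => (fG P, hpf P (tau n)) with hJ
  have hSS : S ⊆ S0 := by
    intro P hP
    rw [hS, mem_filter] at hP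
    exact mem_filter.2 ⟨hP.1, hP.2.1⟩
  have h1 : (S.card : ℝ) ≤ ∑ j ∈ S.image J, ((S.filter (fun P => J P = j)).card : ℝ) := by
    have := card_eq_sum_card_image J S
    rw [this]
    push_cast
    exact le_refl _
  have h2 : ∀ j ∈ S.image J, ((S.filter (fun P => J P = j)).card : ℝ) ≤
      (1 + rho1 n) ^ (n * n * tau n) *
      (((om : ℝ) + ((n.choose 2 - h : ℕ) : ℝ) / rho1 n) / ((n.choose 2 - h : ℕ) : ℝ)) ^
        (n.choose 2 - h) := by
    intro j hj
    obtain ⟨P, hP, rfl⟩ := mem_image.1 hj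
    rw [hS, mem_filter] at hP
    obtain ⟨hP0, hP1, hP2⟩ := hP
    have hsub : (S.filter (fun P' => J P' = J P)) ⊆
        (cps n).filter (fun P' => fG P' = fG P ∧ hpf P' (tau n) = hpf P (tau n)) := by
      intro P' hP'
      rw [mem_filter, hS, mem_filter] at hP'
      have h5 := hP'.2
      simp only [hJ, Prod.mk.injEq] at h5
      exact mem_filter.2 ⟨hP'.1.1, h5⟩
    have h3 : ((S.filter (fun P' => J P' = J P)).card : ℝ) ≤
        (((cps n).filter (fun P' => fG P' = fG P ∧ hpf P' (tau n) = hpf P (tau n))).card : ℝ) := by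
      exact_mod_cast card_le_card hsub
    have h4 := count_J (n := n) (tau n) (rho1 n) hρ (fG P) (hpf P (tau n))
    have hGs : fG P ⊆ prs univ := fG_sub_prs (mem_cps.1 hP0).fam
    have hb := fx_bounds (fG P) hGs (hpf P (tau n))
    have hcard : (prs univ \ Hs (fG P) (hpf P (tau n))).card = n.choose 2 - h := by
      rw [card_sdiff_of_subset hb.2.1, card_prs, hP1]
      simp
    have h5 := prod_le_mean (prs univ \ Hs (fG P) (hpf P (tau n)))
      (fun e => (((opt (fG P) (hpf P (tau n)) e).card : ℝ) + 1 / rho1 n)) (by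
        intro i _; positivity)
    have hsum : ∑ e ∈ prs univ \ Hs (fG P) (hpf P (tau n)),
        (((opt (fG P) (hpf P (tau n)) e).card : ℝ) + 1 / rho1 n) =
        (om : ℝ) + ((n.choose 2 - h : ℕ) : ℝ) / rho1 n := by
      rw [sum_add_distrib, sum_const, hcard, nsmul_eq_mul]
      have : (∑ e ∈ prs univ \ Hs (fG P) (hpf P (tau n)),
        ((opt (fG P) (hpf P (tau n)) e).card : ℝ)) = (om : ℝ) := by
        rw [← hP2]
        unfold Om
        push_cast
        rfl
      rw [this]
      ring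
    rw [hsum, hcard] at h5
    calc ((S.filter (fun P' => J P' = J P)).card : ℝ) ≤ _ := h3
      _ ≤ _ := h4
      _ ≤ _ := by
        apply mul_le_mul_of_nonneg_left h5
        positivity
  have h6 : (S.image J).card ≤
      (n.choose 2).choose h * 2 ^ h * (n + 1) ^ (n * kk n) * (1 + kk n) ^ (2 * h) :=
    (card_le_card (image_subset_image hSS)).trans (count_Js (tau n) (kk n) h hτ hk)
  calc (S.card : ℝ) ≤ _ := h1
    _ ≤ ∑ j ∈ S.image J, ((1 + rho1 n) ^ (n * n * tau n) *
      (((om : ℝ) + ((n.choose 2 - h : ℕ) : ℝ) / rho1 n) / ((n.choose 2 - h : ℕ) : ℝ)) ^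
        (n.choose 2 - h)) := sum_le_sum h2
    _ = (S.image J).card * ((1 + rho1 n) ^ (n * n * tau n) *
      (((om : ℝ) + ((n.choose 2 - h : ℕ) : ℝ) / rho1 n) / ((n.choose 2 - h : ℕ) : ℝ)) ^
        (n.choose 2 - h)) := by rw [sum_const, nsmul_eq_mul]
    _ ≤ _ := by
      have h7 : ((S.image J).card : ℝ) ≤ (((n.choose 2).choose h * 2 ^ h * (n + 1) ^ (n * kk n) *
          (1 + kk n) ^ (2 * h) : ℕ) : ℝ) := by exact_mod_cast h6
      have h8 := mul_le_mul_of_nonneg_right h7 (show (0 : ℝ) ≤ (1 + rho1 n) ^ (n * n * tau n) *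
        (((om : ℝ) + ((n.choose 2 - h : ℕ) : ℝ) / rho1 n) / ((n.choose 2 - h : ℕ) : ℝ)) ^
        (n.choose 2 - h) by positivity)
      refine h8.trans (le_of_eq ?_)
      ring

open Classical in
/-- Theorem 1 of the blueprint (part 1). -/
theorem st1 : ∀ᶠ n : ℕ in atTop,
    (((cps n).filter (fun P => ¬ CS1 (fG P))).card : ℝ) ≤ Real.exp (-(n : ℝ)) * (cps n).card := by
  obtain ⟨ε, hε, hε1, hstab⟩ := stab1
  obtain ⟨c, hc, hcalc⟩ := calc1 ε hε hε1
  filter_upwards [hstab, hcalc, params_ok, num1 c hc, lowb] with n hst hca hpar hnum hlow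
  obtain ⟨hτ, hk, hρ⟩ := hpar
  set S := (cps n).filter (fun P => ¬ CS1 (fG P)) with hS
  set I : Finset (ℕ × ℕ) := range (n.choose 2 + 1) ×ˢ range (n.choose 2 * n + 1) with hI
  set φ : Sys n → ℕ × ℕ := fun P =>
    ((Hs (fG P) (hpf P (tau n))).card, Om (fG P) (hpf P (tau n))) with hφ
  have hcardI : (I.card : ℝ) =
      ((n.choose 2 + 1 : ℕ) : ℝ) * ((n.choose 2 * n + 1 : ℕ) : ℝ) := by
    rw [hI, card_product, card_range, card_range]
    push_cast
    ring
  have hmaps : ∀ P ∈ S, φ P ∈ I ∧ ((S.filter (fun P' => φ P' = φ P)).card : ℝ) ≤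
      Real.exp (Target n - c * n ^ 2) := by
    intro P hP
    rw [hS, mem_filter] at hP
    obtain ⟨hP0, hP1⟩ := hP
    have hcps := mem_cps.1 hP0
    have hGs : fG P ⊆ prs univ := fG_sub_prs hcps.fam
    have hb := fx_bounds (fG P) hGs (hpf P (tau n))
    have hoa := omega_a (fG P) hGs (hpf P (tau n))
    have hob := omega_b (fG P) hGs (hpf P (tau n))
    have hh : (Hs (fG P) (hpf P (tau n))).card ≤ n.choose 2 := by
      have := card_le_card hb.2.1
      rw [card_prs] at this
      simpa using this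
    have hOm : Om (fG P) (hpf P (tau n)) ≤ n.choose 2 * n := by
      have : (Hs (fG P) (hpf P (tau n))).card * n ≤ n.choose 2 * n :=
        Nat.mul_le_mul_right n hh
      omega
    refine ⟨?_, ?_⟩
    · rw [hI, mem_product, mem_range, mem_range]
      exact ⟨by simp only [hφ]; omega, by simp only [hφ]; omega⟩
    · have hle : ((S.filter (fun P' => φ P' = φ P)).card : ℝ) ≤
          (((cps n).filter (fun P' => (Hs (fG P') (hpf P' (tau n))).card = (φ P).1 ∧
            Om (fG P') (hpf P' (tau n)) = (φ P).2)).card : ℝ) := by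
        have : (S.filter (fun P' => φ P' = φ P)) ⊆
            (cps n).filter (fun P' => (Hs (fG P') (hpf P' (tau n))).card = (φ P).1 ∧
            Om (fG P') (hpf P' (tau n)) = (φ P).2) := by
          intro P' hP'
          rw [mem_filter, hS, mem_filter] at hP'
          refine mem_filter.2 ⟨hP'.1.1, ?_⟩
          have h5 := hP'.2
          rw [← h5]
          exact ⟨rfl, rfl⟩
        exact_mod_cast card_le_card this
      refine hle.trans ((count_class _ _ hτ hk hρ).trans ?_)
      apply hca _ hh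
      · positivity
      · have : (2 : ℝ) * (Om (fG P) (hpf P (tau n)) : ℝ) ≤
            ((Hs (fG P) (hpf P (tau n))).card : ℝ) * n := by exact_mod_cast hoa
        simp only [hφ]
        linarith
      · rintro ⟨h7, h8⟩
        apply hP1
        apply hst (fG P) (Hs (fG P) (hpf P (tau n))) (fun x => (fx (fG P) (hpf P (tau n)) x : ℝ))
          hb.1 hb.2.1
        · intro x
          exact ⟨by exact_mod_cast (hb.2.2 x).1, by exact_mod_cast (hb.2.2 x).2⟩
        · exact h7
        · have : (1 - ε) * ((((Hs (fG P) (hpf P (tau n))).card : ℝ) * n) / 2) ≤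
              (Om (fG P) (hpf P (tau n)) : ℝ) := h8
          have h9 : (1 - ε) * (((Hs (fG P) (hpf P (tau n))).card : ℝ) * n) ≤
              2 * (Om (fG P) (hpf P (tau n)) : ℝ) := by linarith
          exact h9.trans hob
  have h1 : (S.card : ℝ) = ∑ j ∈ S.image φ, ((S.filter (fun P => φ P = j)).card : ℝ) := by
    have := card_eq_sum_card_image φ S
    rw [this]
    push_cast
    rfl
  have h2 : (S.card : ℝ) ≤ (I.card : ℝ) * Real.exp (Target n - c * n ^ 2) := by
    rw [h1]
    calc ∑ j ∈ S.image φ, ((S.filter (fun P => φ P = j)).card : ℝ)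
        ≤ ∑ j ∈ S.image φ, Real.exp (Target n - c * n ^ 2) := by
          apply sum_le_sum
          intro j hj
          obtain ⟨P, hP, rfl⟩ := mem_image.1 hj
          exact (hmaps P hP).2
      _ = (S.image φ).card * Real.exp (Target n - c * n ^ 2) := by
          rw [sum_const, nsmul_eq_mul]
      _ ≤ _ := by
          apply mul_le_mul_of_nonneg_right _ (Real.exp_pos _).le
          have : S.image φ ⊆ I := by
            intro j hj
            obtain ⟨P, hP, rfl⟩ := mem_image.1 hj
            exact (hmaps P hP).1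
          exact_mod_cast card_le_card this
  rw [hcardI] at h2
  calc (S.card : ℝ) ≤ _ := h2
    _ ≤ _ := hnum
    _ ≤ _ := by
      apply mul_le_mul_of_nonneg_left hlow (Real.exp_pos _).le

end PSys
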