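import Mathlib
import Pool.Agent.PSys.Spec
import Pool.Agent.PSys.GoodB

/-! Module NUM2: numerical facts for Stage 2. -/

open Finset Filter

namespace PSys

theorem NUM2_pow (c a b : ℝ) (hab : a < b) :
    ∀ᶠ n : ℕ in atTop, c * (n : ℝ) ^ a ≤ (n : ℝ) ^ b := by
  have h1 : Tendsto (fun n : ℕ => (n : ℝ) ^ (b - a)) atTop atTop :=
    (tendsto_rpow_atTop (by linarith)).comp tendsto_natCast_atTop_atTop
  filter_upwards [h1.eventually_ge_atTop c, eventually_ge_atTop 1] with n hn hn1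
  have h0 : (0 : ℝ) < n := by exact_mod_cast hn1
  have h2 : (n : ℝ) ^ b = (n : ℝ) ^ (b - a) * (n : ℝ) ^ a := by
    rw [← Real.rpow_add h0]
    congr 1
    ring
  rw [h2]
  exact mul_le_mul_of_nonneg_right hn (Real.rpow_nonneg h0.le _)

theorem num2a : ∀ᶠ n : ℕ in atTop, ∀ (B : Finset (Fin n)), Rng B → 1 ≤ Bᶜ.card ∧
    4 * Real.exp (2 * wv n * Bᶜ.card * B.card) * (Real.exp ((n : ℝ) ^ ((1 : ℝ) / 45)) *
        Real.exp ((n : ℝ) ^ ((1 : ℝ) / 45))) ≤ Real.exp ((n : ℝ) ^ ((1 : ℝ) / 42)) := by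
  filter_upwards [rng_sizes, NUM2_pow 6 (1 / 50) (1 / 42) (by norm_num),
    NUM2_pow 6 (1 / 45) (1 / 42) (by norm_num), NUM2_pow 12 0 (1 / 42) (by norm_num),
    eventually_ge_atTop 2] with n hr h1 h2 h3 hn B hB
  obtain ⟨r1, r2, r3, r4, r5⟩ := hr B hB
  have hn2 : (2 : ℝ) ≤ n := by exact_mod_cast hn
  have h0 : (0 : ℝ) < n := by linarith
  have hBc : 1 ≤ Bᶜ.card := by
    have : (1 : ℝ) ≤ (Bᶜ.card : ℝ) := by linarith
    exact_mod_cast this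
  refine ⟨hBc, ?_⟩
  have hb : (0 : ℝ) ≤ B.card := Nat.cast_nonneg _
  have hbc : (0 : ℝ) ≤ (Bᶜ.card : ℝ) := Nat.cast_nonneg _
  have hwv : 0 ≤ wv n := Real.rpow_nonneg h0.le _
  have h4 : 2 * wv n * Bᶜ.card * B.card ≤ 2 * (n : ℝ) ^ ((1 : ℝ) / 50) := by
    have h5 : (Bᶜ.card : ℝ) * B.card ≤ n * n := mul_le_mul (by linarith) (by linarith) hb h0.le
    have h6 : wv n * (n * n) = (n : ℝ) ^ ((1 : ℝ) / 50) := by
      unfold wv
      have h7 : (n : ℝ) * n = (n : ℝ) ^ (2 : ℝ) := by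
        rw [Real.rpow_two]
        ring
      rw [h7, ← Real.rpow_add h0]
      congr 1
      norm_num
    calc 2 * wv n * Bᶜ.card * B.card = 2 * (wv n * (Bᶜ.card * B.card)) := by ring
      _ ≤ 2 * (wv n * (n * n)) := by
          apply mul_le_mul_of_nonneg_left _ (by norm_num)
          exact mul_le_mul_of_nonneg_left h5 hwv
      _ = _ := by rw [h6]
  have h5 : (4 : ℝ) ≤ Real.exp 4 := by
    have := Real.add_one_le_exp (4 : ℝ)
    linarith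
  rw [Real.rpow_zero] at h3
  calc 4 * Real.exp (2 * wv n * Bᶜ.card * B.card) * (Real.exp ((n : ℝ) ^ ((1 : ℝ) / 45)) *
        Real.exp ((n : ℝ) ^ ((1 : ℝ) / 45)))
      ≤ Real.exp 4 * Real.exp (2 * (n : ℝ) ^ ((1 : ℝ) / 50)) *
        (Real.exp ((n : ℝ) ^ ((1 : ℝ) / 45)) * Real.exp ((n : ℝ) ^ ((1 : ℝ) / 45))) := by
        gcongr
    _ = Real.exp (4 + 2 * (n : ℝ) ^ ((1 : ℝ) / 50) + ((n : ℝ) ^ ((1 : ℝ) / 45) +
          (n : ℝ) ^ ((1 : ℝ) / 45))) := by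
        rw [Real.exp_add, Real.exp_add, Real.exp_add]
    _ ≤ Real.exp ((n : ℝ) ^ ((1 : ℝ) / 42)) := by
        apply Real.exp_le_exp.mpr
        linarith

theorem num2b : ∀ᶠ n : ℕ in atTop, ∀ k : ℕ, (n : ℝ) ^ ((1 : ℝ) / 31) < k →
    Real.exp ((n : ℝ) ^ ((1 : ℝ) / 32)) ≤ (10001 / 10000 : ℝ) ^ k := by
  have hl : 0 < Real.log (10001 / 10000 : ℝ) := Real.log_pos (by norm_num)
  filter_upwards [NUM2_pow (Real.log (10001 / 10000 : ℝ))⁻¹ (1 / 32) (1 / 31) (by norm_num)]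
    with n h1 k hk
  have h2 : (n : ℝ) ^ ((1 : ℝ) / 32) ≤ Real.log (10001 / 10000 : ℝ) * k := by
    have h3 : (Real.log (10001 / 10000 : ℝ))⁻¹ * (n : ℝ) ^ ((1 : ℝ) / 32) ≤ k := h1.trans hk.le
    rwa [inv_mul_le_iff₀ hl] at h3
  calc Real.exp ((n : ℝ) ^ ((1 : ℝ) / 32)) ≤ Real.exp (Real.log (10001 / 10000 : ℝ) * k) :=
        Real.exp_le_exp.mpr h2
    _ = (10001 / 10000 : ℝ) ^ k := by
        rw [Real.exp_mul, Real.exp_log (by norm_num), Real.rpow_natCast]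

end PSys
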