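import Mathlib
import Pool.Agent.PSys.Spec
import Pool.Agent.PSys.BadV
import Pool.Agent.PSys.GS

/-! Module SA (blueprint 3.7): the sum over the families inside the leaves. -/

open Finset Filter

namespace PSys

open Classical in
/-- the families inside the leaves which occur for systems with coarse structure -/
noncomputable def famsA {n : ℕ} (B : Finset (Fin n)) : Finset (Sys n) :=
  (fams Bᶜ).filter (fun Q => (∀ x, (dgr (fG Q) x : ℝ) < (1 - 1 / 1000) * n) ∧
    ((fG Q).card : ℝ) ≤ epsP * n * B.card)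

/-! ### combinatorial part -/

theorem SA_deg_sum {n : ℕ} (G : Finset (Sym2 (Fin n))) : ∑ x, dgr G x ≤ 2 * G.card := by
  classical
  have h1 : ∑ x, dgr G x =
      (univ.filter (fun p : Fin n × Fin n => s(p.1, p.2) ∈ G)).card := by
    rw [card_filter, Fintype.sum_prod_type]
    refine sum_congr rfl fun x _ => ?_
    rw [dgr, card_filter]
  rw [h1]
  refine card_le_mul_card_image_of_maps_to (f := fun p : Fin n × Fin n => s(p.1, p.2))
    (fun p hp => (mem_filter.1 hp).2) 2 ?_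
  intro e _
  induction e with
  | _ u v =>
    have hsub : (univ.filter (fun p : Fin n × Fin n => s(p.1, p.2) ∈ G)).filter
        (fun p => s(p.1, p.2) = s(u, v)) ⊆ {(u, v), (v, u)} := by
      rintro ⟨a, b⟩ hp
      have h2 := (mem_filter.1 hp).2
      rcases Sym2.eq_iff.1 h2 with ⟨h3, h4⟩ | ⟨h3, h4⟩
      · simp only at h3 h4
        subst h3; subst h4
        simp
      · simp only at h3 h4
        subst h3; subst h4
        simp
    exact (card_le_card hsub).trans card_le_two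

theorem SA_fG_sub_prs {n : ℕ} {U : Finset (Fin n)} {Q : Sys n} (hQ : IsFam U Q) :
    fG Q ⊆ prs U := by
  intro e he
  induction e with
  | _ u v =>
    rw [mem_fG hQ] at he
    have hne : Q u v ≠ [] := IsFam.dir_ne he
    exact mem_prs.2 ⟨he.1, IsFam.left_mem hQ hne, IsFam.right_mem hQ hne⟩

theorem SA_fG_sub_fD {n : ℕ} {U : Finset (Fin n)} {Q : Sys n} (hQ : IsFam U Q) :
    fG Q ⊆ fD Q := by
  intro e he
  induction e with
  | _ u v =>
    rw [mem_fG hQ] at he
    rw [mem_fD hQ]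
    exact ⟨he.1, IsFam.dir_ne he⟩

theorem SA_sum_ite {n : ℕ} (P : Fin n → Prop) [DecidablePred P] (c : ℝ) :
    ∑ x, (if P x then c else 0) = c * ((univ.filter P).card : ℝ) := by
  rw [← sum_filter, sum_const, nsmul_eq_mul, mul_comm]

open Classical in
/-- the exponent at a vertex of degree `d` -/
noncomputable def SA_f (n β : ℝ) (d : ℕ) : ℝ :=
  10001 / 10000 / β * (10001 / 10000) * ((d : ℝ) ^ 2 / 2) +
    ((if ⌊β / 25000⌋₊ ≤ d then n / 10 ^ 10 else 0) + ((if n / 16000 ≤ (d : ℝ) then n else 0) +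
      (if n ^ ((1 : ℝ) / 32) ≤ (d : ℝ) then n ^ ((1 : ℝ) / 32) else 0)))

theorem SA_sum_f {n : ℕ} (B : Finset (Fin n)) (G : Finset (Sym2 (Fin n))) :
    10001 / 10000 / (B.card : ℝ) * (10001 / 10000) * (cher G : ℝ) +
      ((n : ℝ) / 10 ^ 10 * bign B G + ((n : ℝ) * mn G + (n : ℝ) ^ ((1 : ℝ) / 32) * hin G)) ≤
    ∑ x, SA_f n B.card (dgr G x) := by
  classical
  unfold SA_f
  rw [sum_add_distrib, sum_add_distrib, sum_add_distrib, SA_sum_ite, SA_sum_ite, SA_sum_ite]
  have h1 : 10001 / 10000 / (B.card : ℝ) * (10001 / 10000) * (cher G : ℝ) ≤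
      ∑ x, 10001 / 10000 / (B.card : ℝ) * (10001 / 10000) * ((dgr G x : ℝ) ^ 2 / 2) := by
    rw [← mul_sum]
    refine mul_le_mul_of_nonneg_left ?_ (by positivity)
    unfold cher
    push_cast
    refine sum_le_sum fun x _ => ?_
    rw [Nat.cast_choose_two]
    have : (0 : ℝ) ≤ dgr G x := Nat.cast_nonneg _
    nlinarith
  have h2 : (bign B G : ℝ) = ((univ.filter (fun x => ⌊(B.card : ℝ) / 25000⌋₊ ≤ dgr G x)).card : ℝ) :=
    rfl
  have h3 : (mn G : ℝ) = ((univ.filter (fun x => (n : ℝ) / 16000 ≤ (dgr G x : ℝ))).card : ℝ) := rfl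
  have h4 : (hin G : ℝ) =
      ((univ.filter (fun x => (n : ℝ) ^ ((1 : ℝ) / 32) ≤ (dgr G x : ℝ))).card : ℝ) := rfl
  rw [h2, h3, h4]
  linarith

/-! ### numerical part -/

/-- the numerical hypotheses -/
structure SA_num (n ℓ z β : ℝ) : Prop where
  hℓ : 10 ^ 9 ≤ ℓ
  hz : 10 ^ 6 * ℓ ^ 2 ≤ z
  hzn : z ^ 1000 = n
  lo : 499975 / 1000000 * n ≤ β * ℓ
  hi : β * ℓ ≤ 500025 / 1000000 * n
  βpos : 0 < β
  βn : β ≤ n

namespace SA_num

variable {n ℓ z β : ℝ} (h : SA_num n ℓ z β)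
include h

theorem z_ge : 10 ^ 24 ≤ z := by
  have h1 := h.hℓ
  have h2 := h.hz
  nlinarith

theorem ℓz : 10 ^ 15 * ℓ ≤ z := by
  have h1 := h.hℓ
  have h2 := h.hz
  nlinarith

theorem zk {k m : ℕ} (hkm : k ≤ m) : z ^ k ≤ z ^ m :=
  pow_le_pow_right₀ (by linarith [h.z_ge]) hkm

theorem z4 : z ^ 4 ≤ n := by
  rw [← h.hzn]
  exact h.zk (by norm_num)

theorem npos : 0 < n := by
  have := h.z4
  have h1 := h.z_ge
  have : 0 < z ^ 4 := by positivity
  linarith

theorem β_big : 49 / 100 * z ^ 3 ≤ β := by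
  have h1 := h.z4
  have h2 := h.ℓz
  have h3 := h.lo
  have h4 := h.z_ge
  have hn := h.npos
  have h5 : β * ℓ ≤ β * z := by
    refine mul_le_mul_of_nonneg_left ?_ h.βpos.le
    have := h.hℓ
    linarith
  have h6 : 49 / 100 * z ^ 3 * z ≤ β * z := by
    have : z ^ 3 * z = z ^ 4 := by ring
    nlinarith
  exact le_of_mul_le_mul_right h6 (by linarith)

theorem L_ge : z ≤ (⌊β / 25000⌋₊ : ℝ) := by
  have h1 := h.β_big
  have h2 := h.z_ge
  have h3 : β / 25000 < (⌊β / 25000⌋₊ : ℝ) + 1 := Nat.lt_floor_add_one _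
  have h4 : 25000 * (z + 1) ≤ 49 / 100 * z ^ 3 := by
    have : z ^ 3 = z * z * z := by ring
    rw [this]
    have h5 : 10 ^ 24 * z ≤ z * z := mul_le_mul_of_nonneg_right h2 (by linarith)
    have h6 : 10 ^ 24 * z * z ≤ z * z * z := mul_le_mul_of_nonneg_right h5 (by linarith)
    nlinarith
  linarith

/-- `a n ≤ 2.0006 ℓ` for `a = s ^ 2 / β` -/
theorem an : 10001 / 10000 / β * (10001 / 10000) * n ≤ 20006 / 10000 * ℓ := by
  have h1 := h.lo
  have hn := h.npos
  have hℓ := h.hℓ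
  have h2 : 10001 / 10000 / β * (10001 / 10000) * n = (100020001 / 100000000 * n) / β := by
    have := h.βpos.ne'
    field_simp
    norm_num
  rw [h2, div_le_iff₀ h.βpos]
  nlinarith

theorem Llt (d : ℕ) (hd : ⌊β / 25000⌋₊ ≤ d) : 1999 / 100000000 * n ≤ d * ℓ := by
  have h3 : β / 25000 < (⌊β / 25000⌋₊ : ℝ) + 1 := Nat.lt_floor_add_one _
  have h4 : (⌊β / 25000⌋₊ : ℝ) ≤ d := by exact_mod_cast hd
  have hℓ := h.hℓ
  have h5 : (β / 25000 - 1) * ℓ ≤ d * ℓ := mul_le_mul_of_nonneg_right (by linarith) (by linarith)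
  have h6 := h.lo
  have h7 := h.ℓz
  have h8 := h.z4
  have h9 := h.z_ge
  have h10 : z ≤ z ^ 4 := by
    have := h.zk (k := 1) (m := 4) (by norm_num)
    simpa using this
  have h11 : 10 ^ 15 * ℓ ≤ n := by linarith
  nlinarith

theorem z32 : z ≤ n ^ ((1 : ℝ) / 32) := by
  have hz0 : 0 ≤ z := by linarith [h.z_ge]
  have h1 : z = n ^ ((1 : ℝ) / 1000) := by
    rw [← h.hzn, ← Real.rpow_natCast, ← Real.rpow_mul hz0]
    norm_num
  have hn1 : 1 ≤ n := by
    have := h.z4
    have h2 : (1 : ℝ) ≤ z ^ 4 := one_le_pow₀ (by linarith [h.z_ge])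
    linarith
  calc z = n ^ ((1 : ℝ) / 1000) := h1
    _ ≤ n ^ ((1 : ℝ) / 32) := Real.rpow_le_rpow_of_exponent_le hn1 (by norm_num)

theorem f_low (d : ℕ) (hd : (d : ℝ) < z) :
    SA_f n β d ≤ (10001 / 10000 / β * (10001 / 10000) * (z / 2)) * d := by
  have h1 : ¬ (⌊β / 25000⌋₊ ≤ d) := by
    intro hc
    have : (⌊β / 25000⌋₊ : ℝ) ≤ d := by exact_mod_cast hc
    linarith [h.L_ge]
  have h2 : ¬ (n / 16000 ≤ (d : ℝ)) := by
    intro hc
    have h3 := h.z4
    have h4 := h.z_ge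
    have h5 : 10 ^ 24 * z ≤ z ^ 4 := by
      have : z ^ 4 = z ^ 3 * z := by ring
      rw [this]
      refine mul_le_mul_of_nonneg_right ?_ (by linarith)
      have := h.zk (k := 1) (m := 3) (by norm_num)
      rw [pow_one] at this
      linarith
    linarith
  have h3 : ¬ (n ^ ((1 : ℝ) / 32) ≤ (d : ℝ)) := by
    intro hc
    linarith [h.z32]
  unfold SA_f
  rw [if_neg h1, if_neg h2, if_neg h3, add_zero, add_zero, add_zero]
  have ha : 0 ≤ 10001 / 10000 / β * (10001 / 10000) := by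
    have := h.βpos
    positivity
  have hd0 : (0 : ℝ) ≤ d := Nat.cast_nonneg _
  have e1 : (d : ℝ) ^ 2 / 2 ≤ z / 2 * d := by nlinarith
  have e2 := mul_le_mul_of_nonneg_left e1 ha
  linarith

theorem f_mid (d : ℕ) (hd : z ≤ (d : ℝ)) (hd' : (d : ℝ) < n / 16000) :
    SA_f n β d ≤ 1 / 8000 * d * ℓ := by
  have hn := h.npos
  have hℓ := h.hℓ
  have hd0 : (0 : ℝ) ≤ d := Nat.cast_nonneg _
  have han := h.an
  have ha : 0 ≤ 10001 / 10000 / β * (10001 / 10000) := by
    have := h.βpos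
    positivity
  have h2 : ¬ (n / 16000 ≤ (d : ℝ)) := by linarith
  -- first term
  have t1 : 10001 / 10000 / β * (10001 / 10000) * ((d : ℝ) ^ 2 / 2) ≤
      20006 / 10000 / 32000 * (d * ℓ) := by
    have e1 : (d : ℝ) ^ 2 / 2 ≤ n * (d / 32000) := by nlinarith
    have e2 := mul_le_mul_of_nonneg_left e1 ha
    have e3 : 10001 / 10000 / β * (10001 / 10000) * (n * (d / 32000)) =
        (10001 / 10000 / β * (10001 / 10000) * n) * (d / 32000) := by ring
    have e4 : (10001 / 10000 / β * (10001 / 10000) * n) * ((d : ℝ) / 32000) ≤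
        20006 / 10000 * ℓ * (d / 32000) := mul_le_mul_of_nonneg_right han (by positivity)
    rw [e3] at e2
    linarith
  have t2 : (if ⌊β / 25000⌋₊ ≤ d then n / 10 ^ 10 else 0) ≤ 51 / 10000000 * (d * ℓ) := by
    by_cases hc : ⌊β / 25000⌋₊ ≤ d
    · rw [if_pos hc]
      have := h.Llt d hc
      nlinarith
    · rw [if_neg hc]
      positivity
  have t4 : (if n ^ ((1 : ℝ) / 32) ≤ (d : ℝ) then n ^ ((1 : ℝ) / 32) else 0) ≤
      1 / 10 ^ 9 * (d * ℓ) := by
    by_cases hc : n ^ ((1 : ℝ) / 32) ≤ (d : ℝ)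
    · rw [if_pos hc]
      refine hc.trans ?_
      nlinarith
    · rw [if_neg hc]
      positivity
  unfold SA_f
  rw [if_neg h2]
  have hdl : 0 ≤ (d : ℝ) * ℓ := by positivity
  nlinarith

theorem f_top (d : ℕ) (hd : n / 16000 ≤ (d : ℝ)) (hd' : (d : ℝ) < (1 - 1 / 1000) * n) :
    SA_f n β d ≤ (1 - 1 / 2000) * d * ℓ := by
  have hn := h.npos
  have hℓ := h.hℓ
  have hd0 : (0 : ℝ) ≤ d := Nat.cast_nonneg _
  have han := h.an
  have ha : 0 ≤ 10001 / 10000 / β * (10001 / 10000) := by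
    have := h.βpos
    positivity
  have hdl : 0 ≤ (d : ℝ) * ℓ := by positivity
  have hdl' : 10 ^ 9 * (d : ℝ) ≤ d * ℓ := by nlinarith
  have t1 : 10001 / 10000 / β * (10001 / 10000) * ((d : ℝ) ^ 2 / 2) ≤
      20006 / 20000 * (999 / 1000) * (d * ℓ) := by
    have e1 : (d : ℝ) ^ 2 / 2 ≤ n * (999 / 1000 * (d / 2)) := by nlinarith
    have e2 := mul_le_mul_of_nonneg_left e1 ha
    have e3 : 10001 / 10000 / β * (10001 / 10000) * (n * (999 / 1000 * ((d : ℝ) / 2))) =
        (10001 / 10000 / β * (10001 / 10000) * n) * (999 / 1000 * (d / 2)) := by ring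
    have e4 : (10001 / 10000 / β * (10001 / 10000) * n) * (999 / 1000 * ((d : ℝ) / 2)) ≤
        20006 / 10000 * ℓ * (999 / 1000 * (d / 2)) :=
      mul_le_mul_of_nonneg_right han (by positivity)
    rw [e3] at e2
    linarith
  have hnd : n ≤ 16000 * d := by linarith
  have t2 : (if ⌊β / 25000⌋₊ ≤ d then n / 10 ^ 10 else 0) ≤ 1 / 10 ^ 5 * (d * ℓ) := by
    by_cases hc : ⌊β / 25000⌋₊ ≤ d
    · rw [if_pos hc]
      linarith
    · rw [if_neg hc]
      positivity
  have t3 : (if n / 16000 ≤ (d : ℝ) then n else 0) ≤ 16 / 10 ^ 6 * (d * ℓ) := by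
    rw [if_pos hd]
    linarith
  have t4 : (if n ^ ((1 : ℝ) / 32) ≤ (d : ℝ) then n ^ ((1 : ℝ) / 32) else 0) ≤
      1 / 10 ^ 9 * (d * ℓ) := by
    by_cases hc : n ^ ((1 : ℝ) / 32) ≤ (d : ℝ)
    · rw [if_pos hc]
      refine hc.trans ?_
      linarith
    · rw [if_neg hc]
      positivity
  unfold SA_f
  nlinarith

/-- the number `c` is at most `1 / 4` -/
theorem c_le : 10001 / 10000 / β * (10001 / 10000) * (z / 2) ≤ 1 / 4 := by
  have h1 := h.β_big
  have h2 := h.z_ge
  have h4 : 10 * z ≤ 49 / 100 * z ^ 3 := by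
    have : z ^ 3 = z * z * z := by ring
    rw [this]
    have h5 : 10 ^ 24 * z ≤ z * z := mul_le_mul_of_nonneg_right h2 (by linarith)
    have h6 : 10 ^ 24 * z * z ≤ z * z * z := mul_le_mul_of_nonneg_right h5 (by linarith)
    nlinarith
  have h3 : 10001 / 10000 / β * (10001 / 10000) * (z / 2) =
      (100020001 / 200000000 * z) / β := by
    have := h.βpos.ne'
    field_simp
    norm_num
  rw [h3, div_le_iff₀ h.βpos]
  linarith

/-- `wv n * β` is small; here `v = z ^ 20 / n ^ 2` -/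
theorem v_le : z ^ 20 / n ^ 2 * β ≤ 1 / 20 := by
  have hn := h.npos
  have hz := h.z_ge
  have h1 : z ^ 21 ≤ n := by
    rw [← h.hzn]
    exact h.zk (by norm_num)
  have h2 : z ^ 20 / n ^ 2 * β ≤ z ^ 20 / n ^ 2 * n :=
    mul_le_mul_of_nonneg_left h.βn (by positivity)
  have h3 : z ^ 20 / n ^ 2 * n = z ^ 20 / n := by field_simp
  have h4 : z ^ 20 / n ≤ 1 / 20 := by
    rw [div_le_iff₀ hn]
    have h5 : 20 * z ^ 20 ≤ z ^ 21 := by
      have : z ^ 21 = z * z ^ 20 := by ring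
      rw [this]
      exact mul_le_mul_of_nonneg_right (by linarith) (by positivity)
    linarith
  linarith

theorem rho_le : 1 / β * Real.exp (2 * (z ^ 20 / n ^ 2) * β) ≤ 3 * ℓ / n := by
  have hn := h.npos
  have hℓ := h.hℓ
  have hz := h.z_ge
  have h1 := h.v_le
  have hx0 : 0 ≤ 2 * (z ^ 20 / n ^ 2) * β := by
    have := h.βpos
    positivity
  have hx1 : 2 * (z ^ 20 / n ^ 2) * β ≤ 1 / 10 := by linarith
  have h2 : Real.exp (2 * (z ^ 20 / n ^ 2) * β) ≤ 6 / 5 := by
    have h3 := Real.abs_exp_sub_one_sub_id_le (x := 2 * (z ^ 20 / n ^ 2) * β)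
      (by rw [abs_le]; constructor <;> linarith)
    rw [abs_le] at h3
    nlinarith [h3.2]
  have h4 : 1 / β * Real.exp (2 * (z ^ 20 / n ^ 2) * β) ≤ 1 / β * (6 / 5) :=
    mul_le_mul_of_nonneg_left h2 (by have := h.βpos; positivity)
  refine h4.trans ?_
  have h5 := h.lo
  rw [div_mul_eq_mul_div, one_mul, div_le_div_iff₀ h.βpos hn]
  nlinarith

theorem final (M : ℕ) (hM : (M : ℝ) ≤ n ^ 2 / 2) :
    4 * (1 + (1 / β * Real.exp (2 * (z ^ 20 / n ^ 2) * β)) *
      Real.exp (2 * (10001 / 10000 / β * (10001 / 10000) * (z / 2)))) ^ M ≤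
    Real.exp (z ^ 21) * (1 + 1 / β) ^ M := by
  have hn := h.npos
  have hℓ := h.hℓ
  have hz := h.z_ge
  have hβ := h.βpos
  set c := 10001 / 10000 / β * (10001 / 10000) * (z / 2) with hc
  have hc0 : 0 ≤ c := by rw [hc]; positivity
  have hc1 : c ≤ 1 / 4 := h.c_le
  set x := 2 * (z ^ 20 / n ^ 2) * β + 2 * c with hx
  have hx0 : 0 ≤ x := by rw [hx]; positivity
  have hx1 : x ≤ 1 := by
    have := h.v_le
    rw [hx]
    linarith
  have e1 : (1 / β * Real.exp (2 * (z ^ 20 / n ^ 2) * β)) * Real.exp (2 * c) =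
      1 / β * Real.exp x := by
    rw [hx, Real.exp_add]
    ring
  have e2 : Real.exp x ≤ 1 + 2 * x := by
    have h3 := Real.abs_exp_sub_one_sub_id_le (x := x) (by rw [abs_le]; constructor <;> linarith)
    rw [abs_le] at h3
    nlinarith [h3.2]
  have e3 : 1 + 1 / β * Real.exp x ≤ (1 + 1 / β) * Real.exp (2 * x / β) := by
    have e4 : 1 + 2 * x / β ≤ Real.exp (2 * x / β) := by
      have := Real.add_one_le_exp (2 * x / β)
      linarith
    have e5 : 1 / β * Real.exp x ≤ 1 / β * (1 + 2 * x) :=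
      mul_le_mul_of_nonneg_left e2 (by positivity)
    have e6 : (1 + 1 / β) * (1 + 2 * x / β) ≤ (1 + 1 / β) * Real.exp (2 * x / β) :=
      mul_le_mul_of_nonneg_left e4 (by positivity)
    have e7 : 1 + 1 / β * (1 + 2 * x) ≤ (1 + 1 / β) * (1 + 2 * x / β) := by
      have e8 : (1 + 1 / β) * (1 + 2 * x / β) =
          1 + 1 / β * (1 + 2 * x) + 2 * x / β * (1 / β) := by
        field_simp
        ring
      rw [e8]
      have : 0 ≤ 2 * x / β * (1 / β) := by positivity
      linarith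
    linarith
  have e9 : (1 + 1 / β * Real.exp x) ^ M ≤ (1 + 1 / β) ^ M * Real.exp (M * (2 * x / β)) := by
    calc (1 + 1 / β * Real.exp x) ^ M ≤ ((1 + 1 / β) * Real.exp (2 * x / β)) ^ M :=
          pow_le_pow_left₀ (by positivity) e3 M
      _ = (1 + 1 / β) ^ M * Real.exp (M * (2 * x / β)) := by
          rw [mul_pow, ← Real.exp_nat_mul]
  -- the exponent
  have e10 : (M : ℝ) * (2 * x / β) ≤ 3 * z ^ 20 := by
    have f1 : (M : ℝ) * (2 * x / β) ≤ n ^ 2 / 2 * (2 * x / β) :=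
      mul_le_mul_of_nonneg_right hM (by positivity)
    have f2 : n ^ 2 / 2 * (2 * x / β) = 2 * z ^ 20 + n ^ 2 * (2 * c) / β := by
      rw [hx]
      field_simp
    have f3 : n ^ 2 * (2 * c) / β = (10001 / 10000 / β * (10001 / 10000) * n) * (n / β) * z := by
      rw [hc]
      field_simp
    have f4 : n / β ≤ 21 / 10 * ℓ := by
      rw [div_le_iff₀ hβ]
      have := h.lo
      nlinarith
    have f5 : (10001 / 10000 / β * (10001 / 10000) * n) * (n / β) ≤
        20006 / 10000 * ℓ * (21 / 10 * ℓ) :=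
      mul_le_mul h.an f4 (by positivity) (by positivity)
    have f6 : (10001 / 10000 / β * (10001 / 10000) * n) * (n / β) * z ≤
        20006 / 10000 * ℓ * (21 / 10 * ℓ) * z :=
      mul_le_mul_of_nonneg_right f5 (by linarith)
    have f7 : 20006 / 10000 * ℓ * (21 / 10 * ℓ) ≤ z := by
      have := h.hz
      nlinarith
    have f8 : 20006 / 10000 * ℓ * (21 / 10 * ℓ) * z ≤ z * z :=
      mul_le_mul_of_nonneg_right f7 (by linarith)
    have f9 : z * z ≤ z ^ 20 := by
      have := h.zk (k := 2) (m := 20) (by norm_num)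
      rwa [pow_two] at this
    rw [f2, f3] at f1
    linarith
  have e11 : 4 * Real.exp (M * (2 * x / β)) ≤ Real.exp (z ^ 21) := by
    have g1 : (4 : ℝ) ≤ Real.exp 2 := by
      have := Real.add_one_le_exp (1 : ℝ)
      have h2 : Real.exp 2 = Real.exp 1 * Real.exp 1 := by rw [← Real.exp_add]; norm_num
      nlinarith [Real.exp_pos 1]
    have g2 : 2 + 3 * z ^ 20 ≤ z ^ 21 := by
      have : z ^ 21 = z * z ^ 20 := by ring
      rw [this]
      have h20 : (1 : ℝ) ≤ z ^ 20 := one_le_pow₀ (by linarith)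
      nlinarith
    calc 4 * Real.exp (M * (2 * x / β)) ≤ Real.exp 2 * Real.exp (3 * z ^ 20) :=
          mul_le_mul g1 (Real.exp_le_exp.2 e10) (Real.exp_pos _).le (Real.exp_pos _).le
      _ = Real.exp (2 + 3 * z ^ 20) := (Real.exp_add _ _).symm
      _ ≤ Real.exp (z ^ 21) := Real.exp_le_exp.2 g2
  rw [e1]
  calc 4 * (1 + 1 / β * Real.exp x) ^ M ≤
        4 * ((1 + 1 / β) ^ M * Real.exp (M * (2 * x / β))) :=
        mul_le_mul_of_nonneg_left e9 (by norm_num)
    _ = (4 * Real.exp (M * (2 * x / β))) * (1 + 1 / β) ^ M := by ring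
    _ ≤ Real.exp (z ^ 21) * (1 + 1 / β) ^ M :=
        mul_le_mul_of_nonneg_right e11 (by positivity)

end SA_num

/-- the numerical hypotheses hold for large `n` -/
theorem SA_ev : ∀ᶠ n : ℕ in atTop, ∀ (B : Finset (Fin n)), Rng B →
    SA_num n (Real.log n) ((n : ℝ) ^ ((1 : ℝ) / 1000)) B.card := by
  have h1 : ∀ᶠ n : ℕ in atTop, (10 : ℝ) ^ 9 ≤ Real.log n :=
    (Real.tendsto_log_atTop.comp tendsto_natCast_atTop_atTop).eventually_ge_atTop _
  have h2 : ∀ᶠ n : ℕ in atTop, 10 ^ 6 * Real.log n ^ 2 ≤ (n : ℝ) ^ ((1 : ℝ) / 1000) := by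
    have h3 := (isLittleO_log_rpow_rpow_atTop (s := (1 : ℝ) / 1000) 2 (by norm_num)).comp_tendsto
      tendsto_natCast_atTop_atTop
    have h4 := h3.bound (show (0 : ℝ) < 1 / 10 ^ 6 by norm_num)
    filter_upwards [h4, h1] with n hn hl
    simp only [Function.comp_apply] at hn
    have h5 : Real.log (n : ℝ) ^ (2 : ℝ) = Real.log n ^ 2 := by
      rw [← Real.rpow_natCast]
      norm_num
    rw [h5, Real.norm_of_nonneg (by positivity), Real.norm_of_nonneg (by positivity)] at hn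
    linarith
  filter_upwards [h1, h2, eventually_ge_atTop 2] with n hl hz hn2 B hB
  have hn : (0 : ℝ) < n := by positivity
  have hl0 : 0 < Real.log n := by linarith
  unfold Rng b0 at hB
  rw [abs_le] at hB
  have hb : (n : ℝ) / (2 * Real.log n) * Real.log n = n / 2 := by field_simp
  have hlo : (19999 / 20000 : ℝ) * (n / (2 * Real.log n)) ≤ B.card := by linarith [hB.1]
  have hhi : (B.card : ℝ) ≤ (20001 / 20000 : ℝ) * (n / (2 * Real.log n)) := by linarith [hB.2]
  refine ⟨hl, hz, ?_, ?_, ?_, ?_, ?_⟩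
  · rw [← Real.rpow_natCast, ← Real.rpow_mul hn.le]
    norm_num
  · have := mul_le_mul_of_nonneg_right hlo hl0.le
    rw [mul_assoc, hb] at this
    linarith
  · have := mul_le_mul_of_nonneg_right hhi hl0.le
    rw [mul_assoc, hb] at this
    linarith
  · have : 0 < (n : ℝ) / (2 * Real.log n) := by positivity
    linarith
  · have := card_le_univ B
    rw [Fintype.card_fin] at this
    exact_mod_cast this

theorem SA_wv {n : ℕ} (hn : 0 < n) :
    wv n = ((n : ℝ) ^ ((1 : ℝ) / 1000)) ^ 20 / (n : ℝ) ^ 2 := by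
  have hn0 : (0 : ℝ) < n := by exact_mod_cast hn
  unfold wv
  rw [← Real.rpow_natCast, ← Real.rpow_mul hn0.le, ← Real.rpow_natCast (n : ℝ) 2,
    ← Real.rpow_sub hn0]
  norm_num

/-- Blueprint 3.7, SA. -/
theorem sa : ∀ᶠ n : ℕ in atTop, ∀ (B : Finset (Fin n)), Rng B →
    ∑ Q ∈ famsA B, (1 / (B.card : ℝ)) ^ (fD Q).card *
      (10001 / 10000 : ℝ) ^ (fD Q \ fG Q).card *
      Real.exp (n * badn Q + 2 * wv n * B.card * (fG Q).card +
        (n : ℝ) ^ ((1 : ℝ) / 32) * hin (fG Q)) ≤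
    Real.exp ((n : ℝ) ^ ((1 : ℝ) / 45)) * (1 + 1 / (B.card : ℝ)) ^ (Bᶜ.card.choose 2) := by
  classical
  filter_upwards [SA_ev, badv, gs, eventually_ge_atTop 2] with n hev hbad hgs hn2 B hB
  have h := hev B hB
  have hn := h.npos
  have hβ := h.βpos
  have hℓ := h.hℓ
  set z := (n : ℝ) ^ ((1 : ℝ) / 1000) with hz
  have hwv : wv n = z ^ 20 / (n : ℝ) ^ 2 := SA_wv (by omega)
  have hwv0 : 0 ≤ wv n := by unfold wv; positivity
  -- grouping
  have hmaps : ∀ Q ∈ famsA B, fG Q ∈ (famsA B).image fG := fun Q hQ => mem_image_of_mem _ hQ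
  rw [← sum_fiberwise_of_maps_to hmaps]
  have hGG : ∀ G ∈ (famsA B).image fG, G ⊆ prs Bᶜ ∧ (G.card : ℝ) ≤ epsP * n * B.card ∧
      ∀ x, (dgr G x : ℝ) < (1 - 1 / 1000) * n := by
    intro G hG
    obtain ⟨Q, hQ, rfl⟩ := mem_image.1 hG
    rw [famsA, mem_filter] at hQ
    exact ⟨SA_fG_sub_prs (mem_fams.1 hQ.1), hQ.2.2, hQ.2.1⟩
  -- one graph
  have hone : ∀ G ∈ (famsA B).image fG, ∑ Q ∈ (famsA B).filter (fun Q => fG Q = G),
      (1 / (B.card : ℝ)) ^ (fD Q).card * (10001 / 10000 : ℝ) ^ (fD Q \ fG Q).card *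
      Real.exp (n * badn Q + 2 * wv n * B.card * (fG Q).card +
        (n : ℝ) ^ ((1 : ℝ) / 32) * hin (fG Q)) ≤
      2 * ((1 / (B.card : ℝ) * Real.exp (2 * (z ^ 20 / (n : ℝ) ^ 2) * B.card)) ^ G.card *
        Real.exp (∑ x, SA_f n B.card (dgr G x))) := by
    intro G hG
    obtain ⟨hG1, hG2, -⟩ := hGG G hG
    have hb := hbad B hB G hG1 hG2
    set K := (1 / (B.card : ℝ)) ^ G.card *
      Real.exp (2 * wv n * B.card * G.card + (n : ℝ) ^ ((1 : ℝ) / 32) * hin G) with hK
    have hK0 : 0 ≤ K := by rw [hK]; positivity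
    have s1 : ∑ Q ∈ (famsA B).filter (fun Q => fG Q = G),
        (1 / (B.card : ℝ)) ^ (fD Q).card * (10001 / 10000 : ℝ) ^ (fD Q \ fG Q).card *
        Real.exp (n * badn Q + 2 * wv n * B.card * (fG Q).card +
          (n : ℝ) ^ ((1 : ℝ) / 32) * hin (fG Q)) =
        ∑ Q ∈ (famsA B).filter (fun Q => fG Q = G), K *
          (((10001 : ℝ) / 10000 / B.card) ^ (fD Q \ G).card * Real.exp (n * badn Q)) := by
      refine sum_congr rfl fun Q hQ => ?_
      rw [mem_filter, famsA, mem_filter] at hQ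
      obtain ⟨⟨hQ1, -⟩, rfl⟩ := hQ
      have hc : (fD Q).card = (fD Q \ fG Q).card + (fG Q).card :=
        (card_sdiff_add_card_eq_card (SA_fG_sub_fD (mem_fams.1 hQ1))).symm
      have e1 : (1 / (B.card : ℝ)) ^ (fD Q).card =
          (1 / (B.card : ℝ)) ^ (fD Q \ fG Q).card * (1 / (B.card : ℝ)) ^ (fG Q).card := by
        rw [hc, pow_add]
      have e2 : ((10001 : ℝ) / 10000 / B.card) ^ (fD Q \ fG Q).card =
          (1 / (B.card : ℝ)) ^ (fD Q \ fG Q).card *
            (10001 / 10000 : ℝ) ^ (fD Q \ fG Q).card := by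
        rw [← mul_pow]
        congr 1
        ring
      have e3 : Real.exp (n * badn Q + 2 * wv n * B.card * (fG Q).card +
          (n : ℝ) ^ ((1 : ℝ) / 32) * hin (fG Q)) = Real.exp (n * badn Q) *
          Real.exp (2 * wv n * B.card * (fG Q).card + (n : ℝ) ^ ((1 : ℝ) / 32) * hin (fG Q)) := by
        rw [← Real.exp_add]
        congr 1
        ring
      rw [e1, e2, e3, hK]
      ring
    have s2 : ∑ Q ∈ (famsA B).filter (fun Q => fG Q = G), K *
          (((10001 : ℝ) / 10000 / B.card) ^ (fD Q \ G).card * Real.exp (n * badn Q)) ≤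
        K * ∑ Q ∈ (fams Bᶜ).filter (fun Q => fG Q = G),
          (((10001 : ℝ) / 10000 / B.card) ^ (fD Q \ G).card * Real.exp (n * badn Q)) := by
      rw [← mul_sum]
      refine mul_le_mul_of_nonneg_left ?_ hK0
      refine sum_le_sum_of_subset_of_nonneg ?_ fun Q _ _ => by positivity
      exact filter_subset_filter _ (filter_subset _ _)
    rw [s1]
    refine s2.trans ((mul_le_mul_of_nonneg_left hb hK0).trans ?_)
    -- the power of the cherries
    have c1 : (1 + 10001 / 10000 / (B.card : ℝ) * (10001 / 10000)) ^ (cher G) ≤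
        Real.exp (10001 / 10000 / (B.card : ℝ) * (10001 / 10000) * cher G) := by
      have : 1 + 10001 / 10000 / (B.card : ℝ) * (10001 / 10000) ≤
          Real.exp (10001 / 10000 / (B.card : ℝ) * (10001 / 10000)) := by
        have := Real.add_one_le_exp (10001 / 10000 / (B.card : ℝ) * (10001 / 10000))
        linarith
      refine (pow_le_pow_left₀ (by positivity) this _).trans ?_
      rw [← Real.exp_nat_mul]
      exact Real.exp_le_exp.2 (le_of_eq (by ring))
    have c2 := SA_sum_f B G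
    have c3 : K * (2 * (1 + 10001 / 10000 / (B.card : ℝ) * (10001 / 10000)) ^ (cher G) *
        Real.exp (n / 10 ^ 10 * bign B G) * Real.exp (n * mn G)) ≤
        K * (2 * Real.exp (10001 / 10000 / (B.card : ℝ) * (10001 / 10000) * cher G) *
        Real.exp (n / 10 ^ 10 * bign B G) * Real.exp (n * mn G)) := by
      refine mul_le_mul_of_nonneg_left ?_ hK0
      gcongr
    refine c3.trans ?_
    have c4 : K * (2 * Real.exp (10001 / 10000 / (B.card : ℝ) * (10001 / 10000) * cher G) *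
        Real.exp (n / 10 ^ 10 * bign B G) * Real.exp (n * mn G)) =
        2 * ((1 / (B.card : ℝ) * Real.exp (2 * (z ^ 20 / (n : ℝ) ^ 2) * B.card)) ^ G.card *
        Real.exp (10001 / 10000 / (B.card : ℝ) * (10001 / 10000) * (cher G : ℝ) +
      ((n : ℝ) / 10 ^ 10 * bign B G + ((n : ℝ) * mn G + (n : ℝ) ^ ((1 : ℝ) / 32) * hin G)))) := by
      rw [hK, mul_pow, ← Real.exp_nat_mul, Real.exp_add, Real.exp_add, Real.exp_add, Real.exp_add,
        hwv]
      have : (G.card : ℝ) * (2 * (z ^ 20 / (n : ℝ) ^ 2) * B.card) =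
          2 * (z ^ 20 / (n : ℝ) ^ 2) * B.card * G.card := by ring
      rw [this]
      ring
    rw [c4]
    refine mul_le_mul_of_nonneg_left ?_ (by norm_num)
    refine mul_le_mul_of_nonneg_left (Real.exp_le_exp.2 c2) (by positivity)
  refine (sum_le_sum hone).trans ?_
  rw [← mul_sum]
  -- the graph sum lemma
  have hg := hgs Bᶜ (1 / (B.card : ℝ) * Real.exp (2 * (z ^ 20 / (n : ℝ) ^ 2) * B.card))
    (10001 / 10000 / (B.card : ℝ) * (10001 / 10000) * (z / 2)) (by positivity) h.rho_le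
    (by
      have : 0 < z := by linarith [h.z_ge]
      positivity) (h.c_le.trans (by norm_num)) (SA_f n B.card)
    ((famsA B).image fG) ?_
  · have hM : ((Bᶜ.card.choose 2 : ℕ) : ℝ) ≤ (n : ℝ) ^ 2 / 2 := by
      rw [Nat.cast_choose_two]
      have h1 : (Bᶜ.card : ℝ) ≤ n := by
        have := card_le_univ Bᶜ
        rw [Fintype.card_fin] at this
        exact_mod_cast this
      have h0 : (0 : ℝ) ≤ Bᶜ.card := Nat.cast_nonneg _
      nlinarith
    have hfin := h.final _ hM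
    have h45 : z ^ 21 ≤ (n : ℝ) ^ ((1 : ℝ) / 45) := by
      rw [hz, ← Real.rpow_natCast, ← Real.rpow_mul hn.le]
      refine Real.rpow_le_rpow_of_exponent_le ?_ (by norm_num)
      have : (2 : ℝ) ≤ n := by exact_mod_cast hn2
      linarith
    calc _ ≤ 2 * (2 * (1 + (1 / (B.card : ℝ) *
            Real.exp (2 * (z ^ 20 / (n : ℝ) ^ 2) * B.card)) *
            Real.exp (2 * (10001 / 10000 / (B.card : ℝ) * (10001 / 10000) * (z / 2)))) ^
            (Bᶜ.card.choose 2)) := mul_le_mul_of_nonneg_left hg (by norm_num)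
      _ = 4 * (1 + (1 / (B.card : ℝ) *
            Real.exp (2 * (z ^ 20 / (n : ℝ) ^ 2) * B.card)) *
            Real.exp (2 * (10001 / 10000 / (B.card : ℝ) * (10001 / 10000) * (z / 2)))) ^
            (Bᶜ.card.choose 2) := by ring
      _ ≤ Real.exp (z ^ 21) * (1 + 1 / (B.card : ℝ)) ^ (Bᶜ.card.choose 2) := hfin
      _ ≤ _ := by
        refine mul_le_mul_of_nonneg_right (Real.exp_le_exp.2 h45) (by positivity)
  · intro G hG
    obtain ⟨hG1, hG2, hG3⟩ := hGG G hG
    refine ⟨hG1, ?_, fun x => ⟨fun hx => h.f_low _ hx, fun hx hx' => ?_, fun hx => ?_⟩⟩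
    · -- number of vertices of large degree
      have d1 : ((univ.filter (fun x => (n : ℝ) / 16000 ≤ dgr G x)).card : ℝ) * (n / 16000) ≤
          2 * G.card := by
        have d2 : ∑ x ∈ univ.filter (fun x => (n : ℝ) / 16000 ≤ dgr G x), (n : ℝ) / 16000 ≤
            ∑ x ∈ univ.filter (fun x => (n : ℝ) / 16000 ≤ dgr G x), (dgr G x : ℝ) :=
          sum_le_sum fun x hx => (mem_filter.1 hx).2
        rw [sum_const, nsmul_eq_mul] at d2
        have d3 : ∑ x ∈ univ.filter (fun x => (n : ℝ) / 16000 ≤ dgr G x), (dgr G x : ℝ) ≤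
            ∑ x, (dgr G x : ℝ) :=
          sum_le_sum_of_subset_of_nonneg (filter_subset _ _) fun _ _ _ => Nat.cast_nonneg _
        have d4 : ∑ x, (dgr G x : ℝ) ≤ 2 * G.card := by exact_mod_cast SA_deg_sum G
        linarith
      have d5 : epsP ≤ 1 / 1000000 := by
        unfold epsP
        rw [Real.exp_neg, inv_eq_one_div]
        refine one_div_le_one_div_of_le (by norm_num) ?_
        have := Real.add_one_le_exp (1000000 : ℝ)
        linarith
      have d6 : epsP * n * B.card ≤ 1 / 1000000 * n * B.card := by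
        refine mul_le_mul_of_nonneg_right (mul_le_mul_of_nonneg_right d5 hn.le) hβ.le
      have d7 : ((univ.filter (fun x => (n : ℝ) / 16000 ≤ dgr G x)).card : ℝ) ≤
          32000 / 1000000 * B.card := by
        have d8 : ((univ.filter (fun x => (n : ℝ) / 16000 ≤ dgr G x)).card : ℝ) * (n / 16000) ≤
            32000 / 1000000 * B.card * (n / 16000) := by
          have : 32000 / 1000000 * (B.card : ℝ) * (n / 16000) = 2 * (1 / 1000000 * n * B.card) := by
            ring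
          rw [this]
          linarith
        exact le_of_mul_le_mul_right d8 (by positivity)
      rw [le_div_iff₀ (by linarith)]
      have d9 := mul_le_mul_of_nonneg_right d7 (show (0:ℝ) ≤ Real.log n by linarith)
      have := h.hi
      linarith
    · exact h.f_mid _ hx hx'
    · exact h.f_top _ hx (hG3 x)

end PSys
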