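import Mathlib
import Pool.Agent.PSys.Spec
import Pool.Agent.PSys.FG
import Pool.Agent.PSys.GS
import Pool.Agent.PSys.GoodB

/-! Module SB (blueprint 3.7): the sum over the families inside the hubs. -/

open Finset Filter

namespace PSys

theorem SB_fG_sub {n : ℕ} {U : Finset (Fin n)} {Q : Sys n} (hQ : IsFam U Q) : fG Q ⊆ prs U := by
  intro e he
  induction e with
  | _ u v =>
    rw [mem_fG hQ] at he
    rw [mem_prs]
    exact ⟨he.1, hQ.left_mem (IsFam.dir_ne he), hQ.right_mem (IsFam.dir_ne he)⟩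

theorem SB_fG_fD {n : ℕ} (Q : Sys n) : fG Q ⊆ fD Q := by
  classical
  intro e he
  simp only [fG, fD, mem_filter, mem_univ, true_and] at he ⊢
  obtain ⟨u, v, h1, h2, h3⟩ := he
  exact ⟨u, v, h1, h2, by rw [h3]; simp⟩

theorem SB_dgr_le {n : ℕ} {U : Finset (Fin n)} {G : Finset (Sym2 (Fin n))} (hG : G ⊆ prs U)
    (x : Fin n) : dgr G x ≤ U.card := by
  classical
  unfold dgr
  refine card_le_card (fun y hy => ?_)
  rw [mem_filter] at hy
  exact (mem_prs.1 (hG hy.2)).2.2

theorem SB_psumR {n : ℕ} (U : Finset (Fin n)) (G : Finset (Sym2 (Fin n))) (r t θ : ℝ) :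
    psumR U ∅ G r t θ = 1 := by
  classical
  have hset : pset U ∅ G = {fun _ _ => none} := by
    ext p
    simp only [pset, mem_filter, mem_univ, true_and, mem_singleton]
    constructor
    · rintro ⟨h, _⟩
      funext x v
      cases hp : p x v with
      | none => rfl
      | some y => exact absurd (h x v y hp).1 (notMem_empty _)
    · rintro rfl
      refine ⟨fun x v y h => by simp at h, fun x y v hx => absurd hx (notMem_empty _)⟩
  unfold psumR
  rw [hset, sum_singleton]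
  have h1 : psz (fun _ _ => none : Pf n) = 0 := by
    simp [psz]
  have h2 : cand (∅ : Finset (Fin n)) (fun _ _ => none : Pf n) = 0 := by
    simp [cand]
  rw [h1, h2]
  simp

theorem SB_cher {n : ℕ} (G : Finset (Sym2 (Fin n))) (r : ℝ) (hr : 0 ≤ r) :
    (1 + r * 2) ^ (cher G) ≤ Real.exp (∑ x, r * (dgr G x : ℝ) ^ 2) := by
  have h1 : (1 + r * 2) ≤ Real.exp (r * 2) := by
    have := Real.add_one_le_exp (r * 2); linarith
  have h2 : (1 + r * 2) ^ (cher G) ≤ Real.exp (r * 2) ^ (cher G) :=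
    pow_le_pow_left₀ (by positivity) h1 _
  refine h2.trans ?_
  rw [← Real.exp_nat_mul]
  apply Real.exp_le_exp.2
  unfold cher
  push_cast
  rw [sum_mul]
  refine sum_le_sum (fun x _ => ?_)
  have h3 : ((dgr G x).choose 2 : ℝ) ≤ (dgr G x : ℝ) ^ 2 / 2 := by
    have := Nat.choose_le_pow_div (α := ℝ) 2 (dgr G x)
    simpa using this
  nlinarith

open Classical in
theorem SB_hin {n : ℕ} (G : Finset (Sym2 (Fin n))) :
    (n : ℝ) ^ ((1 : ℝ) / 32) * hin G =
      ∑ x, (if (n : ℝ) ^ ((1 : ℝ) / 32) ≤ dgr G x then (n : ℝ) ^ ((1 : ℝ) / 32) else 0) := by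
  unfold hin
  rw [← sum_filter, sum_const, nsmul_eq_mul]
  ring

open Classical in
/-- one graph -/
theorem SB_one {n : ℕ} {B : Finset (Fin n)} (G : Finset (Sym2 (Fin n))) (hG : G ⊆ prs B)
    (α w : ℝ) (hα : 0 < α)
    (h : (1 + (10001 / 10000) / α * 2) ^ (2 * B.card) ≤ 2) :
    ∑ Q ∈ (fams B).filter (fun Q => fG Q = G), (1 / α) ^ (fD Q).card *
      (10001 / 10000 : ℝ) ^ (fD Q \ fG Q).card *
      Real.exp (2 * w * α * (fG Q).card + (n : ℝ) ^ ((1 : ℝ) / 32) * hin (fG Q)) ≤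
    (1 / α * Real.exp (2 * w * α)) ^ G.card *
      Real.exp (∑ x, ((10001 / 10000) / α * (dgr G x : ℝ) ^ 2 +
        (if (n : ℝ) ^ ((1 : ℝ) / 32) ≤ dgr G x then (n : ℝ) ^ ((1 : ℝ) / 32) else 0))) := by
  have hr : (0 : ℝ) ≤ (10001 / 10000) / α := by positivity
  have hFG := FG B ∅ (empty_subset _) G hG B.card ((10001 / 10000) / α) 1 2 hr le_rfl
    (by norm_num) h (fun x _ _ => SB_dgr_le hG x)
  rw [SB_psumR, mul_one] at hFG
  have hc := SB_cher G ((10001 / 10000) / α) hr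
  have e1 : ∀ Q ∈ (fams B).filter (fun Q => fG Q = G), (1 / α) ^ (fD Q).card *
      (10001 / 10000 : ℝ) ^ (fD Q \ fG Q).card *
      Real.exp (2 * w * α * (fG Q).card + (n : ℝ) ^ ((1 : ℝ) / 32) * hin (fG Q)) =
      ((1 / α * Real.exp (2 * w * α)) ^ G.card *
        Real.exp ((n : ℝ) ^ ((1 : ℝ) / 32) * hin G)) *
      (((10001 / 10000) / α) ^ (fD Q \ G).card * 1 ^ (∑ x ∈ (∅ : Finset (Fin n)),
        dgr (fD Q \ G) x)) := by
    intro Q hQ
    rw [mem_filter] at hQ
    rw [hQ.2]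
    have hcard : (fD Q).card = G.card + (fD Q \ G).card := by
      have := card_sdiff_add_card_eq_card (hQ.2 ▸ SB_fG_fD Q : G ⊆ fD Q)
      omega
    rw [hcard, pow_add, mul_pow, ← Real.exp_nat_mul, Real.exp_add, div_pow (10001 / 10000 : ℝ) α,
      one_pow, mul_one, div_pow 1 α (fD Q \ G).card, one_pow]
    rw [mul_comm (2 * w * α) (G.card : ℝ)]
    ring
  rw [sum_congr rfl e1, ← mul_sum, sum_add_distrib, Real.exp_add, ← SB_hin G]
  have h3 : (0 : ℝ) ≤ (1 / α * Real.exp (2 * w * α)) ^ G.card *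
        Real.exp ((n : ℝ) ^ ((1 : ℝ) / 32) * hin G) := by positivity
  calc _ ≤ ((1 / α * Real.exp (2 * w * α)) ^ G.card *
        Real.exp ((n : ℝ) ^ ((1 : ℝ) / 32) * hin G)) *
        Real.exp (∑ x, (10001 / 10000) / α * (dgr G x : ℝ) ^ 2) :=
        mul_le_mul_of_nonneg_left (hFG.trans hc) h3
    _ = _ := by ring

/-- Blueprint 3.7, SB. -/
theorem sb : ∀ᶠ n : ℕ in atTop, ∀ (B : Finset (Fin n)), Rng B →
    ∑ Q ∈ fams B, (1 / (Bᶜ.card : ℝ)) ^ (fD Q).card *
      (10001 / 10000 : ℝ) ^ (fD Q \ fG Q).card *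
      Real.exp (2 * wv n * Bᶜ.card * (fG Q).card +
        (n : ℝ) ^ ((1 : ℝ) / 32) * hin (fG Q)) ≤
    Real.exp ((n : ℝ) ^ ((1 : ℝ) / 45)) * (1 + 1 / (Bᶜ.card : ℝ)) ^ (B.card.choose 2) := by
  classical
  have hlog : ∀ᶠ n : ℕ in atTop, (20000 : ℝ) ≤ Real.log (n : ℝ) :=
    (Real.tendsto_log_atTop.comp tendsto_natCast_atTop_atTop).eventually_ge_atTop _
  have hpow : ∀ᶠ n : ℕ in atTop, (6 : ℝ) ≤ (n : ℝ) ^ ((1 : ℝ) / 450) :=
    ((tendsto_rpow_atTop (show (0 : ℝ) < 1 / 450 by norm_num)).comp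
      tendsto_natCast_atTop_atTop).eventually_ge_atTop 6
  filter_upwards [gs, rng_sizes, hlog, hpow, eventually_gt_atTop 0] with n hgs hsz hL hp hn0
  intro B hB
  obtain ⟨hb1, hb2, hb3, hb4, hb5⟩ := hsz B hB
  have hn1 : (1 : ℝ) ≤ n := by exact_mod_cast hn0
  have hn : (0 : ℝ) < n := by linarith
  set α : ℝ := (Bᶜ.card : ℝ) with hαd
  set β : ℝ := (B.card : ℝ) with hβd
  have hβ1 : 1 ≤ β := by rw [hβd]; exact_mod_cast hb1
  have hα : 0 < α := by linarith
  have hαn : α ≤ n := by linarith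
  -- `p = n^(1/50)`
  set p : ℝ := (n : ℝ) ^ ((1 : ℝ) / 50) with hpd
  have hp1 : 1 ≤ p := Real.one_le_rpow hn1 (by norm_num)
  have hp45 : 1 + 5 * p ≤ (n : ℝ) ^ ((1 : ℝ) / 45) := by
    have : (n : ℝ) ^ ((1 : ℝ) / 45) = p * (n : ℝ) ^ ((1 : ℝ) / 450) := by
      rw [hpd, ← Real.rpow_add hn]; norm_num
    rw [this]; nlinarith
  have hp45n : (n : ℝ) ^ ((1 : ℝ) / 45) ≤ n := by
    calc (n : ℝ) ^ ((1 : ℝ) / 45) ≤ (n : ℝ) ^ (1 : ℝ) :=
          Real.rpow_le_rpow_of_exponent_le hn1 (by norm_num)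
      _ = n := Real.rpow_one _
  have hwv : wv n = p / (n * n) := by
    unfold wv
    rw [hpd, eq_div_iff (by positivity)]
    calc (n : ℝ) ^ (-((99 : ℝ) / 50)) * (n * n)
        = (n : ℝ) ^ (-((99 : ℝ) / 50)) * ((n : ℝ) ^ (1 : ℝ) * (n : ℝ) ^ (1 : ℝ)) := by
          rw [Real.rpow_one]
      _ = (n : ℝ) ^ ((1 : ℝ) / 50) := by
          rw [← Real.rpow_add hn, ← Real.rpow_add hn]; norm_num
  set w : ℝ := wv n with hwd
  have hw0 : 0 ≤ w := by rw [hwv]; positivity
  have hL0 : 0 < Real.log (n : ℝ) := by linarith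
  -- sizes
  have hβn : β * 16000 < n := by
    have : β * (19998 / 10000 * 20000) ≤ β * (19998 / 10000 * Real.log n) := by gcongr
    nlinarith
  have hβα : β ≤ α := by linarith
  have hsβα : 10001 / 10000 * β ≤ α := by linarith
  -- the constant c
  set D1 : ℝ := (n : ℝ) ^ ((1 : ℝ) / 1000) with hD1
  have hD1p : D1 ≤ p := Real.rpow_le_rpow_of_exponent_le hn1 (by norm_num)
  have hD10 : 0 ≤ D1 := by positivity
  set c : ℝ := 10001 / 10000 / α * D1 with hcd
  have hc0 : 0 ≤ c := by positivity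
  have hαn99 : 99 / 100 * (n : ℝ) ≤ α := hb2
  have hcn : c * n ≤ 3 / 2 * p := by
    have h1 : (n : ℝ) / α ≤ 100 / 99 := by
      rw [div_le_iff₀ hα]; linarith
    calc c * n = 10001 / 10000 * (n / α) * D1 := by rw [hcd]; field_simp
      _ ≤ 10001 / 10000 * (100 / 99) * p := by gcongr
      _ ≤ 3 / 2 * p := by nlinarith
  have hwn : w * α * n ≤ p := by
    calc w * α * n ≤ w * n * n := by gcongr
      _ = p := by rw [hwv]; field_simp
  set δ : ℝ := 2 * w * α + 2 * c with hδ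
  have hδ0 : 0 ≤ δ := by positivity
  have hδn : δ * n ≤ 5 * p := by
    have : δ * n = 2 * (w * α * n) + 2 * (c * n) := by rw [hδ]; ring
    rw [this]; linarith
  have h5pn : 5 * p + 1 ≤ n := by linarith
  have hδ1 : δ ≤ 1 := by
    by_contra hcon
    push Not at hcon
    nlinarith
  -- condition of FG
  have hfg : (1 + (10001 / 10000) / α * 2) ^ (2 * B.card) ≤ (2 : ℝ) := by
    have h1 : (1 + (10001 / 10000) / α * 2) ≤ Real.exp ((10001 / 10000) / α * 2) := by
      have := Real.add_one_le_exp ((10001 / 10000) / α * 2); linarith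
    have h2 := pow_le_pow_left₀ (by positivity) h1 (2 * B.card)
    refine h2.trans ?_
    rw [← Real.exp_nat_mul]
    have h3 : ((2 * B.card : ℕ) : ℝ) * ((10001 / 10000) / α * 2) ≤ 1 / 2 := by
      push_cast
      rw [← hβd]
      have : (2 * β) * ((10001 / 10000) / α * 2) = (4 * (10001 / 10000) * β) / α := by
        field_simp; ring
      rw [this, div_le_iff₀ hα]
      linarith
    calc Real.exp _ ≤ Real.exp (1 / 2) := Real.exp_le_exp.2 h3
      _ ≤ 2 := by
        have h4 : Real.exp (1 / 2) ^ 2 = Real.exp 1 := by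
          rw [← Real.exp_nat_mul]; norm_num
        have h5 := Real.exp_one_lt_d9
        have h6 := Real.exp_pos (1 / 2)
        nlinarith
  -- the graph sum
  set f : ℕ → ℝ := fun d => (10001 / 10000) / α * (d : ℝ) ^ 2 +
    (if (n : ℝ) ^ ((1 : ℝ) / 32) ≤ d then (n : ℝ) ^ ((1 : ℝ) / 32) else 0) with hfd
  set ρ : ℝ := 1 / α * Real.exp (2 * w * α) with hρd
  have hρ0 : 0 ≤ ρ := by positivity
  have hwα1 : 2 * w * α ≤ 1 := by linarith
  have hexp3 : Real.exp (2 * w * α) ≤ 3 := by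
    refine (Real.exp_le_exp.2 hwα1).trans ?_
    have := Real.exp_one_lt_d9
    linarith
  have hρ : ρ ≤ 3 * Real.log n / n := by
    have h1 : 1 / α ≤ 2 / n := by
      rw [div_le_div_iff₀ hα hn]; linarith
    calc ρ ≤ 2 / n * 3 := by rw [hρd]; gcongr
      _ = 6 / n := by ring
      _ ≤ 3 * Real.log n / n := by gcongr; linarith
  set GG : Finset (Finset (Sym2 (Fin n))) := (fams B).image fG with hGG
  have hGGs : ∀ G ∈ GG, G ⊆ prs B := by
    intro G hG
    rw [hGG, mem_image] at hG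
    obtain ⟨Q, hQ, rfl⟩ := hG
    exact SB_fG_sub (mem_fams.1 hQ)
  have hc1 : c ≤ 1 := by
    have : 0 ≤ 2 * w * α := by positivity
    linarith
  have hfin := hgs B ρ c hρ0 hρ hc0 hc1 f GG (by
    intro G hG
    have hGs := hGGs G hG
    have hdeg : ∀ x, (dgr G x : ℝ) ≤ β := fun x => by
      rw [hβd]; exact_mod_cast SB_dgr_le hGs x
    refine ⟨hGs, ?_, ?_⟩
    · have : univ.filter (fun x => (n : ℝ) / 16000 ≤ dgr G x) = ∅ := by
        rw [filter_eq_empty_iff]
        intro x _ hx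
        have := hdeg x
        linarith
      rw [this]
      simp
      positivity
    · intro x
      have hd := hdeg x
      have hd0 : (0 : ℝ) ≤ dgr G x := Nat.cast_nonneg _
      refine ⟨?_, ?_, ?_⟩
      · intro h1
        have h2 : ¬ ((n : ℝ) ^ ((1 : ℝ) / 32) ≤ dgr G x) := by
          intro h3
          have h4 : (n : ℝ) ^ ((1 : ℝ) / 1000) ≤ (n : ℝ) ^ ((1 : ℝ) / 32) :=
            Real.rpow_le_rpow_of_exponent_le hn1 (by norm_num)
          linarith
        simp only [hfd, if_neg h2, add_zero]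
        rw [hcd]
        calc 10001 / 10000 / α * (dgr G x : ℝ) ^ 2
            = 10001 / 10000 / α * dgr G x * dgr G x := by ring
          _ ≤ 10001 / 10000 / α * D1 * dgr G x := by gcongr
      · intro h1 _
        have h3 : (if (n : ℝ) ^ ((1 : ℝ) / 32) ≤ dgr G x then (n : ℝ) ^ ((1 : ℝ) / 32) else 0) ≤
            (dgr G x : ℝ) := by
          split_ifs with h4
          · exact h4
          · exact hd0
        have h4 : 10001 / 10000 / α * (dgr G x : ℝ) ^ 2 ≤ dgr G x := by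
          have h5 : 10001 / 10000 / α * (dgr G x : ℝ) ≤ 1 := by
            have : 10001 / 10000 / α * (dgr G x : ℝ) = (10001 / 10000 * dgr G x) / α := by ring
            rw [this, div_le_one hα]
            linarith
          calc 10001 / 10000 / α * (dgr G x : ℝ) ^ 2
              = (10001 / 10000 / α * (dgr G x : ℝ)) * dgr G x := by ring
            _ ≤ 1 * dgr G x := by gcongr
            _ = dgr G x := one_mul _
        have h6 : f (dgr G x) ≤ 2 * dgr G x := by
          simp only [hfd]; linarith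
        refine h6.trans ?_
        have : 1 / 8000 * (dgr G x : ℝ) * 20000 ≤ 1 / 8000 * dgr G x * Real.log n := by gcongr
        linarith
      · intro h1
        linarith)
  -- regroup
  have hsum : ∑ Q ∈ fams B, (1 / α) ^ (fD Q).card *
      (10001 / 10000 : ℝ) ^ (fD Q \ fG Q).card *
      Real.exp (2 * w * α * (fG Q).card + (n : ℝ) ^ ((1 : ℝ) / 32) * hin (fG Q)) ≤
      ∑ G ∈ GG, ρ ^ G.card * Real.exp (∑ x, f (dgr G x)) := by
    rw [← sum_fiberwise_of_maps_to (t := GG) (g := fG)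
      (fun Q hQ => by rw [hGG]; exact mem_image_of_mem _ hQ)]
    exact sum_le_sum (fun G hG => SB_one G (hGGs G hG) α w hα hfg)
  refine hsum.trans (hfin.trans ?_)
  -- final comparison
  set C : ℕ := B.card.choose 2 with hC
  have hCle : (C : ℝ) ≤ β ^ 2 / 2 := by
    have := Nat.choose_le_pow_div (α := ℝ) 2 B.card
    simpa [hC, hβd] using this
  have h1 : 1 + ρ * Real.exp (2 * c) ≤ (1 + 1 / α) * Real.exp (2 * δ / α) := by
    have e1 : ρ * Real.exp (2 * c) = 1 / α * Real.exp δ := by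
      rw [hρd, hδ, Real.exp_add]; ring
    have e2 : Real.exp δ ≤ 1 + 2 * δ := by
      have h7 := Real.abs_exp_sub_one_sub_id_le (x := δ) (by rw [abs_of_nonneg hδ0]; exact hδ1)
      have h8 := (abs_le.1 h7).2
      nlinarith
    have e3 : 1 + 2 * δ / α ≤ Real.exp (2 * δ / α) := by
      have := Real.add_one_le_exp (2 * δ / α); linarith
    have e4 : (0 : ℝ) ≤ 2 * δ / α := by positivity
    have e5 : (0 : ℝ) ≤ 1 / α := by positivity
    calc 1 + ρ * Real.exp (2 * c) = 1 + 1 / α * Real.exp δ := by rw [e1]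
      _ ≤ 1 + 1 / α * (1 + 2 * δ) := by gcongr
      _ = (1 + 1 / α) + 2 * δ / α := by ring
      _ ≤ (1 + 1 / α) * (1 + 2 * δ / α) := by nlinarith [mul_nonneg e4 e5]
      _ ≤ (1 + 1 / α) * Real.exp (2 * δ / α) := by gcongr
  have h2 : (1 + ρ * Real.exp (2 * c)) ^ C ≤ (1 + 1 / α) ^ C * Real.exp (5 * p) := by
    calc (1 + ρ * Real.exp (2 * c)) ^ C ≤ ((1 + 1 / α) * Real.exp (2 * δ / α)) ^ C :=
          pow_le_pow_left₀ (by positivity) h1 _
      _ = (1 + 1 / α) ^ C * Real.exp (C * (2 * δ / α)) := by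
          rw [mul_pow, ← Real.exp_nat_mul]
      _ ≤ (1 + 1 / α) ^ C * Real.exp (5 * p) := by
          have : (C : ℝ) * (2 * δ / α) ≤ 5 * p := by
            calc (C : ℝ) * (2 * δ / α) ≤ (β ^ 2 / 2) * (2 * δ / α) := by gcongr
              _ = δ * β * (β / α) := by ring
              _ ≤ δ * β * 1 := by
                  have : β / α ≤ 1 := by rw [div_le_one hα]; exact hβα
                  gcongr
              _ ≤ δ * n := by
                  have : β ≤ n := by linarith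
                  rw [mul_one]; gcongr
              _ ≤ 5 * p := hδn
          gcongr
  have h3 : (2 : ℝ) ≤ Real.exp 1 := by
    have := Real.exp_one_gt_d9; linarith
  calc 2 * (1 + ρ * Real.exp (2 * c)) ^ C
      ≤ Real.exp 1 * ((1 + 1 / α) ^ C * Real.exp (5 * p)) := by gcongr
    _ = Real.exp (1 + 5 * p) * (1 + 1 / α) ^ C := by rw [Real.exp_add]; ring
    _ ≤ Real.exp ((n : ℝ) ^ ((1 : ℝ) / 45)) * (1 + 1 / α) ^ C := by gcongr

end PSys
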