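import Mathlib
import Pool.Agent.PSys.Spec

/-! Module MINZ (blueprint 2.2, first half): shortest nondirect hub-leaf pairs. -/

open Finset

namespace PSys

/-- a nondirect leaf-hub pair of minimal length has one of three shapes -/
theorem minz {n : ℕ} {P : Sys n} (hP : IsCPS P) (B : Finset (Fin n)) {u b : Fin n}
    (hu : u ∉ B) (hb : b ∈ B) (hd : ¬ Dir P u b)
    (hmin : ∀ x y, x ∉ B → y ∈ B → ¬ Dir P x y → (P u b).length ≤ (P x y).length) :
    (∃ a, a ∉ B ∧ P u b = [u, a, b]) ∨ (∃ c, c ∈ B ∧ P u b = [u, c, b]) ∨
      (∃ c a, c ∈ B ∧ a ∉ B ∧ P u b = [u, c, a, b]) := by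
  have hF := hP.fam
  have hub : u ≠ b := fun h => hu (h ▸ hb)
  have hne := hP.ne_nil u b
  have h1 := hF.hop_dir hne hub
  have h2 := hF.hop_mem hne hub
  have h3 := hF.cons_hop hne hub
  have h4 := hF.not_dir_hop_ne hne hub hd
  set x := hop P u b with hx
  by_cases hxB : x ∈ B
  · -- the last but one vertex
    have hne' := hP.ne_nil b u
    have k1 := hF.hop_dir hne' hub.symm
    have k2 := hF.hop_mem hne' hub.symm
    have k3 := hF.snoc_hop hne hub
    set z := hop P b u with hz
    have k2' : z ∈ P u b := hF.mem_symm.1 k2
    have k4 : z ≠ u := fun h => hd (by rw [h] at k1; exact hF.dir_symm.1 k1)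
    by_cases hzB : z ∈ B
    · right; left
      refine ⟨z, hzB, ?_⟩
      have h5 : (P u z).length < (P u b).length := hF.length_lt_left k2' k1.1.symm
      have h6 : Dir P u z := by
        by_contra h
        have := hmin u z hu hzB h
        omega
      rw [k3, h6.2]
      rfl
    · right; right
      refine ⟨x, z, hxB, hzB, ?_⟩
      have hzx : z ∈ P x b := by
        rcases (hF.split h2).1 k2' with h | h
        · rw [h1.2] at h
          simp only [List.mem_cons, List.not_mem_nil, or_false] at h
          rcases h with h | h
          · exact absurd h k4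
          · exact absurd hxB (h ▸ hzB)
        · exact h
      have h5 : (P x b).length < (P u b).length := hF.length_lt_right h2 h1.1
      have h6 : (P x z).length ≤ (P x b).length := by
        have := hF.length_add hzx
        have h7 : 0 < (P z b).length := List.length_pos_of_ne_nil (hP.ne_nil z b)
        omega
      have h7 : Dir P z x := by
        by_contra h
        have h8 := hmin z x hzB hxB h
        have h9 : (P z x).length = (P x z).length := by rw [hP.symm x z]; simp
        omega
      have h8 : Dir P x z := hF.dir_symm.1 h7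
      have h9 : Dir P z b := hF.dir_symm.1 k1
      rw [h3, hP.cons x b z hzx, h8.2, h9.2]
      rfl
  · left
    refine ⟨x, hxB, ?_⟩
    have h5 : (P x b).length < (P u b).length := hF.length_lt_right h2 h1.1
    have h6 : Dir P x b := by
      by_contra h
      have := hmin x b hxB hb h
      omega
    rw [h3, h6.2]

/-- if all leaf-hub pairs are direct then every path leaving its side is `[x, z, y]` -/
theorem allDir {n : ℕ} {P : Sys n} (hP : IsCPS P) (B : Finset (Fin n))
    (hd : ∀ x y, ¬ Same B x y → Dir P x y) {x y z : Fin n} (hxy : Same B x y) (hz : z ∈ P x y)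
    (hxz : ¬ Same B x z) : P x y = [x, z, y] := by
  have h1 : Dir P x z := hd x z hxz
  have h2 : Dir P z y := hd z y (fun h => hxz (by unfold Same at *; tauto))
  rw [hP.cons x y z hz, h1.2, h2.2]
  rfl

end PSys
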