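import Mathlib
import Pool.Agent.PSys.Spec
import Pool.Agent.PSys.Contr
import Pool.Agent.PSys.Minz

/-! Module SHORT (blueprint 2.2): existence of the data. -/

open Finset

namespace PSys

/-- base case: all leaf-hub pairs direct -/
theorem short_base {n : ℕ} {P : Sys n} (hP : IsCPS P) (B : Finset (Fin n))
    (hd : ∀ x y, ¬ Same B x y → Dir P x y) : ∃ lam mu l, HasDat B P lam mu l := by
  classical
  have hF := hP.fam
  -- labels
  have hex : ∀ C : Finset (Fin n), ∃ f : Lb n,
      (∀ e, f e = none ↔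
        ¬ ∃ u v, e = s(u, v) ∧ u ≠ v ∧ u ∉ C ∧ v ∉ C ∧ ¬ (∀ x ∈ P u v, x ∉ C)) ∧
      ∀ u v b, f s(u, v) = some b → b ∈ C ∧ b ∈ P u v := by
    intro C
    refine ⟨fun e => if h : ∃ b, b ∈ C ∧ ∃ u v, e = s(u, v) ∧ u ≠ v ∧ u ∉ C ∧ v ∉ C ∧ b ∈ P u v
      then some h.choose else none, ?_, ?_⟩
    · intro e
      constructor
      · intro h
        rintro ⟨u, v, h1, h2, h3, h4, h5⟩
        push Not at h5
        obtain ⟨x, hx1, hx2⟩ := h5
        beta_reduce at h
        rw [dif_pos ⟨x, hx2, u, v, h1, h2, h3, h4, hx1⟩] at h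
        exact absurd h (by simp)
      · intro h
        beta_reduce
        rw [dif_neg]
        rintro ⟨x, hx2, u, v, h1, h2, h3, h4, hx1⟩
        exact h ⟨u, v, h1, h2, h3, h4, fun h6 => h6 x hx1 hx2⟩
    · intro u v b h
      by_cases h0 : ∃ b, b ∈ C ∧ ∃ u' v', s(u, v) = s(u', v') ∧ u' ≠ v' ∧ u' ∉ C ∧ v' ∉ C ∧
          b ∈ P u' v'
      · simp only [dif_pos h0] at h
        have h1 := h0.choose_spec
        rw [Option.some_inj] at h
        rw [h] at h1
        obtain ⟨h2, u', v', h3, _, _, _, h4⟩ := h1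
        refine ⟨h2, ?_⟩
        rcases Sym2.eq_iff.1 h3 with ⟨rfl, rfl⟩ | ⟨rfl, rfl⟩
        · exact h4
        · exact hF.mem_symm.1 h4
      · simp only [dif_neg h0] at h
        exact absurd h (by simp)
  obtain ⟨lam, hl1, hl2⟩ := hex B
  obtain ⟨mu, hm1, hm2⟩ := hex Bᶜ
  refine ⟨lam, mu, fun _ _ => none, ⟨hl1, hl2, ?_, ?_, ?_, ?_, ?_, ?_, ?_, ?_, ?_⟩⟩
  · intro e
    rw [hm1 e]
    simp only [mem_compl, not_not]
  · intro b c a h
    have := hm2 b c a h
    rw [mem_compl] at this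
    exact this
  · intro u b
    simp only [true_iff]
    rintro ⟨h1, h2, h3⟩
    exact h3 (hd u b (fun h => h1 (h.2 h2)))
  all_goals (intros; simp_all)

theorem SHORT_leaf {n : ℕ} {P : Sys n} (B : Finset (Fin n)) {u b : Fin n}
    (hb : b ∈ B) (x y : Fin n) :
    (∀ z ∈ contr P u b x y, z ∉ B) ↔ (∀ z ∈ P x y, z ∉ B) := by
  by_cases h : u ∈ P x y ∧ b ∈ P x y
  · constructor
    · intro h1
      exact absurd hb (h1 b ((contr_mem_iff h b).2 ⟨h.2, Or.inr (Or.inl rfl)⟩))
    · intro h1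
      exact absurd hb (h1 b h.2)
  · rw [contr_eq h]

theorem SHORT_hub {n : ℕ} {P : Sys n} (B : Finset (Fin n)) {u b : Fin n}
    (hu : u ∉ B) (x y : Fin n) :
    (∀ z ∈ contr P u b x y, z ∈ B) ↔ (∀ z ∈ P x y, z ∈ B) := by
  by_cases h : u ∈ P x y ∧ b ∈ P x y
  · constructor
    · intro h1
      exact absurd (h1 u ((contr_mem_iff h u).2 ⟨h.1, Or.inl rfl⟩)) hu
    · intro h1
      exact absurd (h1 u h.1) hu
  · rw [contr_eq h]

theorem SHORT_order {n : ℕ} {P : Sys n} (hP : IsCPS P) {u v a b : Fin n} (hb : b ∈ P u v)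
    (ha : a ∈ P u b) : b ∈ P a v := by
  have hF := hP.fam
  exact hF.mem_symm.1 (hF.order (hF.mem_symm.2 hb) (hF.mem_symm.2 ha))

theorem SHORT_nd {n : ℕ} {P : Sys n} (hP : IsCPS P) (B : Finset (Fin n)) {u b c v : Fin n}
    (hb : b ∈ B) (hc : c ∈ P u b) (hcb : c ≠ b) (hv : v ∉ B) (hbv : b ∈ P u v) :
    ¬ Dir P v c := by
  intro h
  have h1 := SHORT_order hP hbv hc
  have h2 : b ∈ P v c := hP.fam.mem_symm.2 h1
  rw [h.2] at h2
  simp only [List.mem_cons, List.not_mem_nil, or_false] at h2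
  rcases h2 with h2 | h2
  · exact hv (h2 ▸ hb)
  · exact hcb h2.symm

/-- the existence of a label of a leaf pair -/
theorem SHORT_lam {n : ℕ} {P : Sys n} {B : Finset (Fin n)} {lam mu : Lb n} {l : Ty n}
    (hdat : HasDat B P lam mu l) {x y z : Fin n} (hxy : x ≠ y) (hx : x ∉ B) (hy : y ∉ B)
    (hz : z ∈ B) (hzp : z ∈ P x y) : ∃ b, lam s(x, y) = some b := by
  rw [← Option.ne_none_iff_exists']
  intro h
  exact (hdat.lam_none _).1 h ⟨x, y, rfl, hxy, hx, hy, fun h1 => h1 z hzp hz⟩

theorem SHORT_mu {n : ℕ} {P : Sys n} {B : Finset (Fin n)} {lam mu : Lb n} {l : Ty n}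
    (hdat : HasDat B P lam mu l) {x y z : Fin n} (hxy : x ≠ y) (hx : x ∈ B) (hy : y ∈ B)
    (hz : z ∉ B) (hzp : z ∈ P x y) : ∃ b, mu s(x, y) = some b := by
  rw [← Option.ne_none_iff_exists']
  intro h
  exact (hdat.mu_none _).1 h ⟨x, y, rfl, hxy, hx, hy, fun h1 => hz (h1 z hzp)⟩

theorem SHORT_lamE {n : ℕ} {P : Sys n} {B : Finset (Fin n)} {lam mu : Lb n} {l : Ty n}
    (hdat : HasDat B P lam mu l) {x y b : Fin n} (h : lam s(x, y) = some b) :
    x ≠ y ∧ x ∉ B ∧ y ∉ B := by
  have h1 : ¬ (lam s(x, y) = none) := by rw [h]; simp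
  rw [hdat.lam_none, not_not] at h1
  obtain ⟨u, v, h2, h3, h4, h5, _⟩ := h1
  rcases Sym2.eq_iff.1 h2 with ⟨rfl, rfl⟩ | ⟨rfl, rfl⟩
  · exact ⟨h3, h4, h5⟩
  · exact ⟨h3.symm, h5, h4⟩

/-- induction step: `u b` a nondirect leaf-hub pair of minimal length -/
theorem short_step {n : ℕ} {P : Sys n} (hP : IsCPS P) (B : Finset (Fin n)) {u b : Fin n}
    (hu : u ∉ B) (hb : b ∈ B) (hd : ¬ Dir P u b)
    (hmin : ∀ x y, x ∉ B → y ∈ B → ¬ Dir P x y → (P u b).length ≤ (P x y).length)
    {lam mu : Lb n} {l : Ty n} (hdat : HasDat B (contr P u b) lam mu l) :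
    ∃ l', HasDat B P lam mu l' := by
  classical
  have hF := hP.fam
  have hub : u ≠ b := fun h => hu (h ▸ hb)
  have hdir := contr_dir hP hub
  -- the type of the new pair
  obtain ⟨t, w, hcase⟩ : ∃ (t : Fin 3) (w : Fin n),
      (t = 0 ∧ w ∉ B ∧ P u b = [u, w, b]) ∨ (t = 1 ∧ w ∈ B ∧ P u b = [u, w, b]) ∨
      (t = 2 ∧ w ∈ B ∧ ∃ a, a ∉ B ∧ P u b = [u, w, a, b]) := by
    rcases minz hP B hu hb hd hmin with ⟨a, h1, h2⟩ | ⟨c, h1, h2⟩ | ⟨c, a, h1, h2, h3⟩
    · exact ⟨0, a, Or.inl ⟨rfl, h1, h2⟩⟩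
    · exact ⟨1, c, Or.inr (Or.inl ⟨rfl, h1, h2⟩)⟩
    · exact ⟨2, c, Or.inr (Or.inr ⟨rfl, h1, a, h2, h3⟩)⟩
  set l' : Ty n := fun x y => if x = u ∧ y = b then some (t, w) else l x y with hl'
  have hnew : l' u b = some (t, w) := by simp [hl']
  have hold : ∀ x y, ¬ (x = u ∧ y = b) → l' x y = l x y := by
    intro x y h
    simp only [hl']
    rw [if_neg h]
  have hmono : ∀ x y, l x y ≠ none → l' x y ≠ none := by
    intro x y h
    by_cases h1 : x = u ∧ y = b
    · rw [h1.1, h1.2, hnew]; simp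
    · rw [hold x y h1]; exact h
  have lnone : ∀ x y, l' x y = none ↔ ¬ (x ∉ B ∧ y ∈ B ∧ ¬ Dir P x y) := by
    intro x y
    by_cases h1 : x = u ∧ y = b
    · rw [h1.1, h1.2, hnew]
      simp [hu, hb, hd]
    · rw [hold x y h1, hdat.l_none, hdir]
      constructor
      · intro h2 h3
        apply h2
        refine ⟨h3.1, h3.2.1, ?_⟩
        rintro (h4 | h4)
        · exact h3.2.2 h4
        · rcases Sym2.eq_iff.1 h4 with h5 | h5
          · exact h1 h5
          · exact h3.1 (h5.1 ▸ hb)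
      · intro h2 h3
        exact h2 ⟨h3.1, h3.2.1, fun h4 => h3.2.2 (Or.inl h4)⟩
  have hside : ∀ x y, l x y ≠ none → x ∉ B ∧ y ∈ B := by
    intro x y h
    rw [Ne, hdat.l_none, not_not] at h
    exact ⟨h.1, h.2.1⟩
  -- facts on `P u b`
  have hneb := hP.ne_nil u b
  have hnd := hP.nodup u b
  have hwm : w ∈ P u b := by
    rcases hcase with ⟨_, _, h⟩ | ⟨_, _, h⟩ | ⟨_, _, a, _, h⟩ <;> rw [h] <;> simp
  have hwhop : Dir P u w := by
    have h1 := hF.hop_dir hneb hub
    have h2 : hop P u b = w := by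
      unfold hop
      rcases hcase with ⟨_, _, h⟩ | ⟨_, _, h⟩ | ⟨_, _, a, _, h⟩ <;> rw [h] <;> rfl
    rwa [h2] at h1
  have hwb : w ≠ b := by
    rintro rfl
    exact hd hwhop
  have lamS : ∀ x y c, lam s(x, y) = some c → c ∈ B ∧ c ∈ P x y := fun x y c h =>
    ⟨(hdat.lam_mem x y c h).1, contr_mem (hdat.lam_mem x y c h).2⟩
  have muS : ∀ x y c, mu s(x, y) = some c → c ∉ B ∧ c ∈ P x y := fun x y c h =>
    ⟨(hdat.mu_mem x y c h).1, contr_mem (hdat.mu_mem x y c h).2⟩
  have lamN : ∀ e, lam e = none ↔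
      ¬ ∃ u v, e = s(u, v) ∧ u ≠ v ∧ u ∉ B ∧ v ∉ B ∧ ¬ (∀ x ∈ P u v, x ∉ B) := by
    intro e
    rw [hdat.lam_none e]
    simp only [SHORT_leaf B hb]
  have muN : ∀ e, mu e = none ↔
      ¬ ∃ b c, e = s(b, c) ∧ b ≠ c ∧ b ∈ B ∧ c ∈ B ∧ ¬ (∀ x ∈ P b c, x ∈ B) := by
    intro e
    rw [hdat.mu_none e]
    simp only [SHORT_hub B hu]
  have lamE : ∀ {x y c}, lam s(x, y) = some c → x ≠ y ∧ x ∉ B ∧ y ∉ B :=
    fun h => SHORT_lamE hdat h
  have lamX : ∀ {x y z : Fin n}, x ≠ y → x ∉ B → y ∉ B → z ∈ B → z ∈ P x y →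
      ∃ c, lam s(x, y) = some c := by
    intro x y z h1 h2 h3 h4 h5
    rw [← Option.ne_none_iff_exists']
    intro h
    exact (lamN _).1 h ⟨x, y, rfl, h1, h2, h3, fun h6 => h6 z h5 h4⟩
  have muX : ∀ {x y z : Fin n}, x ≠ y → x ∈ B → y ∈ B → z ∉ B → z ∈ P x y →
      ∃ c, mu s(x, y) = some c := by
    intro x y z h1 h2 h3 h4 h5
    rw [← Option.ne_none_iff_exists']
    intro h
    exact (muN _).1 h ⟨x, y, rfl, h1, h2, h3, fun h6 => h4 (h6 z h5)⟩
  refine ⟨l', ⟨lamN, lamS, muN, muS, lnone, ?_, ?_, ?_, ?_, ?_, ?_⟩⟩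
  · -- ty1
    intro x y a h
    by_cases h1 : x = u ∧ y = b
    · obtain ⟨rfl, rfl⟩ := h1
      rw [hnew, Option.some_inj, Prod.mk.injEq] at h
      obtain ⟨rfl, rfl⟩ := h
      rcases hcase with ⟨_, h3, h⟩ | ⟨h2, _⟩ | ⟨h2, _⟩
      · exact ⟨h3, hwhop, hwm⟩
      · exact absurd h2 (by decide)
      · exact absurd h2 (by decide)
    · rw [hold x y h1] at h
      obtain ⟨h2, h3, h4⟩ := hdat.ty1 x y a h
      refine ⟨h2, ?_, contr_mem h4⟩
      rcases (hdir x a).1 h3 with h5 | h5
      · exact h5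
      · have h6 := hside x y (by rw [h]; simp)
        rcases Sym2.eq_iff.1 h5 with h7 | h7
        · exact absurd hb (h7.2 ▸ h2)
        · exact absurd hb (h7.1 ▸ h6.1)
  · -- ty2
    intro x y c h
    by_cases h1 : x = u ∧ y = b
    · obtain ⟨rfl, rfl⟩ := h1
      rw [hnew, Option.some_inj, Prod.mk.injEq] at h
      obtain ⟨rfl, rfl⟩ := h
      rcases hcase with ⟨h2, _⟩ | ⟨_, h3, h⟩ | ⟨h2, _⟩
      · exact absurd h2 (by decide)
      · refine ⟨h3, ?_, hwm⟩
        have h4 := hF.hop_dir (hP.ne_nil y x) hub.symm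
        have h5 : hop P y x = w := by
          unfold hop
          rw [hP.symm x y, h]
          rfl
        rw [h5] at h4
        exact hF.dir_symm.1 h4
      · exact absurd h2 (by decide)
    · rw [hold x y h1] at h
      obtain ⟨h2, h3, h4⟩ := hdat.ty2 x y c h
      refine ⟨h2, ?_, contr_mem h4⟩
      rcases (hdir c y).1 h3 with h5 | h5
      · exact h5
      · have h6 := hside x y (by rw [h]; simp)
        rcases Sym2.eq_iff.1 h5 with h7 | h7
        · exact absurd h2 (h7.1 ▸ hu)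
        · exact absurd h6.2 (h7.2 ▸ hu)
  · -- ty3
    intro x y c h
    by_cases h1 : x = u ∧ y = b
    · obtain ⟨rfl, rfl⟩ := h1
      rw [hnew, Option.some_inj, Prod.mk.injEq] at h
      obtain ⟨rfl, rfl⟩ := h
      rcases hcase with ⟨h2, _⟩ | ⟨h2, _⟩ | ⟨_, h3, a, ha, h⟩
      · exact absurd h2 (by decide)
      · exact absurd h2 (by decide)
      · refine ⟨h3, hwb, hwm, ?_⟩
        -- `P w y = [w, a, y]`
        have e1 : P w y = [w, a, y] := by
          have h4 := hF.cons_hop hneb hub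
          have h5 : hop P x y = w := by unfold hop; rw [h]; rfl
          rw [h5, h] at h4
          exact (List.cons.inj h4).2.symm
        have e2 : P x a = [x, w, a] := by
          have h4 := hF.snoc_hop hneb hub
          have h5 : hop P y x = a := by unfold hop; rw [hP.symm x y, h]; rfl
          rw [h5, h] at h4
          have h6 : [x, w, a] ++ [y] = P x a ++ [y] := h4
          exact (List.append_cancel_right h6).symm
        obtain ⟨a', ha'⟩ := muX hwb h3 hb ha (by rw [e1]; simp : a ∈ P w y)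
        have ha2 := muS w y a' ha'
        have haa : a' = a := by
          have h4 := ha2.2
          rw [e1] at h4
          simp only [List.mem_cons, List.not_mem_nil, or_false] at h4
          rcases h4 with h4 | h4 | h4
          · exact absurd h3 (h4 ▸ ha2.1)
          · exact h4
          · exact absurd hb (h4 ▸ ha2.1)
        subst haa
        refine ⟨a', ha', ha2.2, ?_⟩
        have hxa : x ≠ a' := by
          have h4 := hP.nodup x a'
          rw [e2] at h4
          simp at h4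
          exact h4.1.2
        obtain ⟨c', hc'⟩ := lamX hxa hu ha h3 (by rw [e2]; simp : w ∈ P x a')
        have hc2 := lamS x a' c' hc'
        have hcc : c' = w := by
          have h4 := hc2.2
          rw [e2] at h4
          simp only [List.mem_cons, List.not_mem_nil, or_false] at h4
          rcases h4 with h4 | h4 | h4
          · exact absurd hc2.1 (h4 ▸ hu)
          · exact h4
          · exact absurd hc2.1 (h4 ▸ ha)
        rw [hc', hcc]
    · rw [hold x y h1] at h
      obtain ⟨h2, h3, h4, a, h5, h6, h7⟩ := hdat.ty3 x y c h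
      exact ⟨h2, h3, contr_mem h4, a, h5, contr_mem h6, h7⟩
  · -- user1
    intro x y a v h hlam
    by_cases h1 : x = u ∧ y = b
    · obtain ⟨rfl, rfl⟩ := h1
      rw [hnew, Option.some_inj, Prod.mk.injEq] at h
      obtain ⟨rfl, rfl⟩ := h
      rcases hcase with ⟨_, h3, h⟩ | ⟨h2, _⟩ | ⟨h2, _⟩
      · by_cases h4 : l' v y = none
        · right
          rw [lnone] at h4
          have hv := (lamE hlam).2.2
          have hvd : Dir P v y := by
            by_contra h5
            exact h4 ⟨hv, hb, h5⟩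
          have hyv : y ∈ P x v := (lamS x v y hlam).2
          have h5 : y ∈ P w v := SHORT_order hP hyv hwm
          have hwy : Dir P w y := by
            have h6 := hF.hop_dir (hP.ne_nil y x) hub.symm
            have h7 : hop P y x = w := by
              unfold hop
              rw [hP.symm x y, h]
              rfl
            rw [h7] at h6
            exact hF.dir_symm.1 h6
          have hyv' : Dir P y v := hF.dir_symm.1 hvd
          have e : P w v = [w, y, v] := by
            rw [hP.cons w v y h5, hwy.2, hyv'.2]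
            rfl
          have hwv : w ≠ v := by
            have h6 := hP.nodup w v
            rw [e] at h6
            simp at h6
            exact h6.1.2
          obtain ⟨c, hc⟩ := lamX hwv h3 hv hb h5
          have hc2 := lamS w v c hc
          have hcc : c = y := by
            have h6 := hc2.2
            rw [e] at h6
            simp only [List.mem_cons, List.not_mem_nil, or_false] at h6
            rcases h6 with h6 | h6 | h6
            · exact absurd hc2.1 (h6 ▸ h3)
            · exact h6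
            · exact absurd hc2.1 (h6 ▸ hv)
          rw [hc, hcc]
        · exact Or.inl h4
      · exact absurd h2 (by decide)
      · exact absurd h2 (by decide)
    · rw [hold x y h1] at h
      rcases hdat.user1 x y a v h hlam with h2 | h2
      · exact Or.inl (hmono _ _ h2)
      · exact Or.inr h2
  · -- user2
    intro x y c v h hlam
    by_cases h1 : x = u ∧ y = b
    · obtain ⟨rfl, rfl⟩ := h1
      rw [hnew, Option.some_inj, Prod.mk.injEq] at h
      obtain ⟨rfl, rfl⟩ := h
      rcases hcase with ⟨h2, _⟩ | ⟨_, h3, h⟩ | ⟨h2, _⟩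
      · exact absurd h2 (by decide)
      · rw [Ne, lnone, not_not]
        have hv := (lamE hlam).2.2
        exact ⟨hv, h3, SHORT_nd hP B hb hwm hwb hv (lamS x v y hlam).2⟩
      · exact absurd h2 (by decide)
    · rw [hold x y h1] at h
      exact hmono _ _ (hdat.user2 x y c v h hlam)
  · -- user3
    intro x y c v h hlam
    by_cases h1 : x = u ∧ y = b
    · obtain ⟨rfl, rfl⟩ := h1
      rw [hnew, Option.some_inj, Prod.mk.injEq] at h
      obtain ⟨rfl, rfl⟩ := h
      rcases hcase with ⟨h2, _⟩ | ⟨h2, _⟩ | ⟨_, h3, a, ha, h⟩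
      · exact absurd h2 (by decide)
      · exact absurd h2 (by decide)
      · rw [Ne, lnone, not_not]
        have hv := (lamE hlam).2.2
        exact ⟨hv, h3, SHORT_nd hP B hb hwm hwb hv (lamS x v y hlam).2⟩
    · rw [hold x y h1] at h
      exact hmono _ _ (hdat.user3 x y c v h hlam)

open Classical in
theorem SHORT_ind {n : ℕ} (B : Finset (Fin n)) : ∀ (k : ℕ) (P : Sys n), IsCPS P →
    (univ.filter (fun p : Fin n × Fin n => p.1 ∉ B ∧ p.2 ∈ B ∧ ¬ Dir P p.1 p.2)).card = k →
    ∃ lam mu l, HasDat B P lam mu l := by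
  intro k
  induction k using Nat.strong_induction_on with
  | _ k ih =>
    intro P hP hk
    set Z := univ.filter (fun p : Fin n × Fin n => p.1 ∉ B ∧ p.2 ∈ B ∧ ¬ Dir P p.1 p.2) with hZ
    rcases Z.eq_empty_or_nonempty with h0 | h0
    · refine short_base hP B ?_
      have h1 : ∀ x y, x ∉ B → y ∈ B → Dir P x y := by
        intro x y hx hy
        by_contra h
        have : (x, y) ∈ Z := by
          rw [hZ, mem_filter]
          exact ⟨mem_univ _, hx, hy, h⟩
        rw [h0] at this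
        simp at this
      intro x y hxy
      by_cases hx : x ∈ B
      · have hy : y ∉ B := fun hy => hxy ⟨fun _ => hy, fun _ => hx⟩
        exact hP.fam.dir_symm.1 (h1 y x hy hx)
      · have hy : y ∈ B := by
          by_contra hy
          exact hxy ⟨fun h => absurd h hx, fun h => absurd h hy⟩
        exact h1 x y hx hy
    · obtain ⟨⟨u, b⟩, hub, hmin⟩ := Z.exists_min_image (fun p => (P p.1 p.2).length) h0
      rw [hZ, mem_filter] at hub
      obtain ⟨_, hu, hb, hd⟩ := hub
      simp only at hu hb hd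
      have hne : u ≠ b := fun h => hu (h ▸ hb)
      have hlt : (univ.filter (fun p : Fin n × Fin n =>
          p.1 ∉ B ∧ p.2 ∈ B ∧ ¬ Dir (contr P u b) p.1 p.2)).card < k := by
        rw [← hk]
        refine card_lt_card ⟨?_, ?_⟩
        · intro p hp
          rw [mem_filter] at hp
          rw [hZ, mem_filter]
          refine ⟨mem_univ _, hp.2.1, hp.2.2.1, fun h => hp.2.2.2 ?_⟩
          exact (contr_dir hP hne _ _).2 (Or.inl h)
        · intro hsub
          have h1 : (u, b) ∈ Z := by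
            rw [hZ, mem_filter]
            exact ⟨mem_univ _, hu, hb, hd⟩
          have h2 := hsub h1
          rw [mem_filter] at h2
          exact h2.2.2.2 ((contr_dir hP hne _ _).2 (Or.inr rfl))
      obtain ⟨lam, mu, l, hdat⟩ := ih _ hlt (contr P u b) (contr_cps hP hne) rfl
      obtain ⟨l', hl'⟩ := short_step hP B hu hb hd (fun x y hx hy hxy => by
        exact hmin (x, y) (by rw [hZ, mem_filter]; exact ⟨mem_univ _, hx, hy, hxy⟩)) hdat
      exact ⟨lam, mu, l', hl'⟩

/-- Blueprint 2.2, Theorem SHORT (induction on the number of nondirect leaf-hub pairs). -/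
theorem short {n : ℕ} {P : Sys n} (hP : IsCPS P) (B : Finset (Fin n)) :
    ∃ lam mu l, HasDat B P lam mu l := by
  classical
  exact SHORT_ind B _ P hP rfl

end PSys
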