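import Mathlib
import Pool.Agent.PSys.Short
import Pool.Agent.PSys.Det
import Pool.Agent.PSys.Restr
import Pool.Agent.PSys.Cnt
import Pool.Agent.PSys.SA
import Pool.Agent.PSys.SB
import Pool.Agent.PSys.GoodOf
import Pool.Agent.PSys.BaseSum
import Pool.Agent.PSys.Num2

/-! Stage 2 assembled (blueprint 3.9). -/

open Finset Filter

namespace PSys

open Classical in
/-- systems with coarse structure and hub set `B` -/
noncomputable def CB {n : ℕ} (B : Finset (Fin n)) : Finset (Sys n) :=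
  (cps n).filter (fun P => CS1 (fG P) ∧ hubs (fG P) = B)

/-- the weight of a family -/
noncomputable def wQ {n : ℕ} (Q : Sys n) : ℝ :=
  (10001 / 10000 : ℝ) ^ (fD Q \ fG Q).card * Real.exp ((n : ℝ) ^ ((1 : ℝ) / 32) * hin (fG Q))

open Classical in
/-- the weight of the remaining data -/
noncomputable def wX {n : ℕ} (x : Lb n × Lb n × Ty n) : ℝ :=
  Real.exp ((Zs x.2.2).card) +
    (if BMl x.1 x.2.2 ∨ BMm x.2.1 then Real.exp ((n : ℝ) ^ ((1 : ℝ) / 32)) else 0)

/-- the data of a system -/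
noncomputable def dt {n : ℕ} (B : Finset (Fin n)) (P : Sys n) (hP : IsCPS P) :
    Lb n × Lb n × Ty n :=
  ((short hP B).choose, (short hP B).choose_spec.choose,
    (short hP B).choose_spec.choose_spec.choose)

theorem dt_spec {n : ℕ} (B : Finset (Fin n)) (P : Sys n) (hP : IsCPS P) :
    HasDat B P (dt B P hP).1 (dt B P hP).2.1 (dt B P hP).2.2 :=
  (short hP B).choose_spec.choose_spec.choose_spec

open Classical in
/-- the data, for arbitrary `P` -/
noncomputable def dt' {n : ℕ} (B : Finset (Fin n)) (P : Sys n) : Lb n × Lb n × Ty n :=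
  if hP : IsCPS P then dt B P hP else (fun _ => none, fun _ => none, fun _ _ => none)

theorem dt'_spec {n : ℕ} (B : Finset (Fin n)) (P : Sys n) (hP : IsCPS P) :
    HasDat B P (dt' B P).1 (dt' B P).2.1 (dt' B P).2.2 := by
  unfold dt'
  rw [dif_pos hP]
  exact dt_spec B P hP

/-- the weight of a system -/
noncomputable def Psi {n : ℕ} (B : Finset (Fin n)) (P : Sys n) : ℝ :=
  wQ (restr Bᶜ P) * wQ (restr B P) * wX (dt' B P)

theorem wQ_nonneg {n : ℕ} (Q : Sys n) : 0 ≤ wQ Q := by unfold wQ; positivity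

theorem wQ_one {n : ℕ} (Q : Sys n) : 1 ≤ wQ Q := by
  unfold wQ
  have h1 : (1 : ℝ) ≤ (10001 / 10000 : ℝ) ^ (fD Q \ fG Q).card := one_le_pow₀ (by norm_num)
  have h2 : (1 : ℝ) ≤ Real.exp ((n : ℝ) ^ ((1 : ℝ) / 32) * hin (fG Q)) :=
    Real.one_le_exp (by positivity)
  nlinarith

theorem wX_nonneg {n : ℕ} (x : Lb n × Lb n × Ty n) : 0 ≤ wX x := by
  unfold wX
  split_ifs <;> positivity

theorem wX_one {n : ℕ} (x : Lb n × Lb n × Ty n) : 1 ≤ wX x := by
  unfold wX
  have h1 : (1 : ℝ) ≤ Real.exp ((Zs x.2.2).card) := Real.one_le_exp (by positivity)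
  split_ifs <;> [skip; linarith]
  have := Real.exp_pos ((n : ℝ) ^ ((1 : ℝ) / 32))
  linarith

theorem card_EA {n : ℕ} {B : Finset (Fin n)} {QA : Sys n} (hQA : IsFam Bᶜ QA) :
    (fD QA).card + (EA B QA).card = Bᶜ.card.choose 2 := by
  classical
  have hsub : fD QA ⊆ prs Bᶜ := by
    intro e
    induction e with
    | _ u v =>
      intro h
      obtain ⟨h1, h2⟩ := (mem_fD hQA).1 h
      exact mem_prs.2 ⟨h1, hQA.left_mem h2, hQA.right_mem h2⟩
  unfold EA
  rw [← card_prs Bᶜ, card_sdiff_of_subset hsub]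
  have := card_le_card hsub
  omega

theorem card_EB {n : ℕ} {B : Finset (Fin n)} {QB : Sys n} (hQB : IsFam B QB) :
    (fD QB).card + (EB B QB).card = B.card.choose 2 := by
  classical
  have hsub : fD QB ⊆ prs B := by
    intro e
    induction e with
    | _ u v =>
      intro h
      obtain ⟨h1, h2⟩ := (mem_fD hQB).1 h
      exact mem_prs.2 ⟨h1, hQB.left_mem h2, hQB.right_mem h2⟩
  unfold EB
  rw [← card_prs B, card_sdiff_of_subset hsub]
  have := card_le_card hsub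
  omega

theorem hub_deg {n : ℕ} {P : Sys n} {b : Fin n} (hb : b ∈ hubs (fG P)) :
    (1 - 1 / 1000) * (n : ℝ) ≤ dgr (fG P) b := by
  unfold hubs at hb
  simpa using hb

theorem CB_famsA {n : ℕ} {B : Finset (Fin n)} {P : Sys n} (hP : P ∈ CB B) :
    restr Bᶜ P ∈ famsA B := by
  classical
  unfold CB at hP
  rw [mem_filter] at hP
  obtain ⟨h0, ⟨h1, h2⟩, h3⟩ := hP
  have hcps := mem_cps.1 h0
  unfold famsA
  rw [mem_filter]
  refine ⟨mem_fams.2 (restr_fam hcps _), ?_, ?_⟩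
  · intro x
    have h4 := restr_dgr hcps Bᶜ x
    by_cases hx : x ∈ B
    · have h5 := h4.2 (by simp [hx])
      rw [h5]
      have hn : (0 : ℝ) < n := by
        have := x.pos
        exact_mod_cast this
      push_cast
      nlinarith
    · have h6 : ¬ ((1 - 1 / 1000) * (n : ℝ) ≤ dgr (fG P) x) := by
        intro h7
        apply hx
        rw [← h3]
        unfold hubs
        simpa using h7
      push Not at h6
      have h8 : ((dgr (fG (restr Bᶜ P)) x : ℕ) : ℝ) ≤ dgr (fG P) x := by exact_mod_cast h4.1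
      linarith
  · rw [restr_fG hcps, ← h3]
    exact h2

open Classical in
theorem CB_vdat {n : ℕ} {B : Finset (Fin n)} {P : Sys n} (hP : P ∈ CB B) :
    VDat B (restr Bᶜ P) (restr B P) (dt' B P).1 (dt' B P).2.1 (dt' B P).2.2 := by
  unfold CB at hP
  rw [mem_filter] at hP
  obtain ⟨h0, ⟨h1, h2⟩, h3⟩ := hP
  have hcps := mem_cps.1 h0
  apply vdat_of_has hcps B (dt'_spec B P hcps)
  intro b hb
  rw [← h3] at hb
  exact hub_deg hb

open Classical in
/-- the sum of the weights, first form -/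
theorem sum_Psi_le {n : ℕ} (B : Finset (Fin n)) :
    ∑ P ∈ CB B, Psi B P ≤ ∑ QA ∈ famsA B, ∑ QB ∈ fams B, wQ QA * wQ QB *
      ∑ x ∈ (univ : Finset (Lb n × Lb n × Ty n)).filter
        (fun x => VDat B QA QB x.1 x.2.1 x.2.2), wX x := by
  set S : Finset (Sys n × Sys n × (Lb n × Lb n × Ty n)) :=
    (famsA B ×ˢ (fams B ×ˢ univ)).filter
      (fun z => VDat B z.1 z.2.1 z.2.2.1 z.2.2.2.1 z.2.2.2.2) with hS
  have h1 : ∑ P ∈ CB B, Psi B P =
      ∑ z ∈ (CB B).image (fun P => (restr Bᶜ P, restr B P, dt' B P)),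
        wQ z.1 * wQ z.2.1 * wX z.2.2 := by
    rw [sum_image]
    · rfl
    · intro P hP P' hP' h
      simp only [Prod.mk.injEq] at h
      obtain ⟨ha, hb, hc⟩ := h
      have hcps : IsCPS P := mem_cps.1 (mem_filter.1 hP).1
      have hcps' : IsCPS P' := mem_cps.1 (mem_filter.1 hP').1
      have h5 := dt'_spec B P hcps
      have h6 := dt'_spec B P' hcps'
      rw [← hc] at h6
      exact det hcps hcps' B h5 h6 ha hb
  have h2 : (CB B).image (fun P => (restr Bᶜ P, restr B P, dt' B P)) ⊆ S := by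
    intro z hz
    obtain ⟨P, hP, rfl⟩ := mem_image.1 hz
    rw [hS, mem_filter, mem_product, mem_product]
    refine ⟨⟨CB_famsA hP, ?_, mem_univ _⟩, CB_vdat hP⟩
    exact mem_fams.2 (restr_fam (mem_cps.1 (mem_filter.1 hP).1) _)
  rw [h1]
  refine (sum_le_sum_of_subset_of_nonneg h2 ?_).trans (le_of_eq ?_)
  · intro z _ _
    exact mul_nonneg (mul_nonneg (wQ_nonneg _) (wQ_nonneg _)) (wX_nonneg _)
  · rw [hS, sum_filter, sum_product]
    apply sum_congr rfl
    intro QA _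
    rw [sum_product]
    apply sum_congr rfl
    intro QB _
    rw [sum_filter, mul_sum]
    apply sum_congr rfl
    intro x _
    split_ifs <;> simp

/-- the sum of the weights is small -/
theorem sum_Psi : ∀ᶠ n : ℕ in atTop, ∀ (B : Finset (Fin n)), Rng B →
    ∑ P ∈ CB B, Psi B P ≤ Real.exp ((n : ℝ) ^ ((1 : ℝ) / 42)) * baseN B := by
  classical
  filter_upwards [cnt, sa, sb, rng_sizes, num2a] with n h1 h2 h3 h4 h5
  intro B hB
  obtain ⟨hB1, hA1, -⟩ := h4 B hB
  have hβ : (0 : ℝ) < B.card := by exact_mod_cast hB1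
  have hα : (0 : ℝ) < Bᶜ.card := by
    have := (h5 B hB).1
    exact_mod_cast this
  refine (sum_Psi_le B).trans ?_
  have key : ∀ QA ∈ famsA B, ∀ QB ∈ fams B, wQ QA * wQ QB *
      ∑ x ∈ (univ : Finset (Lb n × Lb n × Ty n)).filter
        (fun x => VDat B QA QB x.1 x.2.1 x.2.2), wX x ≤
      (4 * (B.card : ℝ) ^ (Bᶜ.card.choose 2) * (Bᶜ.card : ℝ) ^ (B.card.choose 2) *
        Real.exp (2 * wv n * Bᶜ.card * B.card)) *
      (((1 / (B.card : ℝ)) ^ (fD QA).card *
      (10001 / 10000 : ℝ) ^ (fD QA \ fG QA).card *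
      Real.exp (n * badn QA + 2 * wv n * B.card * (fG QA).card +
        (n : ℝ) ^ ((1 : ℝ) / 32) * hin (fG QA))) *
      ((1 / (Bᶜ.card : ℝ)) ^ (fD QB).card *
      (10001 / 10000 : ℝ) ^ (fD QB \ fG QB).card *
      Real.exp (2 * wv n * Bᶜ.card * (fG QB).card +
        (n : ℝ) ^ ((1 : ℝ) / 32) * hin (fG QB)))) := by
    intro QA hQA QB hQB
    have hfA : IsFam Bᶜ QA := mem_fams.1 (mem_filter.1 hQA).1
    have hfB : IsFam B QB := mem_fams.1 hQB
    have h6 := h1 B hB QA QB hfA hfB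
    have h7 : ∑ x ∈ (univ : Finset (Lb n × Lb n × Ty n)).filter
        (fun x => VDat B QA QB x.1 x.2.1 x.2.2), wX x ≤ 4 * cntX B QA QB := h6
    have h8 := mul_le_mul_of_nonneg_left h7 (mul_nonneg (wQ_nonneg QA) (wQ_nonneg QB))
    refine h8.trans (le_of_eq ?_)
    have e1 : (B.card : ℝ) ^ (EA B QA).card =
        (B.card : ℝ) ^ (Bᶜ.card.choose 2) * (1 / (B.card : ℝ)) ^ (fD QA).card := by
      rw [← card_EA hfA, pow_add, one_div, inv_pow]
      field_simp
    have e2 : (Bᶜ.card : ℝ) ^ (EB B QB).card =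
        (Bᶜ.card : ℝ) ^ (B.card.choose 2) * (1 / (Bᶜ.card : ℝ)) ^ (fD QB).card := by
      rw [← card_EB hfB, pow_add, one_div, inv_pow]
      field_simp
    unfold cntX wQ
    rw [e1, e2]
    have e3 : Real.exp (n * badn QA + 2 * wv n * B.card * (fG QA).card +
        2 * wv n * Bᶜ.card * (fG QB).card + 2 * wv n * Bᶜ.card * B.card) *
        (Real.exp ((n : ℝ) ^ ((1 : ℝ) / 32) * hin (fG QA)) *
        Real.exp ((n : ℝ) ^ ((1 : ℝ) / 32) * hin (fG QB))) =
        Real.exp (2 * wv n * Bᶜ.card * B.card) *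
        (Real.exp (n * badn QA + 2 * wv n * B.card * (fG QA).card +
        (n : ℝ) ^ ((1 : ℝ) / 32) * hin (fG QA)) *
        Real.exp (2 * wv n * Bᶜ.card * (fG QB).card +
        (n : ℝ) ^ ((1 : ℝ) / 32) * hin (fG QB))) := by
      simp only [← Real.exp_add]
      congr 1
      ring
    calc _ = 4 * (B.card : ℝ) ^ (Bᶜ.card.choose 2) * (Bᶜ.card : ℝ) ^ (B.card.choose 2) *
          (1 / (B.card : ℝ)) ^ (fD QA).card * (1 / (Bᶜ.card : ℝ)) ^ (fD QB).card *
          (10001 / 10000 : ℝ) ^ (fD QA \ fG QA).card *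
          (10001 / 10000 : ℝ) ^ (fD QB \ fG QB).card *
          (Real.exp (n * badn QA + 2 * wv n * B.card * (fG QA).card +
            2 * wv n * Bᶜ.card * (fG QB).card + 2 * wv n * Bᶜ.card * B.card) *
          (Real.exp ((n : ℝ) ^ ((1 : ℝ) / 32) * hin (fG QA)) *
          Real.exp ((n : ℝ) ^ ((1 : ℝ) / 32) * hin (fG QB)))) := by ring
      _ = _ := by rw [e3]; ring
  have h9 := sum_le_sum (fun QA hQA => sum_le_sum (fun QB hQB => key QA hQA QB hQB))
  refine h9.trans ?_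
  have h10 := h2 B hB
  have h11 := h3 B hB
  set SA := ∑ Q ∈ famsA B, (1 / (B.card : ℝ)) ^ (fD Q).card *
      (10001 / 10000 : ℝ) ^ (fD Q \ fG Q).card *
      Real.exp (n * badn Q + 2 * wv n * B.card * (fG Q).card +
        (n : ℝ) ^ ((1 : ℝ) / 32) * hin (fG Q)) with hSA
  set SB := ∑ Q ∈ fams B, (1 / (Bᶜ.card : ℝ)) ^ (fD Q).card *
      (10001 / 10000 : ℝ) ^ (fD Q \ fG Q).card *
      Real.exp (2 * wv n * Bᶜ.card * (fG Q).card +
        (n : ℝ) ^ ((1 : ℝ) / 32) * hin (fG Q)) with hSB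
  have hSB0 : 0 ≤ SB := by
    rw [hSB]; apply sum_nonneg; intro Q _; positivity
  simp only [← mul_sum]
  rw [← hSB, ← sum_mul, ← hSA]
  have h12 : SA * SB ≤ (Real.exp ((n : ℝ) ^ ((1 : ℝ) / 45)) *
      (1 + 1 / (B.card : ℝ)) ^ (Bᶜ.card.choose 2)) * (Real.exp ((n : ℝ) ^ ((1 : ℝ) / 45)) *
      (1 + 1 / (Bᶜ.card : ℝ)) ^ (B.card.choose 2)) :=
    mul_le_mul h10 h11 hSB0 (by positivity)
  have h13 := (h5 B hB).2
  have f1 : (B.card : ℝ) ^ (Bᶜ.card.choose 2) * (1 + 1 / (B.card : ℝ)) ^ (Bᶜ.card.choose 2) =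
      (1 + B.card : ℝ) ^ (Bᶜ.card.choose 2) := by
    rw [← mul_pow]; congr 1; field_simp
    ring
  have f2 : (Bᶜ.card : ℝ) ^ (B.card.choose 2) * (1 + 1 / (Bᶜ.card : ℝ)) ^ (B.card.choose 2) =
      (1 + Bᶜ.card : ℝ) ^ (B.card.choose 2) := by
    rw [← mul_pow]; congr 1; field_simp
    ring
  calc _ ≤ (4 * (B.card : ℝ) ^ (Bᶜ.card.choose 2) * (Bᶜ.card : ℝ) ^ (B.card.choose 2) *
        Real.exp (2 * wv n * Bᶜ.card * B.card)) * ((Real.exp ((n : ℝ) ^ ((1 : ℝ) / 45)) *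
      (1 + 1 / (B.card : ℝ)) ^ (Bᶜ.card.choose 2)) * (Real.exp ((n : ℝ) ^ ((1 : ℝ) / 45)) *
      (1 + 1 / (Bᶜ.card : ℝ)) ^ (B.card.choose 2))) := by
        apply mul_le_mul_of_nonneg_left h12; positivity
    _ = (4 * Real.exp (2 * wv n * Bᶜ.card * B.card) * (Real.exp ((n : ℝ) ^ ((1 : ℝ) / 45)) *
        Real.exp ((n : ℝ) ^ ((1 : ℝ) / 45)))) *
        (((B.card : ℝ) ^ (Bᶜ.card.choose 2) * (1 + 1 / (B.card : ℝ)) ^ (Bᶜ.card.choose 2)) *
        ((Bᶜ.card : ℝ) ^ (B.card.choose 2) * (1 + 1 / (Bᶜ.card : ℝ)) ^ (B.card.choose 2))) := by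
        ring
    _ = (4 * Real.exp (2 * wv n * Bᶜ.card * B.card) * (Real.exp ((n : ℝ) ^ ((1 : ℝ) / 45)) *
        Real.exp ((n : ℝ) ^ ((1 : ℝ) / 45)))) * baseN B := by
        rw [f1, f2]; rfl
    _ ≤ _ := by
        apply mul_le_mul_of_nonneg_right h13
        unfold baseN; positivity

/-- a system with coarse structure which is not good has a large weight -/
theorem Psi_large : ∀ᶠ n : ℕ in atTop, ∀ (B : Finset (Fin n)), Rng B → ∀ P ∈ CB B,
    ¬ Good B P → Real.exp ((n : ℝ) ^ ((1 : ℝ) / 32)) ≤ Psi B P := by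
  classical
  filter_upwards [goodOf, num2b] with n h1 h2
  intro B hB P hP hnot
  have hcps : IsCPS P := mem_cps.1 (mem_filter.1 hP).1
  by_contra hlt
  push Not at hlt
  apply hnot
  set E := Real.exp ((n : ℝ) ^ ((1 : ℝ) / 32)) with hE
  have a1 := wQ_one (restr Bᶜ P)
  have a2 := wQ_one (restr B P)
  have a3 := wX_one (dt' B P)
  have b1 : wQ (restr Bᶜ P) < E := by
    refine lt_of_le_of_lt ?_ hlt
    unfold Psi
    have : 1 ≤ wQ (restr B P) * wX (dt' B P) := by nlinarith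
    rw [mul_assoc]
    exact le_mul_of_one_le_right (wQ_nonneg _) this
  have b2 : wQ (restr B P) < E := by
    refine lt_of_le_of_lt ?_ hlt
    unfold Psi
    have : 1 ≤ wQ (restr Bᶜ P) * wX (dt' B P) := by nlinarith
    calc wQ (restr B P) ≤ wQ (restr B P) * (wQ (restr Bᶜ P) * wX (dt' B P)) :=
          le_mul_of_one_le_right (wQ_nonneg _) this
      _ = _ := by ring
  have b3 : wX (dt' B P) < E := by
    refine lt_of_le_of_lt ?_ hlt
    unfold Psi
    have : 1 ≤ wQ (restr Bᶜ P) * wQ (restr B P) := by nlinarith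
    calc wX (dt' B P) ≤ wX (dt' B P) * (wQ (restr Bᶜ P) * wQ (restr B P)) :=
          le_mul_of_one_le_right (wX_nonneg _) this
      _ = _ := by ring
  have hq : ∀ Q : Sys n, wQ Q < E → hin (fG Q) = 0 ∧
      ((fD Q \ fG Q).card : ℝ) ≤ (n : ℝ) ^ ((1 : ℝ) / 31) := by
    intro Q hQ
    unfold wQ at hQ
    have c1 : (1 : ℝ) ≤ (10001 / 10000 : ℝ) ^ (fD Q \ fG Q).card := one_le_pow₀ (by norm_num)
    have c2 : (1 : ℝ) ≤ Real.exp ((n : ℝ) ^ ((1 : ℝ) / 32) * hin (fG Q)) :=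
      Real.one_le_exp (by positivity)
    refine ⟨?_, ?_⟩
    · by_contra h0
      have h3 : (1 : ℝ) ≤ hin (fG Q) := by
        have : 1 ≤ hin (fG Q) := Nat.one_le_iff_ne_zero.2 h0
        exact_mod_cast this
      have h4 : E ≤ Real.exp ((n : ℝ) ^ ((1 : ℝ) / 32) * hin (fG Q)) := by
        rw [hE]
        apply Real.exp_le_exp.2
        have : (0 : ℝ) ≤ (n : ℝ) ^ ((1 : ℝ) / 32) := by positivity
        nlinarith
      have h5 : Real.exp ((n : ℝ) ^ ((1 : ℝ) / 32) * hin (fG Q)) ≤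
          (10001 / 10000 : ℝ) ^ (fD Q \ fG Q).card *
          Real.exp ((n : ℝ) ^ ((1 : ℝ) / 32) * hin (fG Q)) :=
        le_mul_of_one_le_left (Real.exp_pos _).le c1
      linarith
    · by_contra h0
      push Not at h0
      have h4 : E ≤ (10001 / 10000 : ℝ) ^ (fD Q \ fG Q).card := h2 _ h0
      have h5 : (10001 / 10000 : ℝ) ^ (fD Q \ fG Q).card ≤
          (10001 / 10000 : ℝ) ^ (fD Q \ fG Q).card *
          Real.exp ((n : ℝ) ^ ((1 : ℝ) / 32) * hin (fG Q)) :=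
        le_mul_of_one_le_right (by positivity) c2
      linarith
  obtain ⟨q1, q2⟩ := hq _ b1
  obtain ⟨q3, q4⟩ := hq _ b2
  have hspec := dt'_spec B P hcps
  unfold wX at b3
  have hnBM : ¬ (BMl (dt' B P).1 (dt' B P).2.2 ∨ BMm (dt' B P).2.1) := by
    intro h0
    rw [if_pos h0] at b3
    have := Real.exp_pos ((Zs (dt' B P).2.2).card : ℝ)
    linarith
  rw [if_neg hnBM, add_zero, hE] at b3
  have hZ := Real.exp_lt_exp.1 b3
  exact h1 B hB P hcps _ _ _ hspec q1 q3 hZ q2 q4 (fun h => hnBM (Or.inl h))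
    (fun h => hnBM (Or.inr h))

open Classical in
/-- Stage 2. -/
theorem st2 : ∀ᶠ n : ℕ in atTop,
    (((cps n).filter (fun P => CS1 (fG P) ∧ ¬ ∃ B, Good B P)).card : ℝ) ≤
      2 * Real.exp ((n : ℝ) ^ ((1 : ℝ) / 42) - (n : ℝ) ^ ((1 : ℝ) / 32)) * (cps n).card := by
  filter_upwards [sum_Psi, Psi_large, base_sum] with n h1 h2 h3
  set S := (cps n).filter (fun P => CS1 (fG P) ∧ ¬ ∃ B, Good B P) with hS
  set T := (univ : Finset (Finset (Fin n))).filter (fun B => Rng B) with hT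
  set E := Real.exp ((n : ℝ) ^ ((1 : ℝ) / 32)) with hE
  have hEpos : 0 < E := Real.exp_pos _
  have hmaps : ∀ P ∈ S, hubs (fG P) ∈ T := by
    intro P hP
    rw [hS, mem_filter] at hP
    rw [hT, mem_filter]
    exact ⟨mem_univ _, hP.2.1.1⟩
  have hcard : S.card = ∑ B ∈ T, (S.filter (fun P => hubs (fG P) = B)).card :=
    card_eq_sum_card_fiberwise hmaps
  have hfib : ∀ B ∈ T, E * ((S.filter (fun P => hubs (fG P) = B)).card : ℝ) ≤
      Real.exp ((n : ℝ) ^ ((1 : ℝ) / 42)) * baseN B := by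
    intro B hB
    rw [hT, mem_filter] at hB
    refine le_trans ?_ (h1 B hB.2)
    have hsub : S.filter (fun P => hubs (fG P) = B) ⊆ CB B := by
      intro P hP
      rw [mem_filter, hS, mem_filter] at hP
      exact mem_filter.2 ⟨hP.1.1, hP.1.2.1, hP.2⟩
    calc E * ((S.filter (fun P => hubs (fG P) = B)).card : ℝ)
        = ∑ P ∈ S.filter (fun P => hubs (fG P) = B), E := by
          rw [sum_const, nsmul_eq_mul, mul_comm]
      _ ≤ ∑ P ∈ S.filter (fun P => hubs (fG P) = B), Psi B P := by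
          apply sum_le_sum
          intro P hP
          apply h2 B hB.2 P (hsub hP)
          intro hg
          rw [mem_filter, hS, mem_filter] at hP
          exact hP.1.2.2 ⟨B, hg⟩
      _ ≤ _ := by
          apply sum_le_sum_of_subset_of_nonneg hsub
          intro P _ _
          exact mul_nonneg (mul_nonneg (wQ_nonneg _) (wQ_nonneg _)) (wX_nonneg _)
  have h4 : E * (S.card : ℝ) ≤ Real.exp ((n : ℝ) ^ ((1 : ℝ) / 42)) * (2 * (cps n).card) := by
    rw [hcard]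
    push_cast
    rw [mul_sum]
    calc _ ≤ ∑ B ∈ T, Real.exp ((n : ℝ) ^ ((1 : ℝ) / 42)) * baseN B := sum_le_sum hfib
      _ = Real.exp ((n : ℝ) ^ ((1 : ℝ) / 42)) * ∑ B ∈ T, baseN B := by rw [mul_sum]
      _ ≤ _ := mul_le_mul_of_nonneg_left h3 (Real.exp_pos _).le
  rw [Real.exp_sub, ← hE]
  rw [show 2 * (Real.exp ((n : ℝ) ^ ((1 : ℝ) / 42)) / E) * ((cps n).card : ℝ) =
    (Real.exp ((n : ℝ) ^ ((1 : ℝ) / 42)) * (2 * (cps n).card)) / E by ring]
  rw [le_div_iff₀ hEpos]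
  linarith

end PSys
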