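import Mathlib
import Pool.Agent.PSys.Spec

/-! Module MAXR (blueprint 0.5): maximal R-pairs. -/

open Finset

namespace PSys

/-- a path through both `u` and `v` in this order is longer, if it is not the path itself -/
theorem MAXR_len {n : ℕ} {P : Sys n} (hP : IsCPS P) {u v x' y' : Fin n} (hu : u ∈ P x' y')
    (hv : v ∈ P u y') (hne : ¬ (x' = u ∧ y' = v)) : (P u v).length + 1 ≤ (P x' y').length := by
  have h1 := hP.fam.length_add hu
  have h2 := hP.fam.length_add hv
  have h3 : 0 < (P x' u).length := List.length_pos_of_ne_nil (hP.ne_nil _ _)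
  have h4 : 0 < (P v y').length := List.length_pos_of_ne_nil (hP.ne_nil _ _)
  by_cases hx : x' = u
  · have hy : v ≠ y' := fun h => hne ⟨hx, h.symm⟩
    have h5 := hP.fam.two_le (hP.ne_nil v y') hy
    omega
  · have h5 := hP.fam.two_le (hP.ne_nil x' u) hx
    omega

/-- two vertices of a path, in both orders -/
theorem MAXR_long {n : ℕ} {P : Sys n} (hP : IsCPS P) {x y x' y' : Fin n} (hx : x ∈ P x' y')
    (hy : y ∈ P x' y') (hne : s(x', y') ≠ s(x, y)) : (P x y).length + 1 ≤ (P x' y').length := by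
  rcases hP.fam.order_total hx hy with ⟨_, h2⟩ | ⟨_, h2⟩
  · apply MAXR_len hP hx h2
    rintro ⟨rfl, rfl⟩
    exact hne rfl
  · have h3 : (P x y).length = (P y x).length := by
      rw [hP.symm x y, List.length_reverse]
    rw [h3]
    apply MAXR_len hP hy h2
    rintro ⟨rfl, rfl⟩
    exact hne Sym2.eq_swap

theorem MAXR_ne {n : ℕ} {P : Sys n} (hP : IsCPS P) {x y : Fin n} (h : 2 ≤ (P x y).length) :
    x ≠ y := by
  rintro rfl
  rw [hP.self] at h
  simp at h

open Classical in
/-- Blueprint 0.5: an R-pair of maximal length is a maximal pair. -/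
theorem maxr {n : ℕ} {P : Sys n} (hP : IsCPS P) (B : Finset (Fin n))
    (h : ∃ x y, Rp B P x y) : ∃ x y, Rp B P x y ∧ Maxl P x y := by
  obtain ⟨x0, y0, h0⟩ := h
  obtain ⟨p, hp, hmax⟩ := Finset.exists_max_image
    (univ.filter (fun p : Fin n × Fin n => Rp B P p.1 p.2)) (fun p => (P p.1 p.2).length)
    ⟨(x0, y0), by rw [mem_filter]; exact ⟨mem_univ _, h0⟩⟩
  rw [mem_filter] at hp
  refine ⟨p.1, p.2, hp.2, MAXR_ne hP (by have := hp.2.1; omega), fun x' y' hx hy => ?_⟩
  by_contra hne
  have h1 := MAXR_long hP hx hy hne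
  have h2 : Rp B P x' y' := by
    refine ⟨by have := hp.2.1; omega, ?_⟩
    rintro ⟨c, a, h3, _⟩
    have h4 := hp.2.1
    rw [h3] at h1
    simp only [List.length_cons, List.length_nil] at h1
    omega
  have h3 := hmax (x', y') (by rw [mem_filter]; exact ⟨mem_univ _, h2⟩)
  simp only at h3
  omega

theorem MAXR_aux {n : ℕ} {P : Sys n} (hP : IsCPS P) (B : Finset (Fin n)) {u m v x' y' : Fin n}
    (h1 : P u v = [u, m, v]) (h2 : Same B u m) (hu : u ∈ P x' y') (hv : v ∈ P u y') :
    ¬ Alt3 B P x' y' := by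
  rintro ⟨c, a, h3, h4, h5, _⟩
  have e1 := hP.cons x' y' u hu
  have e2 := hP.cons u y' v hv
  rw [e2, h1, h3] at e1
  simp only [List.cons_append, List.tail_cons, List.nil_append] at e1
  by_cases hx : x' = u
  · rw [hx, hP.self u] at e1
    simp only [List.cons_append, List.nil_append, List.cons.injEq, true_and] at e1
    apply h4
    rw [hx, e1.1]
    exact h2
  · have h6 := hP.fam.two_le (hP.ne_nil x' u) hx
    have h7 := hP.fam.cons_hop (hP.ne_nil x' u) hx
    have h8 := hP.fam.hop_mem (hP.ne_nil x' u) hx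
    have h9 := congrArg List.length e1
    simp only [List.length_cons, List.length_nil, List.length_append] at h9
    have h10 : (P x' u).length = 2 := by omega
    have h11 : Dir P x' u := (hP.fam.dir_iff_length (hP.ne_nil x' u) hx).2 h10
    rw [h11.2] at e1
    simp only [List.cons_append, List.nil_append, List.cons.injEq, true_and] at e1
    apply h5
    rw [e1.1, e1.2.1]
    exact h2

/-- a same-side 2-path `[x,m,y]` through its own side is maximal if there are no R-pairs -/
theorem maxl_of_noR {n : ℕ} {P : Sys n} (hP : IsCPS P) (B : Finset (Fin n))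
    (h : ∀ x y, ¬ Rp B P x y) {x m y : Fin n} (h1 : P x y = [x, m, y]) (h2 : Same B x m)
    (h3 : Same B x y) : Maxl P x y := by
  have hlen : (P x y).length = 3 := by rw [h1]; rfl
  refine ⟨MAXR_ne hP (by omega), fun x' y' hx hy => ?_⟩
  by_contra hne
  have h4 := MAXR_long hP hx hy hne
  have h5 : Alt3 B P x' y' := by
    by_contra h6
    exact h x' y' ⟨by omega, h6⟩
  rcases hP.fam.order_total hx hy with ⟨_, h7⟩ | ⟨_, h7⟩
  · exact MAXR_aux hP B h1 h2 hx h7 h5
  · have h8 : P y x = [y, m, x] := by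
      rw [hP.symm x y, h1]
      rfl
    exact MAXR_aux hP B h8 (h3.symm.trans h2) hy h7 h5

/-- the list of an R-pair is an `RL` list as soon as its two maximal proper subpaths are unchanged -/
theorem rl_of_rp {n : ℕ} {P P' : Sys n} (hP : IsCPS P) (B : Finset (Fin n)) {x y : Fin n}
    (h : Rp B P x y) (hxy : Maxl P x y)
    (h' : ∀ u v, ¬ Maxl P u v → P' u v = P u v) :
    ∃ x' y', P x y = P' x y' ++ [y] ∧ P x y = x :: P' x' y ∧ 4 ≤ (P x y).length ∧
    ¬ ∃ c a, P x y = [x, c, a, y] ∧ ¬ Same B x c ∧ ¬ Same B c a ∧ ¬ Same B a y := by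
  have hne := hxy.1
  have e1 := hP.fam.cons_hop (hP.ne_nil x y) hne
  have e2 := hP.fam.snoc_hop (hP.ne_nil x y) hne
  have m1 := hP.fam.hop_mem (hP.ne_nil x y) hne
  have m2 : hop P y x ∈ P x y :=
    hP.fam.mem_symm.1 (hP.fam.hop_mem (hP.ne_nil y x) hne.symm)
  have mx : x ∈ P x y := hP.fam.mem_left (hP.ne_nil x y)
  have my : y ∈ P x y := hP.fam.mem_right (hP.ne_nil x y)
  refine ⟨hop P x y, hop P y x, ?_, ?_, h.1, h.2⟩
  · rw [h' x (hop P y x), ← e2]
    intro hM
    have h3 := hM.2 x y mx m2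
    rcases Sym2.eq_iff.1 h3 with ⟨_, h4⟩ | ⟨_, h4⟩
    · rw [← h4] at e2
      have h5 := congrArg List.length e2
      simp at h5
    · exact hne h4.symm
  · rw [h' (hop P x y) y, ← e1]
    intro hM
    have h3 := hM.2 x y m1 my
    rcases Sym2.eq_iff.1 h3 with ⟨h4, _⟩ | ⟨h4, _⟩
    · rw [← h4] at e1
      have h5 := congrArg List.length e1
      simp at h5
    · exact hne h4

end PSys
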