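import Mathlib
import Pool.Agent.PSys.Spec

/-! Module UPD (blueprint 0.4): update lemma. -/

open Finset

namespace PSys

/-- Blueprint 0.4: replacing the paths of an up-closed set `M` of pairs by direct edges or by
2-paths through direct edges keeps consistency. -/
theorem upd {n : ℕ} {P P' : Sys n} (hP : IsCPS P) (M : Fin n → Fin n → Prop)
    (hirr : ∀ x, ¬ M x x) (hsym : ∀ x y, M x y → M y x)
    (hup : ∀ x y u v, M u v → u ∈ P x y → v ∈ P x y → M x y)
    (h0 : ∀ x y, ¬ M x y → P' x y = P x y)
    (h1 : ∀ x y, M x y → P' x y = [x, y] ∨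
      ∃ z, z ≠ x ∧ z ≠ y ∧ P' x y = [x, z, y] ∧ P' x z = [x, z] ∧ P' z y = [z, y])
    (hs : ∀ x y, M x y → P' y x = (P' x y).reverse) : IsCPS P' := by
  have hne : ∀ x y, M x y → x ≠ y := by
    rintro x y h rfl
    exact hirr x h
  have hself : ∀ u, P' u u = [u] := fun u => by rw [h0 u u (hirr u), hP.self]
  refine ⟨hself, ?_, ?_, ?_, ?_, ?_⟩
  · intro u v
    by_cases hM : M u v
    · rcases h1 u v hM with h | ⟨z, -, -, h, -, -⟩ <;> rw [h] <;> rfl
    · rw [h0 u v hM]
      exact hP.head u v
  · intro u v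
    by_cases hM : M u v
    · rcases h1 u v hM with h | ⟨z, -, -, h, -, -⟩ <;> rw [h] <;> rfl
    · rw [h0 u v hM]
      exact hP.last u v
  · intro u v
    by_cases hM : M u v
    · have huv := hne u v hM
      rcases h1 u v hM with h | ⟨z, hz1, hz2, h, -, -⟩
      · rw [h]
        simp [huv]
      · rw [h]
        simp [huv, hz1.symm, hz2]
    · rw [h0 u v hM]
      exact hP.nodup u v
  · intro u v
    by_cases hM : M u v
    · exact hs u v hM
    · rw [h0 u v hM, h0 v u (fun h => hM (hsym v u h))]
      exact hP.symm u v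
  · intro u v a ha
    by_cases hM : M u v
    · rcases h1 u v hM with h | ⟨z, hz1, hz2, h, h2, h3⟩
      · rw [h] at ha
        simp only [List.mem_cons, List.not_mem_nil, or_false] at ha
        rcases ha with rfl | rfl
        · rw [hself, h]
          rfl
        · rw [hself, h]
          rfl
      · rw [h] at ha
        simp only [List.mem_cons, List.not_mem_nil, or_false] at ha
        rcases ha with rfl | rfl | rfl
        · rw [hself, h]
          rfl
        · rw [h2, h3, h]
          rfl
        · rw [hself, h]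
          rfl
    · rw [h0 u v hM] at ha ⊢
      have hu : u ∈ P u v := List.mem_of_mem_head? (by rw [hP.head u v]; rfl)
      have hv : v ∈ P u v := List.mem_of_getLast? (by rw [hP.last u v])
      rw [h0 u a (fun h => hM (hup u v u a h hu ha)), h0 a v (fun h => hM (hup u v a v h ha hv))]
      exact hP.cons u v a ha

/-- Special case: finitely many maximal pairs. `M` is a symmetric set of maximal pairs. -/
theorem upd_maxl {n : ℕ} {P P' : Sys n} (hP : IsCPS P) (M : Fin n → Fin n → Prop)
    (hsym : ∀ x y, M x y → M y x) (hmax : ∀ x y, M x y → Maxl P x y)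
    (h0 : ∀ x y, ¬ M x y → P' x y = P x y)
    (h1 : ∀ x y, M x y → P' x y = [x, y] ∨
      ∃ z, z ≠ x ∧ z ≠ y ∧ P' x y = [x, z, y] ∧ P' x z = [x, z] ∧ P' z y = [z, y])
    (hs : ∀ x y, M x y → P' y x = (P' x y).reverse) : IsCPS P' := by
  refine upd hP M (fun x h => (hmax x x h).1 rfl) hsym ?_ h0 h1 hs
  intro x y u v hM hu hv
  have h := (hmax u v hM).2 x y hu hv
  rcases Sym2.eq_iff.1 h with ⟨rfl, rfl⟩ | ⟨rfl, rfl⟩
  · exact hM
  · exact hsym _ _ hM

end PSys
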