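import Mathlib
import Pool.Agent.PSys.Spec
import Pool.Agent.PSys.Upd
import Pool.Agent.PSys.Inc
import Pool.Agent.PSys.MaxR
import Pool.Agent.PSys.GoodB

/-! Module S3A1 (blueprint 0.5, Case 1): good systems with a maximal same-side R-pair. -/

open Finset Filter

namespace PSys

/-! ### resetting one pair to a 2-path -/

/-- reset the pair `{x, y}` to the path `[x, z, y]` -/
def S3A1_mod {n : ℕ} (P : Sys n) (x y z : Fin n) : Sys n := fun a b =>
  if a = x ∧ b = y then [x, z, y] else if a = y ∧ b = x then [y, z, x] else P a b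

theorem S3A1_mod_xy {n : ℕ} (P : Sys n) (x y z : Fin n) : S3A1_mod P x y z x y = [x, z, y] := by
  simp [S3A1_mod]

theorem S3A1_mod_yx {n : ℕ} (P : Sys n) {x y z : Fin n} (hxy : x ≠ y) :
    S3A1_mod P x y z y x = [y, z, x] := by
  simp [S3A1_mod, hxy, hxy.symm]

theorem S3A1_mod_ne {n : ℕ} (P : Sys n) {x y z a b : Fin n} (h1 : ¬ (a = x ∧ b = y))
    (h2 : ¬ (a = y ∧ b = x)) : S3A1_mod P x y z a b = P a b := by
  simp only [S3A1_mod, if_neg h1, if_neg h2]

theorem S3A1_cps {n : ℕ} {P : Sys n} (hP : IsCPS P) {x y z : Fin n} (hmax : Maxl P x y)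
    (hxz : Dir P x z) (hzy : Dir P z y) : IsCPS (S3A1_mod P x y z) := by
  have hxy : x ≠ y := hmax.1
  have hx : x ≠ z := hxz.1
  have hy : z ≠ y := hzy.1
  have hyz : Dir P y z := hP.fam.dir_symm.2 hzy
  have hzx : Dir P z x := hP.fam.dir_symm.2 hxz
  refine upd_maxl hP (fun a b => (a = x ∧ b = y) ∨ (a = y ∧ b = x)) ?_ ?_ ?_ ?_ ?_
  · rintro a b (⟨rfl, rfl⟩ | ⟨rfl, rfl⟩)
    · exact Or.inr ⟨rfl, rfl⟩
    · exact Or.inl ⟨rfl, rfl⟩
  · rintro a b (⟨rfl, rfl⟩ | ⟨rfl, rfl⟩)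
    · exact hmax
    · refine ⟨hxy.symm, fun x' y' h1 h2 => ?_⟩
      rw [hmax.2 x' y' h2 h1]
      exact Sym2.eq_swap
  · intro a b h
    exact S3A1_mod_ne P (fun h1 => h (Or.inl h1)) (fun h1 => h (Or.inr h1))
  · rintro a b (⟨rfl, rfl⟩ | ⟨rfl, rfl⟩)
    · refine Or.inr ⟨z, hx.symm, hy, S3A1_mod_xy P _ _ _, ?_, ?_⟩
      · rw [S3A1_mod_ne P (fun h => hy h.2) (fun h => hxy h.1)]
        exact hxz.2
      · rw [S3A1_mod_ne P (fun h => hx h.1.symm) (fun h => hy h.1)]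
        exact hzy.2
    · refine Or.inr ⟨z, hy, hx.symm, S3A1_mod_yx P hxy, ?_, ?_⟩
      · rw [S3A1_mod_ne P (fun h => hxy h.1.symm) (fun h => hx h.2.symm)]
        exact hyz.2
      · rw [S3A1_mod_ne P (fun h => hx h.1.symm) (fun h => hy h.1)]
        exact hzx.2
  · rintro a b (⟨rfl, rfl⟩ | ⟨rfl, rfl⟩)
    · rw [S3A1_mod_yx P hxy, S3A1_mod_xy]; rfl
    · rw [S3A1_mod_yx P hxy, S3A1_mod_xy]; rfl

theorem S3A1_dir {n : ℕ} {P : Sys n} (hP : IsCPS P) {x y z : Fin n} (hxy : x ≠ y)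
    (hnd : ¬ Dir P x y) (a b : Fin n) : Dir (S3A1_mod P x y z) a b ↔ Dir P a b := by
  by_cases h1 : a = x ∧ b = y
  · obtain ⟨rfl, rfl⟩ := h1
    constructor
    · intro h
      have := h.2
      rw [S3A1_mod_xy] at this
      simp at this
    · intro h; exact absurd h hnd
  · by_cases h2 : a = y ∧ b = x
    · obtain ⟨rfl, rfl⟩ := h2
      constructor
      · intro h
        have := h.2
        rw [S3A1_mod_yx P hxy] at this
        simp at this
      · intro h; exact absurd (hP.fam.dir_symm.2 h) hnd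
    · unfold Dir
      rw [S3A1_mod_ne P h1 h2]

theorem S3A1_std {n : ℕ} {P : Sys n} {B : Finset (Fin n)} {x y z a b c : Fin n}
    (h : Std B (S3A1_mod P x y z) a b c) : Std B P a b c ∨ (a = x ∧ b = y) ∨ (a = y ∧ b = x) := by
  by_cases h1 : a = x ∧ b = y
  · exact Or.inr (Or.inl h1)
  · by_cases h2 : a = y ∧ b = x
    · exact Or.inr (Or.inr h2)
    · unfold Std at h ⊢
      rw [S3A1_mod_ne P h1 h2] at h
      exact Or.inl h

theorem S3A1_special {n : ℕ} {P : Sys n} {B : Finset (Fin n)} {x y z : Fin n} (hxy : x ≠ y)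
    (h1 : Same B x y) (h2 : ¬ Same B x z) {a b : Fin n}
    (h : Special B (S3A1_mod P x y z) a b) : Special B P a b := by
  by_cases h3 : a = x ∧ b = y
  · obtain ⟨rfl, rfl⟩ := h3
    exact absurd ⟨S3A1_mod_xy P _ _ _, h1, h2⟩ (h.2.2 z)
  · by_cases h4 : a = y ∧ b = x
    · obtain ⟨rfl, rfl⟩ := h4
      refine absurd ⟨S3A1_mod_yx P hxy, ?_, ?_⟩ (h.2.2 z)
      · unfold Same at *; tauto
      · unfold Same at *; tauto
    · unfold Special Std at h ⊢
      rw [S3A1_mod_ne P h3 h4] at h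
      exact h

open Classical in
theorem S3A1_mult {n : ℕ} {P : Sys n} {B : Finset (Fin n)} {x y z : Fin n} (hxy : x ≠ y)
    (a c : Fin n) :
    (univ.filter (fun b => Std B (S3A1_mod P x y z) a b c)).card ≤
      (univ.filter (fun b => Std B P a b c)).card + 1 := by
  have hsub : univ.filter (fun b => Std B (S3A1_mod P x y z) a b c) ⊆
      univ.filter (fun b => Std B P a b c) ∪ (if a = x then {y} else {x}) := by
    intro b hb
    rw [mem_filter] at hb
    rcases S3A1_std hb.2 with h | ⟨rfl, rfl⟩ | ⟨rfl, rfl⟩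
    · exact mem_union_left _ (mem_filter.2 ⟨mem_univ _, h⟩)
    · refine mem_union_right _ ?_
      rw [if_pos rfl]; simp
    · refine mem_union_right _ ?_
      rw [if_neg hxy.symm]; simp
  refine (card_le_card hsub).trans ((card_union_le _ _).trans ?_)
  have : (if a = x then ({y} : Finset (Fin n)) else {x}).card = 1 := by
    split_ifs <;> simp
  omega

open Classical in
/-- many vertices on the other side are joined to both `x` and `y` -/
theorem S3A1_many : ∀ᶠ n : ℕ in atTop, ∀ (B : Finset (Fin n)) (P : Sys n), Good B P →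
    ∀ x y, Same B x y →
      (n : ℝ) / (5 * Real.log n) ≤
        ((univ.filter (fun z => ¬ Same B x z ∧ Dir P x z ∧ Dir P z y)).card : ℝ) := by
  have hnum : ∀ᶠ n : ℕ in atTop, 1 ≤ Real.log (n : ℝ) ∧
      2 * (n : ℝ) ^ ((1 : ℝ) / 10) + (n : ℝ) / (5 * Real.log n) ≤
        (n : ℝ) / (20002 / 10000 * Real.log n) := by
    have hl : ∀ᶠ n : ℕ in atTop, 1 ≤ Real.log (n : ℝ) :=
      (Real.tendsto_log_atTop.comp tendsto_natCast_atTop_atTop).eventually_ge_atTop 1
    have h1 : ∀ᶠ n : ℕ in atTop, 10 * Real.log (n : ℝ) ≤ (n : ℝ) ^ ((9 : ℝ) / 10) := by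
      have h2 := (isLittleO_log_rpow_atTop (show (0 : ℝ) < 9 / 10 by norm_num)).bound
        (show (0 : ℝ) < 1 / 10 by norm_num)
      have h3 := tendsto_natCast_atTop_atTop.eventually h2
      filter_upwards [h3, hl, eventually_gt_atTop 0] with n hn hn1 hn0
      have hn' : (0 : ℝ) < n := by exact_mod_cast hn0
      rw [Real.norm_of_nonneg (by linarith), Real.norm_of_nonneg (by positivity)] at hn
      linarith
    filter_upwards [hl, h1, eventually_gt_atTop 0] with n h1 h2 hn0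
    refine ⟨h1, ?_⟩
    have hn : (0 : ℝ) < n := by exact_mod_cast hn0
    have hL : 0 < Real.log (n : ℝ) := by linarith
    have h3 : (n : ℝ) ^ ((1 : ℝ) / 10) * (n : ℝ) ^ ((9 : ℝ) / 10) = n := by
      rw [← Real.rpow_add hn]; norm_num
    have h4 : (n : ℝ) ^ ((1 : ℝ) / 10) * (10 * Real.log n) ≤ n := by
      calc (n : ℝ) ^ ((1 : ℝ) / 10) * (10 * Real.log n)
          ≤ (n : ℝ) ^ ((1 : ℝ) / 10) * (n : ℝ) ^ ((9 : ℝ) / 10) := by gcongr
        _ = n := h3
    have h5 : (n : ℝ) ^ ((1 : ℝ) / 10) ≤ n / (10 * Real.log n) := by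
      rw [le_div_iff₀ (by positivity)]; exact h4
    have h6 : 2 * ((n : ℝ) / (10 * Real.log n)) + (n : ℝ) / (5 * Real.log n) ≤
        (n : ℝ) / (20002 / 10000 * Real.log n) := by
      have e1 : (n : ℝ) / (10 * Real.log n) = (n / Real.log n) / 10 := by field_simp
      have e2 : (n : ℝ) / (5 * Real.log n) = (n / Real.log n) / 5 := by field_simp
      have e3 : (n : ℝ) / (20002 / 10000 * Real.log n) = (n / Real.log n) * (10000 / 20002) := by
        field_simp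
      rw [e1, e2, e3]
      have : 0 < (n : ℝ) / Real.log n := by positivity
      linarith
    linarith
  filter_upwards [hnum, rng_sizes, eventually_gt_atTop 0] with n ⟨h1, h2⟩ hr hn0
  intro B P hG x y hxy
  obtain ⟨hs1, hs2, hs3, hs4, hs5⟩ := hr B hG.g0
  have hn : (0 : ℝ) < n := by exact_mod_cast hn0
  have hL : 0 < Real.log (n : ℝ) := by linarith
  set O := univ.filter (fun z => ¬ Same B x z)
  have hO : (n : ℝ) / (20002 / 10000 * Real.log n) ≤ (O.card : ℝ) := by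
    by_cases hx : x ∈ B
    · have : O = Bᶜ := by
        ext z
        simp only [O, mem_filter, mem_univ, true_and, mem_compl, Same]
        tauto
      rw [this]
      refine le_trans ?_ hs2
      rw [div_le_iff₀ (by positivity)]
      nlinarith
    · have : O = B := by
        ext z
        simp only [O, mem_filter, mem_univ, true_and, Same]
        tauto
      rw [this, div_le_iff₀ (by positivity)]
      exact hs4
  set M1 := univ.filter (fun z => ¬ Same B x z ∧ ¬ Dir P x z)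
  set M2 := univ.filter (fun z => ¬ Same B y z ∧ ¬ Dir P y z)
  set T := univ.filter (fun z => ¬ Same B x z ∧ Dir P x z ∧ Dir P z y)
  have hsub : O ⊆ T ∪ (M1 ∪ M2) := by
    intro z hz
    simp only [O, mem_filter, mem_univ, true_and] at hz
    simp only [T, M1, M2, mem_union, mem_filter, mem_univ, true_and]
    have hyz : ¬ Same B y z := by unfold Same at *; tauto
    by_cases h3 : Dir P x z
    · by_cases h4 : Dir P z y
      · exact Or.inl ⟨hz, h3, h4⟩
      · exact Or.inr (Or.inr ⟨hyz, fun h5 => h4 (hG.cps.fam.dir_symm.2 h5)⟩)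
    · exact Or.inr (Or.inl ⟨hz, h3⟩)
  have hc : O.card ≤ T.card + (M1.card + M2.card) :=
    (card_le_card hsub).trans ((card_union_le _ _).trans
      (Nat.add_le_add_left (card_union_le _ _) _))
  have hc' : (O.card : ℝ) ≤ T.card + (M1.card + M2.card) := by exact_mod_cast hc
  have hM1 : (M1.card : ℝ) ≤ (n : ℝ) ^ ((1 : ℝ) / 10) := good_miss hG x
  have hM2 : (M2.card : ℝ) ≤ (n : ℝ) ^ ((1 : ℝ) / 10) := good_miss hG y
  linarith

open Classical in
/-- double counting with at least `n/(5 log n)` images and at most `n^(1/4)` preimages -/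
theorem S3A1_dc : ∀ᶠ n : ℕ in atTop, ∀ (X Y : Finset (Sys n)) (r : Sys n → Sys n → Prop),
    (∀ P ∈ X, ∃ S : Finset (Sys n), (∀ P' ∈ S, P' ∈ Y ∧ r P P') ∧
      (n : ℝ) / (5 * Real.log n) ≤ (S.card : ℝ)) →
    (∀ P' ∈ Y, ∃ S : Finset (Sys n), (∀ P ∈ X, r P P' → P ∈ S) ∧
      (S.card : ℝ) ≤ (n : ℝ) ^ ((1 : ℝ) / 4)) →
    (X.card : ℝ) ≤ (n : ℝ) ^ (-((1 : ℝ) / 4)) * Y.card := by
  have h1 : ∀ᶠ n : ℕ in atTop, 5 * Real.log (n : ℝ) ≤ (n : ℝ) ^ ((1 : ℝ) / 2) ∧
      0 < Real.log (n : ℝ) := by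
    have hl : ∀ᶠ n : ℕ in atTop, 1 ≤ Real.log (n : ℝ) :=
      (Real.tendsto_log_atTop.comp tendsto_natCast_atTop_atTop).eventually_ge_atTop 1
    have h2 := (isLittleO_log_rpow_atTop (show (0 : ℝ) < 1 / 2 by norm_num)).bound
      (show (0 : ℝ) < 1 / 5 by norm_num)
    have h3 := tendsto_natCast_atTop_atTop.eventually h2
    filter_upwards [h3, hl, eventually_gt_atTop 0] with n hn hn1 hn0
    have hn' : (0 : ℝ) < n := by exact_mod_cast hn0
    rw [Real.norm_of_nonneg (by linarith), Real.norm_of_nonneg (by positivity)] at hn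
    exact ⟨by linarith, by linarith⟩
  filter_upwards [h1, eventually_gt_atTop 0] with n ⟨h1, hL⟩ hn0
  intro X Y r hX hY
  have hn : (0 : ℝ) < n := by exact_mod_cast hn0
  have hmul := Finset.card_mul_le_card_mul (s := X) (t := Y) r
    (m := ⌈(n : ℝ) / (5 * Real.log n)⌉₊) (n := ⌊(n : ℝ) ^ ((1 : ℝ) / 4)⌋₊)
    (fun P hP => by
      obtain ⟨S, h3, h4⟩ := hX P hP
      refine Nat.ceil_le.2 (h4.trans ?_)
      rw [Nat.cast_le]
      refine card_le_card (fun P' hP' => ?_)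
      rw [mem_bipartiteAbove]
      exact h3 P' hP')
    (fun P' hP' => by
      obtain ⟨S, h3, h4⟩ := hY P' hP'
      refine Nat.le_floor (le_trans ?_ h4)
      rw [Nat.cast_le]
      refine card_le_card (fun P hP => ?_)
      rw [mem_bipartiteBelow] at hP
      exact h3 P hP.1 hP.2)
  have hmul' : (X.card : ℝ) * ⌈(n : ℝ) / (5 * Real.log n)⌉₊ ≤
      (Y.card : ℝ) * ⌊(n : ℝ) ^ ((1 : ℝ) / 4)⌋₊ := by exact_mod_cast hmul
  have h2 : (n : ℝ) / (5 * Real.log n) ≤ ⌈(n : ℝ) / (5 * Real.log n)⌉₊ := Nat.le_ceil _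
  have h3 : (⌊(n : ℝ) ^ ((1 : ℝ) / 4)⌋₊ : ℝ) ≤ (n : ℝ) ^ ((1 : ℝ) / 4) :=
    Nat.floor_le (by positivity)
  have h4 : (X.card : ℝ) * ((n : ℝ) / (5 * Real.log n)) ≤
      (Y.card : ℝ) * (n : ℝ) ^ ((1 : ℝ) / 4) :=
    (mul_le_mul_of_nonneg_left h2 (Nat.cast_nonneg _)).trans
      (hmul'.trans (mul_le_mul_of_nonneg_left h3 (Nat.cast_nonneg _)))
  have h5 : (n : ℝ) ^ ((1 : ℝ) / 2) ≤ (n : ℝ) / (5 * Real.log n) := by
    rw [le_div_iff₀ (by positivity)]
    calc (n : ℝ) ^ ((1 : ℝ) / 2) * (5 * Real.log n)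
        ≤ (n : ℝ) ^ ((1 : ℝ) / 2) * (n : ℝ) ^ ((1 : ℝ) / 2) := by gcongr
      _ = n := by rw [← Real.rpow_add hn]; norm_num
  have h6 : (X.card : ℝ) * (n : ℝ) ^ ((1 : ℝ) / 2) ≤ (Y.card : ℝ) * (n : ℝ) ^ ((1 : ℝ) / 4) :=
    (mul_le_mul_of_nonneg_left h5 (Nat.cast_nonneg _)).trans h4
  have h7 : (n : ℝ) ^ (-((1 : ℝ) / 4)) * (n : ℝ) ^ ((1 : ℝ) / 2) = (n : ℝ) ^ ((1 : ℝ) / 4) := by
    rw [← Real.rpow_add hn]; norm_num
  have h8 : 0 < (n : ℝ) ^ ((1 : ℝ) / 2) := by positivity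
  have h9 : (X.card : ℝ) * (n : ℝ) ^ ((1 : ℝ) / 2) ≤
      ((n : ℝ) ^ (-((1 : ℝ) / 4)) * Y.card) * (n : ℝ) ^ ((1 : ℝ) / 2) := by
    calc (X.card : ℝ) * (n : ℝ) ^ ((1 : ℝ) / 2) ≤ (Y.card : ℝ) * (n : ℝ) ^ ((1 : ℝ) / 4) := h6
      _ = ((n : ℝ) ^ (-((1 : ℝ) / 4)) * Y.card) * (n : ℝ) ^ ((1 : ℝ) / 2) := by rw [← h7]; ring
  exact le_of_mul_le_mul_right h9 h8

open Classical in
/-- the out-count for one system and one pair -/
theorem S3A1_out {n : ℕ} {P : Sys n} {B : Finset (Fin n)} {x y : Fin n} (hG : Good B P)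
    (hmax : Maxl P x y) (r : Sys n → Sys n → Prop)
    (hr : ∀ z, ¬ Same B x z → Dir P x z → Dir P z y → r P (S3A1_mod P x y z)) :
    ∃ S : Finset (Sys n), (∀ P' ∈ S, P' ∈ cps n ∧ r P P') ∧
    (univ.filter (fun z => ¬ Same B x z ∧ Dir P x z ∧ Dir P z y)).card = S.card := by
  refine ⟨(univ.filter (fun z => ¬ Same B x z ∧ Dir P x z ∧ Dir P z y)).image
    (fun z => S3A1_mod P x y z), ?_, (card_image_of_injOn ?_).symm⟩
  · intro P' hP'
    rw [mem_image] at hP'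
    obtain ⟨z, hz, rfl⟩ := hP'
    rw [mem_filter] at hz
    obtain ⟨_, h1, h2, h3⟩ := hz
    exact ⟨mem_cps.2 (S3A1_cps hG.cps hmax h2 h3), hr z h1 h2 h3⟩
  · intro z _ z' _ h
    have h1 : S3A1_mod P x y z x y = S3A1_mod P x y z' x y := by
      have : S3A1_mod P x y z = S3A1_mod P x y z' := h
      rw [this]
    rw [S3A1_mod_xy, S3A1_mod_xy] at h1
    simpa using h1

/-- recover the old system -/
def S3A1_rec {n : ℕ} (P' : Sys n) (p : List (Fin n)) : Sys n := fun a b =>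
  if p.head? = some a ∧ p.getLast? = some b then p
  else if p.head? = some b ∧ p.getLast? = some a then p.reverse else P' a b

theorem S3A1_rec_mod {n : ℕ} {P : Sys n} (hP : IsCPS P) {x y z : Fin n} :
    S3A1_rec (S3A1_mod P x y z) (P x y) = P := by
  have h1 := hP.head x y
  have h2 := hP.last x y
  funext a b
  unfold S3A1_rec
  by_cases h3 : a = x ∧ b = y
  · obtain ⟨rfl, rfl⟩ := h3
    rw [if_pos ⟨h1, h2⟩]
  · rw [h1, h2, if_neg]
    · by_cases h4 : a = y ∧ b = x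
      · obtain ⟨rfl, rfl⟩ := h4
        rw [if_pos ⟨rfl, rfl⟩]
        exact (hP.symm _ _).symm
      · rw [if_neg]
        · exact S3A1_mod_ne P h3 h4
        · simp only [Option.some.injEq, not_and]
          intro h5 h6
          exact h4 ⟨h6.symm, h5.symm⟩
    · simp only [Option.some.injEq, not_and]
      intro h5 h6
      exact h3 ⟨h5.symm, h6.symm⟩

open Classical in
/-- `B` is read off from the modified system -/
theorem S3A1_B : ∀ᶠ n : ℕ in atTop, ∀ (B : Finset (Fin n)) (P : Sys n), Good B P →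
    ∀ x y z, x ≠ y → ¬ Dir P x y →
      B = univ.filter (fun v => (n : ℝ) / 2 ≤
        (univ.filter (fun w => Dir (S3A1_mod P x y z) v w)).card) := by
  filter_upwards [goodB] with n hn
  intro B P hG x y z hxy hnd
  refine hn B P hG _ (fun a b h => (S3A1_dir hG.cps hxy hnd a b).2 h) (fun a => ?_)
  have : univ.filter (fun w => Dir (S3A1_mod P x y z) a w) = univ.filter (fun w => Dir P a w) := by
    ext w
    simp only [mem_filter, mem_univ, true_and]
    exact S3A1_dir hG.cps hxy hnd a w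
  rw [this]
  omega

open Classical in
/-- Blueprint 0.5 Case 1: reset a maximal same-side R-pair to `[x, z, y]`, `z` on the other side.
Double counting with `Finset.card_mul_le_card_mul`: at least `B.card/2` images, at most `n^(1/4)`
preimages (module INC, `goodB`). -/
theorem s3a1 : ∀ᶠ n : ℕ in atTop,
    (((cps n).filter (fun P => ∃ B, Good B P ∧ ∃ x y, Same B x y ∧ Rp B P x y ∧ Maxl P x y)).card : ℝ)
      ≤ (n : ℝ) ^ (-((1 : ℝ) / 4)) * (cps n).card := by
  have hnum : ∀ᶠ n : ℕ in atTop,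
      2 * (n : ℝ) ^ ((1 : ℝ) / 10) * (2 * (n : ℝ) ^ ((1 : ℝ) / 10) + 1) ≤
        (n : ℝ) ^ ((1 : ℝ) / 4) := by
    have h1 : ∀ᶠ n : ℕ in atTop, (6 : ℝ) ≤ (n : ℝ) ^ ((1 : ℝ) / 20) :=
      ((tendsto_rpow_atTop (show (0 : ℝ) < 1 / 20 by norm_num)).comp
        tendsto_natCast_atTop_atTop).eventually_ge_atTop 6
    filter_upwards [h1, eventually_gt_atTop 0] with n h1 hn0
    have hn : (1 : ℝ) ≤ n := by exact_mod_cast hn0
    have hn' : (0 : ℝ) < n := by linarith
    have h2 : (1 : ℝ) ≤ (n : ℝ) ^ ((1 : ℝ) / 10) := Real.one_le_rpow hn (by norm_num)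
    have h3 : (n : ℝ) ^ ((1 : ℝ) / 4) =
        (n : ℝ) ^ ((1 : ℝ) / 10) * (n : ℝ) ^ ((1 : ℝ) / 10) * (n : ℝ) ^ ((1 : ℝ) / 20) := by
      rw [← Real.rpow_add hn', ← Real.rpow_add hn']; norm_num
    rw [h3]
    nlinarith [mul_nonneg (sub_nonneg.2 h2) (sub_nonneg.2 h1),
      mul_nonneg (mul_nonneg (zero_le_one.trans h2) (zero_le_one.trans h2)) (sub_nonneg.2 h1)]
  filter_upwards [S3A1_dc, S3A1_many, S3A1_B, hnum, eventually_gt_atTop 0] with n hdc hmany hB
    hnum hn0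
  have hn : (1 : ℝ) ≤ n := by exact_mod_cast hn0
  refine hdc _ _ (fun P P' => ∃ B x y z, Good B P ∧ Same B x y ∧ Rp B P x y ∧ Maxl P x y ∧
    ¬ Same B x z ∧ Dir P x z ∧ Dir P z y ∧ P' = S3A1_mod P x y z) ?_ ?_
  · intro P hP
    rw [mem_filter] at hP
    obtain ⟨_, B, hG, x, y, hs, hR, hmax⟩ := hP
    obtain ⟨S, h1, h2⟩ := S3A1_out hG hmax (fun P P' => ∃ B x y z, Good B P ∧ Same B x y ∧
      Rp B P x y ∧ Maxl P x y ∧ ¬ Same B x z ∧ Dir P x z ∧ Dir P z y ∧ P' = S3A1_mod P x y z)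
      (fun z h1 h2 h3 => ⟨B, x, y, z, hG, hs, hR, hmax, h1, h2, h3, rfl⟩)
    refine ⟨S, h1, (hmany B P hG x y hs).trans (le_of_eq ?_)⟩
    rw [← h2]
  · intro P' hP'
    have hP'c := mem_cps.1 hP'
    set Bs := univ.filter (fun v => (n : ℝ) / 2 ≤ (univ.filter (fun w => Dir P' v w)).card)
      with hBs
    by_cases h0 : ∃ P0, ∃ B x y z, Good B P0 ∧ Same B x y ∧ Rp B P0 x y ∧
        Maxl P0 x y ∧ ¬ Same B x z ∧ Dir P0 x z ∧ Dir P0 z y ∧ P' = S3A1_mod P0 x y z
    swap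
    · exact ⟨∅, fun P _ hP => absurd ⟨P, hP⟩ h0, by simp; positivity⟩
    · obtain ⟨P0, hP0⟩ := h0
      -- the data for `Bs`
      have key : ∀ P, (∃ B x y z, Good B P ∧ Same B x y ∧ Rp B P x y ∧
          Maxl P x y ∧ ¬ Same B x z ∧ Dir P x z ∧ Dir P z y ∧ P' = S3A1_mod P x y z) →
          ∃ x y z, Good Bs P ∧ Same Bs x y ∧ Rp Bs P x y ∧
          Maxl P x y ∧ ¬ Same Bs x z ∧ Dir P x z ∧ Dir P z y ∧ P' = S3A1_mod P x y z := by
        rintro P ⟨B, x, y, z, hG, hs, hR, hmax, h1, h2, h3, h4⟩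
        have hnd : ¬ Dir P x y := by
          intro hd
          have := hR.1
          rw [hd.2] at this
          simp at this
        have hBB : B = Bs := by
          rw [hBs, h4]
          exact hB B P hG x y z hmax.1 hnd
        subst hBB
        exact ⟨x, y, z, hG, hs, hR, hmax, h1, h2, h3, h4⟩
      obtain ⟨x0, y0, z0, hG0, hs0, hR0, hmax0, h10, h20, h30, h40⟩ := key P0 hP0
      -- bounds for `P'`
      have hsp : (univ.filter (fun p : Fin n × Fin n => Special Bs P' p.1 p.2)).card ≤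
          ⌊(n : ℝ) ^ ((1 : ℝ) / 10)⌋₊ := by
        refine Nat.le_floor (le_trans ?_ hG0.g2)
        rw [Nat.cast_le]
        refine card_le_card (fun p hp => ?_)
        rw [mem_filter] at hp ⊢
        refine ⟨mem_univ _, ?_⟩
        have := hp.2
        rw [h40] at this
        exact S3A1_special hmax0.1 hs0 h10 this
      have hmu : ∀ x z, (univ.filter (fun y => Std Bs P' x y z)).card ≤
          ⌊(n : ℝ) ^ ((1 : ℝ) / 30)⌋₊ + 1 := by
        intro a c
        rw [h40]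
        refine (S3A1_mult hmax0.1 a c).trans ?_
        exact Nat.add_le_add_right (Nat.le_floor (hG0.g3 a c)) 1
      obtain ⟨S, hS1, hS2⟩ := inc hP'c Bs _ _ hsp hmu
      refine ⟨S.image (fun p => S3A1_rec P' p), ?_, ?_⟩
      · intro P _ hP
        obtain ⟨x, y, z, hG, hs, hR, hmax, h1, h2, h3, h4⟩ := key P hP
        rw [mem_image]
        refine ⟨P x y, hS1 _ ?_, ?_⟩
        · have hunch : ∀ u v, ¬ Maxl P u v → P' u v = P u v := by
            intro u v huv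
            rw [h4]
            refine S3A1_mod_ne P ?_ ?_
            · rintro ⟨rfl, rfl⟩; exact huv hmax
            · rintro ⟨rfl, rfl⟩
              refine huv ⟨hmax.1.symm, fun x' y' h5 h6 => ?_⟩
              rw [hmax.2 x' y' h6 h5]
              exact Sym2.eq_swap
          obtain ⟨x', y', h5, h6, h7, h8⟩ := rl_of_rp hG.cps Bs hR hmax hunch
          exact ⟨x, x', y', y, h5, h6, h7, h8⟩
        · rw [h4]
          exact S3A1_rec_mod hG.cps
      · have hcard : (S.image (fun p => S3A1_rec P' p)).card ≤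
            2 * ⌊(n : ℝ) ^ ((1 : ℝ) / 10)⌋₊ *
            (⌊(n : ℝ) ^ ((1 : ℝ) / 10)⌋₊ + (⌊(n : ℝ) ^ ((1 : ℝ) / 30)⌋₊ + 1)) :=
          card_image_le.trans hS2
        have hcard' : ((S.image (fun p => S3A1_rec P' p)).card : ℝ) ≤
            2 * ⌊(n : ℝ) ^ ((1 : ℝ) / 10)⌋₊ *
            (⌊(n : ℝ) ^ ((1 : ℝ) / 10)⌋₊ + (⌊(n : ℝ) ^ ((1 : ℝ) / 30)⌋₊ + 1)) := by
          exact_mod_cast hcard
        have e1 : (⌊(n : ℝ) ^ ((1 : ℝ) / 10)⌋₊ : ℝ) ≤ (n : ℝ) ^ ((1 : ℝ) / 10) :=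
          Nat.floor_le (by positivity)
        have e2 : (⌊(n : ℝ) ^ ((1 : ℝ) / 30)⌋₊ : ℝ) ≤ (n : ℝ) ^ ((1 : ℝ) / 10) :=
          (Nat.floor_le (by positivity)).trans
            (Real.rpow_le_rpow_of_exponent_le hn (by norm_num))
        refine hcard'.trans (le_trans ?_ hnum)
        have e3 : (0 : ℝ) ≤ (⌊(n : ℝ) ^ ((1 : ℝ) / 10)⌋₊ : ℝ) := Nat.cast_nonneg _
        have e4 : (0 : ℝ) ≤ (⌊(n : ℝ) ^ ((1 : ℝ) / 30)⌋₊ : ℝ) := Nat.cast_nonneg _
        refine mul_le_mul (by linarith) (by linarith) (by linarith) (by positivity)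

end PSys
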