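import Mathlib
import Pool.Agent.PSys.Spec
import Pool.Agent.PSys.Upd
import Pool.Agent.PSys.Inc
import Pool.Agent.PSys.MaxR
import Pool.Agent.PSys.GoodB

/-! Module S3A2 (blueprint 0.5, Case 2): good systems with a maximal hub-leaf R-pair. -/

open Finset Filter

namespace PSys

open Classical in
/-- eligible leaves for the pair `u, b` -/
noncomputable def elig {n : ℕ} (B : Finset (Fin n)) (P : Sys n) (u b : Fin n) : Finset (Fin n) :=
  univ.filter (fun v => v ∉ B ∧ v ≠ u ∧ (∃ c, Std B P u v c) ∧ Maxl P u v ∧ Dir P v b)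

theorem s3a2_special_len {n : ℕ} {B : Finset (Fin n)} {P : Sys n} (hP : IsCPS P) {x y : Fin n}
    (h : 4 ≤ (P x y).length) : Special B P x y := by
  refine ⟨?_, ?_, ?_⟩
  · rintro rfl
    rw [hP.self x] at h
    simp at h
  · intro h1
    rw [h1] at h
    simp at h
  · rintro z ⟨h1, _⟩
    rw [h1] at h
    simp at h

/-- a path `[u, c, v]` which is not maximal extends -/
theorem s3a2_ext {n : ℕ} {P : Sys n} (hP : IsCPS P) {u c v : Fin n} (h : P u v = [u, c, v])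
    (hm : ¬ Maxl P u v) :
    (∃ y, P u y = [u, c, v, y]) ∨ (∃ x, P x v = [x, u, c, v]) := by
  have hF := hP.fam
  have huv : u ≠ v := by
    rintro rfl
    rw [hP.self u] at h
    simp at h
  have hm2 : ∃ x' y', u ∈ P x' y' ∧ v ∈ P x' y' ∧ s(x', y') ≠ s(u, v) := by
    by_contra hcon
    apply hm
    refine ⟨huv, fun x' y' h1 h2 => ?_⟩
    by_contra h3
    exact hcon ⟨x', y', h1, h2, h3⟩
  obtain ⟨x', y', h1, h2, h3⟩ := hm2
  have key : ∃ x y, u ∈ P x v ∧ v ∈ P u y ∧ u ∈ P x y ∧ ¬ (x = u ∧ y = v) := by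
    rcases hF.order_total h1 h2 with ⟨h4, h5⟩ | ⟨h4, h5⟩
    · refine ⟨x', y', h4, h5, h1, ?_⟩
      rintro ⟨rfl, rfl⟩
      exact h3 rfl
    · refine ⟨y', x', hF.mem_symm.1 h5, hF.mem_symm.1 h4, hF.mem_symm.1 h1, ?_⟩
      rintro ⟨rfl, rfl⟩
      exact h3 Sym2.eq_swap
  obtain ⟨x, y, h4, h5, _, h6⟩ := key
  by_cases hy : y = v
  · right
    have hx : u ≠ x := fun h7 => h6 ⟨h7.symm, hy⟩
    have h7 := hF.hop_spec (hP.ne_nil u x) hx
    set x1 := hop P u x
    have h8 : u ∈ P v x := hF.mem_symm.1 h4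
    have h9 : u ∈ P v x1 := hF.order h8 h7.2.1
    have h10 : u ∈ P x1 v := hF.mem_symm.1 h9
    refine ⟨x1, ?_⟩
    rw [hP.cons x1 v u h10, h, (hF.dir_symm.2 h7.1).2]
    rfl
  · left
    have h7 := hF.hop_spec (hP.ne_nil v y) (Ne.symm hy)
    set y1 := hop P v y
    have h9 : v ∈ P u y1 := hF.order h5 h7.2.1
    refine ⟨y1, ?_⟩
    rw [hP.cons u y1 v h9, h, h7.1.2]
    rfl

open Classical in
/-- Blueprint 0.5 Case 2: number of eligible leaves. -/
theorem elig_card {n : ℕ} {B : Finset (Fin n)} {P : Sys n} (h : Good B P) {u b : Fin n}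
    (hu : u ∉ B) (hb : b ∈ B) :
    (Bᶜ.card : ℝ) - 1 - (n : ℝ) ^ ((1 : ℝ) / 30) - 6 * (n : ℝ) ^ ((1 : ℝ) / 10)
      ≤ (elig B P u b).card := by
  have hP := h.cps
  set SP := univ.filter (fun p : Fin n × Fin n => Special B P p.1 p.2) with hSP
  set E2 := univ.filter (fun y => Same B u y ∧ Dir P u y) with hE2
  have hSPc := h.g2
  have hE2c := h.g1 u
  have hsub : Bᶜ ⊆ {u} ∪ E2 ∪ SP.image Prod.snd ∪ SP.image Prod.fst
      ∪ SP.image (fun p => (P p.1 p.2).getD 2 p.1) ∪ elig B P u b := by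
    intro v hv
    rw [mem_compl] at hv
    simp only [mem_union, mem_image, mem_singleton]
    by_cases hvu : v = u
    · exact Or.inl (Or.inl (Or.inl (Or.inl (Or.inl hvu))))
    have hsame : Same B u v := by
      unfold Same; tauto
    by_cases hd : Dir P u v
    · exact Or.inl (Or.inl (Or.inl (Or.inl (Or.inr (by simp [hE2, hsame, hd])))))
    by_cases hsp : Special B P u v
    · exact Or.inl (Or.inl (Or.inl (Or.inr ⟨(u, v), by simp [hSP, hsp], rfl⟩)))
    have hstd : ∃ z, Std B P u v z := by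
      by_contra hcon
      apply hsp
      refine ⟨Ne.symm hvu, fun h1 => hd ⟨Ne.symm hvu, h1⟩, ?_⟩
      intro z hz
      exact hcon ⟨z, hz⟩
    by_cases hdb : Dir P v b
    · by_cases hmax : Maxl P u v
      · refine Or.inr ?_
        simp only [elig, mem_filter, mem_univ, true_and]
        exact ⟨hv, hvu, hstd, hmax, hdb⟩
      · obtain ⟨c, hc⟩ := hstd
        rcases s3a2_ext hP hc.1 hmax with ⟨y, hy⟩ | ⟨x, hx⟩
        · refine Or.inl (Or.inr ⟨(u, y), ?_, ?_⟩)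
          · rw [hSP, mem_filter]
            exact ⟨mem_univ _, s3a2_special_len hP (by rw [hy]; simp)⟩
          · simp [hy]
        · refine Or.inl (Or.inl (Or.inl (Or.inr ⟨(x, v), ?_, rfl⟩)))
          rw [hSP, mem_filter]
          exact ⟨mem_univ _, s3a2_special_len hP (by rw [hx]; simp)⟩
    · refine Or.inl (Or.inl (Or.inr ⟨(v, b), ?_, rfl⟩))
      rw [hSP, mem_filter]
      have hvb : v ≠ b := by
        rintro rfl; exact hv hb
      refine ⟨mem_univ _, hvb, fun h1 => hdb ⟨hvb, h1⟩, ?_⟩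
      rintro z ⟨_, hz, _⟩
      apply hv
      exact hz.2 hb
  have hc1 := card_le_card hsub
  have hc2 : Bᶜ.card ≤ 1 + E2.card + SP.card + SP.card + SP.card + (elig B P u b).card := by
    refine hc1.trans ?_
    refine (card_union_le _ _).trans (Nat.add_le_add_right ?_ _)
    refine (card_union_le _ _).trans (Nat.add_le_add ?_ card_image_le)
    refine (card_union_le _ _).trans (Nat.add_le_add ?_ card_image_le)
    refine (card_union_le _ _).trans (Nat.add_le_add ?_ card_image_le)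
    refine (card_union_le _ _).trans ?_
    rw [card_singleton]
  have hc3 : (Bᶜ.card : ℝ) ≤ 1 + E2.card + SP.card + SP.card + SP.card + (elig B P u b).card := by
    exact_mod_cast hc2
  have hpos : 0 ≤ (n : ℝ) ^ ((1 : ℝ) / 10) := Real.rpow_nonneg (Nat.cast_nonneg n) _
  linarith

theorem s3a2_dirs {n : ℕ} {P : Sys n} (hP : IsCPS P) {x m y : Fin n} (h : P x y = [x, m, y]) :
    x ≠ m ∧ m ≠ y ∧ x ≠ y ∧ Dir P x m ∧ Dir P m y ∧ ¬ Dir P x y := by
  have hn := hP.nodup x y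
  rw [h] at hn
  simp only [List.nodup_cons, List.mem_cons, List.not_mem_nil, or_false, not_or,
    not_false_eq_true, List.nodup_nil, and_true] at hn
  obtain ⟨⟨h1, h2⟩, h3⟩ := hn
  have h4 := hP.fam.hop_spec (hP.ne_nil x y) h2
  have h5 : hop P x y = m := by unfold hop; rw [h]; rfl
  rw [h5] at h4
  refine ⟨h1, h3, h2, h4.1, ?_, ?_⟩
  · refine ⟨h3, ?_⟩
    have h6 := h4.2.2
    rw [h] at h6
    exact (List.cons.inj h6).2.symm
  · intro h7
    have := h7.2
    rw [h] at this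
    simp at this

theorem s3a2_maxl_symm {n : ℕ} {P : Sys n} {x y : Fin n} (h : Maxl P x y) : Maxl P y x := by
  refine ⟨h.1.symm, fun x' y' h1 h2 => ?_⟩
  rw [h.2 x' y' h2 h1]
  exact Sym2.eq_swap

theorem s3a2_rp_symm {n : ℕ} {P : Sys n} (hP : IsCPS P) {B : Finset (Fin n)} {x y : Fin n}
    (h : Rp B P x y) : Rp B P y x := by
  refine ⟨?_, ?_⟩
  · rw [hP.symm x y, List.length_reverse]; exact h.1
  · rintro ⟨c, a, h1, h2, h3, h4⟩
    apply h.2
    refine ⟨a, c, ?_, fun h5 => h4 h5.symm, fun h5 => h3 h5.symm, fun h5 => h2 h5.symm⟩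
    rw [hP.symm y x, h1]
    rfl

/-- the modified system -/
noncomputable def md {n : ℕ} (P : Sys n) (u b : Fin n) (S : Finset (Fin n)) : Sys n :=
  fun x y =>
    if (x = u ∧ y = b) ∨ (x = b ∧ y = u) then [x, y]
    else if x = u ∧ y ∈ S then [u, b, y]
    else if y = u ∧ x ∈ S then [x, b, u]
    else P x y

/-- the modified pairs -/
def MM {n : ℕ} (u b : Fin n) (S : Finset (Fin n)) (x y : Fin n) : Prop :=
  (x = u ∧ y = b) ∨ (x = b ∧ y = u) ∨ (x = u ∧ y ∈ S) ∨ (y = u ∧ x ∈ S)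

section md

variable {n : ℕ} {B : Finset (Fin n)} {P : Sys n} {u b : Fin n} {S : Finset (Fin n)}

theorem s3a2_mem (hS : S ⊆ elig B P u b) {v : Fin n} (hv : v ∈ S) :
    v ∉ B ∧ v ≠ u ∧ (∃ c, Std B P u v c) ∧ Maxl P u v ∧ Dir P v b := by
  have := hS hv
  classical
  rw [elig, mem_filter] at this
  exact this.2

theorem md_ub : md P u b S u b = [u, b] := by
  unfold md; rw [if_pos (Or.inl ⟨rfl, rfl⟩)]

theorem md_bu : md P u b S b u = [b, u] := by
  unfold md; rw [if_pos (Or.inr ⟨rfl, rfl⟩)]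

theorem md_uv (hb : b ∈ B) (hS : S ⊆ elig B P u b) {v : Fin n} (hv : v ∈ S) :
    md P u b S u v = [u, b, v] := by
  have h := s3a2_mem hS hv
  have h1 : v ≠ b := by rintro rfl; exact h.1 hb
  unfold md
  rw [if_neg, if_pos ⟨rfl, hv⟩]
  rintro (⟨_, h2⟩ | ⟨_, h2⟩)
  · exact h1 h2
  · exact h.2.1 h2

theorem md_vu (hb : b ∈ B) (hS : S ⊆ elig B P u b) {v : Fin n} (hv : v ∈ S) :
    md P u b S v u = [v, b, u] := by
  have h := s3a2_mem hS hv
  have h1 : v ≠ b := by rintro rfl; exact h.1 hb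
  unfold md
  rw [if_neg, if_neg, if_pos ⟨rfl, hv⟩]
  · rintro ⟨h2, _⟩
    exact h.2.1 h2
  · rintro (⟨h2, _⟩ | ⟨h2, _⟩)
    · exact h.2.1 h2
    · exact h1 h2

theorem md_other {x y : Fin n} (h : ¬ MM u b S x y) : md P u b S x y = P x y := by
  unfold MM at h
  simp only [not_or, not_and] at h
  obtain ⟨h1, h2, h3, h4⟩ := h
  unfold md
  rw [if_neg, if_neg, if_neg]
  · rintro ⟨h5, h6⟩; exact h4 h5 h6
  · rintro ⟨h5, h6⟩; exact h3 h5 h6
  · rintro (⟨h5, h6⟩ | ⟨h5, h6⟩)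
    · exact h1 h5 h6
    · exact h2 h5 h6

theorem MM_maxl (hS : S ⊆ elig B P u b) (hm : Maxl P u b) {x y : Fin n} (h : MM u b S x y) :
    Maxl P x y := by
  rcases h with ⟨rfl, rfl⟩ | ⟨rfl, rfl⟩ | ⟨rfl, h⟩ | ⟨rfl, h⟩
  · exact hm
  · exact s3a2_maxl_symm hm
  · exact (s3a2_mem hS h).2.2.2.1
  · exact s3a2_maxl_symm (s3a2_mem hS h).2.2.2.1

theorem md_cps (hP : IsCPS P) (hu : u ∉ B) (hb : b ∈ B) (hS : S ⊆ elig B P u b)
    (hm : Maxl P u b) : IsCPS (md P u b S) := by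
  have hub : u ≠ b := hm.1
  have huS : u ∉ S := fun h => (s3a2_mem hS h).2.1 rfl
  have hbS : b ∉ S := fun h => (s3a2_mem hS h).1 hb
  have hbv : ∀ v ∈ S, md P u b S b v = [b, v] := by
    intro v hv
    have h := s3a2_mem hS hv
    rw [md_other]
    · exact (hP.fam.dir_symm.2 h.2.2.2.2).2
    · rintro (⟨h1, _⟩ | ⟨_, h1⟩ | ⟨h1, _⟩ | ⟨h1, _⟩)
      · exact hub h1.symm
      · exact h.2.1 h1
      · exact hub h1.symm
      · exact h.2.1 h1
  have hvb : ∀ v ∈ S, md P u b S v b = [v, b] := by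
    intro v hv
    have h := s3a2_mem hS hv
    rw [md_other]
    · exact h.2.2.2.2.2
    · rintro (⟨h1, _⟩ | ⟨_, h1⟩ | ⟨h1, _⟩ | ⟨h1, _⟩)
      · exact h.2.1 h1
      · exact hub h1.symm
      · exact h.2.1 h1
      · exact hub h1.symm
  have hvne : ∀ v ∈ S, b ≠ v := fun v hv h1 => hbS (h1 ▸ hv)
  refine upd_maxl hP (MM u b S) ?_ (fun x y h => MM_maxl hS hm h) (fun x y h => md_other h) ?_ ?_
  · rintro x y (⟨rfl, rfl⟩ | ⟨rfl, rfl⟩ | ⟨rfl, h⟩ | ⟨rfl, h⟩)
    · exact Or.inr (Or.inl ⟨rfl, rfl⟩)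
    · exact Or.inl ⟨rfl, rfl⟩
    · exact Or.inr (Or.inr (Or.inr ⟨rfl, h⟩))
    · exact Or.inr (Or.inr (Or.inl ⟨rfl, h⟩))
  · rintro x y (⟨rfl, rfl⟩ | ⟨rfl, rfl⟩ | ⟨rfl, h⟩ | ⟨rfl, h⟩)
    · exact Or.inl md_ub
    · exact Or.inl md_bu
    · exact Or.inr ⟨b, hub.symm, hvne y h, md_uv hb hS h, md_ub, hbv y h⟩
    · exact Or.inr ⟨b, hvne x h, hub.symm, md_vu hb hS h, hvb x h, md_bu⟩
  · rintro x y (⟨rfl, rfl⟩ | ⟨rfl, rfl⟩ | ⟨rfl, h⟩ | ⟨rfl, h⟩)
    · rw [md_ub, md_bu]; rfl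
    · rw [md_ub, md_bu]; rfl
    · rw [md_uv hb hS h, md_vu hb hS h]; rfl
    · rw [md_uv hb hS h, md_vu hb hS h]; rfl

theorem md_dir (hP : IsCPS P) (hS : S ⊆ elig B P u b) {x y : Fin n}
    (h : Dir P x y) : Dir (md P u b S) x y := by
  by_cases hM : MM u b S x y
  · rcases hM with ⟨rfl, rfl⟩ | ⟨rfl, rfl⟩ | ⟨rfl, h1⟩ | ⟨rfl, h1⟩
    · exact ⟨h.1, md_ub⟩
    · exact ⟨h.1, md_bu⟩
    · obtain ⟨c, hc⟩ := (s3a2_mem hS h1).2.2.1
      exact absurd h (s3a2_dirs hP hc.1).2.2.2.2.2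
    · obtain ⟨c, hc⟩ := (s3a2_mem hS h1).2.2.1
      exact absurd (hP.fam.dir_symm.2 h) (s3a2_dirs hP hc.1).2.2.2.2.2
  · exact ⟨h.1, by rw [md_other hM]; exact h.2⟩

theorem md_dir' (hb : b ∈ B) (hS : S ⊆ elig B P u b) {x y : Fin n}
    (h : Dir (md P u b S) x y) : Dir P x y ∨ y = (if x = u then b else u) := by
  by_cases hM : MM u b S x y
  · right
    rcases hM with ⟨rfl, rfl⟩ | ⟨rfl, rfl⟩ | ⟨rfl, h1⟩ | ⟨rfl, h1⟩
    · rw [if_pos rfl]
    · rw [if_neg h.1]
    · have := h.2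
      rw [md_uv hb hS h1] at this
      simp at this
    · rw [if_neg h.1]
  · left
    refine ⟨h.1, ?_⟩
    have := h.2
    rwa [md_other hM] at this

theorem md_special (hu : u ∉ B) (hb : b ∈ B) (hS : S ⊆ elig B P u b)
    {x y : Fin n} (h : Special B (md P u b S) x y) : Special B P x y := by
  have hsub : ¬ Same B u b := by
    unfold Same; tauto
  by_cases hM : MM u b S x y
  · exfalso
    rcases hM with ⟨rfl, rfl⟩ | ⟨rfl, rfl⟩ | ⟨rfl, h1⟩ | ⟨rfl, h1⟩
    · exact h.2.1 md_ub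
    · exact h.2.1 md_bu
    · have h2 := s3a2_mem hS h1
      refine h.2.2 b ⟨md_uv hb hS h1, ?_, hsub⟩
      unfold Same; tauto
    · have h2 := s3a2_mem hS h1
      refine h.2.2 b ⟨md_vu hb hS h1, ?_, ?_⟩
      · unfold Same; tauto
      · unfold Same; tauto
  · refine ⟨h.1, ?_, ?_⟩
    · have := h.2.1
      rwa [md_other hM] at this
    · intro z hz
      refine h.2.2 z ⟨?_, hz.2⟩
      rw [md_other hM]; exact hz.1

theorem md_std {x y z : Fin n} (h : Std B (md P u b S) x y z) :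
    Std B P x y z ∨ y ∈ S ∨ y = u := by
  by_cases hM : MM u b S x y
  · rcases hM with ⟨rfl, rfl⟩ | ⟨rfl, rfl⟩ | ⟨rfl, h1⟩ | ⟨rfl, h1⟩
    · have := h.1
      rw [md_ub] at this
      simp at this
    · exact Or.inr (Or.inr rfl)
    · exact Or.inr (Or.inl h1)
    · exact Or.inr (Or.inr rfl)
  · left
    refine ⟨?_, h.2⟩
    have := h.1
    rwa [md_other hM] at this

theorem md_mem_S (hP : IsCPS P) (hb : b ∈ B) (hS : S ⊆ elig B P u b) (hR : Rp B P u b)
    {v : Fin n} : md P u b S u v = [u, b, v] ↔ v ∈ S := by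
  refine ⟨fun h => ?_, fun h => md_uv hb hS h⟩
  by_contra hv
  have huS : u ∉ S := fun h => (s3a2_mem hS h).2.1 rfl
  by_cases hM : MM u b S u v
  · rcases hM with ⟨_, h1⟩ | ⟨h1, h2⟩ | ⟨_, h1⟩ | ⟨_, h1⟩
    · subst h1
      rw [md_ub] at h
      simp at h
    · subst h1
      subst h2
      rw [md_ub] at h
      simp at h
    · exact hv h1
    · exact huS h1
  · rw [md_other hM] at h
    have h1 := (s3a2_dirs hP h).2.2.2.1
    have h2 := hR.1
    rw [h1.2] at h2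
    simp at h2

end md

/-- `P` is determined by the modified system, the path and the old middle vertices -/
theorem md_inj {n : ℕ} {B : Finset (Fin n)} {P₁ P₂ : Sys n} {u b : Fin n} {S : Finset (Fin n)}
    (h₁ : IsCPS P₁) (h₂ : IsCPS P₂)
    (hS₁ : S ⊆ elig B P₁ u b) (hS₂ : S ⊆ elig B P₂ u b)
    (hp : P₁ u b = P₂ u b) (hf : ∀ v ∈ S, hop P₁ u v = hop P₂ u v)
    (hm : md P₁ u b S = md P₂ u b S) : P₁ = P₂ := by
  have key : ∀ v ∈ S, P₁ u v = P₂ u v := by
    intro v hv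
    obtain ⟨c₁, hc₁⟩ := (s3a2_mem hS₁ hv).2.2.1
    obtain ⟨c₂, hc₂⟩ := (s3a2_mem hS₂ hv).2.2.1
    have e₁ : hop P₁ u v = c₁ := by unfold hop; rw [hc₁.1]; rfl
    have e₂ : hop P₂ u v = c₂ := by unfold hop; rw [hc₂.1]; rfl
    have e₃ := hf v hv
    rw [e₁, e₂] at e₃
    rw [hc₁.1, hc₂.1, e₃]
  funext x y
  by_cases hM : MM u b S x y
  · rcases hM with ⟨rfl, rfl⟩ | ⟨rfl, rfl⟩ | ⟨rfl, h1⟩ | ⟨rfl, h1⟩
    · exact hp
    · rw [h₁.symm y x, h₂.symm y x, hp]
    · exact key y h1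
    · rw [h₁.symm y x, h₂.symm y x, key x h1]
  · have := congrFun (congrFun hm x) y
    rwa [md_other hM, md_other hM] at this

open Classical in
theorem s3a2_comb {n : ℕ} [NeZero n] (j s m m0 bm : ℕ) (A : Finset (Sys n))
    (hA : ∀ P ∈ A, ∃ B u b, Good B P ∧ u ∉ B ∧ b ∈ B ∧ Rp B P u b ∧ Maxl P u b)
    (hs : ∀ (B : Finset (Fin n)) (P : Sys n), Good B P →
      (univ.filter (fun p : Fin n × Fin n => Special B P p.1 p.2)).card ≤ s)
    (hm : ∀ (B : Finset (Fin n)) (P : Sys n), Good B P →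
      ∀ x z, (univ.filter (fun y => Std B P x y z)).card ≤ m)
    (hB : ∀ (B : Finset (Fin n)) (P : Sys n), Good B P →
      ∀ P' : Sys n, (∀ x y, Dir P x y → Dir P' x y) →
      (∀ x, (univ.filter (fun y => Dir P' x y)).card ≤ (univ.filter (fun y => Dir P x y)).card + 1) →
      B = univ.filter (fun x => (n : ℝ) / 2 ≤ (univ.filter (fun y => Dir P' x y)).card))
    (hbm : ∀ (B : Finset (Fin n)) (P : Sys n), Good B P → B.card ≤ bm)
    (hel : ∀ (B : Finset (Fin n)) (P : Sys n) (u b : Fin n), Good B P → u ∉ B → b ∈ B →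
      m0 ≤ (elig B P u b).card) :
    A.card * m0.choose j ≤ (2 * s * (s + (m + j + 1)) * bm ^ j) * (cps n).card := by
  have hA' : ∀ P, ∃ t : Finset (Fin n) × Fin n × Fin n, P ∈ A →
      (Good t.1 P ∧ t.2.1 ∉ t.1 ∧ t.2.2 ∈ t.1 ∧ Rp t.1 P t.2.1 t.2.2 ∧ Maxl P t.2.1 t.2.2) := by
    intro P
    by_cases h : P ∈ A
    · obtain ⟨B, u, b, h1⟩ := hA P h
      exact ⟨(B, u, b), fun _ => h1⟩
    · exact ⟨(∅, 0, 0), fun h1 => absurd h1 h⟩
  choose tf htf using hA'
  set Bf : Sys n → Finset (Fin n) := fun P => (tf P).1 with hBf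
  set uf : Sys n → Fin n := fun P => (tf P).2.1 with huf
  set bf : Sys n → Fin n := fun P => (tf P).2.2 with hbf
  have hG : ∀ P ∈ A, Good (Bf P) P := fun P hP => (htf P hP).1
  have hu : ∀ P ∈ A, uf P ∉ Bf P := fun P hP => (htf P hP).2.1
  have hb : ∀ P ∈ A, bf P ∈ Bf P := fun P hP => (htf P hP).2.2.1
  have hR : ∀ P ∈ A, Rp (Bf P) P (uf P) (bf P) := fun P hP => (htf P hP).2.2.2.1
  have hM : ∀ P ∈ A, Maxl P (uf P) (bf P) := fun P hP => (htf P hP).2.2.2.2
  set X : Finset (Σ _ : Sys n, Finset (Fin n)) :=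
    A.sigma (fun P => powersetCard j (elig (Bf P) P (uf P) (bf P))) with hX
  set Phi : (Σ _ : Sys n, Finset (Fin n)) → Sys n :=
    fun q => md q.1 (uf q.1) (bf q.1) q.2 with hPhi
  have hXm : ∀ q ∈ X, q.1 ∈ A ∧ q.2 ⊆ elig (Bf q.1) q.1 (uf q.1) (bf q.1) ∧ q.2.card = j := by
    intro q hq
    rw [hX, mem_sigma, mem_powersetCard] at hq
    exact hq
  have hlow : A.card * m0.choose j ≤ X.card := by
    rw [hX, card_sigma]
    have h1 : ∀ P ∈ A, m0.choose j ≤ (powersetCard j (elig (Bf P) P (uf P) (bf P))).card := by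
      intro P hP
      rw [card_powersetCard]
      exact Nat.choose_le_choose j (hel _ P _ _ (hG P hP) (hu P hP) (hb P hP))
    calc A.card * m0.choose j = ∑ _P ∈ A, m0.choose j := by rw [sum_const, smul_eq_mul]
      _ ≤ _ := sum_le_sum h1
  have hmaps : ∀ q ∈ X, Phi q ∈ cps n := by
    intro q hq
    obtain ⟨h1, h2, _⟩ := hXm q hq
    rw [mem_cps]
    exact md_cps (hG _ h1).cps (hu _ h1) (hb _ h1) h2 (hM _ h1)
  -- B is determined by the image
  have hBdet : ∀ q ∈ X, Bf q.1 =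
      univ.filter (fun x => (n : ℝ) / 2 ≤ (univ.filter (fun y => Dir (Phi q) x y)).card) := by
    intro q hq
    obtain ⟨h1, h2, _⟩ := hXm q hq
    refine hB _ q.1 (hG _ h1) _ (fun x y h => md_dir (hG _ h1).cps h2 h) ?_
    intro x
    have h3 : univ.filter (fun y => Dir (Phi q) x y) ⊆
        insert (if x = uf q.1 then bf q.1 else uf q.1) (univ.filter (fun y => Dir q.1 x y)) := by
      intro y hy
      rw [mem_filter] at hy
      rw [mem_insert, mem_filter]
      rcases md_dir' (hb _ h1) h2 hy.2 with h4 | h4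
      · exact Or.inr ⟨mem_univ _, h4⟩
      · exact Or.inl h4
    exact (card_le_card h3).trans (card_insert_le _ _)
  have hfib : ∀ P' ∈ cps n, (X.filter (fun q => Phi q = P')).card ≤
      2 * s * (s + (m + j + 1)) * bm ^ j := by
    intro P' hP'
    rw [mem_cps] at hP'
    rcases (X.filter (fun q => Phi q = P')).eq_empty_or_nonempty with h0 | ⟨q0, hq0⟩
    · rw [h0]; simp
    rw [mem_filter] at hq0
    obtain ⟨hq0X, hq0P⟩ := hq0
    obtain ⟨a1, a2, a3⟩ := hXm q0 hq0X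
    set B0 := Bf q0.1 with hB0
    have hsP : (univ.filter (fun p : Fin n × Fin n => Special B0 P' p.1 p.2)).card ≤ s := by
      refine le_trans (card_le_card ?_) (hs B0 q0.1 (hG _ a1))
      intro p hp
      rw [mem_filter] at hp ⊢
      refine ⟨mem_univ _, ?_⟩
      have h5 := hp.2
      rw [← hq0P] at h5
      exact md_special (hu _ a1) (hb _ a1) a2 h5
    have hmP : ∀ x z, (univ.filter (fun y => Std B0 P' x y z)).card ≤ m + j + 1 := by
      intro x z
      have h5 : univ.filter (fun y => Std B0 P' x y z) ⊆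
          univ.filter (fun y => Std B0 q0.1 x y z) ∪ q0.2 ∪ {uf q0.1} := by
        intro y hy
        rw [mem_filter] at hy
        rw [mem_union, mem_union, mem_filter, mem_singleton]
        have h6 := hy.2
        rw [← hq0P] at h6
        rcases md_std h6 with h7 | h7 | h7
        · exact Or.inl (Or.inl ⟨mem_univ _, h7⟩)
        · exact Or.inl (Or.inr h7)
        · exact Or.inr h7
      refine (card_le_card h5).trans ?_
      refine (card_union_le _ _).trans ?_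
      rw [card_singleton]
      refine Nat.add_le_add_right ?_ 1
      refine (card_union_le _ _).trans ?_
      rw [a3]
      exact Nat.add_le_add_right (hm B0 q0.1 (hG _ a1) x z) j
    obtain ⟨IN, hIN, hINc⟩ := inc hP' B0 s (m + j + 1) hsP hmP
    -- all elements of the fibre have the same B
    have hsame : ∀ q ∈ X, Phi q = P' → Bf q.1 = B0 := by
      intro q hq hqP
      rw [hB0, hBdet q hq, hBdet q0 hq0X, hqP, hq0P]
    set T : List (Fin n) → Finset (Fin n) := fun p =>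
      univ.filter (fun v => ∃ a b, p.head? = some a ∧ p.getLast? = some b ∧ P' a v = [a, b, v])
      with hT
    have hTS : ∀ q ∈ X, Phi q = P' → T (q.1 (uf q.1) (bf q.1)) = q.2 := by
      intro q hq hqP
      obtain ⟨b1, b2, b3⟩ := hXm q hq
      have hc := (hG _ b1).cps
      ext v
      rw [hT]
      simp only [mem_filter, mem_univ, true_and]
      rw [← md_mem_S hc (hb _ b1) b2 (hR _ b1), hc.head, hc.last]
      constructor
      · rintro ⟨a, b, h1, h2, h3⟩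
        rw [← hqP] at h3
        simp only [Option.some.injEq] at h1 h2
        subst h1
        subst h2
        exact h3
      · intro h
        refine ⟨_, _, rfl, rfl, ?_⟩
        rw [← hqP]; exact h
    set Y : Finset (Σ _ : List (Fin n), Fin n → Fin n) :=
      (IN.filter (fun p => (T p).card = j)).sigma
        (fun p => Fintype.piFinset (fun v : Fin n => if v ∈ T p then B0 else {v})) with hY
    have hYc : Y.card ≤ 2 * s * (s + (m + j + 1)) * bm ^ j := by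
      rw [hY, card_sigma]
      have h1 : ∀ p ∈ IN.filter (fun p => (T p).card = j),
          (Fintype.piFinset (fun v : Fin n => if v ∈ T p then B0 else {v})).card ≤ bm ^ j := by
        intro p hp
        rw [mem_filter] at hp
        rw [Fintype.card_piFinset]
        have h2 : ∀ v : Fin n, (if v ∈ T p then B0 else {v}).card = if v ∈ T p then B0.card else 1 := by
          intro v
          split_ifs
          · rfl
          · rw [card_singleton]
        simp only [h2]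
        rw [prod_ite, prod_const_one, mul_one, prod_const]
        have h3 : univ.filter (fun v => v ∈ T p) = T p := by
          ext v; simp
        rw [h3, hp.2]
        exact Nat.pow_le_pow_left (hbm B0 q0.1 (hG _ a1)) j
      refine (sum_le_sum h1).trans ?_
      rw [sum_const, smul_eq_mul]
      refine Nat.mul_le_mul_right _ ?_
      exact (card_le_card (filter_subset _ _)).trans hINc
    refine le_trans ?_ hYc
    refine card_le_card_of_injOn
      (fun q => (⟨q.1 (uf q.1) (bf q.1), fun v => if v ∈ q.2 then hop q.1 (uf q.1) v else v⟩ :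
        Σ _ : List (Fin n), Fin n → Fin n)) ?_ ?_
    · intro q hq
      rw [mem_coe, mem_filter] at hq
      obtain ⟨hq1, hq2⟩ := hq
      obtain ⟨b1, b2, b3⟩ := hXm q hq1
      have hc := (hG _ b1).cps
      have hBq := hsame q hq1 hq2
      rw [mem_coe, hY, mem_sigma, mem_filter]
      refine ⟨⟨?_, ?_⟩, ?_⟩
      · apply hIN
        obtain ⟨x', y', h1, h2, h3, h4⟩ := rl_of_rp (P' := P') hc (Bf q.1) (hR _ b1) (hM _ b1)
          (by
            intro x y h
            rw [← hq2]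
            exact md_other (fun h5 => h (MM_maxl b2 (hM _ b1) h5)))
        rw [hBq] at h4
        exact ⟨_, x', y', _, h1, h2, h3, h4⟩
      · simp only
        rw [hTS q hq1 hq2, b3]
      · simp only
        rw [Fintype.mem_piFinset]
        intro v
        rw [hTS q hq1 hq2]
        split_ifs with hv
        · obtain ⟨c, hcv⟩ := (s3a2_mem b2 hv).2.2.1
          have e : hop q.1 (uf q.1) v = c := by unfold hop; rw [hcv.1]; rfl
          rw [e, ← hBq]
          have h6 := hcv.2.2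
          have h7 := hu _ b1
          unfold Same at h6
          tauto
        · exact mem_singleton_self v
    · intro q1 hq1 q2 hq2 heq
      rw [mem_coe, mem_filter] at hq1 hq2
      obtain ⟨hq1X, hq1P⟩ := hq1
      obtain ⟨hq2X, hq2P⟩ := hq2
      obtain ⟨b1, b2, b3⟩ := hXm q1 hq1X
      obtain ⟨c1, c2, c3⟩ := hXm q2 hq2X
      simp only [Sigma.mk.injEq, heq_eq_eq] at heq
      obtain ⟨e1, e2⟩ := heq
      have hSe : q1.2 = q2.2 := by
        rw [← hTS q1 hq1X hq1P, ← hTS q2 hq2X hq2P, e1]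
      have hcp1 := (hG _ b1).cps
      have hcp2 := (hG _ c1).cps
      have hue : uf q1.1 = uf q2.1 := by
        have h1 := hcp1.head (uf q1.1) (bf q1.1)
        rw [e1, hcp2.head] at h1
        simpa using h1.symm
      have hbe : bf q1.1 = bf q2.1 := by
        have h1 := hcp1.last (uf q1.1) (bf q1.1)
        rw [e1, hcp2.last] at h1
        simpa using h1.symm
      have hBe : Bf q1.1 = Bf q2.1 := by
        rw [hsame q1 hq1X hq1P, hsame q2 hq2X hq2P]
      have hPe : q1.1 = q2.1 := by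
        have hm1 : md q1.1 (uf q1.1) (bf q1.1) q1.2 = md q2.1 (uf q2.1) (bf q2.1) q2.2 := by
          have h1 : Phi q1 = Phi q2 := by rw [hq1P, hq2P]
          exact h1
        rw [hBe, hue, hbe, hSe] at b2
        rw [hue, hbe, hSe] at hm1
        rw [hue, hbe] at e1
        refine md_inj hcp1 hcp2 b2 c2 e1 ?_ hm1
        intro v hv
        have h1 := congrFun e2 v
        rw [hSe, if_pos hv, if_pos hv, hue] at h1
        exact h1
      exact Sigma.ext hPe (heq_of_eq hSe)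
  have hup := card_le_mul_card_image_of_maps_to (s := X) (t := cps n) (f := Phi) hmaps _ hfib
  exact hlow.trans hup

theorem s3a2_log_le (r c : ℝ) (hr : 0 < r) (hc : 0 < c) :
    ∀ᶠ n : ℕ in atTop, Real.log n ≤ c * (n : ℝ) ^ r := by
  have h := (isLittleO_log_rpow_atTop hr).bound hc
  have h2 := (tendsto_natCast_atTop_atTop (R := ℝ)).eventually h
  filter_upwards [h2] with n h3
  have h5 : 0 ≤ (n : ℝ) ^ r := by positivity
  rw [Real.norm_of_nonneg (Real.log_natCast_nonneg n), Real.norm_of_nonneg h5] at h3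
  exact h3

theorem s3a2_num : ∀ᶠ n : ℕ in atTop,
    ((2 * ⌊(n : ℝ) ^ ((1 : ℝ) / 10)⌋₊ * (⌊(n : ℝ) ^ ((1 : ℝ) / 10)⌋₊ +
      (⌊(n : ℝ) ^ ((1 : ℝ) / 30)⌋₊ + ⌈Real.log n / 2⌉₊ + 1)) *
      ⌊(n : ℝ) / (19998 / 10000 * Real.log n)⌋₊ ^ ⌈Real.log n / 2⌉₊ : ℕ) : ℝ) ≤
      (n : ℝ) ^ (-((1 : ℝ) / 4)) * (Nat.choose ⌈(9 / 10 : ℝ) * n⌉₊ ⌈Real.log n / 2⌉₊ : ℕ) ∧
    0 < (Nat.choose ⌈(9 / 10 : ℝ) * n⌉₊ ⌈Real.log n / 2⌉₊) := by
  have h1 : ∀ᶠ n : ℕ in atTop, (10 : ℝ) ≤ Real.log n :=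
    (Real.tendsto_log_atTop.comp tendsto_natCast_atTop_atTop).eventually_ge_atTop 10
  have h2 := s3a2_log_le (1 / 30) 1 (by norm_num) (by norm_num)
  have h3 := s3a2_log_le 1 (1 / 20) (by norm_num) (by norm_num)
  have h4 : ∀ᶠ n : ℕ in atTop, (6 : ℝ) ≤ (n : ℝ) ^ ((1 : ℝ) / 20) :=
    ((tendsto_rpow_atTop (by norm_num)).comp tendsto_natCast_atTop_atTop).eventually_ge_atTop 6
  filter_upwards [h1, h2, h3, h4, eventually_ge_atTop 100] with n hL hL2 hL3 h6 hn
  have hn0 : (0 : ℝ) < n := by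
    have : 0 < n := by omega
    exact_mod_cast this
  have hn1 : (1 : ℝ) ≤ n := by
    have : 1 ≤ n := by omega
    exact_mod_cast this
  have hn100 : (100 : ℝ) ≤ n := by exact_mod_cast hn
  set L := Real.log n with hLdef
  set j := ⌈L / 2⌉₊ with hj
  set s := ⌊(n : ℝ) ^ ((1 : ℝ) / 10)⌋₊ with hs
  set m := ⌊(n : ℝ) ^ ((1 : ℝ) / 30)⌋₊ with hm
  set bm := ⌊(n : ℝ) / (19998 / 10000 * L)⌋₊ with hbm
  set m0 := ⌈(9 / 10 : ℝ) * n⌉₊ with hm0
  rw [Real.rpow_one] at hL3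
  rw [one_mul] at hL2
  have j1 : L / 2 ≤ j := Nat.le_ceil _
  have j2 : (j : ℝ) < L / 2 + 1 := Nat.ceil_lt_add_one (by linarith)
  have j0 : (0 : ℝ) < j := by linarith
  have s1 : (s : ℝ) ≤ (n : ℝ) ^ ((1 : ℝ) / 10) := Nat.floor_le (by positivity)
  have m1 : (m : ℝ) ≤ (n : ℝ) ^ ((1 : ℝ) / 30) := Nat.floor_le (by positivity)
  have e1 : (n : ℝ) ^ ((1 : ℝ) / 30) ≤ (n : ℝ) ^ ((1 : ℝ) / 10) :=
    Real.rpow_le_rpow_of_exponent_le hn1 (by norm_num)
  have b1 : (bm : ℝ) ≤ (n : ℝ) / (19998 / 10000 * L) := Nat.floor_le (by positivity)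
  have m2 : (9 / 10 : ℝ) * n ≤ m0 := Nat.le_ceil _
  -- choose
  have jm : j ≤ m0 + 1 := by
    have : (j : ℝ) ≤ m0 + 1 := by linarith
    exact_mod_cast this
  have c1 : (17 / 20 : ℝ) * n ≤ ((m0 + 1 - j : ℕ) : ℝ) := by
    rw [Nat.cast_sub jm]
    push_cast
    linarith
  have c2 : ((17 / 20 : ℝ) * n) ^ j ≤ ((m0 + 1 - j : ℕ) : ℝ) ^ j :=
    pow_le_pow_left₀ (by positivity) c1 j
  have c3 : (j.factorial : ℝ) ≤ (j : ℝ) ^ j := by exact_mod_cast Nat.factorial_le_pow j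
  have c4 : ((17 / 20 : ℝ) * n / j) ^ j ≤ (m0.choose j : ℝ) := by
    have h7 := Nat.pow_le_choose (α := ℝ) j m0
    refine le_trans ?_ h7
    rw [div_pow]
    exact div_le_div₀ (by positivity) c2 (by positivity) c3
  have c5 : (bm : ℝ) ≤ Real.exp (-1) * ((17 / 20 : ℝ) * n / j) := by
    have h7 : (0.3678 : ℝ) ≤ Real.exp (-1) := by
      rw [Real.exp_neg]
      have h8 := Real.exp_one_lt_d9
      have h9 := Real.exp_pos 1
      rw [le_inv_comm₀ (by norm_num) h9]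
      refine h8.le.trans ?_
      norm_num
    have h8 : (n : ℝ) / (19998 / 10000 * L) ≤ 0.3678 * ((17 / 20 : ℝ) * n / j) := by
      have h9 : 0.3678 * ((17 / 20 : ℝ) * n / j) = (0.3678 * (17 / 20) * n) / j := by ring
      rw [h9, div_le_div_iff₀ (by positivity) j0]
      have h10 : (n : ℝ) * j ≤ n * (L / 2 + 1) := mul_le_mul_of_nonneg_left j2.le hn0.le
      have h11 : (n : ℝ) * (L / 2 + 1) ≤ 0.3678 * (17 / 20) * n * (19998 / 10000 * L) := by
        have h12 : (n : ℝ) * (L / 2 + 1) ≤ n * (0.6252 * L) := by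
          refine mul_le_mul_of_nonneg_left ?_ hn0.le
          linarith
        nlinarith
      linarith
    refine b1.trans (h8.trans ?_)
    exact mul_le_mul_of_nonneg_right h7 (by positivity)
  have c6 : (bm : ℝ) ^ j ≤ Real.exp (-j) * (m0.choose j : ℝ) := by
    have h7 : (bm : ℝ) ^ j ≤ (Real.exp (-1) * ((17 / 20 : ℝ) * n / j)) ^ j :=
      pow_le_pow_left₀ (Nat.cast_nonneg _) c5 j
    rw [mul_pow, ← Real.exp_nat_mul] at h7
    refine h7.trans ?_
    rw [mul_neg_one]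
    exact mul_le_mul_of_nonneg_left c4 (Real.exp_pos _).le
  have c7 : Real.exp (-j) ≤ (n : ℝ) ^ (-((1 : ℝ) / 2)) := by
    rw [Real.rpow_def_of_pos hn0]
    apply Real.exp_le_exp.2
    rw [← hLdef]
    linarith
  have c8 : (2 * s * (s + (m + j + 1)) : ℝ) ≤ (n : ℝ) ^ ((1 : ℝ) / 4) := by
    set z := (n : ℝ) ^ ((1 : ℝ) / 10) with hz
    have z0 : 0 < z := by positivity
    have z1 : L ≤ z := hL2.trans e1
    have z2 : (s + (m + j + 1) : ℝ) ≤ 3 * z := by linarith
    have z3 : (2 * s : ℝ) ≤ 2 * z := by linarith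
    have z4 : (2 * s * (s + (m + j + 1)) : ℝ) ≤ 2 * z * (3 * z) := by
      refine mul_le_mul z3 z2 (by positivity) (by positivity)
    refine z4.trans ?_
    have z5 : (n : ℝ) ^ ((1 : ℝ) / 4) = (n : ℝ) ^ ((1 : ℝ) / 20) * (z * z) := by
      rw [hz, ← Real.rpow_add hn0, ← Real.rpow_add hn0]
      norm_num
    rw [z5]
    have z6 : 6 * (z * z) ≤ (n : ℝ) ^ ((1 : ℝ) / 20) * (z * z) :=
      mul_le_mul_of_nonneg_right h6 (by positivity)
    linarith
  have hC0 : (0 : ℝ) ≤ (m0.choose j : ℝ) := Nat.cast_nonneg _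
  constructor
  · push_cast
    have h7 : (2 * s * (s + (m + j + 1)) * (bm : ℝ) ^ j : ℝ) ≤
        (n : ℝ) ^ ((1 : ℝ) / 4) * ((n : ℝ) ^ (-((1 : ℝ) / 2)) * (m0.choose j : ℝ)) := by
      refine mul_le_mul c8 (c6.trans (mul_le_mul_of_nonneg_right c7 hC0)) (by positivity)
        (by positivity)
    refine h7.trans (le_of_eq ?_)
    rw [← mul_assoc, ← Real.rpow_add hn0]
    norm_num
  · apply Nat.choose_pos
    have : (j : ℝ) ≤ m0 := by linarith
    exact_mod_cast this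

open Classical in
/-- Blueprint 0.5 Case 2: make the maximal R-pair `u b` direct and relabel `j = ceil((log n)/2)`
eligible leaves. At least `choose m j` images, at most `n^(1/4) * B.card^j` preimages. -/
theorem s3a2 : ∀ᶠ n : ℕ in atTop,
    (((cps n).filter (fun P => ∃ B, Good B P ∧ ∃ x y, ¬ Same B x y ∧ Rp B P x y ∧ Maxl P x y)).card : ℝ)
      ≤ (n : ℝ) ^ (-((1 : ℝ) / 4)) * (cps n).card := by
  have h4 : ∀ᶠ n : ℕ in atTop, (100 : ℝ) ≤ (n : ℝ) ^ ((9 : ℝ) / 10) :=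
    ((tendsto_rpow_atTop (by norm_num)).comp tendsto_natCast_atTop_atTop).eventually_ge_atTop 100
  filter_upwards [s3a2_num, goodB, rng_sizes, h4, eventually_ge_atTop 1000] with n hnum hgB hrng h9 hn
  have hn0 : (0 : ℝ) < n := by
    have : 0 < n := by omega
    exact_mod_cast this
  have hn1 : (1000 : ℝ) ≤ n := by exact_mod_cast hn
  have : NeZero n := ⟨by omega⟩
  obtain ⟨hnum1, hnum2⟩ := hnum
  have hL : 0 < Real.log n := Real.log_pos (by linarith)
  have hcomb := s3a2_comb (n := n) ⌈Real.log n / 2⌉₊ ⌊(n : ℝ) ^ ((1 : ℝ) / 10)⌋₊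
    ⌊(n : ℝ) ^ ((1 : ℝ) / 30)⌋₊ ⌈(9 / 10 : ℝ) * n⌉₊ ⌊(n : ℝ) / (19998 / 10000 * Real.log n)⌋₊
    ((cps n).filter (fun P => ∃ B, Good B P ∧ ∃ x y, ¬ Same B x y ∧ Rp B P x y ∧ Maxl P x y))
    ?_ ?_ ?_ hgB ?_ ?_
  · have h1 : (((cps n).filter (fun P => ∃ B, Good B P ∧ ∃ x y, ¬ Same B x y ∧ Rp B P x y ∧
        Maxl P x y)).card : ℝ) * (Nat.choose ⌈(9 / 10 : ℝ) * n⌉₊ ⌈Real.log n / 2⌉₊ : ℕ) ≤
        (n : ℝ) ^ (-((1 : ℝ) / 4)) * (Nat.choose ⌈(9 / 10 : ℝ) * n⌉₊ ⌈Real.log n / 2⌉₊ : ℕ) *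
          (cps n).card := by
      refine le_trans ?_ (mul_le_mul_of_nonneg_right hnum1 (Nat.cast_nonneg _))
      exact_mod_cast hcomb
    have h2 : (0 : ℝ) < (Nat.choose ⌈(9 / 10 : ℝ) * n⌉₊ ⌈Real.log n / 2⌉₊ : ℕ) := by
      exact_mod_cast hnum2
    refine le_of_mul_le_mul_right ?_ h2
    refine h1.trans (le_of_eq ?_)
    ring
  · intro P hP
    rw [mem_filter] at hP
    obtain ⟨hPc, B, hG, x, y, h1, h2, h3⟩ := hP
    by_cases hx : x ∈ B
    · have hy : y ∉ B := by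
        unfold Same at h1; tauto
      exact ⟨B, y, x, hG, hy, hx, s3a2_rp_symm hG.cps h2, s3a2_maxl_symm h3⟩
    · have hy : y ∈ B := by
        unfold Same at h1; tauto
      exact ⟨B, x, y, hG, hx, hy, h2, h3⟩
  · intro B P hG
    exact Nat.le_floor hG.g2
  · intro B P hG x z
    exact Nat.le_floor (hG.g3 x z)
  · intro B P hG
    apply Nat.le_floor
    have h1 := (hrng B hG.g0).2.2.1
    rw [le_div_iff₀ (by positivity)]
    exact h1
  · intro B P u b hG hu hb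
    apply Nat.ceil_le.2
    have h1 := elig_card hG hu hb
    have h2 := (hrng B hG.g0).2.1
    have e1 : (n : ℝ) ^ ((1 : ℝ) / 30) ≤ (n : ℝ) ^ ((1 : ℝ) / 10) :=
      Real.rpow_le_rpow_of_exponent_le (by linarith) (by norm_num)
    have e2 : (n : ℝ) = (n : ℝ) ^ ((9 : ℝ) / 10) * (n : ℝ) ^ ((1 : ℝ) / 10) := by
      rw [← Real.rpow_add hn0]
      norm_num
    have e3 : 100 * (n : ℝ) ^ ((1 : ℝ) / 10) ≤ n := by
      conv_rhs => rw [e2]
      exact mul_le_mul_of_nonneg_right h9 (by positivity)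
    linarith

end PSys
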