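import Mathlib
import Pool.Agent.PSys.Spec
import Pool.Agent.PSys.Upd
import Pool.Agent.PSys.MaxR
import Pool.Agent.PSys.GoodB
import Pool.Agent.PSys.S3A1

/-! Module S3B (blueprint 0.6): good systems without R-pairs violating (c). -/

open Finset Filter

namespace PSys

theorem S3B_symm {n : ℕ} {B : Finset (Fin n)} {x y : Fin n} (h : Same B x y) : Same B y x :=
  Iff.symm h

theorem S3B_trans {n : ℕ} {B : Finset (Fin n)} {x y z : Fin n} (h : Same B x y)
    (h' : Same B y z) : Same B x z := Iff.trans h h'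

open Classical in
/-- triples `(x, m, y)` of neighbours one of which lies in `Z` -/
theorem S3B_triples {n : ℕ} (Z : Finset (Fin n)) (N : Fin n → Finset (Fin n)) (a k : ℕ)
    (hZ : Z.card ≤ a) (hN : ∀ x, (N x).card ≤ k) :
    ∃ T : Finset (Fin n × Fin n × Fin n), (∀ x m y, (x ∈ Z ∨ m ∈ Z ∨ y ∈ Z) → m ∈ N x → x ∈ N m →
      y ∈ N m → m ∈ N y → (x, m, y) ∈ T) ∧ T.card ≤ 3 * (a * (k * k)) := by
  set T1 : Finset (Fin n × Fin n × Fin n) :=
    Z.biUnion (fun x => (N x).biUnion (fun m => (N m).image (fun y => (x, m, y))))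
  set T2 : Finset (Fin n × Fin n × Fin n) :=
    Z.biUnion (fun m => (N m).biUnion (fun x => (N m).image (fun y => (x, m, y))))
  set T3 : Finset (Fin n × Fin n × Fin n) :=
    Z.biUnion (fun y => (N y).biUnion (fun m => (N m).image (fun x => (x, m, y))))
  have hT1 : T1.card ≤ a * (k * k) := by
    refine (card_biUnion_le_card_mul _ _ (k * k) (fun x _ => ?_)).trans
      (Nat.mul_le_mul_right _ hZ)
    refine (card_biUnion_le_card_mul _ _ k (fun m _ => ?_)).trans (Nat.mul_le_mul_right _ (hN x))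
    exact card_image_le.trans (hN m)
  have hT2 : T2.card ≤ a * (k * k) := by
    refine (card_biUnion_le_card_mul _ _ (k * k) (fun x _ => ?_)).trans
      (Nat.mul_le_mul_right _ hZ)
    refine (card_biUnion_le_card_mul _ _ k (fun m _ => ?_)).trans (Nat.mul_le_mul_right _ (hN x))
    exact card_image_le.trans (hN x)
  have hT3 : T3.card ≤ a * (k * k) := by
    refine (card_biUnion_le_card_mul _ _ (k * k) (fun x _ => ?_)).trans
      (Nat.mul_le_mul_right _ hZ)
    refine (card_biUnion_le_card_mul _ _ k (fun m _ => ?_)).trans (Nat.mul_le_mul_right _ (hN x))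
    exact card_image_le.trans (hN m)
  refine ⟨T1 ∪ T2 ∪ T3, ?_, ?_⟩
  · intro x m y h hmx hxm hym hmy
    rcases h with h | h | h
    · refine mem_union_left _ (mem_union_left _ ?_)
      simp only [T1, mem_biUnion, mem_image]
      exact ⟨x, h, m, hmx, y, hym, rfl⟩
    · refine mem_union_left _ (mem_union_right _ ?_)
      simp only [T2, mem_biUnion, mem_image]
      exact ⟨m, h, x, hxm, y, hym, rfl⟩
    · refine mem_union_right _ ?_
      simp only [T3, mem_biUnion, mem_image]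
      exact ⟨y, h, m, hmy, x, hxm, rfl⟩
  · have h1 := card_union_le (T1 ∪ T2) T3
    have h2 := card_union_le T1 T2
    omega

open Classical in
/-- Blueprint 0.6: reset the path `[x, m, y]` to `[x, z, y]`, `z` on the other side. -/
theorem s3b : ∀ᶠ n : ℕ in atTop,
    (((cps n).filter (fun P => ∃ B, Good B P ∧ (∀ x y, ¬ Rp B P x y) ∧ Viol B P)).card : ℝ)
      ≤ (n : ℝ) ^ (-((1 : ℝ) / 4)) * (cps n).card := by
  have hnum : ∀ᶠ n : ℕ in atTop,
      3 * ((n : ℝ) ^ ((1 : ℝ) / 10) * ((n : ℝ) ^ ((1 : ℝ) / 30) * (n : ℝ) ^ ((1 : ℝ) / 30))) ≤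
        (n : ℝ) ^ ((1 : ℝ) / 4) := by
    have h1 : ∀ᶠ n : ℕ in atTop, (3 : ℝ) ≤ (n : ℝ) ^ ((1 : ℝ) / 12) :=
      ((tendsto_rpow_atTop (show (0 : ℝ) < 1 / 12 by norm_num)).comp
        tendsto_natCast_atTop_atTop).eventually_ge_atTop 3
    filter_upwards [h1, eventually_gt_atTop 0] with n h1 hn0
    have hn' : (0 : ℝ) < n := by exact_mod_cast hn0
    have h3 : (n : ℝ) ^ ((1 : ℝ) / 4) =
        (n : ℝ) ^ ((1 : ℝ) / 12) *
          ((n : ℝ) ^ ((1 : ℝ) / 10) * ((n : ℝ) ^ ((1 : ℝ) / 30) * (n : ℝ) ^ ((1 : ℝ) / 30))) := by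
      rw [← Real.rpow_add hn', ← Real.rpow_add hn', ← Real.rpow_add hn']; norm_num
    rw [h3]
    exact mul_le_mul_of_nonneg_right h1 (by positivity)
  filter_upwards [S3A1_dc, S3A1_many, S3A1_B, hnum, eventually_gt_atTop 0] with n hdc hmany hB
    hnum hn0
  have hn : (1 : ℝ) ≤ n := by exact_mod_cast hn0
  refine hdc _ _ (fun P P' => ∃ B x m y z v v', Good B P ∧ P x y = [x, m, y] ∧ Same B x m ∧
    Same B x y ∧ ¬ Same B v v' ∧ ¬ Dir P v v' ∧ (v = x ∨ v = m ∨ v = y) ∧ Maxl P x y ∧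
    ¬ Same B x z ∧ Dir P x z ∧ Dir P z y ∧ P' = S3A1_mod P x y z) ?_ ?_
  · intro P hP
    rw [mem_filter] at hP
    obtain ⟨_, B, hG, hR, x, m, y, v, v', h1, h2, h3, h4, h5, h6⟩ := hP
    have hmax := maxl_of_noR hG.cps B hR h1 h2 h3
    obtain ⟨S, h7, h8⟩ := S3A1_out hG hmax (fun P P' => ∃ B x m y z v v', Good B P ∧
      P x y = [x, m, y] ∧ Same B x m ∧
      Same B x y ∧ ¬ Same B v v' ∧ ¬ Dir P v v' ∧ (v = x ∨ v = m ∨ v = y) ∧ Maxl P x y ∧
      ¬ Same B x z ∧ Dir P x z ∧ Dir P z y ∧ P' = S3A1_mod P x y z)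
      (fun z h9 h10 h11 => ⟨B, x, m, y, z, v, v', hG, h1, h2, h3, h4, h5, h6, hmax, h9, h10, h11,
        rfl⟩)
    refine ⟨S, h7, (hmany B P hG x y h3).trans (le_of_eq ?_)⟩
    rw [← h8]
  · intro P' hP'
    have hP'c := mem_cps.1 hP'
    set Bs := univ.filter (fun v => (n : ℝ) / 2 ≤ (univ.filter (fun w => Dir P' v w)).card)
      with hBs
    by_cases h0 : ∃ P0, ∃ B x m y z v v', Good B P0 ∧ P0 x y = [x, m, y] ∧ Same B x m ∧
        Same B x y ∧ ¬ Same B v v' ∧ ¬ Dir P0 v v' ∧ (v = x ∨ v = m ∨ v = y) ∧ Maxl P0 x y ∧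
        ¬ Same B x z ∧ Dir P0 x z ∧ Dir P0 z y ∧ P' = S3A1_mod P0 x y z
    swap
    · exact ⟨∅, fun P _ hP => absurd ⟨P, hP⟩ h0, by simp; positivity⟩
    obtain ⟨P0, hP0⟩ := h0
    have key : ∀ P, (∃ B x m y z v v', Good B P ∧ P x y = [x, m, y] ∧ Same B x m ∧
        Same B x y ∧ ¬ Same B v v' ∧ ¬ Dir P v v' ∧ (v = x ∨ v = m ∨ v = y) ∧ Maxl P x y ∧
        ¬ Same B x z ∧ Dir P x z ∧ Dir P z y ∧ P' = S3A1_mod P x y z) →
        ∃ x m y z v v', Good Bs P ∧ P x y = [x, m, y] ∧ Same Bs x m ∧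
        Same Bs x y ∧ ¬ Same Bs v v' ∧ ¬ Dir P' v v' ∧ (v = x ∨ v = m ∨ v = y) ∧
        Dir P' x m ∧ Dir P' m y ∧ Maxl P x y ∧ P' = S3A1_mod P x y z ∧
        (∀ a b, Dir P' a b ↔ Dir P a b) := by
      rintro P ⟨B, x, m, y, z, v, v', hG, h1, h2, h3, h4, h5, h6, h7, h8, h9, h10, h11⟩
      have hnd : ¬ Dir P x y := by
        intro hd
        have := hd.2
        rw [h1] at this
        simp at this
      have hdir : ∀ a b, Dir P' a b ↔ Dir P a b := by
        intro a b; rw [h11]; exact S3A1_dir hG.cps h7.1 hnd a b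
      have hBB : B = Bs := by
        rw [hBs, h11]
        exact hB B P hG x y z h7.1 hnd
      have hm : m ∈ P x y := by rw [h1]; simp
      have hnod := hG.cps.nodup x y
      rw [h1] at hnod
      simp only [List.nodup_cons, List.mem_cons, List.not_mem_nil, or_false,
        not_or, not_false_iff, List.nodup_nil, and_true] at hnod
      have hl := hG.cps.fam.length_add hm
      have hl1 := hG.cps.fam.two_le (hG.cps.ne_nil x m) hnod.1.1
      have hl2 := hG.cps.fam.two_le (hG.cps.ne_nil m y) hnod.2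
      rw [h1] at hl
      simp only [List.length_cons, List.length_nil] at hl
      have hxm : Dir P x m := (hG.cps.fam.dir_iff_length (hG.cps.ne_nil x m) hnod.1.1).2 (by omega)
      have hmy : Dir P m y := (hG.cps.fam.dir_iff_length (hG.cps.ne_nil m y) hnod.2).2 (by omega)
      subst hBB
      exact ⟨x, m, y, z, v, v', hG, h1, h2, h3, h4, fun h => h5 ((hdir v v').1 h), h6,
        (hdir _ _).2 hxm, (hdir _ _).2 hmy, h7, h11, hdir⟩
    obtain ⟨x0, m0, y0, z0, v0, v0', hG0, _, _, _, _, _, _, _, _, _, _, hd0⟩ := key P0 hP0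
    set Z := univ.filter (fun v => ∃ v', ¬ Same Bs v v' ∧ ¬ Dir P' v v') with hZ
    set N : Fin n → Finset (Fin n) := fun x => univ.filter (fun y => Same Bs x y ∧ Dir P' x y)
      with hN
    have hZc : Z.card ≤ ⌊(n : ℝ) ^ ((1 : ℝ) / 10)⌋₊ := by
      refine Nat.le_floor (le_trans ?_ hG0.g2)
      rw [Nat.cast_le]
      have hsub : Z ⊆ (univ.filter (fun p : Fin n × Fin n => Special Bs P0 p.1 p.2)).image
          Prod.fst := by
        intro v hv
        rw [hZ, mem_filter] at hv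
        obtain ⟨_, v', h1, h2⟩ := hv
        rw [mem_image]
        refine ⟨(v, v'), ?_, rfl⟩
        rw [mem_filter]
        have hne : v ≠ v' := by
          intro h; apply h1; rw [h]; unfold Same; exact Iff.rfl
        refine ⟨mem_univ _, hne, fun h3 => h2 ((hd0 v v').2 ⟨hne, h3⟩), fun z hz => h1 hz.2.1⟩
      exact (card_le_card hsub).trans card_image_le
    have hNc : ∀ x, (N x).card ≤ ⌊(n : ℝ) ^ ((1 : ℝ) / 30)⌋₊ := by
      intro x
      refine Nat.le_floor (le_trans (le_of_eq ?_) (hG0.g1 x))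
      congr 2
      ext y
      simp only [hN, mem_filter, mem_univ, true_and, hd0]
    obtain ⟨T, hT1, hT2⟩ := S3B_triples Z N _ _ hZc hNc
    refine ⟨T.image (fun t => S3A1_rec P' [t.1, t.2.1, t.2.2]), ?_, ?_⟩
    · intro P _ hP
      obtain ⟨x, m, y, z, v, v', hG, h1, h2, h3, h4, h5, h6, h7, h8, h9, h10, h11⟩ := key P hP
      rw [mem_image]
      refine ⟨(x, m, y), hT1 x m y ?_ ?_ ?_ ?_ ?_, ?_⟩
      · have hv : v ∈ Z := by
          rw [hZ, mem_filter]
          exact ⟨mem_univ _, v', h4, h5⟩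
        rcases h6 with rfl | rfl | rfl
        · exact Or.inl hv
        · exact Or.inr (Or.inl hv)
        · exact Or.inr (Or.inr hv)
      · simp only [hN, mem_filter, mem_univ, true_and]
        exact ⟨h2, h7⟩
      · simp only [hN, mem_filter, mem_univ, true_and]
        exact ⟨S3B_symm h2, hP'c.fam.dir_symm.2 h7⟩
      · simp only [hN, mem_filter, mem_univ, true_and]
        exact ⟨S3B_trans (S3B_symm h2) h3, h8⟩
      · simp only [hN, mem_filter, mem_univ, true_and]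
        exact ⟨S3B_trans (S3B_symm h3) h2, hP'c.fam.dir_symm.2 h8⟩
      · rw [h10]
        have := S3A1_rec_mod hG.cps (x := x) (y := y) (z := z)
        rw [h1] at this
        exact this
    · have hcard' : ((T.image (fun t => S3A1_rec P' [t.1, t.2.1, t.2.2])).card : ℝ) ≤
          3 * (⌊(n : ℝ) ^ ((1 : ℝ) / 10)⌋₊ *
          (⌊(n : ℝ) ^ ((1 : ℝ) / 30)⌋₊ * ⌊(n : ℝ) ^ ((1 : ℝ) / 30)⌋₊)) := by
        exact_mod_cast card_image_le.trans hT2
      have e1 : (⌊(n : ℝ) ^ ((1 : ℝ) / 10)⌋₊ : ℝ) ≤ (n : ℝ) ^ ((1 : ℝ) / 10) :=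
        Nat.floor_le (by positivity)
      have e2 : (⌊(n : ℝ) ^ ((1 : ℝ) / 30)⌋₊ : ℝ) ≤ (n : ℝ) ^ ((1 : ℝ) / 30) :=
        Nat.floor_le (by positivity)
      refine hcard'.trans (le_trans ?_ hnum)
      have e3 : (0 : ℝ) ≤ (⌊(n : ℝ) ^ ((1 : ℝ) / 10)⌋₊ : ℝ) := Nat.cast_nonneg _
      have e4 : (0 : ℝ) ≤ (⌊(n : ℝ) ^ ((1 : ℝ) / 30)⌋₊ : ℝ) := Nat.cast_nonneg _
      gcongr

end PSys
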