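import Mathlib
import Pool.Agent.PSys.Crit
import Pool.Agent.PSys.S3A1
import Pool.Agent.PSys.S3A2
import Pool.Agent.PSys.S3B

/-! Stage 3 assembled. -/

open Finset Filter

namespace PSys

open Classical in
/-- Stage 3: good systems which are not metric are rare. -/
theorem st3 : ∀ᶠ n : ℕ in atTop,
    (((cps n).filter (fun P => (∃ B, Good B P) ∧ ¬ IsMetric P)).card : ℝ)
      ≤ 3 * (n : ℝ) ^ (-((1 : ℝ) / 4)) * (cps n).card := by
  filter_upwards [s3a1, s3a2, s3b] with n h1 h2 h3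
  set X1 := (cps n).filter (fun P => ∃ B, Good B P ∧ ∃ x y, Same B x y ∧ Rp B P x y ∧ Maxl P x y)
  set X2 := (cps n).filter (fun P => ∃ B, Good B P ∧ ∃ x y, ¬ Same B x y ∧ Rp B P x y ∧ Maxl P x y)
  set X3 := (cps n).filter (fun P => ∃ B, Good B P ∧ (∀ x y, ¬ Rp B P x y) ∧ Viol B P)
  have hsub : (cps n).filter (fun P => (∃ B, Good B P) ∧ ¬ IsMetric P) ⊆ X1 ∪ X2 ∪ X3 := by
    intro P hP
    rw [mem_filter] at hP
    obtain ⟨hP0, ⟨B, hB⟩, hm⟩ := hP
    have hcps := mem_cps.1 hP0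
    by_cases hR : ∃ x y, Rp B P x y
    · obtain ⟨x, y, hxy, hmax⟩ := maxr hcps B hR
      by_cases hs : Same B x y
      · exact mem_union_left _ (mem_union_left _ (mem_filter.2 ⟨hP0, B, hB, x, y, hs, hxy, hmax⟩))
      · exact mem_union_left _ (mem_union_right _ (mem_filter.2 ⟨hP0, B, hB, x, y, hs, hxy, hmax⟩))
    · have hR' : ∀ x y, ¬ Rp B P x y := fun x y h => hR ⟨x, y, h⟩
      by_cases hv : Viol B P
      · exact mem_union_right _ (mem_filter.2 ⟨hP0, B, hB, hR', hv⟩)
      · exact absurd (crit hcps B hR' hv) hm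
  have hc : ((cps n).filter (fun P => (∃ B, Good B P) ∧ ¬ IsMetric P)).card
      ≤ X1.card + X2.card + X3.card := by
    refine (card_le_card hsub).trans ?_
    refine (card_union_le _ _).trans ?_
    have := card_union_le X1 X2
    omega
  have hc' : (((cps n).filter (fun P => (∃ B, Good B P) ∧ ¬ IsMetric P)).card : ℝ)
      ≤ X1.card + X2.card + X3.card := by exact_mod_cast hc
  nlinarith [hc', h1, h2, h3]

end PSys
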