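import Mathlib
import Pool.Agent.PSys.ST1
import Pool.Agent.PSys.ST2
import Pool.Agent.PSys.ST3
import Pool.Agent.PSys.Num3

/-! Conclusion (blueprint 3.10). -/

open Finset Filter

namespace PSys

open Classical in
theorem nonmetric_rare : ∀ᶠ n : ℕ in atTop,
    (((cps n).filter (fun P => ¬ IsMetric P)).card : ℝ) ≤
      (Real.exp (-(n : ℝ)) +
        2 * Real.exp ((n : ℝ) ^ ((1 : ℝ) / 42) - (n : ℝ) ^ ((1 : ℝ) / 32)) +
        3 * (n : ℝ) ^ (-((1 : ℝ) / 4))) * (cps n).card := by
  filter_upwards [st1, st2, st3] with n h1 h2 h3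
  have hsub : (cps n).filter (fun P => ¬ IsMetric P) ⊆
      ((cps n).filter (fun P => ¬ CS1 (fG P)) ∪
        (cps n).filter (fun P => CS1 (fG P) ∧ ¬ ∃ B, Good B P)) ∪
        (cps n).filter (fun P => (∃ B, Good B P) ∧ ¬ IsMetric P) := by
    intro P hP
    rw [mem_filter] at hP
    simp only [mem_union, mem_filter]
    tauto
  have hc := (card_le_card hsub).trans ((card_union_le _ _).trans
    (Nat.add_le_add_right (card_union_le _ _) _))
  have hc' : (((cps n).filter (fun P => ¬ IsMetric P)).card : ℝ) ≤
      ((cps n).filter (fun P => ¬ CS1 (fG P))).card +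
        ((cps n).filter (fun P => CS1 (fG P) ∧ ¬ ∃ B, Good B P)).card +
        ((cps n).filter (fun P => (∃ B, Good B P) ∧ ¬ IsMetric P)).card := by
    exact_mod_cast hc
  nlinarith [hc', h1, h2, h3]

theorem cps_card_pos (n : ℕ) : 0 < (cps n).card := by
  rw [card_pos]
  classical
  refine ⟨fun u v => if u = v then [u] else [u, v], mem_cps.2 ?_⟩
  constructor
  · intro u; simp
  · intro u v
    by_cases h : u = v <;> simp [h]
  · intro u v
    by_cases h : u = v <;> simp [h]
  · intro u v
    by_cases h : u = v <;> simp [h]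
  · intro u v
    by_cases h : u = v
    · subst h; simp
    · have h' : ¬ v = u := fun e => h e.symm
      simp [h, h']
  · intro u v a ha
    by_cases h : u = v
    · subst h
      simp at ha
      subst ha
      simp
    · simp [h] at ha
      rcases ha with rfl | rfl
      · simp [h]
      · simp [h]

/-- almost all consistent path systems are metric -/
theorem ratio_tendsto : Tendsto (fun n : ℕ =>
    (({P : Sys n | IsCPS P ∧ IsMetric P}.ncard : ℕ) : ℝ) / ({P : Sys n | IsCPS P}.ncard : ℕ))
    atTop (nhds 1) := by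
  classical
  have hc : ∀ n : ℕ, {P : Sys n | IsCPS P}.ncard = (cps n).card := by
    intro n
    rw [Set.ncard_eq_toFinset_card _ (finite_cps n)]
    rfl
  have hm : ∀ n : ℕ, {P : Sys n | IsCPS P ∧ IsMetric P}.ncard =
      ((cps n).filter (fun P => IsMetric P)).card := by
    intro n
    rw [← Set.ncard_coe_finset]
    congr 1
    ext P
    simp [mem_cps]
  have hsum : ∀ n : ℕ, (((cps n).filter (fun P => IsMetric P)).card : ℝ) =
      (cps n).card - ((cps n).filter (fun P => ¬ IsMetric P)).card := by
    intro n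
    have := card_filter_add_card_filter_not (s := cps n) (fun P => IsMetric P)
    have h2 : (((cps n).filter (fun P => IsMetric P)).card : ℝ) +
      ((cps n).filter (fun P => ¬ IsMetric P)).card = (cps n).card := by exact_mod_cast this
    linarith
  have hlim : Tendsto (fun n : ℕ => 1 - (Real.exp (-(n : ℝ)) +
      2 * Real.exp ((n : ℝ) ^ ((1 : ℝ) / 42) - (n : ℝ) ^ ((1 : ℝ) / 32)) +
      3 * (n : ℝ) ^ (-((1 : ℝ) / 4)))) atTop (nhds 1) := by
    simpa using (tendsto_const_nhds (x := (1 : ℝ))).sub num3
  refine tendsto_of_tendsto_of_tendsto_of_le_of_le' hlim tendsto_const_nhds ?_ ?_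
  · filter_upwards [nonmetric_rare] with n h
    rw [hc, hm, hsum]
    have hpos : (0 : ℝ) < (cps n).card := by exact_mod_cast cps_card_pos n
    rw [le_div_iff₀ hpos]
    linarith
  · filter_upwards with n
    rw [hc, hm]
    have hpos : (0 : ℝ) < (cps n).card := by exact_mod_cast cps_card_pos n
    rw [div_le_one hpos]
    exact_mod_cast card_le_card (filter_subset _ _)

end PSys
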